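import Pool.Agent.FRM.Wk3

/-!
# FRM/Cb1: rules for ch and tv

PROOF PLAN.  `ω ≠ 0`, `ω ^ 3 = 1`, `ω ≠ 1` if the characteristic is not 3 (not needed: all we need is `ω ^ 2 + ω + 1 = 0`; for `ch_ne` one needs `(3 : k) ≠ 0`,
which is a hypothesis).  Inductions on lists.
-/

set_option autoImplicit false

noncomputable section

open scoped Classical

namespace Pool.Agent.FRM

open GG

variable {V E : Type} {k : Type} [Field k] {ω : k} {Γ : GG V E Lt}

theorem om_ne (hω : ω ^ 2 + ω + 1 = 0) : ω ≠ 0 := by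
  intro h
  rw [h] at hω
  simp at hω

theorem om_cube (hω : ω ^ 2 + ω + 1 = 0) : ω ^ 3 = 1 := by
  have h : ω ^ 3 - 1 = (ω - 1) * (ω ^ 2 + ω + 1) := by ring
  rw [hω, mul_zero] at h
  exact sub_eq_zero.1 h

theorem ch_zero : ch ω 0 = 1 := by
  simp [ch]

theorem ch_add (hω : ω ^ 2 + ω + 1 = 0) (a b : Lt) : ch ω (a + b) = ch ω a * ch ω b := by
  unfold ch
  rw [← zpow_add₀ (om_ne hω)]
  congr 1
  show a.1 + b.1 + (a.2 + b.2) = a.1 + a.2 + (b.1 + b.2)
  ring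

theorem ch_ne_zero (hω : ω ^ 2 + ω + 1 = 0) (a : Lt) : ch ω a ≠ 0 := by
  unfold ch
  exact zpow_ne_zero _ (om_ne hω)

theorem ch_neg (hω : ω ^ 2 + ω + 1 = 0) (a : Lt) : ch ω (-a) = (ch ω a)⁻¹ := by
  unfold ch
  rw [← zpow_neg]
  congr 1
  show -a.1 + -a.2 = -(a.1 + a.2)
  ring

theorem ch_ne (hω : ω ^ 2 + ω + 1 = 0) (h3 : (3 : k) ≠ 0) {a b : Lt} (h : a - b ∈ hx) : ch ω a ≠ ch ω b := by
  intro hab
  have h0 : ω ≠ 0 := om_ne hω
  have hc := om_cube hω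
  have h1 : ω ≠ 1 := by
    intro h1
    rw [h1] at hω
    apply h3
    rw [← hω]
    norm_num
  have h2 : ω ^ 2 ≠ 1 := by
    intro h2
    apply h1
    have : ω ^ 3 = ω ^ 2 * ω := by ring
    rw [h2, one_mul, hc] at this
    exact this.symm
  have key : ω ^ ((a - b).1 + (a - b).2) = 1 := by
    have e1 : ch ω (a - b + b) = ch ω (a - b) * ch ω b := ch_add hω _ _
    rw [sub_add_cancel, hab] at e1
    have e2 : ch ω (a - b) = 1 := by
      have := mul_right_cancel₀ (ch_ne_zero hω b) (show ch ω (a - b) * ch ω b = 1 * ch ω b by rw [one_mul]; exact e1.symm)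
      exact this
    exact e2
  have hcases : (a - b).1 + (a - b).2 = 1 ∨ (a - b).1 + (a - b).2 = 2 ∨ (a - b).1 + (a - b).2 = -1 ∨
      (a - b).1 + (a - b).2 = -2 := by
    generalize a - b = q at h
    unfold hx at h
    simp only [Finset.mem_insert, Finset.mem_singleton] at h
    rcases h with h | h | h | h | h | h <;> subst h <;> decide
  rcases hcases with h4 | h4 | h4 | h4
  · rw [h4, zpow_one] at key
    exact h1 key
  · rw [h4] at key
    exact h2 (by exact_mod_cast key)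
  · rw [h4, zpow_neg, zpow_one, inv_eq_one] at key
    exact h1 key
  · rw [h4, zpow_neg, inv_eq_one] at key
    exact h2 (by exact_mod_cast key)

theorem tv_append (hω : ω ^ 2 + ω + 1 = 0) (v : E → k) (l l' : List (Da E)) :
    tv ω Γ v (l ++ l') = tv ω Γ v l + ch ω (Γ.gn l) * tv ω Γ v l' := by
  induction l with
  | nil =>
    rw [List.nil_append, gn_nil, ch_zero]
    show tv ω Γ v l' = 0 + 1 * tv ω Γ v l'
    ring
  | cons d l ih =>
    rw [List.cons_append, gn_cons, ch_add hω]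
    show dv ω Γ v d + ch ω (Γ.dg d) * tv ω Γ v (l ++ l') =
      dv ω Γ v d + ch ω (Γ.dg d) * tv ω Γ v l + ch ω (Γ.dg d) * ch ω (Γ.gn l) * tv ω Γ v l'
    rw [ih]
    ring

private theorem Cb1_dv_fl (hω : ω ^ 2 + ω + 1 = 0) (v : E → k) (d : Da E) :
    dv ω Γ v (fl d) = -(ch ω (-Γ.dg d) * dv ω Γ v d) := by
  obtain ⟨e, s⟩ := d
  cases s
  · show v e = -(ch ω (- -Γ.g e) * -(ch ω (-Γ.g e) * v e))
    have h8 : ch ω (- -Γ.g e) * ch ω (-Γ.g e) = 1 := by
      rw [← ch_add hω, neg_add_cancel, ch_zero]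
    linear_combination (-v e) * h8
  · rfl

theorem tv_rv (hω : ω ^ 2 + ω + 1 = 0) (v : E → k) (l : List (Da E)) :
    tv ω Γ v (rv l) = -(ch ω (-Γ.gn l) * tv ω Γ v l) := by
  induction l with
  | nil =>
    rw [rv_nil]
    show (0 : k) = -(ch ω (-Γ.gn []) * 0)
    ring
  | cons d l ih =>
    rw [rv_cons, tv_append hω, ih, gn_rv, gn_cons, neg_add, ch_add hω]
    show -(ch ω (-Γ.gn l) * tv ω Γ v l) + ch ω (-Γ.gn l) * (dv ω Γ v (fl d) + ch ω (Γ.dg (fl d)) * 0) =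
      -(ch ω (-Γ.dg d) * ch ω (-Γ.gn l) * (dv ω Γ v d + ch ω (Γ.dg d) * tv ω Γ v l))
    rw [Cb1_dv_fl hω]
    have h1 : ch ω (-Γ.dg d) * ch ω (Γ.dg d) = 1 := by
      rw [← ch_add hω, neg_add_cancel, ch_zero]
    linear_combination (ch ω (-Γ.gn l) * tv ω Γ v l) * h1

theorem tv_single (v : E → k) (e : E) : tv ω Γ v [(e, true)] = v e := by
  show v e + ch ω (Γ.dg (e, true)) * 0 = v e
  ring

/-- `tv` only depends on the values on the edges of the list -/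
theorem tv_congr {v v' : E → k} {l : List (Da E)} (h : ∀ d ∈ l, v d.1 = v' d.1) : tv ω Γ v l = tv ω Γ v' l := by
  induction l with
  | nil => rfl
  | cons d l ih =>
    show dv ω Γ v d + ch ω (Γ.dg d) * tv ω Γ v l = dv ω Γ v' d + ch ω (Γ.dg d) * tv ω Γ v' l
    rw [ih fun d' hd' => h d' (List.mem_cons_of_mem d hd')]
    have h1 : dv ω Γ v d = dv ω Γ v' d := by
      unfold dv
      rw [h d List.mem_cons_self]
    rw [h1]

theorem tv_add (v v' : E → k) (l : List (Da E)) :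
    tv ω Γ (fun e => v e + v' e) l = tv ω Γ v l + tv ω Γ v' l := by
  induction l with
  | nil =>
    show (0 : k) = 0 + 0
    ring
  | cons d l ih =>
    show dv ω Γ (fun e => v e + v' e) d + ch ω (Γ.dg d) * tv ω Γ (fun e => v e + v' e) l =
      dv ω Γ v d + ch ω (Γ.dg d) * tv ω Γ v l + (dv ω Γ v' d + ch ω (Γ.dg d) * tv ω Γ v' l)
    rw [ih]
    unfold dv
    split <;> ring

theorem tv_sub (v v' : E → k) (l : List (Da E)) :
    tv ω Γ (fun e => v e - v' e) l = tv ω Γ v l - tv ω Γ v' l := by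
  induction l with
  | nil =>
    show (0 : k) = 0 - 0
    ring
  | cons d l ih =>
    show dv ω Γ (fun e => v e - v' e) d + ch ω (Γ.dg d) * tv ω Γ (fun e => v e - v' e) l =
      dv ω Γ v d + ch ω (Γ.dg d) * tv ω Γ v l - (dv ω Γ v' d + ch ω (Γ.dg d) * tv ω Γ v' l)
    rw [ih]
    unfold dv
    split <;> ring

theorem tv_smul (μ : k) (v : E → k) (l : List (Da E)) : tv ω Γ (fun e => μ * v e) l = μ * tv ω Γ v l := by
  induction l with
  | nil =>
    show (0 : k) = μ * 0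
    ring
  | cons d l ih =>
    show dv ω Γ (fun e => μ * v e) d + ch ω (Γ.dg d) * tv ω Γ (fun e => μ * v e) l =
      μ * (dv ω Γ v d + ch ω (Γ.dg d) * tv ω Γ v l)
    rw [ih]
    unfold dv
    split <;> ring

/-- coboundaries on a walk -/
theorem tv_cob (hω : ω ^ 2 + ω + 1 = 0) (v : E → k) (c : V → k) {a b : V} {l : List (Da E)} (h : Γ.Wk a l b)
    (hc : ∀ d ∈ l, v d.1 = c (Γ.s d.1) - ch ω (Γ.g d.1) * c (Γ.t d.1)) :
    tv ω Γ v l = c a - ch ω (Γ.gn l) * c b := by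
  induction l generalizing a with
  | nil =>
    have h1 : a = b := h
    rw [h1, gn_nil, ch_zero]
    show (0 : k) = c b - 1 * c b
    ring
  | cons d l ih =>
    obtain ⟨h1, h2, h3⟩ := h
    have h4 := ih h3 fun d' hd' => hc d' (List.mem_cons_of_mem d hd')
    have h5 : dv ω Γ v d = c (Γ.src d) - ch ω (Γ.dg d) * c (Γ.tgt d) := by
      have h6 := hc d List.mem_cons_self
      obtain ⟨e, s⟩ := d
      cases s
      · show -(ch ω (-Γ.g e) * v e) = c (Γ.t e) - ch ω (-Γ.g e) * c (Γ.s e)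
        have h7 : v e = c (Γ.s e) - ch ω (Γ.g e) * c (Γ.t e) := h6
        have h8 : ch ω (-Γ.g e) * ch ω (Γ.g e) = 1 := by
          rw [← ch_add hω, neg_add_cancel, ch_zero]
        rw [h7]
        linear_combination (c (Γ.t e)) * h8
      · exact h6
    rw [gn_cons, ch_add hω, ← h2]
    show dv ω Γ v d + ch ω (Γ.dg d) * tv ω Γ v l = _
    rw [h4, h5]
    ring

theorem zc_add {v v' : E → k} (h : Zc ω Γ v) (h' : Zc ω Γ v') : Zc ω Γ fun e => v e + v' e := by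
  intro x y P P' hc hg
  rw [tv_add, tv_add, h x y P P' hc hg, h' x y P P' hc hg]

theorem zc_sub {v v' : E → k} (h : Zc ω Γ v) (h' : Zc ω Γ v') : Zc ω Γ fun e => v e - v' e := by
  intro x y P P' hc hg
  rw [tv_sub, tv_sub, h x y P P' hc hg, h' x y P P' hc hg]

theorem zc_smul (μ : k) {v : E → k} (h : Zc ω Γ v) : Zc ω Γ fun e => μ * v e := by
  intro x y P P' hc hg
  rw [tv_smul, tv_smul, h x y P P' hc hg]

theorem zc_of_cob (hω : ω ^ 2 + ω + 1 = 0) {v : E → k} (h : Cob ω Γ v) : Zc ω Γ v := by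
  obtain ⟨c, hc⟩ := h
  intro x y P P' hP hg
  rw [tv_cob hω v c hP.p.1 fun d hd => hc d.1 (wk_mem hP.p.1 d hd).1,
    tv_cob hω v c hP.p'.1 fun d hd => hc d.1 (wk_mem hP.p'.1 d hd).1, hg]

private theorem Cb1_tv_on (B : Finset E) (v : E → k) (l : List (Da E)) : tv ω (Γ.on B) v l = tv ω Γ v l := by
  induction l with
  | nil => rfl
  | cons d l ih =>
    show dv ω Γ v d + ch ω (Γ.dg d) * tv ω (Γ.on B) v l = dv ω Γ v d + ch ω (Γ.dg d) * tv ω Γ v l
    rw [ih]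

theorem zc_on {B : Finset E} (hB : B ⊆ Γ.A) {v : E → k} (h : Zc ω Γ v) : Zc ω (Γ.on B) v := by
  intro x y P P' hc hg
  rw [Cb1_tv_on, Cb1_tv_on]
  exact h x y P P' ((cy_on hB).1 hc).1 hg

theorem cob_on {B : Finset E} (hB : B ⊆ Γ.A) {v : E → k} (h : Cob ω Γ v) : Cob ω (Γ.on B) v := by
  obtain ⟨c, hc⟩ := h
  exact ⟨c, fun f hf => hc f (hB hf)⟩

theorem cob_add {v v' : E → k} (h : Cob ω Γ v) (h' : Cob ω Γ v') : Cob ω Γ fun e => v e + v' e := by
  obtain ⟨c, hc⟩ := h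
  obtain ⟨c', hc'⟩ := h'
  refine ⟨fun z => c z + c' z, fun f hf => ?_⟩
  show v f + v' f = c (Γ.s f) + c' (Γ.s f) - ch ω (Γ.g f) * (c (Γ.t f) + c' (Γ.t f))
  rw [hc f hf, hc' f hf]
  ring

theorem cob_sub {v v' : E → k} (h : Cob ω Γ v) (h' : Cob ω Γ v') : Cob ω Γ fun e => v e - v' e := by
  obtain ⟨c, hc⟩ := h
  obtain ⟨c', hc'⟩ := h'
  refine ⟨fun z => c z - c' z, fun f hf => ?_⟩
  show v f - v' f = c (Γ.s f) - c' (Γ.s f) - ch ω (Γ.g f) * (c (Γ.t f) - c' (Γ.t f))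
  rw [hc f hf, hc' f hf]
  ring

theorem cob_smul (μ : k) {v : E → k} (h : Cob ω Γ v) : Cob ω Γ fun e => μ * v e := by
  obtain ⟨c, hc⟩ := h
  refine ⟨fun z => μ * c z, fun f hf => ?_⟩
  show μ * v f = μ * c (Γ.s f) - ch ω (Γ.g f) * (μ * c (Γ.t f))
  rw [hc f hf]
  ring

theorem zc_congr {v v' : E → k} (h : Zc ω Γ v) (hv : ∀ e ∈ Γ.A, v e = v' e) : Zc ω Γ v' := by
  intro x y P P' hP hg
  rw [← tv_congr fun d hd => hv d.1 (wk_mem hP.p.1 d hd).1,
    ← tv_congr fun d hd => hv d.1 (wk_mem hP.p'.1 d hd).1]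
  exact h x y P P' hP hg

theorem cob_congr {v v' : E → k} (h : Cob ω Γ v) (hv : ∀ e ∈ Γ.A, v e = v' e) : Cob ω Γ v' := by
  obtain ⟨c, hc⟩ := h
  exact ⟨c, fun f hf => by rw [← hv f hf]; exact hc f hf⟩

end Pool.Agent.FRM
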