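import Pool.Agent.FRM.Sp2
import Pool.Agent.FRM.Cb1

/-!
# FRM/Aug: the graphs aug

PROOF PLAN.  `il` embeds lists of darts of `Γ` into lists of darts of `Γ.aug B x y S`.  `aug_pt_cases`: a simple path of `aug` uses at most one edge `inr s` (two of them would visit `x` twice); so it is `il l` or `il l₁ ++ [(inr s, b)] ++ il l₃`.
`aug_C2` (`B = A₁`): vertices of `aug A₁ x y S` are those of `A₁` (`sep_mem`).  Loopless.  For a vertex `z` and `a, b ∈ V(A₁) - z` take a simple path of `Γ - z` from `a` to `b` (`cut`, `pt_of_wk`), `sep_split`, and replace the part `l₂ ⊆ A₂` between `x` and `y` by a dart of `inr s` (some `s ∈ S`).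
-/

set_option autoImplicit false

noncomputable section

open scoped Classical

namespace Pool.Agent.FRM

open GG

variable {V E Q : Type} [AddCommGroup Q] {Γ : GG V E Q}

/-- embedding of lists of darts -/
def il {E Q : Type} (l : List (Da E)) : List (Da (E ⊕ Q)) := l.map fun d => (Sum.inl d.1, d.2)

theorem il_append (l l' : List (Da E)) : (il (l ++ l') : List (Da (E ⊕ Q))) = il l ++ il l' := by
  simp [il]

theorem aug_mem_inl {B : Finset E} {x y : V} {S : Finset Q} {e : E} : Sum.inl e ∈ (Γ.aug B x y S).A ↔ e ∈ B := by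
  simp [GG.aug]

theorem aug_mem_inr {B : Finset E} {x y : V} {S : Finset Q} {s : Q} : Sum.inr s ∈ (Γ.aug B x y S).A ↔ s ∈ S := by
  simp [GG.aug]

private theorem Aug_src {B : Finset E} {x y : V} {S : Finset Q} (d : Da E) :
    (Γ.aug B x y S).src (Sum.inl d.1, d.2) = Γ.src d := by
  simp [GG.src, GG.aug]

private theorem Aug_tgt {B : Finset E} {x y : V} {S : Finset Q} (d : Da E) :
    (Γ.aug B x y S).tgt (Sum.inl d.1, d.2) = Γ.tgt d := by
  simp [GG.tgt, GG.aug]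

private theorem Aug_dg {B : Finset E} {x y : V} {S : Finset Q} (d : Da E) :
    (Γ.aug B x y S).dg (Sum.inl d.1, d.2) = Γ.dg d := by
  simp [GG.dg, GG.aug]

private theorem Aug_wk {B : Finset E} {x y : V} {S : Finset Q} {b : V} : ∀ {l : List (Da E)} {a : V},
    (Γ.aug B x y S).Wk a (il l) b ↔ (Γ.on B).Wk a l b := by
  intro l
  induction l with
  | nil => intro a; exact Iff.rfl
  | cons d l ih =>
    intro a
    show (Sum.inl d.1 ∈ (Γ.aug B x y S).A ∧ (Γ.aug B x y S).src (Sum.inl d.1, d.2) = a ∧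
      (Γ.aug B x y S).Wk ((Γ.aug B x y S).tgt (Sum.inl d.1, d.2)) (il l) b) ↔
      (d.1 ∈ B ∧ Γ.src d = a ∧ (Γ.on B).Wk (Γ.tgt d) l b)
    rw [aug_mem_inl, Aug_src, Aug_tgt, ih]

theorem aug_vs {B : Finset E} {x y : V} {S : Finset Q} (a : V) (l : List (Da E)) :
    (Γ.aug B x y S).vs a (il l) = Γ.vs a l := by
  unfold GG.vs il
  rw [List.map_map]
  congr 1

theorem aug_pt {B : Finset E} (hB : B ⊆ Γ.A) {x y : V} {S : Finset Q} {a b : V} {l : List (Da E)} :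
    (Γ.aug B x y S).Pt a (il l) b ↔ (Γ.on B).Pt a l b := by
  unfold GG.Pt
  rw [Aug_wk, aug_vs]
  exact Iff.rfl

theorem aug_gn {B : Finset E} {x y : V} {S : Finset Q} (l : List (Da E)) : (Γ.aug B x y S).gn (il l) = Γ.gn l := by
  unfold GG.gn il
  rw [List.map_map]
  congr 1

private theorem Aug_dec (l : List (Da (E ⊕ Q))) :
    (∃ l₀, l = il l₀) ∨ ∃ l₁ s c l₂, l = il l₁ ++ (Sum.inr s, c) :: l₂ := by
  induction l with
  | nil => exact Or.inl ⟨[], rfl⟩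
  | cons d l ih =>
    obtain ⟨e, c⟩ := d
    cases e with
    | inr s => exact Or.inr ⟨[], s, c, l, rfl⟩
    | inl e =>
      rcases ih with ⟨l₀, rfl⟩ | ⟨l₁, s, c', l₂, rfl⟩
      · exact Or.inl ⟨(e, c) :: l₀, rfl⟩
      · exact Or.inr ⟨(e, c) :: l₁, s, c', l₂, rfl⟩

private theorem Aug_both {B : Finset E} {x y : V} {S : Finset Q} {a b : V} {l : List (Da (E ⊕ Q))}
    (h : (Γ.aug B x y S).Wk a l b) {s : Q} {c : Bool} (hs : ((Sum.inr s, c) : Da (E ⊕ Q)) ∈ l) :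
    x ∈ (Γ.aug B x y S).vs a l ∧ y ∈ (Γ.aug B x y S).vs a l := by
  obtain ⟨-, h1, h2⟩ := wk_mem h _ hs
  cases c with
  | true => exact ⟨h1, h2⟩
  | false => exact ⟨h2, h1⟩

theorem aug_pt_cases {B : Finset E} (hB : B ⊆ Γ.A) {x y : V} (hxy : x ≠ y) {S : Finset Q} {a b : V} {l : List (Da (E ⊕ Q))}
    (h : (Γ.aug B x y S).Pt a l b) :
    (∃ l₀, l = il l₀ ∧ (Γ.on B).Pt a l₀ b) ∨ ∃ l₁ s c l₃, s ∈ S ∧ l = il l₁ ++ [(Sum.inr s, c)] ++ il l₃ := by
  rcases Aug_dec l with ⟨l₀, rfl⟩ | ⟨l₁, s, c, l₂, rfl⟩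
  · exact Or.inl ⟨l₀, rfl, (aug_pt hB).1 h⟩
  · right
    have hs : s ∈ S := aug_mem_inr.1 (wk_mem h.1 (Sum.inr s, c) (by simp)).1
    rcases Aug_dec l₂ with ⟨l₀, rfl⟩ | ⟨l₃, s', c', l₄, rfl⟩
    · exact ⟨l₁, s, c, l₀, hs, by simp⟩
    · exfalso
      have e : il l₁ ++ (Sum.inr s, c) :: (il l₃ ++ (Sum.inr s', c') :: l₄) =
          (il l₁ ++ [(Sum.inr s, c)]) ++ (il l₃ ++ (Sum.inr s', c') :: l₄) := by simp
      rw [e] at h
      obtain ⟨m, h1, h2, h3⟩ := pt_split h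
      obtain ⟨x1, y1⟩ := Aug_both h1.1 (s := s) (c := c) (by simp)
      obtain ⟨x2, y2⟩ := Aug_both h2.1 (s := s') (c := c') (by simp)
      exact hxy ((h3 x x1 x2).trans (h3 y y1 y2).symm)

theorem aug_VS {B : Finset E} {x y : V} {S : Finset Q} (hx' : x ∈ (Γ.on B).VS) (hy : y ∈ (Γ.on B).VS) :
    (Γ.aug B x y S).VS = (Γ.on B).VS := by
  ext z
  constructor
  · rintro ⟨e, he, hz⟩
    cases e with
    | inl e => exact ⟨e, aug_mem_inl.1 he, hz⟩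
    | inr s =>
      rcases hz with hz | hz
      · have : x = z := hz
        rwa [← this]
      · have : y = z := hz
        rwa [← this]
  · rintro ⟨e, he, hz⟩
    exact ⟨Sum.inl e, aug_mem_inl.2 he, hz⟩

private theorem Aug_repl (hΓ : Γ.C2) {A₁ A₂ : Finset E} {x y : V} (h : Γ.Sep A₁ A₂ x y) {S : Finset Q} (hS : S.Nonempty)
    {a b : V} (ha : a ∈ (Γ.on A₁).VS) (hb : b ∈ (Γ.on A₁).VS) {l : List (Da E)} (hl : Γ.Pt a l b) :
    ∃ l', (Γ.aug A₁ x y S).Wk a l' b ∧ ∀ z ∈ (Γ.aug A₁ x y S).vs a l', z ∈ Γ.vs a l := by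
  have hA := sep_sub h
  rcases sep_split hΓ h ha hb hl with h1 | ⟨l₁, l₂, l₃, p, q, rfl, hp1, hp2, hp3, e1, -, e3, hpq⟩
  · refine ⟨il l, Aug_wk.2 ((wk_on hA).2 ⟨hl.1, h1⟩), fun z hz => ?_⟩
    rwa [aug_vs] at hz
  · obtain ⟨s, hs⟩ := hS
    obtain ⟨c, hc1, hc2⟩ : ∃ c : Bool, (Γ.aug A₁ x y S).src (Sum.inr s, c) = p ∧
        (Γ.aug A₁ x y S).tgt (Sum.inr s, c) = q := by
      rcases hpq with ⟨rfl, rfl⟩ | ⟨rfl, rfl⟩
      · exact ⟨true, rfl, rfl⟩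
      · exact ⟨false, rfl, rfl⟩
    have w1 : (Γ.aug A₁ x y S).Wk a (il l₁) p := Aug_wk.2 ((wk_on hA).2 ⟨hp1.1, e1⟩)
    have w3 : (Γ.aug A₁ x y S).Wk q (il l₃) b := Aug_wk.2 ((wk_on hA).2 ⟨hp3.1, e3⟩)
    have w2 : (Γ.aug A₁ x y S).Wk p ((Sum.inr s, c) :: il l₃) b := by
      refine ⟨aug_mem_inr.2 hs, hc1, ?_⟩
      rw [hc2]
      exact w3
    refine ⟨il l₁ ++ (Sum.inr s, c) :: il l₃, wk_append.2 ⟨p, w1, w2⟩, fun z hz => ?_⟩
    rw [List.append_assoc, mem_vs_append hp1.1, mem_vs_append hp2.1]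
    rcases (mem_vs_append w1).1 hz with hz | hz
    · rw [aug_vs] at hz
      exact Or.inl hz
    · have hz' : z = p ∨ z ∈ (Γ.aug A₁ x y S).vs q (il l₃) := by
        have e : (Γ.aug A₁ x y S).vs p ((Sum.inr s, c) :: il l₃) =
            p :: (Γ.aug A₁ x y S).vs q (il l₃) := by
          show p :: (Γ.aug A₁ x y S).tgt (Sum.inr s, c) :: (il l₃).map _ = _
          rw [hc2]
          rfl
        rw [e] at hz
        exact List.mem_cons.1 hz
      rcases hz' with rfl | hz'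
      · exact Or.inl (wk_last hp1.1)
      · rw [aug_vs] at hz'
        exact Or.inr (Or.inr hz')

theorem aug_C2 (hΓ : Γ.C2) {A₁ A₂ : Finset E} {x y : V} (h : Γ.Sep A₁ A₂ x y) {S : Finset Q} (hS : S.Nonempty) :
    (Γ.aug A₁ x y S).C2 := by
  obtain ⟨hx, hy⟩ := sep_mem hΓ h
  have hV := aug_VS (S := S) hx hy
  have hA := sep_sub h
  have hsub : ∀ z ∈ (Γ.on A₁).VS, z ∈ Γ.VS := by
    rintro z ⟨e, he, hz⟩
    exact ⟨e, hA he, hz⟩
  refine ⟨?_, ?_, ?_, ?_⟩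
  · obtain ⟨e, he, -⟩ := hx
    exact ⟨Sum.inl e, aug_mem_inl.2 he⟩
  · intro e he
    cases e with
    | inl e => exact hΓ.lf e (hA (aug_mem_inl.1 he))
    | inr s => exact h.ne
  · intro a ha b hb
    rw [hV] at ha hb
    obtain ⟨l, hl⟩ := hΓ.con a (hsub a ha) b (hsub b hb)
    obtain ⟨l', hl', -⟩ := pt_of_wk hl
    obtain ⟨l'', h1, -⟩ := Aug_repl hΓ h hS ha hb hl'
    exact ⟨l'', h1⟩
  · intro z a ha b hb haz hbz
    rw [hV] at ha hb
    obtain ⟨l, hl, hz⟩ := hΓ.cut z a (hsub a ha) b (hsub b hb) haz hbz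
    obtain ⟨l', hl', hv, -⟩ := pt_of_wk hl
    obtain ⟨l'', h1, h2⟩ := Aug_repl hΓ h hS ha hb hl'
    exact ⟨l'', h1, fun hz' => hz (hv z (h2 z hz'))⟩

theorem aug_nV (hΓ : Γ.C2) {A₁ A₂ : Finset E} {x y : V} (h : Γ.Sep A₁ A₂ x y) {S : Finset Q} :
    (Γ.aug A₁ x y S).nV < Γ.nV := by
  obtain ⟨hx, hy⟩ := sep_mem hΓ h
  have h1 := sep_nV h
  unfold GG.nV at h1 ⊢
  rwa [aug_VS hx hy]

theorem aug_tv {k : Type} [Field k] {ω : k} {Γ : GG V E Lt} {B : Finset E} {x y : V} {S : Finset Lt} (v : E ⊕ Lt → k)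
    (l : List (Da E)) : tv ω (Γ.aug B x y S) v (il l) = tv ω Γ (fun e => v (Sum.inl e)) l := by
  induction l with
  | nil => rfl
  | cons d l ih =>
    show dv ω (Γ.aug B x y S) v (Sum.inl d.1, d.2) + ch ω ((Γ.aug B x y S).dg (Sum.inl d.1, d.2)) *
      tv ω (Γ.aug B x y S) v (il l) = dv ω Γ (fun e => v (Sum.inl e)) d + ch ω (Γ.dg d) *
        tv ω Γ (fun e => v (Sum.inl e)) l
    rw [ih, Aug_dg]
    rfl

theorem aug_tv_inr {k : Type} [Field k] {ω : k} {Γ : GG V E Lt} {B : Finset E} {x y : V} {S : Finset Lt} (v : E ⊕ Lt → k)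
    (s : Lt) : tv ω (Γ.aug B x y S) v [(Sum.inr s, true)] = v (Sum.inr s) := by
  simp [tv, dv]

end Pool.Agent.FRM
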