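import Pool.Agent.FRM.Wk3

/-!
# FRM/Rs: the same cycle, split at two other vertices

PROOF PLAN.  `rs_same`: if `P = P₁ ++ P₂ ++ P₃` with `P₂ : u → w`, then `P₂` and `rv P₁ ++ P' ++ rv P₃` are the two paths from `u` to `w`
(`pt_split` twice, `pt_append`), and `hl P * (hl P')⁻¹` is the conjugate of `hl P₂ * (hl (rv P₁ ++ P' ++ rv P₃))⁻¹` by `hl P₁`.
`rs_cross`: `P = P₁ ++ P₂` at `u`, `P' = P₁' ++ P₂'` at `w`: the paths from `u` to `w` are `rv P₁ ++ P₁'` and `P₂ ++ rv P₂'`;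
`hl P * (hl P')⁻¹ = hl P₁ * (hl (P₂ ++ rv P₂') * (hl (rv P₁ ++ P₁'))⁻¹) * (hl P₁)⁻¹`.
`resplit`: if `u`, `w` are on the same path use `rs_same` (or its mirror image: `u` after `w`: reverse everything with `cy_rv`, `cy_symm`), otherwise `rs_cross`.
In the degenerate case `P = P' = [d]` (`cy_disj`) the vertices `u, w` are `x, y`.
-/

set_option autoImplicit false

noncomputable section

open scoped Classical

namespace Pool.Agent.FRM

open GG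

variable {V E Q : Type} [AddCommGroup Q] {Γ : GG V E Q}


theorem rs_same {x y u w : V} {P₁ P₂ P₃ P' : List (Da E)} (h : Γ.Cy x y (P₁ ++ P₂ ++ P₃) P')
    (h₁ : Γ.Wk x P₁ u) (h₂ : Γ.Wk u P₂ w) (huw : u ≠ w) :
    Γ.Cy u w P₂ (rv P₁ ++ P' ++ rv P₃) := by
  obtain ⟨w', hA, hB, hAB⟩ := pt_split h.p
  have hw' : w' = w := by
    have := wk_append.2 ⟨u, h₁, h₂⟩
    exact wk_unique hA.1 this
  subst hw'
  obtain ⟨u', hC, hD, hCD⟩ := pt_split hA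
  have hu' : u' = u := wk_unique hC.1 h₁
  subst hu'
  have hP₂ : P₂ ≠ [] := pt_ne hD huw
  have hmem : ∀ z, z ∈ Γ.vs x (P₁ ++ P₂) ↔ z ∈ Γ.vs x P₁ ∨ z ∈ Γ.vs u' P₂ := fun z => mem_vs_append hC.1
  have hmem3 : ∀ z, z ∈ Γ.vs x (P₁ ++ P₂ ++ P₃) ↔ z ∈ Γ.vs x (P₁ ++ P₂) ∨ z ∈ Γ.vs w' P₃ :=
    fun z => mem_vs_append hA.1
  have hxy := h.ne
  -- `y` is not on `P₁`
  have hyP₁ : y ∉ Γ.vs x P₁ := by
    intro hy
    have h1 : y = w' := hAB y ((hmem y).2 (Or.inl hy)) (wk_last hB.1)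
    have h2 : y = u' := hCD y hy (by rw [h1]; exact wk_last hD.1)
    exact huw (h2.symm.trans h1)
  have hxP₃ : x ∉ Γ.vs w' P₃ := by
    intro hx
    have h1 : x = w' := hAB x (wk_first x _) hx
    have h2 : x = u' := hCD x (wk_first x _) (by rw [h1]; exact wk_last hD.1)
    exact huw (h2.symm.trans h1)
  have hPx : ∀ z ∈ Γ.vs x P₁, z ∈ Γ.vs x P' → z = x := by
    intro z hz hz'
    rcases h.dj z ((hmem3 z).2 (Or.inl ((hmem z).2 (Or.inl hz)))) hz' with h1 | h1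
    · exact h1
    · exact absurd (h1 ▸ hz) hyP₁
  have hPy : ∀ z ∈ Γ.vs w' P₃, z ∈ Γ.vs x P' → z = y := by
    intro z hz hz'
    rcases h.dj z ((hmem3 z).2 (Or.inr hz)) hz' with h1 | h1
    · exact absurd (h1 ▸ hz) hxP₃
    · exact h1
  have hP13 : ∀ z ∈ Γ.vs x P₁, z ∉ Γ.vs w' P₃ := by
    intro z hz hz'
    have h1 : z = w' := hAB z ((hmem z).2 (Or.inl hz)) hz'
    have h2 : z = u' := hCD z hz (by rw [h1]; exact wk_last hD.1)
    exact huw (h2.symm.trans h1)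
  have hR1 : Γ.Pt u' (rv P₁ ++ P') y := by
    refine pt_append (pt_rv hC) h.p' ?_
    intro z hz hz'
    exact hPx z ((mem_vs_rv hC.1).1 hz) hz'
  have hmemR1 : ∀ z, z ∈ Γ.vs u' (rv P₁ ++ P') ↔ z ∈ Γ.vs x P₁ ∨ z ∈ Γ.vs x P' := by
    intro z
    rw [mem_vs_append (pt_rv hC).1, mem_vs_rv hC.1]
  have hR2 : Γ.Pt u' (rv P₁ ++ P' ++ rv P₃) w' := by
    refine pt_append hR1 (pt_rv hB) ?_
    intro z hz hz'
    rw [mem_vs_rv hB.1] at hz'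
    rcases (hmemR1 z).1 hz with h1 | h1
    · exact absurd hz' (hP13 z h1)
    · exact hPy z hz' h1
  refine ⟨huw, hD, hR2, ?_⟩
  intro z hz hz'
  rw [mem_vs_append hR1.1, mem_vs_rv hB.1, hmemR1] at hz'
  rcases hz' with (h1 | h1) | h1
  · exact Or.inl (hCD z h1 hz)
  · rcases h.dj z ((hmem3 z).2 (Or.inl ((hmem z).2 (Or.inr hz)))) h1 with h2 | h2
    · left
      exact hCD z (by rw [h2]; exact wk_first x _) hz
    · right
      exact hAB z ((hmem z).2 (Or.inr hz)) (by rw [h2]; exact wk_last hB.1)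
  · exact Or.inr (hAB z ((hmem z).2 (Or.inr hz)) h1)

theorem rs_cross {x y u w : V} {P₁ P₂ P₁' P₂' : List (Da E)} (h : Γ.Cy x y (P₁ ++ P₂) (P₁' ++ P₂'))
    (h₁ : Γ.Wk x P₁ u) (h₁' : Γ.Wk x P₁' w) (hu : u ≠ x ∧ u ≠ y) (hw : w ≠ x ∧ w ≠ y) :
    Γ.Cy u w (rv P₁ ++ P₁') (P₂ ++ rv P₂') := by
  obtain ⟨u', hA, hB, hAB⟩ := pt_split h.p
  have hu' : u' = u := wk_unique hA.1 h₁
  subst hu'
  obtain ⟨w', hC, hD, hCD⟩ := pt_split h.p'
  have hw' : w' = w := wk_unique hC.1 h₁'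
  subst hw'
  have hmem : ∀ z, z ∈ Γ.vs x (P₁ ++ P₂) ↔ z ∈ Γ.vs x P₁ ∨ z ∈ Γ.vs u' P₂ := fun z => mem_vs_append hA.1
  have hmem' : ∀ z, z ∈ Γ.vs x (P₁' ++ P₂') ↔ z ∈ Γ.vs x P₁' ∨ z ∈ Γ.vs w' P₂' :=
    fun z => mem_vs_append hC.1
  have hyP₁ : y ∉ Γ.vs x P₁ := fun hy => hu.2 (hAB y hy (wk_last hB.1)).symm
  have hyP₁' : y ∉ Γ.vs x P₁' := fun hy => hw.2 (hCD y hy (wk_last hD.1)).symm
  have hxP₂ : x ∉ Γ.vs u' P₂ := fun hx => hu.1 (hAB x (wk_first x _) hx).symm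
  have hxP₂' : x ∉ Γ.vs w' P₂' := fun hx => hw.1 (hCD x (wk_first x _) hx).symm
  have k11 : ∀ z ∈ Γ.vs x P₁, z ∈ Γ.vs x P₁' → z = x := by
    intro z hz hz'
    rcases h.dj z ((hmem z).2 (Or.inl hz)) ((hmem' z).2 (Or.inl hz')) with h1 | h1
    · exact h1
    · exact absurd (h1 ▸ hz) hyP₁
  have k22 : ∀ z ∈ Γ.vs u' P₂, z ∈ Γ.vs w' P₂' → z = y := by
    intro z hz hz'
    rcases h.dj z ((hmem z).2 (Or.inr hz)) ((hmem' z).2 (Or.inr hz')) with h1 | h1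
    · exact absurd (h1 ▸ hz) hxP₂
    · exact h1
  have k12 : ∀ z ∈ Γ.vs x P₁, z ∉ Γ.vs w' P₂' := by
    intro z hz hz'
    rcases h.dj z ((hmem z).2 (Or.inl hz)) ((hmem' z).2 (Or.inr hz')) with h1 | h1
    · exact absurd (h1 ▸ hz') hxP₂'
    · exact absurd (h1 ▸ hz) hyP₁
  have k21 : ∀ z ∈ Γ.vs u' P₂, z ∉ Γ.vs x P₁' := by
    intro z hz hz'
    rcases h.dj z ((hmem z).2 (Or.inr hz)) ((hmem' z).2 (Or.inl hz')) with h1 | h1
    · exact absurd (h1 ▸ hz) hxP₂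
    · exact absurd (h1 ▸ hz') hyP₁'
  have hne : u' ≠ w' := by
    intro he
    have h1 : u' ∈ Γ.vs x P₁' := by rw [he]; exact wk_last hC.1
    exact hu.1 (k11 u' (wk_last hA.1) h1)
  have hR : Γ.Pt u' (rv P₁ ++ P₁') w' := by
    refine pt_append (pt_rv hA) hC ?_
    intro z hz hz'
    exact k11 z ((mem_vs_rv hA.1).1 hz) hz'
  have hR' : Γ.Pt u' (P₂ ++ rv P₂') w' := by
    refine pt_append hB (pt_rv hD) ?_
    intro z hz hz'
    exact k22 z hz ((mem_vs_rv hD.1).1 hz')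
  refine ⟨hne, hR, hR', ?_⟩
  intro z hz hz'
  rw [mem_vs_append (pt_rv hA).1, mem_vs_rv hA.1] at hz
  rw [mem_vs_append hB.1, mem_vs_rv hD.1] at hz'
  rcases hz with h1 | h1 <;> rcases hz' with h2 | h2
  · exact Or.inl (hAB z h1 h2)
  · exact absurd h2 (k12 z h1)
  · exact absurd h1 (k21 z h2)
  · exact Or.inr (hCD z h1 h2)

/-- the conclusion of `resplit` -/
private def Rs_K (Γ : GG V E Q) (x u w : V) (P P' : List (Da E)) : Prop :=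
  ∃ R R', Γ.Cy u w R R' ∧ (∀ z, (z ∈ Γ.vs u R ∨ z ∈ Γ.vs u R') ↔ (z ∈ Γ.vs x P ∨ z ∈ Γ.vs x P')) ∧
      (∀ e, (e ∈ eds R ∨ e ∈ eds R') ↔ (e ∈ eds P ∨ e ∈ eds P')) ∧
      ∀ (G : Type) [Group G] (τ : E → G), IsConj (hl τ P * (hl τ P')⁻¹) (hl τ R * (hl τ R')⁻¹) ∨
        IsConj (hl τ P * (hl τ P')⁻¹) (hl τ R * (hl τ R')⁻¹)⁻¹

private lemma Rs_conj_inv {G : Type} [Group G] {a b : G} (h : IsConj a b) : IsConj a⁻¹ b⁻¹ := by
  rw [isConj_iff] at h ⊢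
  obtain ⟨c, hc⟩ := h
  exact ⟨c, by rw [← hc]; group⟩

omit [AddCommGroup Q] in
private lemma Rs_flip {x u w : V} {P P' : List (Da E)} (h : Rs_K Γ x u w P' P) : Rs_K Γ x u w P P' := by
  obtain ⟨R, R', h1, h2, h3, h4⟩ := h
  refine ⟨R, R', h1, fun z => (h2 z).trans or_comm, fun e => (h3 e).trans or_comm, ?_⟩
  intro G _ τ
  have e1 : hl τ P * (hl τ P')⁻¹ = (hl τ P' * (hl τ P)⁻¹)⁻¹ := by group
  rw [e1]
  rcases h4 G τ with h5 | h5
  · exact Or.inr (Rs_conj_inv h5)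
  · left
    have := Rs_conj_inv h5
    rwa [inv_inv] at this

private lemma Rs_A {x y u w : V} {P P' : List (Da E)} (h : Γ.Cy x y P P')
    (hu : u ∈ Γ.vs x P) (hw : w ∈ Γ.vs x P) (huw : u ≠ w) : Rs_K Γ x u w P P' := by
  obtain ⟨l₁, l₂, hP, hA, hB, hAB⟩ := pt_split_at h.p hu
  subst hP
  rcases (mem_vs_append hA.1).1 hw with hw1 | hw1
  · obtain ⟨m₁, m₂, hP, hC, hD, hCD⟩ := pt_split_at hA hw1
    subst hP
    have hc := rs_same h hC.1 hD.1 huw.symm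
    have hC' := hc.p'
    refine ⟨rv m₂, rv (rv m₁ ++ P' ++ rv l₂), cy_rv hc, ?_, ?_, ?_⟩
    · intro z
      rw [mem_vs_rv hD.1, mem_vs_rv hC'.1, mem_vs_append hA.1, mem_vs_append hC.1,
        mem_vs_append (wk_append.2 ⟨x, (pt_rv hC).1, h.p'.1⟩), mem_vs_append (pt_rv hC).1, mem_vs_rv hC.1,
        mem_vs_rv hB.1]
      tauto
    · intro e
      simp only [eds_rv, eds_append, Finset.mem_union]
      tauto
    · intro G _ τ
      right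
      rw [isConj_iff]
      refine ⟨(hl τ m₁ * hl τ m₂)⁻¹, ?_⟩
      simp only [hl_rv, hl_append]
      group
  · obtain ⟨m₁, m₂, hP, hC, hD, hCD⟩ := pt_split_at hB hw1
    subst hP
    have h' : Γ.Cy x y (l₁ ++ m₁ ++ m₂) P' := by rw [List.append_assoc]; exact h
    have hc := rs_same h' hA.1 hC.1 huw
    have hC' := hc.p'
    refine ⟨m₁, rv l₁ ++ P' ++ rv m₂, hc, ?_, ?_, ?_⟩
    · intro z
      rw [mem_vs_append hA.1, mem_vs_append hC.1,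
        mem_vs_append (wk_append.2 ⟨x, (pt_rv hA).1, h.p'.1⟩), mem_vs_append (pt_rv hA).1, mem_vs_rv hA.1,
        mem_vs_rv hD.1]
      tauto
    · intro e
      simp only [eds_rv, eds_append, Finset.mem_union]
      tauto
    · intro G _ τ
      left
      rw [isConj_iff]
      refine ⟨(hl τ l₁)⁻¹, ?_⟩
      simp only [hl_rv, hl_append]
      group

private lemma Rs_B {x y u w : V} {P P' : List (Da E)} (h : Γ.Cy x y P P')
    (hu : u ∈ Γ.vs x P) (hw : w ∈ Γ.vs x P') (hu' : u ≠ x ∧ u ≠ y) (hw' : w ≠ x ∧ w ≠ y) :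
    Rs_K Γ x u w P P' := by
  obtain ⟨l₁, l₂, hP, hA, hB, hAB⟩ := pt_split_at h.p hu
  subst hP
  obtain ⟨m₁, m₂, hP, hC, hD, hCD⟩ := pt_split_at h.p' hw
  subst hP
  have hc := rs_cross h hA.1 hC.1 hu' hw'
  refine ⟨rv l₁ ++ m₁, l₂ ++ rv m₂, hc, ?_, ?_, ?_⟩
  · intro z
    rw [mem_vs_append hA.1, mem_vs_append hC.1, mem_vs_append (pt_rv hA).1, mem_vs_rv hA.1,
      mem_vs_append hB.1, mem_vs_rv hD.1]
    tauto
  · intro e
    simp only [eds_rv, eds_append, Finset.mem_union]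
    tauto
  · intro G _ τ
    right
    rw [isConj_iff]
    refine ⟨(hl τ l₁)⁻¹, ?_⟩
    simp only [hl_rv, hl_append]
    group

private lemma Rs_good {x y u w : V} {P P' : List (Da E)} (h : Γ.Cy x y P P')
    (hu : u ∈ Γ.vs x P) (hw : w ∈ Γ.vs x P ∨ w ∈ Γ.vs x P') (huw : u ≠ w) : Rs_K Γ x u w P P' := by
  by_cases hwP : w ∈ Γ.vs x P
  · exact Rs_A h hu hwP huw
  · have hwP' : w ∈ Γ.vs x P' := hw.resolve_left hwP
    by_cases huP' : u ∈ Γ.vs x P'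
    · exact Rs_flip (Rs_A (cy_symm h) huP' hwP' huw)
    · refine Rs_B h hu hwP' ⟨?_, ?_⟩ ⟨?_, ?_⟩
      · rintro rfl; exact huP' (wk_first _ _)
      · rintro rfl; exact huP' (wk_last h.p'.1)
      · rintro rfl; exact hwP (wk_first _ _)
      · rintro rfl; exact hwP (wk_last h.p.1)

theorem resplit {x y : V} {P P' : List (Da E)} (h : Γ.Cy x y P P') {u w : V}
    (hu : u ∈ Γ.vs x P ∨ u ∈ Γ.vs x P') (hw : w ∈ Γ.vs x P ∨ w ∈ Γ.vs x P') (huw : u ≠ w) :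
    ∃ R R', Γ.Cy u w R R' ∧ (∀ z, (z ∈ Γ.vs u R ∨ z ∈ Γ.vs u R') ↔ (z ∈ Γ.vs x P ∨ z ∈ Γ.vs x P')) ∧
      (∀ e, (e ∈ eds R ∨ e ∈ eds R') ↔ (e ∈ eds P ∨ e ∈ eds P')) ∧
      ∀ (G : Type) [Group G] (τ : E → G), IsConj (hl τ P * (hl τ P')⁻¹) (hl τ R * (hl τ R')⁻¹) ∨
        IsConj (hl τ P * (hl τ P')⁻¹) (hl τ R * (hl τ R')⁻¹)⁻¹ := by
  rcases hu with hu | hu
  · exact Rs_good h hu hw huw
  · exact Rs_flip (Rs_good (cy_symm h) hu hw.symm huw)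

/-- gains are holonomies -/
theorem hl_gn (l : List (Da E)) :
    hl (fun e => Multiplicative.ofAdd (Γ.g e)) l = Multiplicative.ofAdd (Γ.gn l) := by
  induction l with
  | nil => simp [hl, GG.gn]
  | cons d l ih =>
    have h1 : (if d.2 then Multiplicative.ofAdd (Γ.g d.1) else (Multiplicative.ofAdd (Γ.g d.1))⁻¹) =
        Multiplicative.ofAdd (Γ.dg d) := by
      unfold GG.dg
      split_ifs
      · rfl
      · rw [ofAdd_neg]
    rw [hl_cons, gn_cons, ofAdd_add, ih, h1]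

theorem resplit_gn {P P' R R' : List (Da E)}
    (h : ∀ (G : Type) [Group G] (τ : E → G), IsConj (hl τ P * (hl τ P')⁻¹) (hl τ R * (hl τ R')⁻¹) ∨
        IsConj (hl τ P * (hl τ P')⁻¹) (hl τ R * (hl τ R')⁻¹)⁻¹) :
    Γ.gn P - Γ.gn P' = Γ.gn R - Γ.gn R' ∨ Γ.gn P - Γ.gn P' = -(Γ.gn R - Γ.gn R') := by
  have h1 := h (Multiplicative Q) (fun e => Multiplicative.ofAdd (Γ.g e))
  simp only [hl_gn, ← ofAdd_neg, ← ofAdd_add, isConj_iff_eq] at h1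
  rcases h1 with h1 | h1
  · left
    rw [sub_eq_add_neg, sub_eq_add_neg]
    exact Multiplicative.ofAdd.injective h1
  · right
    rw [sub_eq_add_neg, sub_eq_add_neg]
    exact Multiplicative.ofAdd.injective h1

end Pool.Agent.FRM
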