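import Pool.Agent.FRM.Ear1
import Pool.Agent.FRM.Rs

/-!
# FRM/CyB: a cycle is C2 and has two paths between any two of its vertices

PROOF PLAN.  `cycle_C2`: if `P` and `P'` have a common edge they are the same single edge (`cy_disj`, `single_C2`).  Otherwise: for a vertex `z` and
two other vertices `u, w` of the cycle, `resplit` at `u, w` gives two internally disjoint paths, one of which avoids `z`.  `cycle_sp`: `resplit` + `resplit_gn`
(`Sp` allows a translate of `T` or of `-T`; `{0, g}` is a translate of `-{0, g}`).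
-/

set_option autoImplicit false

noncomputable section

open scoped Classical

namespace Pool.Agent.FRM

open GG

variable {V E Q : Type} [AddCommGroup Q] {Γ : GG V E Q}


private theorem CyB_mem {x y : V} {P P' : List (Da E)} (h : Γ.Cy x y P P') (z : V) :
    z ∈ (Γ.on (eds P ∪ eds P')).VS ↔ z ∈ Γ.vs x P ∨ z ∈ Γ.vs x P' := by
  rw [VS_union, VS_eds h.p.1 (pt_ne h.p h.ne), VS_eds h.p'.1 (pt_ne h.p' h.ne)]
  rfl

/-- two internally disjoint paths between any two vertices -/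
private theorem CyB_two {x y : V} {P P' : List (Da E)} (h : Γ.Cy x y P P') {u w : V}
    (hu : u ∈ (Γ.on (eds P ∪ eds P')).VS) (hw : w ∈ (Γ.on (eds P ∪ eds P')).VS) (huw : u ≠ w) :
    ∃ R R', Γ.Cy u w R R' ∧ (Γ.on (eds P ∪ eds P')).Pt u R w ∧ (Γ.on (eds P ∪ eds P')).Pt u R' w ∧
      (Γ.gn P - Γ.gn P' = Γ.gn R - Γ.gn R' ∨ Γ.gn P - Γ.gn P' = -(Γ.gn R - Γ.gn R')) := by
  obtain ⟨R, R', hc, _, he, hh⟩ := resplit h ((CyB_mem h u).1 hu) ((CyB_mem h w).1 hw) huw
  refine ⟨R, R', hc, pt_eds hc.p fun e h1 => ?_, pt_eds hc.p' fun e h1 => ?_, resplit_gn hh⟩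
  · rw [Finset.mem_union]
    exact (he e).1 (Or.inl h1)
  · rw [Finset.mem_union]
    exact (he e).1 (Or.inr h1)

theorem cycle_C2 {x y : V} {P P' : List (Da E)} (h : Γ.Cy x y P P') : (Γ.on (eds P ∪ eds P')).C2 := by
  refine ⟨?_, ?_, ?_, ?_⟩
  · obtain ⟨d, hd⟩ := List.exists_mem_of_ne_nil P (pt_ne h.p h.ne)
    refine ⟨d.1, Finset.mem_union_left _ ?_⟩
    rw [mem_eds]
    exact ⟨d, hd, rfl⟩
  · intro e he
    have he' : e ∈ eds P ∪ eds P' := he
    rw [Finset.mem_union, mem_eds, mem_eds] at he'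
    rcases he' with ⟨d, hd, rfl⟩ | ⟨d, hd, rfl⟩
    · exact pt_lf h.p d hd
    · exact pt_lf h.p' d hd
  · intro u hu w hw
    by_cases huw : u = w
    · subst huw
      exact ⟨[], rfl⟩
    · obtain ⟨R, R', _, h1, _, _⟩ := CyB_two h hu hw huw
      exact ⟨R, h1.1⟩
  · intro z u hu w hw huz hwz
    by_cases huw : u = w
    · subst huw
      refine ⟨[], rfl, fun hz => ?_⟩
      have hz' : z ∈ [u] := hz
      rw [List.mem_singleton] at hz'
      exact huz hz'.symm
    · obtain ⟨R, R', hc, h1, h2, _⟩ := CyB_two h hu hw huw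
      by_cases hz : z ∈ Γ.vs u R
      · refine ⟨R', h2.1, fun hz' => ?_⟩
        rcases hc.dj z hz hz' with h3 | h3
        · exact huz h3.symm
        · exact hwz h3.symm
      · exact ⟨R, h1.1, hz⟩

theorem cycle_sp {x y : V} {P P' : List (Da E)} (h : Γ.Cy x y P P') :
    (Γ.on (eds P ∪ eds P')).Sp {0, Γ.gn P - Γ.gn P'} := by
  intro u hu w hw huw
  obtain ⟨R, R', _, h1, h2, hg⟩ := CyB_two h hu hw huw
  rcases hg with hg | hg
  · refine ⟨Γ.gn R', Or.inl fun a ha => ?_⟩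
    rcases ha with rfl | ha
    · exact ⟨R', h2, (add_zero _).symm⟩
    · have ha' : a = Γ.gn P - Γ.gn P' := ha
      refine ⟨R, h1, ?_⟩
      show Γ.gn R = Γ.gn R' + a
      rw [ha', hg]
      abel
  · refine ⟨Γ.gn R, Or.inl fun a ha => ?_⟩
    rcases ha with rfl | ha
    · exact ⟨R, h1, (add_zero _).symm⟩
    · have ha' : a = Γ.gn P - Γ.gn P' := ha
      refine ⟨R', h2, ?_⟩
      show Γ.gn R' = Γ.gn R + a
      rw [ha', hg]
      abel

end Pool.Agent.FRM
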