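import Pool.Agent.FRM.Ext
import Pool.Agent.FRM.CyB

/-!
# FRM/Tr1: balanced, or there is an unbalanced cycle

PROOF PLAN.  Choose an edge `e` (`C2.ne`) and do `ear_induction` from `{e}` (`single_C2`) for `F B := (∃ p, ∀ e ∈ B, g e + p (s e) - p (t e) = 0) ∨ (an unbalanced cycle
exists)`.  For an ear `l : a → b` of `B` take a path `R : a → b` in `B` (`C2_pt`); `ear_cy`: `Cy a b l R`; if `gn l ≠ gn R` there is an unbalanced cycle; otherwise
`gn l + p a - p b = gn R + p a - p b = 0` (`gn_pot` with `S = ⊥`) and `ins_ear` (with `S = ⊥`) applies.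
-/

set_option autoImplicit false

noncomputable section

open scoped Classical

namespace Pool.Agent.FRM

open GG

variable {V E Q : Type} [AddCommGroup Q] {Γ : GG V E Q}


theorem bal_or (hΓ : Γ.C2) : Γ.InS ⊥ ∨ ∃ x y P P', Γ.Cy x y P P' ∧ Γ.gn P ≠ Γ.gn P' := by
  obtain ⟨e, he⟩ := hΓ.ne
  have hsub : ({e} : Finset E) ⊆ Γ.A := Finset.singleton_subset_iff.mpr he
  refine ear_induction hΓ hsub (single_C2 he (hΓ.lf e he))
    (fun B => (∃ p : V → Q, ∀ f ∈ B, Γ.g f + p (Γ.s f) - p (Γ.t f) ∈ (⊥ : AddSubgroup Q)) ∨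
      ∃ x y P P', Γ.Cy x y P P' ∧ Γ.gn P ≠ Γ.gn P') ?_ ?_
  · left
    refine ⟨fun z => if z = Γ.t e then Γ.g e else 0, fun f hf => ?_⟩
    have hfe : f = e := Finset.mem_singleton.mp hf
    subst hfe
    have hne := hΓ.lf f he
    rw [AddSubgroup.mem_bot]
    simp only [if_neg hne, if_true]
    abel
  · intro B' a b l _ hB' h2 hF hear
    rcases hF with ⟨p, hp⟩ | h
    · obtain ⟨R, hR⟩ := C2_pt h2 hear.ha hear.hb
      have hcy := ear_cy hB' hear hR
      by_cases hg : Γ.gn l = Γ.gn R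
      · left
        have h1 := (pt_on hB').mp hR
        have h3 := gn_pot ⊥ p h1.1.1 (fun d hd => hp d.1 (h1.2 d hd))
        rw [← hg] at h3
        exact ins_ear hB' hear ⊥ p hp h3
      · exact Or.inr ⟨a, b, l, R, hcy, hg⟩
    · exact Or.inr h

end Pool.Agent.FRM
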