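import Pool.Agent.FRM.Wk3

/-!
# FRM/Rp: replacing one segment of a path at a time

`replace_induction` by induction on the part of `R'` after a common prefix with `R` (`Rp_aux`); `ear_theta` from `Rp_cy`.
-/

set_option autoImplicit false

noncomputable section

open scoped Classical

namespace Pool.Agent.FRM

open GG

variable {V E Q : Type} [AddCommGroup Q] {Γ : GG V E Q}

private theorem Rp_aux {a b : V} (F : List (Da E) → Prop)
    (hF : ∀ (R₁ X Y R₃ : List (Da E)) (u w : V), Γ.Pt a (R₁ ++ X ++ R₃) b → Γ.Pt a (R₁ ++ Y ++ R₃) b →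
      Γ.Wk a R₁ u → Γ.Wk w R₃ b → Γ.Cy u w X Y → F (R₁ ++ X ++ R₃) → F (R₁ ++ Y ++ R₃)) :
    ∀ (m : ℕ) (C T T' : List (Da E)), T'.length ≤ m → Γ.Pt a (C ++ T) b → Γ.Pt a (C ++ T') b → F (C ++ T) →
      F (C ++ T') := by
  intro m
  induction m with
  | zero =>
    intro C T T' hm h h' hT
    have hT' : T' = [] := List.eq_nil_of_length_eq_zero (by omega)
    subst hT'
    obtain ⟨y, h1, h2, -⟩ := pt_split h
    rw [List.append_nil] at h'
    have hy : y = b := wk_unique h1.1 h'.1
    subst hy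
    rw [pt_self h2] at hT
    exact hT
  | succ m ih =>
    intro C T T' hm h h' hT
    obtain ⟨u, h1, h2, h3⟩ := pt_split h
    obtain ⟨u', h1', h2', h3'⟩ := pt_split h'
    have hu : u' = u := wk_unique h1'.1 h1.1
    subst hu
    cases T' with
    | nil =>
      have hy : u' = b := h2'.1
      subst hy
      rw [pt_self h2] at hT
      exact hT
    | cons d' S' =>
      cases T with
      | nil =>
        have hy : u' = b := h2.1
        subst hy
        rw [pt_self h2']
        exact hT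
      | cons d S =>
        by_cases hdd : d = d'
        · subst hdd
          have e1 : C ++ d :: S = (C ++ [d]) ++ S := by simp
          have e2 : C ++ d :: S' = (C ++ [d]) ++ S' := by simp
          rw [e2]
          refine ih (C ++ [d]) S S' (by simp only [List.length_cons] at hm; omega) ?_ ?_ ?_
          · rw [← e1]; exact h
          · rw [← e2]; exact h'
          · rw [← e1]; exact hT
        · -- the first vertex of `R'` after `u'` which lies on `T`
          have hv : Γ.vs u' (d' :: S') = u' :: Γ.vs (Γ.tgt d') S' := rfl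
          have hnd : u' ∉ Γ.vs (Γ.tgt d') S' := by
            have := h2'.2
            rw [hv] at this
            exact (List.nodup_cons.1 this).1
          have hS' : Γ.Pt (Γ.tgt d') S' b := by
            refine ⟨h2'.1.2.2, ?_⟩
            have := h2'.2
            rw [hv] at this
            exact (List.nodup_cons.1 this).2
          obtain ⟨l₁, l₂, w, hl, p1, p2, hwW, hfirst, hdis⟩ :=
            pt_first_hit hS' {z | z ∈ Γ.vs u' (d :: S)} (wk_last h2.1)
          subst hl
          have hwW' : w ∈ Γ.vs u' (d :: S) := hwW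
          obtain ⟨X, R₃, hXR, q1, q2, qd⟩ := pt_split_at h2 hwW'
          have hYv : ∀ z, z ∈ Γ.vs u' (d' :: l₁) ↔ z = u' ∨ z ∈ Γ.vs (Γ.tgt d') l₁ := by
            intro z
            have : Γ.vs u' (d' :: l₁) = u' :: Γ.vs (Γ.tgt d') l₁ := rfl
            rw [this, List.mem_cons]
          have hT' : Γ.Pt u' ((d' :: l₁) ++ l₂) b := h2'
          have hY : Γ.Pt u' (d' :: l₁) w := by
            obtain ⟨y, r1, r2, -⟩ := pt_split hT'
            have hy : y = w := wk_unique (x := Γ.tgt d') (l := l₁) r1.1.2.2 p1.1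
            subst hy
            exact r1
          have huw : u' ≠ w := by
            intro he
            apply hnd
            rw [mem_vs_append p1.1, he]
            exact Or.inl (wk_last p1.1)
          have hXW : ∀ z ∈ Γ.vs u' X, z ∈ Γ.vs u' (d :: S) := by
            intro z hz
            rw [hXR, mem_vs_append q1.1]
            exact Or.inl hz
          have hRW : ∀ z ∈ Γ.vs w R₃, z ∈ Γ.vs u' (d :: S) := by
            intro z hz
            rw [hXR, mem_vs_append q1.1]
            exact Or.inr hz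
          have hc : Γ.Cy u' w X (d' :: l₁) := by
            refine ⟨huw, q1, hY, ?_⟩
            intro z hz hz'
            rcases (hYv z).1 hz' with h4 | h4
            · exact Or.inl h4
            · exact Or.inr (hfirst z h4 (hXW z hz))
          have hYR : Γ.Pt u' ((d' :: l₁) ++ R₃) b := by
            refine pt_append hY q2 ?_
            intro z hz hz'
            rcases (hYv z).1 hz with h4 | h4
            · subst h4
              exact qd z (wk_first _ _) hz'
            · exact hfirst z h4 (hRW z hz')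
          have hCYR : Γ.Pt a (C ++ ((d' :: l₁) ++ R₃)) b := by
            refine pt_append h1 hYR ?_
            intro z hz hz'
            rw [mem_vs_append hY.1] at hz'
            rcases hz' with h4 | h4
            · refine h3' z hz ?_
              have h5 : z ∈ Γ.vs u' ((d' :: l₁) ++ l₂) := by
                rw [mem_vs_append hY.1]
                exact Or.inl h4
              exact h5
            · exact h3 z hz (hRW z h4)
          have e1 : C ++ d :: S = C ++ X ++ R₃ := by rw [hXR, List.append_assoc]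
          have h6 := hF C X (d' :: l₁) R₃ u' w (by rw [← e1]; exact h)
            (by rw [List.append_assoc]; exact hCYR) h1.1 q2.1 hc (by rw [← e1]; exact hT)
          have e2 : C ++ d' :: (l₁ ++ l₂) = (C ++ (d' :: l₁)) ++ l₂ := by simp
          rw [e2]
          refine ih (C ++ (d' :: l₁)) R₃ l₂ ?_ ?_ ?_ h6
          · simp only [List.length_cons, List.length_append] at hm
            omega
          · rw [List.append_assoc]; exact hCYR
          · rw [← e2]; exact h'

theorem replace_induction {a b : V} (F : List (Da E) → Prop)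
    (hF : ∀ (R₁ X Y R₃ : List (Da E)) (u w : V), Γ.Pt a (R₁ ++ X ++ R₃) b → Γ.Pt a (R₁ ++ Y ++ R₃) b →
      Γ.Wk a R₁ u → Γ.Wk w R₃ b → Γ.Cy u w X Y → F (R₁ ++ X ++ R₃) → F (R₁ ++ Y ++ R₃))
    {R R' : List (Da E)} (h : Γ.Pt a R b) (h' : Γ.Pt a R' b) (hR : F R) : F R' :=
  Rp_aux F hF R'.length [] R R' le_rfl h h' hR

private theorem Rp_cy {B : Finset E} (hB : B ⊆ Γ.A) {a b u w : V} {l R₁ X R₃ : List (Da E)} (h : Γ.Ear B a b l)
    (h₁ : (Γ.on B).Pt a (R₁ ++ X ++ R₃) b) (hu : (Γ.on B).Wk a R₁ u) (hX : (Γ.on B).Pt u X w) (hne : u ≠ w) :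
    Γ.Cy u w X (rv R₁ ++ l ++ rv R₃) := by
  obtain ⟨y₁, s1, s2, d1⟩ := pt_split h₁
  obtain ⟨y₂, s3, s4, d2⟩ := pt_split s1
  have e2 : y₂ = u := wk_unique s3.1 hu
  subst e2
  have e1 : y₁ = w := wk_unique s4.1 hX.1
  subst e1
  -- vertices
  have v1 : ∀ z ∈ Γ.vs a R₁, z ∈ (Γ.on B).VS := fun z hz => wk_VS s3.1 h.ha hz
  have v2 : ∀ z ∈ Γ.vs y₁ R₃, z ∈ (Γ.on B).VS := fun z hz =>
    wk_VS (wk_rv s2.1) h.hb ((mem_vs_rv s2.1).2 hz)
  have hy2 : y₂ ∈ (Γ.on B).vs a R₁ := wk_last s3.1
  have v3 : ∀ z ∈ Γ.vs y₂ X, z ∈ (Γ.on B).VS := fun z hz => wk_VS s4.1 (v1 _ hy2) hz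
  have hx1 : ∀ z ∈ Γ.vs y₂ X, z ∈ Γ.vs a (R₁ ++ X) := by
    intro z hz
    have h5 : z ∈ (Γ.on B).vs a (R₁ ++ X) := (mem_vs_append s3.1).2 (Or.inr hz)
    exact h5
  have hx2 : ∀ z ∈ Γ.vs a R₁, z ∈ Γ.vs a (R₁ ++ X) := by
    intro z hz
    have h5 : z ∈ (Γ.on B).vs a (R₁ ++ X) := (mem_vs_append s3.1).2 (Or.inl hz)
    exact h5
  -- `R₁` and `R₃` have no common vertex
  have hno : ∀ z ∈ Γ.vs a R₁, z ∉ Γ.vs y₁ R₃ := by
    intro z hz hz'
    have h5 : z = y₁ := d1 z (hx2 z hz) hz'
    subst h5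
    exact hne (d2 z hz (wk_last s4.1)).symm
  have p1 : Γ.Pt a R₁ y₂ := ((pt_on hB).1 s3).1
  have p2 : Γ.Pt y₂ X y₁ := ((pt_on hB).1 s4).1
  have p3 : Γ.Pt y₁ R₃ b := ((pt_on hB).1 s2).1
  have pz1 : Γ.Pt y₂ (rv R₁ ++ l) b := by
    refine pt_append (pt_rv p1) h.pt ?_
    intro z hz hz'
    rw [mem_vs_rv p1.1] at hz
    rcases h.int z hz' (v1 z hz) with h5 | h5
    · exact h5
    · subst h5
      exact absurd (wk_last p3.1) (hno z hz)
  have pz : Γ.Pt y₂ (rv R₁ ++ l ++ rv R₃) y₁ := by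
    refine pt_append pz1 (pt_rv p3) ?_
    intro z hz hz'
    rw [mem_vs_rv p3.1] at hz'
    rw [mem_vs_append (wk_rv p1.1), mem_vs_rv p1.1] at hz
    rcases hz with hz | hz
    · exact absurd hz' (hno z hz)
    · rcases h.int z hz (v2 z hz') with h5 | h5
      · subst h5
        exact absurd hz' (hno z (wk_first _ _))
      · exact h5
  refine ⟨hne, p2, pz, ?_⟩
  intro z hz hz'
  rw [mem_vs_append pz1.1, mem_vs_rv p3.1, mem_vs_append (wk_rv p1.1), mem_vs_rv p1.1] at hz'
  rcases hz' with (hz' | hz') | hz'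
  · exact Or.inl (d2 z hz' hz)
  · rcases h.int z hz' (v3 z hz) with h5 | h5
    · subst h5
      exact Or.inl (d2 z (wk_first _ _) hz)
    · subst h5
      exact Or.inr (d1 z (hx1 z hz) (wk_last s2.1))
  · exact Or.inr (d1 z (hx1 z hz) hz')

/-- Given an ear `l` from `a` to `b` and two paths `R₁ ++ X ++ R₃`, `R₁ ++ Y ++ R₃` of `B`, there is a theta. -/
theorem ear_theta {B : Finset E} (hB : B ⊆ Γ.A) {a b u w : V} {l R₁ X Y R₃ : List (Da E)} (h : Γ.Ear B a b l)
    (h₁ : (Γ.on B).Pt a (R₁ ++ X ++ R₃) b) (h₂ : (Γ.on B).Pt a (R₁ ++ Y ++ R₃) b)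
    (hu : (Γ.on B).Wk a R₁ u) (hw : (Γ.on B).Wk w R₃ b) (hc : (Γ.on B).Cy u w X Y) :
    Γ.Th u w X Y (rv R₁ ++ l ++ rv R₃) :=
  ⟨((cy_on hB).1 hc).1, Rp_cy hB h h₂ hu hc.p' hc.ne, Rp_cy hB h h₁ hu hc.p hc.ne⟩

end Pool.Agent.FRM
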