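import Pool.Agent.FRM.Ear1

/-!
# FRM/Sp1: ears keep the property Sp

PROOF PLAN.  `Sp T` for `B ∪ eds l` where `l : a → b` is an ear.  Vertices of the new graph: `V(B)` and the vertices of `l`.  Let `x ≠ y`.
(1) both in `V(B)`: paths of `B` (`pt_mono`).  (2) `x` inner on `l`, `y` in `V(B)`: if `y ≠ a`: `l = l₁ ++ l₂` at `x`; the paths `rv l₁ ++ P`, `P` from `a` to `y` in `B`:
their gains are `-gn l₁ + (q ± t)`; if `y = a` use `l₂ ++ P`, `P` from `b` to `a`.  (3) mirror image (`y` inner, `x` in `V(B)`): reverse the paths of (2)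
(this exchanges the two alternatives of `Sp`).  (4) both inner: `l = l₁ ++ l₂ ++ l₃` with the ends `x, y` of `l₂` (in one of the two orders):
`rv l₁ ++ P ++ rv l₃`, `P : a → b` in `B` (or the reverse).  All these are simple: inner vertices of `l` are not in `V(B)`.
-/

set_option autoImplicit false

noncomputable section

open scoped Classical

namespace Pool.Agent.FRM

open GG

variable {V E Q : Type} [AddCommGroup Q] {Γ : GG V E Q}

/-- the property `Sp` for one pair of vertices -/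
private def Sp1_G (M : GG V E Q) (T : Set Q) (x y : V) : Prop :=
  ∃ q : Q, (∀ a ∈ T, ∃ P, M.Pt x P y ∧ M.gn P = q + a) ∨ (∀ a ∈ T, ∃ P, M.Pt x P y ∧ M.gn P = q - a)

private theorem Sp1_symm {M : GG V E Q} {T : Set Q} {x y : V} (h : Sp1_G M T x y) : Sp1_G M T y x := by
  obtain ⟨q, h | h⟩ := h
  · refine ⟨-q, Or.inr fun a ha => ?_⟩
    obtain ⟨P, hP, hg⟩ := h a ha
    refine ⟨rv P, pt_rv hP, ?_⟩
    rw [gn_rv, hg]
    abel
  · refine ⟨-q, Or.inl fun a ha => ?_⟩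
    obtain ⟨P, hP, hg⟩ := h a ha
    refine ⟨rv P, pt_rv hP, ?_⟩
    rw [gn_rv, hg]
    abel

/-- prolongation of the paths of `B` by two tails -/
private theorem Sp1_two {B C : Finset E} (hBC : B ⊆ C) {T : Set Q} (hS : (Γ.on B).Sp T) {x y a b : V}
    {L R : List (Da E)} (hL : (Γ.on C).Pt x L a) (hR : (Γ.on C).Pt b R y) (ha : a ∈ (Γ.on B).VS)
    (hb : b ∈ (Γ.on B).VS) (hab : a ≠ b) (hLB : ∀ w ∈ (Γ.on C).vs x L, w ∈ (Γ.on B).VS → w = a)
    (hRB : ∀ w ∈ (Γ.on C).vs b R, w ∈ (Γ.on B).VS → w = b)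
    (hLR : ∀ w ∈ (Γ.on C).vs x L, w ∉ (Γ.on C).vs b R) : Sp1_G (Γ.on C) T x y := by
  have key : ∀ P, (Γ.on B).Pt a P b → (Γ.on C).Pt x (L ++ (P ++ R)) y := by
    intro P hP
    have hPC : (Γ.on C).Pt a P b := pt_mono hBC hP
    have hV : ∀ w ∈ (Γ.on C).vs a P, w ∈ (Γ.on B).VS := fun w hw => wk_VS hP.1 ha hw
    refine pt_append hL (pt_append hPC hR fun w hw hw' => hRB w hw' (hV w hw)) ?_
    intro w hw hw'
    rcases (mem_vs_append hPC.1).1 hw' with h1 | h1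
    · exact hLB w hw (hV w h1)
    · exact absurd h1 (hLR w hw)
  obtain ⟨q, h | h⟩ := hS a ha b hb hab
  · refine ⟨(Γ.on C).gn L + q + (Γ.on C).gn R, Or.inl fun t ht => ?_⟩
    obtain ⟨P, hP, hg⟩ := h t ht
    refine ⟨_, key P hP, ?_⟩
    have hg' : (Γ.on C).gn P = q + t := hg
    rw [gn_append, gn_append, hg']
    abel
  · refine ⟨(Γ.on C).gn L + q + (Γ.on C).gn R, Or.inr fun t ht => ?_⟩
    obtain ⟨P, hP, hg⟩ := h t ht
    refine ⟨_, key P hP, ?_⟩
    have hg' : (Γ.on C).gn P = q - t := hg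
    rw [gn_append, gn_append, hg']
    abel

private theorem Sp1_vsnil (M : GG V E Q) (y w : V) (h : w ∈ M.vs y []) : w = y := by
  have h1 : w ∈ [y] := h
  exact List.mem_singleton.1 h1

/-- one vertex in `B`, the other one inner on the ear -/
private theorem Sp1_B {B : Finset E} (hB : B ⊆ Γ.A) {a b : V} {l : List (Da E)} (h : Γ.Ear B a b l)
    {T : Set Q} (hS : (Γ.on B).Sp T) {x y : V} (hx : x ∉ (Γ.on B).VS) (hxl : x ∈ Γ.vs a l)
    (hy : y ∈ (Γ.on B).VS) (hl : (Γ.on (B ∪ eds l)).Pt a l b) : Sp1_G (Γ.on (B ∪ eds l)) T x y := by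
  have hBC : B ⊆ B ∪ eds l := Finset.subset_union_left
  obtain ⟨l₁, l₂, h1, h2, h3, h4⟩ := pt_split_at hl hxl
  have hvs : ∀ w, (w ∈ (Γ.on (B ∪ eds l)).vs a l₁ ∨ w ∈ (Γ.on (B ∪ eds l)).vs x l₂) → w ∈ Γ.vs a l := by
    intro w hw
    have h5 : w ∈ (Γ.on (B ∪ eds l)).vs a (l₁ ++ l₂) := (mem_vs_append h2.1).2 hw
    rw [← h1] at h5
    exact h5
  by_cases hya : y = a
  · subst hya
    refine Sp1_two hBC hS (L := l₂) (R := []) (a := b) (b := y) h3 (pt_nil.2 rfl) h.hb hy h.ne.symm ?_ ?_ ?_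
    · intro w hw hwB
      rcases h.int w (hvs w (Or.inr hw)) hwB with h5 | h5
      · exfalso
        apply hx
        rw [← h4 w (by rw [h5]; exact wk_first _ _) hw]
        exact hwB
      · exact h5
    · intro w hw _
      exact Sp1_vsnil _ _ _ hw
    · intro w hw hw'
      have h5 := Sp1_vsnil _ _ _ hw'
      apply hx
      rw [← h4 w (by rw [h5]; exact wk_first _ _) hw, h5]
      exact hy
  · refine Sp1_two hBC hS (L := rv l₁) (R := []) (a := a) (b := y) (pt_rv h2) (pt_nil.2 rfl) h.ha hy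
      (Ne.symm hya) ?_ ?_ ?_
    · intro w hw hwB
      have hw' := (mem_vs_rv h2.1).1 hw
      rcases h.int w (hvs w (Or.inl hw')) hwB with h5 | h5
      · exact h5
      · exfalso
        apply hx
        rw [← h4 w hw' (by rw [h5]; exact wk_last h3.1)]
        exact hwB
    · intro w hw _
      exact Sp1_vsnil _ _ _ hw
    · intro w hw hw'
      have h6 := Sp1_vsnil _ _ _ hw'
      have hw'' := (mem_vs_rv h2.1).1 hw
      rcases h.int w (hvs w (Or.inl hw'')) (by rw [h6]; exact hy) with h5 | h5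
      · exact hya (h6.symm.trans h5)
      · apply hx
        rw [← h4 w hw'' (by rw [h5]; exact wk_last h3.1), h6]
        exact hy

/-- both vertices inner on the ear -/
private theorem Sp1_D {B : Finset E} {a b : V} {l k₁ k₂ k₃ : List (Da E)} (h : Γ.Ear B a b l)
    {T : Set Q} (hS : (Γ.on B).Sp T) {x y : V} (hx : x ∉ (Γ.on B).VS) (hy : y ∉ (Γ.on B).VS) (hxy : x ≠ y)
    (hl : (Γ.on (B ∪ eds l)).Pt a l b) (he : l = k₁ ++ (k₂ ++ k₃))
    (h1 : (Γ.on (B ∪ eds l)).Pt a k₁ x) (h2 : (Γ.on (B ∪ eds l)).Pt x k₂ y)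
    (h3 : (Γ.on (B ∪ eds l)).Pt y k₃ b) : Sp1_G (Γ.on (B ∪ eds l)) T x y := by
  have hBC : B ⊆ B ∪ eds l := Finset.subset_union_left
  have hl' : (Γ.on (B ∪ eds l)).Pt a (k₁ ++ (k₂ ++ k₃)) b := by
    have h0 := hl
    rw [he] at h0 ⊢
    exact h0
  obtain ⟨z, h4, h5, h6⟩ := pt_split hl'
  have hz : z = x := wk_unique h4.1 h1.1
  subst hz
  obtain ⟨z', h7, h8, h9⟩ := pt_split h5
  have hz' : z' = y := wk_unique h7.1 h2.1
  subst hz'
  have hvs1 : ∀ w ∈ (Γ.on (B ∪ eds l)).vs a k₁, w ∈ Γ.vs a l := by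
    intro w hw
    have h10 : w ∈ (Γ.on (B ∪ eds l)).vs a (k₁ ++ (k₂ ++ k₃)) := (mem_vs_append h1.1).2 (Or.inl hw)
    rw [← he] at h10
    exact h10
  have hvs23 : ∀ w ∈ (Γ.on (B ∪ eds l)).vs z' k₃, w ∈ (Γ.on (B ∪ eds l)).vs z (k₂ ++ k₃) :=
    fun w hw => (mem_vs_append h2.1).2 (Or.inr hw)
  have hvs3 : ∀ w ∈ (Γ.on (B ∪ eds l)).vs z' k₃, w ∈ Γ.vs a l := by
    intro w hw
    have h10 : w ∈ (Γ.on (B ∪ eds l)).vs a (k₁ ++ (k₂ ++ k₃)) := (mem_vs_append h1.1).2 (Or.inr (hvs23 w hw))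
    rw [← he] at h10
    exact h10
  have hdj : ∀ w ∈ (Γ.on (B ∪ eds l)).vs a k₁, w ∉ (Γ.on (B ∪ eds l)).vs z' k₃ := by
    intro w hw hw'
    have h10 : w = z := h6 w hw (hvs23 w hw')
    have h11 : w = z' := h9 w (by rw [h10]; exact wk_first _ _) hw'
    exact hxy (h10.symm.trans h11)
  refine Sp1_two hBC hS (L := rv k₁) (R := rv k₃) (a := a) (b := b) (pt_rv h1) (pt_rv h3) h.ha h.hb h.ne ?_ ?_ ?_
  · intro w hw hwB
    have hw' := (mem_vs_rv h1.1).1 hw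
    rcases h.int w (hvs1 w hw') hwB with h10 | h10
    · exact h10
    · exact absurd (by rw [h10]; exact wk_last h3.1) (hdj w hw')
  · intro w hw hwB
    have hw' := (mem_vs_rv h3.1).1 hw
    rcases h.int w (hvs3 w hw') hwB with h10 | h10
    · exact absurd hw' (hdj w (by rw [h10]; exact wk_first _ _))
    · exact h10
  · intro w hw hw'
    exact hdj w ((mem_vs_rv h1.1).1 hw) ((mem_vs_rv h3.1).1 hw')

theorem sp_ear {B : Finset E} (hB : B ⊆ Γ.A) (h2 : (Γ.on B).C2) {a b : V} {l : List (Da E)} (h : Γ.Ear B a b l)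
    {T : Set Q} (hS : (Γ.on B).Sp T) : (Γ.on (B ∪ eds l)).Sp T := by
  have hBC : B ⊆ B ∪ eds l := Finset.subset_union_left
  have hA : B ∪ eds l ⊆ Γ.A := by
    intro e he
    rcases Finset.mem_union.1 he with he | he
    · exact hB he
    · obtain ⟨d, hd, hde⟩ := (mem_eds e l).1 he
      rw [← hde]
      exact (wk_mem h.pt.1 d hd).1
  have hl : (Γ.on (B ∪ eds l)).Pt a l b :=
    (pt_on hA).2 ⟨h.pt, fun d hd => Finset.mem_union_right _ ((mem_eds _ _).2 ⟨d, hd, rfl⟩)⟩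
  have hne : l ≠ [] := pt_ne h.pt h.ne
  intro x hx y hy hxy
  show Sp1_G (Γ.on (B ∪ eds l)) T x y
  rw [VS_union, VS_eds h.pt.1 hne] at hx hy
  by_cases hxB : x ∈ (Γ.on B).VS
  · by_cases hyB : y ∈ (Γ.on B).VS
    · refine Sp1_two hBC hS (L := []) (R := []) (a := x) (b := y) (pt_nil.2 rfl) (pt_nil.2 rfl) hxB hyB hxy ?_ ?_ ?_
      · intro w hw _
        exact Sp1_vsnil _ _ _ hw
      · intro w hw _
        exact Sp1_vsnil _ _ _ hw
      · intro w hw hw'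
        exact hxy ((Sp1_vsnil _ _ _ hw).symm.trans (Sp1_vsnil _ _ _ hw'))
    · have hyl : y ∈ Γ.vs a l := hy.resolve_left hyB
      exact Sp1_symm (Sp1_B hB h hS hyB hyl hxB hl)
  · have hxl : x ∈ Γ.vs a l := hx.resolve_left hxB
    by_cases hyB : y ∈ (Γ.on B).VS
    · exact Sp1_B hB h hS hxB hxl hyB hl
    · have hyl : y ∈ Γ.vs a l := hy.resolve_left hyB
      obtain ⟨l₁, l₂, h1, h3, h4, _⟩ := pt_split_at hl hxl
      have hyl' : y ∈ (Γ.on (B ∪ eds l)).vs a (l₁ ++ l₂) := by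
        rw [← h1]
        exact hyl
      rcases (mem_vs_append h3.1).1 hyl' with h5 | h5
      · obtain ⟨k₁, k₂, h6, h7, h8, _⟩ := pt_split_at h3 h5
        refine Sp1_symm (Sp1_D h hS hyB hxB hxy.symm hl (k₁ := k₁) (k₂ := k₂) (k₃ := l₂) ?_ h7 h8 h4)
        rw [h1, h6, List.append_assoc]
      · obtain ⟨k₁, k₂, h6, h7, h8, _⟩ := pt_split_at h4 h5
        refine Sp1_D h hS hxB hyB hxy hl (k₁ := l₁) (k₂ := k₁) (k₃ := k₂) ?_ h3 h7 h8
        rw [h1, h6]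

end Pool.Agent.FRM
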