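import Pool.Agent.FRM.Ext
import Pool.Agent.FRM.CyB
import Pool.Agent.FRM.Rp
import Pool.Agent.FRM.Sp1

/-!
# FRM/Tr2: an unbalanced cycle: cyclic gains, or a contrabalanced theta

PROOF PLAN.  `g := gn P - gn P' ∈ Φ`.  `ear_induction` from `B₀ = eds P ∪ eds P'` (`cycle_C2`) for
`F B := ((Γ.on B).Sp {0, g} ∧ ∃ p, ∀ e ∈ B, g e + p (s e) - p (t e) ∈ zmultiples g) ∨ (a contrabalanced theta exists in Γ)`.
Base: `cycle_sp`; potentials: `ext_pot` along `P` (fix `p x = 0`, `p y = gn P`), then along `P'` (inner vertices are disjoint).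
Step: ear `l : a → b`, `h = gn l`.  `Sp` gives paths `R, R'` of `B` from `a` to `b` with `gn R' - gn R = ± g`.  If `h = gn R` or `h = gn R'`: `ins_ear`, `sp_ear`.  Otherwise
`h - gn R`, `h - gn R'` are in `Φ` (`ear_cy`, `Phi`), and by `Fund.tri` `h - gn R` is not in `zmultiples g`; all paths `R''` of `B` from `a` to `b` have
`gn R'' - gn R ∈ zmultiples g` (`gn_pot`), so `h ≠ gn R''`.  `replace_induction` in `Γ.on B` with `F R'' := gn R'' = gn R ∨ (a contrabalanced theta exists)`: at a step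
`R₁ ++ X ++ R₃ → R₁ ++ Y ++ R₃` with `gn X ≠ gn Y` the theta `ear_theta` is contrabalanced (the gain of `rv R₁ ++ l ++ rv R₃` is `-gn R₁ + h - gn R₃`).
As `gn R' ≠ gn R`, the theta exists.
-/

set_option autoImplicit false

noncomputable section

open scoped Classical

namespace Pool.Agent.FRM

open GG

variable {V E Q : Type} [AddCommGroup Q] {Γ : GG V E Q}


/-- the ends of the edges of a walk are on the walk -/
private theorem Tr2_ends {x y : V} {l : List (Da E)} (h : Γ.Wk x l y) {d : Da E} (hd : d ∈ l) :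
    Γ.s d.1 ∈ Γ.vs x l ∧ Γ.t d.1 ∈ Γ.vs x l := by
  obtain ⟨-, h1, h2⟩ := wk_mem h d hd
  obtain ⟨e, c⟩ := d
  cases c
  · exact ⟨h2, h1⟩
  · exact ⟨h1, h2⟩

/-- the potential of the cycle -/
private theorem Tr2_pot {x y : V} {P P' : List (Da E)} (h : Γ.Cy x y P P') :
    ∃ p : V → Q, ∀ e ∈ eds P ∪ eds P',
      Γ.g e + p (Γ.s e) - p (Γ.t e) ∈ AddSubgroup.zmultiples (Γ.gn P - Γ.gn P') := by
  obtain ⟨p₁, hp1, hp1x, hp1y, hp1d⟩ := ext_pot (AddSubgroup.zmultiples (Γ.gn P - Γ.gn P'))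
    (fun z => if z = y then Γ.gn P else 0) h.p h.ne (by
      simp only [if_neg h.ne, if_true]
      rw [add_zero, sub_self]
      exact zero_mem _)
  simp only [if_neg h.ne] at hp1x
  simp only [if_true] at hp1y
  obtain ⟨p₂, hp2, hp2x, hp2y, hp2d⟩ := ext_pot (AddSubgroup.zmultiples (Γ.gn P - Γ.gn P'))
    p₁ h.p' h.ne (by
      rw [hp1x, hp1y, add_zero, ← neg_sub (Γ.gn P) (Γ.gn P')]
      exact neg_mem (AddSubgroup.mem_zmultiples _))
  have heq : ∀ z ∈ Γ.vs x P, p₂ z = p₁ z := by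
    intro z hz
    by_cases hz' : z ∈ Γ.vs x P'
    · rcases h.dj z hz hz' with h1 | h1
      · rw [h1, hp2x]
      · rw [h1, hp2y]
    · exact hp2 z hz'
  refine ⟨p₂, fun e he => ?_⟩
  rcases Finset.mem_union.1 he with he | he
  · obtain ⟨d, hd, rfl⟩ := (mem_eds e P).1 he
    obtain ⟨h1, h2⟩ := Tr2_ends h.p.1 hd
    rw [heq _ h1, heq _ h2]
    exact hp1d d hd
  · obtain ⟨d, hd, rfl⟩ := (mem_eds e P').1 he
    exact hp2d d hd

/-- the induction step: an ear whose gain does not fit gives a theta -/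
private theorem Tr2_theta {Φ : Set Q} (hF : Fund Φ) (hΦ : Γ.Phi Φ) {B : Finset E} (hB : B ⊆ Γ.A)
    {a b : V} {l R R' : List (Da E)} (he : Γ.Ear B a b l) {g : Q} (hg : g ∈ Φ)
    (p : V → Q) (hp : ∀ e ∈ B, Γ.g e + p (Γ.s e) - p (Γ.t e) ∈ AddSubgroup.zmultiples g)
    (hR : (Γ.on B).Pt a R b) (hR' : (Γ.on B).Pt a R' b) (hRR : Γ.gn R' = Γ.gn R + g)
    (h1 : Γ.gn l ≠ Γ.gn R) (h2 : Γ.gn l ≠ Γ.gn R') :
    ∃ u w X Y Z, Γ.Th u w X Y Z ∧ Γ.gn X ≠ Γ.gn Y ∧ Γ.gn Y ≠ Γ.gn Z ∧ Γ.gn X ≠ Γ.gn Z := by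
  have hg0 : g ≠ 0 := fun h0 => hF.zero (h0 ▸ hg)
  have hd1 : Γ.gn l - Γ.gn R ∈ Φ := by
    rcases hΦ a b l R (ear_cy hB he hR) with h3 | h3
    · exact absurd (sub_eq_zero.1 h3) h1
    · exact h3
  have hd2 : Γ.gn l - Γ.gn R - g ∈ Φ := by
    rcases hΦ a b l R' (ear_cy hB he hR') with h3 | h3
    · exact absurd (sub_eq_zero.1 h3) h2
    · rw [hRR] at h3
      rw [sub_sub]
      exact h3
  have hnot := hF.tri g hg _ hd1 hd2
  have hgp : ∀ R'' : List (Da E), (Γ.on B).Pt a R'' b →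
      Γ.gn R'' + p a - p b ∈ AddSubgroup.zmultiples g := by
    intro R'' hR''
    have h3 := (pt_on hB).1 hR''
    exact gn_pot _ p h3.1.1 fun d hd => hp _ (h3.2 d hd)
  have hl : ∀ R'' : List (Da E), (Γ.on B).Pt a R'' b → Γ.gn l ≠ Γ.gn R'' := by
    intro R'' hR'' h3
    apply hnot
    have h4 := sub_mem (hgp R'' hR'') (hgp R hR)
    rw [h3]
    have h5 : Γ.gn R'' + p a - p b - (Γ.gn R + p a - p b) = Γ.gn R'' - Γ.gn R := by abel
    rw [h5] at h4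
    exact h4
  have key : Γ.gn R' = Γ.gn R ∨
      ∃ u w X Y Z, Γ.Th u w X Y Z ∧ Γ.gn X ≠ Γ.gn Y ∧ Γ.gn Y ≠ Γ.gn Z ∧ Γ.gn X ≠ Γ.gn Z := by
    refine replace_induction (Γ := Γ.on B) (fun R'' => Γ.gn R'' = Γ.gn R ∨
      ∃ u w X Y Z, Γ.Th u w X Y Z ∧ Γ.gn X ≠ Γ.gn Y ∧ Γ.gn Y ≠ Γ.gn Z ∧ Γ.gn X ≠ Γ.gn Z)
      ?_ hR hR' (Or.inl rfl)
    intro R₁ X Y R₃ u w hX hY hu hw hc hFX
    rcases hFX with hFX | hFX
    · by_cases hXY : Γ.gn X = Γ.gn Y
      · left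
        rw [← hFX, gn_append, gn_append, gn_append, gn_append, hXY]
      · right
        refine ⟨u, w, X, Y, _, ear_theta hB he hX hY hu hw hc, hXY, ?_, ?_⟩
        · intro h3
          apply hl _ hY
          rw [gn_append, gn_append, gn_rv, gn_rv] at h3
          rw [gn_append, gn_append, h3]
          abel
        · intro h3
          apply hl _ hX
          rw [gn_append, gn_append, gn_rv, gn_rv] at h3
          rw [gn_append, gn_append, h3]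
          abel
    · exact Or.inr hFX
  rcases key with h3 | h3
  · exfalso
    rw [hRR] at h3
    exact hg0 (by simpa using h3)
  · exact h3

theorem cyc_or_theta (hΓ : Γ.C2) {Φ : Set Q} (hF : Fund Φ) (hΦ : Γ.Phi Φ) {x y : V} {P P' : List (Da E)}
    (h : Γ.Cy x y P P') (hne : Γ.gn P ≠ Γ.gn P') :
    (∃ g ∈ Φ, Γ.InS (AddSubgroup.zmultiples g) ∧ Γ.Sp {0, g}) ∨
      ∃ u w X Y Z, Γ.Th u w X Y Z ∧ Γ.gn X ≠ Γ.gn Y ∧ Γ.gn Y ≠ Γ.gn Z ∧ Γ.gn X ≠ Γ.gn Z := by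
  have hg : Γ.gn P - Γ.gn P' ∈ Φ := by
    rcases hΦ x y P P' h with h1 | h1
    · exact absurd (sub_eq_zero.1 h1) hne
    · exact h1
  obtain ⟨g, hgd⟩ : ∃ g, g = Γ.gn P - Γ.gn P' := ⟨_, rfl⟩
  have hB0 : eds P ∪ eds P' ⊆ Γ.A := Finset.union_subset (eds_sub h.p.1) (eds_sub h.p'.1)
  have hpot := Tr2_pot h
  have hsp := cycle_sp h
  rw [← hgd] at hg hpot hsp
  have hfin := ear_induction hΓ hB0 (cycle_C2 h) (fun B => ((Γ.on B).Sp {0, g} ∧
      ∃ p : V → Q, ∀ e ∈ B, Γ.g e + p (Γ.s e) - p (Γ.t e) ∈ AddSubgroup.zmultiples g) ∨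
      ∃ u w X Y Z, Γ.Th u w X Y Z ∧ Γ.gn X ≠ Γ.gn Y ∧ Γ.gn Y ≠ Γ.gn Z ∧ Γ.gn X ≠ Γ.gn Z)
    (Or.inl ⟨hsp, hpot⟩) (by
      intro B a b l _ hB h2 hFB he
      rcases hFB with ⟨hS, p, hp⟩ | hFB
      · -- two paths
        obtain ⟨R, R', hR, hR', hRR⟩ : ∃ R R', (Γ.on B).Pt a R b ∧ (Γ.on B).Pt a R' b ∧
            Γ.gn R' = Γ.gn R + g := by
          obtain ⟨q, hq | hq⟩ := hS a he.ha b he.hb he.ne
          · obtain ⟨R, hR, hRg⟩ := hq 0 (by simp)
            obtain ⟨R', hR', hRg'⟩ := hq g (by simp)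
            refine ⟨R, R', hR, hR', ?_⟩
            have e1 : Γ.gn R = q + 0 := hRg
            have e2 : Γ.gn R' = q + g := hRg'
            rw [e1, e2, add_zero]
          · obtain ⟨R, hR, hRg⟩ := hq 0 (by simp)
            obtain ⟨R', hR', hRg'⟩ := hq g (by simp)
            refine ⟨R', R, hR', hR, ?_⟩
            have e1 : Γ.gn R = q - 0 := hRg
            have e2 : Γ.gn R' = q - g := hRg'
            rw [e1, e2, sub_zero, sub_add_cancel]
        have hfit : ∀ R'' : List (Da E), (Γ.on B).Pt a R'' b → Γ.gn l = Γ.gn R'' →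
            (Γ.on (B ∪ eds l)).Sp {0, g} ∧
            ∃ p : V → Q, ∀ e ∈ B ∪ eds l,
              Γ.g e + p (Γ.s e) - p (Γ.t e) ∈ AddSubgroup.zmultiples g := by
          intro R'' hR'' hl
          refine ⟨sp_ear hB h2 he hS, ins_ear hB he _ p hp ?_⟩
          have h3 := (pt_on hB).1 hR''
          rw [hl]
          exact gn_pot _ p h3.1.1 fun d hd => hp _ (h3.2 d hd)
        by_cases h3 : Γ.gn l = Γ.gn R
        · exact Or.inl (hfit R hR h3)
        · by_cases h4 : Γ.gn l = Γ.gn R'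
          · exact Or.inl (hfit R' hR' h4)
          · exact Or.inr (Tr2_theta hF hΦ hB he hg p hp hR hR' hRR h3 h4)
      · exact Or.inr hFB)
  rcases hfin with ⟨hS, p, hp⟩ | hT
  · rw [on_A] at hS
    exact Or.inl ⟨g, hg, ⟨p, hp⟩, hS⟩
  · exact Or.inr hT

end Pool.Agent.FRM
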