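import Pool.Agent.FRM.CyB

/-!
# FRM/ThB: a theta is C2 and has three paths between any two of its vertices

`theta_C2`: it is the cycle `X, Y` together with the ear `Z` (`ear_C2`; if `Z` has an edge in common with `X` or `Y` then it is the same single edge,
`cy_disj`, and the theta is a cycle).  `theta_sp`: for two vertices `x ≠ y` there are `q` and three paths from `x` to `y` with the gains
`q + gn X`, `q + gn Y`, `q + gn Z` or `q - gn X`, `q - gn Y`, `q - gn Z` (`ThB_core`, symmetric in the branches and in `x`, `y`).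
If both are on the branch `X = l₁ ++ l₂ ++ l₃`, `l₂ : x → y`: the paths `l₂`, `rv l₁ ++ Y ++ rv l₃`, `rv l₁ ++ Z ++ rv l₃`.  If
`x` is inner on `X = l₁ ++ l₂` and `y` is inner on `Y = m₁ ++ m₂`: the paths `rv l₁ ++ m₁`, `l₂ ++ rv m₂`, `l₂ ++ rv Z ++ m₁`.
-/

set_option autoImplicit false

noncomputable section

open scoped Classical

namespace Pool.Agent.FRM

open GG

variable {V E Q : Type} [AddCommGroup Q] {Γ : GG V E Q}

/-- permutations of the branches -/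
theorem th_swap {u w : V} {X Y Z : List (Da E)} (h : Γ.Th u w X Y Z) : Γ.Th u w Y X Z :=
  ⟨cy_symm h.xy, h.xz, h.yz⟩

theorem th_rot {u w : V} {X Y Z : List (Da E)} (h : Γ.Th u w X Y Z) : Γ.Th u w Y Z X :=
  ⟨h.yz, cy_symm h.xz, cy_symm h.xy⟩

private theorem ThB_same_edge {u w : V} {X Z : List (Da E)} (h : Γ.Cy u w X Z) :
    (∀ d ∈ Z, d.1 ∉ eds X) ∨ eds Z = eds X := by
  rcases cy_disj h with h1 | ⟨d, h1, h2⟩
  · left
    intro d hd hX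
    obtain ⟨d', hd', he⟩ := (mem_eds _ _).1 hX
    refine h1 d' hd' ?_
    rw [mem_eds]
    exact ⟨d, hd, he.symm⟩
  · right
    rw [h1, h2]

theorem theta_C2 {u w : V} {X Y Z : List (Da E)} (h : Γ.Th u w X Y Z) : (Γ.on (eds X ∪ eds Y ∪ eds Z)).C2 := by
  have hC := cycle_C2 h.xy
  rcases ThB_same_edge h.xz with h1 | h1
  · rcases ThB_same_edge h.yz with h2 | h2
    · have hX := VS_eds h.xy.p.1 (pt_ne h.xy.p h.xy.ne)
      have hY := VS_eds h.yz.p.1 (pt_ne h.yz.p h.yz.ne)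
      refine ear_C2 (Finset.union_subset (eds_sub h.xy.p.1) (eds_sub h.yz.p.1)) hC (a := u) (b := w) ?_
      refine ⟨?_, ?_, h.xy.ne, h.yz.p', ?_, ?_⟩
      · rw [VS_union, hX]
        exact Or.inl (wk_first _ _)
      · rw [VS_union, hX]
        exact Or.inl (wk_last h.xy.p.1)
      · intro z hz hz2
        rw [VS_union, hX, hY] at hz2
        rcases hz2 with hz2 | hz2
        · exact h.xz.dj z hz2 hz
        · exact h.yz.dj z hz2 hz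
      · intro d hd hB
        rcases Finset.mem_union.1 hB with hB | hB
        · exact h1 d hd hB
        · exact h2 d hd hB
    · have : eds X ∪ eds Y ∪ eds Z = eds X ∪ eds Y := by
        rw [h2, Finset.union_assoc, Finset.union_self]
      rw [this]
      exact hC
  · have : eds X ∪ eds Y ∪ eds Z = eds X ∪ eds Y := by
      rw [h1, Finset.union_comm, ← Finset.union_assoc, Finset.union_self]
    rw [this]
    exact hC

/-- three paths -/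
private def ThB_core (Γ : GG V E Q) (B : Finset E) (a b c : Q) (x y : V) : Prop :=
  ∃ q : Q, (∃ P₁ P₂ P₃, ((Γ.on B).Pt x P₁ y ∧ (Γ.on B).Pt x P₂ y ∧ (Γ.on B).Pt x P₃ y) ∧
      Γ.gn P₁ = q + a ∧ Γ.gn P₂ = q + b ∧ Γ.gn P₃ = q + c) ∨
    (∃ P₁ P₂ P₃, ((Γ.on B).Pt x P₁ y ∧ (Γ.on B).Pt x P₂ y ∧ (Γ.on B).Pt x P₃ y) ∧
      Γ.gn P₁ = q - a ∧ Γ.gn P₂ = q - b ∧ Γ.gn P₃ = q - c)

private theorem ThB_symm {B : Finset E} {a b c : Q} {x y : V} (h : ThB_core Γ B a b c x y) :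
    ThB_core Γ B a b c y x := by
  obtain ⟨q, h | h⟩ := h
  · obtain ⟨P₁, P₂, P₃, ⟨p1, p2, p3⟩, g1, g2, g3⟩ := h
    refine ⟨-q, Or.inr ⟨rv P₁, rv P₂, rv P₃, ⟨pt_rv p1, pt_rv p2, pt_rv p3⟩, ?_, ?_, ?_⟩⟩
    · rw [gn_rv, g1]; abel
    · rw [gn_rv, g2]; abel
    · rw [gn_rv, g3]; abel
  · obtain ⟨P₁, P₂, P₃, ⟨p1, p2, p3⟩, g1, g2, g3⟩ := h
    refine ⟨-q, Or.inl ⟨rv P₁, rv P₂, rv P₃, ⟨pt_rv p1, pt_rv p2, pt_rv p3⟩, ?_, ?_, ?_⟩⟩
    · rw [gn_rv, g1]; abel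
    · rw [gn_rv, g2]; abel
    · rw [gn_rv, g3]; abel

private theorem ThB_perm1 {B : Finset E} {a b c : Q} {x y : V} (h : ThB_core Γ B a b c x y) :
    ThB_core Γ B b a c x y := by
  obtain ⟨q, h | h⟩ := h
  · obtain ⟨P₁, P₂, P₃, ⟨p1, p2, p3⟩, g1, g2, g3⟩ := h
    exact ⟨q, Or.inl ⟨P₂, P₁, P₃, ⟨p2, p1, p3⟩, g2, g1, g3⟩⟩
  · obtain ⟨P₁, P₂, P₃, ⟨p1, p2, p3⟩, g1, g2, g3⟩ := h
    exact ⟨q, Or.inr ⟨P₂, P₁, P₃, ⟨p2, p1, p3⟩, g2, g1, g3⟩⟩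

private theorem ThB_perm2 {B : Finset E} {a b c : Q} {x y : V} (h : ThB_core Γ B a b c x y) :
    ThB_core Γ B b c a x y := by
  obtain ⟨q, h | h⟩ := h
  · obtain ⟨P₁, P₂, P₃, ⟨p1, p2, p3⟩, g1, g2, g3⟩ := h
    exact ⟨q, Or.inl ⟨P₂, P₃, P₁, ⟨p2, p3, p1⟩, g2, g3, g1⟩⟩
  · obtain ⟨P₁, P₂, P₃, ⟨p1, p2, p3⟩, g1, g2, g3⟩ := h
    exact ⟨q, Or.inr ⟨P₂, P₃, P₁, ⟨p2, p3, p1⟩, g2, g3, g1⟩⟩

/-- both vertices on `X`, in order -/
private theorem ThB_same1 {u w x y : V} {l₁ l₂ l₃ Y Z : List (Da E)} {B : Finset E}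
    (h : Γ.Th u w (l₁ ++ l₂ ++ l₃) Y Z) (hX : eds (l₁ ++ l₂ ++ l₃) ⊆ B) (hY : eds Y ⊆ B)
    (hZ : eds Z ⊆ B) (h₁ : Γ.Wk u l₁ x) (h₂ : Γ.Wk x l₂ y) (hxy : x ≠ y) :
    ThB_core Γ B (Γ.gn (l₁ ++ l₂ ++ l₃)) (Γ.gn Y) (Γ.gn Z) x y := by
  have c1 := rs_same h.xy h₁ h₂ hxy
  have c2 := rs_same h.xz h₁ h₂ hxy
  rw [eds_append, eds_append] at hX
  have e1 : eds l₁ ⊆ B := fun e he => hX (by simp [he])
  have e2 : eds l₂ ⊆ B := fun e he => hX (by simp [he])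
  have e3 : eds l₃ ⊆ B := fun e he => hX (by simp [he])
  refine ⟨-Γ.gn l₁ - Γ.gn l₃, Or.inl ⟨l₂, rv l₁ ++ Y ++ rv l₃, rv l₁ ++ Z ++ rv l₃,
    ⟨pt_eds c1.p e2, pt_eds c1.p' ?_, pt_eds c2.p' ?_⟩, ?_, ?_, ?_⟩⟩
  · rw [eds_append, eds_append, eds_rv, eds_rv]
    exact Finset.union_subset (Finset.union_subset e1 hY) e3
  · rw [eds_append, eds_append, eds_rv, eds_rv]
    exact Finset.union_subset (Finset.union_subset e1 hZ) e3
  · rw [gn_append, gn_append]; abel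
  · rw [gn_append, gn_append, gn_rv, gn_rv]; abel
  · rw [gn_append, gn_append, gn_rv, gn_rv]; abel

/-- both vertices on `X` -/
private theorem ThB_same {u w x y : V} {X Y Z : List (Da E)} {B : Finset E}
    (h : Γ.Th u w X Y Z) (hX : eds X ⊆ B) (hY : eds Y ⊆ B) (hZ : eds Z ⊆ B)
    (hx : x ∈ Γ.vs u X) (hy : y ∈ Γ.vs u X) (hxy : x ≠ y) :
    ThB_core Γ B (Γ.gn X) (Γ.gn Y) (Γ.gn Z) x y := by
  obtain ⟨l₁, l₂, rfl, p1, p2, -⟩ := pt_split_at h.xy.p hx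
  rcases (mem_vs_append p1.1).1 hy with hy | hy
  · obtain ⟨k₁, k₂, rfl, q1, q2, -⟩ := pt_split_at p1 hy
    exact ThB_symm (ThB_same1 h hX hY hZ q1.1 q2.1 hxy.symm)
  · obtain ⟨m₁, m₂, rfl, q1, q2, -⟩ := pt_split_at p2 hy
    rw [← List.append_assoc] at h hX ⊢
    exact ThB_same1 h hX hY hZ p1.1 q1.1 hxy

/-- `x` inner on `X`, `y` inner on `Y` -/
private theorem ThB_cross {u w x y : V} {X Y Z : List (Da E)} {B : Finset E}
    (h : Γ.Th u w X Y Z) (hX : eds X ⊆ B) (hY : eds Y ⊆ B) (hZ : eds Z ⊆ B)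
    (hx : x ∈ Γ.vs u X) (hy : y ∈ Γ.vs u Y) (hxu : x ≠ u) (hxw : x ≠ w) (hyu : y ≠ u) (hyw : y ≠ w) :
    ThB_core Γ B (Γ.gn X) (Γ.gn Y) (Γ.gn Z) x y := by
  obtain ⟨l₁, l₂, rfl, p1, p2, pd⟩ := pt_split_at h.xy.p hx
  obtain ⟨m₁, m₂, rfl, q1, q2, qd⟩ := pt_split_at h.yz.p hy
  have c1 := rs_cross h.xy p1.1 q1.1 ⟨hxu, hxw⟩ ⟨hyu, hyw⟩
  rw [eds_append] at hX hY
  have e1 : eds l₁ ⊆ B := fun e he => hX (by simp [he])
  have e2 : eds l₂ ⊆ B := fun e he => hX (by simp [he])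
  have f1 : eds m₁ ⊆ B := fun e he => hY (by simp [he])
  have f2 : eds m₂ ⊆ B := fun e he => hY (by simp [he])
  have hul : u ∉ Γ.vs x l₂ := fun hu => hxu (pd u (wk_first _ _) hu).symm
  have hwm : w ∉ Γ.vs u m₁ := fun hw => hyw (qd w hw (wk_last q2.1)).symm
  have hZp := pt_rv h.yz.p'
  have hr : Γ.Pt x (l₂ ++ rv Z) u := by
    refine pt_append p2 hZp ?_
    intro z hz hz2
    rw [mem_vs_rv h.yz.p'.1] at hz2
    rcases h.xz.dj z ((mem_vs_append p1.1).2 (Or.inr hz)) hz2 with e | e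
    · exact absurd (e ▸ hz) hul
    · exact e
  have hr2 : Γ.Pt x (l₂ ++ rv Z ++ m₁) y := by
    refine pt_append hr q1 ?_
    intro z hz hz2
    have hzY : z ∈ Γ.vs u (m₁ ++ m₂) := (mem_vs_append q1.1).2 (Or.inl hz2)
    have hzw : z ≠ w := fun e => hwm (e ▸ hz2)
    rcases (mem_vs_append p2.1).1 hz with hz | hz
    · rcases h.xy.dj z ((mem_vs_append p1.1).2 (Or.inr hz)) hzY with e | e
      · exact e
      · exact absurd e hzw
    · rw [mem_vs_rv h.yz.p'.1] at hz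
      rcases h.yz.dj z hzY hz with e | e
      · exact e
      · exact absurd e hzw
  refine ⟨Γ.gn l₂ + Γ.gn m₁, Or.inr ⟨rv l₁ ++ m₁, l₂ ++ rv m₂, l₂ ++ rv Z ++ m₁,
    ⟨pt_eds c1.p ?_, pt_eds c1.p' ?_, pt_eds hr2 ?_⟩, ?_, ?_, ?_⟩⟩
  · rw [eds_append, eds_rv]
    exact Finset.union_subset e1 f1
  · rw [eds_append, eds_rv]
    exact Finset.union_subset e2 f2
  · rw [eds_append, eds_append, eds_rv]
    exact Finset.union_subset (Finset.union_subset e2 hZ) f1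
  · rw [gn_append, gn_append, gn_rv]; abel
  · rw [gn_append, gn_append, gn_rv]; abel
  · rw [gn_append, gn_append, gn_rv]; abel

private theorem ThB_all {u w x y : V} {X Y Z : List (Da E)} {B : Finset E}
    (h : Γ.Th u w X Y Z) (hX : eds X ⊆ B) (hY : eds Y ⊆ B) (hZ : eds Z ⊆ B)
    (hx : x ∈ Γ.vs u X ∨ x ∈ Γ.vs u Y ∨ x ∈ Γ.vs u Z)
    (hy : y ∈ Γ.vs u X ∨ y ∈ Γ.vs u Y ∨ y ∈ Γ.vs u Z) (hxy : x ≠ y) :
    ThB_core Γ B (Γ.gn X) (Γ.gn Y) (Γ.gn Z) x y := by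
  have hu : u ∈ Γ.vs u X ∧ u ∈ Γ.vs u Y ∧ u ∈ Γ.vs u Z :=
    ⟨wk_first _ _, wk_first _ _, wk_first _ _⟩
  have hw : w ∈ Γ.vs u X ∧ w ∈ Γ.vs u Y ∧ w ∈ Γ.vs u Z :=
    ⟨wk_last h.xy.p.1, wk_last h.yz.p.1, wk_last h.yz.p'.1⟩
  have sX : x ∈ Γ.vs u X → y ∈ Γ.vs u X → ThB_core Γ B (Γ.gn X) (Γ.gn Y) (Γ.gn Z) x y :=
    fun h1 h2 => ThB_same h hX hY hZ h1 h2 hxy
  have sY : x ∈ Γ.vs u Y → y ∈ Γ.vs u Y → ThB_core Γ B (Γ.gn X) (Γ.gn Y) (Γ.gn Z) x y :=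
    fun h1 h2 => ThB_perm1 (ThB_same (th_swap h) hY hX hZ h1 h2 hxy)
  have sZ : x ∈ Γ.vs u Z → y ∈ Γ.vs u Z → ThB_core Γ B (Γ.gn X) (Γ.gn Y) (Γ.gn Z) x y :=
    fun h1 h2 => ThB_perm2 (ThB_same (th_rot (th_rot h)) hZ hX hY h1 h2 hxy)
  by_cases hxu : x = u
  · subst hxu
    rcases hy with hy | hy | hy
    · exact sX hu.1 hy
    · exact sY hu.2.1 hy
    · exact sZ hu.2.2 hy
  by_cases hxw : x = w
  · subst hxw
    rcases hy with hy | hy | hy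
    · exact sX hw.1 hy
    · exact sY hw.2.1 hy
    · exact sZ hw.2.2 hy
  by_cases hyu : y = u
  · subst hyu
    rcases hx with hx | hx | hx
    · exact sX hx hu.1
    · exact sY hx hu.2.1
    · exact sZ hx hu.2.2
  by_cases hyw : y = w
  · subst hyw
    rcases hx with hx | hx | hx
    · exact sX hx hw.1
    · exact sY hx hw.2.1
    · exact sZ hx hw.2.2
  rcases hx with hx | hx | hx
  · rcases hy with hy | hy | hy
    · exact sX hx hy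
    · exact ThB_cross h hX hY hZ hx hy hxu hxw hyu hyw
    · -- branches `X`, `Z`, `Y`
      have h' : Γ.Th u w X Z Y := th_swap (th_rot (th_rot h))
      have c := ThB_cross h' hX hZ hY hx hy hxu hxw hyu hyw
      -- `a c b → a b c`
      exact ThB_perm2 (ThB_perm1 c)
  · rcases hy with hy | hy | hy
    · exact ThB_symm (ThB_cross h hX hY hZ hy hx hyu hyw hxu hxw)
    · exact sY hx hy
    · have h' : Γ.Th u w Y Z X := th_rot h
      have c := ThB_cross h' hY hZ hX hx hy hxu hxw hyu hyw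
      -- `b c a → a b c`
      exact ThB_perm2 (ThB_perm2 c)
  · rcases hy with hy | hy | hy
    · have h' : Γ.Th u w X Z Y := th_swap (th_rot (th_rot h))
      have c := ThB_cross h' hX hZ hY hy hx hyu hyw hxu hxw
      exact ThB_symm (ThB_perm2 (ThB_perm1 c))
    · have h' : Γ.Th u w Y Z X := th_rot h
      have c := ThB_cross h' hY hZ hX hy hx hyu hyw hxu hxw
      exact ThB_symm (ThB_perm2 (ThB_perm2 c))
    · exact sZ hx hy

theorem theta_sp {u w : V} {X Y Z : List (Da E)} (h : Γ.Th u w X Y Z) :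
    (Γ.on (eds X ∪ eds Y ∪ eds Z)).Sp {0, Γ.gn Y - Γ.gn X, Γ.gn Z - Γ.gn X} := by
  have hVX := VS_eds h.xy.p.1 (pt_ne h.xy.p h.xy.ne)
  have hVY := VS_eds h.yz.p.1 (pt_ne h.yz.p h.yz.ne)
  have hVZ := VS_eds h.yz.p'.1 (pt_ne h.yz.p' h.yz.ne)
  have hmem : ∀ z ∈ (Γ.on (eds X ∪ eds Y ∪ eds Z)).VS,
      z ∈ Γ.vs u X ∨ z ∈ Γ.vs u Y ∨ z ∈ Γ.vs u Z := by
    intro z hz
    rw [VS_union, VS_union, hVX, hVY, hVZ] at hz
    rcases hz with (hz | hz) | hz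
    · exact Or.inl hz
    · exact Or.inr (Or.inl hz)
    · exact Or.inr (Or.inr hz)
  intro x hx y hy hxy
  obtain ⟨q, hq | hq⟩ := ThB_all (B := eds X ∪ eds Y ∪ eds Z) h
    (fun e he => by simp [he]) (fun e he => by simp [he]) (fun e he => by simp [he])
    (hmem x hx) (hmem y hy) hxy
  · obtain ⟨P₁, P₂, P₃, ⟨p1, p2, p3⟩, g1, g2, g3⟩ := hq
    refine ⟨q + Γ.gn X, Or.inl ?_⟩
    intro a ha
    rcases ha with ha | ha | ha
    · exact ⟨P₁, p1, by rw [ha]; show Γ.gn P₁ = _; rw [g1]; abel⟩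
    · exact ⟨P₂, p2, by rw [ha]; show Γ.gn P₂ = _; rw [g2]; abel⟩
    · rw [Set.mem_singleton_iff] at ha
      exact ⟨P₃, p3, by rw [ha]; show Γ.gn P₃ = _; rw [g3]; abel⟩
  · obtain ⟨P₁, P₂, P₃, ⟨p1, p2, p3⟩, g1, g2, g3⟩ := hq
    refine ⟨q - Γ.gn X, Or.inr ?_⟩
    intro a ha
    rcases ha with ha | ha | ha
    · exact ⟨P₁, p1, by rw [ha]; show Γ.gn P₁ = _; rw [g1]; abel⟩
    · exact ⟨P₂, p2, by rw [ha]; show Γ.gn P₂ = _; rw [g2]; abel⟩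
    · rw [Set.mem_singleton_iff] at ha
      exact ⟨P₃, p3, by rw [ha]; show Γ.gn P₃ = _; rw [g3]; abel⟩

end Pool.Agent.FRM
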