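import Pool.Agent.FRM.Ext
import Pool.Agent.FRM.ThB
import Pool.Agent.FRM.Sp1

/-!
# FRM/Tr3: graphs with a contrabalanced theta

PROOF PLAN.  `a := gn Y - gn X`, `b := gn Z - gn X`, `S := closure {a, b}`, `T := {0, a, b}`.  `ear_induction` from the edges of the theta (`theta_C2`) for
`F B := (Γ.on B).Sp T ∧ ∃ p, ∀ e ∈ B, g e + p (s e) - p (t e) ∈ S`.  Base: `theta_sp`; potentials: `p u = 0`, `p w = gn X`, `ext_pot` along the three branches.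
Step: ear `l : c → d` of `B`, `h = gn l`: `Sp` gives `q` and three paths of `B` of gains `q, q + a, q + b` (or `q, q - a, q - b`) from `c` to `d`;
`ear_cy` and `Phi` and `Fund.k4` (for `h - q`, resp. `q - h`; use `symm`) show that `h` is the gain of one of these three paths, so `ins_ear` applies (`gn_pot`); `sp_ear`.
-/

set_option autoImplicit false

noncomputable section

open scoped Classical

namespace Pool.Agent.FRM

open GG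

variable {V E Q : Type} [AddCommGroup Q] {Γ : GG V E Q}


private theorem Tr3_ear_gain {Φ : Set Q} (hF : Fund Φ) (hΦ : Γ.Phi Φ) {B : Finset E} (hB : B ⊆ Γ.A)
    {a b : Q} (ha : a ∈ Φ) (hb : b ∈ Φ) (hab : a - b ∈ Φ) (hS : (Γ.on B).Sp {0, a, b})
    {c d : V} {l : List (Da E)} (he : Γ.Ear B c d l) : ∃ R, (Γ.on B).Pt c R d ∧ Γ.gn R = Γ.gn l := by
  have key : ∀ R, (Γ.on B).Pt c R d → Γ.gn l - Γ.gn R = 0 ∨ Γ.gn l - Γ.gn R ∈ Φ := fun R hR =>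
    hΦ c d l R (ear_cy hB he hR)
  obtain ⟨q, hq | hq⟩ := hS c he.ha d he.hb he.ne
  · obtain ⟨P0, hP0, h0⟩ := hq 0 (by simp)
    obtain ⟨P1, hP1, h1⟩ := hq a (by simp)
    obtain ⟨P2, hP2, h2⟩ := hq b (by simp)
    have g0 : Γ.gn P0 = q + 0 := h0
    have g1 : Γ.gn P1 = q + a := h1
    have g2 : Γ.gn P2 = q + b := h2
    have k0 := key P0 hP0
    have k1 := key P1 hP1
    have k2 := key P2 hP2
    have e0 : Γ.gn l - Γ.gn P0 = Γ.gn l - q := by rw [g0]; abel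
    have e1 : Γ.gn l - Γ.gn P1 = Γ.gn l - q - a := by rw [g1]; abel
    have e2 : Γ.gn l - Γ.gn P2 = Γ.gn l - q - b := by rw [g2]; abel
    rw [e0] at k0
    rw [e1] at k1
    rw [e2] at k2
    rcases hF.k4 a ha b hb hab (Γ.gn l - q) k0 k1 k2 with h | h | h
    · exact ⟨P0, hP0, by rw [g0, add_zero]; exact (sub_eq_zero.1 h).symm⟩
    · exact ⟨P1, hP1, by rw [g1, ← h]; abel⟩
    · exact ⟨P2, hP2, by rw [g2, ← h]; abel⟩
  · obtain ⟨P0, hP0, h0⟩ := hq 0 (by simp)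
    obtain ⟨P1, hP1, h1⟩ := hq a (by simp)
    obtain ⟨P2, hP2, h2⟩ := hq b (by simp)
    have g0 : Γ.gn P0 = q - 0 := h0
    have g1 : Γ.gn P1 = q - a := h1
    have g2 : Γ.gn P2 = q - b := h2
    have neg : ∀ x : Q, (x = 0 ∨ x ∈ Φ) → (-x = 0 ∨ -x ∈ Φ) := by
      rintro x (hx | hx)
      · left
        rw [hx, neg_zero]
      · right
        exact hF.symm x hx
    have k0 := neg _ (key P0 hP0)
    have k1 := neg _ (key P1 hP1)
    have k2 := neg _ (key P2 hP2)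
    have e0 : -(Γ.gn l - Γ.gn P0) = q - Γ.gn l := by rw [g0]; abel
    have e1 : -(Γ.gn l - Γ.gn P1) = q - Γ.gn l - a := by rw [g1]; abel
    have e2 : -(Γ.gn l - Γ.gn P2) = q - Γ.gn l - b := by rw [g2]; abel
    rw [e0] at k0
    rw [e1] at k1
    rw [e2] at k2
    rcases hF.k4 a ha b hb hab (q - Γ.gn l) k0 k1 k2 with h | h | h
    · have hh : q = Γ.gn l := sub_eq_zero.1 h
      exact ⟨P0, hP0, by rw [g0, sub_zero, hh]⟩
    · exact ⟨P1, hP1, by rw [g1, ← h]; abel⟩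
    · exact ⟨P2, hP2, by rw [g2, ← h]; abel⟩

private theorem Tr3_ends {x y : V} {l : List (Da E)} (h : Γ.Wk x l y) {d : Da E} (hd : d ∈ l) :
    Γ.s d.1 ∈ Γ.vs x l ∧ Γ.t d.1 ∈ Γ.vs x l := by
  obtain ⟨_, h1, h2⟩ := wk_mem h d hd
  obtain ⟨e, b⟩ := d
  cases b
  · exact ⟨h2, h1⟩
  · exact ⟨h1, h2⟩

private theorem Tr3_base (S : AddSubgroup Q) {u w : V} {X Y Z : List (Da E)}
    (h : Γ.Th u w X Y Z) (ha : Γ.gn Y - Γ.gn X ∈ S) (hb : Γ.gn Z - Γ.gn X ∈ S) :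
    ∃ p : V → Q, ∀ e ∈ eds X ∪ eds Y ∪ eds Z, Γ.g e + p (Γ.s e) - p (Γ.t e) ∈ S := by
  have hne : u ≠ w := h.xy.ne
  let p₀ : V → Q := fun z => if z = w then Γ.gn X else 0
  have p₀u : p₀ u = 0 := if_neg hne
  have p₀w : p₀ w = Γ.gn X := if_pos rfl
  obtain ⟨p₁, h1a, h1u, h1w, h1e⟩ := ext_pot S p₀ h.xy.p hne (by
    rw [p₀u, p₀w, add_zero, sub_self]; exact S.zero_mem)
  obtain ⟨p₂, h2a, h2u, h2w, h2e⟩ := ext_pot S p₁ h.xy.p' hne (by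
    rw [h1u, h1w, p₀u, p₀w, add_zero]; exact ha)
  obtain ⟨p₃, h3a, h3u, h3w, h3e⟩ := ext_pot S p₂ h.xz.p' hne (by
    rw [h2u, h2w, h1u, h1w, p₀u, p₀w, add_zero]; exact hb)
  have e21 : ∀ z ∈ Γ.vs u X, p₂ z = p₁ z := by
    intro z hz
    by_cases hz' : z ∈ Γ.vs u Y
    · rcases h.xy.dj z hz hz' with rfl | rfl
      · exact h2u
      · exact h2w
    · exact h2a z hz'
  have e32 : ∀ z ∈ Γ.vs u X, p₃ z = p₂ z := by
    intro z hz
    by_cases hz' : z ∈ Γ.vs u Z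
    · rcases h.xz.dj z hz hz' with rfl | rfl
      · exact h3u
      · exact h3w
    · exact h3a z hz'
  have e32' : ∀ z ∈ Γ.vs u Y, p₃ z = p₂ z := by
    intro z hz
    by_cases hz' : z ∈ Γ.vs u Z
    · rcases h.yz.dj z hz hz' with rfl | rfl
      · exact h3u
      · exact h3w
    · exact h3a z hz'
  refine ⟨p₃, fun e he => ?_⟩
  rw [Finset.mem_union, Finset.mem_union] at he
  rcases he with (he | he) | he
  · obtain ⟨d, hd, rfl⟩ := (mem_eds e X).1 he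
    obtain ⟨hs, ht⟩ := Tr3_ends h.xy.p.1 hd
    rw [e32 _ hs, e32 _ ht, e21 _ hs, e21 _ ht]
    exact h1e d hd
  · obtain ⟨d, hd, rfl⟩ := (mem_eds e Y).1 he
    obtain ⟨hs, ht⟩ := Tr3_ends h.xy.p'.1 hd
    rw [e32' _ hs, e32' _ ht]
    exact h2e d hd
  · obtain ⟨d, hd, rfl⟩ := (mem_eds e Z).1 he
    exact h3e d hd

theorem theta_all (hΓ : Γ.C2) {Φ : Set Q} (hF : Fund Φ) (hΦ : Γ.Phi Φ) {u w : V} {X Y Z : List (Da E)}
    (h : Γ.Th u w X Y Z) (h₁ : Γ.gn X ≠ Γ.gn Y) (h₂ : Γ.gn Y ≠ Γ.gn Z) (h₃ : Γ.gn X ≠ Γ.gn Z) :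
    Γ.gn Y - Γ.gn X ∈ Φ ∧ Γ.gn Z - Γ.gn X ∈ Φ ∧ Γ.gn Y - Γ.gn Z ∈ Φ ∧
      Γ.Sp {0, Γ.gn Y - Γ.gn X, Γ.gn Z - Γ.gn X} ∧
      Γ.InS (AddSubgroup.closure {Γ.gn Y - Γ.gn X, Γ.gn Z - Γ.gn X}) := by
  have ha : Γ.gn Y - Γ.gn X ∈ Φ := by
    rcases hΦ u w Y X (cy_symm h.xy) with h0 | h0
    · exact absurd (sub_eq_zero.1 h0).symm h₁
    · exact h0
  have hb : Γ.gn Z - Γ.gn X ∈ Φ := by
    rcases hΦ u w Z X (cy_symm h.xz) with h0 | h0
    · exact absurd (sub_eq_zero.1 h0).symm h₃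
    · exact h0
  have hc : Γ.gn Y - Γ.gn Z ∈ Φ := by
    rcases hΦ u w Y Z h.yz with h0 | h0
    · exact absurd (sub_eq_zero.1 h0) h₂
    · exact h0
  have hab : Γ.gn Y - Γ.gn X - (Γ.gn Z - Γ.gn X) ∈ Φ := by
    have : Γ.gn Y - Γ.gn X - (Γ.gn Z - Γ.gn X) = Γ.gn Y - Γ.gn Z := by abel
    rw [this]
    exact hc
  refine ⟨ha, hb, hc, ?_⟩
  set a : Q := Γ.gn Y - Γ.gn X with hadef
  set b : Q := Γ.gn Z - Γ.gn X with hbdef
  set S : AddSubgroup Q := AddSubgroup.closure {a, b} with hSdef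
  have haS : a ∈ S := AddSubgroup.subset_closure (by simp)
  have hbS : b ∈ S := AddSubgroup.subset_closure (by simp)
  have hB0 : eds X ∪ eds Y ∪ eds Z ⊆ Γ.A :=
    Finset.union_subset (Finset.union_subset (eds_sub h.xy.p.1) (eds_sub h.xy.p'.1)) (eds_sub h.xz.p'.1)
  have main := ear_induction hΓ hB0 (theta_C2 h)
    (fun B => (Γ.on B).Sp {0, a, b} ∧ ∃ p : V → Q, ∀ e ∈ B, Γ.g e + p (Γ.s e) - p (Γ.t e) ∈ S)
    ⟨theta_sp h, Tr3_base S h haS hbS⟩ (by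
      intro B' c d l _ hB' h2 hFB he
      obtain ⟨hSp, p, hp⟩ := hFB
      refine ⟨sp_ear hB' h2 he hSp, ?_⟩
      obtain ⟨R, hR, hgR⟩ := Tr3_ear_gain hF hΦ hB' ha hb hab hSp he
      obtain ⟨hR1, hR2⟩ := (pt_on hB').1 hR
      have h5 := gn_pot S p hR1.1 (fun d hd => hp d.1 (hR2 d hd))
      rw [hgR] at h5
      exact ins_ear hB' he S p hp h5)
  obtain ⟨m1, m2⟩ := main
  rw [on_A] at m1
  exact ⟨m1, m2⟩

/-- A new edge or path has the gain of a path of `B`. -/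
theorem ear_gain {Φ : Set Q} (hF : Fund Φ) (hΦ : Γ.Phi Φ) {B : Finset E} (hB : B ⊆ Γ.A)
    {a b : Q} (ha : a ∈ Φ) (hb : b ∈ Φ) (hab : a - b ∈ Φ) (hS : (Γ.on B).Sp {0, a, b})
    {c d : V} {l : List (Da E)} (he : Γ.Ear B c d l) : ∃ R, (Γ.on B).Pt c R d ∧ Γ.gn R = Γ.gn l :=
  Tr3_ear_gain hF hΦ hB ha hb hab hS he

end Pool.Agent.FRM
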