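import Pool.Agent.FRM.AugP
import Pool.Agent.FRM.Tr1
import Pool.Agent.FRM.Tr2
import Pool.Agent.FRM.Tr3

/-!
# FRM/AugC: one of the two graphs is rich

PROOF PLAN.  Suppose both `G₁ = aug A₁ x y S`, `G₂ = aug A₂ x y S` are `Cyc`, with `(p₁, g₁)`, `(p₂, g₂)`; `S` = the set of gains of the paths from `x` to `y` in `A₂`, a clique.  By adding a constant to `p₂` we may assume `p₁ x = p₂ x`.
Case 1: `s ≠ s' ∈ S`: then `s - s' ∈ hx` is in `zmultiples g₁` and in `zmultiples g₂` (edges `inr s`, `inr s'`), so `g₁ = ± g₂` (`hx_gen`).  The edge `inr s` gives `p₁ y - p₂ y ∈ zmultiples g₁`.  `p z = p₁ z` for `z ∈ V(A₁)`, `p₂ z` otherwise, shows that `Γ` is `Cyc`.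
Case 2: `S = {s}`.  `G₂` is `C2` (`aug_C2`, `sep_symm`) and `Phi` (`aug_Phi_near`).  `bal_or`, `cyc_or_theta` (`fund_hx`), `theta_all` for `G₂`: it is balanced (`InS ⊥`), or there are two paths from `x` to `y` in `G₂` with different gains (`Sp {0, g}`, `Sp {0, a, b}`); one of them has a gain `≠ s`, so it does not use the edge `inr s` (`aug_pt_cases`, `pt_edge_eq`), so it is a path in `A₂`
of gain `≠ s`: contradiction.  So `G₂` is balanced: take `p₂` with all switched gains `0`; `p₁ x = p₂ x`; the edge `inr s` gives `p₁ y - p₂ y ∈ zmultiples g₁`; `Γ` is `Cyc` with `g₁`.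
-/

set_option autoImplicit false

noncomputable section

open scoped Classical

namespace Pool.Agent.FRM

open GG

variable {V E : Type} {Γ : GG V E Lt}

private theorem AugC_glue {A₁ A₂ : Finset E} {x y : V} (h : Γ.Sep A₁ A₂ x y) (g : Lt) (p₁ p₂ : V → Lt)
    (e₁ : ∀ e ∈ A₁, Γ.g e + p₁ (Γ.s e) - p₁ (Γ.t e) ∈ AddSubgroup.zmultiples g)
    (e₂ : ∀ e ∈ A₂, Γ.g e + p₂ (Γ.s e) - p₂ (Γ.t e) ∈ AddSubgroup.zmultiples g)
    (hd : (p₁ x - p₁ y) - (p₂ x - p₂ y) ∈ AddSubgroup.zmultiples g) : Γ.Cyc := by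
  refine ⟨g, fun z => if z ∈ (Γ.on A₁).VS then p₁ z else p₂ z + (p₁ x - p₂ x), fun e he => ?_⟩
  have he' := he
  rw [h.un, Finset.mem_union] at he'
  rcases he' with he' | he'
  · have hs : Γ.s e ∈ (Γ.on A₁).VS := ⟨e, he', Or.inl rfl⟩
    have ht : Γ.t e ∈ (Γ.on A₁).VS := ⟨e, he', Or.inr rfl⟩
    simp only [hs, ht, if_true]
    exact e₁ e he'
  · have key : ∀ z ∈ (Γ.on A₂).VS, (if z ∈ (Γ.on A₁).VS then p₁ z else p₂ z + (p₁ x - p₂ x)) -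
        (p₂ z + (p₁ x - p₂ x)) ∈ AddSubgroup.zmultiples g := by
      intro z hz
      split_ifs with hz1
      · rcases h.mt z hz1 hz with hzx | hzy
        · rw [hzx]
          have h0 : p₁ x - (p₂ x + (p₁ x - p₂ x)) = 0 := by abel
          rw [h0]
          exact zero_mem _
        · rw [hzy]
          have h0 : p₁ y - (p₂ y + (p₁ x - p₂ x)) = -((p₁ x - p₁ y) - (p₂ x - p₂ y)) := by abel
          rw [h0]
          exact neg_mem hd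
      · rw [sub_self]
        exact zero_mem _
    have hs := key (Γ.s e) ⟨e, he', Or.inl rfl⟩
    have ht := key (Γ.t e) ⟨e, he', Or.inr rfl⟩
    have h3 := add_mem (e₂ e he') (sub_mem hs ht)
    have h4 : ∀ a b c d u v w : Lt, (a + c - d) + ((u - (c + w)) - (v - (d + w))) + b - b = a + u - v := by
      intro a b c d u v w
      abel
    have h5 := h4 (Γ.g e) 0 (p₂ (Γ.s e)) (p₂ (Γ.t e))
      (if Γ.s e ∈ (Γ.on A₁).VS then p₁ (Γ.s e) else p₂ (Γ.s e) + (p₁ x - p₂ x))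
      (if Γ.t e ∈ (Γ.on A₁).VS then p₁ (Γ.t e) else p₂ (Γ.t e) + (p₁ x - p₂ x)) (p₁ x - p₂ x)
    rw [add_zero, sub_zero] at h5
    rw [h5] at h3
    exact h3

private theorem AugC_gain {A₂ : Finset E} (hB : A₂ ⊆ Γ.A) {x y : V} (hxy : x ≠ y) {S : Finset Lt}
    (hS : ∀ P, (Γ.on A₂).Pt x P y → Γ.gn P ∈ S) {l : List (Da (E ⊕ Lt))} (hl : (Γ.aug A₂ x y S).Pt x l y) :
    (Γ.aug A₂ x y S).gn l ∈ S := by
  rcases aug_pt_cases hB hxy hl with ⟨l₀, rfl, h0⟩ | ⟨l₁, s, c, l₃, hs, rfl⟩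
  · rw [aug_gn]
    exact hS l₀ h0
  · have hmem : ((Sum.inr s, c) : Da (E ⊕ Lt)) ∈ il l₁ ++ [(Sum.inr s, c)] ++ il l₃ := by simp
    cases c with
    | true =>
      have h1 := pt_edge_eq hl hmem (Or.inl ⟨rfl, rfl⟩)
      rw [h1]
      have h2 : (Γ.aug A₂ x y S).gn [(Sum.inr s, true)] = s := by
        simp [GG.gn, GG.dg, GG.aug]
      rw [h2]
      exact hs
    | false =>
      have h1 := pt_edge_eq hl hmem (Or.inr ⟨rfl, rfl⟩)
      rw [h1] at hl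
      have h2 : (Γ.aug A₂ x y S).src (Sum.inr s, false) = x := hl.1.2.1
      exact absurd h2 hxy.symm

private theorem AugC_Sp {A₂ : Finset E} (hB : A₂ ⊆ Γ.A) {x y : V} (hxy : x ≠ y) {S : Finset Lt}
    (hS : ∀ P, (Γ.on A₂).Pt x P y → Γ.gn P ∈ S) (hx' : x ∈ (Γ.on A₂).VS) (hy' : y ∈ (Γ.on A₂).VS)
    {g : Lt} (hg : g ∈ hx) (hSp : (Γ.aug A₂ x y S).Sp {0, g}) : ∃ s ∈ S, ∃ s' ∈ S, s ≠ s' := by
  have hg0 : g ≠ 0 := by
    intro h0
    have := fund_hx.zero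
    rw [h0] at hg
    exact this (Finset.mem_coe.2 hg)
  have hV := aug_VS (S := S) hx' hy'
  obtain ⟨q, hq | hq⟩ := hSp x (by rw [hV]; exact hx') y (by rw [hV]; exact hy') hxy
  · obtain ⟨P, hP, hPg⟩ := hq 0 (by simp)
    obtain ⟨P', hP', hPg'⟩ := hq g (by simp)
    refine ⟨_, AugC_gain hB hxy hS hP, _, AugC_gain hB hxy hS hP', ?_⟩
    rw [hPg, hPg']
    intro h0
    exact hg0 (add_left_cancel h0).symm
  · obtain ⟨P, hP, hPg⟩ := hq 0 (by simp)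
    obtain ⟨P', hP', hPg'⟩ := hq g (by simp)
    refine ⟨_, AugC_gain hB hxy hS hP, _, AugC_gain hB hxy hS hP', ?_⟩
    rw [hPg, hPg']
    intro h0
    exact hg0 (sub_right_injective h0).symm

theorem aug_rich (hΓ : Γ.C2) (hΦ : Γ.Phi (hx : Set Lt)) (hc : ¬ Γ.Cyc) {A₁ A₂ : Finset E} {x y : V} (h : Γ.Sep A₁ A₂ x y)
    {S : Finset Lt} (hne : S.Nonempty) (hS : ∀ s, s ∈ S ↔ ∃ P, (Γ.on A₂).Pt x P y ∧ Γ.gn P = s)
    (hcl : ∀ s ∈ S, ∀ s' ∈ S, s - s' = 0 ∨ s - s' ∈ hx) : ¬ (Γ.aug A₁ x y S).Cyc ∨ ¬ (Γ.aug A₂ x y S).Cyc := by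
  by_contra hcon
  rw [not_or, not_not, not_not] at hcon
  obtain ⟨⟨g₁, p₁, h₁⟩, ⟨g₂, p₂, h₂⟩⟩ := hcon
  have e₁ : ∀ e ∈ A₁, Γ.g e + p₁ (Γ.s e) - p₁ (Γ.t e) ∈ AddSubgroup.zmultiples g₁ :=
    fun e he => h₁ (Sum.inl e) (aug_mem_inl.2 he)
  have f₁ : ∀ s ∈ S, s + p₁ x - p₁ y ∈ AddSubgroup.zmultiples g₁ :=
    fun s hs => h₁ (Sum.inr s) (aug_mem_inr.2 hs)
  have e₂ : ∀ e ∈ A₂, Γ.g e + p₂ (Γ.s e) - p₂ (Γ.t e) ∈ AddSubgroup.zmultiples g₂ :=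
    fun e he => h₂ (Sum.inl e) (aug_mem_inl.2 he)
  have f₂ : ∀ s ∈ S, s + p₂ x - p₂ y ∈ AddSubgroup.zmultiples g₂ :=
    fun s hs => h₂ (Sum.inr s) (aug_mem_inr.2 hs)
  have hB : A₂ ⊆ Γ.A := sep_sub (sep_symm h)
  have hS' : ∀ P, (Γ.on A₂).Pt x P y → Γ.gn P ∈ S := fun P hP => (hS _).2 ⟨P, hP, rfl⟩
  by_cases h2 : ∃ s ∈ S, ∃ s' ∈ S, s ≠ s'
  · obtain ⟨s, hs, s', hs', hne'⟩ := h2
    have hroot : s - s' ∈ hx := (hcl s hs s' hs').resolve_left (sub_ne_zero.2 hne')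
    have m₁ : s - s' ∈ AddSubgroup.zmultiples g₁ := by
      have h3 := sub_mem (f₁ s hs) (f₁ s' hs')
      rwa [sub_sub_sub_cancel_right, add_sub_add_right_eq_sub] at h3
    have m₂ : s - s' ∈ AddSubgroup.zmultiples g₂ := by
      have h3 := sub_mem (f₂ s hs) (f₂ s' hs')
      rwa [sub_sub_sub_cancel_right, add_sub_add_right_eq_sub] at h3
    have hz₁ : AddSubgroup.zmultiples g₁ = AddSubgroup.zmultiples (s - s') := by
      rcases hx_gen hroot m₁ with h4 | h4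
      · rw [h4]
      · rw [h4, AddSubgroup.zmultiples_neg]
    have hz₂ : AddSubgroup.zmultiples g₂ = AddSubgroup.zmultiples (s - s') := by
      rcases hx_gen hroot m₂ with h4 | h4
      · rw [h4]
      · rw [h4, AddSubgroup.zmultiples_neg]
    rw [hz₁] at e₁ f₁
    rw [hz₂] at e₂ f₂
    refine hc (AugC_glue h (s - s') p₁ p₂ e₁ e₂ ?_)
    have h3 := sub_mem (f₁ s hs) (f₂ s hs)
    have h4 : s + p₁ x - p₁ y - (s + p₂ x - p₂ y) = (p₁ x - p₁ y) - (p₂ x - p₂ y) := by abel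
    rwa [h4] at h3
  · have hC2 : (Γ.aug A₂ x y S).C2 := aug_C2 hΓ (sep_symm h) hne
    have hPhi : (Γ.aug A₂ x y S).Phi (hx : Set Lt) := aug_Phi_near hΓ hΦ hB h.ne hS' hcl
    have hmem := sep_mem hΓ (sep_symm h)
    rcases bal_or hC2 with ⟨p₃, h₃⟩ | ⟨u, w, P, P', hcy, hgn⟩
    · obtain ⟨s, hs⟩ := hne
      refine hc (AugC_glue h g₁ p₁ p₃ e₁ (fun e he => ?_) ?_)
      · have h4 : Γ.g e + p₃ (Γ.s e) - p₃ (Γ.t e) ∈ (⊥ : AddSubgroup Lt) :=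
          h₃ (Sum.inl e) (aug_mem_inl.2 he)
        rw [AddSubgroup.mem_bot] at h4
        rw [h4]
        exact zero_mem _
      · have h4 : s + p₃ x - p₃ y ∈ (⊥ : AddSubgroup Lt) := h₃ (Sum.inr s) (aug_mem_inr.2 hs)
        rw [AddSubgroup.mem_bot] at h4
        have h5 : (p₁ x - p₁ y) - (p₃ x - p₃ y) = (s + p₁ x - p₁ y) - (s + p₃ x - p₃ y) := by abel
        rw [h5, h4, sub_zero]
        exact f₁ s hs
    · refine h2 ?_
      rcases cyc_or_theta hC2 fund_hx hPhi hcy hgn with ⟨g, hg, _, hSp⟩ | ⟨u', w', X, Y, Z, hT, h5, h6, h7⟩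
      · exact AugC_Sp hB h.ne hS' hmem.1 hmem.2 (Finset.mem_coe.1 hg) hSp
      · obtain ⟨hg, _, _, hSp, _⟩ := theta_all hC2 fund_hx hPhi hT h5 h6 h7
        refine AugC_Sp hB h.ne hS' hmem.1 hmem.2 (Finset.mem_coe.1 hg) (sp_mono hSp ?_)
        intro z hz
        rcases hz with hz | hz
        · exact Or.inl hz
        · exact Or.inr (Or.inl hz)

end Pool.Agent.FRM
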