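import Pool.Agent.FRM.Cb1
import Pool.Agent.FRM.Rs

/-!
# FRM/Cb2: resplitting and cochains

PROOF PLAN.  For a cochain `v` let `τ e : Equiv.Perm k` (or `k ≃ k`) be the affine map `x ↦ v e + ch (g e) * x`; then `hl τ l` is `x ↦ tv l + ch (gn l) * x` (induction; the inverse of
`x ↦ v e + ch (g e) x` is `x ↦ -ch (-g e) v e + ch (-g e) x`).  So `hl τ P = hl τ P'` iff `tv P = tv P'` and `ch (gn P) = ch (gn P')`.  If `gn P = gn P'` then `gn R = gn R'` (`resplit_gn`) and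
`IsConj 1 _` means equality: `hl τ P * (hl τ P')⁻¹ = 1 ↔ hl τ R * (hl τ R')⁻¹ = 1`.
-/

set_option autoImplicit false

noncomputable section

open scoped Classical

namespace Pool.Agent.FRM

open GG

variable {V E : Type} {k : Type} [Field k] {ω : k} {Γ : GG V E Lt}


private def Cb2_af (hω : ω ^ 2 + ω + 1 = 0) (Γ : GG V E Lt) (v : E → k) (e : E) : Equiv.Perm k where
  toFun x := v e + ch ω (Γ.g e) * x
  invFun y := ch ω (-Γ.g e) * (y - v e)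
  left_inv x := by
    have h := ch_ne_zero hω (Γ.g e)
    rw [ch_neg hω]
    field_simp
    ring
  right_inv y := by
    have h := ch_ne_zero hω (Γ.g e)
    rw [ch_neg hω]
    field_simp
    ring

private theorem Cb2_hl (hω : ω ^ 2 + ω + 1 = 0) (v : E → k) (l : List (Da E)) (x : k) :
    hl (Cb2_af hω Γ v) l x = tv ω Γ v l + ch ω (Γ.gn l) * x := by
  induction l with
  | nil =>
    rw [hl_nil, gn_nil, ch_zero]
    simp [tv]
  | cons d l ih =>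
    rw [hl_cons, gn_cons, ch_add hω, Equiv.Perm.mul_apply, ih]
    obtain ⟨e, b⟩ := d
    cases b with
    | true =>
      simp only [if_true, tv, dv, GG.dg, Cb2_af, Equiv.coe_fn_mk]
      ring
    | false =>
      have h0 : ((Cb2_af hω Γ v e)⁻¹ : Equiv.Perm k) (tv ω Γ v l + ch ω (Γ.gn l) * x) =
          ch ω (-Γ.g e) * ((tv ω Γ v l + ch ω (Γ.gn l) * x) - v e) := rfl
      simp only [Bool.false_eq_true, if_false, tv, dv, GG.dg, h0]
      ring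

private theorem Cb2_hl_eq (hω : ω ^ 2 + ω + 1 = 0) (v : E → k) {P P' : List (Da E)}
    (hg : Γ.gn P = Γ.gn P') :
    hl (Cb2_af hω Γ v) P * (hl (Cb2_af hω Γ v) P')⁻¹ = 1 ↔ tv ω Γ v P = tv ω Γ v P' := by
  rw [mul_inv_eq_one]
  constructor
  · intro h
    have h1 := congrArg (fun f : Equiv.Perm k => f 0) h
    simp only [Cb2_hl hω v] at h1
    simpa using h1
  · intro h
    ext x
    rw [Cb2_hl hω, Cb2_hl hω, h, hg]

theorem resplit_tv (hω : ω ^ 2 + ω + 1 = 0) (v : E → k) {P P' R R' : List (Da E)}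
    (h : ∀ (G : Type) [Group G] (τ : E → G), IsConj (hl τ P * (hl τ P')⁻¹) (hl τ R * (hl τ R')⁻¹) ∨
        IsConj (hl τ P * (hl τ P')⁻¹) (hl τ R * (hl τ R')⁻¹)⁻¹)
    (hb : Γ.gn P = Γ.gn P') : Γ.gn R = Γ.gn R' ∧ (tv ω Γ v P = tv ω Γ v P' ↔ tv ω Γ v R = tv ω Γ v R') := by
  have hR : Γ.gn R = Γ.gn R' := by
    rcases resplit_gn (Γ := Γ) h with h1 | h1
    · rw [hb, sub_self] at h1
      exact sub_eq_zero.mp h1.symm
    · rw [hb, sub_self] at h1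
      exact sub_eq_zero.mp (neg_eq_zero.mp h1.symm)
  refine ⟨hR, ?_⟩
  rw [← Cb2_hl_eq hω v hb, ← Cb2_hl_eq hω v hR]
  rcases h (Equiv.Perm k) (Cb2_af hω Γ v) with h1 | h1
  · constructor
    · intro h2
      rw [h2] at h1
      exact isConj_one_right.mp h1
    · intro h2
      rw [h2] at h1
      exact isConj_one_left.mp h1
  · constructor
    · intro h2
      rw [h2] at h1
      exact inv_eq_one.mp (isConj_one_right.mp h1)
    · intro h2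
      rw [h2, inv_one] at h1
      exact isConj_one_left.mp h1

/-- a bad cycle, split at two other vertices -/
theorem bad_resplit (hω : ω ^ 2 + ω + 1 = 0) {v : E → k} {x y : V} {P P' : List (Da E)} (h : Bad ω Γ v x y P P') {u w : V}
    (hu : u ∈ Γ.vs x P ∨ u ∈ Γ.vs x P') (hw : w ∈ Γ.vs x P ∨ w ∈ Γ.vs x P') (huw : u ≠ w) :
    ∃ R R', Bad ω Γ v u w R R' ∧ (∀ z, (z ∈ Γ.vs u R ∨ z ∈ Γ.vs u R') ↔ (z ∈ Γ.vs x P ∨ z ∈ Γ.vs x P')) ∧
      ∀ e, (e ∈ eds R ∨ e ∈ eds R') ↔ (e ∈ eds P ∨ e ∈ eds P') := by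
  obtain ⟨R, R', hc, hv, he, hG⟩ := resplit h.cy hu hw huw
  obtain ⟨hg, ht⟩ := resplit_tv (Γ := Γ) hω v hG h.gn
  exact ⟨R, R', ⟨hc, hg, fun h1 => h.tv (ht.mpr h1)⟩, hv, he⟩

/-- explicit form: `u, w` on the same path -/
theorem bad_same (hω : ω ^ 2 + ω + 1 = 0) {v : E → k} {x y u w : V} {P₁ P₂ P₃ P' : List (Da E)}
    (h : Bad ω Γ v x y (P₁ ++ P₂ ++ P₃) P') (h₁ : Γ.Wk x P₁ u) (h₂ : Γ.Wk u P₂ w) (huw : u ≠ w) :
    Bad ω Γ v u w P₂ (rv P₁ ++ P' ++ rv P₃) := by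
  have hc := rs_same h.cy h₁ h₂ huw
  have hG : ∀ (G : Type) [Group G] (τ : E → G),
      IsConj (hl τ (P₁ ++ P₂ ++ P₃) * (hl τ P')⁻¹) (hl τ P₂ * (hl τ (rv P₁ ++ P' ++ rv P₃))⁻¹) ∨
      IsConj (hl τ (P₁ ++ P₂ ++ P₃) * (hl τ P')⁻¹) (hl τ P₂ * (hl τ (rv P₁ ++ P' ++ rv P₃))⁻¹)⁻¹ := by
    intro G _ τ
    left
    rw [isConj_iff]
    refine ⟨(hl τ P₁)⁻¹, ?_⟩
    simp only [hl_append, hl_rv]
    group
  obtain ⟨hg, ht⟩ := resplit_tv (Γ := Γ) hω v hG h.gn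
  exact ⟨hc, hg, fun h1 => h.tv (ht.mpr h1)⟩

theorem bad_symm {v : E → k} {x y : V} {P P' : List (Da E)} (h : Bad ω Γ v x y P P') : Bad ω Γ v x y P' P :=
  ⟨cy_symm h.cy, h.gn.symm, fun h1 => h.tv h1.symm⟩

theorem bad_rv (hω : ω ^ 2 + ω + 1 = 0) {v : E → k} {x y : V} {P P' : List (Da E)} (h : Bad ω Γ v x y P P') :
    Bad ω Γ v y x (rv P) (rv P') := by
  refine ⟨cy_rv h.cy, by rw [gn_rv, gn_rv, h.gn], fun h1 => h.tv ?_⟩
  rw [tv_rv hω, tv_rv hω, h.gn, neg_inj] at h1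
  exact mul_left_cancel₀ (ch_ne_zero hω _) h1

end Pool.Agent.FRM
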