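import Pool.Agent.FRM.AugP
import Pool.Agent.FRM.Cb2

/-!
# FRM/AugG: glueing cochains

PROOF PLAN.  `glue_Zc`: `v e = v₁ (inl e)` for `e ∈ A₁`, `v₂ (inl e)` otherwise.  Let `Cy u w P P'` be a balanced cycle of `Γ`.  `sep_cy`: if it is in one side, use `v₁` or `v₂` (`aug_pt`, `aug_tv`, `tv_congr`).  Otherwise `x, y` are on it: `resplit_tv` at `x, y`: `R, R'` from `x` to `y`, each in one side (`sep_xy`).
Same side: then all edges are in one side, done as before.  `R ⊆ A₁`, `R' ⊆ A₂`: `s = gn R = gn R' ∈ S`; `tv v₁ (il R) = v₁ (inr s)` (the cycle `il R`, `[(inr s, true)]` of `aug A₁`) `= v₂ (inr s) = tv v₂ (il R')`.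
`glue_Cob`: `c` with `v = δ c` on `Γ.A`.  On `inr s`, `s ∈ S`: there is a path `P` in `A₂` of gain `s`, so `v₂ (inr s) = tv v₂ (il P) = c x - ch s * c y` (`tv_cob`), and `v₁ (inr s) = v₂ (inr s)`.
-/

set_option autoImplicit false

noncomputable section

open scoped Classical

namespace Pool.Agent.FRM

open GG

variable {V E : Type} {k : Type} [Field k] {ω : k} {Γ : GG V E Lt}


private theorem AugG_tv₁ {A₁ : Finset E} {x y : V} {S : Finset Lt} {v₁ v₂ : E ⊕ Lt → k} {l : List (Da E)}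
    (hl : ∀ d ∈ l, d.1 ∈ A₁) :
    tv ω Γ (fun e => if e ∈ A₁ then v₁ (Sum.inl e) else v₂ (Sum.inl e)) l = tv ω (Γ.aug A₁ x y S) v₁ (il l) := by
  rw [aug_tv]
  exact tv_congr fun d hd => if_pos (hl d hd)

private theorem AugG_tv₂ {A₁ A₂ : Finset E} (hd : Disjoint A₁ A₂) {x y : V} {S : Finset Lt} {v₁ v₂ : E ⊕ Lt → k}
    {l : List (Da E)} (hl : ∀ d ∈ l, d.1 ∈ A₂) :
    tv ω Γ (fun e => if e ∈ A₁ then v₁ (Sum.inl e) else v₂ (Sum.inl e)) l = tv ω (Γ.aug A₂ x y S) v₂ (il l) := by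
  rw [aug_tv]
  exact tv_congr fun d hd' => if_neg fun h1 => Finset.disjoint_left.1 hd h1 (hl d hd')

private theorem AugG_cy {B : Finset E} (hB : B ⊆ Γ.A) {x y : V} {S : Finset Lt} {v : E ⊕ Lt → k}
    (h : Zc ω (Γ.aug B x y S) v) {u w : V} {P P' : List (Da E)} (hc : Γ.Cy u w P P') (hg : Γ.gn P = Γ.gn P')
    (hP : ∀ d ∈ P, d.1 ∈ B) (hP' : ∀ d ∈ P', d.1 ∈ B) :
    tv ω (Γ.aug B x y S) v (il P) = tv ω (Γ.aug B x y S) v (il P') := by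
  refine h u w (il P) (il P') ⟨hc.ne, (aug_pt hB).2 ((pt_on hB).2 ⟨hc.p, hP⟩),
    (aug_pt hB).2 ((pt_on hB).2 ⟨hc.p', hP'⟩), fun z h1 h2 => ?_⟩ ?_
  · rw [aug_vs] at h1 h2
    exact hc.dj z h1 h2
  · rw [aug_gn, aug_gn, hg]

private theorem AugG_inr {B : Finset E} (hB : B ⊆ Γ.A) {x y : V} (hxy : x ≠ y) {S : Finset Lt} {v : E ⊕ Lt → k}
    (h : Zc ω (Γ.aug B x y S) v) {P : List (Da E)} (hP : (Γ.on B).Pt x P y) (hs : Γ.gn P ∈ S) :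
    tv ω (Γ.aug B x y S) v (il P) = v (Sum.inr (Γ.gn P)) := by
  rw [← aug_tv_inr (ω := ω) (Γ := Γ) (B := B) (x := x) (y := y) (S := S) v (Γ.gn P)]
  have hpt : (Γ.aug B x y S).Pt x [(Sum.inr (Γ.gn P), true)] y := by
    have h1 := pt_single (Γ := Γ.aug B x y S) (d := (Sum.inr (Γ.gn P), true)) (aug_mem_inr.2 hs) hxy
    exact h1
  refine h x y (il P) [(Sum.inr (Γ.gn P), true)] ⟨hxy, (aug_pt hB).2 hP, hpt, fun z _ h2 => ?_⟩ ?_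
  · have h3 : z ∈ [x, y] := h2
    simpa using h3
  · rw [aug_gn]
    simp [GG.gn, GG.dg, GG.aug]

theorem glue_Zc (hω : ω ^ 2 + ω + 1 = 0) (hΓ : Γ.C2) {A₁ A₂ : Finset E} {x y : V} (h : Γ.Sep A₁ A₂ x y) {S : Finset Lt}
    (hS : ∀ s, s ∈ S ↔ ∃ P, (Γ.on A₂).Pt x P y ∧ Γ.gn P = s) {v₁ v₂ : E ⊕ Lt → k}
    (h₁ : Zc ω (Γ.aug A₁ x y S) v₁) (h₂ : Zc ω (Γ.aug A₂ x y S) v₂) (hv : ∀ s ∈ S, v₁ (Sum.inr s) = v₂ (Sum.inr s)) :
    Zc ω Γ fun e => if e ∈ A₁ then v₁ (Sum.inl e) else v₂ (Sum.inl e) := by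
  have hA₁ : A₁ ⊆ Γ.A := sep_sub h
  have hA₂ : A₂ ⊆ Γ.A := sep_sub (sep_symm h)
  -- cycles in one side
  have one₁ : ∀ {u w : V} {P P' : List (Da E)}, Γ.Cy u w P P' → Γ.gn P = Γ.gn P' → (∀ d ∈ P, d.1 ∈ A₁) →
      (∀ d ∈ P', d.1 ∈ A₁) → tv ω Γ (fun e => if e ∈ A₁ then v₁ (Sum.inl e) else v₂ (Sum.inl e)) P =
        tv ω Γ (fun e => if e ∈ A₁ then v₁ (Sum.inl e) else v₂ (Sum.inl e)) P' := by
    intro u w P P' hc hg hP hP'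
    rw [AugG_tv₁ (x := x) (y := y) (S := S) hP, AugG_tv₁ (x := x) (y := y) (S := S) hP']
    exact AugG_cy hA₁ h₁ hc hg hP hP'
  have one₂ : ∀ {u w : V} {P P' : List (Da E)}, Γ.Cy u w P P' → Γ.gn P = Γ.gn P' → (∀ d ∈ P, d.1 ∈ A₂) →
      (∀ d ∈ P', d.1 ∈ A₂) → tv ω Γ (fun e => if e ∈ A₁ then v₁ (Sum.inl e) else v₂ (Sum.inl e)) P =
        tv ω Γ (fun e => if e ∈ A₁ then v₁ (Sum.inl e) else v₂ (Sum.inl e)) P' := by
    intro u w P P' hc hg hP hP'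
    rw [AugG_tv₂ h.dj (x := x) (y := y) (S := S) hP, AugG_tv₂ h.dj (x := x) (y := y) (S := S) hP']
    exact AugG_cy hA₂ h₂ hc hg hP hP'
  -- one path in each side
  have two : ∀ {R R' : List (Da E)}, Γ.Pt x R y → Γ.Pt x R' y → Γ.gn R = Γ.gn R' → (∀ d ∈ R, d.1 ∈ A₁) →
      (∀ d ∈ R', d.1 ∈ A₂) → tv ω Γ (fun e => if e ∈ A₁ then v₁ (Sum.inl e) else v₂ (Sum.inl e)) R =
        tv ω Γ (fun e => if e ∈ A₁ then v₁ (Sum.inl e) else v₂ (Sum.inl e)) R' := by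
    intro R R' hR hR' hg h1 h2
    have hp1 : (Γ.on A₁).Pt x R y := (pt_on hA₁).2 ⟨hR, h1⟩
    have hp2 : (Γ.on A₂).Pt x R' y := (pt_on hA₂).2 ⟨hR', h2⟩
    have hs' : Γ.gn R' ∈ S := (hS _).2 ⟨R', hp2, rfl⟩
    have hs : Γ.gn R ∈ S := by rw [hg]; exact hs'
    rw [AugG_tv₁ (x := x) (y := y) (S := S) h1, AugG_tv₂ h.dj (x := x) (y := y) (S := S) h2,
      AugG_inr hA₁ h.ne h₁ hp1 hs, AugG_inr hA₂ h.ne h₂ hp2 hs', hg]
    exact hv _ hs'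
  intro u w P P' hc hg
  rcases sep_cy hΓ h hc with (h1 | h1) | ⟨hx', hy'⟩
  · exact one₁ hc hg (fun d hd => h1 d.1 (Finset.mem_union_left _ ((mem_eds _ _).2 ⟨d, hd, rfl⟩)))
      (fun d hd => h1 d.1 (Finset.mem_union_right _ ((mem_eds _ _).2 ⟨d, hd, rfl⟩)))
  · exact one₂ hc hg (fun d hd => h1 d.1 (Finset.mem_union_left _ ((mem_eds _ _).2 ⟨d, hd, rfl⟩)))
      (fun d hd => h1 d.1 (Finset.mem_union_right _ ((mem_eds _ _).2 ⟨d, hd, rfl⟩)))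
  · obtain ⟨R, R', hcR, -, -, hG⟩ := resplit hc hx' hy' h.ne
    obtain ⟨hgR, ht⟩ := resplit_tv (Γ := Γ) hω
      (fun e => if e ∈ A₁ then v₁ (Sum.inl e) else v₂ (Sum.inl e)) hG hg
    rw [ht]
    rcases sep_xy hΓ h hcR.p with h1 | h1
    · rcases sep_xy hΓ h hcR.p' with h2 | h2
      · exact one₁ hcR hgR h1 h2
      · exact two hcR.p hcR.p' hgR h1 h2
    · rcases sep_xy hΓ h hcR.p' with h2 | h2
      · exact (two hcR.p' hcR.p hgR.symm h2 h1).symm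
      · exact one₂ hcR hgR h1 h2

theorem glue_Cob (hω : ω ^ 2 + ω + 1 = 0) (hΓ : Γ.C2) {A₁ A₂ : Finset E} {x y : V} (h : Γ.Sep A₁ A₂ x y) {S : Finset Lt}
    (hS : ∀ s, s ∈ S ↔ ∃ P, (Γ.on A₂).Pt x P y ∧ Γ.gn P = s) {v₁ v₂ : E ⊕ Lt → k}
    (h₁ : Zc ω (Γ.aug A₁ x y S) v₁) (h₂ : Zc ω (Γ.aug A₂ x y S) v₂) (hv : ∀ s ∈ S, v₁ (Sum.inr s) = v₂ (Sum.inr s))
    (hc : Cob ω Γ fun e => if e ∈ A₁ then v₁ (Sum.inl e) else v₂ (Sum.inl e)) :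
    Cob ω (Γ.aug A₁ x y S) v₁ ∧ Cob ω (Γ.aug A₂ x y S) v₂ := by
  have hA₁ : A₁ ⊆ Γ.A := sep_sub h
  have hA₂ : A₂ ⊆ Γ.A := sep_sub (sep_symm h)
  obtain ⟨c, hc⟩ := hc
  have key : ∀ s ∈ S, v₂ (Sum.inr s) = c x - ch ω s * c y := by
    intro s hs
    obtain ⟨P, hP, rfl⟩ := (hS s).1 hs
    have hP' := (pt_on hA₂).1 hP
    rw [← AugG_inr hA₂ h.ne h₂ hP hs,
      ← AugG_tv₂ (v₁ := v₁) h.dj (x := x) (y := y) (S := S) hP'.2]
    exact tv_cob hω _ c hP'.1.1 fun d hd => hc d.1 (hA₂ (hP'.2 d hd))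
  constructor
  · refine ⟨c, fun f hf => ?_⟩
    cases f with
    | inl e =>
      have he : e ∈ A₁ := aug_mem_inl.1 hf
      have h1 := hc e (hA₁ he)
      simp only [if_pos he] at h1
      exact h1
    | inr s =>
      have hs : s ∈ S := aug_mem_inr.1 hf
      rw [hv s hs]
      exact key s hs
  · refine ⟨c, fun f hf => ?_⟩
    cases f with
    | inl e =>
      have he : e ∈ A₂ := aug_mem_inl.1 hf
      have he' : e ∉ A₁ := fun h1 => Finset.disjoint_left.1 h.dj h1 he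
      have h1 := hc e (hA₂ he)
      simp only [if_neg he'] at h1
      exact h1
    | inr s =>
      exact key s (aug_mem_inr.1 hf)

end Pool.Agent.FRM
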