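import Pool.Agent.FRM.Defs

/-!
# FRM/Fdh: the roots of A2 are a Fund

Finite facts (private lemmas, by `decide`) about the six roots and `0`, and their consequences.
-/

set_option autoImplicit false

noncomputable section

open scoped Classical

namespace Pool.Agent.FRM

open GG

private theorem Fdh_symm : ∀ a ∈ hx, -a ∈ hx := by decide

private theorem Fdh_zero : (0 : Lt) ∉ hx := by decide

private theorem Fdh_double : ∀ g ∈ hx, -g - g ∉ hx := by decide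

private theorem Fdh_k4 : ∀ a ∈ hx, ∀ b ∈ hx, a - b ∈ hx → ∀ c ∈ insert 0 hx, c - a ∈ insert 0 hx →
    c - b ∈ insert 0 hx → c = 0 ∨ c = a ∨ c = b := by decide +kernel

private theorem Fdh_cross : ∀ h ∈ hx, ∀ h' ∈ hx, h - h' ∈ insert 0 hx → h + h' ∉ insert 0 hx := by decide +kernel

private theorem Fdh_two : ∀ x ∈ insert 0 hx, ∀ h ∈ hx, x + h + h ∈ insert 0 hx → x = -h := by decide +kernel

private theorem Fdh_class : ∀ h₁ ∈ hx, ∀ h₂ ∈ hx, ∀ h₃ ∈ hx, (h₁ ≠ h₂ ∧ h₁ ≠ -h₂) → (h₂ ≠ h₃ ∧ h₂ ≠ -h₃) →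
    (h₁ ≠ h₃ ∧ h₁ ≠ -h₃) → ∀ h₄ ∈ hx, (h₁ = h₄ ∨ h₁ = -h₄) ∨ (h₂ = h₄ ∨ h₂ = -h₄) ∨ (h₃ = h₄ ∨ h₃ = -h₄) := by
  decide +kernel

private theorem Fdh_cl : ∀ x ∈ insert 0 hx, ∀ x' ∈ insert 0 hx, ∀ y ∈ insert 0 hx, y - (x - x') ∈ insert 0 hx →
    x - x' ∉ insert 0 hx → y - x ∈ insert 0 hx := by decide +kernel

private theorem Fdh_mem {x : Lt} : x ∈ insert 0 hx ↔ x = 0 ∨ x ∈ hx := Finset.mem_insert

private theorem Fdh_coord : ∀ h ∈ hx, (h.1 = 1 ∨ h.1 = -1) ∨ (h.2 = 1 ∨ h.2 = -1) := by decide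

private theorem Fdh_coord_le : ∀ h ∈ insert 0 hx, (-1 ≤ h.1 ∧ h.1 ≤ 1) ∧ (-1 ≤ h.2 ∧ h.2 ≤ 1) := by decide

private theorem Fdh_unit {m x : ℤ} (h : m * x = 1 ∨ m * x = -1) : m = 1 ∨ m = -1 := by
  have h1 : IsUnit (m * x) := by
    rcases h with h | h
    · rw [h]
      exact isUnit_one
    · rw [h]
      exact isUnit_one.neg
  exact Int.isUnit_iff.1 (isUnit_of_mul_isUnit_left h1)

/-- if all four sums are roots or zero, then `h` and `h'` do not differ by a sign -/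
private theorem Fdh_pair {x x' h h' : Lt} (hh : h ∈ hx) (hxx : x ≠ x') (a₁ : x ∈ insert 0 hx)
    (a₂ : x + h ∈ insert 0 hx) (a₃ : x + h' ∈ insert 0 hx) (a₄ : x + h + h' ∈ insert 0 hx)
    (b₁ : x' ∈ insert 0 hx) (b₂ : x' + h ∈ insert 0 hx) (b₃ : x' + h' ∈ insert 0 hx)
    (b₄ : x' + h + h' ∈ insert 0 hx) : h ≠ h' ∧ h ≠ -h' := by
  constructor
  · rintro rfl
    exact hxx ((Fdh_two x a₁ h hh a₄).trans (Fdh_two x' b₁ h hh b₄).symm)
  · intro he
    have he' : h' = -h := by rw [he, neg_neg]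
    subst he'
    have e1 := Fdh_two (x + -h) a₃ h hh (by
      rw [neg_add_cancel_right]
      exact a₂)
    have e2 := Fdh_two (x' + -h) b₃ h hh (by
      rw [neg_add_cancel_right]
      exact b₂)
    have e3 : x + -h = x' + -h := e1.trans e2.symm
    exact hxx (add_right_cancel e3)

theorem fund_hx : Fund (hx : Set Lt) := by
  refine ⟨fun a ha => ?_, ?_, ?_, ?_⟩
  · rw [Finset.mem_coe] at ha ⊢
    exact Fdh_symm a ha
  · rw [Finset.mem_coe]
    exact Fdh_zero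
  · intro g hg h hh hd hm
    rw [Finset.mem_coe] at hg hh hd
    obtain ⟨m, hm⟩ := AddSubgroup.mem_zmultiples_iff.1 hm
    have hm1 : m = 1 ∨ m = -1 := by
      rcases Fdh_coord h hh with h1 | h1
      · refine Fdh_unit (x := g.1) ?_
        have : m * g.1 = h.1 := congrArg Prod.fst hm
        rw [this]
        exact h1
      · refine Fdh_unit (x := g.2) ?_
        have : m * g.2 = h.2 := congrArg Prod.snd hm
        rw [this]
        exact h1
    rcases hm1 with h1 | h1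
    · rw [h1, one_zsmul] at hm
      rw [← hm, sub_self] at hd
      exact Fdh_zero hd
    · rw [h1, neg_one_zsmul] at hm
      rw [← hm] at hd
      exact Fdh_double g hg hd
  · intro a ha b hb hab c hc hca hcb
    rw [Finset.mem_coe] at ha hb hab
    simp only [Finset.mem_coe] at hc hca hcb
    exact Fdh_k4 a ha b hb hab c (Fdh_mem.2 hc) (Fdh_mem.2 hca) (Fdh_mem.2 hcb)

/-- the only multiples of a root that are roots -/
theorem hx_mult {g : Lt} (hg : g ∈ hx) {m : ℤ} (hm : m • g = 0 ∨ m • g ∈ hx) : m = 0 ∨ m = 1 ∨ m = -1 := by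
  have h1 := Fdh_coord_le (m • g) (Fdh_mem.2 hm)
  have e1 : (m • g).1 = m * g.1 := rfl
  have e2 : (m • g).2 = m * g.2 := rfl
  rw [e1, e2] at h1
  rcases Fdh_coord g hg with (h2 | h2) | (h2 | h2) <;> rw [h2] at h1 <;> omega

/-- crossing chords -/
theorem hx_cross {h h' : Lt} (hh : h ∈ hx) (hh' : h' ∈ hx) (h₁ : h - h' = 0 ∨ h - h' ∈ hx)
    (h₂ : h + h' = 0 ∨ h + h' ∈ hx) : False :=
  Fdh_cross h hh h' hh' (Fdh_mem.2 h₁) (Fdh_mem.2 h₂)

/-- three doubled edges on a cycle: the supports are different -/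
theorem hx_three {a h₁ h₂ h₃ : Lt} (m₁ : h₁ ∈ hx) (m₂ : h₂ ∈ hx) (m₃ : h₃ ∈ hx)
    (H : ∀ b₁ b₂ b₃ : Bool, (a + (if b₁ then h₁ else 0) + (if b₂ then h₂ else 0) + (if b₃ then h₃ else 0) = 0) ∨
      (a + (if b₁ then h₁ else 0) + (if b₂ then h₂ else 0) + (if b₃ then h₃ else 0) ∈ hx)) :
    (h₁ ≠ h₂ ∧ h₁ ≠ -h₂) ∧ (h₂ ≠ h₃ ∧ h₂ ≠ -h₃) ∧ (h₁ ≠ h₃ ∧ h₁ ≠ -h₃) := by
  have n1 : h₁ ≠ 0 := fun h => Fdh_zero (h ▸ m₁)
  have n2 : h₂ ≠ 0 := fun h => Fdh_zero (h ▸ m₂)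
  have n3 : h₃ ≠ 0 := fun h => Fdh_zero (h ▸ m₃)
  have c000 : a ∈ insert 0 hx := Fdh_mem.2 (by simpa using H false false false)
  have c100 : a + h₁ ∈ insert 0 hx := Fdh_mem.2 (by simpa using H true false false)
  have c010 : a + h₂ ∈ insert 0 hx := Fdh_mem.2 (by simpa using H false true false)
  have c001 : a + h₃ ∈ insert 0 hx := Fdh_mem.2 (by simpa using H false false true)
  have c110 : a + h₁ + h₂ ∈ insert 0 hx := Fdh_mem.2 (by simpa using H true true false)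
  have c101 : a + h₁ + h₃ ∈ insert 0 hx := Fdh_mem.2 (by simpa using H true false true)
  have c011 : a + h₂ + h₃ ∈ insert 0 hx := Fdh_mem.2 (by simpa using H false true true)
  have c111 : a + h₁ + h₂ + h₃ ∈ insert 0 hx := Fdh_mem.2 (by simpa using H true true true)
  refine ⟨?_, ?_, ?_⟩
  · refine Fdh_pair (x := a) (x' := a + h₃) m₁ (fun h => n3 (left_eq_add.1 h)) c000 c100 c010 c110 c001 ?_ ?_ ?_
    · rw [add_right_comm]
      exact c101
    · rw [add_right_comm]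
      exact c011
    · have e : a + h₃ + h₁ + h₂ = a + h₁ + h₂ + h₃ := by abel
      rw [e]
      exact c111
  · refine Fdh_pair (x := a) (x' := a + h₁) m₂ (fun h => n1 (left_eq_add.1 h)) c000 c010 c001 c011 c100 c110 c101 c111
  · refine Fdh_pair (x := a) (x' := a + h₂) m₁ (fun h => n2 (left_eq_add.1 h)) c000 c100 c001 c101 c010 ?_ c011 ?_
    · rw [add_right_comm]
      exact c110
    · rw [add_right_comm a h₂ h₁]
      exact c111

/-- four doubled edges on a cycle are impossible -/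
theorem hx_four {a h₁ h₂ h₃ h₄ : Lt} (m₁ : h₁ ∈ hx) (m₂ : h₂ ∈ hx) (m₃ : h₃ ∈ hx) (m₄ : h₄ ∈ hx)
    (H : ∀ b₁ b₂ b₃ b₄ : Bool, (a + (if b₁ then h₁ else 0) + (if b₂ then h₂ else 0) + (if b₃ then h₃ else 0) +
      (if b₄ then h₄ else 0) = 0) ∨ (a + (if b₁ then h₁ else 0) + (if b₂ then h₂ else 0) + (if b₃ then h₃ else 0) +
      (if b₄ then h₄ else 0) ∈ hx)) : False := by
  have t1 := hx_three m₁ m₂ m₃ (a := a) fun b₁ b₂ b₃ => by simpa using H b₁ b₂ b₃ false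
  have t2 := hx_three m₁ m₂ m₄ (a := a) fun b₁ b₂ b₄ => by simpa using H b₁ b₂ false b₄
  have t3 := hx_three m₁ m₃ m₄ (a := a) fun b₁ b₃ b₄ => by simpa using H b₁ false b₃ b₄
  rcases Fdh_class h₁ m₁ h₂ m₂ h₃ m₃ t1.1 t1.2.1 t1.2.2 h₄ m₄ with (h | h) | (h | h) | (h | h)
  · exact t2.2.2.1 h
  · exact t2.2.2.2 h
  · exact t2.2.1.1 h
  · exact t2.2.1.2 h
  · exact t3.2.1.1 h
  · exact t3.2.1.2 h

/-- two sets of gains with differences in `{0} ∪ hx`: one of them is a clique -/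
theorem hx_clique (S₁ S₂ : Set Lt) (h₁ : S₁.Nonempty) (h₂ : S₂.Nonempty)
    (H : ∀ s ∈ S₁, ∀ t ∈ S₂, s - t = 0 ∨ s - t ∈ hx) :
    (∀ s ∈ S₁, ∀ s' ∈ S₁, s - s' = 0 ∨ s - s' ∈ hx) ∨ ∀ s ∈ S₂, ∀ s' ∈ S₂, s - s' = 0 ∨ s - s' ∈ hx := by
  by_cases hc : ∀ s ∈ S₁, ∀ s' ∈ S₁, s - s' = 0 ∨ s - s' ∈ hx
  · exact Or.inl hc
  · refine Or.inr fun t ht t' ht' => ?_
    push Not at hc
    obtain ⟨s, hs, s', hs', hne, hnm⟩ := hc
    have e := Fdh_cl (s - t) (Fdh_mem.2 (H s hs t ht)) (s' - t) (Fdh_mem.2 (H s' hs' t ht)) (s - t')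
      (Fdh_mem.2 (H s hs t' ht')) (by
        have e1 : s - t' - (s - t - (s' - t)) = s' - t' := by abel
        rw [e1]
        exact Fdh_mem.2 (H s' hs' t' ht')) (by
        have e1 : s - t - (s' - t) = s - s' := by abel
        rw [e1, Fdh_mem]
        push Not
        exact ⟨hne, hnm⟩)
    have e1 : s - t' - (s - t) = t - t' := by abel
    rw [e1] at e
    exact Fdh_mem.1 e

/-- cliques have at most three elements -/
theorem hx_card (S : Set Lt) (h : S.Nonempty) (H : ∀ s ∈ S, ∀ s' ∈ S, s - s' = 0 ∨ s - s' ∈ hx) :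
    (∃ a, S = {a}) ∨ (∃ a b, a - b ∈ hx ∧ S = {a, b}) ∨
      ∃ a b c, a - b ∈ hx ∧ b - c ∈ hx ∧ a - c ∈ hx ∧ S = {a, b, c} := by
  have H' : ∀ s ∈ S, ∀ s' ∈ S, s ≠ s' → s - s' ∈ hx := fun s hs s' hs' hne =>
    (H s hs s' hs').resolve_left fun h0 => hne (sub_eq_zero.1 h0)
  obtain ⟨a, ha⟩ := h
  by_cases h1 : ∀ s ∈ S, s = a
  · exact Or.inl ⟨a, Set.eq_singleton_iff_unique_mem.2 ⟨ha, h1⟩⟩
  push Not at h1
  obtain ⟨b, hb, hba⟩ := h1
  by_cases h2 : ∀ s ∈ S, s = a ∨ s = b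
  · refine Or.inr (Or.inl ⟨a, b, H' a ha b hb (Ne.symm hba), ?_⟩)
    ext s
    rw [Set.mem_insert_iff, Set.mem_singleton_iff]
    refine ⟨h2 s, ?_⟩
    rintro (rfl | rfl)
    · exact ha
    · exact hb
  push Not at h2
  obtain ⟨c, hc, hca, hcb⟩ := h2
  refine Or.inr (Or.inr ⟨a, b, c, H' a ha b hb (Ne.symm hba), H' b hb c hc (Ne.symm hcb),
    H' a ha c hc (Ne.symm hca), ?_⟩)
  ext s
  rw [Set.mem_insert_iff, Set.mem_insert_iff, Set.mem_singleton_iff]
  constructor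
  · intro hs
    have e := Fdh_k4 (a - c) (H' a ha c hc (Ne.symm hca)) (b - c) (H' b hb c hc (Ne.symm hcb)) (by
      rw [sub_sub_sub_cancel_right]
      exact H' a ha b hb (Ne.symm hba)) (s - c) (Fdh_mem.2 (H s hs c hc)) (by
      rw [sub_sub_sub_cancel_right]
      exact Fdh_mem.2 (H s hs a ha)) (by
      rw [sub_sub_sub_cancel_right]
      exact Fdh_mem.2 (H s hs b hb))
    rcases e with e | e | e
    · exact Or.inr (Or.inr (sub_eq_zero.1 e))
    · exact Or.inl (sub_left_injective e)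
    · exact Or.inr (Or.inl (sub_left_injective e))
  · rintro (rfl | rfl | rfl)
    · exact ha
    · exact hb
    · exact hc

/-- a root in `zmultiples g` generates it -/
theorem hx_gen {g h : Lt} (hh : h ∈ hx) (hm : h ∈ AddSubgroup.zmultiples g) : g = h ∨ g = -h := by
  obtain ⟨m, hm⟩ := AddSubgroup.mem_zmultiples_iff.1 hm
  have hm1 : m = 1 ∨ m = -1 := by
    rcases Fdh_coord h hh with h1 | h1
    · refine Fdh_unit (x := g.1) ?_
      have : m * g.1 = h.1 := congrArg Prod.fst hm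
      rw [this]
      exact h1
    · refine Fdh_unit (x := g.2) ?_
      have : m * g.2 = h.2 := congrArg Prod.snd hm
      rw [this]
      exact h1
  rcases hm1 with h1 | h1
  · rw [h1, one_zsmul] at hm
    exact Or.inl hm
  · rw [h1, neg_one_zsmul] at hm
    exact Or.inr (by rw [← hm, neg_neg])

/-- three roots `a, b, a - b` are not in one cyclic group -/
theorem hx_not_cyc {a b g : Lt} (ha : a ∈ hx) (hb : b ∈ hx) (hab : a - b ∈ hx)
    (ma : a ∈ AddSubgroup.zmultiples g) (mb : b ∈ AddSubgroup.zmultiples g) : False := by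
  have key : a = b ∨ a = -b := by
    rcases hx_gen ha ma with h1 | h1 <;> rcases hx_gen hb mb with h2 | h2
    · exact Or.inl (h1.symm.trans h2)
    · exact Or.inr (h1.symm.trans h2)
    · exact Or.inr (by rw [← h2, h1, neg_neg])
    · exact Or.inl (neg_injective (h1.symm.trans h2))
  rcases key with h | h
  · rw [h, sub_self] at hab
    exact Fdh_zero hab
  · rw [h] at hab
    exact Fdh_double b hb hab

end Pool.Agent.FRM
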