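import Pool.Agent.FRM.Aug
import Pool.Agent.FRM.Fdh
import Pool.Agent.FRM.Rs

/-!
# FRM/AugP: cycle gains of aug

PROOF PLAN.  Let `Cy u w P P'` be a cycle of `aug`.  By `aug_pt_cases` each of `P, P'` contains at most one edge `inr s`.  No such edge: a cycle of `Γ`.  Both contain one: then `x, y` are on both, so `{u, w} = {x, y}` and both are single edges (`pt_edge_eq`): the difference is `±(s - s')`.
Exactly one of them contains an edge `inr s`: `aug_Phi_far` (`s` is the gain of a path `P₂` of the other side `A₂`): replace the dart of `inr s` by `P₂` or `rv P₂`: this is a cycle of `Γ` (inner vertices of `P₂` are not in `V(A₁)`), with the same gains.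
`aug_Phi_near` (all gains of paths from `x` to `y` in `B` are in the clique `S`): split the cycle at `x, y` (`resplit` in `aug`, `resplit_gn`): the two paths from `x` to `y` are `[(inr s, true)]` and `il R`, with `gn R ∈ S`.
-/

set_option autoImplicit false

noncomputable section

open scoped Classical

namespace Pool.Agent.FRM

open GG

variable {V E : Type} {Γ : GG V E Lt}

private theorem AugP_sub {s s' : Lt} (h : s - s' = 0 ∨ s - s' ∈ (hx : Set Lt)) :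
    -(s - s') = 0 ∨ -(s - s') ∈ (hx : Set Lt) := by
  rcases h with h | h
  · exact Or.inl (by rw [h, neg_zero])
  · exact Or.inr (fund_hx.symm _ h)

private theorem AugP_both {B : Finset E} {x y : V} {S : Finset Lt} {a b : V} {l : List (Da (E ⊕ Lt))}
    (h : (Γ.aug B x y S).Wk a l b) {s : Lt} {c : Bool} (hs : ((Sum.inr s, c) : Da (E ⊕ Lt)) ∈ l) :
    x ∈ (Γ.aug B x y S).vs a l ∧ y ∈ (Γ.aug B x y S).vs a l := by
  obtain ⟨-, h1, h2⟩ := wk_mem h _ hs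
  cases c with
  | true => exact ⟨h1, h2⟩
  | false => exact ⟨h2, h1⟩

private theorem AugP_case {B : Finset E} (hB : B ⊆ Γ.A) {x y : V} (hxy : x ≠ y) {S : Finset Lt}
    {l : List (Da (E ⊕ Lt))} (hl : (Γ.aug B x y S).Pt x l y) :
    (∃ l₀, l = il l₀ ∧ (Γ.on B).Pt x l₀ y) ∨ ∃ s ∈ S, l = [(Sum.inr s, true)] := by
  rcases aug_pt_cases hB hxy hl with h | ⟨l₁, s, c, l₃, hs, rfl⟩
  · exact Or.inl h
  · right
    have hmem : ((Sum.inr s, c) : Da (E ⊕ Lt)) ∈ il l₁ ++ [(Sum.inr s, c)] ++ il l₃ := by simp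
    cases c with
    | true => exact ⟨s, hs, pt_edge_eq hl hmem (Or.inl ⟨rfl, rfl⟩)⟩
    | false =>
      have h1 := pt_edge_eq hl hmem (Or.inr ⟨rfl, rfl⟩)
      rw [h1] at hl
      have h2 : (Γ.aug B x y S).src (Sum.inr s, false) = x := hl.1.2.1
      exact absurd h2 hxy.symm

private theorem AugP_gn {B : Finset E} {x y : V} {S : Finset Lt} (s : Lt) :
    (Γ.aug B x y S).gn [(Sum.inr s, true)] = s := by
  simp [GG.gn, GG.dg, GG.aug]

/-- it suffices to consider the cycles which are split at `x` and `y` -/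
private theorem AugP_red (hΦ : Γ.Phi (hx : Set Lt)) {B : Finset E} (hB : B ⊆ Γ.A) {x y : V} (hxy : x ≠ y)
    {S : Finset Lt} (H : ∀ R R', (Γ.aug B x y S).Cy x y R R' →
      (Γ.aug B x y S).gn R - (Γ.aug B x y S).gn R' = 0 ∨
        (Γ.aug B x y S).gn R - (Γ.aug B x y S).gn R' ∈ (hx : Set Lt)) :
    (Γ.aug B x y S).Phi (hx : Set Lt) := by
  intro u w P P' hC
  have key : ∀ z₁ z₂ : V, z₁ = x → z₂ = y →
      (z₁ ∈ (Γ.aug B x y S).vs u P ∨ z₁ ∈ (Γ.aug B x y S).vs u P') →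
      (z₂ ∈ (Γ.aug B x y S).vs u P ∨ z₂ ∈ (Γ.aug B x y S).vs u P') →
      (Γ.aug B x y S).gn P - (Γ.aug B x y S).gn P' = 0 ∨
        (Γ.aug B x y S).gn P - (Γ.aug B x y S).gn P' ∈ (hx : Set Lt) := by
    rintro z₁ z₂ rfl rfl h1 h2
    obtain ⟨R, R', hR, -, -, hG⟩ := resplit hC h1 h2 hxy
    rcases resplit_gn (Γ := Γ.aug B z₁ z₂ S) hG with h3 | h3
    · rw [h3]
      exact H R R' hR
    · rw [h3]
      exact AugP_sub (H R R' hR)
  rcases aug_pt_cases hB hxy hC.p with ⟨P₀, rfl, hP₀⟩ | ⟨l₁, s, c, l₃, hs, rfl⟩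
  · rcases aug_pt_cases hB hxy hC.p' with ⟨P₀', rfl, hP₀'⟩ | ⟨l₁, s, c, l₃, hs, rfl⟩
    · rw [aug_gn, aug_gn]
      refine hΦ u w P₀ P₀' ⟨hC.ne, ((pt_on hB).1 hP₀).1, ((pt_on hB).1 hP₀').1, fun z h1 h2 => ?_⟩
      refine hC.dj z ?_ ?_
      · rw [aug_vs]
        exact h1
      · rw [aug_vs]
        exact h2
    · obtain ⟨h1, h2⟩ := AugP_both hC.p'.1 (s := s) (c := c) (by simp)
      exact key x y rfl rfl (Or.inr h1) (Or.inr h2)
  · obtain ⟨h1, h2⟩ := AugP_both hC.p.1 (s := s) (c := c) (by simp)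
    exact key x y rfl rfl (Or.inl h1) (Or.inl h2)

private theorem AugP_VS {B : Finset E} {a b z : V} {l : List (Da E)} (h : (Γ.on B).Pt a l b) (hab : a ≠ b)
    (hz : z ∈ Γ.vs a l) : z ∈ (Γ.on B).VS := by
  obtain ⟨d, hd, h1⟩ := wk_vs h.1 (pt_ne h hab) hz
  exact ⟨d.1, (wk_mem h.1 d hd).1, h1⟩

/-- a path of one side and a path of the other side form a cycle -/
private theorem AugP_cross {A₁ A₂ : Finset E} {x y : V} (h : Γ.Sep A₁ A₂ x y) {P P' : List (Da E)}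
    (hP : (Γ.on A₁).Pt x P y) (hP' : (Γ.on A₂).Pt x P' y) : Γ.Cy x y P P' :=
  ⟨h.ne, ((pt_on (sep_sub h)).1 hP).1, ((pt_on (sep_sub (sep_symm h))).1 hP').1,
    fun z h1 h2 => h.mt z (AugP_VS hP h.ne h1) (AugP_VS hP' h.ne h2)⟩

theorem aug_Phi_far (hΓ : Γ.C2) (hΦ : Γ.Phi (hx : Set Lt)) {A₁ A₂ : Finset E} {x y : V} (h : Γ.Sep A₁ A₂ x y) {S : Finset Lt}
    (hS : ∀ s ∈ S, ∃ P, (Γ.on A₂).Pt x P y ∧ Γ.gn P = s) (hc : ∀ s ∈ S, ∀ s' ∈ S, s - s' = 0 ∨ s - s' ∈ hx) :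
    (Γ.aug A₁ x y S).Phi (hx : Set Lt) := by
  have hB : A₁ ⊆ Γ.A := sep_sub h
  refine AugP_red hΦ hB h.ne fun R R' hR => ?_
  rcases AugP_case hB h.ne hR.p with ⟨R₀, rfl, hR₀⟩ | ⟨s, hs, rfl⟩
  · rcases AugP_case hB h.ne hR.p' with ⟨R₀', rfl, hR₀'⟩ | ⟨s, hs, rfl⟩
    · rw [aug_gn, aug_gn]
      refine hΦ x y R₀ R₀' ⟨h.ne, ((pt_on hB).1 hR₀).1, ((pt_on hB).1 hR₀').1, fun z h1 h2 => ?_⟩
      refine hR.dj z ?_ ?_
      · rw [aug_vs]
        exact h1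
      · rw [aug_vs]
        exact h2
    · obtain ⟨P₂, hP₂, rfl⟩ := hS s hs
      rw [aug_gn, AugP_gn]
      exact hΦ x y R₀ P₂ (AugP_cross h hR₀ hP₂)
  · rcases AugP_case hB h.ne hR.p' with ⟨R₀', rfl, hR₀'⟩ | ⟨s', hs', rfl⟩
    · obtain ⟨P₂, hP₂, rfl⟩ := hS s hs
      rw [aug_gn, AugP_gn]
      exact hΦ x y P₂ R₀' (cy_symm (AugP_cross h hR₀' hP₂))
    · rw [AugP_gn, AugP_gn]
      exact hc s hs s' hs'

theorem aug_Phi_near (hΓ : Γ.C2) (hΦ : Γ.Phi (hx : Set Lt)) {B : Finset E} (hB : B ⊆ Γ.A) {x y : V} (hxy : x ≠ y) {S : Finset Lt}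
    (hS : ∀ P, (Γ.on B).Pt x P y → Γ.gn P ∈ S) (hc : ∀ s ∈ S, ∀ s' ∈ S, s - s' = 0 ∨ s - s' ∈ hx) :
    (Γ.aug B x y S).Phi (hx : Set Lt) := by
  have hg : ∀ R, (Γ.aug B x y S).Pt x R y → (Γ.aug B x y S).gn R ∈ S := by
    intro R hR
    rcases AugP_case hB hxy hR with ⟨R₀, rfl, hR₀⟩ | ⟨s, hs, rfl⟩
    · rw [aug_gn]
      exact hS R₀ hR₀
    · rw [AugP_gn]
      exact hs
  exact AugP_red hΦ hB hxy fun R R' hR => hc _ (hg R hR.p) _ (hg R' hR.p')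

end Pool.Agent.FRM
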