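import Pool.Agent.FRM.C2G

/-!
# FRM/Blk: all graphs with fundamental cycle gains have good connections

PROOF PLAN.  `split_or_C2`: if `Γ` (nonempty, loopless) is not `C2`: either it is not connected (`A₁` = the edges of the component of a vertex `x`), or there is a cut vertex `z` with `x, y ≠ z` not joined in `Γ - z`: `A₁` = the edges with an end in `W`, `W` = the vertices joined to `x` by walks avoiding `z`.
Every cycle (two internally disjoint paths) has all its edges in `A₁` or all in `A₂`: consecutive edges of a path meet in a vertex `≠ z`, or in `z`; if the cycle had edges on both sides it would pass twice through `z` (use `resplit` at `z` and another vertex `v`, `v ∈ W` say: both paths from `v` reach `z` only at the end, so stay in `W ∪ {z}`).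
`all_good`: strong induction on the number of edges; glue the connections of `Γ.on A₁`, `Γ.on A₂` (`hl` only depends on the edges of the list).
-/

set_option autoImplicit false

noncomputable section

open scoped Classical

namespace Pool.Agent.FRM

open GG

variable {V E Q : Type} [AddCommGroup Q] {Γ : GG V E Q}

/-- a walk which leaves `W` meets `Z` -/
private theorem Blk_leave {W Z : Set V}
    (hW : ∀ d : Da E, d.1 ∈ Γ.A → Γ.src d ∈ W → Γ.tgt d ∉ Z → Γ.tgt d ∈ W)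
    {v u : V} {l : List (Da E)} (h : Γ.Wk v l u) (hv : v ∈ W) (hu : u ∉ W) :
    ∃ w ∈ Γ.vs v l, w ∈ Z := by
  induction l generalizing v with
  | nil =>
    have h1 : v = u := h
    rw [h1] at hv
    exact absurd hv hu
  | cons d l ih =>
    obtain ⟨h1, h2, h3⟩ := h
    have h4 : Γ.vs v (d :: l) = v :: Γ.vs (Γ.tgt d) l := rfl
    by_cases hz : Γ.tgt d ∈ Z
    · exact ⟨Γ.tgt d, by rw [h4]; exact List.mem_cons_of_mem v (wk_first _ l), hz⟩
    · obtain ⟨w, hw, hw'⟩ := ih h3 (hW d h1 (by rw [h2]; exact hv) hz)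
      exact ⟨w, by rw [h4]; exact List.mem_cons_of_mem v hw, hw'⟩

private theorem Blk_end {a b : V} {l : List (Da E)} (h : Γ.Wk a l b) {e : E} (he : e ∈ eds l) :
    e ∈ Γ.A ∧ Γ.s e ∈ Γ.vs a l ∧ Γ.t e ∈ Γ.vs a l := by
  obtain ⟨⟨e', i⟩, hd, rfl⟩ := (mem_eds _ _).1 he
  obtain ⟨h1, h2, h3⟩ := wk_mem h _ hd
  cases i with
  | true => exact ⟨h1, h2, h3⟩
  | false => exact ⟨h1, h3, h2⟩

private theorem Blk_core (hl : ∀ e ∈ Γ.A, Γ.s e ≠ Γ.t e) {Z : Set V} (hZ : Z.Subsingleton) {x y : V}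
    (hx : x ∈ Γ.VS) (hy : y ∈ Γ.VS) (hxZ : x ∉ Z) (hyZ : y ∉ Z)
    (h : ∀ l, Γ.Wk x l y → ∃ w ∈ Γ.vs x l, w ∈ Z) :
    ∃ A₁ A₂ : Finset E, Γ.A = A₁ ∪ A₂ ∧ Disjoint A₁ A₂ ∧ A₁.Nonempty ∧ A₂.Nonempty ∧
      ∀ x y P P', Γ.Cy x y P P' → (∀ e ∈ eds P ∪ eds P', e ∈ A₁) ∨ ∀ e ∈ eds P ∪ eds P', e ∈ A₂ := by
  obtain ⟨W, hWdef⟩ : ∃ W : Set V, W = {v | ∃ l, Γ.Wk x l v ∧ ∀ w ∈ Γ.vs x l, w ∉ Z} := ⟨_, rfl⟩
  have hWZ : ∀ v ∈ W, v ∉ Z := by
    rw [hWdef]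
    rintro v ⟨l, h1, h2⟩
    exact h2 v (wk_last h1)
  have hxW : x ∈ W := by
    rw [hWdef]
    refine ⟨[], rfl, fun w hw => ?_⟩
    have hw' : w ∈ [x] := hw
    rw [List.mem_singleton] at hw'
    rw [hw']
    exact hxZ
  have hyW : y ∉ W := by
    rw [hWdef]
    rintro ⟨l, h1, h2⟩
    obtain ⟨w, hw, hw'⟩ := h l h1
    exact h2 w hw hw'
  have hW : ∀ d : Da E, d.1 ∈ Γ.A → Γ.src d ∈ W → Γ.tgt d ∉ Z → Γ.tgt d ∈ W := by
    rw [hWdef]
    rintro d hd ⟨l, h1, h2⟩ hz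
    refine ⟨l ++ [d], wk_append.2 ⟨Γ.src d, h1, hd, rfl, rfl⟩, fun w hw => ?_⟩
    rcases (mem_vs_append h1).1 hw with h3 | h3
    · exact h2 w h3
    · have h3' : w ∈ [Γ.src d, Γ.tgt d] := h3
      rcases List.mem_cons.1 h3' with h4 | h4
      · rw [h4]
        exact h2 _ (wk_last h1)
      · rw [List.mem_singleton.1 h4]
        exact hz
  clear hWdef
  have hst : ∀ e ∈ Γ.A, Γ.s e ∈ W → Γ.t e ∉ Z → Γ.t e ∈ W := fun e he h1 h2 => hW (e, true) he h1 h2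
  have hts : ∀ e ∈ Γ.A, Γ.t e ∈ W → Γ.s e ∉ Z → Γ.s e ∈ W := fun e he h1 h2 => hW (e, false) he h1 h2
  refine ⟨Γ.A.filter fun e => Γ.s e ∈ W ∨ Γ.t e ∈ W, Γ.A.filter fun e => ¬ (Γ.s e ∈ W ∨ Γ.t e ∈ W),
    ?_, ?_, ?_, ?_, ?_⟩
  · ext e
    rw [Finset.mem_union, Finset.mem_filter, Finset.mem_filter]
    by_cases he : Γ.s e ∈ W ∨ Γ.t e ∈ W
    · exact ⟨fun h1 => Or.inl ⟨h1, he⟩, fun h1 => h1.elim (fun h2 => h2.1) fun h2 => h2.1⟩
    · exact ⟨fun h1 => Or.inr ⟨h1, he⟩, fun h1 => h1.elim (fun h2 => h2.1) fun h2 => h2.1⟩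
  · rw [Finset.disjoint_left]
    intro e h1 h2
    exact (Finset.mem_filter.1 h2).2 (Finset.mem_filter.1 h1).2
  · obtain ⟨e, he, h1⟩ := hx
    refine ⟨e, Finset.mem_filter.2 ⟨he, ?_⟩⟩
    rcases h1 with h1 | h1
    · left
      rw [h1]
      exact hxW
    · right
      rw [h1]
      exact hxW
  · obtain ⟨e, he, h1⟩ := hy
    refine ⟨e, Finset.mem_filter.2 ⟨he, ?_⟩⟩
    rcases h1 with h1 | h1
    · rintro (h2 | h2)
      · rw [h1] at h2
        exact hyW h2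
      · have h3 := hts e he h2 (by rw [h1]; exact hyZ)
        rw [h1] at h3
        exact hyW h3
    · rintro (h2 | h2)
      · have h3 := hst e he h2 (by rw [h1]; exact hyZ)
        rw [h1] at h3
        exact hyW h3
      · rw [h1] at h2
        exact hyW h2
  · intro a b P P' hc
    by_contra hcon
    rw [not_or] at hcon
    obtain ⟨h1, h2⟩ := hcon
    rw [not_forall] at h1 h2
    obtain ⟨e, h1⟩ := h1
    obtain ⟨f, h2⟩ := h2
    rw [Classical.not_imp] at h1 h2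
    obtain ⟨he, heA⟩ := h1
    obtain ⟨hf, hfA⟩ := h2
    have hend : ∀ g ∈ eds P ∪ eds P', g ∈ Γ.A ∧ (Γ.s g ∈ Γ.vs a P ∨ Γ.s g ∈ Γ.vs a P') ∧
        (Γ.t g ∈ Γ.vs a P ∨ Γ.t g ∈ Γ.vs a P') := by
      intro g hg
      rcases Finset.mem_union.1 hg with hg | hg
      · obtain ⟨h3, h4, h5⟩ := Blk_end hc.p.1 hg
        exact ⟨h3, Or.inl h4, Or.inl h5⟩
      · obtain ⟨h3, h4, h5⟩ := Blk_end hc.p'.1 hg
        exact ⟨h3, Or.inr h4, Or.inr h5⟩
    obtain ⟨e1, e2, e3⟩ := hend e he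
    obtain ⟨f1, f2, f3⟩ := hend f hf
    have heW : ¬ (Γ.s e ∈ W ∨ Γ.t e ∈ W) := fun h3 => heA (Finset.mem_filter.2 ⟨e1, h3⟩)
    have hfW : Γ.s f ∈ W ∨ Γ.t f ∈ W := by
      by_contra h3
      exact hfA (Finset.mem_filter.2 ⟨f1, h3⟩)
    rw [not_or] at heW
    -- a vertex of the cycle in `W`
    obtain ⟨v, hvW, hvP⟩ : ∃ v ∈ W, v ∈ Γ.vs a P ∨ v ∈ Γ.vs a P' := by
      rcases hfW with h3 | h3
      · exact ⟨_, h3, f2⟩
      · exact ⟨_, h3, f3⟩
    -- a vertex of the cycle neither in `W` nor in `Z`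
    obtain ⟨u, huW, huZ, huP⟩ : ∃ u, u ∉ W ∧ u ∉ Z ∧ (u ∈ Γ.vs a P ∨ u ∈ Γ.vs a P') := by
      by_cases h3 : Γ.s e ∈ Z
      · exact ⟨Γ.t e, heW.2, fun h4 => hl e e1 (hZ h3 h4), e3⟩
      · exact ⟨Γ.s e, heW.1, h3, e2⟩
    have huv : v ≠ u := by
      rintro rfl
      exact huW hvW
    obtain ⟨R, R', hR, -, -, -⟩ := resplit hc hvP huP huv
    obtain ⟨w, hw, hwZ⟩ := Blk_leave hW hR.p.1 hvW huW
    obtain ⟨w', hw', hwZ'⟩ := Blk_leave hW hR.p'.1 hvW huW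
    have hww : w' = w := hZ hwZ' hwZ
    rw [hww] at hw'
    rcases hR.dj w hw hw' with h3 | h3
    · rw [h3] at hwZ
      exact hWZ v hvW hwZ
    · rw [h3] at hwZ
      exact huZ hwZ

theorem split_or_C2 (hne : Γ.A.Nonempty) (hl : ∀ e ∈ Γ.A, Γ.s e ≠ Γ.t e) (h : ¬ Γ.C2) :
    ∃ A₁ A₂ : Finset E, Γ.A = A₁ ∪ A₂ ∧ Disjoint A₁ A₂ ∧ A₁.Nonempty ∧ A₂.Nonempty ∧
      ∀ x y P P', Γ.Cy x y P P' → (∀ e ∈ eds P ∪ eds P', e ∈ A₁) ∨ ∀ e ∈ eds P ∪ eds P', e ∈ A₂ := by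
  by_cases hcon : ∀ x ∈ Γ.VS, ∀ y ∈ Γ.VS, ∃ l, Γ.Wk x l y
  · by_cases hcut : ∀ z, ∀ x ∈ Γ.VS, ∀ y ∈ Γ.VS, x ≠ z → y ≠ z → ∃ l, Γ.Wk x l y ∧ z ∉ Γ.vs x l
    · exact absurd ⟨hne, hl, hcon, hcut⟩ h
    · push Not at hcut
      obtain ⟨z, x, hx, y, hy, hxz, hyz, h1⟩ := hcut
      exact Blk_core hl Set.subsingleton_singleton hx hy (Z := {z}) hxz hyz
        fun l h2 => ⟨z, h1 l h2, rfl⟩
  · push Not at hcon
    obtain ⟨x, hx, y, hy, h1⟩ := hcon
    exact Blk_core hl Set.subsingleton_empty hx hy (Z := ∅) (Set.notMem_empty x) (Set.notMem_empty y)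
      fun l h2 => absurd h2 (h1 l)

private theorem Blk_hl {G : Type} [Group G] {τ τ' : E → G} {l : List (Da E)}
    (h : ∀ d ∈ l, τ d.1 = τ' d.1) : hl τ l = hl τ' l := by
  unfold hl
  congr 1
  refine List.map_congr_left fun d hd => ?_
  rw [h d hd]

theorem all_good {Γ : GG V E XG} (hl : ∀ e ∈ Γ.A, Γ.s e ≠ Γ.t e) (hΦ : Γ.Phi (FU : Set XG)) :
    ∃ τ : E → Hqˣ, Good Γ τ := by
  obtain ⟨n, hn⟩ : ∃ n, n = Γ.A.card := ⟨_, rfl⟩
  induction n using Nat.strong_induction_on generalizing Γ with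
  | _ n ih =>
    by_cases hne : Γ.A.Nonempty
    · by_cases hC : Γ.C2
      · exact c2_good hC hΦ
      · obtain ⟨A₁, A₂, hun, hdj, ⟨a₁, ha₁⟩, ⟨a₂, ha₂⟩, hcyc⟩ := split_or_C2 hne hl hC
        have hs₁ : A₁ ⊆ Γ.A := by
          rw [hun]
          exact Finset.subset_union_left
        have hs₂ : A₂ ⊆ Γ.A := by
          rw [hun]
          exact Finset.subset_union_right
        have hc₁ : A₁.card < n := by
          rw [hn]
          refine Finset.card_lt_card ((Finset.ssubset_iff_of_subset hs₁).2 ⟨a₂, hs₂ ha₂, ?_⟩)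
          exact fun h1 => Finset.disjoint_left.1 hdj h1 ha₂
        have hc₂ : A₂.card < n := by
          rw [hn]
          refine Finset.card_lt_card ((Finset.ssubset_iff_of_subset hs₂).2 ⟨a₁, hs₁ ha₁, ?_⟩)
          exact fun h1 => Finset.disjoint_left.1 hdj ha₁ h1
        obtain ⟨τ₁, h₁⟩ := ih A₁.card hc₁ (Γ := Γ.on A₁) (fun e he => hl e (hs₁ he))
          (phi_on hs₁ hΦ) rfl
        obtain ⟨τ₂, h₂⟩ := ih A₂.card hc₂ (Γ := Γ.on A₂) (fun e he => hl e (hs₂ he))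
          (phi_on hs₂ hΦ) rfl
        have hτ₁ : ∀ {l : List (Da E)}, (∀ d ∈ l, d.1 ∈ A₁) →
            Pool.Agent.FRM.hl (fun e => if e ∈ A₁ then τ₁ e else τ₂ e) l = Pool.Agent.FRM.hl τ₁ l :=
          fun {l} h => Blk_hl fun d hd => if_pos (h d hd)
        have hτ₂ : ∀ {l : List (Da E)}, (∀ d ∈ l, d.1 ∈ A₂) →
            Pool.Agent.FRM.hl (fun e => if e ∈ A₁ then τ₁ e else τ₂ e) l = Pool.Agent.FRM.hl τ₂ l :=
          fun {l} h => Blk_hl fun d hd => if_neg fun h1 => Finset.disjoint_left.1 hdj h1 (h d hd)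
        have hside : ∀ x y P P', Γ.Cy x y P P' →
            ((∀ d ∈ P, d.1 ∈ A₁) ∧ ∀ d ∈ P', d.1 ∈ A₁) ∨ ((∀ d ∈ P, d.1 ∈ A₂) ∧ ∀ d ∈ P', d.1 ∈ A₂) := by
          intro x y P P' hc
          rcases hcyc x y P P' hc with h | h
          · exact Or.inl ⟨fun d hd => h _ (Finset.mem_union_left _ ((mem_eds _ _).2 ⟨d, hd, rfl⟩)),
              fun d hd => h _ (Finset.mem_union_right _ ((mem_eds _ _).2 ⟨d, hd, rfl⟩))⟩
          · exact Or.inr ⟨fun d hd => h _ (Finset.mem_union_left _ ((mem_eds _ _).2 ⟨d, hd, rfl⟩)),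
              fun d hd => h _ (Finset.mem_union_right _ ((mem_eds _ _).2 ⟨d, hd, rfl⟩))⟩
        refine ⟨fun e => if e ∈ A₁ then τ₁ e else τ₂ e, ?_, ?_, ?_⟩
        · intro e he
          by_cases h : e ∈ A₁
          · simp only [if_pos h]
            exact h₁.hu e h
          · simp only [if_neg h]
            refine h₂.hu e ?_
            rw [hun, Finset.mem_union] at he
            exact he.resolve_left h
        · intro x y P P' hc hg
          rcases hside x y P P' hc with ⟨h, h'⟩ | ⟨h, h'⟩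
          · rw [hτ₁ h, hτ₁ h']
            exact h₁.bal x y P P' ((cy_on hs₁).2 ⟨hc, h, h'⟩) hg
          · rw [hτ₂ h, hτ₂ h']
            exact h₂.bal x y P P' ((cy_on hs₂).2 ⟨hc, h, h'⟩) hg
        · intro x y P P' hc hg
          rcases hside x y P P' hc with ⟨h, h'⟩ | ⟨h, h'⟩
          · rw [hτ₁ h, hτ₁ h']
            exact h₁.unb x y P P' ((cy_on hs₁).2 ⟨hc, h, h'⟩) hg
          · rw [hτ₂ h, hτ₂ h']
            exact h₂.unb x y P P' ((cy_on hs₂).2 ⟨hc, h, h'⟩) hg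
    · have hno : ∀ x y P P', ¬ Γ.Cy x y P P' := by
        intro x y P P' hc
        obtain ⟨d, hd⟩ := List.exists_mem_of_ne_nil P (pt_ne hc.p hc.ne)
        exact hne ⟨d.1, (wk_mem hc.p.1 d hd).1⟩
      exact ⟨fun _ => 1, fun e he => absurd ⟨e, he⟩ hne, fun x y P P' hc => absurd hc (hno x y P P'),
        fun x y P P' hc => absurd hc (hno x y P P')⟩

end Pool.Agent.FRM
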