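import Pool.Agent.FRM.Ear1
import Pool.Agent.FRM.Cb1

/-!
# FRM/Ext: extension of potentials along a path

Inductions on the list of darts (generalizing the first vertex and the potential): the value at the second vertex is chosen such
that the first edge gets `0`.
-/

set_option autoImplicit false

noncomputable section

open scoped Classical

namespace Pool.Agent.FRM

open GG

variable {V E Q : Type} [AddCommGroup Q] {Γ : GG V E Q}

private theorem Ext_dart (S : AddSubgroup Q) (p : V → Q) (d : Da E) :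
    Γ.dg d + p (Γ.src d) - p (Γ.tgt d) ∈ S ↔ Γ.g d.1 + p (Γ.s d.1) - p (Γ.t d.1) ∈ S := by
  obtain ⟨e, b⟩ := d
  cases b with
  | true => exact Iff.rfl
  | false =>
    have h : Γ.dg (e, false) + p (Γ.src (e, false)) - p (Γ.tgt (e, false)) =
        -(Γ.g e + p (Γ.s e) - p (Γ.t e)) := by
      simp only [dg, src, tgt, Bool.false_eq_true, if_false]
      abel
    rw [h]
    exact S.neg_mem_iff

private theorem Ext_vs (a : V) (d : Da E) (l : List (Da E)) :
    Γ.vs a (d :: l) = a :: Γ.vs (Γ.tgt d) l := rfl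

theorem ext_pot (S : AddSubgroup Q) (p₀ : V → Q) {a b : V} {l : List (Da E)} (h : Γ.Pt a l b) (hne : a ≠ b)
    (hS : Γ.gn l + p₀ a - p₀ b ∈ S) :
    ∃ p : V → Q, (∀ z, z ∉ Γ.vs a l → p z = p₀ z) ∧ p a = p₀ a ∧ p b = p₀ b ∧
      ∀ d ∈ l, Γ.g d.1 + p (Γ.s d.1) - p (Γ.t d.1) ∈ S := by
  induction l generalizing a p₀ with
  | nil => exact absurd h.1 hne
  | cons d l ih =>
    obtain ⟨⟨hd, hsrc, hw⟩, hnd⟩ := h
    rw [Ext_vs, List.nodup_cons] at hnd
    rw [gn_cons] at hS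
    by_cases hl : l = []
    · subst hl
      refine ⟨p₀, fun _ _ => rfl, rfl, rfl, fun d' hd' => ?_⟩
      rw [List.mem_singleton] at hd'
      subst hd'
      have hb : Γ.tgt d' = b := hw
      rw [gn_nil, add_zero] at hS
      rw [← Ext_dart, hsrc, hb]
      exact hS
    · have hpt : Γ.Pt (Γ.tgt d) l b := ⟨hw, hnd.2⟩
      have hcb : Γ.tgt d ≠ b := fun h' => by
        rw [h'] at hpt
        exact hl (pt_self hpt)
      have hca : a ≠ Γ.tgt d := fun h' => hnd.1 (by rw [h']; exact wk_first _ _)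
      have e1 : Function.update p₀ (Γ.tgt d) (p₀ a + Γ.dg d) (Γ.tgt d) = p₀ a + Γ.dg d :=
        Function.update_self _ _ _
      have e2 : ∀ z, z ≠ Γ.tgt d → Function.update p₀ (Γ.tgt d) (p₀ a + Γ.dg d) z = p₀ z :=
        fun z hz => Function.update_of_ne hz _ _
      obtain ⟨p, h1, h2, h3, h4⟩ := ih (Function.update p₀ (Γ.tgt d) (p₀ a + Γ.dg d)) hpt hcb (by
        rw [e1, e2 b hcb.symm]
        have : Γ.gn l + (p₀ a + Γ.dg d) - p₀ b = Γ.dg d + Γ.gn l + p₀ a - p₀ b := by abel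
        rw [this]
        exact hS)
      have hpa : p a = p₀ a := (h1 a hnd.1).trans (e2 a hca)
      refine ⟨p, fun z hz => ?_, hpa, h3.trans (e2 b hcb.symm), fun d' hd' => ?_⟩
      · rw [Ext_vs, List.mem_cons, not_or] at hz
        rw [h1 z hz.2]
        exact e2 z fun h' => hz.2 (by rw [h']; exact wk_first _ _)
      · rcases List.mem_cons.1 hd' with rfl | hd'
        · rw [← Ext_dart, hsrc, hpa, h2, e1]
          have : Γ.dg d' + p₀ a - (p₀ a + Γ.dg d') = 0 := by abel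
          rw [this]
          exact S.zero_mem
        · exact h4 d' hd'

/-- gains of walks after switching -/
theorem gn_pot (S : AddSubgroup Q) (p : V → Q) {a b : V} {l : List (Da E)} (h : Γ.Wk a l b)
    (hp : ∀ d ∈ l, Γ.g d.1 + p (Γ.s d.1) - p (Γ.t d.1) ∈ S) : Γ.gn l + p a - p b ∈ S := by
  induction l generalizing a with
  | nil =>
    have h' : a = b := h
    rw [gn_nil, h', zero_add, sub_self]
    exact S.zero_mem
  | cons d l ih =>
    obtain ⟨_, hsrc, hw⟩ := h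
    have h1 := ih hw fun d' hd' => hp d' (List.mem_cons_of_mem _ hd')
    have h2 := (Ext_dart S p d).2 (hp d List.mem_cons_self)
    have h3 := S.add_mem h2 h1
    rw [hsrc] at h3
    rw [gn_cons]
    have e : Γ.dg d + Γ.gn l + p a - p b =
        Γ.dg d + p a - p (Γ.tgt d) + (Γ.gn l + p (Γ.tgt d) - p b) := by abel
    rw [e]
    exact h3

/-- the subgraph `B` and an ear whose gain fits -/
theorem ins_ear {B : Finset E} (hB : B ⊆ Γ.A) {a b : V} {l : List (Da E)} (he : Γ.Ear B a b l) (S : AddSubgroup Q)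
    (p₀ : V → Q) (hp : ∀ e ∈ B, Γ.g e + p₀ (Γ.s e) - p₀ (Γ.t e) ∈ S) (hS : Γ.gn l + p₀ a - p₀ b ∈ S) :
    ∃ p : V → Q, ∀ e ∈ B ∪ eds l, Γ.g e + p (Γ.s e) - p (Γ.t e) ∈ S := by
  obtain ⟨p, h1, h2, h3, h4⟩ := ext_pot S p₀ he.pt he.ne hS
  have key : ∀ z, z ∈ (Γ.on B).VS → p z = p₀ z := fun z hz => by
    by_cases hzl : z ∈ Γ.vs a l
    · rcases he.int z hzl hz with rfl | rfl
      · exact h2
      · exact h3
    · exact h1 z hzl
  refine ⟨p, fun e hm => ?_⟩
  rcases Finset.mem_union.1 hm with hm | hm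
  · rw [key (Γ.s e) ⟨e, hm, Or.inl rfl⟩, key (Γ.t e) ⟨e, hm, Or.inr rfl⟩]
    exact hp e hm
  · obtain ⟨d, hd, rfl⟩ := (mem_eds e l).1 hm
    exact h4 d hd

section Coch

variable {V E : Type} {k : Type} [Field k] {ω : k} {Γ : GG V E Lt}

private theorem Ext_dv (hω : ω ^ 2 + ω + 1 = 0) (v : E → k) (c : V → k) (d : Da E) :
    dv ω Γ v d = c (Γ.src d) - ch ω (Γ.dg d) * c (Γ.tgt d) ↔
      v d.1 = c (Γ.s d.1) - ch ω (Γ.g d.1) * c (Γ.t d.1) := by
  obtain ⟨e, b⟩ := d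
  cases b with
  | true => exact Iff.rfl
  | false =>
    have h0 := ch_ne_zero hω (Γ.g e)
    have h1 := ch_neg hω (Γ.g e)
    simp only [dv, dg, src, tgt, Bool.false_eq_true, if_false, h1]
    constructor
    · intro h
      have h2 : ch ω (Γ.g e) * -((ch ω (Γ.g e))⁻¹ * v e) =
          ch ω (Γ.g e) * (c (Γ.t e) - (ch ω (Γ.g e))⁻¹ * c (Γ.s e)) := by rw [h]
      rw [mul_sub, mul_neg, mul_inv_cancel_left₀ h0, mul_inv_cancel_left₀ h0] at h2
      linear_combination -h2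
    · intro h
      rw [h, mul_sub, inv_mul_cancel_left₀ h0]
      ring

theorem ext_cob (hω : ω ^ 2 + ω + 1 = 0) (v : E → k) (c₀ : V → k) {a b : V} {l : List (Da E)} (h : Γ.Pt a l b) (hne : a ≠ b)
    (hv : tv ω Γ v l = c₀ a - ch ω (Γ.gn l) * c₀ b) :
    ∃ c : V → k, (∀ z, z ∉ Γ.vs a l → c z = c₀ z) ∧ c a = c₀ a ∧ c b = c₀ b ∧
      ∀ d ∈ l, v d.1 = c (Γ.s d.1) - ch ω (Γ.g d.1) * c (Γ.t d.1) := by
  induction l generalizing a c₀ with
  | nil => exact absurd h.1 hne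
  | cons d l ih =>
    obtain ⟨⟨hd, hsrc, hw⟩, hnd⟩ := h
    rw [Ext_vs, List.nodup_cons] at hnd
    have hv' : dv ω Γ v d + ch ω (Γ.dg d) * tv ω Γ v l = c₀ a - ch ω (Γ.gn (d :: l)) * c₀ b := hv
    rw [gn_cons, ch_add hω] at hv'
    by_cases hl : l = []
    · subst hl
      refine ⟨c₀, fun _ _ => rfl, rfl, rfl, fun d' hd' => ?_⟩
      rw [List.mem_singleton] at hd'
      subst hd'
      have hb : Γ.tgt d' = b := hw
      have ht : tv ω Γ v [] = 0 := rfl
      rw [ht, gn_nil, ch_zero] at hv'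
      rw [← Ext_dv hω, hsrc, hb]
      linear_combination hv'
    · have hpt : Γ.Pt (Γ.tgt d) l b := ⟨hw, hnd.2⟩
      have hcb : Γ.tgt d ≠ b := fun h' => by
        rw [h'] at hpt
        exact hl (pt_self hpt)
      have hca : a ≠ Γ.tgt d := fun h' => hnd.1 (by rw [h']; exact wk_first _ _)
      have hc0 := ch_ne_zero hω (Γ.dg d)
      set x : k := (ch ω (Γ.dg d))⁻¹ * (c₀ a - dv ω Γ v d) with hx
      have e1 : Function.update c₀ (Γ.tgt d) x (Γ.tgt d) = x := Function.update_self _ _ _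
      have e2 : ∀ z, z ≠ Γ.tgt d → Function.update c₀ (Γ.tgt d) x z = c₀ z :=
        fun z hz => Function.update_of_ne hz _ _
      obtain ⟨c, h1, h2, h3, h4⟩ := ih (Function.update c₀ (Γ.tgt d) x) hpt hcb (by
        rw [e1, e2 b hcb.symm]
        apply mul_left_cancel₀ hc0
        rw [hx, mul_sub, mul_inv_cancel_left₀ hc0]
        linear_combination hv')
      have hpa : c a = c₀ a := (h1 a hnd.1).trans (e2 a hca)
      refine ⟨c, fun z hz => ?_, hpa, h3.trans (e2 b hcb.symm), fun d' hd' => ?_⟩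
      · rw [Ext_vs, List.mem_cons, not_or] at hz
        rw [h1 z hz.2]
        exact e2 z fun h' => hz.2 (by rw [h']; exact wk_first _ _)
      · rcases List.mem_cons.1 hd' with rfl | hd'
        · rw [← Ext_dv hω, hsrc, hpa, h2, e1, hx, mul_inv_cancel_left₀ hc0]
          ring
        · exact h4 d' hd'

theorem cob_ear (hω : ω ^ 2 + ω + 1 = 0) {B : Finset E} (hB : B ⊆ Γ.A) {a b : V} {l : List (Da E)} (he : Γ.Ear B a b l)
    (v : E → k) (c₀ : V → k) (hc : ∀ f ∈ B, v f = c₀ (Γ.s f) - ch ω (Γ.g f) * c₀ (Γ.t f))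
    (hv : tv ω Γ v l = c₀ a - ch ω (Γ.gn l) * c₀ b) : Cob ω (Γ.on (B ∪ eds l)) v := by
  obtain ⟨c, h1, h2, h3, h4⟩ := ext_cob hω v c₀ he.pt he.ne hv
  have key : ∀ z, z ∈ (Γ.on B).VS → c z = c₀ z := fun z hz => by
    by_cases hzl : z ∈ Γ.vs a l
    · rcases he.int z hzl hz with rfl | rfl
      · exact h2
      · exact h3
    · exact h1 z hzl
  refine ⟨c, fun e hm => ?_⟩
  rcases Finset.mem_union.1 (show e ∈ B ∪ eds l from hm) with hm | hm
  · show v e = c (Γ.s e) - ch ω (Γ.g e) * c (Γ.t e)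
    rw [key (Γ.s e) ⟨e, hm, Or.inl rfl⟩, key (Γ.t e) ⟨e, hm, Or.inr rfl⟩]
    exact hc e hm
  · obtain ⟨d, hd, rfl⟩ := (mem_eds e l).1 hm
    exact h4 d hd

end Coch

end Pool.Agent.FRM
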