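import Pool.Agent.FRM.Q8
import Pool.Agent.FRM.Ext

/-!
# FRM/CGd: graphs with cyclic gains have good connections

PROOF PLAN.  `ζ = (1 + i + j + k) / 2` (a unit, `HU`, order six, `ζ ^ 0 = 1`, `re ζ = re ζ⁻¹ = 1/2`; powers are `HU`).  Choose `p` and `m_e` with `g e + p (s e) - p (t e) = m_e • g` (`InS`), `τ e = ζ ^ m_e` (for `e ∈ A`, else `1`).  For a walk `l : x → y`: `hl τ l = ζ ^ M`, `M • g = gn l + p x - p y` (induction).
For a cycle: `(M - M') • g = gn P - gn P'`, so `M - M' ∈ {0, 1, -1}` by `hm`.  `bal_good`: `τ = 1`; all cycles are balanced (`gn_pot` with `S = ⊥`).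
-/

set_option autoImplicit false

noncomputable section

open scoped Classical

namespace Pool.Agent.FRM

open GG

variable {V E Q : Type} [AddCommGroup Q] {Γ : GG V E Q}

private theorem CGd_one (l : List (Da E)) : hl (fun _ => (1 : Hqˣ)) l = 1 := by
  induction l with
  | nil => rfl
  | cons d l ih =>
    rw [hl_cons, ih]
    simp

theorem bal_good (hI : Γ.InS ⊥) : ∃ τ : E → Hqˣ, Good Γ τ := by
  obtain ⟨p, hp⟩ := hI
  have key : ∀ x y l, Γ.Wk x l y → Γ.gn l = p y - p x := by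
    intro x y l hl
    have h1 := gn_pot (⊥ : AddSubgroup Q) p hl fun d hd => hp d.1 (wk_mem hl d hd).1
    rw [AddSubgroup.mem_bot] at h1
    rw [← sub_eq_zero, ← h1]
    abel
  refine ⟨fun _ => 1, ⟨fun _ _ => HU_one, fun x y P P' _ _ => ?_, fun x y P P' hc hne => ?_⟩⟩
  · rw [CGd_one, CGd_one]
  · exact absurd ((key x y P hc.p.1).trans (key x y P' hc.p'.1).symm) hne

private theorem CGd_mul (p q r : Hq) (h1 : p.re * q.re - p.imI * q.imI - p.imJ * q.imJ - p.imK * q.imK = r.re)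
    (h2 : p.re * q.imI + p.imI * q.re + p.imJ * q.imK - p.imK * q.imJ = r.imI)
    (h3 : p.re * q.imJ - p.imI * q.imK + p.imJ * q.re + p.imK * q.imI = r.imJ)
    (h4 : p.re * q.imK + p.imI * q.imJ - p.imJ * q.imI + p.imK * q.re = r.imK) : p * q = r :=
  Quaternion.ext _ _ ((Quaternion.re_mul p q).trans h1) ((Quaternion.imI_mul p q).trans h2)
    ((Quaternion.imJ_mul p q).trans h3) ((Quaternion.imK_mul p q).trans h4)

/-- an element of order six -/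
private def CGd_z : Hqˣ where
  val := ⟨1 / 2, 1 / 2, 1 / 2, 1 / 2⟩
  inv := ⟨1 / 2, -1 / 2, -1 / 2, -1 / 2⟩
  val_inv := by
    refine CGd_mul _ _ _ ?_ ?_ ?_ ?_
    · show (1 / 2 : ℚ) * (1 / 2) - 1 / 2 * (-1 / 2) - 1 / 2 * (-1 / 2) - 1 / 2 * (-1 / 2) = 1
      norm_num
    · show (1 / 2 : ℚ) * (-1 / 2) + 1 / 2 * (1 / 2) + 1 / 2 * (-1 / 2) - 1 / 2 * (-1 / 2) = 0
      norm_num
    · show (1 / 2 : ℚ) * (-1 / 2) - 1 / 2 * (-1 / 2) + 1 / 2 * (1 / 2) + 1 / 2 * (-1 / 2) = 0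
      norm_num
    · show (1 / 2 : ℚ) * (-1 / 2) + 1 / 2 * (-1 / 2) - 1 / 2 * (-1 / 2) + 1 / 2 * (1 / 2) = 0
      norm_num
  inv_val := by
    refine CGd_mul _ _ _ ?_ ?_ ?_ ?_
    · show (1 / 2 : ℚ) * (1 / 2) - (-1 / 2) * (1 / 2) - (-1 / 2) * (1 / 2) - (-1 / 2) * (1 / 2) = 1
      norm_num
    · show (1 / 2 : ℚ) * (1 / 2) + (-1 / 2) * (1 / 2) + (-1 / 2) * (1 / 2) - (-1 / 2) * (1 / 2) = 0
      norm_num
    · show (1 / 2 : ℚ) * (1 / 2) - (-1 / 2) * (1 / 2) + (-1 / 2) * (1 / 2) + (-1 / 2) * (1 / 2) = 0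
      norm_num
    · show (1 / 2 : ℚ) * (1 / 2) + (-1 / 2) * (1 / 2) - (-1 / 2) * (1 / 2) + (-1 / 2) * (1 / 2) = 0
      norm_num

private theorem CGd_sq : ((CGd_z ^ 2 : Hqˣ) : Hq) = ⟨-1 / 2, 1 / 2, 1 / 2, 1 / 2⟩ := by
  rw [pow_two, Units.val_mul]
  refine CGd_mul _ _ _ ?_ ?_ ?_ ?_
  · show (1 / 2 : ℚ) * (1 / 2) - (1 / 2) * (1 / 2) - (1 / 2) * (1 / 2) - (1 / 2) * (1 / 2) = -1 / 2
    norm_num
  · show (1 / 2 : ℚ) * (1 / 2) + (1 / 2) * (1 / 2) + (1 / 2) * (1 / 2) - (1 / 2) * (1 / 2) = 1 / 2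
    norm_num
  · show (1 / 2 : ℚ) * (1 / 2) - (1 / 2) * (1 / 2) + (1 / 2) * (1 / 2) + (1 / 2) * (1 / 2) = 1 / 2
    norm_num
  · show (1 / 2 : ℚ) * (1 / 2) + (1 / 2) * (1 / 2) - (1 / 2) * (1 / 2) + (1 / 2) * (1 / 2) = 1 / 2
    norm_num

private theorem CGd_cube : CGd_z ^ 3 = -1 := by
  apply Units.ext
  rw [pow_succ, Units.val_mul, CGd_sq]
  refine CGd_mul _ _ _ ?_ ?_ ?_ ?_
  · show (-1 / 2 : ℚ) * (1 / 2) - (1 / 2) * (1 / 2) - (1 / 2) * (1 / 2) - (1 / 2) * (1 / 2) = -1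
    norm_num
  · show (-1 / 2 : ℚ) * (1 / 2) + (1 / 2) * (1 / 2) + (1 / 2) * (1 / 2) - (1 / 2) * (1 / 2) = -0
    norm_num
  · show (-1 / 2 : ℚ) * (1 / 2) - (1 / 2) * (1 / 2) + (1 / 2) * (1 / 2) + (1 / 2) * (1 / 2) = -0
    norm_num
  · show (-1 / 2 : ℚ) * (1 / 2) + (1 / 2) * (1 / 2) - (1 / 2) * (1 / 2) + (1 / 2) * (1 / 2) = -0
    norm_num

private theorem CGd_norm (q : Hq) : Quaternion.normSq q = q.re ^ 2 + q.imI ^ 2 + q.imJ ^ 2 + q.imK ^ 2 :=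
  Quaternion.normSq_def' q

private theorem CGd_HU1 : HU ((CGd_z : Hqˣ) : Hq) := by
  refine ⟨?_, Or.inr ⟨0, 0, 0, 0, ?_⟩⟩
  · refine (CGd_norm _).trans ?_
    show (1 / 2 : ℚ) ^ 2 + (1 / 2) ^ 2 + (1 / 2) ^ 2 + (1 / 2) ^ 2 = 1
    norm_num
  · refine Quaternion.ext _ _ ?_ ?_ ?_ ?_
    all_goals
      show (1 / 2 : ℚ) = ((0 : ℤ) : ℚ) + 1 / 2
      norm_num

private theorem CGd_HU2 : HU ((CGd_z ^ 2 : Hqˣ) : Hq) := by
  rw [CGd_sq]
  refine ⟨?_, Or.inr ⟨-1, 0, 0, 0, ?_⟩⟩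
  · refine (CGd_norm _).trans ?_
    show (-1 / 2 : ℚ) ^ 2 + (1 / 2) ^ 2 + (1 / 2) ^ 2 + (1 / 2) ^ 2 = 1
    norm_num
  · refine Quaternion.ext _ _ ?_ ?_ ?_ ?_
    · show (-1 / 2 : ℚ) = ((-1 : ℤ) : ℚ) + 1 / 2
      norm_num
    all_goals
      show (1 / 2 : ℚ) = ((0 : ℤ) : ℚ) + 1 / 2
      norm_num

private theorem CGd_HU (m : ℤ) : HU ((CGd_z ^ m : Hqˣ) : Hq) := by
  have hm : m = 3 * (m / 3) + m % 3 := (Int.mul_ediv_add_emod m 3).symm
  have h0 : 0 ≤ m % 3 := Int.emod_nonneg m (by norm_num)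
  have h1 : m % 3 < 3 := Int.emod_lt_of_pos m (by norm_num)
  have h2 : HU ((CGd_z ^ (m % 3) : Hqˣ) : Hq) := by
    have h3 : m % 3 = 0 ∨ m % 3 = 1 ∨ m % 3 = 2 := by omega
    rcases h3 with h3 | h3 | h3 <;> rw [h3]
    · rw [zpow_zero, Units.val_one]
      exact HU_one
    · rw [zpow_one]
      exact CGd_HU1
    · exact CGd_HU2
  have h4 : (CGd_z ^ (3 * (m / 3)) : Hqˣ) = 1 ∨ (CGd_z ^ (3 * (m / 3)) : Hqˣ) = -1 := by
    rw [zpow_mul]
    have h5 : CGd_z ^ (3 : ℤ) = -1 := CGd_cube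
    rw [h5]
    rcases Int.even_or_odd (m / 3) with h6 | h6
    · exact Or.inl h6.neg_one_zpow
    · exact Or.inr h6.neg_one_zpow
  rw [hm, zpow_add]
  rcases h4 with h4 | h4
  · rw [h4, one_mul]
    exact h2
  · rw [h4, neg_one_mul, Units.val_neg]
    exact HU_neg h2

theorem cyc_good {Φ : Set Q} (hΦ : Γ.Phi Φ) {g : Q} (hg : g ≠ 0)
    (hm : ∀ m : ℤ, m • g = 0 ∨ m • g ∈ Φ → m = 0 ∨ m = 1 ∨ m = -1) (hI : Γ.InS (AddSubgroup.zmultiples g)) :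
    ∃ τ : E → Hqˣ, Good Γ τ := by
  obtain ⟨p, hp⟩ := hI
  have hp' : ∀ e, ∃ m : ℤ, e ∈ Γ.A → Γ.g e + p (Γ.s e) - p (Γ.t e) = m • g := by
    intro e
    by_cases he : e ∈ Γ.A
    · obtain ⟨m, hm'⟩ := AddSubgroup.mem_zmultiples_iff.1 (hp e he)
      exact ⟨m, fun _ => hm'.symm⟩
    · exact ⟨0, fun h => absurd h he⟩
  choose m hme using hp'
  have key : ∀ (l : List (Da E)) (x y : V), Γ.Wk x l y →
      ∃ M : ℤ, hl (fun e => CGd_z ^ m e) l = CGd_z ^ M ∧ M • g = Γ.gn l + p x - p y := by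
    intro l
    induction l with
    | nil =>
      intro x y h
      have h' : x = y := h
      refine ⟨0, ?_, ?_⟩
      · rw [hl_nil, zpow_zero]
      · rw [gn_nil, h', zero_smul]
        abel
    | cons d l ih =>
      intro x y h
      obtain ⟨hd, hs, hw⟩ := h
      obtain ⟨M, h1, h2⟩ := ih (Γ.tgt d) y hw
      obtain ⟨e, b⟩ := d
      have he := hme e hd
      cases b with
      | true =>
        have hs' : Γ.s e = x := hs
        refine ⟨m e + M, ?_, ?_⟩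
        · rw [hl_cons, h1, zpow_add]
          rfl
        · rw [add_smul, h2, ← he, gn_cons, hs']
          show Γ.g e + p x - p (Γ.t e) + (Γ.gn l + p (Γ.t e) - p y) = Γ.g e + Γ.gn l + p x - p y
          abel
      | false =>
        have hs' : Γ.t e = x := hs
        refine ⟨-m e + M, ?_, ?_⟩
        · rw [hl_cons, h1, zpow_add, zpow_neg]
          rfl
        · rw [add_smul, h2, neg_smul, ← he, gn_cons, hs']
          show -(Γ.g e + p (Γ.s e) - p x) + (Γ.gn l + p (Γ.s e) - p y) = -Γ.g e + Γ.gn l + p x - p y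
          abel
  have cyc : ∀ x y P P', Γ.Cy x y P P' → ∃ M M' : ℤ, hl (fun e => CGd_z ^ m e) P = CGd_z ^ M ∧
      hl (fun e => CGd_z ^ m e) P' = CGd_z ^ M' ∧ (M - M') • g = Γ.gn P - Γ.gn P' ∧
      (M - M' = 0 ∨ M - M' = 1 ∨ M - M' = -1) := by
    intro x y P P' hc
    obtain ⟨M, h1, h2⟩ := key P x y hc.p.1
    obtain ⟨M', h3, h4⟩ := key P' x y hc.p'.1
    have h5 : (M - M') • g = Γ.gn P - Γ.gn P' := by
      rw [sub_smul, h2, h4]
      abel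
    refine ⟨M, M', h1, h3, h5, hm _ ?_⟩
    rw [h5]
    exact hΦ x y P P' hc
  refine ⟨fun e => CGd_z ^ m e, ⟨fun e _ => CGd_HU _, fun x y P P' hc heq => ?_, fun x y P P' hc hne => ?_⟩⟩
  · obtain ⟨M, M', h1, h2, h3, h4⟩ := cyc x y P P' hc
    rw [heq, sub_self] at h3
    have h5 : M - M' = 0 := by
      rcases h4 with h4 | h4 | h4
      · exact h4
      · rw [h4, one_smul] at h3
        exact absurd h3 hg
      · rw [h4, neg_smul, one_smul, neg_eq_zero] at h3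
        exact absurd h3 hg
    rw [h1, h2, sub_eq_zero.1 h5]
  · obtain ⟨M, M', h1, h2, h3, h4⟩ := cyc x y P P' hc
    rw [h1, h2, ← zpow_neg, ← zpow_add, ← sub_eq_add_neg]
    rcases h4 with h4 | h4 | h4
    · rw [h4, zero_smul] at h3
      exact absurd (sub_eq_zero.1 h3.symm) hne
    · rw [h4, zpow_one]
      rfl
    · rw [h4, zpow_neg, zpow_one]
      rfl

end Pool.Agent.FRM
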