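import Pool.Agent.FRM.Defs2

/-!
# FRM/FUf: finite facts on the fundamental elements

The exponents `(x₁, …, x₅)` (without the sign) are encoded by the integer `x₁ + 16 x₂ + 256 x₃ + 4096 x₄ + 65536 x₅`; finite checks with
integers.  For `a, b, a - b ∈ FU` two coordinates have a nonzero minor, which bounds the coefficients of the elements of `FU` in the
lattice generated by `a`, `b` by `2`.
-/

set_option autoImplicit false

noncomputable section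

open scoped Classical

namespace Pool.Agent.FRM

open GG

private def FUf_L : List XG :=
  [(-1, 0, 0, -1, 1, 0), (-1, 0, 0, 0, 0, 0), (-1, 0, 0, 0, 1, 0), (-1, 0, 1, 0, 0, 1), (-1, 1, 0, 0, 0, 0),
   (-1, 1, 1, -1, 0, 0), (0, -1, -1, 0, 1, 1), (0, -1, 0, 0, 0, 0), (0, -1, 0, 0, 1, 1), (0, -1, 0, 1, 0, 1),
   (0, 0, -1, 0, 0, 0), (0, 0, -1, 0, 1, 1), (0, 0, -1, 1, 0, 0), (0, 0, 0, -1, 0, 0), (0, 0, 0, -1, 1, 0),
   (0, 0, 0, 1, -1, 0), (0, 0, 0, 1, 0, 0), (0, 0, 1, -1, 0, 0), (0, 0, 1, 0, -1, 1), (0, 0, 1, 0, 0, 0),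
   (0, 1, 0, -1, 0, 1), (0, 1, 0, 0, -1, 1), (0, 1, 0, 0, 0, 0), (0, 1, 1, 0, -1, 1), (1, -1, -1, 1, 0, 0),
   (1, -1, 0, 0, 0, 0), (1, 0, -1, 0, 0, 1), (1, 0, 0, 0, -1, 0), (1, 0, 0, 0, 0, 0), (1, 0, 0, 1, -1, 0)]

private theorem FUf_mem (x : XG) : x ∈ FU ↔ x ∈ FUf_L := by
  simp only [FU, FUf_L, Finset.mem_insert, Finset.mem_singleton, List.mem_cons, List.not_mem_nil, or_false]

/-- the code of the exponents -/
private def FUf_e (x : XG) : ℤ := x.1 + 16 * x.2.1 + 256 * x.2.2.1 + 4096 * x.2.2.2.1 + 65536 * x.2.2.2.2.1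

private def FUf_E : List ℤ :=
  [-65535, -65520, -65280, -65264, -61440, -61439, -4096, -4080, -3840, -3825, -256, -255, -16, -15, -1, 1, 15, 16,
   255, 256, 3825, 3840, 4080, 4096, 61439, 61440, 65264, 65280, 65520, 65535]

/-- the coordinates -/
private def FUf_c (x : XG) : Fin 5 → ℤ
  | 0 => x.1
  | 1 => x.2.1
  | 2 => x.2.2.1
  | 3 => x.2.2.2.1
  | 4 => x.2.2.2.2.1

private theorem FUf_e_lin (m n : ℤ) (a b : XG) : FUf_e (m • a + n • b) = m * FUf_e a + n * FUf_e b := by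
  simp only [FUf_e, Prod.fst_add, Prod.snd_add, Prod.smul_fst, Prod.smul_snd, smul_eq_mul]
  ring

private theorem FUf_e_sub (a b : XG) : FUf_e (a - b) = FUf_e a - FUf_e b := by
  simp only [FUf_e, Prod.fst_sub, Prod.snd_sub]
  ring

private theorem FUf_c_lin (m n : ℤ) (a b : XG) (i : Fin 5) :
    FUf_c (m • a + n • b) i = m * FUf_c a i + n * FUf_c b i := by
  fin_cases i <;> simp [FUf_c]

private theorem FUf_e0 : FUf_e 0 = 0 := rfl

private theorem FUf_c0 (i : Fin 5) : FUf_c 0 i = 0 := by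
  fin_cases i <;> rfl

private theorem FUf_1 : ∀ x ∈ FUf_L, FUf_e x ∈ FUf_E := by
  decide +kernel

private theorem FUf_2 : ∀ x ∈ FUf_L, ∀ i : Fin 5, -1 ≤ FUf_c x i ∧ FUf_c x i ≤ 1 := by
  decide +kernel

private theorem FUf_3 : ∀ x ∈ FUf_L, ∃ i : Fin 5, FUf_c x i ≠ 0 := by
  decide +kernel

private theorem FUf_4 : ∀ x ∈ FUf_L, -x ∈ FUf_L := by
  decide +kernel

private theorem FUf_5 : ∀ a ∈ FUf_L, ∀ b ∈ FUf_L, FUf_e a - FUf_e b ∈ FUf_E →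
    ∃ i j : Fin 5, FUf_c a i * FUf_c b j - FUf_c a j * FUf_c b i ≠ 0 := by
  decide +kernel

private theorem FUf_6 : ∀ u ∈ FUf_E, ∀ v ∈ FUf_E, u - v ∈ FUf_E → ∀ m ∈ [(-2 : ℤ), -1, 0, 1, 2],
    ∀ n ∈ [(-2 : ℤ), -1, 0, 1, 2], m * u + n * v ∈ FUf_E →
    (m = 1 ∧ n = 0) ∨ (m = -1 ∧ n = 0) ∨ (m = 0 ∧ n = 1) ∨ (m = 0 ∧ n = -1) ∨ (m = 1 ∧ n = -1) ∨
      (m = -1 ∧ n = 1) := by
  decide +kernel

private theorem FUf_7 : ∀ u ∈ FUf_E, ∀ v ∈ FUf_E, u - v ∈ FUf_E → ∀ w ∈ FUf_E, (w - u = 0 ∨ w - u ∈ FUf_E) →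
    (w - v = 0 ∨ w - v ∈ FUf_E) → w = u ∨ w = v := by
  decide +kernel

private theorem FUf_8 : ∀ a ∈ FUf_L, ∀ b ∈ FUf_L, FUf_e a = FUf_e b → a = b := by
  decide +kernel

private theorem FUf_mem2 {m : ℤ} (h1 : -2 ≤ m) (h2 : m ≤ 2) : m ∈ [(-2 : ℤ), -1, 0, 1, 2] := by
  simp only [List.mem_cons, List.not_mem_nil, or_false]
  omega

private theorem FUf_zero : (0 : XG) ∉ FU := by
  intro h
  obtain ⟨i, hi⟩ := FUf_3 0 ((FUf_mem 0).1 h)
  exact hi (FUf_c0 i)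

private theorem FUf_mult {g : XG} (hg : g ∈ FU) {m : ℤ} (hm : m • g = 0 ∨ m • g ∈ FU) :
    m = 0 ∨ m = 1 ∨ m = -1 := by
  rw [FUf_mem] at hg
  obtain ⟨i, hi⟩ := FUf_3 g hg
  have h1 := FUf_2 g hg i
  have h2 : FUf_c (m • g) i = m * FUf_c g i := by
    have := FUf_c_lin m 0 g 0 i
    rw [zero_smul, add_zero, zero_mul, add_zero] at this
    exact this
  have h3 : -1 ≤ FUf_c (m • g) i ∧ FUf_c (m • g) i ≤ 1 := by
    rcases hm with hm | hm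
    · rw [hm, FUf_c0]
      omega
    · exact FUf_2 _ ((FUf_mem _).1 hm) i
  rw [h2] at h3
  have h4 : FUf_c g i = 1 ∨ FUf_c g i = -1 := by omega
  rcases h4 with h4 | h4
  · rw [h4] at h3
    omega
  · rw [h4] at h3
    omega

/-- the bound by a minor -/
private theorem FUf_bd {m a b c d x y : ℤ} {n : ℤ} (hD : a * d - c * b ≠ 0) (h1 : m * a + n * b = x)
    (h2 : m * c + n * d = y) (hx1 : -1 ≤ x) (hx2 : x ≤ 1) (hy1 : -1 ≤ y) (hy2 : y ≤ 1)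
    (hb1 : -1 ≤ b) (hb2 : b ≤ 1) (hd1 : -1 ≤ d) (hd2 : d ≤ 1) : -2 ≤ m ∧ m ≤ 2 := by
  have h3 : m * (a * d - c * b) = x * d - y * b := by
    rw [← h1, ← h2]
    ring
  have h4 : |x * d - y * b| ≤ 2 := by
    have e1 : |x * d| ≤ 1 := by
      rw [abs_mul]
      have := mul_le_mul (abs_le.2 ⟨hx1, hx2⟩) (abs_le.2 ⟨hd1, hd2⟩) (abs_nonneg d) zero_le_one
      linarith
    have e2 : |y * b| ≤ 1 := by
      rw [abs_mul]
      have := mul_le_mul (abs_le.2 ⟨hy1, hy2⟩) (abs_le.2 ⟨hb1, hb2⟩) (abs_nonneg b) zero_le_one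
      linarith
    have e3 := abs_sub (x * d) (y * b)
    linarith
  rw [← h3, abs_mul] at h4
  have h5 : 1 ≤ |a * d - c * b| := Int.one_le_abs hD
  have h6 : |m| ≤ 2 := by
    have := mul_le_mul_of_nonneg_left h5 (abs_nonneg m)
    linarith
  exact abs_le.1 h6

private theorem FUf_minor {a b : XG} (ha : a ∈ FU) (hb : b ∈ FU) (hab : a - b ∈ FU) :
    ∃ i j : Fin 5, FUf_c a i * FUf_c b j - FUf_c a j * FUf_c b i ≠ 0 := by
  rw [FUf_mem] at ha hb hab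
  have h1 := FUf_1 _ hab
  rw [FUf_e_sub] at h1
  exact FUf_5 a ha b hb h1

theorem fund_FU : Fund (FU : Set XG) where
  symm a ha := by
    rw [Finset.mem_coe, FUf_mem] at ha ⊢
    exact FUf_4 a ha
  zero h := FUf_zero (Finset.mem_coe.1 h)
  tri g hg h hh hgh hz := by
    rw [Finset.mem_coe] at hg hh hgh
    obtain ⟨m, rfl⟩ := AddSubgroup.mem_zmultiples_iff.1 hz
    rcases FUf_mult hg (Or.inr hh) with h1 | h1 | h1
    · rw [h1, zero_smul] at hh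
      exact FUf_zero hh
    · rw [h1, one_smul, sub_self] at hgh
      exact FUf_zero hgh
    · have h2 : m • g - g = (-2 : ℤ) • g := by
        rw [h1, neg_smul, neg_smul, one_smul, two_smul]
        abel
      rw [h2] at hgh
      rcases FUf_mult hg (Or.inr hgh) with h3 | h3 | h3 <;> omega
  k4 a ha b hb hab c hc hca hcb := by
    rw [Finset.mem_coe] at ha hb hab
    rcases hc with hc | hc
    · exact Or.inl hc
    rw [Finset.mem_coe] at hc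
    right
    have h1 : ∀ x : XG, x = 0 ∨ x ∈ (FU : Set XG) → FUf_e x = 0 ∨ FUf_e x ∈ FUf_E := by
      rintro x (h | h)
      · left
        rw [h]
        exact FUf_e0
      · right
        exact FUf_1 x ((FUf_mem x).1 (Finset.mem_coe.1 h))
    have h2 := h1 _ hca
    have h3 := h1 _ hcb
    rw [FUf_mem] at ha hb hab hc
    have h4 := FUf_1 _ hab
    rw [FUf_e_sub] at h2 h3 h4
    rcases FUf_7 _ (FUf_1 a ha) _ (FUf_1 b hb) h4 _ (FUf_1 c hc) h2 h3 with h5 | h5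
    · exact Or.inl (FUf_8 c hc a ha h5)
    · exact Or.inr (FUf_8 c hc b hb h5)

theorem FU_mult {g : XG} (hg : g ∈ FU) {m : ℤ} (hm : m • g = 0 ∨ m • g ∈ FU) : m = 0 ∨ m = 1 ∨ m = -1 :=
  FUf_mult hg hm

theorem FU_ind {a b : XG} (ha : a ∈ FU) (hb : b ∈ FU) (hab : a - b ∈ FU) {m n : ℤ} (h : m • a + n • b = 0) :
    m = 0 ∧ n = 0 := by
  obtain ⟨i, j, hD⟩ := FUf_minor ha hb hab
  have h1 : ∀ k, m * FUf_c a k + n * FUf_c b k = 0 := by
    intro k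
    rw [← FUf_c_lin, h, FUf_c0]
  have h2 := h1 i
  have h3 := h1 j
  constructor
  · have h4 : m * (FUf_c a i * FUf_c b j - FUf_c a j * FUf_c b i) = 0 := by
      linear_combination FUf_c b j * h2 - FUf_c b i * h3
    exact (mul_eq_zero.1 h4).resolve_right hD
  · have h4 : n * (FUf_c a i * FUf_c b j - FUf_c a j * FUf_c b i) = 0 := by
      linear_combination FUf_c a i * h3 - FUf_c a j * h2
    exact (mul_eq_zero.1 h4).resolve_right hD

theorem FU_lat {a b : XG} (ha : a ∈ FU) (hb : b ∈ FU) (hab : a - b ∈ FU) {m n : ℤ} (h : m • a + n • b ∈ FU) :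
    (m = 1 ∧ n = 0) ∨ (m = -1 ∧ n = 0) ∨ (m = 0 ∧ n = 1) ∨ (m = 0 ∧ n = -1) ∨ (m = 1 ∧ n = -1) ∨ (m = -1 ∧ n = 1) := by
  obtain ⟨i, j, hD⟩ := FUf_minor ha hb hab
  rw [FUf_mem] at ha hb hab h
  have h1 := FUf_2 _ h i
  have h2 := FUf_2 _ h j
  have hm : -2 ≤ m ∧ m ≤ 2 :=
    FUf_bd hD (FUf_c_lin m n a b i).symm (FUf_c_lin m n a b j).symm h1.1 h1.2 h2.1 h2.2
      (FUf_2 b hb i).1 (FUf_2 b hb i).2 (FUf_2 b hb j).1 (FUf_2 b hb j).2
  have hD' : FUf_c b i * FUf_c a j - FUf_c b j * FUf_c a i ≠ 0 := by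
    intro h0
    apply hD
    linear_combination -h0
  have hn : -2 ≤ n ∧ n ≤ 2 :=
    FUf_bd hD' ((add_comm _ _).trans (FUf_c_lin m n a b i).symm) ((add_comm _ _).trans (FUf_c_lin m n a b j).symm)
      h1.1 h1.2 h2.1 h2.2 (FUf_2 a ha i).1 (FUf_2 a ha i).2 (FUf_2 a ha j).1 (FUf_2 a ha j).2
  have h3 := FUf_1 _ hab
  have h4 := FUf_1 _ h
  rw [FUf_e_sub] at h3
  rw [FUf_e_lin] at h4
  exact FUf_6 _ (FUf_1 a ha) _ (FUf_1 b hb) h3 m (FUf_mem2 hm.1 hm.2) n (FUf_mem2 hn.1 hn.2) h4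

end Pool.Agent.FRM
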