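import Pool.Agent.FRM.RGd
import Pool.Agent.FRM.CGd
import Pool.Agent.FRM.FUf
import Pool.Agent.FRM.Tr1
import Pool.Agent.FRM.Tr2
import Pool.Agent.FRM.Tr3

/-!
# FRM/C2G: 2-connected graphs with fundamental cycle gains have good connections

PROOF PLAN.  `bal_or`: balanced: `bal_good`.  Otherwise `cyc_or_theta` (`fund_FU`): cyclic: `cyc_good` (`FU_mult`).  Otherwise `theta_all`: `a, b, a - b ∈ FU` and potentials `p` with `g e + p (s e) - p (t e) ∈ closure {a, b}`, `= m_e • a + n_e • b` (`AddSubgroup.mem_closure_pair`).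
`Γ' : GG V E Lt` with the same edges and ends and gains `(m_e + n_e, n_e)`.  For a walk `l : x → y`: `gn l + p x - p y = M • a + N • b`, `Γ'.gn l = (M + N, N)`.  For a cycle `gn P - gn P' = (M - M') • a + (N - N') • b`, so by `FU_lat`, `FU_ind` `Γ'.Phi hx`, and `gn P = gn P' ↔ Γ'.gn P = Γ'.gn P'`.
`Γ'.C2` (same walks).  Not `Cyc`: the theta has gains `a ↦ (1, 0)`, `b ↦ (1, 1)` (`hx_not_cyc`; use `gn_pot` for the three branches: differences are in `zmultiples g`).  `rich_good`, and a good connection of `Γ'` is good for `Γ`.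
-/

set_option autoImplicit false

noncomputable section

open scoped Classical

namespace Pool.Agent.FRM

open GG

variable {V E : Type} {Γ : GG V E XG}

/-- the same graph with other gains -/
private def C2G_g (Γ : GG V E XG) (h : E → Lt) : GG V E Lt := ⟨Γ.A, Γ.s, Γ.t, h⟩

private theorem C2G_wk (h : E → Lt) {x y : V} {l : List (Da E)} : (C2G_g Γ h).Wk x l y ↔ Γ.Wk x l y := by
  induction l generalizing x with
  | nil => exact Iff.rfl
  | cons d l ih =>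
    constructor
    · rintro ⟨h1, h2, h3⟩
      exact ⟨h1, h2, ih.1 h3⟩
    · rintro ⟨h1, h2, h3⟩
      exact ⟨h1, h2, ih.2 h3⟩

private theorem C2G_cy (h : E → Lt) {x y : V} {P P' : List (Da E)} :
    (C2G_g Γ h).Cy x y P P' ↔ Γ.Cy x y P P' :=
  ⟨fun c => ⟨c.ne, ⟨(C2G_wk h).1 c.p.1, c.p.2⟩, ⟨(C2G_wk h).1 c.p'.1, c.p'.2⟩, c.dj⟩,
    fun c => ⟨c.ne, ⟨(C2G_wk h).2 c.p.1, c.p.2⟩, ⟨(C2G_wk h).2 c.p'.1, c.p'.2⟩, c.dj⟩⟩

private theorem C2G_C2 (h : E → Lt) (hΓ : Γ.C2) : (C2G_g Γ h).C2 where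
  ne := hΓ.ne
  lf := hΓ.lf
  con := fun x hx y hy => by
    obtain ⟨l, hl⟩ := hΓ.con x hx y hy
    exact ⟨l, (C2G_wk h).2 hl⟩
  cut := fun z x hx y hy h1 h2 => by
    obtain ⟨l, hl, hz⟩ := hΓ.cut z x hx y hy h1 h2
    exact ⟨l, (C2G_wk h).2 hl, hz⟩

/-- the homomorphism from the root lattice -/
private def C2G_f (a b : XG) (q : Lt) : XG := (q.1 - q.2) • a + q.2 • b

private theorem C2G_f_add (a b : XG) (q r : Lt) : C2G_f a b (q + r) = C2G_f a b q + C2G_f a b r := by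
  show (q.1 + r.1 - (q.2 + r.2)) • a + (q.2 + r.2) • b =
    (q.1 - q.2) • a + q.2 • b + ((r.1 - r.2) • a + r.2 • b)
  simp only [sub_smul, add_smul]
  abel

private theorem C2G_f_zero (a b : XG) : C2G_f a b 0 = 0 := by
  show ((0 : ℤ) - 0) • a + (0 : ℤ) • b = 0
  rw [sub_zero, zero_smul, zero_smul, add_zero]

private theorem C2G_f_neg (a b : XG) (q : Lt) : C2G_f a b (-q) = -C2G_f a b q := by
  have h := C2G_f_add a b (-q) q
  rw [neg_add_cancel, C2G_f_zero] at h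
  exact eq_neg_of_add_eq_zero_left h.symm

private theorem C2G_f_sub (a b : XG) (q r : Lt) : C2G_f a b (q - r) = C2G_f a b q - C2G_f a b r := by
  rw [sub_eq_add_neg, C2G_f_add, C2G_f_neg, sub_eq_add_neg]

private theorem C2G_inj {a b : XG} (ha : a ∈ FU) (hb : b ∈ FU) (hab : a - b ∈ FU) {q : Lt}
    (h : C2G_f a b q = 0) : q = 0 := by
  obtain ⟨h1, h2⟩ := FU_ind ha hb hab h
  have h3 : q.1 = 0 := by rw [h2, sub_zero] at h1; exact h1
  exact Prod.ext h3 h2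

private theorem C2G_mem {a b : XG} (ha : a ∈ FU) (hb : b ∈ FU) (hab : a - b ∈ FU) {q : Lt}
    (h : C2G_f a b q ∈ FU) : q ∈ hx := by
  obtain ⟨u, v⟩ := q
  have h0 : (u - v) • a + v • b ∈ FU := h
  unfold hx
  simp only [Finset.mem_insert, Finset.mem_singleton, Prod.mk.injEq]
  rcases FU_lat ha hb hab h0 with ⟨h1, h2⟩ | ⟨h1, h2⟩ | ⟨h1, h2⟩ | ⟨h1, h2⟩ | ⟨h1, h2⟩ | ⟨h1, h2⟩ <;> omega

/-- gains of walks after switching -/
private theorem C2G_gn {a b : XG} (h : E → Lt) (p : V → XG)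
    (hp : ∀ e ∈ Γ.A, C2G_f a b (h e) = Γ.g e + p (Γ.s e) - p (Γ.t e)) {x y : V} {l : List (Da E)}
    (hl : Γ.Wk x l y) : C2G_f a b ((C2G_g Γ h).gn l) = Γ.gn l + p x - p y := by
  induction l generalizing x with
  | nil =>
    have h' : x = y := hl
    rw [gn_nil, gn_nil, h', C2G_f_zero, zero_add, sub_self]
  | cons d l ih =>
    obtain ⟨h1, h2, h3⟩ := hl
    have h4 := ih h3
    have h5 : C2G_f a b ((C2G_g Γ h).dg d) = Γ.dg d + p x - p (Γ.tgt d) := by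
      rw [← h2]
      obtain ⟨e, i⟩ := d
      have h6 := hp e h1
      cases i with
      | true => exact h6
      | false =>
        have h7 : (C2G_g Γ h).dg (e, false) = -h e := rfl
        have h8 : Γ.dg (e, false) = -Γ.g e := rfl
        have h9 : Γ.src (e, false) = Γ.t e := rfl
        have h10 : Γ.tgt (e, false) = Γ.s e := rfl
        rw [h7, h8, h9, h10, C2G_f_neg, h6]
        abel
    rw [gn_cons, gn_cons, C2G_f_add, h4, h5]
    abel

theorem c2_good (hΓ : Γ.C2) (hΦ : Γ.Phi (FU : Set XG)) : ∃ τ : E → Hqˣ, Good Γ τ := by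
  rcases bal_or hΓ with h | ⟨x, y, P, P', h, hne⟩
  · exact bal_good h
  rcases cyc_or_theta hΓ fund_FU hΦ h hne with ⟨g, hg, h1, -⟩ | ⟨u, w, X, Y, Z, hT, h₁, h₂, h₃⟩
  · refine cyc_good hΦ ?_ ?_ h1
    · rintro rfl
      exact fund_FU.zero hg
    · intro m hm
      exact FU_mult (Finset.mem_coe.1 hg) (by simpa only [Finset.mem_coe] using hm)
  obtain ⟨ha, hb, hc, -, p, hp⟩ := theta_all hΓ fund_FU hΦ hT h₁ h₂ h₃
  obtain ⟨a, hadef⟩ : ∃ a, a = Γ.gn Y - Γ.gn X := ⟨_, rfl⟩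
  obtain ⟨b, hbdef⟩ : ∃ b, b = Γ.gn Z - Γ.gn X := ⟨_, rfl⟩
  have hab : a - b ∈ FU := by
    have e : a - b = Γ.gn Y - Γ.gn Z := by rw [hadef, hbdef]; abel
    rw [e]
    exact Finset.mem_coe.1 hc
  rw [← hadef, ← hbdef] at hp
  rw [← hadef] at ha
  rw [← hbdef] at hb
  rw [Finset.mem_coe] at ha hb
  -- the gains in the root lattice
  have hex : ∀ e : E, ∃ q : Lt, e ∈ Γ.A → C2G_f a b q = Γ.g e + p (Γ.s e) - p (Γ.t e) := by
    intro e
    by_cases he : e ∈ Γ.A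
    · obtain ⟨m, n, hmn⟩ := AddSubgroup.mem_closure_pair.1 (hp e he)
      refine ⟨(m + n, n), fun _ => ?_⟩
      rw [← hmn]
      show (m + n - n) • a + n • b = m • a + n • b
      rw [add_sub_cancel_right]
    · exact ⟨0, fun h => absurd h he⟩
  choose q hq using hex
  have hgn := fun {x y : V} {l : List (Da E)} (hl : Γ.Wk x l y) => C2G_gn (Γ := Γ) (a := a) (b := b) q p hq hl
  have hdif : ∀ {x y : V} {l l' : List (Da E)}, Γ.Wk x l y → Γ.Wk x l' y →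
      C2G_f a b ((C2G_g Γ q).gn l - (C2G_g Γ q).gn l') = Γ.gn l - Γ.gn l' := by
    intro x y l l' hl hl'
    rw [C2G_f_sub, hgn hl, hgn hl']
    abel
  have hΦ' : (C2G_g Γ q).Phi (hx : Set Lt) := by
    intro x y P P' hcy
    have hcy' := (C2G_cy q).1 hcy
    rcases hΦ x y P P' hcy' with h0 | h0
    · left
      rw [← hdif hcy'.p.1 hcy'.p'.1] at h0
      exact C2G_inj ha hb hab h0
    · right
      rw [← hdif hcy'.p.1 hcy'.p'.1] at h0
      exact Finset.mem_coe.2 (C2G_mem ha hb hab (Finset.mem_coe.1 h0))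
  have hY : (C2G_g Γ q).gn Y - (C2G_g Γ q).gn X = (1, 0) := by
    rw [← sub_eq_zero]
    refine C2G_inj ha hb hab ?_
    rw [C2G_f_sub, hdif hT.xy.p'.1 hT.xy.p.1, ← hadef]
    show a - ((1 - 0 : ℤ) • a + (0 : ℤ) • b) = 0
    rw [sub_zero, one_smul, zero_smul, add_zero, sub_self]
  have hZ : (C2G_g Γ q).gn Z - (C2G_g Γ q).gn X = (1, 1) := by
    rw [← sub_eq_zero]
    refine C2G_inj ha hb hab ?_
    rw [C2G_f_sub, hdif hT.xz.p'.1 hT.xz.p.1, ← hbdef]
    show b - ((1 - 1 : ℤ) • a + (1 : ℤ) • b) = 0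
    rw [sub_self, one_smul, zero_smul, zero_add, sub_self]
  have hnc : ¬ (C2G_g Γ q).Cyc := by
    rintro ⟨g, p', hp'⟩
    have hX1 := gn_pot (AddSubgroup.zmultiples g) p' ((C2G_wk q).2 hT.xy.p.1) (fun d hd => hp' d.1 (by
      exact (eds_sub hT.xy.p.1) ((mem_eds d.1 X).2 ⟨d, hd, rfl⟩)))
    have hY1 := gn_pot (AddSubgroup.zmultiples g) p' ((C2G_wk q).2 hT.xy.p'.1) (fun d hd => hp' d.1 (by
      exact (eds_sub hT.xy.p'.1) ((mem_eds d.1 Y).2 ⟨d, hd, rfl⟩)))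
    have hZ1 := gn_pot (AddSubgroup.zmultiples g) p' ((C2G_wk q).2 hT.xz.p'.1) (fun d hd => hp' d.1 (by
      exact (eds_sub hT.xz.p'.1) ((mem_eds d.1 Z).2 ⟨d, hd, rfl⟩)))
    have hY2 := AddSubgroup.sub_mem _ hY1 hX1
    have hZ2 := AddSubgroup.sub_mem _ hZ1 hX1
    have e1 : (C2G_g Γ q).gn Y + p' u - p' w - ((C2G_g Γ q).gn X + p' u - p' w) = (1, 0) := by
      rw [← hY]
      abel
    have e2 : (C2G_g Γ q).gn Z + p' u - p' w - ((C2G_g Γ q).gn X + p' u - p' w) = (1, 1) := by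
      rw [← hZ]
      abel
    rw [e1] at hY2
    rw [e2] at hZ2
    exact hx_not_cyc (by decide) (by decide) (by decide) hY2 hZ2
  obtain ⟨τ, hτ⟩ := rich_good (C2G_C2 q hΓ) hΦ' hnc
  refine ⟨τ, hτ.hu, ?_, ?_⟩
  · intro x y P P' hcy hgg
    refine hτ.bal x y P P' ((C2G_cy q).2 hcy) ?_
    have h0 := hdif hcy.p.1 hcy.p'.1
    rw [hgg, sub_self] at h0
    exact sub_eq_zero.1 (C2G_inj ha hb hab h0)
  · intro x y P P' hcy hgg
    refine hτ.unb x y P P' ((C2G_cy q).2 hcy) ?_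
    intro h1
    have h0 := hdif hcy.p.1 hcy.p'.1
    rw [h1, sub_self, C2G_f_zero] at h0
    exact hgg (sub_eq_zero.1 h0.symm)

end Pool.Agent.FRM
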