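import Pool.Agent.FRM.Tr3
import Pool.Agent.FRM.Fdh

/-!
# FRM/Cb3: a cochain which is a coboundary on a rich subgraph

PROOF PLAN.  `cob_ext`: `ear_induction` from `B` for `F B' := (Γ.on B').Sp {0, a, b} ∧ Cob ω (Γ.on B') v`.  Step: ear `l : c → d` of `B'`: `ear_gain` gives a path `R` of `B'` with
`gn R = gn l`, so `tv l = tv R` (`ear_cy`, `Zc`), and `tv R` is given by the potential (`tv_cob`): `cob_ear`, `sp_ear`.
`theta_cob`: solve `tv X = c₀ - ch (gn X) * c₁`, `tv Y = c₀ - ch (gn Y) * c₁` (`ch (gn X) ≠ ch (gn Y)`, `ch_ne`); `Dth = 0` gives the same equation for `Z`; start with `c u = c₀`, `c w = c₁`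
and extend along the three branches with `ext_cob` (their inner vertices are disjoint).
`dth_ne`: otherwise `theta_cob` and `cob_ext` (from the theta, with `theta_sp` and `theta_all`) would give `Cob ω Γ v`.
`dim_le`: `μ = Dth v / Dth w`; `Dth (v - μ w) = 0`.
-/

set_option autoImplicit false

noncomputable section

open scoped Classical

namespace Pool.Agent.FRM

open GG

variable {V E : Type} {k : Type} [Field k] {ω : k} {Γ : GG V E Lt}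


theorem cob_ext (hω : ω ^ 2 + ω + 1 = 0) (hΓ : Γ.C2) (hΦ : Γ.Phi (hx : Set Lt)) {B : Finset E} (hB : B ⊆ Γ.A)
    (h2 : (Γ.on B).C2) {a b : Lt} (ha : a ∈ hx) (hb : b ∈ hx) (hab : a - b ∈ hx) (hS : (Γ.on B).Sp {0, a, b})
    {v : E → k} (hv : Zc ω Γ v) (hc : Cob ω (Γ.on B) v) : Cob ω Γ v := by
  have main := ear_induction hΓ hB h2 (fun B => (Γ.on B).Sp {0, a, b} ∧ Cob ω (Γ.on B) v) ⟨hS, hc⟩ (by
    intro B' c d l _ hB' h2' hFB he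
    obtain ⟨hSp, c₀, hc₀⟩ := hFB
    refine ⟨sp_ear hB' h2' he hSp, ?_⟩
    obtain ⟨R, hR, hgR⟩ := ear_gain fund_hx hΦ hB' (Finset.mem_coe.2 ha) (Finset.mem_coe.2 hb)
      (Finset.mem_coe.2 hab) hSp he
    obtain ⟨hR1, hR2⟩ := (pt_on hB').1 hR
    have h5 := tv_cob hω v c₀ hR1.1 (fun d hd => hc₀ d.1 (hR2 d hd))
    have h6 : tv ω Γ v l = tv ω Γ v R := hv c d l R (ear_cy hB' he hR) hgR.symm
    rw [hgR] at h5
    exact cob_ear hω hB' he v c₀ hc₀ (h6.trans h5))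
  exact main.2

private theorem Cb3_ends {x y : V} {l : List (Da E)} (h : Γ.Wk x l y) {d : Da E} (hd : d ∈ l) :
    Γ.s d.1 ∈ Γ.vs x l ∧ Γ.t d.1 ∈ Γ.vs x l := by
  obtain ⟨_, h1, h2⟩ := wk_mem h d hd
  obtain ⟨e, b⟩ := d
  cases b
  · exact ⟨h2, h1⟩
  · exact ⟨h1, h2⟩

private theorem Cb3_base (hω : ω ^ 2 + ω + 1 = 0) {u w : V} {X Y Z : List (Da E)} (h : Γ.Th u w X Y Z) (v : E → k)
    (c₀ c₁ : k) (hX : tv ω Γ v X = c₀ - ch ω (Γ.gn X) * c₁) (hY : tv ω Γ v Y = c₀ - ch ω (Γ.gn Y) * c₁)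
    (hZ : tv ω Γ v Z = c₀ - ch ω (Γ.gn Z) * c₁) : Cob ω (Γ.on (eds X ∪ eds Y ∪ eds Z)) v := by
  have hne : u ≠ w := h.xy.ne
  let p₀ : V → k := fun z => if z = w then c₁ else c₀
  have p₀u : p₀ u = c₀ := if_neg hne
  have p₀w : p₀ w = c₁ := if_pos rfl
  obtain ⟨p₁, h1a, h1u, h1w, h1e⟩ := ext_cob hω v p₀ h.xy.p hne (by rw [p₀u, p₀w, hX])
  obtain ⟨p₂, h2a, h2u, h2w, h2e⟩ := ext_cob hω v p₁ h.xy.p' hne (by rw [h1u, h1w, p₀u, p₀w, hY])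
  obtain ⟨p₃, h3a, h3u, h3w, h3e⟩ := ext_cob hω v p₂ h.xz.p' hne (by rw [h2u, h2w, h1u, h1w, p₀u, p₀w, hZ])
  have e21 : ∀ z ∈ Γ.vs u X, p₂ z = p₁ z := by
    intro z hz
    by_cases hz' : z ∈ Γ.vs u Y
    · rcases h.xy.dj z hz hz' with rfl | rfl
      · exact h2u
      · exact h2w
    · exact h2a z hz'
  have e32 : ∀ z ∈ Γ.vs u X, p₃ z = p₂ z := by
    intro z hz
    by_cases hz' : z ∈ Γ.vs u Z
    · rcases h.xz.dj z hz hz' with rfl | rfl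
      · exact h3u
      · exact h3w
    · exact h3a z hz'
  have e32' : ∀ z ∈ Γ.vs u Y, p₃ z = p₂ z := by
    intro z hz
    by_cases hz' : z ∈ Γ.vs u Z
    · rcases h.yz.dj z hz hz' with rfl | rfl
      · exact h3u
      · exact h3w
    · exact h3a z hz'
  refine ⟨p₃, fun e he => ?_⟩
  have he' : e ∈ eds X ∪ eds Y ∪ eds Z := he
  show v e = p₃ (Γ.s e) - ch ω (Γ.g e) * p₃ (Γ.t e)
  rw [Finset.mem_union, Finset.mem_union] at he'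
  rcases he' with (he' | he') | he'
  · obtain ⟨d, hd, rfl⟩ := (mem_eds e X).1 he'
    obtain ⟨hs, ht⟩ := Cb3_ends h.xy.p.1 hd
    rw [e32 _ hs, e32 _ ht, e21 _ hs, e21 _ ht]
    exact h1e d hd
  · obtain ⟨d, hd, rfl⟩ := (mem_eds e Y).1 he'
    obtain ⟨hs, ht⟩ := Cb3_ends h.xy.p'.1 hd
    rw [e32' _ hs, e32' _ ht]
    exact h2e d hd
  · obtain ⟨d, hd, rfl⟩ := (mem_eds e Z).1 he'
    exact h3e d hd

theorem theta_cob (hω : ω ^ 2 + ω + 1 = 0) (h3 : (3 : k) ≠ 0) {u w : V} {X Y Z : List (Da E)} (h : Γ.Th u w X Y Z)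
    (h₁ : Γ.gn X - Γ.gn Y ∈ hx) (v : E → k) (hD : Dth ω Γ v X Y Z = 0) :
    Cob ω (Γ.on (eds X ∪ eds Y ∪ eds Z)) v := by
  have hne : ch ω (Γ.gn X) ≠ ch ω (Γ.gn Y) := ch_ne hω h3 h₁
  have hne' : ch ω (Γ.gn Y) - ch ω (Γ.gn X) ≠ 0 := fun h0 => hne (sub_eq_zero.1 h0).symm
  unfold Dth at hD
  set c₁ : k := (tv ω Γ v X - tv ω Γ v Y) / (ch ω (Γ.gn Y) - ch ω (Γ.gn X)) with hc₁
  have hm : (ch ω (Γ.gn Y) - ch ω (Γ.gn X)) * c₁ = tv ω Γ v X - tv ω Γ v Y := by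
    rw [hc₁]
    field_simp
  refine Cb3_base hω h v (tv ω Γ v X + ch ω (Γ.gn X) * c₁) c₁ (by ring) ?_ ?_
  · linear_combination hm
  · refine mul_left_cancel₀ hne' ?_
    linear_combination hD - (ch ω (Γ.gn X) - ch ω (Γ.gn Z)) * hm

theorem dth_of_cob (hω : ω ^ 2 + ω + 1 = 0) {u w : V} {X Y Z : List (Da E)} (h : Γ.Th u w X Y Z) (v : E → k)
    (hc : Cob ω Γ v) : Dth ω Γ v X Y Z = 0 := by
  obtain ⟨c, hc⟩ := hc
  unfold Dth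
  rw [tv_cob hω v c h.xy.p.1 fun d hd => hc d.1 (wk_mem h.xy.p.1 d hd).1,
    tv_cob hω v c h.xy.p'.1 fun d hd => hc d.1 (wk_mem h.xy.p'.1 d hd).1,
    tv_cob hω v c h.xz.p'.1 fun d hd => hc d.1 (wk_mem h.xz.p'.1 d hd).1]
  ring

theorem dth_ne (hω : ω ^ 2 + ω + 1 = 0) (h3 : (3 : k) ≠ 0) (hΓ : Γ.C2) (hΦ : Γ.Phi (hx : Set Lt)) {u w : V}
    {X Y Z : List (Da E)} (h : Γ.Th u w X Y Z) (h₁ : Γ.gn X ≠ Γ.gn Y) (h₂ : Γ.gn Y ≠ Γ.gn Z) (h₃ : Γ.gn X ≠ Γ.gn Z)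
    {v : E → k} (hv : Zc ω Γ v) (hc : ¬ Cob ω Γ v) : Dth ω Γ v X Y Z ≠ 0 := by
  intro hD
  obtain ⟨ha, hb, hd, hS, -⟩ := theta_all hΓ fund_hx hΦ h h₁ h₂ h₃
  rw [Finset.mem_coe] at ha hb hd
  have hab : Γ.gn Y - Γ.gn X - (Γ.gn Z - Γ.gn X) ∈ hx := by
    rw [sub_sub_sub_cancel_right]
    exact hd
  have hXY : Γ.gn X - Γ.gn Y ∈ hx := by
    rcases hΦ u w X Y h.xy with h0 | h0
    · exact absurd (sub_eq_zero.1 h0) h₁
    · exact Finset.mem_coe.1 h0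
  have hB : eds X ∪ eds Y ∪ eds Z ⊆ Γ.A :=
    Finset.union_subset (Finset.union_subset (eds_sub h.xy.p.1) (eds_sub h.xy.p'.1)) (eds_sub h.xz.p'.1)
  exact hc (cob_ext hω hΓ hΦ hB (theta_C2 h) ha hb hab (theta_sp h) hv (theta_cob hω h3 h hXY v hD))

theorem dim_le (hω : ω ^ 2 + ω + 1 = 0) (h3 : (3 : k) ≠ 0) (hΓ : Γ.C2) (hΦ : Γ.Phi (hx : Set Lt)) {u w : V}
    {X Y Z : List (Da E)} (h : Γ.Th u w X Y Z) (h₁ : Γ.gn X ≠ Γ.gn Y) (h₂ : Γ.gn Y ≠ Γ.gn Z) (h₃ : Γ.gn X ≠ Γ.gn Z)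
    {v v' : E → k} (hv : Zc ω Γ v) (hv' : Zc ω Γ v') (hc : ¬ Cob ω Γ v') : ∃ μ : k, Cob ω Γ fun e => v e - μ * v' e := by
  have hne := dth_ne hω h3 hΓ hΦ h h₁ h₂ h₃ hv' hc
  refine ⟨Dth ω Γ v X Y Z / Dth ω Γ v' X Y Z, ?_⟩
  by_contra hcon
  refine dth_ne hω h3 hΓ hΦ h h₁ h₂ h₃ (zc_sub hv (zc_smul _ hv')) hcon ?_
  have hlin : ∀ μ : k, Dth ω Γ (fun e => v e - μ * v' e) X Y Z = Dth ω Γ v X Y Z - μ * Dth ω Γ v' X Y Z := by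
    intro μ
    unfold Dth
    rw [tv_sub v (fun e => μ * v' e) X, tv_sub v (fun e => μ * v' e) Y, tv_sub v (fun e => μ * v' e) Z,
      tv_smul, tv_smul, tv_smul]
    ring
  rw [hlin, div_mul_cancel₀ _ hne, sub_self]

end Pool.Agent.FRM
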