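import Pool.Agent.FRM.Cyv

/-!
# FRM/Cdt: the determinant of a cycle

PROOF PLAN.  `P ≠ P'`, so `P, P'` have no common edge (`cy_disj`).  Let `c = P ++ rv P'` (closed walk at `x`), `m = c.length`, `g i = (c.get i).1`, `f i = src (c.get i)` (all different; all vertices of the cycle occur).  The matrix `Mk.submatrix f g` has in column `i` the entries `a_i` in row `i` and `b_i` in row `i + 1` (mod `m`), and zeros elsewhere.
Either compute the determinant (Leibniz: only the identity and the cyclic permutation contribute: `∏ a_i + (-1)^(m-1) ∏ b_i`, `a_i = -δ_i b_i`, so it is `∏ a_i * (1 - (∏ δ_i)⁻¹)`, up to a unit `1 - ∏ δ_i`), or as in `Stp`: `cycle_vec`, replace the first column by a column with a single entry `(1 - ..) * a_1` and expand along it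
(`Matrix.det_succ_column`): the minor is triangular (a path), with determinant `± ∏ a_i` or `± ∏ b_i`.  `InG` is closed under products, inverses and sign (`Une1`).  `1 - ev u` and `1 - ev (-u)` differ by the unit `-ev (-u)`.
-/

set_option autoImplicit false

noncomputable section

open scoped Classical

namespace Pool.Agent.FRM

open GG

private def Cdt_u {V E : Type} (Γ : GG V E XG) (e : E) : KUˣ := Units.mk0 (ev (Γ.g e)) (ev_ne_zero _)

private theorem Cdt_hl {V E : Type} (Γ : GG V E XG) (l : List (Da E)) :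
    ((hl (Cdt_u Γ) l : KUˣ) : KU) = ev (Γ.gn l) := by
  induction l with
  | nil =>
    rw [hl_nil, gn_nil, ev_zero]
    rfl
  | cons d l ih =>
    rw [hl_cons, gn_cons, ev_add, Units.val_mul, ih]
    congr 1
    rcases d with ⟨e, b⟩
    cases b
    · have h1 : ((if (false : Bool) = true then Cdt_u Γ e else (Cdt_u Γ e)⁻¹ : KUˣ) : KU) =
          (ev (Γ.g e))⁻¹ := by
        simp [Cdt_u]
      have h2 : Γ.dg (e, false) = -Γ.g e := by simp [GG.dg]
      rw [h2, ev_neg]
      exact h1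
    · have h1 : ((if (true : Bool) = true then Cdt_u Γ e else (Cdt_u Γ e)⁻¹ : KUˣ) : KU) =
          ev (Γ.g e) := by
        simp [Cdt_u]
      have h2 : Γ.dg (e, true) = Γ.g e := by simp [GG.dg]
      rw [h2]
      exact h1

section

variable {V E Q : Type} [AddCommGroup Q] {Γ : GG V E Q}

private theorem Cdt_vs_src {v x : V} {L : List (Da E)} (h : Γ.Wk v L x) (i : ℕ) (hi : i < L.length) :
    (Γ.vs v L)[i]? = some (Γ.src L[i]) := by
  induction L generalizing v i with
  | nil => simp at hi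
  | cons d l ih =>
    obtain ⟨h1, h2, h3⟩ := h
    cases i with
    | zero =>
      show (v :: Γ.vs (Γ.tgt d) l)[0]? = some (Γ.src d)
      rw [List.getElem?_cons_zero, h2]
    | succ i =>
      have hi' : i < l.length := by simpa using hi
      show (v :: Γ.vs (Γ.tgt d) l)[i + 1]? = some (Γ.src l[i])
      rw [List.getElem?_cons_succ]
      exact ih h3 i hi'

private theorem Cdt_vs_tgt (v : V) (L : List (Da E)) (i : ℕ) (hi : i < L.length) :
    (Γ.vs v L)[i + 1]? = some (Γ.tgt L[i]) := by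
  unfold vs
  rw [List.getElem?_cons_succ, List.getElem?_map, List.getElem?_eq_getElem hi]
  rfl

private theorem Cdt_vs_last {v x : V} {L : List (Da E)} (h : Γ.Wk v L x) :
    (Γ.vs v L)[L.length]? = some x := by
  induction L generalizing v with
  | nil =>
    have h1 : v = x := h
    rw [h1]
    rfl
  | cons d l ih =>
    show (v :: Γ.vs (Γ.tgt d) l)[l.length + 1]? = some x
    rw [List.getElem?_cons_succ]
    exact ih h.2.2

private theorem Cdt_len (v : V) (L : List (Da E)) : (Γ.vs v L).length = L.length + 1 := by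
  simp [vs]

private theorem Cdt_src_ne {v x : V} {L : List (Da E)} (h : Γ.Pt v L x) {i j : ℕ} (hij : i < j)
    (hj : j < L.length) : Γ.src L[i] ≠ Γ.src L[j] := by
  have h1 := List.nodup_iff_getElem?_ne_getElem?.1 h.2 i j hij (by rw [Cdt_len]; omega)
  rw [Cdt_vs_src h.1 i (by omega), Cdt_vs_src h.1 j hj] at h1
  exact fun h2 => h1 (by rw [h2])

private theorem Cdt_tgt_ne {v x : V} {L : List (Da E)} (h : Γ.Pt v L x) {i j : ℕ} (hij : i < j)
    (hj : j < L.length) : Γ.src L[i] ≠ Γ.tgt L[j] := by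
  have h1 := List.nodup_iff_getElem?_ne_getElem?.1 h.2 i (j + 1) (by omega) (by rw [Cdt_len]; omega)
  rw [Cdt_vs_src h.1 i (by omega), Cdt_vs_tgt v L j hj] at h1
  exact fun h2 => h1 (by rw [h2])

private theorem Cdt_src_last {v x : V} {L : List (Da E)} (h : Γ.Pt v L x) {i : ℕ}
    (hi : i < L.length) : Γ.src L[i] ≠ x := by
  have h1 := List.nodup_iff_getElem?_ne_getElem?.1 h.2 i L.length hi (by rw [Cdt_len]; omega)
  rw [Cdt_vs_src h.1 i hi, Cdt_vs_last h.1] at h1
  exact fun h2 => h1 (by rw [h2])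

private theorem Cdt_ends (d : Da E) :
    (Γ.s d.1 = Γ.src d ∧ Γ.t d.1 = Γ.tgt d) ∨ (Γ.s d.1 = Γ.tgt d ∧ Γ.t d.1 = Γ.src d) := by
  rcases d with ⟨e, b⟩
  cases b
  · right
    simp [GG.src, GG.tgt]
  · left
    simp [GG.src, GG.tgt]

end

private theorem Cdt_inG_prod {ι : Type} (s : Finset ι) (F : ι → KU) (h : ∀ i ∈ s, InG (F i)) :
    InG (∏ i ∈ s, F i) := by
  induction s using Finset.induction_on with
  | empty =>
    rw [Finset.prod_empty]
    exact inG_one
  | insert a s ha ih =>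
    rw [Finset.prod_insert ha]
    exact inG_mul (h a (Finset.mem_insert_self a s))
      (ih fun i hi => h i (Finset.mem_insert_of_mem hi))

theorem cyc_det {V E : Type} {Γ : GG V E XG} {Mk : Matrix V E KU} (lf : ∀ j ∈ Γ.A, Γ.s j ≠ Γ.t j)
    (hG : ∀ i j, Mk i j ≠ 0 → InG (Mk i j)) (ns : ∀ j ∈ Γ.A, Mk (Γ.s j) j ≠ 0) (nt : ∀ j ∈ Γ.A, Mk (Γ.t j) j ≠ 0)
    (out : ∀ j ∈ Γ.A, ∀ i, i ≠ Γ.s j → i ≠ Γ.t j → Mk i j = 0)
    (ek : ∀ j ∈ Γ.A, Mk (Γ.s j) j = -(ev (Γ.g j) * Mk (Γ.t j) j)) {x y : V} {P P' : List (Da E)}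
    (h : Γ.Cy x y P P') (hne : P ≠ P') :
    ∃ (m : ℕ) (f : Fin m → V) (g : Fin m → E) (c : KU), InG c ∧
      (Mk.submatrix f g).det = c * (1 - ev (Γ.gn P - Γ.gn P')) := by
  have hcmp : Cmp Γ Mk (Cdt_u Γ) := ⟨lf, nt, out, fun j hj => ek j hj⟩
  obtain ⟨d, P₁, rfl⟩ := List.exists_cons_of_ne_nil (pt_ne h.p h.ne)
  have hdj : ∀ e ∈ d :: P₁, e.1 ∉ eds P' := by
    rcases cy_disj h with h1 | ⟨e, h1, h2⟩
    · exact h1
    · exact absurd (h1.trans h2.symm) hne
  obtain ⟨v, hv1, -, hv3, hv4, hv5⟩ := cycle_vec hcmp h hne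
  have hxs : Γ.src d = x := h.p.1.2.1
  have hdA : d.1 ∈ Γ.A := h.p.1.1
  -- the rest of the cycle
  obtain ⟨L, hL⟩ : ∃ L : List (Da E), L = P₁ ++ rv P' := ⟨_, rfl⟩
  have hPL : Γ.Pt (Γ.tgt d) L x := by
    have h1 : Γ.Pt (Γ.tgt d) P₁ y := by
      have h2 := h.p.2
      have h3 : (x :: Γ.vs (Γ.tgt d) P₁).Nodup := h2
      exact ⟨h.p.1.2.2, (List.nodup_cons.1 h3).2⟩
    have hx1 : x ∉ Γ.vs (Γ.tgt d) P₁ := by
      have h2 := h.p.2
      have h3 : (x :: Γ.vs (Γ.tgt d) P₁).Nodup := h2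
      exact (List.nodup_cons.1 h3).1
    rw [hL]
    refine pt_append h1 (pt_rv h.p') fun w hw hw' => ?_
    have h4 : w ∈ Γ.vs x (d :: P₁) := List.mem_cons_of_mem x hw
    have h5 : w ∈ Γ.vs x P' := (mem_vs_rv h.p'.1).1 hw'
    rcases h.dj w h4 h5 with h6 | h6
    · rw [h6] at hw
      exact absurd hw hx1
    · exact h6
  have hLA : ∀ e ∈ L, e.1 ∈ Γ.A := fun e he => (wk_mem hPL.1 e he).1
  have hnd : ((d :: L).map Prod.fst).Nodup := by
    have h1 : (d :: L).map Prod.fst = (d :: P₁).map Prod.fst ++ (rv P').map Prod.fst := by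
      rw [hL, ← List.map_append]
      rfl
    rw [h1]
    rw [List.nodup_append]
    refine ⟨pt_nodup h.p, pt_nodup (pt_rv h.p'), fun a ha b hb hab => ?_⟩
    obtain ⟨e, he, rfl⟩ := List.mem_map.1 ha
    obtain ⟨e', he', rfl⟩ := List.mem_map.1 hb
    apply hdj e he
    rw [← eds_rv, mem_eds]
    exact ⟨e', he', hab.symm⟩
  have heds : eds (d :: P₁) ∪ eds P' = eds (d :: L) := by
    rw [← eds_rv P', ← eds_append, hL]
    rfl
  obtain ⟨n, hn⟩ : ∃ n : ℕ, n = L.length := ⟨_, rfl⟩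
  obtain ⟨f, hf⟩ : ∃ f : Fin (L.length + 1) → V, f = fun i => Γ.src ((d :: L).get i) := ⟨_, rfl⟩
  obtain ⟨g, hg⟩ : ∃ g : Fin (L.length + 1) → E, g = fun i => ((d :: L).get i).1 := ⟨_, rfl⟩
  have hf0 : f 0 = x := by
    rw [hf]
    exact hxs
  have hg0 : g 0 = d.1 := by
    rw [hg]
    rfl
  have hfs : ∀ i : Fin L.length, f i.succ = Γ.src L[(i : ℕ)] := by
    intro i
    rw [hf]
    rfl
  have hgs : ∀ i : Fin L.length, g i.succ = (L[(i : ℕ)]).1 := by
    intro i
    rw [hg]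
    rfl
  have hginj : Function.Injective g := by
    intro i j hij
    rw [hg] at hij
    have h1 := List.nodup_iff_injective_get.1 hnd
    have h2 : ((d :: L).map Prod.fst).length = L.length + 1 := by simp
    have h3 : (⟨(i : ℕ), by rw [h2]; exact i.2⟩ : Fin ((d :: L).map Prod.fst).length) =
        ⟨(j : ℕ), by rw [h2]; exact j.2⟩ := by
      apply h1
      simp only [List.get_eq_getElem, List.getElem_map]
      exact hij
    have h4 := congrArg Fin.val h3
    exact Fin.ext h4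
  have himg : eds (d :: L) = Finset.univ.image g := by
    ext e
    rw [mem_eds, Finset.mem_image]
    constructor
    · rintro ⟨a, ha, rfl⟩
      obtain ⟨i, hi⟩ := List.get_of_mem ha
      refine ⟨i, Finset.mem_univ _, ?_⟩
      rw [hg]
      show ((d :: L).get i).1 = a.1
      rw [hi]
    · rintro ⟨i, -, rfl⟩
      rw [hg]
      exact ⟨(d :: L).get i, List.get_mem _ _, rfl⟩
  have hsum : ∀ z : V, ∑ i, v (g i) • Mk z (g i) = ∑ e ∈ eds (d :: P₁) ∪ eds P', Mk z e * v e := by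
    intro z
    rw [heds, himg, Finset.sum_image fun a _ b _ hab => hginj hab]
    refine Finset.sum_congr rfl fun i _ => ?_
    rw [smul_eq_mul, mul_comm]
  have hdet := Matrix.det_updateCol_sum (Mk.submatrix f g) 0 (fun i => v (g i))
  rw [hg0, hv1, one_smul] at hdet
  have hcol : (fun k => ∑ i, (v (g i)) • (Mk.submatrix f g) k i) =
      fun k => if k = 0 then (1 - ((hl (Cdt_u Γ) P' * (hl (Cdt_u Γ) (d :: P₁))⁻¹ : KUˣ) : KU)) *
        Mk x d.1 else 0 := by
    funext k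
    simp only [Matrix.submatrix_apply]
    rw [hsum]
    by_cases hk : k = 0
    · rw [if_pos hk, hk, hf0]
      exact hv4
    · rw [if_neg hk]
      apply hv3
      obtain ⟨i, rfl⟩ := Fin.exists_succ_eq.2 hk
      rw [hfs]
      exact Cdt_src_last hPL i.2
  rw [hcol] at hdet
  rw [Matrix.det_succ_column_zero, Fin.sum_univ_succ] at hdet
  have hrest : ∑ i : Fin L.length, (-1 : KU) ^ ((i.succ : Fin (L.length + 1)) : ℕ) *
      ((Mk.submatrix f g).updateCol 0 (fun k => if k = 0 then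
        (1 - ((hl (Cdt_u Γ) P' * (hl (Cdt_u Γ) (d :: P₁))⁻¹ : KUˣ) : KU)) * Mk x d.1 else 0)) i.succ 0 *
      (((Mk.submatrix f g).updateCol 0 (fun k => if k = 0 then
        (1 - ((hl (Cdt_u Γ) P' * (hl (Cdt_u Γ) (d :: P₁))⁻¹ : KUˣ) : KU)) * Mk x d.1 else 0)).submatrix
        i.succ.succAbove Fin.succ).det = 0 := by
    refine Finset.sum_eq_zero fun i _ => ?_
    rw [Matrix.updateCol_self, if_neg (Fin.succ_ne_zero i)]
    ring
  rw [hrest, add_zero, Matrix.updateCol_self, if_pos rfl] at hdet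
  have hminor : ((Mk.submatrix f g).updateCol 0 (fun k => if k = 0 then
        (1 - ((hl (Cdt_u Γ) P' * (hl (Cdt_u Γ) (d :: P₁))⁻¹ : KUˣ) : KU)) * Mk x d.1 else 0)).submatrix
        (Fin.succAbove 0) Fin.succ = (Mk.submatrix f g).submatrix Fin.succ Fin.succ := by
    ext i j
    rw [Matrix.submatrix_apply, Matrix.updateCol_ne (Fin.succ_ne_zero j), Matrix.submatrix_apply,
      Fin.succAbove_zero]
    rfl
  rw [hminor] at hdet
  have htri : ((Mk.submatrix f g).submatrix Fin.succ Fin.succ).BlockTriangular OrderDual.toDual := by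
    intro i j hij
    have hij' : i < j := hij
    rw [Matrix.submatrix_apply, Matrix.submatrix_apply, hfs, hgs]
    have hA := hLA _ (List.getElem_mem j.2)
    have h1 := Cdt_src_ne hPL (i := (i : ℕ)) (j := (j : ℕ)) hij' j.2
    have h2 := Cdt_tgt_ne hPL (i := (i : ℕ)) (j := (j : ℕ)) hij' j.2
    apply out _ hA
    · rcases Cdt_ends (Γ := Γ) L[(j : ℕ)] with h3 | h3
      · rw [h3.1]
        exact h1
      · rw [h3.1]
        exact h2
    · rcases Cdt_ends (Γ := Γ) L[(j : ℕ)] with h3 | h3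
      · rw [h3.2]
        exact h2
      · rw [h3.2]
        exact h1
  rw [Matrix.det_of_lowerTriangular _ htri] at hdet
  refine ⟨L.length + 1, f, g, -(ev (Γ.gn P' - Γ.gn (d :: P₁)) * Mk x d.1 *
    ∏ i : Fin L.length, (Mk.submatrix f g).submatrix Fin.succ Fin.succ i i), ?_, ?_⟩
  · apply inG_neg
    refine inG_mul (inG_mul ⟨_, rfl⟩ (hG _ _ hv5)) (Cdt_inG_prod _ _ fun i _ => ?_)
    apply hG
    rw [hfs, hgs]
    have hA := hLA _ (List.getElem_mem i.2)
    rcases Cdt_ends (Γ := Γ) L[(i : ℕ)] with h3 | h3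
    · rw [← h3.1]
      exact ns _ hA
    · rw [← h3.2]
      exact nt _ hA
  · rw [← hdet]
    have h1 : ((hl (Cdt_u Γ) P' * (hl (Cdt_u Γ) (d :: P₁))⁻¹ : KUˣ) : KU) =
        ev (Γ.gn P' - Γ.gn (d :: P₁)) := by
      rw [Units.val_mul, Units.val_inv_eq_inv_val, Cdt_hl, Cdt_hl, sub_eq_add_neg, ev_add, ev_neg]
    have h2 : ev (Γ.gn (d :: P₁) - Γ.gn P') = (ev (Γ.gn P' - Γ.gn (d :: P₁)))⁻¹ := by
      rw [← ev_neg, neg_sub]
    rw [h1, h2]
    have h3 := ev_ne_zero (Γ.gn P' - Γ.gn (d :: P₁))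
    generalize ev (Γ.gn P' - Γ.gn (d :: P₁)) = w at *
    field_simp
    simp
    ring

end Pool.Agent.FRM
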