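import Pool.Agent.FRM.Ear1

/-!
# FRM/Con1: connectivity of minors of 3-connected graphs

Deletion and contraction of an edge keep the graph connected without cut vertices; the number of vertices after a contraction.
-/

set_option autoImplicit false
set_option linter.unusedSectionVars false

noncomputable section

open scoped Classical

namespace Pool.Agent.FRM

open GG

variable {V E Q : Type} [AddCommGroup Q] {Γ : GG V E Q}

private theorem Con1_st (d : Da E) : (Γ.src d = Γ.s d.1 ∧ Γ.tgt d = Γ.t d.1) ∨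
    (Γ.src d = Γ.t d.1 ∧ Γ.tgt d = Γ.s d.1) := by
  rcases d with ⟨e, b⟩
  cases b
  · exact Or.inr ⟨rfl, rfl⟩
  · exact Or.inl ⟨rfl, rfl⟩

private theorem Con1_cm_t (e : E) : Γ.cm e (Γ.t e) = Γ.s e := by
  simp [cm]

private theorem Con1_cm_ne {e : E} {z : V} (h : z ≠ Γ.t e) : Γ.cm e z = z := by
  simp [cm, h]

private theorem Con1_cm_s (e : E) : Γ.cm e (Γ.s e) = Γ.s e := by
  by_cases h : Γ.s e = Γ.t e
  · rw [h, Con1_cm_t]
    exact h
  · exact Con1_cm_ne h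

private theorem Con1_src (e : E) (d : Da E) : (Γ.con e).src d = Γ.cm e (Γ.src d) := by
  rcases d with ⟨f, b⟩
  cases b <;> rfl

private theorem Con1_tgt (e : E) (d : Da E) : (Γ.con e).tgt d = Γ.cm e (Γ.tgt d) := by
  rcases d with ⟨f, b⟩
  cases b <;> rfl

private theorem Con1_third (h3 : 3 ≤ Γ.nV) (a b : V) : ∃ q ∈ Γ.VS, q ≠ a ∧ q ≠ b := by
  by_contra hcon
  have hsub : Γ.VS ⊆ ({a, b} : Set V) := by
    intro q hq
    by_contra h
    apply hcon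
    refine ⟨q, hq, ?_, ?_⟩
    · rintro rfl
      exact h (Or.inl rfl)
    · rintro rfl
      exact h (Or.inr rfl)
  have h1 : Γ.VS.ncard ≤ ({a, b} : Set V).ncard := Set.ncard_le_ncard hsub (Set.toFinite _)
  have h2 : ({a, b} : Set V).ncard ≤ 2 := Set.ncard_insert_le _ _ |>.trans (by simp)
  have h4 : 3 ≤ Γ.VS.ncard := h3
  omega

private theorem Con1_fourth (h4 : 4 ≤ Γ.nV) (a b c : V) : ∃ q ∈ Γ.VS, q ≠ a ∧ q ≠ b ∧ q ≠ c := by
  by_contra hcon
  have hsub : Γ.VS ⊆ ({a, b, c} : Set V) := by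
    intro q hq
    by_contra h
    apply hcon
    refine ⟨q, hq, ?_, ?_, ?_⟩
    · rintro rfl
      exact h (Or.inl rfl)
    · rintro rfl
      exact h (Or.inr (Or.inl rfl))
    · rintro rfl
      exact h (Or.inr (Or.inr rfl))
  have h1 : Γ.VS.ncard ≤ ({a, b, c} : Set V).ncard := Set.ncard_le_ncard hsub (Set.toFinite _)
  have h2 : ({b, c} : Set V).ncard ≤ 2 := Set.ncard_insert_le _ _ |>.trans (by simp)
  have h3 : ({a, b, c} : Set V).ncard ≤ ({b, c} : Set V).ncard + 1 := Set.ncard_insert_le _ _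
  have h5 : 4 ≤ Γ.VS.ncard := h4
  omega

/-- repair of a walk which uses the edge `f` -/
private theorem Con1_repair {f : E} {z : V} {W : List (Da E)}
    (hW : (Γ.on (Γ.A.erase f)).Wk (Γ.s f) W (Γ.t f)) (hz : z ∉ Γ.vs (Γ.s f) W) {x y : V} {l : List (Da E)}
    (h : Γ.Wk x l y) (hl : z ∉ Γ.vs x l) :
    ∃ l', (Γ.on (Γ.A.erase f)).Wk x l' y ∧ z ∉ (Γ.on (Γ.A.erase f)).vs x l' := by
  induction l generalizing x with
  | nil => exact ⟨[], h, hl⟩
  | cons d l ih =>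
    obtain ⟨h1, h2, h3⟩ := h
    have hl' : z ∉ x :: Γ.vs (Γ.tgt d) l := hl
    have hzx : z ≠ x := fun h4 => hl' (h4 ▸ List.mem_cons_self)
    obtain ⟨l', h5, h6⟩ := ih h3 (fun h4 => hl' (List.mem_cons_of_mem x h4))
    by_cases hd : d.1 = f
    · rcases Con1_st (Γ := Γ) d with ⟨h7, h8⟩ | ⟨h7, h8⟩
      · rw [hd] at h7 h8
        have h9 : x = Γ.s f := h2.symm.trans h7
        rw [h8] at h5 h6
        subst h9
        refine ⟨W ++ l', wk_append.2 ⟨_, hW, h5⟩, ?_⟩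
        intro h10
        rcases (mem_vs_append (Γ := Γ.on (Γ.A.erase f)) hW).1 h10 with h11 | h11
        · exact hz h11
        · exact h6 h11
      · rw [hd] at h7 h8
        have h9 : x = Γ.t f := h2.symm.trans h7
        rw [h8] at h5 h6
        subst h9
        have hW' := wk_rv hW
        refine ⟨rv W ++ l', wk_append.2 ⟨_, hW', h5⟩, ?_⟩
        intro h10
        rcases (mem_vs_append (Γ := Γ.on (Γ.A.erase f)) hW').1 h10 with h11 | h11
        · exact hz ((mem_vs_rv (Γ := Γ.on (Γ.A.erase f)) hW).1 h11)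
        · exact h6 h11
    · refine ⟨d :: l', ⟨Finset.mem_erase.2 ⟨hd, h1⟩, h2, h5⟩, ?_⟩
      intro h10
      rcases List.mem_cons.1 h10 with h11 | h11
      · exact hzx h11
      · exact h6 h11

/-- a walk which avoids an end of `f` does not use `f` -/
private theorem Con1_avoid {f : E} {z : V} (hz : z = Γ.s f ∨ z = Γ.t f) {x y : V} {l : List (Da E)}
    (h : Γ.Wk x l y) (hl : z ∉ Γ.vs x l) : (Γ.on (Γ.A.erase f)).Wk x l y := by
  refine (wk_on (Finset.erase_subset _ _)).2 ⟨h, fun d hd => ?_⟩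
  obtain ⟨h1, h2, h3⟩ := wk_mem h d hd
  refine Finset.mem_erase.2 ⟨?_, h1⟩
  intro h4
  apply hl
  rcases Con1_st (Γ := Γ) d with ⟨h7, h8⟩ | ⟨h7, h8⟩
  · rw [h7, h4] at h2
    rw [h8, h4] at h3
    rcases hz with rfl | rfl
    · exact h2
    · exact h3
  · rw [h7, h4] at h2
    rw [h8, h4] at h3
    rcases hz with rfl | rfl
    · exact h3
    · exact h2

private theorem Con1_key (hΓ : Γ.C2) (h3 : Γ.C3) (h4 : 4 ≤ Γ.nV) {f : E} (hf : f ∈ Γ.A) :
    ∀ z, ∀ x ∈ Γ.VS, ∀ y ∈ Γ.VS, x ≠ z → y ≠ z →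
      ∃ l, (Γ.on (Γ.A.erase f)).Wk x l y ∧ z ∉ (Γ.on (Γ.A.erase f)).vs x l := by
  intro z x hx y hy hxz hyz
  obtain ⟨l, hl, hzl⟩ := hΓ.cut z x hx y hy hxz hyz
  by_cases hz : z = Γ.s f ∨ z = Γ.t f
  · exact ⟨l, Con1_avoid hz hl hzl, hzl⟩
  · have hzs : z ≠ Γ.s f := fun h => hz (Or.inl h)
    have hzt : z ≠ Γ.t f := fun h => hz (Or.inr h)
    have hst : Γ.s f ≠ Γ.t f := hΓ.lf f hf
    have hsV : Γ.s f ∈ Γ.VS := ⟨f, hf, Or.inl rfl⟩
    have htV : Γ.t f ∈ Γ.VS := ⟨f, hf, Or.inr rfl⟩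
    obtain ⟨q, hq, hqz, hqs, hqt⟩ := Con1_fourth h4 z (Γ.s f) (Γ.t f)
    obtain ⟨l1, hl1, hz1, ht1⟩ := h3 z (Γ.t f) q hq (Γ.s f) hsV hqz hqt hzs.symm hst
    obtain ⟨l2, hl2, hz2, ht2⟩ := h3 z (Γ.s f) q hq (Γ.t f) htV hqz hqs hzt.symm hst.symm
    have h5 := Con1_avoid (Or.inr rfl) hl1 ht1
    have h6 := Con1_avoid (Or.inl rfl) hl2 ht2
    have h7 := wk_rv h5
    have hW : (Γ.on (Γ.A.erase f)).Wk (Γ.s f) (rv l1 ++ l2) (Γ.t f) := wk_append.2 ⟨q, h7, h6⟩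
    refine Con1_repair hW ?_ hl hzl
    intro h8
    rcases (mem_vs_append (Γ := Γ.on (Γ.A.erase f)) h7).1 h8 with h11 | h11
    · exact hz1 ((mem_vs_rv (Γ := Γ.on (Γ.A.erase f)) h5).1 h11)
    · exact hz2 h11

private theorem Con1_nonempty (h3 : 3 ≤ Γ.nV) (e : E) : (Γ.A.erase e).Nonempty := by
  obtain ⟨q, ⟨f, hf, hq⟩, hqs, hqt⟩ := Con1_third h3 (Γ.s e) (Γ.t e)
  refine ⟨f, Finset.mem_erase.2 ⟨?_, hf⟩⟩
  rintro rfl
  rcases hq with h | h
  · exact hqs h.symm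
  · exact hqt h.symm

theorem del_C2 (hΓ : Γ.C2) (h3 : Γ.C3) (h4 : 4 ≤ Γ.nV) (f : E) : (Γ.on (Γ.A.erase f)).C2 := by
  by_cases hf : f ∈ Γ.A
  · have hsub : ∀ x ∈ (Γ.on (Γ.A.erase f)).VS, x ∈ Γ.VS := by
      intro x hx
      have h5 := VS_mono (Γ := Γ) (Finset.erase_subset f Γ.A) hx
      rwa [on_A] at h5
    refine ⟨Con1_nonempty (by omega) f, ?_, ?_, ?_⟩
    · intro e he
      exact hΓ.lf e (Finset.mem_of_mem_erase he)
    · intro x hx y hy
      obtain ⟨q, _, hqx, hqy⟩ := Con1_third (Γ := Γ) (by omega) x y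
      obtain ⟨l, hl, _⟩ := Con1_key hΓ h3 h4 hf q x (hsub x hx) y (hsub y hy) hqx.symm hqy.symm
      exact ⟨l, hl⟩
    · intro z x hx y hy hxz hyz
      exact Con1_key hΓ h3 h4 hf z x (hsub x hx) y (hsub y hy) hxz hyz
  · rw [Finset.erase_eq_of_notMem hf, on_A]
    exact hΓ

private theorem Con1_wk {e : E} {x y : V} {l : List (Da E)} (h : Γ.Wk x l y) :
    (Γ.con e).Wk (Γ.cm e x) (l.filter fun d => d.1 ≠ e) (Γ.cm e y) := by
  induction l generalizing x with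
  | nil =>
    have h1 : x = y := h
    subst h1
    rfl
  | cons d l ih =>
    obtain ⟨h1, h2, h3⟩ := h
    by_cases hd : d.1 = e
    · have h4 : ((d :: l).filter fun d => d.1 ≠ e) = l.filter fun d => d.1 ≠ e := by
        rw [List.filter_cons_of_neg]
        simp [hd]
      rw [h4]
      have h5 : Γ.cm e x = Γ.cm e (Γ.tgt d) := by
        rw [← h2]
        rcases Con1_st (Γ := Γ) d with ⟨h7, h8⟩ | ⟨h7, h8⟩
        · rw [h7, h8, hd, Con1_cm_t, Con1_cm_s]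
        · rw [h7, h8, hd, Con1_cm_t, Con1_cm_s]
      rw [h5]
      exact ih h3
    · have h4 : ((d :: l).filter fun d => d.1 ≠ e) = d :: l.filter fun d => d.1 ≠ e := by
        rw [List.filter_cons_of_pos]
        simp [hd]
      rw [h4]
      refine ⟨Finset.mem_erase.2 ⟨hd, h1⟩, ?_, ?_⟩
      · rw [Con1_src, h2]
      · rw [Con1_tgt]
        exact ih h3

private theorem Con1_vs {e : E} {x : V} {l : List (Da E)} :
    ∀ z ∈ (Γ.con e).vs (Γ.cm e x) (l.filter fun d => d.1 ≠ e), ∃ z' ∈ Γ.vs x l, Γ.cm e z' = z := by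
  intro z hz
  rcases List.mem_cons.1 hz with h1 | h1
  · exact ⟨x, wk_first _ _, h1.symm⟩
  · obtain ⟨d, hd, h2⟩ := List.mem_map.1 h1
    rw [Con1_tgt] at h2
    exact ⟨Γ.tgt d, List.mem_cons_of_mem _ (List.mem_map.2 ⟨d, (List.mem_filter.1 hd).1, rfl⟩), h2⟩

private theorem Con1_VS {e : E} : (Γ.con e).VS ⊆ Γ.cm e '' Γ.VS := by
  rintro z ⟨f, hf, h | h⟩
  · exact ⟨Γ.s f, ⟨f, Finset.mem_of_mem_erase hf, Or.inl rfl⟩, h⟩
  · exact ⟨Γ.t f, ⟨f, Finset.mem_of_mem_erase hf, Or.inr rfl⟩, h⟩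

private theorem Con1_VS' (hΓ : Γ.C2) {e : E} (he : e ∈ Γ.A) {z : V} (hz : z ∈ (Γ.con e).VS) :
    z ∈ Γ.VS ∧ z ≠ Γ.t e := by
  obtain ⟨z', hz', h⟩ := Con1_VS hz
  by_cases h1 : z' = Γ.t e
  · rw [h1, Con1_cm_t] at h
    rw [← h]
    exact ⟨⟨e, he, Or.inl rfl⟩, hΓ.lf e he⟩
  · rw [Con1_cm_ne h1] at h
    rw [← h]
    exact ⟨hz', h1⟩

private theorem Con1_con (hΓ : Γ.C2) (h3 : 3 ≤ Γ.nV) {e : E} (he : e ∈ Γ.A) (hp : Γ.Pfree e)
    (H : ∀ x ∈ Γ.VS, ∀ y ∈ Γ.VS, x ≠ Γ.s e → x ≠ Γ.t e → y ≠ Γ.s e → y ≠ Γ.t e →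
      ∃ l, Γ.Wk x l y ∧ Γ.s e ∉ Γ.vs x l ∧ Γ.t e ∉ Γ.vs x l) : (Γ.con e).C2 := by
  refine ⟨Con1_nonempty h3 e, ?_, ?_, ?_⟩
  · intro f hf hcm
    have hfe : f ≠ e := Finset.ne_of_mem_erase hf
    have hfA : f ∈ Γ.A := Finset.mem_of_mem_erase hf
    have hcm' : Γ.cm e (Γ.s f) = Γ.cm e (Γ.t f) := hcm
    have hlf := hΓ.lf f hfA
    obtain ⟨h5, h6⟩ := hp f hfA hfe
    by_cases h1 : Γ.s f = Γ.t e
    · by_cases h2 : Γ.t f = Γ.t e
      · exact hlf (h1.trans h2.symm)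
      · rw [h1, Con1_cm_t, Con1_cm_ne h2] at hcm'
        exact h6 ⟨h1, hcm'.symm⟩
    · by_cases h2 : Γ.t f = Γ.t e
      · rw [h2, Con1_cm_t, Con1_cm_ne h1] at hcm'
        exact h5 ⟨hcm', h2⟩
      · rw [Con1_cm_ne h2, Con1_cm_ne h1] at hcm'
        exact hlf hcm'
  · intro x hx y hy
    obtain ⟨hxV, hxt⟩ := Con1_VS' hΓ he hx
    obtain ⟨hyV, hyt⟩ := Con1_VS' hΓ he hy
    obtain ⟨l, hl⟩ := hΓ.con x hxV y hyV
    have h1 := Con1_wk (e := e) hl
    rw [Con1_cm_ne hxt, Con1_cm_ne hyt] at h1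
    exact ⟨_, h1⟩
  · intro z x hx y hy hxz hyz
    obtain ⟨hxV, hxt⟩ := Con1_VS' hΓ he hx
    obtain ⟨hyV, hyt⟩ := Con1_VS' hΓ he hy
    by_cases hz : z = Γ.s e
    · subst hz
      obtain ⟨l, hl, h4, h5⟩ := H x hxV y hyV hxz hxt hyz hyt
      have h1 := Con1_wk (e := e) hl
      have h2 := Con1_vs (Γ := Γ) (e := e) (x := x) (l := l)
      rw [Con1_cm_ne hxt, Con1_cm_ne hyt] at h1
      rw [Con1_cm_ne hxt] at h2
      refine ⟨_, h1, ?_⟩
      intro h6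
      obtain ⟨z', h7, h8⟩ := h2 _ h6
      by_cases h9 : z' = Γ.t e
      · exact h5 (h9 ▸ h7)
      · rw [Con1_cm_ne h9] at h8
        exact h4 (h8 ▸ h7)
    · obtain ⟨l, hl, h4⟩ := hΓ.cut z x hxV y hyV hxz hyz
      have h1 := Con1_wk (e := e) hl
      have h2 := Con1_vs (Γ := Γ) (e := e) (x := x) (l := l)
      rw [Con1_cm_ne hxt, Con1_cm_ne hyt] at h1
      rw [Con1_cm_ne hxt] at h2
      refine ⟨_, h1, ?_⟩
      intro h6
      obtain ⟨z', h7, h8⟩ := h2 _ h6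
      by_cases h9 : z' = Γ.t e
      · rw [h9, Con1_cm_t] at h8
        exact hz h8.symm
      · rw [Con1_cm_ne h9] at h8
        exact h4 (h8 ▸ h7)

theorem con_C2 (hΓ : Γ.C2) (h3 : Γ.C3) (h4 : 4 ≤ Γ.nV) {e : E} (he : e ∈ Γ.A) (hp : Γ.Pfree e) : (Γ.con e).C2 := by
  refine Con1_con hΓ (by omega) he hp ?_
  intro x hx y hy hxs hxt hys hyt
  exact h3 (Γ.s e) (Γ.t e) x hx y hy hxs hxt hys hyt

theorem con_C2_three (hΓ : Γ.C2) (h3 : Γ.nV = 3) {e : E} (he : e ∈ Γ.A) (hp : Γ.Pfree e) : (Γ.con e).C2 := by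
  refine Con1_con hΓ (by omega) he hp ?_
  intro x hx y hy hxs hxt hys hyt
  have hst := hΓ.lf e he
  have hsV : Γ.s e ∈ Γ.VS := ⟨e, he, Or.inl rfl⟩
  have htV : Γ.t e ∈ Γ.VS := ⟨e, he, Or.inr rfl⟩
  have hxy : x = y := by
    by_contra hne
    have h5 : (({Γ.s e, Γ.t e, x, y} : Finset V) : Set V) ⊆ Γ.VS := by
      intro w hw
      simp only [Finset.coe_insert, Finset.coe_singleton, Set.mem_insert_iff, Set.mem_singleton_iff] at hw
      rcases hw with rfl | rfl | rfl | rfl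
      · exact hsV
      · exact htV
      · exact hx
      · exact hy
    have h6 := Set.ncard_le_ncard h5 VS_finite
    rw [Set.ncard_coe_finset] at h6
    have h7 : ({Γ.s e, Γ.t e, x, y} : Finset V).card = 4 := by
      rw [Finset.card_insert_of_notMem, Finset.card_insert_of_notMem, Finset.card_insert_of_notMem,
        Finset.card_singleton]
      · simp [hne]
      · simp [hxt.symm, hyt.symm]
      · simp [hst, hxs.symm, hys.symm]
    have h8 : Γ.VS.ncard = 3 := h3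
    omega
  refine ⟨[], hxy, ?_, ?_⟩
  · intro h
    have h' : Γ.s e ∈ [x] := h
    exact hxs (List.mem_singleton.1 h').symm
  · intro h
    have h' : Γ.t e ∈ [x] := h
    exact hxt (List.mem_singleton.1 h').symm

theorem con_nV (hΓ : Γ.C2) {e : E} (he : e ∈ Γ.A) : (Γ.con e).nV < Γ.nV := by
  apply Set.ncard_lt_ncard _ VS_finite
  rw [Set.ssubset_iff_of_subset (fun z hz => (Con1_VS' hΓ he hz).1)]
  exact ⟨Γ.t e, ⟨e, he, Or.inr rfl⟩, fun h => (Con1_VS' hΓ he h).2 rfl⟩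

/-- The vertices of `Γ.con e` are those of `Γ` except `t e` (every other vertex has an edge different from `e`). -/
theorem con_nV_eq (hΓ : Γ.C2) (h3 : 3 ≤ Γ.nV) {e : E} (he : e ∈ Γ.A) : (Γ.con e).nV + 1 = Γ.nV := by
  have htV : Γ.t e ∈ Γ.VS := ⟨e, he, Or.inr rfl⟩
  have hsV : Γ.s e ∈ Γ.VS := ⟨e, he, Or.inl rfl⟩
  have hst := hΓ.lf e he
  have h1 : (Γ.con e).VS = Γ.VS \ {Γ.t e} := by
    apply Set.Subset.antisymm
    · intro z hz
      exact Con1_VS' hΓ he hz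
    · rintro z ⟨⟨f, hf, hz⟩, hzt⟩
      have hzt' : z ≠ Γ.t e := hzt
      by_cases hzs : z = Γ.s e
      · obtain ⟨q, hq, hqs, hqt⟩ := Con1_third h3 (Γ.s e) (Γ.t e)
        obtain ⟨l, hl⟩ := hΓ.con (Γ.s e) hsV q hq
        have h2 := Con1_wk (e := e) hl
        rw [Con1_cm_ne hst, Con1_cm_ne hqt] at h2
        have h4 : (l.filter fun d => d.1 ≠ e) ≠ [] := by
          intro h5
          rw [h5] at h2
          have h6 : Γ.s e = q := h2
          exact hqs h6.symm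
        obtain ⟨d, hd, h5⟩ := wk_vs h2 h4 (wk_first _ _)
        rw [hzs]
        exact ⟨d.1, (wk_mem h2 d hd).1, h5⟩
      · refine ⟨f, Finset.mem_erase.2 ⟨?_, hf⟩, ?_⟩
        · rintro rfl
          rcases hz with h | h
          · exact hzs h.symm
          · exact hzt' h.symm
        · rcases hz with h | h
          · left
            show Γ.cm e (Γ.s f) = z
            rw [h, Con1_cm_ne hzt']
          · right
            show Γ.cm e (Γ.t f) = z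
            rw [h, Con1_cm_ne hzt']
  show (Γ.con e).VS.ncard + 1 = Γ.VS.ncard
  rw [h1]
  exact Set.ncard_sdiff_singleton_add_one htV VS_finite

/-- images of walks under contraction -/
theorem con_wk {e : E} {x y : V} {l : List (Da E)} (h : Γ.Wk x l y) :
    (Γ.con e).Wk (Γ.cm e x) (l.filter fun d => d.1 ≠ e) (Γ.cm e y) := Con1_wk h

theorem con_vs {e : E} {x y : V} {l : List (Da E)} (h : Γ.Wk x l y) :
    ∀ z ∈ (Γ.con e).vs (Γ.cm e x) (l.filter fun d => d.1 ≠ e), ∃ z' ∈ Γ.vs x l, Γ.cm e z' = z := by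
  have _ := h
  exact Con1_vs

theorem con_VS {e : E} : (Γ.con e).VS ⊆ Γ.cm e '' Γ.VS := Con1_VS

/-- four vertices: one that is different from three given ones -/
theorem exists_fourth (h4 : 4 ≤ Γ.nV) (a b c : V) : ∃ q ∈ Γ.VS, q ≠ a ∧ q ≠ b ∧ q ≠ c := Con1_fourth h4 a b c

theorem exists_third (h3 : 3 ≤ Γ.nV) (a b : V) : ∃ q ∈ Γ.VS, q ≠ a ∧ q ≠ b := Con1_third h3 a b

end Pool.Agent.FRM
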