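import Pool.Agent.FRM.Cb2
import Pool.Agent.FRM.Fdh
import Pool.Agent.FRM.Con1

/-!
# FRM/Chd: chords of a Hamiltonian bad cycle

PROOF PLAN.  `hH`: every bad cycle of `v` contains all vertices.
`chord_gain`: `f` a chord, `s f = u`, `t f = w` or reversed (let `d` be the dart of `f` from `u` to `w`), both paths with at least two edges.  If `gn R = dg d`: `Cy u w R [d]`, `Cy u w R' [d]` are balanced; if neither is bad then
`tv R = tv [d] = tv R'`: contradiction; if `Bad u w R [d]`: `R'` has an inner vertex (`pt_inner`), which is not on `R`: contradiction to `hH`; same for `R'`.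
`no_cross`: `R = R₁ ++ R₂` at `a`, `R' = R₁' ++ R₂'` at `b`; `d : u → w`, `d' : a → b`.  `h = dg d - gn R ≠ 0` (`chord_gain`), `h ∈ hx` (`Phi`); `h' = dg d' - (gn R₁' - gn R₁)`; the cycle, split at `a, b` (`rs_cross`), and `chord_gain` give `h' ∈ hx` (both of its arcs have at least two edges).
Cycles `Cy u w [d] (R₁ ++ [d'] ++ R₂')` (difference `h - h'`) and `Cy u w [d] (R₁' ++ [fl d'] ++ R₂)` (difference `h + h'`): `hx_cross`.
`exists_chord`: let `z` be on the cycle.  Split it at `z` and another vertex; the first darts of `R` and `R'` lead to the neighbours `n₁, n₂` of `z` on the cycle.  A fourth vertex `q` (`exists_fourth`), a walk from `z` to `q` avoiding `n₁, n₂` (`C3`), made simple: its first dart `d` goes from `z` to `z' ≠ n₁, n₂`; it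
is not on the cycle; split the cycle at `z, z'`: both arcs have at least two edges.
`no_bad`: choose a bad cycle `(u, w, R, R')` and a dart `d : u → w` of an edge not on the cycle with `2 ≤ R.length`, `2 ≤ R'.length` and `R.length` minimal.  Let `a` be an inner vertex of `R` and `d' : a → b` a chord at `a` (`exists_chord`).  `b` inner on `R'`: `no_cross`.  Otherwise `b` is on `R`:
`R = R₁ ++ R₂ ++ R₃` with the ends `a, b` of `R₂` in some order, `bad_same` gives a bad cycle with a shorter arc `R₂` (its length is at least 2 because the chord `d'` has both arcs of length at least 2: the arcs between `a` and `b` are determined by the cycle; use the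
arcs given by `exists_chord` or the fact that `n₁, n₂ ≠ b`).
-/

set_option autoImplicit false

noncomputable section

open scoped Classical

namespace Pool.Agent.FRM

open GG

variable {V E : Type} {k : Type} [Field k] {ω : k} {Γ : GG V E Lt}


private theorem Chd_ends {d d0 : Da E} (h : d.1 = d0.1) :
    (Γ.src d = Γ.src d0 ∧ Γ.tgt d = Γ.tgt d0) ∨ (Γ.src d = Γ.tgt d0 ∧ Γ.tgt d = Γ.src d0) := by
  obtain ⟨e, b⟩ := d
  obtain ⟨e', b'⟩ := d0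
  simp only at h
  subst h
  cases b <;> cases b' <;> simp [GG.src, GG.tgt]

private theorem Chd_ne {d : Da E} : Γ.src d ≠ Γ.tgt d ↔ Γ.s d.1 ≠ Γ.t d.1 := by
  obtain ⟨e, b⟩ := d
  cases b
  · simp [GG.src, GG.tgt, ne_comm]
  · simp [GG.src, GG.tgt]

private theorem Chd_single {u w : V} {d : Da E} (huw : u ≠ w) (hd : d.1 ∈ Γ.A) (hs : Γ.src d = u) (ht : Γ.tgt d = w) :
    Γ.Pt u [d] w := by
  subst hs
  subst ht
  exact pt_single hd (Chd_ne.1 huw)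

private theorem Chd_vs1 {u z : V} {d : Da E} (h : z ∈ Γ.vs u [d]) : z = u ∨ z = Γ.tgt d := by
  simpa [GG.vs] using h

private theorem Chd_cy {u w : V} {P : List (Da E)} {d : Da E} (hp : Γ.Pt u P w) (huw : u ≠ w) (hd : d.1 ∈ Γ.A)
    (hs : Γ.src d = u) (ht : Γ.tgt d = w) : Γ.Cy u w [d] P := by
  refine ⟨huw, Chd_single huw hd hs ht, hp, ?_⟩
  intro z hz _
  rcases Chd_vs1 hz with h | h
  · exact Or.inl h
  · exact Or.inr (h.trans ht)

private theorem Chd_gn1 (d : Da E) : Γ.gn [d] = Γ.dg d := by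
  simp [GG.gn]

private theorem Chd_srcVS {d : Da E} (hd : d.1 ∈ Γ.A) : Γ.src d ∈ Γ.VS := by
  refine ⟨d.1, hd, ?_⟩
  obtain ⟨e, b⟩ := d
  cases b <;> simp [GG.src]

private theorem Chd_tgtVS {d : Da E} (hd : d.1 ∈ Γ.A) : Γ.tgt d ∈ Γ.VS := by
  refine ⟨d.1, hd, ?_⟩
  obtain ⟨e, b⟩ := d
  cases b <;> simp [GG.tgt]

private theorem Chd_notbad {v : E → k} (hH : ∀ u w R R', Bad ω Γ v u w R R' → ∀ z ∈ Γ.VS, z ∈ Γ.vs u R ∨ z ∈ Γ.vs u R')
    {u w : V} {R R' : List (Da E)} (hb : Bad ω Γ v u w R R') {d : Da E} (hd : d.1 ∈ Γ.A) (hs : Γ.src d = u) (ht : Γ.tgt d = w)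
    (h₂ : 2 ≤ R'.length) (hg : Γ.dg d = Γ.gn R) : tv ω Γ v R = tv ω Γ v [d] := by
  by_contra hne
  have hB : Bad ω Γ v u w R [d] :=
    ⟨cy_symm (Chd_cy hb.cy.p hb.cy.ne hd hs ht), by rw [Chd_gn1, hg], hne⟩
  obtain ⟨z, hz, hzu, hzw⟩ := pt_inner hb.cy.p' h₂
  have hu : u ∈ Γ.VS := hs ▸ Chd_srcVS hd
  have hzV : z ∈ Γ.VS := wk_VS hb.cy.p'.1 hu hz
  rcases hH _ _ _ _ hB z hzV with h | h
  · rcases hb.cy.dj z h hz with h' | h'
    · exact hzu h'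
    · exact hzw h'
  · rcases Chd_vs1 h with h' | h'
    · exact hzu h'
    · exact hzw (h'.trans ht)

theorem chord_gain {v : E → k} (hH : ∀ u w R R', Bad ω Γ v u w R R' → ∀ z ∈ Γ.VS, z ∈ Γ.vs u R ∨ z ∈ Γ.vs u R')
    {u w : V} {R R' : List (Da E)} (hb : Bad ω Γ v u w R R') {d : Da E} (hd : d.1 ∈ Γ.A) (hs : Γ.src d = u) (ht : Γ.tgt d = w)
    (h₁ : 2 ≤ R.length) (h₂ : 2 ≤ R'.length) : Γ.dg d ≠ Γ.gn R := by
  intro hg
  have e1 := Chd_notbad hH hb hd hs ht h₂ hg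
  have e2 := Chd_notbad hH (bad_symm hb) hd hs ht h₁ (hg.trans hb.gn)
  exact hb.tv (e1.trans e2.symm)

/-- the bad cycle split at inner vertices of the two paths -/
private theorem Chd_badcross (hω : ω ^ 2 + ω + 1 = 0) {v : E → k} {u w a b : V} {R₁ R₂ R₁' R₂' : List (Da E)}
    (hb : Bad ω Γ v u w (R₁ ++ R₂) (R₁' ++ R₂')) (h₁ : Γ.Wk u R₁ a) (h₁' : Γ.Wk u R₁' b) (ha : a ≠ u ∧ a ≠ w)
    (hb' : b ≠ u ∧ b ≠ w) : Bad ω Γ v a b (rv R₁ ++ R₁') (R₂ ++ rv R₂') := by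
  have hg := hb.gn
  rw [gn_append, gn_append] at hg
  have hg2 : Γ.gn R₂ - Γ.gn R₂' = Γ.gn R₁' - Γ.gn R₁ := by
    rw [sub_eq_sub_iff_add_eq_add, add_comm, hg, add_comm]
  refine ⟨rs_cross hb.cy h₁ h₁' ha hb', ?_, ?_⟩
  · rw [gn_append, gn_append, gn_rv, gn_rv, ← sub_eq_add_neg, hg2]
    abel
  · intro he
    apply hb.tv
    rw [tv_append hω, tv_append hω, tv_rv hω, tv_rv hω, gn_rv] at he
    rw [tv_append hω, tv_append hω]
    have hc : ch ω (Γ.gn R₁) * ch ω (-Γ.gn R₁) = 1 := by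
      rw [← ch_add hω, add_neg_cancel, ch_zero]
    have hc2 : ch ω (Γ.gn R₁) * (ch ω (Γ.gn R₂) * ch ω (-Γ.gn R₂')) = ch ω (Γ.gn R₁') := by
      rw [← ch_add hω, ← ch_add hω, ← sub_eq_add_neg, hg2]
      congr 1
      abel
    linear_combination (-ch ω (Γ.gn R₁)) * he + (tv ω Γ v R₁' - tv ω Γ v R₁) * hc + tv ω Γ v R₂' * hc2

/-- the path that uses the crossing chord -/
private theorem Chd_crosspath {u w a b : V} {R₁ R₂ R₁' R₂' : List (Da E)}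
    (hc : Γ.Cy u w (R₁ ++ R₂) (R₁' ++ R₂')) (h₁ : Γ.Wk u R₁ a) (h₁' : Γ.Wk u R₁' b) (ha : a ≠ u ∧ a ≠ w)
    (hb' : b ≠ u ∧ b ≠ w) {d : Da E} (hd : d.1 ∈ Γ.A) (hs : Γ.src d = a) (ht : Γ.tgt d = b) :
    Γ.Pt u (R₁ ++ [d] ++ R₂') w := by
  obtain ⟨a', p1, p2, p3⟩ := pt_split hc.p
  have haa : a' = a := wk_unique p1.1 h₁
  subst haa
  obtain ⟨b', q1, q2, q3⟩ := pt_split hc.p'
  have hbb : b' = b := wk_unique q1.1 h₁'
  subst hbb
  have hab : a' ≠ b' := by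
    intro h
    have : a' ∈ Γ.vs u (R₁ ++ R₂) := (mem_vs_append p1.1).2 (Or.inl (wk_last p1.1))
    have h2 : a' ∈ Γ.vs u (R₁' ++ R₂') := (mem_vs_append q1.1).2 (Or.inl (h ▸ wk_last q1.1))
    rcases hc.dj _ this h2 with h | h
    · exact ha.1 h
    · exact ha.2 h
  have hdis : ∀ z ∈ Γ.vs u R₁, z ∈ Γ.vs b' R₂' → False := by
    intro z hz hz'
    have m1 : z ∈ Γ.vs u (R₁ ++ R₂) := (mem_vs_append p1.1).2 (Or.inl hz)
    have m2 : z ∈ Γ.vs u (R₁' ++ R₂') := (mem_vs_append q1.1).2 (Or.inr hz')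
    rcases hc.dj _ m1 m2 with h | h
    · subst h
      exact hb'.1 (q3 _ (wk_first _ _) hz').symm
    · subst h
      exact ha.2 (p3 _ hz (wk_last p2.1)).symm
  have s1 : Γ.Pt a' [d] b' := Chd_single hab hd hs ht
  have s2 : Γ.Pt u (R₁ ++ [d]) b' := by
    refine pt_append p1 s1 ?_
    intro z hz hz'
    rcases Chd_vs1 hz' with h | h
    · exact h
    · exfalso
      rw [ht] at h
      subst h
      exact hdis _ hz (wk_first _ _)
  refine pt_append s2 q2 ?_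
  intro z hz hz'
  rcases (mem_vs_append p1.1).1 hz with h | h
  · exact (hdis z h hz').elim
  · rcases Chd_vs1 h with h | h
    · subst h
      exact (hdis z (wk_last p1.1) hz').elim
    · exact h.trans ht

private theorem Chd_len2 {u a : V} {l : List (Da E)} (h : Γ.Wk u l a) (hne : a ≠ u) : 1 ≤ l.length := by
  rcases l with _ | ⟨d, l⟩
  · exact (hne h.symm).elim
  · simp

theorem no_cross (hω : ω ^ 2 + ω + 1 = 0) (hΦ : Γ.Phi (hx : Set Lt)) {v : E → k}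
    (hH : ∀ u w R R', Bad ω Γ v u w R R' → ∀ z ∈ Γ.VS, z ∈ Γ.vs u R ∨ z ∈ Γ.vs u R')
    {u w : V} {R R' : List (Da E)} (hb : Bad ω Γ v u w R R') {d d' : Da E} (hd : d.1 ∈ Γ.A) (hs : Γ.src d = u) (ht : Γ.tgt d = w)
    (hd' : d'.1 ∈ Γ.A) (ha : Γ.src d' ∈ Γ.vs u R) (ha₁ : Γ.src d' ≠ u) (ha₂ : Γ.src d' ≠ w)
    (hb' : Γ.tgt d' ∈ Γ.vs u R') (hb₁ : Γ.tgt d' ≠ u) (hb₂ : Γ.tgt d' ≠ w) : False := by
  have l1 : 2 ≤ R.length := pt_two hb.cy.p ha ha₁ ha₂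
  have l2 : 2 ≤ R'.length := pt_two hb.cy.p' hb' hb₁ hb₂
  have hne := chord_gain hH hb hd hs ht l1 l2
  obtain ⟨R₁, R₂, rfl, p1, p2, -⟩ := pt_split_at hb.cy.p ha
  obtain ⟨R₁', R₂', rfl, q1, q2, -⟩ := pt_split_at hb.cy.p' hb'
  have hB := Chd_badcross hω hb p1.1 q1.1 ⟨ha₁, ha₂⟩ ⟨hb₁, hb₂⟩
  have n1 := Chd_len2 p1.1 ha₁
  have n1' := Chd_len2 q1.1 hb₁
  have n2 := Chd_len2 p2.1 ha₂.symm
  have n2' := Chd_len2 q2.1 hb₂.symm
  have hne' := chord_gain hH hB hd' rfl rfl (by simp [rv_length]; omega) (by simp [rv_length]; omega)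
  have hh : Γ.dg d - Γ.gn (R₁ ++ R₂) ∈ hx := by
    rcases hΦ _ _ _ _ (Chd_cy hb.cy.p hb.cy.ne hd hs ht) with h | h
    · rw [Chd_gn1] at h
      exact (hne (sub_eq_zero.1 h)).elim
    · rw [Chd_gn1] at h
      exact Finset.mem_coe.1 h
  have hh' : Γ.dg d' - Γ.gn (rv R₁ ++ R₁') ∈ hx := by
    rcases hΦ _ _ _ _ (Chd_cy hB.cy.p hB.cy.ne hd' rfl rfl) with h | h
    · rw [Chd_gn1] at h
      exact (hne' (sub_eq_zero.1 h)).elim
    · rw [Chd_gn1] at h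
      exact Finset.mem_coe.1 h
  have c1 : Γ.Cy u w [d] (R₁ ++ [d'] ++ R₂') :=
    Chd_cy (Chd_crosspath hb.cy p1.1 q1.1 ⟨ha₁, ha₂⟩ ⟨hb₁, hb₂⟩ hd' rfl rfl) hb.cy.ne hd hs ht
  have c2 : Γ.Cy u w [d] (R₁' ++ [fl d'] ++ R₂) :=
    Chd_cy (Chd_crosspath (cy_symm hb.cy) q1.1 p1.1 ⟨hb₁, hb₂⟩ ⟨ha₁, ha₂⟩ (d := fl d') hd' (src_fl d') (tgt_fl d'))
      hb.cy.ne hd hs ht
  have hg := hb.gn
  rw [gn_append, gn_append] at hg
  have x1 := hΦ _ _ _ _ c1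
  have x2 := hΦ _ _ _ _ c2
  rw [Chd_gn1, gn_append, gn_append, Chd_gn1] at x1 x2
  rw [dg_fl] at x2
  rw [gn_append] at hh hh'
  rw [gn_rv] at hh'
  have e1 : Γ.dg d - (Γ.gn R₁ + Γ.dg d' + Γ.gn R₂') =
      (Γ.dg d - (Γ.gn R₁ + Γ.gn R₂)) - (Γ.dg d' - (-Γ.gn R₁ + Γ.gn R₁')) := by
    rw [hg]
    abel
  have e2 : Γ.dg d - (Γ.gn R₁' + -Γ.dg d' + Γ.gn R₂) =
      (Γ.dg d - (Γ.gn R₁ + Γ.gn R₂)) + (Γ.dg d' - (-Γ.gn R₁ + Γ.gn R₁')) := by
    abel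
  rw [e1] at x1
  rw [e2] at x2
  exact hx_cross hh hh' (by simpa using x1) (by simpa using x2)

/-- an edge of a simple path at its first vertex is the first edge -/
private theorem Chd_first {z y z' : V} {s : Da E} {S : List (Da E)} (h : Γ.Pt z (s :: S) y) {d₀ : Da E}
    (hs : Γ.src d₀ = z) (ht : Γ.tgt d₀ = z') (hz : z' ≠ Γ.tgt s) (he : d₀.1 ∈ eds (s :: S)) : False := by
  obtain ⟨d₁, hd₁, he₁⟩ := (mem_eds _ _).1 he
  have hw := h.1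
  obtain ⟨hA, hsrc, hw'⟩ := hw
  have hnd : z ∉ Γ.vs (Γ.tgt s) S := by
    have := h.2
    simp only [GG.vs, List.map_cons, List.nodup_cons] at this
    exact this.1
  rcases List.mem_cons.1 hd₁ with h1 | h1
  · subst h1
    rcases Chd_ends (Γ := Γ) he₁ with ⟨-, h3⟩ | ⟨-, h3⟩
    · exact hz (ht.symm.trans h3.symm)
    · apply hnd
      rw [← hs, ← h3]
      exact wk_first _ _
  · obtain ⟨-, m1, m2⟩ := wk_mem hw' _ h1
    rcases Chd_ends (Γ := Γ) he₁ with ⟨h3, -⟩ | ⟨-, h3⟩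
    · exact hnd (by rw [← hs, ← h3]; exact m1)
    · exact hnd (by rw [← hs, ← h3]; exact m2)

private theorem Chd_cons {u a : V} {l : List (Da E)} (h : Γ.Wk u l a) (hne : u ≠ a) : ∃ s S, l = s :: S := by
  rcases l with _ | ⟨s, S⟩
  · exact (hne h).elim
  · exact ⟨s, S, rfl⟩

theorem exists_chord (hω : ω ^ 2 + ω + 1 = 0) (hΓ : Γ.C2) (hC : Γ.C3) (h4 : 4 ≤ Γ.nV) {v : E → k}
    (hH : ∀ u w R R', Bad ω Γ v u w R R' → ∀ z ∈ Γ.VS, z ∈ Γ.vs u R ∨ z ∈ Γ.vs u R')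
    {u w : V} {R R' : List (Da E)} (hb : Bad ω Γ v u w R R') {z : V} (hz : z ∈ Γ.VS) :
    ∃ d : Da E, d.1 ∈ Γ.A ∧ Γ.src d = z ∧ ∀ Q Q', Bad ω Γ v z (Γ.tgt d) Q Q' →
      (∀ e, (e ∈ eds Q ∨ e ∈ eds Q') ↔ (e ∈ eds R ∨ e ∈ eds R')) → 2 ≤ Q.length ∧ 2 ≤ Q'.length := by
  have hzR := hH _ _ _ _ hb z hz
  obtain ⟨y, hy, hyz⟩ : ∃ y, (y ∈ Γ.vs u R ∨ y ∈ Γ.vs u R') ∧ z ≠ y := by
    by_cases h : z = u
    · exact ⟨w, Or.inl (wk_last hb.cy.p.1), h ▸ hb.cy.ne⟩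
    · exact ⟨u, Or.inl (wk_first _ _), h⟩
  obtain ⟨S, S', hB, -, hE⟩ := bad_resplit hω hb hzR hy hyz
  obtain ⟨s, S₁, rfl⟩ := Chd_cons hB.cy.p.1 hyz
  obtain ⟨s', S₁', rfl⟩ := Chd_cons hB.cy.p'.1 hyz
  have hn : z ≠ Γ.tgt s := by
    intro h
    have := hB.cy.p.2
    simp only [GG.vs, List.map_cons, List.nodup_cons] at this
    exact this.1 (by rw [h]; exact List.mem_cons_self)
  have hn' : z ≠ Γ.tgt s' := by
    intro h
    have := hB.cy.p'.2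
    simp only [GG.vs, List.map_cons, List.nodup_cons] at this
    exact this.1 (by rw [h]; exact List.mem_cons_self)
  obtain ⟨q, hq, hq1, hq2, hq3⟩ := exists_fourth h4 z (Γ.tgt s) (Γ.tgt s')
  obtain ⟨l, hl, hl1, hl2⟩ := hC (Γ.tgt s) (Γ.tgt s') z hz q hq hn hn' hq2 hq3
  obtain ⟨l', hp, hv, -⟩ := pt_of_wk hl
  obtain ⟨d, L, rfl⟩ := Chd_cons hp.1 hq1.symm
  obtain ⟨hA, hsrc, -⟩ := hp.1
  have ht : Γ.tgt d ∈ Γ.vs z (d :: L) := by
    simp [GG.vs]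
  have ht1 : Γ.tgt d ≠ Γ.tgt s := fun h => hl1 (h ▸ hv _ ht)
  have ht2 : Γ.tgt d ≠ Γ.tgt s' := fun h => hl2 (h ▸ hv _ ht)
  have key : ∀ Q : List (Da E), Γ.Pt z Q (Γ.tgt d) → z ≠ Γ.tgt d →
      (∀ e ∈ eds Q, e ∈ eds (s :: S₁) ∨ e ∈ eds (s' :: S₁')) → 2 ≤ Q.length := by
    intro Q hQ hne hQe
    by_contra hlt
    obtain ⟨d₀, Q₁, rfl⟩ := Chd_cons hQ.1 hne
    have hQ1 : Q₁ = [] := by
      apply List.eq_nil_of_length_eq_zero
      simp only [List.length_cons] at hlt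
      omega
    subst hQ1
    obtain ⟨hA0, hs0, ht0⟩ := hQ.1
    have ht0' : Γ.tgt d₀ = Γ.tgt d := ht0
    have hmem : d₀.1 ∈ eds [d₀] := (mem_eds _ _).2 ⟨d₀, List.mem_cons_self, rfl⟩
    rcases hQe _ hmem with h | h
    · exact Chd_first hB.cy.p hs0 ht0' ht1 h
    · exact Chd_first hB.cy.p' hs0 ht0' ht2 h
  refine ⟨d, hA, hsrc, ?_⟩
  intro Q Q' hQ hQe
  refine ⟨key Q hQ.cy.p hQ.cy.ne ?_, key Q' hQ.cy.p' hQ.cy.ne ?_⟩
  · intro e he
    exact (hE e).2 ((hQe e).1 (Or.inl he))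
  · intro e he
    exact (hE e).2 ((hQe e).1 (Or.inr he))

private theorem Chd_min (hω : ω ^ 2 + ω + 1 = 0) (hΓ : Γ.C2) (hC : Γ.C3) (h4 : 4 ≤ Γ.nV) (hΦ : Γ.Phi (hx : Set Lt)) {v : E → k}
    (hH : ∀ u w R R', Bad ω Γ v u w R R' → ∀ z ∈ Γ.VS, z ∈ Γ.vs u R ∨ z ∈ Γ.vs u R') :
    ∀ (n : ℕ) (u w : V) (R R' : List (Da E)) (d : Da E), R.length = n → Bad ω Γ v u w R R' → d.1 ∈ Γ.A → Γ.src d = u →
      Γ.tgt d = w → 2 ≤ R.length → 2 ≤ R'.length → False := by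
  intro n
  induction n using Nat.strong_induction_on with
  | _ n ih =>
    intro u w R R' d hn hb hd hs ht h₁ h₂
    obtain ⟨a, ha, hau, haw⟩ := pt_inner hb.cy.p h₁
    have hu : u ∈ Γ.VS := hs ▸ Chd_srcVS hd
    have haV : a ∈ Γ.VS := wk_VS hb.cy.p.1 hu ha
    obtain ⟨d', hd', hs', hprop⟩ := exists_chord hω hΓ hC h4 hH hb haV
    have hab : a ≠ Γ.tgt d' := by
      rw [← hs']
      exact Chd_ne.2 (hΓ.lf _ hd')
    have hbR : Γ.tgt d' ∈ Γ.vs u R := by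
      by_contra hbR
      have hbR' : Γ.tgt d' ∈ Γ.vs u R' := (hH _ _ _ _ hb _ (Chd_tgtVS hd')).resolve_left hbR
      refine no_cross hω hΦ hH hb hd hs ht hd' (hs'.symm ▸ ha) (hs'.symm ▸ hau) (hs'.symm ▸ haw) hbR' ?_ ?_
      · intro h
        exact hbR (h ▸ wk_first _ _)
      · intro h
        exact hbR (h ▸ wk_last hb.cy.p.1)
    obtain ⟨l₁, l₂, rfl, p1, p2, -⟩ := pt_split_at hb.cy.p ha
    rcases (mem_vs_append p1.1).1 hbR with hm | hm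
    · obtain ⟨m₁, m₂, rfl, q1, q2, -⟩ := pt_split_at p1 hm
      have hB := bad_rv hω (bad_same hω hb q1.1 q2.1 hab.symm)
      have hlen := hprop _ _ hB (by
        intro e
        simp only [eds_rv, eds_append, Finset.mem_union]
        tauto)
      have n2 := Chd_len2 p2.1 haw.symm
      refine ih _ ?_ _ _ _ _ d' rfl hB hd' hs' rfl hlen.1 hlen.2
      rw [← hn, rv_length]
      simp only [List.length_append]
      omega
    · obtain ⟨m₁, m₂, rfl, q1, q2, -⟩ := pt_split_at p2 hm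
      have hb2 : Bad ω Γ v u w (l₁ ++ m₁ ++ m₂) R' := by rw [List.append_assoc]; exact hb
      have hB := bad_same hω hb2 p1.1 q1.1 hab
      have hlen := hprop _ _ hB (by
        intro e
        simp only [eds_rv, eds_append, Finset.mem_union]
        tauto)
      have n1 := Chd_len2 p1.1 hau
      refine ih _ ?_ _ _ _ _ d' rfl hB hd' hs' rfl hlen.1 hlen.2
      rw [← hn]
      simp only [List.length_append]
      omega

theorem no_bad (hω : ω ^ 2 + ω + 1 = 0) (hΓ : Γ.C2) (hC : Γ.C3) (h4 : 4 ≤ Γ.nV) (hΦ : Γ.Phi (hx : Set Lt)) {v : E → k}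
    (hH : ∀ u w R R', Bad ω Γ v u w R R' → ∀ z ∈ Γ.VS, z ∈ Γ.vs u R ∨ z ∈ Γ.vs u R') (u w : V) (R R' : List (Da E)) :
    ¬ Bad ω Γ v u w R R' := by
  intro hb
  have hu : u ∈ Γ.VS := by
    obtain ⟨s, S, rfl⟩ := Chd_cons hb.cy.p.1 hb.cy.ne
    obtain ⟨hA, hs, -⟩ := hb.cy.p.1
    exact hs ▸ Chd_srcVS hA
  obtain ⟨d, hd, hs, hprop⟩ := exists_chord hω hΓ hC h4 hH hb hu
  have hne : u ≠ Γ.tgt d := by
    intro h
    exact Chd_ne.2 (hΓ.lf _ hd) (hs.trans h)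
  obtain ⟨Q, Q', hB, -, hE⟩ := bad_resplit hω hb (Or.inl (wk_first _ _)) (hH _ _ _ _ hb _ (Chd_tgtVS hd)) hne
  have hlen := hprop _ _ hB hE
  exact Chd_min hω hΓ hC h4 hΦ hH _ _ _ _ _ d rfl hB hd hs rfl hlen.1 hlen.2

end Pool.Agent.FRM
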