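import Pool.Agent.FRM.Con1

/-!
# FRM/Con2: lifting paths and cycles from a contraction

PROOF PLAN.  Let `x = s e`, `y = t e`, `x ≠ y`; in `Γ.con e` all edges at `y` are at `x` (and `y` is not a vertex of a path, except a trivial one).
`con_lift_pt`: a path `P` of `Γ.con e` from `u'` to `w'`, `u' ≠ w'`, which does not pass through `x`, is a path of `Γ` with the same vertices.  If it passes through `x` as an inner vertex,
`P = P₁ ++ P₂`, the last end of `P₁` in `Γ` is `x` or `y`, the first one of `P₂` too: insert `(e, true)`, `(e, false)` or nothing between them.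
If `u' = x`: the first edge of `P` starts in `Γ` at `x` or at `y`: this gives a lift which starts at one of them, and, adding the edge `e` in front, also one that starts at the other one.  Same for `w' = x`.
`con_lift`: two internally disjoint paths `P, P'`.  `x` is an inner vertex of at most one of them: lift it, the other one is unchanged.  If `u' = x`: choose `u` = the first vertex of `P` in `Γ`; then
`P'` is lifted so that it starts at `u` (possibly with the edge `e` in front; then the other end of `e` is not on the lift of `P`).  Same for `w' = x`.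
-/

set_option autoImplicit false

noncomputable section

open scoped Classical

namespace Pool.Agent.FRM

open GG

variable {V E Q : Type} [AddCommGroup Q] {Γ : GG V E Q}


private def Con2_lf (Γ : GG V E Q) (e : E) : V → List (Da E) → List (Da E)
  | _, [] => []
  | c, d :: l => if Γ.src d = c then d :: Con2_lf Γ e (Γ.tgt d) l
      else (if c = Γ.s e then (e, true) else (e, false)) :: d :: Con2_lf Γ e (Γ.tgt d) l

private def Con2_ev (Γ : GG V E Q) : V → List (Da E) → V
  | c, [] => c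
  | _, d :: l => Con2_ev Γ (Γ.tgt d) l

omit [AddCommGroup Q] in
private theorem Con2_src (e : E) (d : Da E) : (Γ.con e).src d = Γ.cm e (Γ.src d) := by
  obtain ⟨f, b⟩ := d
  cases b <;> rfl

omit [AddCommGroup Q] in
private theorem Con2_tgt (e : E) (d : Da E) : (Γ.con e).tgt d = Γ.cm e (Γ.tgt d) := by
  obtain ⟨f, b⟩ := d
  cases b <;> rfl

omit [AddCommGroup Q] in
private theorem Con2_cm_eq {e : E} {z z' : V} (h : Γ.cm e z = z') (hz : z' ≠ Γ.s e) : z = z' := by
  unfold cm at h
  split_ifs at h with h1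
  · exact absurd h.symm hz
  · exact h

omit [AddCommGroup Q] in
private theorem Con2_cm_two {e : E} {z z' : V} (h : Γ.cm e z = Γ.cm e z') (hne : z' ≠ z) :
    (z = Γ.s e ∧ z' = Γ.t e) ∨ (z ≠ Γ.s e ∧ z = Γ.t e ∧ z' = Γ.s e) := by
  unfold cm at h
  split_ifs at h with h1 h2 h2
  · exact absurd (h2.trans h1.symm) hne
  · by_cases h3 : z = Γ.s e
    · exact absurd (h.symm.trans h3.symm) hne
    · exact Or.inr ⟨h3, h1, h.symm⟩
  · exact Or.inl ⟨h, h2⟩
  · exact absurd h.symm hne

omit [AddCommGroup Q] in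
private theorem Con2_vs_cons (Γ : GG V E Q) (x : V) (d : Da E) (l : List (Da E)) :
    Γ.vs x (d :: l) = x :: Γ.vs (Γ.tgt d) l := rfl

private theorem Con2_wk {e : E} (he : e ∈ Γ.A) {w' : V} (l : List (Da E)) :
    ∀ {u' c : V}, (Γ.con e).Wk u' l w' → Γ.cm e c = u' →
      Γ.Wk c (Con2_lf Γ e c l) (Con2_ev Γ c l) ∧ Γ.cm e (Con2_ev Γ c l) = w' ∧
        ((Con2_lf Γ e c l).filter fun d => d.1 ≠ e) = l ∧
        ∀ z ∈ Γ.vs c (Con2_lf Γ e c l), Γ.cm e z ∈ (Γ.con e).vs u' l := by
  induction l with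
  | nil =>
    intro u' c h hc
    have h' : u' = w' := h
    refine ⟨rfl, hc.trans h', rfl, ?_⟩
    intro z hz
    have hz' : z = c := by simpa [vs, Con2_lf] using hz
    rw [hz', hc]
    simp [vs]
  | cons d l ih =>
    intro u' c h hc
    obtain ⟨h1, h2, h3⟩ := h
    have hd : d.1 ∈ Γ.A := Finset.mem_of_mem_erase h1
    have hde : d.1 ≠ e := Finset.ne_of_mem_erase h1
    rw [Con2_src] at h2
    rw [Con2_tgt] at h3
    obtain ⟨i1, i2, i3, i4⟩ := ih h3 rfl
    have hvs : (Γ.con e).vs u' (d :: l) = u' :: (Γ.con e).vs (Γ.cm e (Γ.tgt d)) l := by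
      rw [Con2_vs_cons, Con2_tgt]
    rw [hvs]
    have hev : Con2_ev Γ c (d :: l) = Con2_ev Γ (Γ.tgt d) l := rfl
    rw [hev]
    by_cases hs : Γ.src d = c
    · have hlf : Con2_lf Γ e c (d :: l) = d :: Con2_lf Γ e (Γ.tgt d) l := by
        rw [Con2_lf, if_pos hs]
      rw [hlf]
      refine ⟨⟨hd, hs, i1⟩, i2, ?_, ?_⟩
      · rw [List.filter_cons_of_pos (by simpa using hde), i3]
      · intro z hz
        rw [Con2_vs_cons, List.mem_cons] at hz
        rcases hz with hz | hz
        · rw [hz, hc]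
          exact List.mem_cons_self
        · exact List.mem_cons_of_mem _ (i4 z hz)
    · have hlf : Con2_lf Γ e c (d :: l) =
          (if c = Γ.s e then (e, true) else (e, false)) :: d :: Con2_lf Γ e (Γ.tgt d) l := by
        rw [Con2_lf, if_neg hs]
      rw [hlf]
      obtain ⟨b, hb, hb1, hb2⟩ : ∃ b : Da E, (if c = Γ.s e then (e, true) else (e, false)) = b ∧
          b.1 = e ∧ (Γ.src b = c ∧ Γ.tgt b = Γ.src d) := by
        rcases Con2_cm_two (hc.trans h2.symm) hs with h5 | h5
        · refine ⟨(e, true), if_pos h5.1, rfl, ?_, ?_⟩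
          · exact h5.1.symm
          · exact h5.2.symm
        · refine ⟨(e, false), if_neg h5.1, rfl, ?_, ?_⟩
          · exact h5.2.1.symm
          · exact h5.2.2.symm
      rw [hb]
      refine ⟨⟨hb1 ▸ he, hb2.1, hd, hb2.2.symm, i1⟩, i2, ?_, ?_⟩
      · rw [List.filter_cons_of_neg (by simpa using hb1), List.filter_cons_of_pos (by simpa using hde), i3]
      · intro z hz
        rw [Con2_vs_cons, Con2_vs_cons, List.mem_cons, List.mem_cons] at hz
        rcases hz with hz | hz | hz
        · rw [hz, hc]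
          exact List.mem_cons_self
        · rw [hz, hb2.2, h2]
          exact List.mem_cons_self
        · exact List.mem_cons_of_mem _ (i4 z hz)

private theorem Con2_nd {e : E} (he : e ∈ Γ.A) {w' : V} (l : List (Da E)) :
    ∀ {u' c : V}, (Γ.con e).Pt u' l w' → Γ.cm e c = u' → (Γ.vs c (Con2_lf Γ e c l)).Nodup := by
  induction l with
  | nil =>
    intro u' c _ _
    simp [vs, Con2_lf]
  | cons d l ih =>
    intro u' c h hc
    obtain ⟨⟨h1, h2, h3⟩, hn⟩ := h
    rw [Con2_vs_cons, List.nodup_cons] at hn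
    have i1 := ih ⟨h3, hn.2⟩ (Con2_tgt e d).symm
    rw [Con2_src] at h2
    obtain ⟨_, _, _, i4⟩ := Con2_wk he l h3 (Con2_tgt e d).symm
    have hno : ∀ z, Γ.cm e z = u' → z ∉ Γ.vs (Γ.tgt d) (Con2_lf Γ e (Γ.tgt d) l) := by
      intro z hz hm
      have := i4 z hm
      rw [hz] at this
      exact hn.1 this
    by_cases hs : Γ.src d = c
    · have hlf : Con2_lf Γ e c (d :: l) = d :: Con2_lf Γ e (Γ.tgt d) l := by
        rw [Con2_lf, if_pos hs]
      rw [hlf, Con2_vs_cons, List.nodup_cons]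
      exact ⟨hno c hc, i1⟩
    · have hlf : Con2_lf Γ e c (d :: l) =
          (if c = Γ.s e then (e, true) else (e, false)) :: d :: Con2_lf Γ e (Γ.tgt d) l := by
        rw [Con2_lf, if_neg hs]
      have ht : Γ.tgt (if c = Γ.s e then (e, true) else (e, false)) = Γ.src d := by
        rcases Con2_cm_two (hc.trans h2.symm) hs with h5 | h5
        · rw [if_pos h5.1]
          exact h5.2.symm
        · rw [if_neg h5.1]
          exact h5.2.2.symm
      rw [hlf, Con2_vs_cons, Con2_vs_cons, ht, List.nodup_cons, List.nodup_cons, List.mem_cons]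
      refine ⟨?_, hno _ h2, i1⟩
      rintro (h5 | h5)
      · exact hs h5.symm
      · exact hno c hc h5

private theorem Con2_liftA {e : E} (he : e ∈ Γ.A) {u' w' : V} {P P' : List (Da E)}
    (h : (Γ.con e).Cy u' w' P P') (hw : w' ≠ Γ.s e) :
    ∃ u R R', Γ.Cy u w' R R' ∧ (R.filter fun d => d.1 ≠ e) = P ∧ (R'.filter fun d => d.1 ≠ e) = P' ∧
      Γ.cm e u = u' ∧ Γ.cm e w' = w' := by
  obtain ⟨hne, hp, hp', hdj⟩ := h
  cases P with
  | nil => exact absurd hp.1 hne
  | cons d l =>
    have hp0 := hp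
    obtain ⟨⟨h1, h2, h3⟩, hn⟩ := hp0
    rw [Con2_src] at h2
    rw [Con2_vs_cons, List.nodup_cons] at hn
    obtain ⟨a1, a2, a3, a4⟩ := Con2_wk he (d :: l) hp.1 h2
    obtain ⟨b1, b2, b3, b4⟩ := Con2_wk he P' hp'.1 h2
    have ea := Con2_cm_eq a2 hw
    have eb := Con2_cm_eq b2 hw
    rw [ea] at a1 a2
    rw [eb] at b1
    refine ⟨Γ.src d, Con2_lf Γ e (Γ.src d) (d :: l), Con2_lf Γ e (Γ.src d) P',
      ⟨?_, ⟨a1, Con2_nd he _ hp h2⟩, ⟨b1, Con2_nd he _ hp' h2⟩, ?_⟩, a3, b3, h2, a2⟩
    · intro h5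
      rw [h5, a2] at h2
      exact hne h2.symm
    · intro z hz hz'
      rcases hdj _ (a4 z hz) (b4 z hz') with h5 | h5
      · left
        have hlf : Con2_lf Γ e (Γ.src d) (d :: l) = d :: Con2_lf Γ e (Γ.tgt d) l := by
          rw [Con2_lf, if_pos rfl]
        rw [hlf, Con2_vs_cons, List.mem_cons] at hz
        rcases hz with hz | hz
        · exact hz
        · obtain ⟨_, _, _, i4⟩ := Con2_wk he l h3 (Con2_tgt e d).symm
          have h6 := i4 z hz
          rw [h5] at h6
          exact absurd h6 hn.1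
      · right
        exact Con2_cm_eq h5 hw

private theorem Con2_filter_rv (e : E) (l : List (Da E)) :
    ((rv l).filter fun d => d.1 ≠ e) = rv (l.filter fun d => d.1 ≠ e) := by
  induction l with
  | nil => simp [rv_nil]
  | cons d l ih =>
    rw [rv_cons, List.filter_append, ih]
    by_cases h : d.1 = e
    · have h' : (fl d).1 = e := h
      rw [List.filter_cons_of_neg (by simpa using h'), List.filter_cons_of_neg (by simpa using h)]
      simp
    · have h' : ¬ (fl d).1 = e := h
      rw [List.filter_cons_of_pos (by simpa using h'), List.filter_cons_of_pos (by simpa using h), rv_cons]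
      simp

theorem con_lift {e : E} (he : e ∈ Γ.A) (hl : Γ.s e ≠ Γ.t e) {u' w' : V} {P P' : List (Da E)}
    (h : (Γ.con e).Cy u' w' P P') :
    ∃ u w R R', Γ.Cy u w R R' ∧ (R.filter fun d => d.1 ≠ e) = P ∧ (R'.filter fun d => d.1 ≠ e) = P' ∧
      Γ.cm e u = u' ∧ Γ.cm e w = w' := by
  by_cases hw : w' = Γ.s e
  · have hu : u' ≠ Γ.s e := fun h5 => h.ne (h5.trans hw.symm)
    obtain ⟨u, R, R', h1, h2, h3, h4, h5⟩ := Con2_liftA he (cy_rv h) hu
    refine ⟨u', u, rv R, rv R', cy_rv h1, ?_, ?_, h5, h4⟩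
    · rw [Con2_filter_rv, h2, rv_rv]
    · rw [Con2_filter_rv, h3, rv_rv]
  · obtain ⟨u, R, R', h1, h2, h3, h4, h5⟩ := Con2_liftA he h hw
    exact ⟨u, w', R, R', h1, h2, h3, h4, h5⟩

theorem gn_filter {e : E} (hg : Γ.g e = 0) (l : List (Da E)) : Γ.gn (l.filter fun d => d.1 ≠ e) = Γ.gn l := by
  induction l with
  | nil => rfl
  | cons d l ih =>
    by_cases h : d.1 = e
    · have hd : Γ.dg d = 0 := by
        unfold dg
        rw [h, hg]
        simp
      rw [List.filter_cons_of_neg (by simpa using h), ih, gn_cons, hd, zero_add]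
    · rw [List.filter_cons_of_pos (by simpa using h), gn_cons, gn_cons, ih]

theorem con_Phi {e : E} (he : e ∈ Γ.A) (hl : Γ.s e ≠ Γ.t e) (hg : Γ.g e = 0) {Φ : Set Q} (h : Γ.Phi Φ) :
    (Γ.con e).Phi Φ := by
  intro u' w' P P' hc
  obtain ⟨u, w, R, R', h1, h2, h3, _, _⟩ := con_lift he hl hc
  have e1 : (Γ.con e).gn P = Γ.gn R := by
    rw [← gn_filter hg R, h2]
    rfl
  have e2 : (Γ.con e).gn P' = Γ.gn R' := by
    rw [← gn_filter hg R', h3]
    rfl
  rw [e1, e2]
  exact h u w R R' h1

theorem con_InS {e : E} (hg : Γ.g e = 0) {S : AddSubgroup Q} (h : (Γ.con e).InS S) : Γ.InS S := by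
  obtain ⟨p, hp⟩ := h
  refine ⟨fun z => p (Γ.cm e z), ?_⟩
  intro f hf
  by_cases hfe : f = e
  · have h1 : Γ.cm e (Γ.s e) = Γ.s e := by
      unfold cm
      split_ifs <;> rfl
    have h2 : Γ.cm e (Γ.t e) = Γ.s e := by
      unfold cm
      rw [if_pos rfl]
    rw [hfe]
    simp only
    rw [h1, h2, hg, zero_add, sub_self]
    exact S.zero_mem
  · exact hp f (Finset.mem_erase.2 ⟨hfe, hf⟩)

theorem con_not_Cyc {e : E} (hg : Γ.g e = 0) (h : ¬ Γ.Cyc) : ¬ (Γ.con e).Cyc := by
  rintro ⟨g, hg'⟩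
  exact h ⟨g, con_InS hg hg'⟩

end Pool.Agent.FRM
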