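import Pool.Agent.FRM.Con2
import Pool.Agent.FRM.Cb1
import Pool.Agent.FRM.Cb2

/-!
# FRM/Con3: cochains of a contraction

PROOF PLAN.  `tv_filter`: induction (`dv` of a dart of `e` is `0`, `ch (dg) = 1`).  `zc_con`: `con_lift`, `gn_filter`, `tv_filter`; note that `tv ω (Γ.con e) v = tv ω Γ v` (`rfl` or induction).
`cob_of_con`: `c ∘ cm e`.  `con_of_cob`: `v e = 0` gives `c (s e) = c (t e)`, so `c (cm e z) = c z`.
`con_bal`: let `x = s e`, `y = t e`.  If `R = R'` is a single edge, clear.  Case 1: `e` is not an edge of the cycle and one of `x, y` is not on it: then `R, R'` are internally disjoint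
paths of `Γ.con e` with the same vertices up to `cm e`, from `cm e u` to `cm e w` (`cm e` is injective on the vertices of the cycle).  Case 2: `e` is an edge of the cycle: the cycle has at least three vertices
(`Pfree`, and it is not the single edge `e`), so there is a vertex `z ≠ x, y` on it: split it at `x` and `z` (`resplit_tv`): `R₁, R₁' : x → z`, one of them contains `e`; the lists without `e` are internally disjoint paths
of `Γ.con e` from `x` to `z` (`cm e` identifies only `x` and `y`, which are consecutive on the cycle).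
-/

set_option autoImplicit false

noncomputable section

open scoped Classical

namespace Pool.Agent.FRM

open GG

variable {V E : Type} {k : Type} [Field k] {ω : k} {Γ : GG V E Lt}


theorem tv_filter {e : E} (hg : Γ.g e = 0) {v : E → k} (hv : v e = 0) (l : List (Da E)) :
    tv ω Γ v (l.filter fun d => d.1 ≠ e) = tv ω Γ v l := by
  induction l with
  | nil => rfl
  | cons d l ih =>
    by_cases h : d.1 = e
    · have hd : Γ.dg d = 0 := by
        unfold GG.dg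
        rw [h, hg]
        simp
      have hd' : dv ω Γ v d = 0 := by
        unfold dv
        rw [h, hv]
        simp
      rw [List.filter_cons_of_neg (by simpa using h), ih]
      show tv ω Γ v l = dv ω Γ v d + ch ω (Γ.dg d) * tv ω Γ v l
      rw [hd, hd', ch_zero, zero_add, one_mul]
    · rw [List.filter_cons_of_pos (by simpa using h)]
      show dv ω Γ v d + ch ω (Γ.dg d) * tv ω Γ v (l.filter fun d => d.1 ≠ e) =
        dv ω Γ v d + ch ω (Γ.dg d) * tv ω Γ v l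
      rw [ih]

theorem tv_con {e : E} (v : E → k) (l : List (Da E)) : tv ω (Γ.con e) v l = tv ω Γ v l := by
  induction l with
  | nil => rfl
  | cons d l ih =>
    show dv ω Γ v d + ch ω (Γ.dg d) * tv ω (Γ.con e) v l = dv ω Γ v d + ch ω (Γ.dg d) * tv ω Γ v l
    rw [ih]

private theorem Con3_cm_s (e : E) : Γ.cm e (Γ.s e) = Γ.s e := by
  unfold GG.cm
  split_ifs <;> rfl

private theorem Con3_cm_t (e : E) : Γ.cm e (Γ.t e) = Γ.s e := by
  unfold GG.cm
  rw [if_pos rfl]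

private theorem Con3_cm_ne {e : E} {z : V} (h : z ≠ Γ.t e) : Γ.cm e z = z := by
  unfold GG.cm
  rw [if_neg h]

private theorem Con3_cm_inj {e : E} {a b : V} (h : Γ.cm e a = Γ.cm e b) :
    a = b ∨ (a = Γ.s e ∧ b = Γ.t e) ∨ (a = Γ.t e ∧ b = Γ.s e) := by
  unfold GG.cm at h
  split_ifs at h with h1 h2 h2
  · exact Or.inl (h1.trans h2.symm)
  · exact Or.inr (Or.inr ⟨h1, h.symm⟩)
  · exact Or.inr (Or.inl ⟨h, h2⟩)
  · exact Or.inl h

theorem zc_con {e : E} (he : e ∈ Γ.A) (hl : Γ.s e ≠ Γ.t e) (hg : Γ.g e = 0) {v : E → k} (hv : v e = 0)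
    (h : Zc ω Γ v) : Zc ω (Γ.con e) v := by
  intro u' w' P P' hc hgn
  obtain ⟨u, w, R, R', h1, h2, h3, _, _⟩ := con_lift he hl hc
  have e1 : (Γ.con e).gn P = Γ.gn R := by
    rw [← gn_filter hg R, h2]
    rfl
  have e2 : (Γ.con e).gn P' = Γ.gn R' := by
    rw [← gn_filter hg R', h3]
    rfl
  have e3 : tv ω Γ v P = tv ω Γ v R := by
    rw [← tv_filter hg hv R, h2]
  have e4 : tv ω Γ v P' = tv ω Γ v R' := by
    rw [← tv_filter hg hv R', h3]
  rw [tv_con, tv_con, e3, e4]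
  exact h u w R R' h1 (by rw [← e1, ← e2, hgn])

theorem cob_of_con {e : E} (hg : Γ.g e = 0) {v : E → k} (hv : v e = 0) (h : Cob ω (Γ.con e) v) : Cob ω Γ v := by
  obtain ⟨c, hc⟩ := h
  refine ⟨fun z => c (Γ.cm e z), ?_⟩
  intro f hf
  by_cases hfe : f = e
  · show v f = c (Γ.cm e (Γ.s f)) - ch ω (Γ.g f) * c (Γ.cm e (Γ.t f))
    rw [hfe, Con3_cm_s, Con3_cm_t, hg, hv, ch_zero]
    ring
  · exact hc f (Finset.mem_erase.2 ⟨hfe, hf⟩)

theorem con_of_cob {e : E} (he : e ∈ Γ.A) (hg : Γ.g e = 0) {v : E → k} (hv : v e = 0) (h : Cob ω Γ v) :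
    Cob ω (Γ.con e) v := by
  obtain ⟨c, hc⟩ := h
  have h1 := hc e he
  rw [hg, hv, ch_zero, one_mul] at h1
  have h2 : c (Γ.s e) = c (Γ.t e) := (sub_eq_zero.1 h1.symm)
  have h3 : ∀ z, c (Γ.cm e z) = c z := by
    intro z
    by_cases hz : z = Γ.t e
    · rw [hz, Con3_cm_t, h2]
    · rw [Con3_cm_ne hz]
  refine ⟨c, ?_⟩
  intro f hf
  have h4 := hc f (Finset.mem_of_mem_erase hf)
  show v f = c (Γ.cm e (Γ.s f)) - ch ω (Γ.g f) * c (Γ.cm e (Γ.t f))
  rw [h3, h3, h4]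

/-- normalization on one edge -/
theorem cob_norm (hω : ω ^ 2 + ω + 1 = 0) (v : E → k) {e : E} (he : e ∈ Γ.A) (hl : Γ.s e ≠ Γ.t e) :
    ∃ v' : E → k, v' e = 0 ∧ Cob ω Γ fun f => v f - v' f := by
  let c : V → k := fun z => if z = Γ.s e then v e else 0
  refine ⟨fun f => v f - (c (Γ.s f) - ch ω (Γ.g f) * c (Γ.t f)), ?_, c, ?_⟩
  · show v e - (c (Γ.s e) - ch ω (Γ.g e) * c (Γ.t e)) = 0
    have h1 : c (Γ.s e) = v e := if_pos rfl
    have h2 : c (Γ.t e) = 0 := if_neg hl.symm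
    rw [h1, h2]
    ring
  · intro f _
    show v f - (v f - (c (Γ.s f) - ch ω (Γ.g f) * c (Γ.t f))) = _
    ring

private theorem Con3_ends {d : Da E} {e : E} (h : d.1 = e) :
    (Γ.src d = Γ.s e ∧ Γ.tgt d = Γ.t e) ∨ (Γ.src d = Γ.t e ∧ Γ.tgt d = Γ.s e) := by
  obtain ⟨f, b⟩ := d
  have h' : f = e := h
  subst h'
  cases b
  · exact Or.inr ⟨rfl, rfl⟩
  · exact Or.inl ⟨rfl, rfl⟩

private theorem Con3_st {u w : V} {R : List (Da E)} {e : E} (h : Γ.Wk u R w) (he : e ∈ eds R) :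
    Γ.s e ∈ Γ.vs u R ∧ Γ.t e ∈ Γ.vs u R := by
  obtain ⟨d, hd, hde⟩ := (mem_eds e R).1 he
  obtain ⟨_, h1, h2⟩ := wk_mem h d hd
  rcases Con3_ends (Γ := Γ) hde with ⟨h3, h4⟩ | ⟨h3, h4⟩
  · exact ⟨h3 ▸ h1, h4 ▸ h2⟩
  · exact ⟨h4 ▸ h2, h3 ▸ h1⟩

private theorem Con3_vs (e : E) (u : V) (R : List (Da E)) :
    (Γ.con e).vs (Γ.cm e u) R = (Γ.vs u R).map (Γ.cm e) := by
  have h : ∀ d : Da E, (Γ.con e).tgt d = Γ.cm e (Γ.tgt d) := by
    rintro ⟨f, b⟩
    cases b <;> rfl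
  unfold GG.vs
  rw [List.map_cons, List.map_map]
  congr 1
  exact List.map_congr_left fun d _ => h d

private theorem Con3_filter {e : E} {R : List (Da E)} (h : e ∉ eds R) : (R.filter fun d => d.1 ≠ e) = R := by
  rw [List.filter_eq_self]
  intro d hd
  have h1 : d.1 ≠ e := fun h2 => h ((mem_eds e R).2 ⟨d, hd, h2⟩)
  simpa using h1

private theorem Con3_pt {u w : V} {R : List (Da E)} {e : E} (h : Γ.Pt u R w)
    (hx : Γ.s e ∉ Γ.vs u R ∨ Γ.t e ∉ Γ.vs u R) : (Γ.con e).Pt (Γ.cm e u) R (Γ.cm e w) := by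
  have he : e ∉ eds R := by
    intro he
    obtain ⟨h1, h2⟩ := Con3_st h.1 he
    rcases hx with hx | hx
    · exact hx h1
    · exact hx h2
  refine ⟨?_, ?_⟩
  · have h1 := con_wk (e := e) h.1
    rwa [Con3_filter he] at h1
  · rw [Con3_vs]
    refine List.Nodup.map_on ?_ h.2
    intro a ha b hb hab
    rcases Con3_cm_inj hab with h1 | ⟨h1, h2⟩ | ⟨h1, h2⟩
    · exact h1
    · subst h1
      subst h2
      rcases hx with hx | hx
      · exact absurd ha hx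
      · exact absurd hb hx
    · subst h1
      subst h2
      rcases hx with hx | hx
      · exact absurd hb hx
      · exact absurd ha hx

private theorem Con3_first {e : E} (hl : Γ.s e ≠ Γ.t e) {z : V} {R : List (Da E)} (h : Γ.Pt (Γ.s e) R z)
    (he : e ∈ eds R) : ∃ R₂, R = (e, true) :: R₂ ∧ Γ.Pt (Γ.t e) R₂ z ∧ Γ.s e ∉ Γ.vs (Γ.t e) R₂ := by
  cases R with
  | nil =>
    obtain ⟨d, hd, _⟩ := (mem_eds e _).1 he
    exact absurd hd List.not_mem_nil
  | cons d l =>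
    have hn := h.2
    have h4 : Γ.vs (Γ.s e) (d :: l) = Γ.s e :: Γ.vs (Γ.tgt d) l := rfl
    rw [h4, List.nodup_cons] at hn
    obtain ⟨h1, h2, h3⟩ := h.1
    have hel : e ∉ eds l := by
      intro hel
      exact hn.1 (Con3_st h3 hel).1
    have hde : d.1 = e := by
      obtain ⟨d', hd', h5⟩ := (mem_eds e _).1 he
      rcases List.mem_cons.1 hd' with h6 | h6
      · rw [← h6]
        exact h5
      · exact absurd ((mem_eds e l).2 ⟨d', h6, h5⟩) hel
    obtain ⟨f, b⟩ := d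
    have hfe : f = e := hde
    subst hfe
    cases b
    · exact absurd h2.symm hl
    · exact ⟨l, rfl, ⟨h3, hn.2⟩, hn.1⟩

private theorem Con3_main (hω : ω ^ 2 + ω + 1 = 0) {e : E} (hl : Γ.s e ≠ Γ.t e) (hg : Γ.g e = 0)
    {v : E → k} (hv : v e = 0) (hZ : Zc ω (Γ.con e) v) {z : V} {R R' : List (Da E)} (h : Γ.Cy (Γ.s e) z R R')
    (hz : z ≠ Γ.t e) (hb : Γ.gn R = Γ.gn R') (he : e ∈ eds R) : tv ω Γ v R = tv ω Γ v R' := by
  obtain ⟨R₂, hR, h1, h2⟩ := Con3_first hl h.p he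
  have hty : Γ.t e ∈ Γ.vs (Γ.s e) R := by
    rw [hR]
    show Γ.t e ∈ Γ.s e :: Γ.vs (Γ.t e) R₂
    exact List.mem_cons_of_mem _ (wk_first _ _)
  have hty' : Γ.t e ∉ Γ.vs (Γ.s e) R' := by
    intro h3
    rcases h.dj _ hty h3 with h4 | h4
    · exact hl h4.symm
    · exact hz h4.symm
  have p1 := Con3_pt h1 (Or.inl h2)
  have p2 := Con3_pt h.p' (Or.inr hty')
  rw [Con3_cm_t, Con3_cm_ne hz] at p1
  rw [Con3_cm_s, Con3_cm_ne hz] at p2
  have hcy : (Γ.con e).Cy (Γ.s e) z R₂ R' := by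
    refine ⟨h.ne, p1, p2, ?_⟩
    intro a ha ha'
    have ha1 : a ∈ (Γ.vs (Γ.t e) R₂).map (Γ.cm e) := by
      rw [← Con3_vs, Con3_cm_t]
      exact ha
    have ha2 : a ∈ (Γ.vs (Γ.s e) R').map (Γ.cm e) := by
      rw [← Con3_vs, Con3_cm_s]
      exact ha'
    obtain ⟨a₁, h3, h4⟩ := List.mem_map.1 ha1
    obtain ⟨a₂, h5, h6⟩ := List.mem_map.1 ha2
    rcases Con3_cm_inj (h4.trans h6.symm) with h7 | ⟨h7, h8⟩ | ⟨h7, h8⟩
    · subst h7
      have h8 : a₁ ∈ Γ.vs (Γ.s e) R := by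
        rw [hR]
        show a₁ ∈ Γ.s e :: Γ.vs (Γ.t e) R₂
        exact List.mem_cons_of_mem _ h3
      rcases h.dj _ h8 h5 with h9 | h9
      · left
        rw [← h4, h9, Con3_cm_s]
      · right
        rw [← h4, h9, Con3_cm_ne hz]
    · left
      rw [← h4, h7, Con3_cm_s]
    · left
      rw [← h4, h7, Con3_cm_t]
  have hgn : Γ.gn R₂ = Γ.gn R := by
    rw [hR, gn_cons]
    have h3 : Γ.dg (e, true) = 0 := hg
    rw [h3, zero_add]
  have htv : tv ω Γ v R₂ = tv ω Γ v R := by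
    rw [hR]
    show tv ω Γ v R₂ = v e + ch ω (Γ.g e) * tv ω Γ v R₂
    rw [hv, hg, ch_zero, zero_add, one_mul]
  have h3 := hZ _ _ _ _ hcy (show Γ.gn R₂ = Γ.gn R' by rw [hgn, hb])
  rw [tv_con, tv_con] at h3
  rw [← htv, h3]

private theorem Con3_third {e : E} (hp : Γ.Pfree e) {u w : V} {R R' : List (Da E)} (h : Γ.Cy u w R R')
    (hdis : ∀ d ∈ R, d.1 ∉ eds R') (he : e ∈ eds R ∨ e ∈ eds R') :
    ∃ z, (z ∈ Γ.vs u R ∨ z ∈ Γ.vs u R') ∧ z ≠ Γ.s e ∧ z ≠ Γ.t e := by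
  by_contra hno
  have hall : ∀ z, (z ∈ Γ.vs u R ∨ z ∈ Γ.vs u R') → z = Γ.s e ∨ z = Γ.t e := by
    intro z hz
    by_contra h1
    exact hno ⟨z, hz, fun h2 => h1 (Or.inl h2), fun h2 => h1 (Or.inr h2)⟩
  have hu := hall u (Or.inl (wk_first u R))
  have hw := hall w (Or.inl (wk_last h.p.1))
  have hone : ∀ L : List (Da E), Γ.Pt u L w → (∀ z ∈ Γ.vs u L, z = Γ.s e ∨ z = Γ.t e) → ∃ d, L = [d] := by
    intro L hL hz
    have h1 : L.length < 2 := by
      by_contra h2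
      obtain ⟨z, h3, h4, h5⟩ := pt_inner hL (not_lt.1 h2)
      rcases hz z h3 with h6 | h6
      · rcases hu with h7 | h7
        · exact h4 (h6.trans h7.symm)
        · rcases hw with h8 | h8
          · exact h5 (h6.trans h8.symm)
          · exact h.ne (h7.trans h8.symm)
      · rcases hu with h7 | h7
        · rcases hw with h8 | h8
          · exact h.ne (h7.trans h8.symm)
          · exact h5 (h6.trans h8.symm)
        · exact h4 (h6.trans h7.symm)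
    have h2 := pt_ne hL h.ne
    match L, h1, h2 with
    | [], _, h2 => exact absurd rfl h2
    | [d], _, _ => exact ⟨d, rfl⟩
    | _ :: _ :: _, h1, _ => simp at h1
  obtain ⟨d, hd⟩ := hone R h.p fun z hz => hall z (Or.inl hz)
  obtain ⟨d', hd'⟩ := hone R' h.p' fun z hz => hall z (Or.inr hz)
  subst hd
  subst hd'
  have a1 : d.1 ∈ Γ.A ∧ Γ.src d = u ∧ Γ.tgt d = w := ⟨h.p.1.1, h.p.1.2.1, h.p.1.2.2⟩
  have a2 : d'.1 ∈ Γ.A ∧ Γ.src d' = u ∧ Γ.tgt d' = w := ⟨h.p'.1.1, h.p'.1.2.1, h.p'.1.2.2⟩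
  have hne : d.1 ≠ d'.1 := by
    intro h1
    exact hdis d List.mem_cons_self ((mem_eds _ _).2 ⟨d', List.mem_cons_self, h1.symm⟩)
  have key : ∀ a b : Da E, a.1 = e → b.1 ≠ e → b.1 ∈ Γ.A → Γ.src a = u → Γ.tgt a = w → Γ.src b = u →
      Γ.tgt b = w → False := by
    intro a b ha hb hbA h1 h2 h3 h4
    obtain ⟨h5, h6⟩ := hp b.1 hbA hb
    rcases Con3_ends (Γ := Γ) ha with ⟨h7, h8⟩ | ⟨h7, h8⟩
    · rcases Con3_ends (Γ := Γ) (rfl : b.1 = b.1) with ⟨h9, h10⟩ | ⟨h9, h10⟩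
      · exact h5 ⟨by rw [← h9, h3, ← h1, h7], by rw [← h10, h4, ← h2, h8]⟩
      · exact h6 ⟨by rw [← h10, h4, ← h2, h8], by rw [← h9, h3, ← h1, h7]⟩
    · rcases Con3_ends (Γ := Γ) (rfl : b.1 = b.1) with ⟨h9, h10⟩ | ⟨h9, h10⟩
      · exact h6 ⟨by rw [← h9, h3, ← h1, h7], by rw [← h10, h4, ← h2, h8]⟩
      · exact h5 ⟨by rw [← h10, h4, ← h2, h8], by rw [← h9, h3, ← h1, h7]⟩
  rcases he with he | he
  · obtain ⟨a, ha, hae⟩ := (mem_eds e _).1 he
    rw [List.mem_singleton] at ha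
    subst ha
    exact key a d' hae (fun h1 => hne (hae.trans h1.symm)) a2.1 a1.2.1 a1.2.2 a2.2.1 a2.2.2
  · obtain ⟨a, ha, hae⟩ := (mem_eds e _).1 he
    rw [List.mem_singleton] at ha
    subst ha
    exact key a d hae (fun h1 => hne (h1.trans hae.symm)) a1.1 a2.2.1 a2.2.2 a1.2.1 a1.2.2

theorem con_bal (hω : ω ^ 2 + ω + 1 = 0) {e : E} (he : e ∈ Γ.A) (hl : Γ.s e ≠ Γ.t e) (hp : Γ.Pfree e) (hg : Γ.g e = 0)
    {v : E → k} (hv : v e = 0) (hZ : Zc ω (Γ.con e) v) {u w : V} {R R' : List (Da E)} (h : Γ.Cy u w R R')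
    (hb : Γ.gn R = Γ.gn R')
    (hc : (e ∈ eds R ∨ e ∈ eds R') ∨ ¬ ((Γ.s e ∈ Γ.vs u R ∨ Γ.s e ∈ Γ.vs u R') ∧ (Γ.t e ∈ Γ.vs u R ∨ Γ.t e ∈ Γ.vs u R'))) :
    tv ω Γ v R = tv ω Γ v R' := by
  rcases cy_disj h with hdis | ⟨d, rfl, rfl⟩
  · by_cases heR : e ∈ eds R ∨ e ∈ eds R'
    · obtain ⟨z, hz1, hz2, hz3⟩ := Con3_third hp h hdis heR
      have hs : Γ.s e ∈ Γ.vs u R ∨ Γ.s e ∈ Γ.vs u R' := by
        rcases heR with h1 | h1
        · exact Or.inl (Con3_st h.p.1 h1).1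
        · exact Or.inr (Con3_st h.p'.1 h1).1
      obtain ⟨R₁, R₁', hcy, _, hed, hconj⟩ := resplit h hs hz1 (Ne.symm hz2)
      obtain ⟨h1, h2⟩ := resplit_tv hω v hconj hb
      rw [h2]
      rcases (hed e).2 heR with h3 | h3
      · exact Con3_main hω hl hg hv hZ hcy hz3 h1 h3
      · exact (Con3_main hω hl hg hv hZ (cy_symm hcy) hz3 h1.symm h3).symm
    · have hc' : ¬ ((Γ.s e ∈ Γ.vs u R ∨ Γ.s e ∈ Γ.vs u R') ∧ (Γ.t e ∈ Γ.vs u R ∨ Γ.t e ∈ Γ.vs u R')) := by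
        rcases hc with hc | hc
        · exact absurd hc heR
        · exact hc
      have hor : (Γ.s e ∉ Γ.vs u R ∧ Γ.s e ∉ Γ.vs u R') ∨ (Γ.t e ∉ Γ.vs u R ∧ Γ.t e ∉ Γ.vs u R') := by
        by_cases h1 : Γ.s e ∈ Γ.vs u R ∨ Γ.s e ∈ Γ.vs u R'
        · right
          have h2 : ¬ (Γ.t e ∈ Γ.vs u R ∨ Γ.t e ∈ Γ.vs u R') := fun h3 => hc' ⟨h1, h3⟩
          exact not_or.1 h2
        · left
          exact not_or.1 h1
      have hinj : ∀ a b, (a ∈ Γ.vs u R ∨ a ∈ Γ.vs u R') → (b ∈ Γ.vs u R ∨ b ∈ Γ.vs u R') →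
          Γ.cm e a = Γ.cm e b → a = b := by
        intro a b ha hb' hab
        rcases Con3_cm_inj hab with h1 | ⟨h1, h2⟩ | ⟨h1, h2⟩
        · exact h1
        · exfalso
          rw [h1] at ha
          rw [h2] at hb'
          exact hc' ⟨ha, hb'⟩
        · exfalso
          rw [h1] at ha
          rw [h2] at hb'
          exact hc' ⟨hb', ha⟩
      have p1 : (Γ.con e).Pt (Γ.cm e u) R (Γ.cm e w) := Con3_pt h.p (by
        rcases hor with h1 | h1
        · exact Or.inl h1.1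
        · exact Or.inr h1.1)
      have p2 : (Γ.con e).Pt (Γ.cm e u) R' (Γ.cm e w) := Con3_pt h.p' (by
        rcases hor with h1 | h1
        · exact Or.inl h1.2
        · exact Or.inr h1.2)
      have hcy : (Γ.con e).Cy (Γ.cm e u) (Γ.cm e w) R R' := by
        refine ⟨?_, p1, p2, ?_⟩
        · intro h1
          exact h.ne (hinj u w (Or.inl (wk_first _ _)) (Or.inl (wk_last h.p.1)) h1)
        · intro a ha ha'
          rw [Con3_vs] at ha ha'
          obtain ⟨a₁, h3, h4⟩ := List.mem_map.1 ha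
          obtain ⟨a₂, h5, h6⟩ := List.mem_map.1 ha'
          have h7 := hinj a₁ a₂ (Or.inl h3) (Or.inr h5) (h4.trans h6.symm)
          subst h7
          rcases h.dj _ h3 h5 with h8 | h8
          · left
            rw [← h4, h8]
          · right
            rw [← h4, h8]
      have h3 := hZ _ _ _ _ hcy hb
      rwa [tv_con, tv_con] at h3
  · rfl

end Pool.Agent.FRM
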