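import Pool.Agent.FRM.Tr1
import Pool.Agent.FRM.Tr2
import Pool.Agent.FRM.Cb3

/-!
# FRM/Rich: rich graphs

PROOF PLAN.  `bal_or`, `cyc_or_theta`, `theta_all` with `fund_hx`; the balanced and the cyclic case contradict `¬ Γ.Cyc`.  `rich_one`: the class is unique up to scalars (`dim_le`), and a class that vanishes on
a rich subgraph vanishes (`cob_ext`; the subgraph `B` is rich, so it satisfies `Sp` by `rich_sp`).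
-/

set_option autoImplicit false

noncomputable section

open scoped Classical

namespace Pool.Agent.FRM

open GG

variable {V E : Type} {k : Type} [Field k] {ω : k} {Γ : GG V E Lt}


theorem rich_theta (hΓ : Γ.C2) (hΦ : Γ.Phi (hx : Set Lt)) (hc : ¬ Γ.Cyc) :
    ∃ u w X Y Z, Γ.Th u w X Y Z ∧ Γ.gn X ≠ Γ.gn Y ∧ Γ.gn Y ≠ Γ.gn Z ∧ Γ.gn X ≠ Γ.gn Z := by
  rcases bal_or hΓ with h | ⟨x, y, P, P', h, hne⟩
  · refine absurd ⟨0, ?_⟩ hc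
    rw [AddSubgroup.zmultiples_zero_eq_bot]
    exact h
  · rcases cyc_or_theta hΓ fund_hx hΦ h hne with ⟨g, _, h1, _⟩ | h1
    · exact absurd ⟨g, h1⟩ hc
    · exact h1

theorem rich_sp (hΓ : Γ.C2) (hΦ : Γ.Phi (hx : Set Lt)) (hc : ¬ Γ.Cyc) :
    ∃ a b : Lt, a ∈ hx ∧ b ∈ hx ∧ a - b ∈ hx ∧ Γ.Sp {0, a, b} := by
  obtain ⟨u, w, X, Y, Z, h, h₁, h₂, h₃⟩ := rich_theta hΓ hΦ hc
  obtain ⟨ha, hb, hab, hS, -⟩ := theta_all hΓ fund_hx hΦ h h₁ h₂ h₃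
  refine ⟨_, _, ha, hb, ?_, hS⟩
  have e : Γ.gn Y - Γ.gn X - (Γ.gn Z - Γ.gn X) = Γ.gn Y - Γ.gn Z := by abel
  rw [e]
  exact hab

theorem rich_dim (hω : ω ^ 2 + ω + 1 = 0) (h3 : (3 : k) ≠ 0) (hΓ : Γ.C2) (hΦ : Γ.Phi (hx : Set Lt)) (hc : ¬ Γ.Cyc)
    {v v' : E → k} (hv : Zc ω Γ v) (hv' : Zc ω Γ v') (h' : ¬ Cob ω Γ v') : ∃ μ : k, Cob ω Γ fun e => v e - μ * v' e := by
  obtain ⟨u, w, X, Y, Z, h, h₁, h₂, h₃⟩ := rich_theta hΓ hΦ hc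
  exact dim_le hω h3 hΓ hΦ h h₁ h₂ h₃ hv hv' h'

theorem rich_cob (hω : ω ^ 2 + ω + 1 = 0) (hΓ : Γ.C2) (hΦ : Γ.Phi (hx : Set Lt)) {B : Finset E} (hB : B ⊆ Γ.A)
    (h2 : (Γ.on B).C2) (hc : ¬ (Γ.on B).Cyc) {v : E → k} (hv : Zc ω Γ v) (h : Cob ω (Γ.on B) v) : Cob ω Γ v := by
  have hΦB : (Γ.on B).Phi (hx : Set Lt) := fun x y P P' hcy => hΦ x y P P' ((cy_on hB).1 hcy).1
  obtain ⟨a, b, ha, hb, hab, hS⟩ := rich_sp h2 hΦB hc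
  exact cob_ext hω hΓ hΦ hB h2 ha hb hab hS hv h

end Pool.Agent.FRM
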