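import Pool.Agent.FRM.Con3
import Pool.Agent.FRM.Rich

/-!
# FRM/CsA: main step, cases (a) and (b): comparison of cochains

PROOF PLAN.  `case_a`: suppose `f ∉ eds R`, `f ∉ eds R'`.  `Γ₁ = Γ.on (A.erase f)` has a class `w` (`Zc`, not `Cob`), by `cob_norm` (in `Γ₁`) with `w e = 0`.  Let `Δ = (Γ.con e).on ((A.erase e).erase f)` (equal to `Γ₁.con e` up to the order of
the two `erase`, `Finset.erase_right_comm`).  `w` and `v` are in `Zc ω Δ` (`zc_con` for `Γ₁`, `zc_on` for `Γ.con e`), `w` is not a coboundary of `Δ` (`cob_of_con`), `Δ` is `C2` (hypothesis), `Phi` (`con_Phi`, `phi_on`), not `Cyc` (`con_not_Cyc` for `Γ₁`).  By `rich_dim`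
`v - μ w` is a coboundary of `Δ`, hence of `Γ₁` (`cob_of_con`), so `tv v R - μ tv w R = tv v R' - μ tv w R'` (`zc_of_cob`, `cy_on`), and `tv w R = tv w R'` since `w ∈ Zc Γ₁`: contradiction to `Bad`.
`case_b`: `Γ₁ = Γ.con f` has a class `w`; normalize `w e = 0` (`cob_norm` in `Γ₁`; `e ∈ Γ₁.A`) and redefine `w f = 0` (`f ∉ Γ₁.A`); normalize `v f = 0` by a coboundary of `Γ.con e` (this changes `v` by a coboundary of `Γ` which vanishes on `e`, so badness does not change).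
`Δ = (Γ.con e).con f`, `Δ' = (Γ.con f).con e`: they have the same edges and gains and, up to an injective renaming of the vertices, the same ends (`con_comm`), so the same `Zc`, `Cob`.  `rich_dim` in `Δ`: `v - μ w` is a coboundary of `Δ`, hence of `Γ.con e`
and of `Γ`.  If `f ∈ eds R ∪ eds R'` or an end of `f` is not on the cycle then `tv w R = tv w R'` by `con_bal` (for `Γ.con f`), hence `tv v R = tv v R'`: contradiction.
-/

set_option autoImplicit false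

noncomputable section

open scoped Classical

namespace Pool.Agent.FRM

open GG

variable {V E : Type} {k : Type} [Field k] {ω : k} {Γ : GG V E Lt}


private theorem CsA_cm_inj {e : E} {a b : V} (h : Γ.cm e a = Γ.cm e b) :
    a = b ∨ (a = Γ.s e ∧ b = Γ.t e) ∨ (a = Γ.t e ∧ b = Γ.s e) := by
  unfold GG.cm at h
  split_ifs at h with h1 h2 h2
  · exact Or.inl (h1.trans h2.symm)
  · exact Or.inr (Or.inr ⟨h1, h.symm⟩)
  · exact Or.inr (Or.inl ⟨h, h2⟩)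
  · exact Or.inl h

private theorem CsA_lf {e f : E} (hl : Γ.s f ≠ Γ.t f) (hf : f ∈ Γ.A) (hfe : f ≠ e) (hp : Γ.Pfree e) :
    (Γ.con e).s f ≠ (Γ.con e).t f := by
  intro h
  obtain ⟨h1, h2⟩ := hp f hf hfe
  rcases CsA_cm_inj (Γ := Γ) (e := e) h with h3 | h3 | h3
  · exact hl h3
  · exact h1 h3
  · exact h2 h3

private theorem CsA_tv_on (B : Finset E) (v : E → k) (l : List (Da E)) : tv ω (Γ.on B) v l = tv ω Γ v l := by
  induction l with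
  | nil => rfl
  | cons d l ih =>
    show dv ω Γ v d + ch ω (Γ.dg d) * tv ω (Γ.on B) v l = dv ω Γ v d + ch ω (Γ.dg d) * tv ω Γ v l
    rw [ih]

/-- normalization of a class on the edge `e` -/
private theorem CsA_norm (hω : ω ^ 2 + ω + 1 = 0) {v : E → k} {e : E} (he : e ∈ Γ.A) (hl : Γ.s e ≠ Γ.t e)
    (hZ : Zc ω Γ v) : ∃ v' : E → k, v' e = 0 ∧ Zc ω Γ v' ∧ Cob ω Γ (fun f => v f - v' f) := by
  obtain ⟨v', h1, h2⟩ := cob_norm hω v he hl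
  refine ⟨v', h1, ?_, h2⟩
  refine zc_congr (zc_sub hZ (zc_of_cob hω h2)) ?_
  intro f _
  show v f - (v f - v' f) = v' f
  ring

private theorem CsA_cob_iff {v v' : E → k} (h : Cob ω Γ (fun f => v f - v' f)) (h' : Cob ω Γ v') : Cob ω Γ v := by
  refine cob_congr (cob_add h h') ?_
  intro f _
  show v f - v' f + v' f = v f
  ring

theorem case_a (hω : ω ^ 2 + ω + 1 = 0) (h3 : (3 : k) ≠ 0) (hΓ : Γ.C2) (hΦ : Γ.Phi (hx : Set Lt)) {e f : E} (he : e ∈ Γ.A)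
    (hfe : f ≠ e) (hp : Γ.Pfree e) (hg : Γ.g e = 0)
    (h₁ : ¬ (Γ.on (Γ.A.erase f)).Cyc) (h₂ : HasH ω (Γ.on (Γ.A.erase f)))
    (h₄ : ((Γ.con e).on ((Γ.A.erase e).erase f)).C2) {v : E → k} (hv : Zc ω (Γ.con e) v) (hve : v e = 0)
    {u w : V} {R R' : List (Da E)} (hb : Bad ω Γ v u w R R') : f ∈ eds R ∨ f ∈ eds R' := by
  by_contra hno
  obtain ⟨hR, hR'⟩ := not_or.1 hno
  obtain ⟨w₀, hw₀, hw₀'⟩ := h₂
  have hsub : Γ.A.erase f ⊆ Γ.A := Finset.erase_subset _ _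
  have he₁ : e ∈ (Γ.on (Γ.A.erase f)).A := Finset.mem_erase.2 ⟨hfe.symm, he⟩
  have hl : Γ.s e ≠ Γ.t e := hΓ.lf e he
  obtain ⟨w₁, hw₁e, hw₁, hd⟩ := CsA_norm hω he₁ hl hw₀
  have hw₁' : ¬ Cob ω (Γ.on (Γ.A.erase f)) w₁ := fun h => hw₀' (CsA_cob_iff hd h)
  have hΔ : (Γ.on (Γ.A.erase f)).con e = (Γ.con e).on ((Γ.A.erase e).erase f) := by
    show (⟨(Γ.A.erase f).erase e, fun z => Γ.cm e (Γ.s z), fun z => Γ.cm e (Γ.t z), Γ.g⟩ : GG V E Lt) =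
      ⟨(Γ.A.erase e).erase f, fun z => Γ.cm e (Γ.s z), fun z => Γ.cm e (Γ.t z), Γ.g⟩
    rw [Finset.erase_right_comm]
  have hsub' : (Γ.A.erase e).erase f ⊆ (Γ.con e).A := Finset.erase_subset _ _
  have z1 : Zc ω ((Γ.con e).on ((Γ.A.erase e).erase f)) w₁ := by
    rw [← hΔ]
    exact zc_con he₁ hl hg hw₁e hw₁
  have z2 : Zc ω ((Γ.con e).on ((Γ.A.erase e).erase f)) v := zc_on hsub' hv
  have z3 : ¬ Cob ω ((Γ.con e).on ((Γ.A.erase e).erase f)) w₁ := by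
    rw [← hΔ]
    exact fun h => hw₁' (cob_of_con (Γ := Γ.on (Γ.A.erase f)) hg hw₁e h)
  have z4 : ((Γ.con e).on ((Γ.A.erase e).erase f)).Phi (hx : Set Lt) := phi_on hsub' (con_Phi he hl hg hΦ)
  have z5 : ¬ ((Γ.con e).on ((Γ.A.erase e).erase f)).Cyc := by
    rw [← hΔ]
    exact con_not_Cyc (Γ := Γ.on (Γ.A.erase f)) hg h₁
  obtain ⟨μ, hμ⟩ := rich_dim hω h3 h₄ z4 z5 z2 z1 z3
  rw [← hΔ] at hμ
  have hμ' : Cob ω (Γ.on (Γ.A.erase f)) fun x => v x - μ * w₁ x := by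
    refine cob_of_con (Γ := Γ.on (Γ.A.erase f)) hg ?_ hμ
    show v e - μ * w₁ e = 0
    rw [hve, hw₁e]
    ring
  have hZ : Zc ω (Γ.on (Γ.A.erase f)) v := by
    refine zc_congr (zc_add (zc_of_cob hω hμ') (zc_smul μ hw₁)) ?_
    intro x _
    show v x - μ * w₁ x + μ * w₁ x = v x
    ring
  have hmem : ∀ L : List (Da E), f ∉ eds L → ∀ a b, Γ.Wk a L b → ∀ d ∈ L, d.1 ∈ Γ.A.erase f := by
    intro L hL a b hW d hdL
    refine Finset.mem_erase.2 ⟨?_, (wk_mem hW d hdL).1⟩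
    intro h
    exact hL ((mem_eds f L).2 ⟨d, hdL, h⟩)
  have hcy : (Γ.on (Γ.A.erase f)).Cy u w R R' :=
    (cy_on hsub).2 ⟨hb.cy, hmem R hR u w hb.cy.p.1, hmem R' hR' u w hb.cy.p'.1⟩
  have h5 := hZ u w R R' hcy hb.gn
  rw [CsA_tv_on, CsA_tv_on] at h5
  exact hb.tv h5

/-- a renaming of the vertices which is injective on the ends of the edges -/
private theorem CsA_wk {Γ₁ Γ₂ : GG V E Lt} (σ : V → V) (hA : Γ₂.A = Γ₁.A) (hs : ∀ f, Γ₂.s f = σ (Γ₁.s f))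
    (ht : ∀ f, Γ₂.t f = σ (Γ₁.t f)) {x y : V} {l : List (Da E)} (h : Γ₁.Wk x l y) : Γ₂.Wk (σ x) l (σ y) := by
  have hsrc : ∀ d : Da E, Γ₂.src d = σ (Γ₁.src d) := by
    rintro ⟨f, b⟩
    cases b
    · exact ht f
    · exact hs f
  have htgt : ∀ d : Da E, Γ₂.tgt d = σ (Γ₁.tgt d) := by
    rintro ⟨f, b⟩
    cases b
    · exact hs f
    · exact ht f
  induction l generalizing x with
  | nil =>
    have h1 : x = y := h
    rw [h1]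
    rfl
  | cons d l ih =>
    obtain ⟨h1, h2, h3⟩ := h
    refine ⟨?_, ?_, ?_⟩
    · rw [hA]
      exact h1
    · rw [hsrc, h2]
    · rw [htgt]
      exact ih h3

private theorem CsA_cy {Γ₁ Γ₂ : GG V E Lt} (σ : V → V) (hA : Γ₂.A = Γ₁.A) (hs : ∀ f, Γ₂.s f = σ (Γ₁.s f))
    (ht : ∀ f, Γ₂.t f = σ (Γ₁.t f)) (S : Set V) (hS : ∀ f, Γ₁.s f ∈ S ∧ Γ₁.t f ∈ S)
    (hσ : ∀ a ∈ S, ∀ b ∈ S, σ a = σ b → a = b) {x y : V} {P P' : List (Da E)} (h : Γ₁.Cy x y P P') :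
    Γ₂.Cy (σ x) (σ y) P P' := by
  have htgt : ∀ d : Da E, Γ₂.tgt d = σ (Γ₁.tgt d) := by
    rintro ⟨f, b⟩
    cases b
    · exact hs f
    · exact ht f
  have hSs : ∀ d : Da E, Γ₁.src d ∈ S := by
    rintro ⟨f, b⟩
    cases b
    · exact (hS f).2
    · exact (hS f).1
  have hSt : ∀ d : Da E, Γ₁.tgt d ∈ S := by
    rintro ⟨f, b⟩
    cases b
    · exact (hS f).1
    · exact (hS f).2
  have hx : x ∈ S := by
    cases P with
    | nil => exact absurd h.p.1 h.ne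
    | cons d l =>
      have h1 := h.p.1.2.1
      rw [← h1]
      exact hSs d
  have hvs : ∀ l : List (Da E), ∀ z ∈ Γ₁.vs x l, z ∈ S := by
    intro l z hz
    unfold GG.vs at hz
    rcases List.mem_cons.1 hz with h1 | h1
    · rw [h1]
      exact hx
    · obtain ⟨d, _, h2⟩ := List.mem_map.1 h1
      rw [← h2]
      exact hSt d
  have hvm : ∀ l : List (Da E), Γ₂.vs (σ x) l = (Γ₁.vs x l).map σ := by
    intro l
    unfold GG.vs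
    rw [List.map_cons, List.map_map]
    congr 1
    exact List.map_congr_left fun d _ => htgt d
  have hpt : ∀ l : List (Da E), Γ₁.Pt x l y → Γ₂.Pt (σ x) l (σ y) := by
    intro l hl
    refine ⟨CsA_wk σ hA hs ht hl.1, ?_⟩
    rw [hvm]
    exact List.Nodup.map_on (fun a ha b hb hab => hσ a (hvs l a ha) b (hvs l b hb) hab) hl.2
  have hy : y ∈ S := hvs P y (wk_last h.p.1)
  refine ⟨fun h1 => h.ne (hσ x hx y hy h1), hpt P h.p, hpt P' h.p', ?_⟩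
  intro z hz hz'
  rw [hvm] at hz hz'
  obtain ⟨a, ha, haz⟩ := List.mem_map.1 hz
  obtain ⟨b, hb, hbz⟩ := List.mem_map.1 hz'
  have hab := hσ a (hvs P a ha) b (hvs P' b hb) (haz.trans hbz.symm)
  subst hab
  rcases h.dj a ha hb with h1 | h1
  · left
    rw [← haz, h1]
  · right
    rw [← haz, h1]

private theorem CsA_tv_g {Γ₁ Γ₂ : GG V E Lt} (hg : Γ₂.g = Γ₁.g) (v : E → k) (l : List (Da E)) :
    tv ω Γ₂ v l = tv ω Γ₁ v l := by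
  have h1 : ∀ d : Da E, Γ₂.dg d = Γ₁.dg d := by
    intro d
    unfold GG.dg
    rw [hg]
  have h2 : ∀ d : Da E, dv ω Γ₂ v d = dv ω Γ₁ v d := by
    intro d
    unfold dv
    rw [hg]
  induction l with
  | nil => rfl
  | cons d l ih =>
    show dv ω Γ₂ v d + ch ω (Γ₂.dg d) * tv ω Γ₂ v l = dv ω Γ₁ v d + ch ω (Γ₁.dg d) * tv ω Γ₁ v l
    rw [ih, h1, h2]

private theorem CsA_gn_g {Γ₁ Γ₂ : GG V E Lt} (hg : Γ₂.g = Γ₁.g) (l : List (Da E)) : Γ₂.gn l = Γ₁.gn l := by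
  have h1 : ∀ d : Da E, Γ₂.dg d = Γ₁.dg d := by
    intro d
    unfold GG.dg
    rw [hg]
  unfold GG.gn
  congr 1
  exact List.map_congr_left fun d _ => h1 d

private theorem CsA_ren {Γ₁ Γ₂ : GG V E Lt} (σ : V → V) (hA : Γ₂.A = Γ₁.A) (hs : ∀ f, Γ₂.s f = σ (Γ₁.s f))
    (ht : ∀ f, Γ₂.t f = σ (Γ₁.t f)) (hg : Γ₂.g = Γ₁.g) (S : Set V) (hS : ∀ f, Γ₁.s f ∈ S ∧ Γ₁.t f ∈ S)
    (hσ : ∀ a ∈ S, ∀ b ∈ S, σ a = σ b → a = b) (v : E → k) :
    (Zc ω Γ₂ v → Zc ω Γ₁ v) ∧ (Cob ω Γ₂ v → Cob ω Γ₁ v) := by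
  refine ⟨?_, ?_⟩
  · intro h x y P P' hP hgn
    have h1 := h _ _ P P' (CsA_cy σ hA hs ht S hS hσ hP) (by rw [CsA_gn_g hg, CsA_gn_g hg, hgn])
    rwa [CsA_tv_g hg, CsA_tv_g hg] at h1
  · rintro ⟨c, hc⟩
    refine ⟨fun z => c (σ z), ?_⟩
    intro f hf
    have h1 := hc f (by rw [hA]; exact hf)
    rw [hs, ht, hg] at h1
    exact h1

/-- the identification of both pairs of ends -/
private def CsA_ka (Γ : GG V E Lt) (e f : E) (z : V) : V := (Γ.con e).cm f (Γ.cm e z)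

private theorem CsA_ka_fun {W : Type} {e f : E} (h : V → W) (he : h (Γ.s e) = h (Γ.t e)) (hf : h (Γ.s f) = h (Γ.t f))
    (z : V) : h (CsA_ka Γ e f z) = h z := by
  have h1 : ∀ z, h (Γ.cm e z) = h z := by
    intro z
    unfold GG.cm
    split_ifs with h2
    · rw [h2, he]
    · rfl
  have h3 : ∀ z, h ((Γ.con e).cm f z) = h z := by
    intro z
    unfold GG.cm
    split_ifs with h2
    · rw [h2]
      show h (Γ.cm e (Γ.s f)) = h (Γ.cm e (Γ.t f))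
      rw [h1, h1, hf]
    · rfl
  unfold CsA_ka
  rw [h3, h1]

private theorem CsA_ka_e (e f : E) : CsA_ka Γ e f (Γ.s e) = CsA_ka Γ e f (Γ.t e) := by
  have h1 : Γ.cm e (Γ.s e) = Γ.cm e (Γ.t e) := by
    unfold GG.cm
    split_ifs <;> first | rfl | simp_all
  unfold CsA_ka
  rw [h1]

private theorem CsA_ka_f (e f : E) : CsA_ka Γ e f (Γ.s f) = CsA_ka Γ e f (Γ.t f) := by
  have h1 : CsA_ka Γ e f (Γ.t f) = Γ.cm e (Γ.s f) := if_pos rfl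
  have h2 : CsA_ka Γ e f (Γ.s f) = Γ.cm e (Γ.s f) := by
    show (if Γ.cm e (Γ.s f) = Γ.cm e (Γ.t f) then Γ.cm e (Γ.s f) else Γ.cm e (Γ.s f)) = Γ.cm e (Γ.s f)
    split_ifs <;> rfl
  rw [h1, h2]

private theorem CsA_ka_ka (e f : E) (z : V) : CsA_ka Γ f e (CsA_ka Γ e f z) = CsA_ka Γ f e z :=
  CsA_ka_fun (e := e) (f := f) (CsA_ka Γ f e) (CsA_ka_f f e) (CsA_ka_e f e) z

private theorem CsA_comm {e f : E} (v : E → k) :
    (Zc ω ((Γ.con f).con e) v → Zc ω ((Γ.con e).con f) v) ∧ (Cob ω ((Γ.con f).con e) v → Cob ω ((Γ.con e).con f) v) := by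
  refine CsA_ren (Γ₁ := (Γ.con e).con f) (Γ₂ := (Γ.con f).con e) (CsA_ka Γ f e) ?_ ?_ ?_ rfl (Set.range (CsA_ka Γ e f)) ?_ ?_ v
  · exact Finset.erase_right_comm
  · intro x
    exact (CsA_ka_ka e f (Γ.s x)).symm
  · intro x
    exact (CsA_ka_ka e f (Γ.t x)).symm
  · intro x
    exact ⟨⟨Γ.s x, rfl⟩, ⟨Γ.t x, rfl⟩⟩
  · rintro _ ⟨a, rfl⟩ _ ⟨b, rfl⟩ hab
    rw [CsA_ka_ka, CsA_ka_ka] at hab
    have h1 := congrArg (CsA_ka Γ e f) hab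
    rwa [CsA_ka_ka, CsA_ka_ka] at h1

/-- renaming of the vertices: `Γ'` has the same edges and gains as `Γ` and the ends of `Γ'` are equal iff those of `Γ` are -/
theorem con_comm {e f : E} (he : e ∈ Γ.A) (hf : f ∈ Γ.A) (hfe : f ≠ e) (hle : Γ.s e ≠ Γ.t e) (hlf : Γ.s f ≠ Γ.t f) (hp : Γ.Pfree e) (v : E → k) :
    (Zc ω ((Γ.con e).con f) v ↔ Zc ω ((Γ.con f).con e) v) ∧ (Cob ω ((Γ.con e).con f) v ↔ Cob ω ((Γ.con f).con e) v) :=
  ⟨⟨(CsA_comm v).1, (CsA_comm v).1⟩, ⟨(CsA_comm v).2, (CsA_comm v).2⟩⟩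

theorem case_b (hω : ω ^ 2 + ω + 1 = 0) (h3 : (3 : k) ≠ 0) (hΓ : Γ.C2) (hΦ : Γ.Phi (hx : Set Lt)) (hc : ¬ Γ.Cyc) {e f : E}
    (he : e ∈ Γ.A) (hf : f ∈ Γ.A) (hfe : f ≠ e) (hp : Γ.Pfree e) (hpf : Γ.Pfree f) (hg : Γ.g e = 0) (hgf : Γ.g f = 0)
    (h₂ : HasH ω (Γ.con f)) (h₄ : ((Γ.con e).con f).C2) {v : E → k} (hv : Zc ω (Γ.con e) v) (hve : v e = 0)
    {u w : V} {R R' : List (Da E)} (hb : Bad ω Γ v u w R R') :
    (f ∉ eds R ∧ f ∉ eds R') ∧ (Γ.s f ∈ Γ.vs u R ∨ Γ.s f ∈ Γ.vs u R') ∧ (Γ.t f ∈ Γ.vs u R ∨ Γ.t f ∈ Γ.vs u R') := by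
  by_contra hno
  have hcon : (f ∈ eds R ∨ f ∈ eds R') ∨
      ¬ ((Γ.s f ∈ Γ.vs u R ∨ Γ.s f ∈ Γ.vs u R') ∧ (Γ.t f ∈ Γ.vs u R ∨ Γ.t f ∈ Γ.vs u R')) := by
    by_contra h1
    obtain ⟨h2, h3'⟩ := not_or.1 h1
    exact hno ⟨not_or.1 h2, not_not.1 h3'⟩
  have hle : Γ.s e ≠ Γ.t e := hΓ.lf e he
  have hlf : Γ.s f ≠ Γ.t f := hΓ.lf f hf
  have hle' : (Γ.con f).s e ≠ (Γ.con f).t e := CsA_lf hle he hfe.symm hpf
  have hlf' : (Γ.con e).s f ≠ (Γ.con e).t f := CsA_lf hlf hf hfe hp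
  have he₁ : e ∈ (Γ.con f).A := Finset.mem_erase.2 ⟨hfe.symm, he⟩
  have hf₁ : f ∈ (Γ.con e).A := Finset.mem_erase.2 ⟨hfe, hf⟩
  obtain ⟨w₀, hw₀, hw₀'⟩ := h₂
  obtain ⟨w₁, hw₁e, hw₁, hd⟩ := CsA_norm hω he₁ hle' hw₀
  have hw₁' : ¬ Cob ω (Γ.con f) w₁ := fun h => hw₀' (CsA_cob_iff hd h)
  -- the class of `Γ.con f`
  obtain ⟨w₂, hw₂e, hw₂f, hw₂⟩ : ∃ w₂ : E → k, w₂ e = 0 ∧ w₂ f = 0 ∧ ∀ x ∈ (Γ.con f).A, w₁ x = w₂ x := by
    refine ⟨fun x => if x = f then 0 else w₁ x, ?_, if_pos rfl, ?_⟩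
    · show (if e = f then 0 else w₁ e) = 0
      rw [if_neg hfe.symm, hw₁e]
    · intro x hx
      show w₁ x = if x = f then 0 else w₁ x
      rw [if_neg (Finset.ne_of_mem_erase hx)]
  have zw : Zc ω (Γ.con f) w₂ := zc_congr hw₁ hw₂
  have cw : ¬ Cob ω (Γ.con f) w₂ := fun h => hw₁' (cob_congr h fun x hx => (hw₂ x hx).symm)
  -- the cochain `v`
  obtain ⟨v₁, hv₁f, hv₁, hdv⟩ := CsA_norm hω hf₁ hlf' hv
  obtain ⟨v₂, hv₂e, hv₂f, hv₂⟩ : ∃ v₂ : E → k, v₂ e = 0 ∧ v₂ f = 0 ∧ ∀ x ∈ (Γ.con e).A, v₁ x = v₂ x := by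
    refine ⟨fun x => if x = e then 0 else v₁ x, if_pos rfl, ?_, ?_⟩
    · show (if f = e then 0 else v₁ f) = 0
      rw [if_neg hfe, hv₁f]
    · intro x hx
      show v₁ x = if x = e then 0 else v₁ x
      rw [if_neg (Finset.ne_of_mem_erase hx)]
  have zv : Zc ω (Γ.con e) v₂ := zc_congr hv₁ hv₂
  have hdv' : Cob ω (Γ.con e) fun x => v x - v₂ x := by
    refine cob_congr hdv ?_
    intro x hx
    show v x - v₁ x = v x - v₂ x
    rw [hv₂ x hx]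
  have hdv2 : Cob ω Γ fun x => v x - v₂ x := by
    refine cob_of_con hg ?_ hdv'
    show v e - v₂ e = 0
    rw [hve, hv₂e]
    ring
  -- comparison in `(Γ.con e).con f`
  have hgf' : (Γ.con e).g f = 0 := hgf
  have hge' : (Γ.con f).g e = 0 := hg
  have z1 : Zc ω ((Γ.con e).con f) v₂ := zc_con hf₁ hlf' hgf' hv₂f zv
  have z2 : Zc ω ((Γ.con e).con f) w₂ := (CsA_comm w₂).1 (zc_con he₁ hle' hge' hw₂e zw)
  have z3 : ¬ Cob ω ((Γ.con e).con f) w₂ := fun h => cw (cob_of_con hge' hw₂e ((CsA_comm w₂).2 h))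
  have z4 : ((Γ.con e).con f).Phi (hx : Set Lt) := con_Phi hf₁ hlf' hgf' (con_Phi he hle hg hΦ)
  have z5 : ¬ ((Γ.con e).con f).Cyc := con_not_Cyc hgf' (con_not_Cyc hg hc)
  obtain ⟨μ, hμ⟩ := rich_dim hω h3 h₄ z4 z5 z1 z2 z3
  have hμ1 : Cob ω (Γ.con e) fun x => v₂ x - μ * w₂ x := by
    refine cob_of_con hgf' ?_ hμ
    show v₂ f - μ * w₂ f = 0
    rw [hv₂f, hw₂f]
    ring
  have hμ2 : Cob ω Γ fun x => v₂ x - μ * w₂ x := by
    refine cob_of_con hg ?_ hμ1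
    show v₂ e - μ * w₂ e = 0
    rw [hv₂e, hw₂e]
    ring
  have t1 := con_bal hω hf hlf hpf hgf hw₂f zw hb.cy hb.gn hcon
  have t2 := zc_of_cob hω hμ2 u w R R' hb.cy hb.gn
  have t3 := zc_of_cob hω hdv2 u w R R' hb.cy hb.gn
  have e1 : ∀ l : List (Da E), tv ω Γ (fun x => v₂ x - μ * w₂ x) l = tv ω Γ v₂ l - μ * tv ω Γ w₂ l := by
    intro l
    rw [← tv_smul, ← tv_sub]
  rw [e1, e1] at t2
  rw [tv_sub, tv_sub] at t3
  apply hb.tv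
  linear_combination t3 + t2 + μ * t1

end Pool.Agent.FRM
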