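import Pool.Agent.FRM.Defs2
import Pool.Agent.FRM.Cb1

/-!
# FRM/Q8: lifting from A4 to the binary tetrahedral group

PROOF PLAN.  `sg` is a section of the map from the quaternion group to `F4`: `sg b * sg b' = ± sg (b + b')`; `thq * sg b * thq⁻¹ = sg (om * b)` (exactly, also for `b = 0`), `thq ^ 3 = 1`.  So
`lf b m * lf b' m' = ± lf (b + om ^ m * b') (m + m')`.  Case analysis on `F4` (4 x 4 cases) and `m % 3`, equalities of rational quaternions by `Quaternion.ext` and `norm_num`.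
`hl_lf`: induction on `l` with `lf_mul`, `lf_inv`; `tv`, `ch om q = om ^ (q.1 + q.2)`.  `lf_prod`: all cases (`b ≠ b'`, `m ≡ m' mod 3`, `m` not divisible by 3); the real parts are `± 1/2`.
-/

set_option autoImplicit false

noncomputable section

open scoped Classical

namespace Pool.Agent.FRM

open GG

theorem q_ne (a b c d : ℚ) (h : a ≠ 0 ∨ b ≠ 0 ∨ c ≠ 0 ∨ d ≠ 0) : (⟨a, b, c, d⟩ : Hq) ≠ 0 := by
  intro h0
  have h1 : a = 0 := congrArg (fun q : Hq => q.re) h0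
  have h2 : b = 0 := congrArg (fun q : Hq => q.imI) h0
  have h3 : c = 0 := congrArg (fun q : Hq => q.imJ) h0
  have h4 : d = 0 := congrArg (fun q : Hq => q.imK) h0
  tauto

/-- a section `F4 → Q8` -/
def sg : F4 → Hqˣ
  | F4.o => 1
  | F4.i => Units.mk0 ⟨0, 1, 0, 0⟩ (q_ne _ _ _ _ (by norm_num))
  | F4.w => Units.mk0 ⟨0, 0, 1, 0⟩ (q_ne _ _ _ _ (by norm_num))
  | F4.u => Units.mk0 ⟨0, 0, 0, 1⟩ (q_ne _ _ _ _ (by norm_num))

/-- an element of order three; conjugation by it is `i → j → k → i` -/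
def thq : Hqˣ := Units.mk0 ⟨-1 / 2, -1 / 2, -1 / 2, -1 / 2⟩ (q_ne _ _ _ _ (by norm_num))

def lf (b : F4) (m : ℤ) : Hqˣ := sg b * thq ^ m

private theorem Q8_o1 : (1 : Hq).re = 1 := rfl
private theorem Q8_o2 : (1 : Hq).imI = 0 := rfl
private theorem Q8_o3 : (1 : Hq).imJ = 0 := rfl
private theorem Q8_o4 : (1 : Hq).imK = 0 := rfl

theorem thq_cube : thq ^ 3 = 1 := by
  apply Units.ext
  rw [Units.val_pow_eq_pow_val, pow_succ, pow_succ, pow_one, Units.val_one]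
  simp only [thq, Units.val_mk0]
  ext <;> simp [Quaternion.re_mul, Quaternion.imI_mul, Quaternion.imJ_mul, Quaternion.imK_mul, Q8_o1, Q8_o2, Q8_o3, Q8_o4] <;> norm_num

private theorem Q8_th_mod (m : ℤ) : thq ^ m = thq ^ (m % 3) := by
  conv_lhs => rw [← Int.mul_ediv_add_emod m 3, zpow_add, zpow_mul]
  have h : thq ^ (3 : ℤ) = 1 := by exact_mod_cast thq_cube
  rw [h, one_zpow, one_mul]

private theorem Q8_om_mod (m : ℤ) : F4.om ^ m = F4.om ^ (m % 3) := by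
  have h0 : F4.om ≠ 0 := by decide
  conv_lhs => rw [← Int.mul_ediv_add_emod m 3, zpow_add₀ h0, zpow_mul]
  have h : F4.om ^ (3 : ℤ) = 1 := by
    have h1 : F4.om ^ 3 = 1 := by decide
    exact_mod_cast h1
  rw [h, one_zpow, one_mul]

private theorem Q8_mod (m : ℤ) : m % 3 = 0 ∨ m % 3 = 1 ∨ m % 3 = 2 := by omega

private theorem Q8_th (b : F4) : thq * sg b = sg (F4.om * b) * thq := by
  apply Units.ext
  cases b
  · show (thq * sg F4.o : Hqˣ).val = (sg F4.o * thq : Hqˣ).val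
    simp [sg]
  · show (thq * sg F4.i : Hqˣ).val = (sg F4.w * thq : Hqˣ).val
    simp only [thq, sg, Units.val_mk0, Units.val_mul]
    ext <;> simp [Quaternion.re_mul, Quaternion.imI_mul, Quaternion.imJ_mul, Quaternion.imK_mul, Q8_o1, Q8_o2, Q8_o3, Q8_o4]
  · show (thq * sg F4.w : Hqˣ).val = (sg F4.u * thq : Hqˣ).val
    simp only [thq, sg, Units.val_mk0, Units.val_mul]
    ext <;> simp [Quaternion.re_mul, Quaternion.imI_mul, Quaternion.imJ_mul, Quaternion.imK_mul, Q8_o1, Q8_o2, Q8_o3, Q8_o4]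
  · show (thq * sg F4.u : Hqˣ).val = (sg F4.i * thq : Hqˣ).val
    simp only [thq, sg, Units.val_mk0, Units.val_mul]
    ext <;> simp [Quaternion.re_mul, Quaternion.imI_mul, Quaternion.imJ_mul, Quaternion.imK_mul, Q8_o1, Q8_o2, Q8_o3, Q8_o4]

private theorem Q8_thm (m : ℤ) (b : F4) : thq ^ m * sg b = sg (F4.om ^ m * b) * thq ^ m := by
  rw [Q8_th_mod, Q8_om_mod]
  rcases Q8_mod m with h | h | h <;> rw [h]
  · simp
  · simp only [zpow_one]
    exact Q8_th b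
  · have h2 : (2 : ℤ) = ((2 : ℕ) : ℤ) := rfl
    rw [h2, zpow_natCast, zpow_natCast, pow_two, pow_two, mul_assoc, Q8_th, ← mul_assoc, Q8_th, mul_assoc,
      mul_assoc]

private theorem Q8_sg (b c : F4) : sg b * sg c = sg (b + c) ∨ sg b * sg c = -sg (b + c) := by
  have key : ∀ b c d : F4, b + c = d → (sg b * sg c = sg d ∨ sg b * sg c = -sg d) := by
    intro b c d h
    cases b <;> cases c <;> cases d <;> first
      | (exfalso; revert h; decide)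
      | (left; apply Units.ext; simp only [sg, Units.val_mk0, Units.val_mul, Units.val_one, Units.val_neg];
         ext <;> simp [Quaternion.re_mul, Quaternion.imI_mul, Quaternion.imJ_mul, Quaternion.imK_mul, Q8_o1, Q8_o2, Q8_o3, Q8_o4]; done)
      | (right; apply Units.ext; simp only [sg, Units.val_mk0, Units.val_mul, Units.val_one, Units.val_neg];
         ext <;> simp [Quaternion.re_mul, Quaternion.imI_mul, Quaternion.imJ_mul, Quaternion.imK_mul, Q8_o1, Q8_o2, Q8_o3, Q8_o4])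
  exact key b c _ rfl

theorem lf_mul (b b' : F4) (m m' : ℤ) :
    lf b m * lf b' m' = lf (b + F4.om ^ m * b') (m + m') ∨ lf b m * lf b' m' = -lf (b + F4.om ^ m * b') (m + m') := by
  have h : lf b m * lf b' m' = sg b * sg (F4.om ^ m * b') * thq ^ (m + m') := by
    unfold lf
    rw [zpow_add, ← mul_assoc, mul_assoc (sg b), Q8_thm, ← mul_assoc, ← mul_assoc]
  rw [h]
  unfold lf
  rcases Q8_sg b (F4.om ^ m * b') with h1 | h1
  · left
    rw [h1]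
  · right
    rw [h1, neg_mul]

theorem lf_inv (b : F4) (m : ℤ) :
    (lf b m)⁻¹ = lf (-(F4.om ^ (-m) * b)) (-m) ∨ (lf b m)⁻¹ = -lf (-(F4.om ^ (-m) * b)) (-m) := by
  have h0 : F4.om ≠ 0 := by decide
  have e : b + F4.om ^ m * (-(F4.om ^ (-m) * b)) = 0 := by
    rw [mul_neg, ← mul_assoc, ← zpow_add₀ h0, add_neg_cancel, zpow_zero, one_mul, add_neg_cancel]
  have e1 : lf 0 0 = 1 := by
    show (1 : Hqˣ) * thq ^ (0 : ℤ) = 1
    simp
  rcases lf_mul b (-(F4.om ^ (-m) * b)) m (-m) with h | h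
  · left
    rw [e, add_neg_cancel, e1] at h
    exact inv_eq_of_mul_eq_one_right h
  · right
    rw [e, add_neg_cancel, e1] at h
    apply inv_eq_of_mul_eq_one_right
    rw [mul_neg, h, neg_neg]

private def Q8_t0 : F4 → Hq
  | F4.o => ⟨1, 0, 0, 0⟩
  | F4.i => ⟨0, 1, 0, 0⟩
  | F4.w => ⟨0, 0, 1, 0⟩
  | F4.u => ⟨0, 0, 0, 1⟩

private def Q8_t1 : F4 → Hq
  | F4.o => ⟨-1 / 2, -1 / 2, -1 / 2, -1 / 2⟩
  | F4.i => ⟨1 / 2, -1 / 2, 1 / 2, -1 / 2⟩
  | F4.w => ⟨1 / 2, -1 / 2, -1 / 2, 1 / 2⟩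
  | F4.u => ⟨1 / 2, 1 / 2, -1 / 2, -1 / 2⟩

private def Q8_t2 : F4 → Hq
  | F4.o => ⟨-1 / 2, 1 / 2, 1 / 2, 1 / 2⟩
  | F4.i => ⟨-1 / 2, -1 / 2, -1 / 2, 1 / 2⟩
  | F4.w => ⟨-1 / 2, 1 / 2, -1 / 2, -1 / 2⟩
  | F4.u => ⟨-1 / 2, -1 / 2, 1 / 2, -1 / 2⟩

private theorem Q8_val (b : F4) (m : ℤ) : (m % 3 = 0 → (lf b m : Hq) = Q8_t0 b) ∧
    (m % 3 = 1 → (lf b m : Hq) = Q8_t1 b) ∧ (m % 3 = 2 → (lf b m : Hq) = Q8_t2 b) := by
  unfold lf
  rw [Q8_th_mod, Units.val_mul]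
  refine ⟨fun h => ?_, fun h => ?_, fun h => ?_⟩ <;> rw [h]
  · rw [zpow_zero, Units.val_one, mul_one]
    cases b <;> simp only [sg, Q8_t0, Units.val_mk0, Units.val_one] <;>
      ext <;> simp [Q8_o1, Q8_o2, Q8_o3, Q8_o4]
  · rw [zpow_one]
    cases b <;> simp only [sg, thq, Q8_t1, Units.val_mk0, Units.val_one] <;>
      ext <;> simp [Quaternion.re_mul, Quaternion.imI_mul, Quaternion.imJ_mul, Quaternion.imK_mul, Q8_o1, Q8_o2, Q8_o3, Q8_o4] <;> norm_num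
  · have h2 : (2 : ℤ) = ((2 : ℕ) : ℤ) := rfl
    rw [h2, zpow_natCast, pow_two, Units.val_mul]
    cases b <;> simp only [sg, thq, Q8_t2, Units.val_mk0, Units.val_one] <;>
      ext <;> simp [Quaternion.re_mul, Quaternion.imI_mul, Quaternion.imJ_mul, Quaternion.imK_mul, Q8_o1, Q8_o2, Q8_o3, Q8_o4] <;> norm_num

private theorem Q8_norm (a b c d : ℚ) : Quaternion.normSq (⟨a, b, c, d⟩ : Hq) = a ^ 2 + b ^ 2 + c ^ 2 + d ^ 2 := by
  rw [Quaternion.normSq_def']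

private theorem Q8_half (a b c d : ℚ) (h : Quaternion.normSq (⟨a, b, c, d⟩ : Hq) = 1)
    (ha : ∃ n : ℤ, a = n + 1 / 2) (hb : ∃ n : ℤ, b = n + 1 / 2) (hc : ∃ n : ℤ, c = n + 1 / 2)
    (hd : ∃ n : ℤ, d = n + 1 / 2) : HU (⟨a, b, c, d⟩ : Hq) := by
  obtain ⟨a', rfl⟩ := ha
  obtain ⟨b', rfl⟩ := hb
  obtain ⟨c', rfl⟩ := hc
  obtain ⟨d', rfl⟩ := hd
  exact ⟨h, Or.inr ⟨a', b', c', d', rfl⟩⟩

private theorem Q8_hp : ∃ n : ℤ, (1 / 2 : ℚ) = n + 1 / 2 := ⟨0, by norm_num⟩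

private theorem Q8_hm : ∃ n : ℤ, (-1 / 2 : ℚ) = n + 1 / 2 := ⟨-1, by norm_num⟩

theorem lf_HU (b : F4) (m : ℤ) : HU (lf b m : Hq) := by
  rcases Q8_mod m with h | h | h
  · rw [(Q8_val b m).1 h]
    cases b
    · exact ⟨by unfold Q8_t0; rw [Q8_norm]; norm_num, Or.inl ⟨1, 0, 0, 0, by simp [Q8_t0]⟩⟩
    · exact ⟨by unfold Q8_t0; rw [Q8_norm]; norm_num, Or.inl ⟨0, 1, 0, 0, by simp [Q8_t0]⟩⟩
    · exact ⟨by unfold Q8_t0; rw [Q8_norm]; norm_num, Or.inl ⟨0, 0, 1, 0, by simp [Q8_t0]⟩⟩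
    · exact ⟨by unfold Q8_t0; rw [Q8_norm]; norm_num, Or.inl ⟨0, 0, 0, 1, by simp [Q8_t0]⟩⟩
  · rw [(Q8_val b m).2.1 h]
    cases b <;> unfold Q8_t1 <;> apply Q8_half <;>
      first | exact Q8_hp | exact Q8_hm | (rw [Q8_norm]; norm_num)
  · rw [(Q8_val b m).2.2 h]
    cases b <;> unfold Q8_t2 <;> apply Q8_half <;>
      first | exact Q8_hp | exact Q8_hm | (rw [Q8_norm]; norm_num)

theorem HU_neg {q : Hq} (h : HU q) : HU (-q) := by
  obtain ⟨h1, h2⟩ := h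
  refine ⟨by rw [Quaternion.normSq_neg]; exact h1, ?_⟩
  rcases h2 with ⟨a, b, c, d, rfl⟩ | ⟨a, b, c, d, rfl⟩
  · left
    refine ⟨-a, -b, -c, -d, ?_⟩
    ext <;> simp
  · right
    refine ⟨-a - 1, -b - 1, -c - 1, -d - 1, ?_⟩
    ext <;> simp <;> ring

theorem HU_one : HU 1 := by
  refine ⟨by simp, Or.inl ⟨1, 0, 0, 0, ?_⟩⟩
  ext <;> simp [Q8_o1, Q8_o2, Q8_o3, Q8_o4]

theorem lf_re (b : F4) {m : ℤ} (hm : ¬ (3 : ℤ) ∣ m) : (lf b m : Hq).re = 1 / 2 ∨ (lf b m : Hq).re = -(1 / 2) := by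
  rcases Q8_mod m with h | h | h
  · omega
  · rw [(Q8_val b m).2.1 h]
    cases b <;> unfold Q8_t1 <;> norm_num
  · rw [(Q8_val b m).2.2 h]
    cases b <;> unfold Q8_t2 <;> norm_num

theorem lf_zero {m : ℤ} (hm : (3 : ℤ) ∣ m) : lf 0 m = 1 := by
  have h : m % 3 = 0 := by omega
  unfold lf
  rw [Q8_th_mod, h, zpow_zero, mul_one]
  rfl

theorem lf_prod {b b' : F4} {m m' : ℤ} (hb : b ≠ b') (hm : ¬ (3 : ℤ) ∣ m) (hmm : (3 : ℤ) ∣ m - m') :
    0 < (lf b m : Hq).re * (lf b' m' : Hq).re * (lf b m * lf b' m' : Hqˣ).val.re := by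
  have e : m' % 3 = m % 3 := by omega
  rw [Units.val_mul]
  rcases Q8_mod m with h | h | h
  · omega
  · rw [(Q8_val b m).2.1 h, (Q8_val b' m').2.1 (e.trans h)]
    cases b <;> cases b' <;> first
      | exact absurd rfl hb
      | (unfold Q8_t1; rw [Quaternion.re_mul]; norm_num)
  · rw [(Q8_val b m).2.2 h, (Q8_val b' m').2.2 (e.trans h)]
    cases b <;> cases b' <;> first
      | exact absurd rfl hb
      | (unfold Q8_t2; rw [Quaternion.re_mul]; norm_num)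

theorem hl_lf {V E : Type} (Γ : GG V E Lt) (v : E → F4) (l : List (Da E)) :
    hl (fun e => lf (v e) ((Γ.g e).1 + (Γ.g e).2)) l = lf (tv F4.om Γ v l) ((Γ.gn l).1 + (Γ.gn l).2) ∨
      hl (fun e => lf (v e) ((Γ.g e).1 + (Γ.g e).2)) l = -lf (tv F4.om Γ v l) ((Γ.gn l).1 + (Γ.gn l).2) := by
  induction l with
  | nil =>
    left
    show (1 : Hqˣ) = lf 0 _
    rw [lf_zero]
    show (3 : ℤ) ∣ 0 + 0
    norm_num
  | cons d l ih =>
    have hd : (if d.2 then lf (v d.1) ((Γ.g d.1).1 + (Γ.g d.1).2) else (lf (v d.1) ((Γ.g d.1).1 + (Γ.g d.1).2))⁻¹) =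
        lf (dv F4.om Γ v d) ((Γ.dg d).1 + (Γ.dg d).2) ∨
        (if d.2 then lf (v d.1) ((Γ.g d.1).1 + (Γ.g d.1).2) else (lf (v d.1) ((Γ.g d.1).1 + (Γ.g d.1).2))⁻¹) =
        -lf (dv F4.om Γ v d) ((Γ.dg d).1 + (Γ.dg d).2) := by
      obtain ⟨e, b⟩ := d
      cases b
      · have h := lf_inv (v e) ((Γ.g e).1 + (Γ.g e).2)
        have h1 : (Γ.dg (e, false)).1 + (Γ.dg (e, false)).2 = -((Γ.g e).1 + (Γ.g e).2) := by
          show -(Γ.g e).1 + -(Γ.g e).2 = _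
          ring
        have h2 : dv F4.om Γ v (e, false) = -(F4.om ^ (-((Γ.g e).1 + (Γ.g e).2)) * v e) := by
          show -(F4.om ^ (-(Γ.g e).1 + -(Γ.g e).2) * v e) = _
          rw [neg_add]
        rw [h1, h2]
        simpa using h
      · left
        rfl
    have h1 : hl (fun e => lf (v e) ((Γ.g e).1 + (Γ.g e).2)) (d :: l) =
        (if d.2 then lf (v d.1) ((Γ.g d.1).1 + (Γ.g d.1).2) else (lf (v d.1) ((Γ.g d.1).1 + (Γ.g d.1).2))⁻¹) *
          hl (fun e => lf (v e) ((Γ.g e).1 + (Γ.g e).2)) l := rfl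
    have h2 : tv F4.om Γ v (d :: l) = dv F4.om Γ v d + F4.om ^ ((Γ.dg d).1 + (Γ.dg d).2) * tv F4.om Γ v l := rfl
    have h3 : (Γ.gn (d :: l)).1 + (Γ.gn (d :: l)).2 =
        ((Γ.dg d).1 + (Γ.dg d).2) + ((Γ.gn l).1 + (Γ.gn l).2) := by
      show ((Γ.dg d + Γ.gn l : Lt)).1 + ((Γ.dg d + Γ.gn l : Lt)).2 = _
      rw [Prod.fst_add, Prod.snd_add]
      ring
    rw [h1, h2, h3]
    have h4 := lf_mul (dv F4.om Γ v d) (tv F4.om Γ v l) ((Γ.dg d).1 + (Γ.dg d).2) ((Γ.gn l).1 + (Γ.gn l).2)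
    rcases hd with hd | hd <;> rcases ih with ih | ih <;> rcases h4 with h4 | h4
    · left; rw [hd, ih, h4]
    · right; rw [hd, ih, h4]
    · right; rw [hd, ih, mul_neg, h4]
    · left; rw [hd, ih, mul_neg, h4, neg_neg]
    · right; rw [hd, ih, neg_mul, h4]
    · left; rw [hd, ih, neg_mul, h4, neg_neg]
    · left; rw [hd, ih, neg_mul_neg, h4]
    · right; rw [hd, ih, neg_mul_neg, h4]

/-- real parts -/
theorem re_conj (p q : Hqˣ) : ((p * q * p⁻¹ : Hqˣ) : Hq).re = (q : Hq).re := by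
  have h : ∀ a b : Hq, (a * b).re = (b * a).re := by
    intro a b
    rw [Quaternion.re_mul, Quaternion.re_mul]
    ring
  rw [Units.val_mul, h, Units.val_mul, ← mul_assoc, Units.inv_mul, one_mul]

theorem re_inv {q : Hqˣ} (h : Quaternion.normSq (q : Hq) = 1) : ((q⁻¹ : Hqˣ) : Hq).re = (q : Hq).re := by
  have h1 : (q : Hq) * star (q : Hq) = 1 := by
    rw [Quaternion.self_mul_star, h]
    rfl
  have h2 : ((q⁻¹ : Hqˣ) : Hq) = star (q : Hq) := by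
    calc ((q⁻¹ : Hqˣ) : Hq) = ((q⁻¹ : Hqˣ) : Hq) * ((q : Hq) * star (q : Hq)) := by rw [h1, mul_one]
      _ = star (q : Hq) := by rw [← mul_assoc, Units.inv_mul, one_mul]
  rw [h2, Quaternion.re_star]

/-- holonomies of norm one -/
theorem hl_norm {E : Type} (τ : E → Hqˣ) (hn : ∀ e, Quaternion.normSq (τ e : Hq) = 1) (l : List (Da E)) :
    Quaternion.normSq ((hl τ l : Hqˣ) : Hq) = 1 := by
  induction l with
  | nil =>
    show Quaternion.normSq ((1 : Hqˣ) : Hq) = 1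
    simp
  | cons d l ih =>
    show Quaternion.normSq (((if d.2 then τ d.1 else (τ d.1)⁻¹) * hl τ l : Hqˣ) : Hq) = 1
    rw [Units.val_mul, map_mul, ih, mul_one]
    split
    · exact hn d.1
    · have h1 : Quaternion.normSq ((τ d.1 : Hq)) * Quaternion.normSq (((τ d.1)⁻¹ : Hqˣ) : Hq) = 1 := by
        rw [← map_mul, Units.mul_inv, map_one]
      rw [hn, one_mul] at h1
      exact h1

end Pool.Agent.FRM
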