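import Pool.Agent.FRM.Defs2

/-!
# FRM/Une1: the group of the 2-uniform partial field is free

`ev_inj`: an identity `ev u = 1` gives (move the negative exponents to the other side) an identity between polynomials,
and evaluation at the points `(0, 3)`, `(3, 0)`, `(1, 3)`, `(3, 1)`, `(3, 3)` shows that the five exponents are `0`.
-/

set_option autoImplicit false

noncomputable section

open scoped Classical

namespace Pool.Agent.FRM

open GG

private theorem Une1_ne (p : MvPolynomial (Fin 2) ℚ) (f : Fin 2 → ℚ) (h : MvPolynomial.eval f p ≠ 0) :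
    algebraMap (MvPolynomial (Fin 2) ℚ) KU p ≠ 0 := by
  intro h0
  apply h
  have : p = 0 := (IsFractionRing.injective (MvPolynomial (Fin 2) ℚ) KU) (by rw [h0, map_zero])
  rw [this, map_zero]

theorem al_ne : al ≠ 0 := by
  refine Une1_ne (MvPolynomial.X 0) (fun _ => 1) ?_
  simp

theorem be_ne : be ≠ 0 := by
  refine Une1_ne (MvPolynomial.X 1) (fun _ => 1) ?_
  simp

theorem al_ne_one : 1 - al ≠ 0 := by
  have h := Une1_ne (1 - MvPolynomial.X 0) (fun _ => 2) (by simp; norm_num)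
  rwa [map_sub, map_one] at h

theorem be_ne_one : 1 - be ≠ 0 := by
  have h := Une1_ne (1 - MvPolynomial.X 1) (fun _ => 2) (by simp; norm_num)
  rwa [map_sub, map_one] at h

theorem al_ne_be : al - be ≠ 0 := by
  have h := Une1_ne (MvPolynomial.X 0 - MvPolynomial.X 1) (fun i => if i = 0 then 1 else 0) (by simp)
  rwa [map_sub] at h

theorem ev_zero : ev 0 = 1 := by
  simp [ev]

private theorem Une1_s (s t : ZMod 2) : (-1 : KU) ^ (s + t).val = (-1) ^ s.val * (-1) ^ t.val := by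
  rw [ZMod.val_add, ← neg_one_pow_eq_pow_mod_two, pow_add]

theorem ev_add (u v : XG) : ev (u + v) = ev u * ev v := by
  simp only [ev, Prod.fst_add, Prod.snd_add]
  rw [zpow_add₀ al_ne, zpow_add₀ be_ne, zpow_add₀ al_ne_one, zpow_add₀ be_ne_one, zpow_add₀ al_ne_be, Une1_s]
  ring

theorem ev_neg (u : XG) : ev (-u) = (ev u)⁻¹ := by
  have h := ev_add u (-u)
  rw [add_neg_cancel, ev_zero] at h
  exact eq_inv_of_mul_eq_one_right h.symm

theorem ev_ne_zero (u : XG) : ev u ≠ 0 := by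
  intro h0
  have h := ev_add u (-u)
  rw [add_neg_cancel, ev_zero, h0, zero_mul] at h
  exact one_ne_zero h

theorem ev_neg_one : ev (0, 0, 0, 0, 0, 1) = -1 := by
  simp [ev, ZMod.val_one]

private theorem Une1_z {x : KU} (hx : x ≠ 0) (n : ℤ) : x ^ n * x ^ (-n).toNat = x ^ n.toNat := by
  rw [← zpow_natCast, ← zpow_natCast, ← zpow_add₀ hx]
  congr 1
  omega

private theorem Une1_poly {u : XG} (h : ev u = 1) (x y : ℚ) :
    x ^ u.1.toNat * y ^ u.2.1.toNat * (1 - x) ^ u.2.2.1.toNat * (1 - y) ^ u.2.2.2.1.toNat *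
      (x - y) ^ u.2.2.2.2.1.toNat * (-1) ^ (u.2.2.2.2.2).val =
    x ^ (-u.1).toNat * y ^ (-u.2.1).toNat * (1 - x) ^ (-u.2.2.1).toNat * (1 - y) ^ (-u.2.2.2.1).toNat *
      (x - y) ^ (-u.2.2.2.2.1).toNat := by
  obtain ⟨a, b, c, d, e, s⟩ := u
  have h1 : al ^ a.toNat * be ^ b.toNat * (1 - al) ^ c.toNat * (1 - be) ^ d.toNat * (al - be) ^ e.toNat *
      (-1) ^ s.val = al ^ (-a).toNat * be ^ (-b).toNat * (1 - al) ^ (-c).toNat * (1 - be) ^ (-d).toNat *
      (al - be) ^ (-e).toNat := by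
    rw [← Une1_z al_ne a, ← Une1_z be_ne b, ← Une1_z al_ne_one c, ← Une1_z be_ne_one d, ← Une1_z al_ne_be e]
    have h2 : al ^ a * be ^ b * (1 - al) ^ c * (1 - be) ^ d * (al - be) ^ e * (-1) ^ s.val = 1 := h
    calc _ = (al ^ a * be ^ b * (1 - al) ^ c * (1 - be) ^ d * (al - be) ^ e * (-1) ^ s.val) *
        (al ^ (-a).toNat * be ^ (-b).toNat * (1 - al) ^ (-c).toNat * (1 - be) ^ (-d).toNat *
        (al - be) ^ (-e).toNat) := by ring
      _ = _ := by rw [h2, one_mul]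
  have h3 : (MvPolynomial.X 0 : MvPolynomial (Fin 2) ℚ) ^ a.toNat * MvPolynomial.X 1 ^ b.toNat *
      (1 - MvPolynomial.X 0) ^ c.toNat * (1 - MvPolynomial.X 1) ^ d.toNat *
      (MvPolynomial.X 0 - MvPolynomial.X 1) ^ e.toNat * (-1) ^ s.val =
      MvPolynomial.X 0 ^ (-a).toNat * MvPolynomial.X 1 ^ (-b).toNat *
      (1 - MvPolynomial.X 0) ^ (-c).toNat * (1 - MvPolynomial.X 1) ^ (-d).toNat *
      (MvPolynomial.X 0 - MvPolynomial.X 1) ^ (-e).toNat := by
    apply IsFractionRing.injective (MvPolynomial (Fin 2) ℚ) KU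
    simp only [map_mul, map_pow, map_sub, map_one, map_neg]
    exact h1
  have h4 := congrArg (MvPolynomial.eval (fun i : Fin 2 => if i = 0 then x else y)) h3
  simpa using h4

private theorem Une1_e (n : ℤ) (h : n ≠ 0) : (n.toNat ≠ 0 ∧ (-n).toNat = 0) ∨ (n.toNat = 0 ∧ (-n).toNat ≠ 0) := by
  omega

private theorem Une1_m {A B A' B' x : ℚ} {n : ℤ} (hx : x = 0) (hA : A ≠ 0) (hA' : A' ≠ 0) (hB : B ≠ 0) (hB' : B' ≠ 0)
    (h : A * x ^ n.toNat * B = A' * x ^ (-n).toNat * B') : n = 0 := by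
  by_contra hn
  subst hx
  rcases Une1_e n hn with ⟨h1, h2⟩ | ⟨h1, h2⟩
  · rw [zero_pow h1, h2, mul_zero, zero_mul, pow_zero, mul_one] at h
    exact mul_ne_zero hA' hB' h.symm
  · rw [zero_pow h2, h1, mul_zero, zero_mul, pow_zero, mul_one] at h
    exact mul_ne_zero hA hB h

theorem ev_inj {u : XG} (h : ev u = 1) : u = 0 := by
  have H := Une1_poly h
  obtain ⟨a, b, c, d, e, s⟩ := u
  simp only at H
  have ha : a = 0 := by
    refine Une1_m (A := 1) (A' := 1) (x := 0)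
      (B := 3 ^ b.toNat * (1 - 0) ^ c.toNat * (1 - 3) ^ d.toNat * (0 - 3) ^ e.toNat * (-1) ^ s.val)
      (B' := 3 ^ (-b).toNat * (1 - 0) ^ (-c).toNat * (1 - 3) ^ (-d).toNat * (0 - 3) ^ (-e).toNat) rfl one_ne_zero
      one_ne_zero ?_ ?_ ?_
    · simp; norm_num
    · simp; norm_num
    · have := H 0 3
      linarith
  have hb : b = 0 := by
    refine Une1_m (A := 3 ^ a.toNat) (A' := 3 ^ (-a).toNat) (x := 0)
      (B := (1 - 3) ^ c.toNat * (1 - 0) ^ d.toNat * (3 - 0) ^ e.toNat * (-1) ^ s.val)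
      (B' := (1 - 3) ^ (-c).toNat * (1 - 0) ^ (-d).toNat * (3 - 0) ^ (-e).toNat) rfl (by simp)
      (by simp) ?_ ?_ ?_
    · simp; norm_num
    · simp; norm_num
    · have := H 3 0
      linarith
  have hc : c = 0 := by
    refine Une1_m (A := 1 ^ a.toNat * 3 ^ b.toNat) (A' := 1 ^ (-a).toNat * 3 ^ (-b).toNat) (x := 1 - 1)
      (B := (1 - 3) ^ d.toNat * (1 - 3) ^ e.toNat * (-1) ^ s.val)
      (B' := (1 - 3) ^ (-d).toNat * (1 - 3) ^ (-e).toNat) (by norm_num) (by simp)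
      (by simp) ?_ ?_ ?_
    · simp; norm_num
    · simp; norm_num
    · have := H 1 3
      linarith
  have hd : d = 0 := by
    refine Une1_m (A := 3 ^ a.toNat * 1 ^ b.toNat * (1 - 3) ^ c.toNat)
      (A' := 3 ^ (-a).toNat * 1 ^ (-b).toNat * (1 - 3) ^ (-c).toNat) (x := 1 - 1)
      (B := (3 - 1) ^ e.toNat * (-1) ^ s.val)
      (B' := (3 - 1) ^ (-e).toNat) (by norm_num) (by simp; norm_num)
      (by simp; norm_num) ?_ ?_ ?_
    · simp; norm_num
    · simp; norm_num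
    · have := H 3 1
      linarith
  have he : e = 0 := by
    refine Une1_m (A := 3 ^ a.toNat * 3 ^ b.toNat * (1 - 3) ^ c.toNat * (1 - 3) ^ d.toNat)
      (A' := 3 ^ (-a).toNat * 3 ^ (-b).toNat * (1 - 3) ^ (-c).toNat * (1 - 3) ^ (-d).toNat) (x := 3 - 3)
      (B := (-1) ^ s.val)
      (B' := 1) (by norm_num) (by simp; norm_num)
      (by simp; norm_num) ?_ ?_ ?_
    · simp
    · simp
    · have := H 3 3
      linarith
  subst ha hb hc hd he
  have h5 := H 0 0
  simp only [Int.toNat_zero, neg_zero, pow_zero, mul_one, one_mul] at h5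
  have hs : s = 0 := by
    have h6 : s = 0 ∨ s = 1 := by
      fin_cases s
      · exact Or.inl rfl
      · exact Or.inr rfl
    rcases h6 with h6 | h6
    · exact h6
    · subst h6
      rw [ZMod.val_one, pow_one] at h5
      norm_num at h5
  rw [hs]
  rfl

theorem inG_mul {x y : KU} (hx : InG x) (hy : InG y) : InG (x * y) := by
  obtain ⟨u, rfl⟩ := hx
  obtain ⟨v, rfl⟩ := hy
  exact ⟨u + v, (ev_add u v).symm⟩

theorem inG_inv {x : KU} (hx : InG x) : InG x⁻¹ := by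
  obtain ⟨u, rfl⟩ := hx
  exact ⟨-u, (ev_neg u).symm⟩

theorem inG_neg {x : KU} (hx : InG x) : InG (-x) := by
  obtain ⟨u, rfl⟩ := hx
  refine ⟨(0, 0, 0, 0, 0, 1) + u, ?_⟩
  rw [ev_add, ev_neg_one, neg_one_mul]

theorem inG_one : InG 1 := by
  exact ⟨0, ev_zero.symm⟩

theorem inG_ne {x : KU} (hx : InG x) : x ≠ 0 := by
  obtain ⟨u, rfl⟩ := hx
  exact ev_ne_zero u

end Pool.Agent.FRM
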