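import Pool.Agent.FRM.Qdt
import Pool.Agent.FRM.Une1
import Pool.Agent.FRM.Q8
import Pool.Agent.FRM.Cb2

/-!
# FRM/Cyv: the kernel vector of a cycle

SETTING.  `D` a division ring, `M : Matrix V E D`, a closed simple walk `c = d₁ ... d_k` at `u` (`c = P ++ rv P'` for a cycle), column `d_i.1` has the entries `a_i` at `src d_i`, `b_i` at `tgt d_i`, `a_i = -δ_i b_i` where `δ_i` is `τ` of the dart (`τ e` or `(τ e)⁻¹`).
PROOF PLAN.  `x_1 = 1`, `x_{i+1} = -a_{i+1}⁻¹ b_i x_i`, `x e = 0` for the other edges: `∑_e M v e * x e` is `0` for `v ≠ u` and `a_1 + b_k x_k = (1 - (δ_1 ... δ_k)⁻¹) a_1` at `u` (`b_i x_i = -(δ_1 ... δ_i)⁻¹ a_1` by induction).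
State and prove it first for a simple path `l : u → z` (not closed): `∑_{e ∈ l} M v e * x e` is `a_1` at `u`, `-(hl τ l)⁻¹ a_1` at `z`, `0` elsewhere (induction on `l`, `List.reverseRecOn` or `l ++ [d]`), then add the second path with the opposite sign so that everything cancels at `w = y`: with `z = y`,
`x` for `P` and `x'` for `P'`, `x - x' * λ` with `(hl τ P)⁻¹ a_1 = (hl τ P')⁻¹ a_1' λ`.  The value at `u` is then `a_1 - a_1' λ = a_1 - hl τ P' * (hl τ P)⁻¹ * a_1 = (1 - hl τ P' (hl τ P)⁻¹) a_1`.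
-/

set_option autoImplicit false

noncomputable section

open scoped Classical

namespace Pool.Agent.FRM

open GG

section Gen

variable {V E Q : Type} [AddCommGroup Q] {Γ : GG V E Q} {D : Type} [DivisionRing D]

/-- The matrix `M` is compatible with the graph `Γ` and the connection `τ`. -/
structure Cmp (Γ : GG V E Q) (M : Matrix V E D) (τ : E → Dˣ) : Prop where
  lf : ∀ j ∈ Γ.A, Γ.s j ≠ Γ.t j
  nt : ∀ j ∈ Γ.A, M (Γ.t j) j ≠ 0
  out : ∀ j ∈ Γ.A, ∀ i, i ≠ Γ.s j → i ≠ Γ.t j → M i j = 0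
  eq : ∀ j ∈ Γ.A, M (Γ.s j) j = -((τ j : D) * M (Γ.t j) j)

private theorem Cyv_src {M : Matrix V E D} {τ : E → Dˣ} (hM : Cmp Γ M τ) {d : Da E} (hd : d.1 ∈ Γ.A) :
    M (Γ.src d) d.1 = -(((if d.2 then τ d.1 else (τ d.1)⁻¹ : Dˣ) : D) * M (Γ.tgt d) d.1) := by
  obtain ⟨e, b⟩ := d
  cases b with
  | true => exact hM.eq e hd
  | false =>
    have h := hM.eq e hd
    show M (Γ.t e) e = -((((τ e)⁻¹ : Dˣ) : D) * M (Γ.s e) e)
    rw [h, mul_neg, neg_neg, ← mul_assoc, Units.inv_mul, one_mul]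

private theorem Cyv_ne {M : Matrix V E D} {τ : E → Dˣ} (hM : Cmp Γ M τ) {d : Da E} (hd : d.1 ∈ Γ.A) :
    M (Γ.src d) d.1 ≠ 0 := by
  obtain ⟨e, b⟩ := d
  cases b with
  | true =>
    show M (Γ.s e) e ≠ 0
    rw [hM.eq e hd]
    exact neg_ne_zero.2 (mul_ne_zero (Units.ne_zero _) (hM.nt e hd))
  | false => exact hM.nt e hd

private theorem Cyv_st {M : Matrix V E D} {τ : E → Dˣ} (hM : Cmp Γ M τ) {d : Da E} (hd : d.1 ∈ Γ.A) :
    Γ.src d ≠ Γ.tgt d := by
  obtain ⟨e, b⟩ := d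
  cases b with
  | true => exact hM.lf e hd
  | false => exact (hM.lf e hd).symm

private theorem Cyv_out {M : Matrix V E D} {τ : E → Dˣ} (hM : Cmp Γ M τ) {d : Da E} (hd : d.1 ∈ Γ.A) {i : V}
    (h1 : i ≠ Γ.src d) (h2 : i ≠ Γ.tgt d) : M i d.1 = 0 := by
  obtain ⟨e, b⟩ := d
  cases b with
  | true => exact hM.out e hd i h1 h2
  | false => exact hM.out e hd i h2 h1

private theorem Cyv_tgt {M : Matrix V E D} {τ : E → Dˣ} (hM : Cmp Γ M τ) {d : Da E} (hd : d.1 ∈ Γ.A) (c : D) :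
    M (Γ.tgt d) d.1 * ((M (Γ.src d) d.1)⁻¹ * c) =
      -((((if d.2 then τ d.1 else (τ d.1)⁻¹ : Dˣ)⁻¹ : Dˣ) : D) * c) := by
  set δ : Dˣ := if d.2 then τ d.1 else (τ d.1)⁻¹ with hδ
  have h1 : M (Γ.src d) d.1 = -((δ : D) * M (Γ.tgt d) d.1) := Cyv_src hM hd
  have h0 := Cyv_ne hM hd
  have h2 : M (Γ.tgt d) d.1 = -(((δ⁻¹ : Dˣ) : D) * M (Γ.src d) d.1) := by
    rw [h1, mul_neg, neg_neg, ← mul_assoc, Units.inv_mul, one_mul]
  rw [h2, neg_mul, mul_assoc, mul_inv_cancel_left₀ h0]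

private theorem Cyv_path {M : Matrix V E D} {τ : E → Dˣ} (hM : Cmp Γ M τ) {b : V} :
    ∀ (l : List (Da E)) (a : V) (c : D), Γ.Wk a l b → (l.map Prod.fst).Nodup →
      ∃ v : E → D, (∀ e, e ∉ eds l → v e = 0) ∧
        (∀ d l', l = d :: l' → v d.1 = (M a d.1)⁻¹ * c) ∧
        ∀ i, ∑ e ∈ eds l, M i e * v e =
          (if i = a then c else 0) - (if i = b then (((hl τ l)⁻¹ : Dˣ) : D) * c else 0) := by
  intro l
  induction l with
  | nil =>
    intro a c h _
    have hab : a = b := h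
    refine ⟨fun _ => 0, fun _ _ => rfl, fun d l' h1 => by simp at h1, fun i => ?_⟩
    rw [hl_nil, inv_one, Units.val_one, one_mul, hab, sub_self]
    simp
  | cons d l ih =>
    intro a c h hn
    obtain ⟨hd, ha, hw⟩ := h
    rw [List.map_cons, List.nodup_cons] at hn
    set δ : Dˣ := if d.2 then τ d.1 else (τ d.1)⁻¹ with hδ
    obtain ⟨v', hv0, -, hv⟩ := ih (Γ.tgt d) (((δ⁻¹ : Dˣ) : D) * c) hw hn.2
    have hdl : d.1 ∉ eds l := by
      intro h1
      rw [mem_eds] at h1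
      obtain ⟨d', h2, h3⟩ := h1
      exact hn.1 (List.mem_map.2 ⟨d', h2, h3⟩)
    have hins : eds (d :: l) = insert d.1 (eds l) := by
      ext e
      rw [mem_eds, Finset.mem_insert, mem_eds]
      constructor
      · rintro ⟨d', h2, h3⟩
        rcases List.mem_cons.1 h2 with h4 | h4
        · exact Or.inl (by rw [← h3, h4])
        · exact Or.inr ⟨d', h4, h3⟩
      · rintro (h2 | ⟨d', h2, h3⟩)
        · exact ⟨d, List.mem_cons_self, h2.symm⟩
        · exact ⟨d', List.mem_cons_of_mem d h2, h3⟩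
    refine ⟨fun e => if e = d.1 then (M a d.1)⁻¹ * c else v' e, fun e he => ?_, fun d' l' h1 => ?_, fun i => ?_⟩
    · rw [hins, Finset.mem_insert, not_or] at he
      show (if e = d.1 then (M a d.1)⁻¹ * c else v' e) = 0
      rw [if_neg he.1, hv0 e he.2]
    · have h2 : d = d' := (List.cons.inj h1).1
      rw [← h2]
      simp
    · rw [hins, Finset.sum_insert hdl]
      have hsum : ∑ e ∈ eds l, M i e * (if e = d.1 then (M a d.1)⁻¹ * c else v' e) =
          ∑ e ∈ eds l, M i e * v' e := by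
        refine Finset.sum_congr rfl fun e he => ?_
        have hne : e ≠ d.1 := fun h1 => hdl (by rw [← h1]; exact he)
        rw [if_neg hne]
      show M i d.1 * (if d.1 = d.1 then (M a d.1)⁻¹ * c else v' d.1) +
        ∑ e ∈ eds l, M i e * (if e = d.1 then (M a d.1)⁻¹ * c else v' e) = _
      rw [hsum, hv i, if_pos rfl]
      have hhl : (((hl τ (d :: l))⁻¹ : Dˣ) : D) * c = (((hl τ l)⁻¹ : Dˣ) : D) * (((δ⁻¹ : Dˣ) : D) * c) := by
        rw [hl_cons, mul_inv_rev, Units.val_mul, mul_assoc]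
      rw [hhl]
      subst ha
      have hst := Cyv_st hM hd
      by_cases h1 : i = Γ.src d
      · subst h1
        rw [mul_inv_cancel_left₀ (Cyv_ne hM hd), if_neg hst, if_pos rfl]
        abel
      · by_cases h2 : i = Γ.tgt d
        · subst h2
          rw [Cyv_tgt hM hd, if_pos rfl, if_neg h1]
          abel
        · rw [Cyv_out hM hd h1 h2, if_neg h1, if_neg h2, zero_mul]
          abel

/-- The first edge of `P` is `d`; the combination of the columns of the cycle with coefficient `1` at `d.1` which is supported at `x`. -/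
theorem cycle_vec {M : Matrix V E D} {τ : E → Dˣ} (hM : Cmp Γ M τ) {x y : V} {d : Da E} {P P' : List (Da E)}
    (h : Γ.Cy x y (d :: P) P') (hne : d :: P ≠ P') :
    ∃ v : E → D, v d.1 = 1 ∧ (∀ e, e ∉ eds (d :: P) → e ∉ eds P' → v e = 0) ∧
      (∀ i, i ≠ x → ∑ e ∈ eds (d :: P) ∪ eds P', M i e * v e = 0) ∧
      ∑ e ∈ eds (d :: P) ∪ eds P', M x e * v e =
        (1 - ((hl τ P' * (hl τ (d :: P))⁻¹ : Dˣ) : D)) * M x d.1 ∧ M x d.1 ≠ 0 := by
  have hdP : d.1 ∉ eds P' := by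
    rcases cy_disj h with h1 | ⟨d', h1, h2⟩
    · exact h1 d List.mem_cons_self
    · exact absurd (h1.trans h2.symm) hne
  have hd : d.1 ∈ Γ.A := h.p.1.1
  have hx : Γ.src d = x := h.p.1.2.1
  have hMx : M x d.1 ≠ 0 := by
    rw [← hx]
    exact Cyv_ne hM hd
  obtain ⟨v₁, h10, h11, h12⟩ := Cyv_path hM (d :: P) x (M x d.1) h.p.1 (pt_nodup h.p)
  obtain ⟨v₂, h20, -, h22⟩ := Cyv_path hM P' x
    (((hl τ P' * (hl τ (d :: P))⁻¹ : Dˣ) : D) * M x d.1) h.p'.1 (pt_nodup h.p')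
  have hsum : ∀ i, ∑ e ∈ eds (d :: P) ∪ eds P', M i e * (v₁ e - v₂ e) =
      ∑ e ∈ eds (d :: P), M i e * v₁ e - ∑ e ∈ eds P', M i e * v₂ e := by
    intro i
    have h1 : ∑ e ∈ eds (d :: P) ∪ eds P', M i e * v₁ e = ∑ e ∈ eds (d :: P), M i e * v₁ e := by
      refine (Finset.sum_subset Finset.subset_union_left fun e _ he => ?_).symm
      rw [h10 e he, mul_zero]
    have h2 : ∑ e ∈ eds (d :: P) ∪ eds P', M i e * v₂ e = ∑ e ∈ eds P', M i e * v₂ e := by
      refine (Finset.sum_subset Finset.subset_union_right fun e _ he => ?_).symm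
      rw [h20 e he, mul_zero]
    rw [← h1, ← h2, ← Finset.sum_sub_distrib]
    exact Finset.sum_congr rfl fun e _ => mul_sub _ _ _
  refine ⟨fun e => v₁ e - v₂ e, ?_, fun e h1 h2 => ?_, fun i hi => ?_, ?_, hMx⟩
  · show v₁ d.1 - v₂ d.1 = 1
    rw [h11 d P rfl, h20 _ hdP, inv_mul_cancel₀ hMx, sub_zero]
  · show v₁ e - v₂ e = 0
    rw [h10 e h1, h20 e h2, sub_zero]
  · rw [hsum i, h12 i, h22 i, if_neg hi, if_neg hi]
    by_cases hy : i = y
    · rw [if_pos hy, if_pos hy, ← mul_assoc, ← Units.val_mul, ← mul_assoc, inv_mul_cancel, one_mul]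
      abel
    · rw [if_neg hy, if_neg hy]
      abel
  · rw [hsum x, h12 x, h22 x, if_pos rfl, if_pos rfl, if_neg h.ne, if_neg h.ne, sub_zero, sub_zero, sub_mul,
      one_mul]

end Gen

end Pool.Agent.FRM
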