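import Mathlib

/-!
# FRM: frame 2-uniform matroids (MP_f270bf_lc). Gain graphs, walks, cochains: definitions

`GG V E Q`: a finite multigraph (`A` = the set of edges, `s e`, `t e` = the ends of `e`) with gains `g e` in an abelian group `Q`
(gain of the dart `s e → t e`; the dart `t e → s e` has gain `- g e`).  Darts: `(e, true)` = `s e → t e`, `(e, false)` = `t e → s e`.
A cycle is given by two internally disjoint simple paths `P`, `P'` from `x` to `y`, `x ≠ y` (`GG.Cy`); it is balanced if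
`gn P = gn P'`.
-/

set_option autoImplicit false

noncomputable section

open scoped Classical

namespace Pool.Agent.FRM

structure GG (V E Q : Type) where
  A : Finset E
  s : E → V
  t : E → V
  g : E → Q

/-- darts -/
abbrev Da (E : Type) := E × Bool

/-- the reversed dart -/
def fl {E : Type} (d : Da E) : Da E := (d.1, !d.2)

/-- the reversed list of darts -/
def rv {E : Type} (l : List (Da E)) : List (Da E) := (l.map fl).reverse

/-- the edges of a list of darts -/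
def eds {E : Type} (l : List (Da E)) : Finset E := (l.map Prod.fst).toFinset

/-- holonomy of a connection with values in a group -/
def hl {E G : Type} [Group G] (τ : E → G) (l : List (Da E)) : G :=
  (l.map fun d => if d.2 then τ d.1 else (τ d.1)⁻¹).prod

namespace GG

variable {V E Q : Type} [AddCommGroup Q] (Γ : GG V E Q)

/-- restriction to the set `B` of edges -/
def on (B : Finset E) : GG V E Q := ⟨B, Γ.s, Γ.t, Γ.g⟩

def src (d : Da E) : V := if d.2 then Γ.s d.1 else Γ.t d.1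

def tgt (d : Da E) : V := if d.2 then Γ.t d.1 else Γ.s d.1

/-- gain of a dart -/
def dg (d : Da E) : Q := if d.2 then Γ.g d.1 else -Γ.g d.1

/-- gain of a list of darts -/
def gn (l : List (Da E)) : Q := (l.map Γ.dg).sum

/-- vertices of the walk `l` which starts at `x` -/
def vs (x : V) (l : List (Da E)) : List V := x :: l.map Γ.tgt

/-- walks -/
def Wk : V → List (Da E) → V → Prop
  | x, [], y => x = y
  | x, d :: l, y => d.1 ∈ Γ.A ∧ Γ.src d = x ∧ Wk (Γ.tgt d) l y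

/-- simple paths -/
def Pt (x : V) (l : List (Da E)) (y : V) : Prop := Γ.Wk x l y ∧ (Γ.vs x l).Nodup

/-- vertices -/
def VS : Set V := {z | ∃ e ∈ Γ.A, Γ.s e = z ∨ Γ.t e = z}

/-- number of vertices -/
def nV : ℕ := Γ.VS.ncard

/-- loopless, connected, no cut vertex -/
structure C2 : Prop where
  ne : Γ.A.Nonempty
  lf : ∀ e ∈ Γ.A, Γ.s e ≠ Γ.t e
  con : ∀ x ∈ Γ.VS, ∀ y ∈ Γ.VS, ∃ l, Γ.Wk x l y
  cut : ∀ z, ∀ x ∈ Γ.VS, ∀ y ∈ Γ.VS, x ≠ z → y ≠ z → ∃ l, Γ.Wk x l y ∧ z ∉ Γ.vs x l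

/-- A cycle, given by two internally disjoint simple paths from `x` to `y` (or twice the same edge). -/
structure Cy (x y : V) (P P' : List (Da E)) : Prop where
  ne : x ≠ y
  p : Γ.Pt x P y
  p' : Γ.Pt x P' y
  dj : ∀ z ∈ Γ.vs x P, z ∈ Γ.vs x P' → z = x ∨ z = y

/-- all cycle gains are in `{0} ∪ Φ` -/
def Phi (Φ : Set Q) : Prop :=
  ∀ x y P P', Γ.Cy x y P P' → Γ.gn P - Γ.gn P' = 0 ∨ Γ.gn P - Γ.gn P' ∈ Φ

/-- after switching by the potential `p` all gains are in `S` -/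
def InS (S : AddSubgroup Q) : Prop := ∃ p : V → Q, ∀ e ∈ Γ.A, Γ.g e + p (Γ.s e) - p (Γ.t e) ∈ S

/-- the gains are cyclic -/
def Cyc : Prop := ∃ g : Q, Γ.InS (AddSubgroup.zmultiples g)

/-- The gains of the simple paths from `x` to `y` contain a translate of `T` or of `-T`, for all `x ≠ y`. -/
def Sp (T : Set Q) : Prop :=
  ∀ x ∈ Γ.VS, ∀ y ∈ Γ.VS, x ≠ y → ∃ q : Q, (∀ a ∈ T, ∃ P, Γ.Pt x P y ∧ Γ.gn P = q + a) ∨
    (∀ a ∈ T, ∃ P, Γ.Pt x P y ∧ Γ.gn P = q - a)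

/-- `l` is an ear of the subgraph with the edges `B`: a path from `a` to `b` outside `B` -/
structure Ear (B : Finset E) (a b : V) (l : List (Da E)) : Prop where
  ha : a ∈ (Γ.on B).VS
  hb : b ∈ (Γ.on B).VS
  ne : a ≠ b
  pt : Γ.Pt a l b
  int : ∀ z ∈ Γ.vs a l, z ∈ (Γ.on B).VS → z = a ∨ z = b
  out : ∀ d ∈ l, d.1 ∉ B

/-- three pairwise internally disjoint paths from `u` to `w` -/
structure Th (u w : V) (X Y Z : List (Da E)) : Prop where
  xy : Γ.Cy u w X Y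
  yz : Γ.Cy u w Y Z
  xz : Γ.Cy u w X Z

/-- switching -/
def sw (p : V → Q) : GG V E Q := ⟨Γ.A, Γ.s, Γ.t, fun e => Γ.g e + p (Γ.s e) - p (Γ.t e)⟩

/-- the map which identifies `t e` with `s e` -/
def cm (e : E) (z : V) : V := if z = Γ.t e then Γ.s e else z

/-- contraction of the edge `e` (of gain `0`) -/
def con (e : E) : GG V E Q := ⟨Γ.A.erase e, fun f => Γ.cm e (Γ.s f), fun f => Γ.cm e (Γ.t f), Γ.g⟩

/-- `e` has no parallel edge -/
def Pfree (e : E) : Prop :=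
  ∀ f ∈ Γ.A, f ≠ e → ¬ (Γ.s f = Γ.s e ∧ Γ.t f = Γ.t e) ∧ ¬ (Γ.s f = Γ.t e ∧ Γ.t f = Γ.s e)

/-- `f` and `f'` are parallel with the same gain -/
def Par (f f' : E) : Prop :=
  (Γ.s f' = Γ.s f ∧ Γ.t f' = Γ.t f ∧ Γ.g f' = Γ.g f) ∨ (Γ.s f' = Γ.t f ∧ Γ.t f' = Γ.s f ∧ Γ.g f' = -Γ.g f)

/-- no balanced digons -/
def ND : Prop := ∀ f ∈ Γ.A, ∀ f' ∈ Γ.A, f ≠ f' → ¬ Γ.Par f f'

/-- no vertex cut with at most two vertices -/
def C3 : Prop :=
  ∀ z z', ∀ x ∈ Γ.VS, ∀ y ∈ Γ.VS, x ≠ z → x ≠ z' → y ≠ z → y ≠ z' →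
    ∃ l, Γ.Wk x l y ∧ z ∉ Γ.vs x l ∧ z' ∉ Γ.vs x l

/-- a separation of order two -/
structure Sep (A₁ A₂ : Finset E) (x y : V) : Prop where
  un : Γ.A = A₁ ∪ A₂
  dj : Disjoint A₁ A₂
  ne : x ≠ y
  mt : ∀ z ∈ (Γ.on A₁).VS, z ∈ (Γ.on A₂).VS → z = x ∨ z = y
  in₁ : ∃ z ∈ (Γ.on A₁).VS, z ≠ x ∧ z ≠ y
  in₂ : ∃ z ∈ (Γ.on A₂).VS, z ≠ x ∧ z ≠ y

/-- the subgraph `B` together with the edges `f_s : x → y` of gain `s`, `s ∈ S` -/
def aug (B : Finset E) (x y : V) (S : Finset Q) : GG V (E ⊕ Q) Q :=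
  ⟨B.map ⟨Sum.inl, Sum.inl_injective⟩ ∪ S.map ⟨Sum.inr, Sum.inr_injective⟩,
    Sum.elim Γ.s fun _ => x, Sum.elim Γ.t fun _ => y, Sum.elim Γ.g id⟩

end GG

/-- The properties of the set of fundamental elements which we use. -/
structure Fund {Q : Type} [AddCommGroup Q] (Φ : Set Q) : Prop where
  symm : ∀ a ∈ Φ, -a ∈ Φ
  zero : (0 : Q) ∉ Φ
  tri : ∀ g ∈ Φ, ∀ h ∈ Φ, h - g ∈ Φ → h ∉ AddSubgroup.zmultiples g
  k4 : ∀ a ∈ Φ, ∀ b ∈ Φ, a - b ∈ Φ → ∀ c, (c = 0 ∨ c ∈ Φ) → (c - a = 0 ∨ c - a ∈ Φ) → (c - b = 0 ∨ c - b ∈ Φ) →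
    c = 0 ∨ c = a ∨ c = b

/-! ### the lattice `A₂` and cochains with values in a field -/

/-- the root lattice -/
abbrev Lt := ℤ × ℤ

/-- the roots -/
def hx : Finset Lt := {(1, 0), (0, 1), (-1, -1), (-1, 0), (0, -1), (1, 1)}

section Coch

variable {V E : Type} {k : Type} [Field k]

/-- the character with values in the cube roots of unity -/
def ch (ω : k) (q : Lt) : k := ω ^ (q.1 + q.2)

/-- value of a cochain on a dart -/
def dv (ω : k) (Γ : GG V E Lt) (v : E → k) (d : Da E) : k :=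
  if d.2 then v d.1 else -(ch ω (-Γ.g d.1) * v d.1)

/-- value of a cochain on a list of darts -/
def tv (ω : k) (Γ : GG V E Lt) (v : E → k) : List (Da E) → k
  | [] => 0
  | d :: l => dv ω Γ v d + ch ω (Γ.dg d) * tv ω Γ v l

/-- cochains which vanish on the balanced cycles -/
def Zc (ω : k) (Γ : GG V E Lt) (v : E → k) : Prop :=
  ∀ x y P P', Γ.Cy x y P P' → Γ.gn P = Γ.gn P' → tv ω Γ v P = tv ω Γ v P'

/-- coboundaries -/
def Cob (ω : k) (Γ : GG V E Lt) (v : E → k) : Prop :=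
  ∃ c : V → k, ∀ f ∈ Γ.A, v f = c (Γ.s f) - ch ω (Γ.g f) * c (Γ.t f)

/-- the conclusion of Theorem E -/
def HasH (ω : k) (Γ : GG V E Lt) : Prop := ∃ v, Zc ω Γ v ∧ ¬ Cob ω Γ v

/-- the induction hypothesis in the proof of Theorem E -/
def IH (ω : k) (Γ : GG V E Lt) : Prop :=
  ∀ (E' : Type) (Γ' : GG V E' Lt), (Γ'.nV < Γ.nV ∨ Γ'.nV = Γ.nV ∧ Γ'.A.card < Γ.A.card) →
    Γ'.C2 → Γ'.Phi (hx : Set Lt) → ¬ Γ'.Cyc → HasH ω Γ'

/-- bad cycles of the cochain `v` -/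
structure Bad (ω : k) (Γ : GG V E Lt) (v : E → k) (u w : V) (R R' : List (Da E)) : Prop where
  cy : Γ.Cy u w R R'
  gn : Γ.gn R = Γ.gn R'
  tv : tv ω Γ v R ≠ tv ω Γ v R'

/-- the functional which detects coboundaries on a contrabalanced theta -/
def Dth (ω : k) (Γ : GG V E Lt) (v : E → k) (X Y Z : List (Da E)) : k :=
  (ch ω (Γ.gn Z) - ch ω (Γ.gn Y)) * tv ω Γ v X + (ch ω (Γ.gn X) - ch ω (Γ.gn Z)) * tv ω Γ v Y +
    (ch ω (Γ.gn Y) - ch ω (Γ.gn X)) * tv ω Γ v Z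

end Coch

end Pool.Agent.FRM
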