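import Pool.Agent.FRM.F4
import Pool.Agent.FRM.Defs

/-!
# FRM/Defs2: quaternions, Hurwitz units, good connections, the 2-uniform partial field, determinants
-/

set_option autoImplicit false

noncomputable section

open scoped Classical

namespace Pool.Agent.FRM

open GG

/-- rational quaternions -/
abbrev Hq := Quaternion ℚ

/-- the 24 Hurwitz units -/
def HU (q : Hq) : Prop :=
  Quaternion.normSq q = 1 ∧ ((∃ a b c d : ℤ, q = ⟨a, b, c, d⟩) ∨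
    ∃ a b c d : ℤ, q = ⟨a + 1 / 2, b + 1 / 2, c + 1 / 2, d + 1 / 2⟩)

/-- A connection with values in the Hurwitz units: trivial on the balanced cycles, and of real part `1/2`
(so `1 - hol` has norm `1`) on the unbalanced ones. -/
structure Good {V E Q : Type} [AddCommGroup Q] (Γ : GG V E Q) (τ : E → Hqˣ) : Prop where
  hu : ∀ e ∈ Γ.A, HU (τ e : Hq)
  bal : ∀ x y P P', Γ.Cy x y P P' → Γ.gn P = Γ.gn P' → hl τ P = hl τ P'
  unb : ∀ x y P P', Γ.Cy x y P P' → Γ.gn P ≠ Γ.gn P' → ((hl τ P * (hl τ P')⁻¹ : Hqˣ) : Hq).re = 1 / 2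

/-! ### the 2-uniform partial field -/

/-- exponents of `α, β, 1 - α, 1 - β, α - β, -1` -/
abbrev XG := ℤ × ℤ × ℤ × ℤ × ℤ × ZMod 2

/-- the fundamental elements (all cross ratios of `0, 1, ∞, α, β`) -/
def FU : Finset XG :=
  {(-1, 0, 0, -1, 1, 0), (-1, 0, 0, 0, 0, 0), (-1, 0, 0, 0, 1, 0), (-1, 0, 1, 0, 0, 1), (-1, 1, 0, 0, 0, 0),
   (-1, 1, 1, -1, 0, 0), (0, -1, -1, 0, 1, 1), (0, -1, 0, 0, 0, 0), (0, -1, 0, 0, 1, 1), (0, -1, 0, 1, 0, 1),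
   (0, 0, -1, 0, 0, 0), (0, 0, -1, 0, 1, 1), (0, 0, -1, 1, 0, 0), (0, 0, 0, -1, 0, 0), (0, 0, 0, -1, 1, 0),
   (0, 0, 0, 1, -1, 0), (0, 0, 0, 1, 0, 0), (0, 0, 1, -1, 0, 0), (0, 0, 1, 0, -1, 1), (0, 0, 1, 0, 0, 0),
   (0, 1, 0, -1, 0, 1), (0, 1, 0, 0, -1, 1), (0, 1, 0, 0, 0, 0), (0, 1, 1, 0, -1, 1), (1, -1, -1, 1, 0, 0),
   (1, -1, 0, 0, 0, 0), (1, 0, -1, 0, 0, 1), (1, 0, 0, 0, -1, 0), (1, 0, 0, 0, 0, 0), (1, 0, 0, 1, -1, 0)}

/-- the field `ℚ(α, β)` -/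
abbrev KU := FractionRing (MvPolynomial (Fin 2) ℚ)

def al : KU := algebraMap (MvPolynomial (Fin 2) ℚ) KU (MvPolynomial.X 0)

def be : KU := algebraMap (MvPolynomial (Fin 2) ℚ) KU (MvPolynomial.X 1)

/-- the element of the group with the given exponents -/
def ev (u : XG) : KU :=
  al ^ u.1 * be ^ u.2.1 * (1 - al) ^ u.2.2.1 * (1 - be) ^ u.2.2.2.1 * (al - be) ^ u.2.2.2.2.1 *
    (-1) ^ (u.2.2.2.2.2).val

/-- `x` is an element of the group of the 2-uniform partial field -/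
def InG (x : KU) : Prop := ∃ u : XG, x = ev u

/-- `U₂`-matrices: all subdeterminants are `0` or in the group -/
def IsU2 {r n : ℕ} (A : Matrix (Fin r) (Fin n) KU) : Prop :=
  ∀ (m : ℕ) (f : Fin m → Fin r) (g : Fin m → Fin n), (A.submatrix f g).det = 0 ∨ InG (A.submatrix f g).det

/-- at most two nonzero entries in every column -/
def Frame {r n : ℕ} (A : Matrix (Fin r) (Fin n) KU) : Prop :=
  ∀ j, (Finset.univ.filter fun i => A i j ≠ 0).card ≤ 2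

/-! ### complex matrices of quaternionic matrices -/

/-- the complex `2 × 2` matrix of a quaternion -/
def cq (q : Hq) : Matrix (Fin 2) (Fin 2) ℂ :=
  !![(⟨q.re, q.imI⟩ : ℂ), (⟨q.imJ, q.imK⟩ : ℂ); (⟨-q.imJ, q.imK⟩ : ℂ), (⟨q.re, -q.imI⟩ : ℂ)]

/-- the complex matrix of a quaternionic matrix -/
def chi {R C : Type} (M : Matrix R C Hq) : Matrix (R × Fin 2) (C × Fin 2) ℂ :=
  fun i j => cq (M i.1 j.1) i.2 j.2

/-- The complex determinant of a square quaternionic matrix (`|Dieudonné determinant| ^ 2`). -/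
def dC {R : Type} [Fintype R] [DecidableEq R] (M : Matrix R R Hq) : ℂ := (chi M).det

/-- Frame data: a gain graph with the columns (edges) of a matrix `Mk` over `ℚ(α, β)` which have two nonzero entries, and a
quaternionic matrix `Mh` with the same support. -/
structure FrD {V E : Type} (Γ : GG V E XG) (Mk : Matrix V E KU) (Mh : Matrix V E Hq) (τ : E → Hqˣ) : Prop where
  sup : ∀ i j, Mk i j = 0 ↔ Mh i j = 0
  nrm : ∀ i j, Mh i j ≠ 0 → Quaternion.normSq (Mh i j) = 1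
  lf : ∀ j ∈ Γ.A, Γ.s j ≠ Γ.t j
  ns : ∀ j ∈ Γ.A, Mk (Γ.s j) j ≠ 0
  nt : ∀ j ∈ Γ.A, Mk (Γ.t j) j ≠ 0
  out : ∀ j ∈ Γ.A, ∀ i, i ≠ Γ.s j → i ≠ Γ.t j → Mk i j = 0
  ek : ∀ j ∈ Γ.A, Mk (Γ.s j) j = -(ev (Γ.g j) * Mk (Γ.t j) j)
  eh : ∀ j ∈ Γ.A, Mh (Γ.s j) j = -((τ j : Hq) * Mh (Γ.t j) j)
  half : ∀ j, j ∉ Γ.A → ∀ i i', Mk i j ≠ 0 → Mk i' j ≠ 0 → i = i'
  good : Good Γ τ

end Pool.Agent.FRM
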