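import Pool.Agent.FRM.Defs2

/-!
# FRM/Maf: functions which are affine in each variable

PROOF PLAN.  `multiaffine`: induction on the number of variables used: prove for all `U : Finset (Fin n)` and all `w ≥ 0` with `w j = 0` off `U`: `s w = ∑ S ∈ U.powerset, coef s S * ∏ e ∈ S, w e` where `coef s S = ∑ T ∈ S.powerset, (-1) ^ (S.card - T.card) * s (ind T)`; or substitute one variable at a time:
`s (update w j t) = (1 - t) * s (update w j 0) + t * s (update w j 1)` (affine), so `s w = ∑ T, (∏ j ∈ T, w j) (∏ j ∉ T, (1 - w j)) s (ind T)`, and expand (`Finset.prod_one_sub`...).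
`homog_coef`: compare the polynomials in `t`: for `w = ind S`: `∑ T ∈ S.powerset, c T * t ^ T.card = t ^ r * ∑ T ∈ S.powerset, c T` for all `t ≥ 0`; so the coefficient of `t ^ m` vanishes for `m ≠ r` and every `S` (a polynomial with infinitely many roots); with `m = S.card ≠ r`: `c S = 0` because `S` is the only subset of `S` with `m` elements.
-/

set_option autoImplicit false

noncomputable section

open scoped Classical

namespace Pool.Agent.FRM

open GG

/-- coefficients of a multiaffine function -/
def coef {n : ℕ} (s : (Fin n → ℝ) → ℝ) (S : Finset (Fin n)) : ℝ :=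
  ∑ T ∈ S.powerset, (-1) ^ (S.card - T.card) * s fun j => if j ∈ T then 1 else 0

private def Maf_ind {n : ℕ} (T : Finset (Fin n)) : Fin n → ℝ := fun j => if j ∈ T then 1 else 0

private theorem Maf_up1 {n : ℕ} (T : Finset (Fin n)) (j : Fin n) :
    Function.update (Maf_ind T) j 1 = Maf_ind (insert j T) := by
  funext i
  by_cases h : i = j
  · subst h
    simp [Maf_ind]
  · simp [Maf_ind, Function.update_of_ne h, h]

private theorem Maf_up0 {n : ℕ} (T : Finset (Fin n)) (j : Fin n) (hj : j ∉ T) :
    Function.update (Maf_ind T) j 0 = Maf_ind T := by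
  funext i
  by_cases h : i = j
  · subst h
    simp [Maf_ind, hj]
  · simp [Function.update_of_ne h]

private theorem Maf_coef {n : ℕ} (s : (Fin n → ℝ) → ℝ) {S : Finset (Fin n)} {j : Fin n} (hj : j ∉ S) :
    coef s (insert j S) = coef (fun w => s (Function.update w j 1) - s (Function.update w j 0)) S := by
  show ∑ T ∈ (insert j S).powerset, (-1 : ℝ) ^ ((insert j S).card - T.card) * s (Maf_ind T) =
    ∑ T ∈ S.powerset, (-1 : ℝ) ^ (S.card - T.card) *
      (s (Function.update (Maf_ind T) j 1) - s (Function.update (Maf_ind T) j 0))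
  rw [Finset.sum_powerset_insert hj, ← Finset.sum_add_distrib]
  refine Finset.sum_congr rfl fun T hT => ?_
  have hTS : T ⊆ S := Finset.mem_powerset.1 hT
  have hjT : j ∉ T := fun h => hj (hTS h)
  have hc : T.card ≤ S.card := Finset.card_le_card hTS
  rw [Maf_up1, Maf_up0 T j hjT, Finset.card_insert_of_notMem hj, Finset.card_insert_of_notMem hjT]
  have h1 : S.card + 1 - T.card = (S.card - T.card) + 1 := by omega
  have h2 : S.card + 1 - (T.card + 1) = S.card - T.card := by omega
  rw [h1, h2, pow_succ]
  ring

private theorem Maf_main {n : ℕ} (U : Finset (Fin n)) : ∀ s : (Fin n → ℝ) → ℝ,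
    (∀ w : Fin n → ℝ, (∀ j, 0 ≤ w j) → ∀ j, ∃ a b : ℝ, ∀ t : ℝ, 0 ≤ t → s (Function.update w j t) = a + b * t) →
    ∀ w : Fin n → ℝ, (∀ j, 0 ≤ w j) → (∀ j, j ∉ U → w j = 0) →
      s w = ∑ S ∈ U.powerset, coef s S * ∏ e ∈ S, w e := by
  induction U using Finset.induction_on with
  | empty =>
    intro s _ w _ hw0
    have h1 : w = Maf_ind ∅ := by
      funext j
      rw [hw0 j (Finset.notMem_empty j)]
      simp [Maf_ind]
    rw [Finset.powerset_empty, Finset.sum_singleton, Finset.prod_empty, mul_one]
    show s w = ∑ T ∈ (∅ : Finset (Fin n)).powerset, (-1 : ℝ) ^ ((∅ : Finset (Fin n)).card - T.card) * s (Maf_ind T)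
    rw [Finset.powerset_empty, Finset.sum_singleton, ← h1]
    simp
  | insert j U hj ih =>
    intro s hs w hw hw0
    obtain ⟨a, b, hab⟩ := hs w hw j
    have e0 := hab 0 le_rfl
    have e1 := hab 1 zero_le_one
    have ew := hab (w j) (hw j)
    rw [Function.update_eq_self] at ew
    have hw' : ∀ i, 0 ≤ Function.update w j 0 i := by
      intro i
      by_cases h : i = j
      · subst h
        simp
      · rw [Function.update_of_ne h]
        exact hw i
    have hw0' : ∀ i, i ∉ U → Function.update w j 0 i = 0 := by
      intro i hi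
      by_cases h : i = j
      · subst h
        simp
      · rw [Function.update_of_ne h]
        refine hw0 i ?_
        rw [Finset.mem_insert]
        tauto
    have i1 := ih s hs _ hw' hw0'
    have i2 := ih (fun w => s (Function.update w j 1) - s (Function.update w j 0)) ?_ _ hw' hw0'
    · simp only [Function.update_idem] at i2
      have hP : ∀ S ∈ U.powerset, ∏ e ∈ S, Function.update w j 0 e = ∏ e ∈ S, w e := by
        intro S hS
        refine Finset.prod_congr rfl fun e he => ?_
        have hej : e ≠ j := by
          rintro rfl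
          exact hj (Finset.mem_powerset.1 hS he)
        rw [Function.update_of_ne hej]
      rw [Finset.sum_powerset_insert hj]
      have t1 : ∑ S ∈ U.powerset, coef s S * ∏ e ∈ S, w e = s (Function.update w j 0) := by
        rw [i1]
        exact Finset.sum_congr rfl fun S hS => by rw [hP S hS]
      have t2 : ∑ S ∈ U.powerset, coef s (insert j S) * ∏ e ∈ insert j S, w e =
          w j * (s (Function.update w j 1) - s (Function.update w j 0)) := by
        rw [i2, Finset.mul_sum]
        refine Finset.sum_congr rfl fun S hS => ?_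
        have hjS : j ∉ S := fun h => hj (Finset.mem_powerset.1 hS h)
        rw [Maf_coef s hjS, Finset.prod_insert hjS, hP S hS]
        ring
      rw [t1, t2, e0, e1, ew]
      ring
    · intro v hv i
      by_cases h : i = j
      · subst h
        refine ⟨s (Function.update v i 1) - s (Function.update v i 0), 0, fun t _ => ?_⟩
        simp only [Function.update_idem]
        ring
      · have hv1 : ∀ k, 0 ≤ Function.update v j 1 k := by
          intro k
          by_cases hk : k = j
          · subst hk
            simp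
          · rw [Function.update_of_ne hk]
            exact hv k
        have hv0 : ∀ k, 0 ≤ Function.update v j 0 k := by
          intro k
          by_cases hk : k = j
          · subst hk
            simp
          · rw [Function.update_of_ne hk]
            exact hv k
        obtain ⟨a1, b1, h1⟩ := hs _ hv1 i
        obtain ⟨a0, b0, h0⟩ := hs _ hv0 i
        refine ⟨a1 - a0, b1 - b0, fun t ht => ?_⟩
        show s (Function.update (Function.update v i t) j 1) - s (Function.update (Function.update v i t) j 0) = _
        rw [Function.update_comm h, Function.update_comm h, h1 t ht, h0 t ht]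
        ring

theorem multiaffine {n : ℕ} (s : (Fin n → ℝ) → ℝ)
    (h : ∀ w : Fin n → ℝ, (∀ j, 0 ≤ w j) → ∀ j, ∃ a b : ℝ, ∀ t : ℝ, 0 ≤ t → s (Function.update w j t) = a + b * t)
    {w : Fin n → ℝ} (hw : ∀ j, 0 ≤ w j) : s w = ∑ S : Finset (Fin n), coef s S * ∏ e ∈ S, w e := by
  rw [Maf_main Finset.univ s h w hw fun j hj => absurd (Finset.mem_univ j) hj, Finset.powerset_univ]

theorem homog_coef {n r : ℕ} (c : Finset (Fin n) → ℝ)
    (h : ∀ w : Fin n → ℝ, (∀ j, 0 ≤ w j) → ∀ t : ℝ, 0 ≤ t →
      ∑ S : Finset (Fin n), c S * ∏ e ∈ S, (t * w e) = t ^ r * ∑ S : Finset (Fin n), c S * ∏ e ∈ S, w e)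
    {S : Finset (Fin n)} (hS : S.card ≠ r) : c S = 0 := by
  have hind : ∀ j, 0 ≤ Maf_ind S j := by
    intro j
    unfold Maf_ind
    split_ifs <;> norm_num
  have hz : ∀ T : Finset (Fin n), T ∉ S.powerset → ∀ t : ℝ, ∏ e ∈ T, (t * Maf_ind S e) = 0 := by
    intro T hT t
    have h1 : ∃ e ∈ T, e ∉ S := by
      by_contra hc
      push Not at hc
      exact hT (Finset.mem_powerset.2 hc)
    obtain ⟨e, he, heS⟩ := h1
    refine Finset.prod_eq_zero he ?_
    simp [Maf_ind, heS]
  have hy : ∀ T ∈ S.powerset, ∀ t : ℝ, ∏ e ∈ T, (t * Maf_ind S e) = t ^ T.card := by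
    intro T hT t
    have h1 : ∀ e ∈ T, t * Maf_ind S e = t := by
      intro e he
      have h2 : e ∈ S := Finset.mem_powerset.1 hT he
      simp [Maf_ind, h2]
    rw [Finset.prod_congr rfl h1, Finset.prod_const]
  have hL : ∀ t : ℝ, ∑ T : Finset (Fin n), c T * ∏ e ∈ T, (t * Maf_ind S e) = ∑ T ∈ S.powerset, c T * t ^ T.card := by
    intro t
    rw [← Finset.sum_subset (Finset.subset_univ S.powerset) fun T _ hT => by rw [hz T hT t, mul_zero]]
    exact Finset.sum_congr rfl fun T hT => by rw [hy T hT t]
  have hR : ∑ T : Finset (Fin n), c T * ∏ e ∈ T, Maf_ind S e = ∑ T ∈ S.powerset, c T := by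
    have h1 := hL 1
    simp only [one_mul, one_pow, mul_one] at h1
    exact h1
  let P : Polynomial ℝ := ∑ T ∈ S.powerset, Polynomial.C (c T) * Polynomial.X ^ T.card -
    Polynomial.C (∑ T ∈ S.powerset, c T) * Polynomial.X ^ r
  have hP : P = 0 := by
    refine Polynomial.eq_zero_of_infinite_isRoot P ?_
    refine Set.Infinite.mono ?_ (Set.Ici_infinite (0 : ℝ))
    intro t ht
    have h1 := h _ hind t ht
    rw [hL t, hR] at h1
    show Polynomial.eval t P = 0
    simp only [P, Polynomial.eval_sub, Polynomial.eval_finsetSum, Polynomial.eval_mul, Polynomial.eval_C,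
      Polynomial.eval_pow, Polynomial.eval_X]
    rw [h1]
    ring
  have hc := congrArg (fun p => Polynomial.coeff p S.card) hP
  simp only [P, Polynomial.coeff_sub, Polynomial.finsetSum_coeff, Polynomial.coeff_C_mul, Polynomial.coeff_X_pow,
    Polynomial.coeff_zero] at hc
  rw [if_neg hS, mul_zero, sub_zero, Finset.sum_eq_single S] at hc
  · simpa using hc
  · intro T hT hne
    have hTS := Finset.mem_powerset.1 hT
    have hlt : T.card < S.card := Finset.card_lt_card (Finset.ssubset_iff_subset_ne.2 ⟨hTS, hne⟩)
    rw [if_neg (by omega), mul_zero]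
  · intro hn
    exact absurd (Finset.mem_powerset_self S) hn

end Pool.Agent.FRM
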