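import Pool.Agent.FRM.Rk1
import Pool.Agent.FRM.Maf

/-!
# FRM/Dfm: the determinant formula

PROOF PLAN.  For `ε ≥ 0` let `s_ε w = sqrt (re (det (LX M w ε)))` (`≥ 0` for `w ≥ 0`).  For `ε > 0` it is affine in each variable on `w ≥ 0` (`LX_pos`, `LX_update`: `sqrt (D (1 + t x)^2) = sqrt D + sqrt D * t * x`), so `multiaffine`.  Let `ε → 0+` (all terms are continuous in `ε`: `det` is a polynomial in `ε`; `Real.continuous_sqrt`):
`s_0 w = ∑ S, coef s_0 S * ∏ e ∈ S, w e` for `w ≥ 0`.  Homogeneity: `LX M (t w) 0 = t • LX M w 0`, `det` gets `t ^ (2 r)`, `s_0 (t w) = t ^ r s_0 w`: `homog_coef`: `coef s_0 S = 0` for `S.card ≠ r`.  For `S.card = r`: the terms with `T ⊊ S` vanish (`LX_few`), so `coef s_0 S = s_0 (ind S) = dC (..)` (`LX_basis`, `dC_nonneg`).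
Finally `det (LX M w 0) = (s_0 w) ^ 2` (`LX_nonneg`).
-/

set_option autoImplicit false

noncomputable section

open scoped Classical Matrix

namespace Pool.Agent.FRM

open GG

/-- the square root of the determinant -/
private def Dfm_s {r n : ℕ} (M : Matrix (Fin r) (Fin n) Hq) (ε : ℝ) (w : Fin n → ℝ) : ℝ :=
  Real.sqrt (LX M w ε).det.re

private theorem Dfm_cont {r n : ℕ} (M : Matrix (Fin r) (Fin n) Hq) (w : Fin n → ℝ) :
    Continuous fun ε : ℝ => Dfm_s M ε w := by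
  unfold Dfm_s
  refine Real.continuous_sqrt.comp (Complex.continuous_re.comp (Continuous.matrix_det ?_))
  unfold LX
  refine Continuous.add ?_ continuous_const
  exact (Complex.continuous_ofReal).smul continuous_const

private theorem Dfm_affine {r n : ℕ} (M : Matrix (Fin r) (Fin n) Hq) {ε : ℝ} (hε : 0 < ε) (w : Fin n → ℝ)
    (hw : ∀ j, 0 ≤ w j) (j : Fin n) :
    ∃ a b : ℝ, ∀ t : ℝ, 0 ≤ t → Dfm_s M ε (Function.update w j t) = a + b * t := by
  obtain ⟨τ, hτ, h⟩ := LX_update M hw hε j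
  have hw0 : ∀ i, 0 ≤ Function.update w j 0 i := by
    intro i
    by_cases hi : i = j
    · rw [hi, Function.update_self]
    · rw [Function.update_of_ne hi]
      exact hw i
  obtain ⟨A, hA, hdet⟩ := LX_pos M hw0 hε
  refine ⟨Real.sqrt A, Real.sqrt A * τ, ?_⟩
  intro t ht
  have h1 : (LX M (Function.update w j t) ε).det.re = A * (1 + τ * t) ^ 2 := by
    rw [h t ht, hdet]
    have h2 : (A : ℂ) * (1 + (τ : ℂ) * t) ^ 2 = ((A * (1 + τ * t) ^ 2 : ℝ) : ℂ) := by
      push_cast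
      ring
    rw [h2, Complex.ofReal_re]
  unfold Dfm_s
  rw [h1, Real.sqrt_mul hA.le, Real.sqrt_sq (by positivity)]
  ring

private theorem Dfm_zero {r n : ℕ} (M : Matrix (Fin r) (Fin n) Hq) {w : Fin n → ℝ} (hw : ∀ j, 0 ≤ w j) :
    Dfm_s M 0 w = ∑ S : Finset (Fin n), coef (Dfm_s M 0) S * ∏ e ∈ S, w e := by
  have hG : Continuous fun ε : ℝ => ∑ S : Finset (Fin n), coef (Dfm_s M ε) S * ∏ e ∈ S, w e := by
    refine continuous_finsetSum _ fun S _ => ?_
    refine Continuous.mul ?_ continuous_const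
    unfold coef
    refine continuous_finsetSum _ fun T _ => ?_
    exact continuous_const.mul (Dfm_cont M _)
  have hEq : Set.EqOn (fun ε : ℝ => Dfm_s M ε w)
      (fun ε : ℝ => ∑ S : Finset (Fin n), coef (Dfm_s M ε) S * ∏ e ∈ S, w e) (Set.Ioi 0) := by
    intro ε hε
    exact multiaffine (Dfm_s M ε) (fun w' hw' j => Dfm_affine M hε w' hw' j) hw
  have h1 := hEq.closure (Dfm_cont M w) hG
  rw [closure_Ioi] at h1
  exact h1 (Set.mem_Ici.2 le_rfl)

private theorem Dfm_LX0 {r n : ℕ} (M : Matrix (Fin r) (Fin n) Hq) (w : Fin n → ℝ) :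
    LX M w 0 = chi M * Matrix.diagonal (fun x : Fin n × Fin 2 => (w x.1 : ℂ)) * (chi M)ᴴ := by
  unfold LX
  rw [Complex.ofReal_zero, zero_smul, zero_add]

private theorem Dfm_hom {r n : ℕ} (M : Matrix (Fin r) (Fin n) Hq) {w : Fin n → ℝ} {t : ℝ} (ht : 0 ≤ t) :
    Dfm_s M 0 (fun j => t * w j) = t ^ r * Dfm_s M 0 w := by
  have h1 : LX M (fun j => t * w j) 0 = (t : ℂ) • LX M w 0 := by
    rw [Dfm_LX0, Dfm_LX0]
    have h2 : Matrix.diagonal (fun x : Fin n × Fin 2 => ((t * w x.1 : ℝ) : ℂ)) =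
        (t : ℂ) • Matrix.diagonal (fun x : Fin n × Fin 2 => (w x.1 : ℂ)) := by
      rw [← Matrix.diagonal_smul]
      congr 1
      funext x
      show ((t * w x.1 : ℝ) : ℂ) = (t : ℂ) * (w x.1 : ℂ)
      push_cast
      ring
    rw [h2, Matrix.mul_smul, Matrix.smul_mul]
  have h3 : (LX M (fun j => t * w j) 0).det.re = (t ^ r) ^ 2 * (LX M w 0).det.re := by
    rw [h1, Matrix.det_smul]
    have h4 : Fintype.card (Fin r × Fin 2) = r * 2 := by
      rw [Fintype.card_prod, Fintype.card_fin, Fintype.card_fin]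
    rw [h4, pow_mul]
    have h5 : ((t : ℂ) ^ r) ^ 2 = (((t ^ r) ^ 2 : ℝ) : ℂ) := by
      push_cast
      ring
    rw [h5, Complex.re_ofReal_mul]
  unfold Dfm_s
  rw [h3, Real.sqrt_mul (by positivity), Real.sqrt_sq (by positivity)]

private theorem Dfm_card {r n : ℕ} (M : Matrix (Fin r) (Fin n) Hq) {S : Finset (Fin n)} (hS : S.card ≠ r) :
    coef (Dfm_s M 0) S = 0 := by
  refine homog_coef (r := r) (coef (Dfm_s M 0)) ?_ hS
  intro w hw t ht
  have h1 := Dfm_zero M (w := fun j => t * w j) fun j => mul_nonneg ht (hw j)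
  rw [← h1, ← Dfm_zero M hw]
  exact Dfm_hom M ht

private theorem Dfm_basis {r n : ℕ} (M : Matrix (Fin r) (Fin n) Hq) {S : Finset (Fin n)} (hS : S.card = r) :
    ((coef (Dfm_s M 0) S : ℝ) : ℂ) = dC (M.submatrix id (S.orderEmbOfFin hS)) := by
  have h1 : coef (Dfm_s M 0) S = Dfm_s M 0 fun j => if j ∈ S then 1 else 0 := by
    unfold coef
    rw [Finset.sum_eq_single S]
    · rw [Nat.sub_self, pow_zero, one_mul]
    · intro T hT hne
      have h2 : T.card < r := by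
        rw [← hS]
        exact Finset.card_lt_card (Finset.ssubset_iff_subset_ne.2 ⟨Finset.mem_powerset.1 hT, hne⟩)
      have h3 : Dfm_s M 0 (fun j => if j ∈ T then 1 else 0) = 0 := by
        unfold Dfm_s
        rw [LX_few M T h2]
        simp
      rw [h3, mul_zero]
    · intro h2
      exact absurd (Finset.mem_powerset_self S) h2
  obtain ⟨a, ha, h4⟩ := dC_nonneg (M.submatrix id (S.orderEmbOfFin hS))
  rw [h1, h4]
  congr 1
  unfold Dfm_s
  rw [LX_basis M S hS, h4]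
  have h5 : ((a : ℂ) ^ 2).re = a ^ 2 := by
    rw [← Complex.ofReal_pow, Complex.ofReal_re]
  rw [h5, Real.sqrt_sq ha]

theorem det_formula {r n : ℕ} (M : Matrix (Fin r) (Fin n) Hq) {w : Fin n → ℝ} (hw : ∀ j, 0 ≤ w j) :
    (chi M * Matrix.diagonal (fun x : Fin n × Fin 2 => (w x.1 : ℂ)) * (chi M)ᴴ).det =
      (∑ S : Finset (Fin n), if h : S.card = r then
        ((∏ e ∈ S, w e : ℝ) : ℂ) * dC (M.submatrix id (S.orderEmbOfFin h)) else 0) ^ 2 := by
  rw [← Dfm_LX0]
  obtain ⟨a, ha, h1⟩ := LX_nonneg M hw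
  have h2 : Dfm_s M 0 w = Real.sqrt a := by
    unfold Dfm_s
    rw [h1, Complex.ofReal_re]
  have h3 : (LX M w 0).det = ((Dfm_s M 0 w : ℝ) : ℂ) ^ 2 := by
    rw [h1, h2, ← Complex.ofReal_pow, Real.sq_sqrt ha]
  rw [h3, Dfm_zero M hw, Complex.ofReal_sum]
  congr 1
  refine Finset.sum_congr rfl fun S _ => ?_
  by_cases hS : S.card = r
  · rw [dif_pos hS, Complex.ofReal_mul, Dfm_basis M hS]
    ring
  · rw [dif_neg hS, Dfm_card M hS, zero_mul, Complex.ofReal_zero]

end Pool.Agent.FRM
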