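import Pool.Agent.FRM.Wk3

/-!
# FRM/Ear1: ears

Existence of ears of a subgraph without cut vertices, and induction over ears.
-/

set_option autoImplicit false
set_option linter.unusedSectionVars false

noncomputable section

open scoped Classical

namespace Pool.Agent.FRM

open GG

variable {V E Q : Type} [AddCommGroup Q] {Γ : GG V E Q}

private theorem Ear1_src {x y : V} {l : List (Da E)} (h : Γ.Pt x l y) :
    ∀ d ∈ l, Γ.src d ∈ Γ.vs x l ∧ Γ.src d ≠ y := by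
  induction l generalizing x with
  | nil =>
    intro d hd
    simp at hd
  | cons d0 l ih =>
    obtain ⟨⟨h1, h2, h3⟩, hn⟩ := h
    have hn' : (x :: Γ.vs (Γ.tgt d0) l).Nodup := hn
    rw [List.nodup_cons] at hn'
    intro d hd
    rcases List.mem_cons.1 hd with rfl | hd
    · refine ⟨?_, ?_⟩
      · rw [h2]
        exact List.mem_cons_self
      · rw [h2]
        rintro rfl
        exact hn'.1 (wk_last h3)
    · obtain ⟨h4, h5⟩ := ih ⟨h3, hn'.2⟩ d hd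
      exact ⟨List.mem_cons_of_mem x h4, h5⟩

private theorem Ear1_leave (W : Set V) {x y : V} {l : List (Da E)} (h : Γ.Wk x l y) (hx : x ∈ W)
    (hy : y ∉ W) : ∃ d ∈ l, d.1 ∈ Γ.A ∧ Γ.src d ∈ W ∧ Γ.tgt d ∉ W := by
  induction l generalizing x with
  | nil =>
    have h1 : x = y := h
    exact absurd (h1 ▸ hx) hy
  | cons d l ih =>
    obtain ⟨h1, h2, h3⟩ := h
    by_cases ht : Γ.tgt d ∈ W
    · obtain ⟨d', h4, h5⟩ := ih h3 ht
      exact ⟨d', List.mem_cons_of_mem d h4, h5⟩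
    · exact ⟨d, List.mem_cons_self, h1, h2 ▸ hx, ht⟩

private theorem Ear1_st (d : Da E) : (Γ.src d = Γ.s d.1 ∧ Γ.tgt d = Γ.t d.1) ∨
    (Γ.src d = Γ.t d.1 ∧ Γ.tgt d = Γ.s d.1) := by
  rcases d with ⟨e, b⟩
  cases b
  · exact Or.inr ⟨rfl, rfl⟩
  · exact Or.inl ⟨rfl, rfl⟩

private theorem Ear1_VS {B : Finset E} {d : Da E} (hd : d.1 ∈ B) :
    Γ.src d ∈ (Γ.on B).VS ∧ Γ.tgt d ∈ (Γ.on B).VS := by
  rcases Ear1_st (Γ := Γ) d with ⟨h1, h2⟩ | ⟨h1, h2⟩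
  · rw [h1, h2]
    exact ⟨⟨d.1, hd, Or.inl rfl⟩, ⟨d.1, hd, Or.inr rfl⟩⟩
  · rw [h1, h2]
    exact ⟨⟨d.1, hd, Or.inr rfl⟩, ⟨d.1, hd, Or.inl rfl⟩⟩

private theorem Ear1_dart (hΓ : Γ.C2) {B : Finset E} (hB : B ⊆ Γ.A) (h2 : (Γ.on B).C2)
    (hne : B ≠ Γ.A) : ∃ d : Da E, d.1 ∈ Γ.A ∧ d.1 ∉ B ∧ Γ.src d ∈ (Γ.on B).VS := by
  obtain ⟨e, heA, heB⟩ : ∃ e ∈ Γ.A, e ∉ B := by
    by_contra hcon
    apply hne
    apply Finset.Subset.antisymm hB
    intro e he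
    by_contra h
    exact hcon ⟨e, he, h⟩
  by_cases hs : Γ.s e ∈ (Γ.on B).VS
  · exact ⟨(e, true), heA, heB, hs⟩
  · obtain ⟨f, hf⟩ := h2.ne
    have hfB : f ∈ B := hf
    have hz : Γ.s f ∈ (Γ.on B).VS := ⟨f, hfB, Or.inl rfl⟩
    obtain ⟨l, hl⟩ := hΓ.con (Γ.s f) ⟨f, hB hfB, Or.inl rfl⟩ (Γ.s e) ⟨e, heA, Or.inl rfl⟩
    obtain ⟨d, _, h3, h4, h5⟩ := Ear1_leave (Γ.on B).VS hl hz hs
    exact ⟨d, h3, fun h => h5 (Ear1_VS h).2, h4⟩

theorem ear_exists (hΓ : Γ.C2) {B : Finset E} (hB : B ⊆ Γ.A) (h2 : (Γ.on B).C2) (hne : B ≠ Γ.A) :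
    ∃ a b l, Γ.Ear B a b l := by
  obtain ⟨d, hdA, hdB, hs⟩ := Ear1_dart hΓ hB h2 hne
  have hlf : Γ.s d.1 ≠ Γ.t d.1 := hΓ.lf d.1 hdA
  have hst : Γ.src d ≠ Γ.tgt d := by
    rcases Ear1_st (Γ := Γ) d with ⟨h3, h4⟩ | ⟨h3, h4⟩
    · rw [h3, h4]
      exact hlf
    · rw [h3, h4]
      exact hlf.symm
  by_cases ht : Γ.tgt d ∈ (Γ.on B).VS
  · refine ⟨Γ.src d, Γ.tgt d, [d], hs, ht, hst, pt_single hdA hlf, ?_, ?_⟩
    · intro z hz _
      have hz' : z ∈ [Γ.src d, Γ.tgt d] := hz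
      simpa using hz'
    · intro d' hd'
      rw [List.mem_singleton] at hd'
      rw [hd']
      exact hdB
  · -- a vertex of `B` different from `src d`
    obtain ⟨z, hz, hzu⟩ : ∃ z ∈ (Γ.on B).VS, z ≠ Γ.src d := by
      obtain ⟨f, hf⟩ := h2.ne
      have hfB : f ∈ B := hf
      have hfl : Γ.s f ≠ Γ.t f := hΓ.lf f (hB hfB)
      by_cases h3 : Γ.s f = Γ.src d
      · exact ⟨Γ.t f, ⟨f, hfB, Or.inr rfl⟩, fun h => hfl (h3.trans h.symm)⟩
      · exact ⟨Γ.s f, ⟨f, hfB, Or.inl rfl⟩, h3⟩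
    have hwV : Γ.tgt d ∈ Γ.VS := (Ear1_VS (Γ := Γ) (B := Γ.A) hdA).2
    have hzV : z ∈ Γ.VS := by
      have h3 := VS_mono (Γ := Γ) hB hz
      rwa [on_A] at h3
    obtain ⟨l0, hl0, hu0⟩ := hΓ.cut (Γ.src d) (Γ.tgt d) hwV z hzV hst.symm hzu
    obtain ⟨l1, hl1, hv1, _⟩ := pt_of_wk hl0
    obtain ⟨l₁, l₂, z', rfl, hp1, hp2, hz', hfirst, _⟩ := pt_first_hit hl1 (Γ.on B).VS hz
    have hu1 : Γ.src d ∉ Γ.vs (Γ.tgt d) (l₁ ++ l₂) := fun h => hu0 (hv1 _ h)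
    have hu2 : Γ.src d ∉ Γ.vs (Γ.tgt d) l₁ := by
      intro h
      exact hu1 ((mem_vs_append hp1.1).2 (Or.inl h))
    refine ⟨Γ.src d, z', d :: l₁, hs, hz', ?_, ⟨⟨hdA, rfl, hp1.1⟩, ?_⟩, ?_, ?_⟩
    · rintro h
      exact hu2 (h ▸ wk_last hp1.1)
    · show (Γ.src d :: Γ.vs (Γ.tgt d) l₁).Nodup
      exact List.nodup_cons.2 ⟨hu2, hp1.2⟩
    · intro v hv hvB
      have hv' : v ∈ Γ.src d :: Γ.vs (Γ.tgt d) l₁ := hv
      rcases List.mem_cons.1 hv' with h | h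
      · exact Or.inl h
      · exact Or.inr (hfirst v h hvB)
    · intro d' hd'
      rcases List.mem_cons.1 hd' with rfl | hd'
      · exact hdB
      · intro hB'
        obtain ⟨h3, h4⟩ := Ear1_src hp1 d' hd'
        exact h4 (hfirst _ h3 (Ear1_VS hB').1)

private theorem Ear1_ne {B : Finset E} {a b : V} {l : List (Da E)} (h : Γ.Ear B a b l) : l ≠ [] :=
  pt_ne h.pt h.ne

/-- a path inside the larger edge set, in both directions -/
private theorem Ear1_wkB {B' : Finset E} (hB' : B' ⊆ Γ.A) {x y : V} {l : List (Da E)} (h : Γ.Wk x l y)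
    (hl : ∀ d ∈ l, d.1 ∈ B') : (Γ.on B').Wk x l y := (wk_on hB').2 ⟨h, hl⟩

theorem ear_C2 {B : Finset E} (hB : B ⊆ Γ.A) (h2 : (Γ.on B).C2) {a b : V} {l : List (Da E)}
    (h : Γ.Ear B a b l) : (Γ.on (B ∪ eds l)).C2 := by
  have hl0 := Ear1_ne h
  have hsub : B ∪ eds l ⊆ Γ.A := Finset.union_subset hB (eds_sub h.pt.1)
  have hBB : B ⊆ B ∪ eds l := Finset.subset_union_left
  have hlB : ∀ d ∈ l, d.1 ∈ B ∪ eds l := fun d hd =>
    Finset.mem_union_right _ ((mem_eds _ _).2 ⟨d, hd, rfl⟩)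
  have hVS : ∀ x ∈ (Γ.on (B ∪ eds l)).VS, x ∈ (Γ.on B).VS ∨ x ∈ Γ.vs a l := by
    intro x hx
    rw [VS_union] at hx
    rcases hx with hx | hx
    · exact Or.inl hx
    · rw [VS_eds h.pt.1 hl0] at hx
      exact Or.inr hx
  have hVS' : ∀ x ∈ (Γ.on B).VS, x ∈ (Γ.on (B ∪ eds l)).VS := fun x hx => VS_mono hBB hx
  -- every vertex is joined to a vertex of `B`, avoiding `z`
  have key : ∀ z x, x ∈ (Γ.on (B ∪ eds l)).VS → x ≠ z → ∃ w ∈ (Γ.on B).VS, w ≠ z ∧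
      ∃ q, (Γ.on (B ∪ eds l)).Wk x q w ∧ z ∉ Γ.vs x q := by
    intro z x hx hxz
    rcases hVS x hx with hx | hx
    · refine ⟨x, hx, hxz, [], rfl, ?_⟩
      intro h3
      have h4 : z ∈ [x] := h3
      exact hxz (List.mem_singleton.1 h4).symm
    · obtain ⟨l₁, l₂, hl, hp1, hp2, hc⟩ := pt_split_at h.pt hx
      by_cases hz : z ∈ Γ.vs a l₁
      · have hz2 : z ∉ Γ.vs x l₂ := fun h3 => hxz (hc z hz h3).symm
        refine ⟨b, h.hb, ?_, l₂, Ear1_wkB hsub hp2.1 fun d hd => hlB d ?_, hz2⟩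
        · rintro rfl
          exact hz2 (wk_last hp2.1)
        · rw [hl]
          exact List.mem_append_right _ hd
      · refine ⟨a, h.ha, ?_, rv l₁, Ear1_wkB hsub (wk_rv hp1.1) fun d hd => ?_, ?_⟩
        · rintro rfl
          exact hz (wk_first _ _)
        · have h3 := (mem_rv d l₁).1 hd
          have h4 := hlB (fl d) (by rw [hl]; exact List.mem_append_left _ h3)
          exact h4
        · rw [mem_vs_rv hp1.1]
          exact hz
  have hjoin : ∀ z x y, x ∈ (Γ.on (B ∪ eds l)).VS → y ∈ (Γ.on (B ∪ eds l)).VS → x ≠ z → y ≠ z →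
      ∃ q, (Γ.on (B ∪ eds l)).Wk x q y ∧ z ∉ Γ.vs x q := by
    intro z x y hx hy hxz hyz
    obtain ⟨w, hw, hwz, q, hq, hzq⟩ := key z x hx hxz
    obtain ⟨w', hw', hwz', q', hq', hzq'⟩ := key z y hy hyz
    obtain ⟨r, hr, hzr⟩ := h2.cut z w hw w' hw' hwz hwz'
    have hr' : (Γ.on (B ∪ eds l)).Wk w r w' := wk_mono hBB hr
    have hq'' : (Γ.on (B ∪ eds l)).Wk w' (rv q') y := wk_rv hq'
    refine ⟨q ++ (r ++ rv q'), wk_append.2 ⟨w, hq, wk_append.2 ⟨w', hr', hq''⟩⟩, ?_⟩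
    intro hz
    rcases (mem_vs_append (Γ := Γ.on (B ∪ eds l)) hq).1 hz with h3 | h3
    · exact hzq h3
    · rcases (mem_vs_append (Γ := Γ.on (B ∪ eds l)) hr').1 h3 with h4 | h4
      · exact hzr h4
      · exact hzq' ((mem_vs_rv (Γ := Γ.on (B ∪ eds l)) hq').1 h4)
  refine ⟨?_, ?_, ?_, ?_⟩
  · obtain ⟨f, hf⟩ := h2.ne
    exact ⟨f, hBB hf⟩
  · intro e he
    rcases Finset.mem_union.1 he with he | he
    · exact h2.lf e he
    · obtain ⟨d, hd, rfl⟩ := (mem_eds _ _).1 he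
      exact pt_lf h.pt d hd
  · intro x hx y hy
    -- choose `z` among the vertices of `B` outside `{x, y}` is not needed: go through `a`
    have hto : ∀ x ∈ (Γ.on (B ∪ eds l)).VS, ∃ q, (Γ.on (B ∪ eds l)).Wk x q a := by
      intro x hx
      rcases hVS x hx with hx | hx
      · obtain ⟨q, hq⟩ := h2.con x hx a h.ha
        exact ⟨q, wk_mono hBB hq⟩
      · obtain ⟨l₁, l₂, hl, hp1, _, _⟩ := pt_split_at h.pt hx
        refine ⟨rv l₁, Ear1_wkB hsub (wk_rv hp1.1) fun d hd => ?_⟩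
        have h3 := (mem_rv d l₁).1 hd
        exact hlB (fl d) (by rw [hl]; exact List.mem_append_left _ h3)
    obtain ⟨q, hq⟩ := hto x hx
    obtain ⟨q', hq'⟩ := hto y hy
    exact ⟨q ++ rv q', wk_append.2 ⟨a, hq, wk_rv hq'⟩⟩
  · intro z x hx y hy hxz hyz
    exact hjoin z x y hx hy hxz hyz

theorem ear_induction (hΓ : Γ.C2) {B : Finset E} (hB : B ⊆ Γ.A) (h2 : (Γ.on B).C2) (F : Finset E → Prop) (h0 : F B)
    (hs : ∀ (B' : Finset E) (a b : V) (l : List (Da E)), B ⊆ B' → B' ⊆ Γ.A → (Γ.on B').C2 → F B' → Γ.Ear B' a b l →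
      F (B' ∪ eds l)) : F Γ.A := by
  have key : ∀ n : ℕ, ∀ B' : Finset E, (Γ.A \ B').card = n → B ⊆ B' → B' ⊆ Γ.A → (Γ.on B').C2 → F B' →
      F Γ.A := by
    intro n
    induction n using Nat.strong_induction_on with
    | _ n ih =>
      intro B' hn hBB hBA hC hF
      by_cases he : B' = Γ.A
      · rw [← he]
        exact hF
      · obtain ⟨a, b, l, hear⟩ := ear_exists hΓ hBA hC he
        obtain ⟨d, hd⟩ := List.exists_mem_of_ne_nil l (Ear1_ne hear)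
        have hsub : B' ∪ eds l ⊆ Γ.A := Finset.union_subset hBA (eds_sub hear.pt.1)
        refine ih (Γ.A \ (B' ∪ eds l)).card ?_ (B' ∪ eds l) rfl (hBB.trans Finset.subset_union_left) hsub
          (ear_C2 hBA hC hear) (hs B' a b l hBB hBA hC hF hear)
        rw [← hn]
        apply Finset.card_lt_card
        rw [Finset.ssubset_iff_of_subset (Finset.sdiff_subset_sdiff Finset.Subset.rfl Finset.subset_union_left)]
        refine ⟨d.1, ?_, ?_⟩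
        · exact Finset.mem_sdiff.2 ⟨(wk_mem hear.pt.1 d hd).1, hear.out d hd⟩
        · intro h
          exact (Finset.mem_sdiff.1 h).2 (Finset.mem_union_right _ ((mem_eds _ _).2 ⟨d, hd, rfl⟩))
  exact key _ B rfl Finset.Subset.rfl hB h2 h0

/-- A single edge is `C2`. -/
theorem single_C2 {e : E} (he : e ∈ Γ.A) (hl : Γ.s e ≠ Γ.t e) : (Γ.on {e}).C2 := by
  have _ := he
  have hVS : ∀ x ∈ (Γ.on {e}).VS, x = Γ.s e ∨ x = Γ.t e := by
    rintro x ⟨f, hf, h⟩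
    have hf' : f = e := Finset.mem_singleton.1 hf
    subst hf'
    rcases h with h | h
    · exact Or.inl h.symm
    · exact Or.inr h.symm
  have hmem : e ∈ (Γ.on {e}).A := Finset.mem_singleton_self e
  have hcut : ∀ z, ∀ x ∈ (Γ.on {e}).VS, ∀ y ∈ (Γ.on {e}).VS, x ≠ z → y ≠ z →
      ∃ l, (Γ.on {e}).Wk x l y ∧ z ∉ (Γ.on {e}).vs x l := by
    intro z x hx y hy hxz hyz
    by_cases hxy : x = y
    · refine ⟨[], hxy, ?_⟩
      intro h
      have h4 : z ∈ [x] := h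
      exact hxz (List.mem_singleton.1 h4).symm
    · have hz : z ∉ [x, y] := by
        intro h
        rcases List.mem_cons.1 h with h | h
        · exact hxz h.symm
        · exact hyz (List.mem_singleton.1 h).symm
      rcases hVS x hx with rfl | rfl
      · rcases hVS y hy with rfl | rfl
        · exact absurd rfl hxy
        · exact ⟨[(e, true)], ⟨hmem, rfl, rfl⟩, hz⟩
      · rcases hVS y hy with rfl | rfl
        · exact ⟨[(e, false)], ⟨hmem, rfl, rfl⟩, hz⟩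
        · exact absurd rfl hxy
  refine ⟨⟨e, hmem⟩, ?_, ?_, hcut⟩
  · intro f hf
    have hf' : f = e := Finset.mem_singleton.1 hf
    subst hf'
    exact hl
  · intro x hx y hy
    by_cases hxy : x = y
    · exact ⟨[], hxy⟩
    · rcases hVS x hx with rfl | rfl
      · rcases hVS y hy with rfl | rfl
        · exact absurd rfl hxy
        · exact ⟨[(e, true)], hmem, rfl, rfl⟩
      · rcases hVS y hy with rfl | rfl
        · exact ⟨[(e, false)], hmem, rfl, rfl⟩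
        · exact absurd rfl hxy

/-- An ear and a path of `B` with the same ends form a cycle. -/
theorem ear_cy {B : Finset E} (hB : B ⊆ Γ.A) {a b : V} {l R : List (Da E)} (h : Γ.Ear B a b l)
    (hR : (Γ.on B).Pt a R b) : Γ.Cy a b l R := by
  refine ⟨h.ne, h.pt, ((pt_on hB).1 hR).1, ?_⟩
  intro z hz hz'
  exact h.int z hz (wk_VS (Γ := Γ.on B) hR.1 h.ha hz')

/-- simple paths exist -/
theorem C2_pt (hΓ : Γ.C2) {x y : V} (hx : x ∈ Γ.VS) (hy : y ∈ Γ.VS) : ∃ l, Γ.Pt x l y := by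
  obtain ⟨l, hl⟩ := hΓ.con x hx y hy
  obtain ⟨l', hl', _⟩ := pt_of_wk hl
  exact ⟨l', hl'⟩

end Pool.Agent.FRM
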