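import Mathlib

/-!
# FRM/F4: a concrete field with four elements
-/

set_option autoImplicit false

namespace Pool.Agent.FRM

/-- the field with four elements `0, 1, ω, ω + 1` -/
inductive F4 : Type
  | o
  | i
  | w
  | u
  deriving DecidableEq

namespace F4

instance : Fintype F4 := ⟨{o, i, w, u}, fun x => by cases x <;> decide⟩

def add : F4 → F4 → F4
  | o, x => x
  | x, o => x
  | i, i => o
  | i, w => u
  | i, u => w
  | w, i => u
  | w, w => o
  | w, u => i
  | u, i => w
  | u, w => i
  | u, u => o

def mul : F4 → F4 → F4
  | o, _ => o
  | _, o => o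
  | i, x => x
  | x, i => x
  | w, w => u
  | w, u => i
  | u, w => i
  | u, u => w

def inv : F4 → F4
  | o => o
  | i => i
  | w => u
  | u => w

instance : Add F4 := ⟨add⟩
instance : Mul F4 := ⟨mul⟩
instance : Inv F4 := ⟨inv⟩
instance : Zero F4 := ⟨o⟩
instance : One F4 := ⟨i⟩
instance : Neg F4 := ⟨fun x => x⟩

instance : Field F4 where
  add_assoc := by decide
  zero_add := by decide
  add_zero := by decide
  add_comm := by decide
  nsmul := nsmulRec
  zsmul := zsmulRec
  neg_add_cancel := by decide
  left_distrib := by decide
  right_distrib := by decide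
  zero_mul := by decide
  mul_zero := by decide
  mul_assoc := by decide
  one_mul := by decide
  mul_one := by decide
  mul_comm := by decide
  exists_pair_ne := ⟨o, i, by decide⟩
  mul_inv_cancel := by decide
  inv_zero := by decide
  nnqsmul := _
  nnqsmul_def := fun _ _ => rfl
  qsmul := _
  qsmul_def := fun _ _ => rfl

/-- the primitive cube root of unity -/
def om : F4 := w

theorem om_eq : om ^ 2 + om + 1 = 0 := by decide

theorem three_ne : (3 : F4) ≠ 0 := by decide

end F4

end Pool.Agent.FRM
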