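import Pool.Agent.FRM.Rp

/-!
# FRM/Mdg: a graph of minimum degree two has a cycle

PROOF PLAN.  Take a simple path `l` from `x` to `y` of maximal length (`VS` is finite: lengths are bounded by `nV`), `y ∈ VS`.  Let `d` be the last dart of `l` (if `l ≠ []`), and `f` an edge at `y` different from `d.1` (two edges at `y`), `z` its other end (`z ≠ y`).  If `z` is not on `l`, the path can be extended: contradiction.  So `l = l₁ ++ l₂` at `z`,
`l₂ : z → y`, `l₂ ≠ [dart of f]`: the cycle is `Cy z y l₂ [dart of f from z to y]`, and `f ∉ l₂` (otherwise `l₂ = [that dart]` by `pt_edge_eq`, so `f` is the last edge of `l`).  If `l = []` extend it by any edge at `y`.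
-/

set_option autoImplicit false

noncomputable section

open scoped Classical

namespace Pool.Agent.FRM

open GG

variable {V E Q : Type} [AddCommGroup Q] {Γ : GG V E Q}


omit [AddCommGroup Q] in
/-- a dart of a given edge which ends at a given end of the edge -/
private theorem Mdg_dart {e : E} (he : e ∈ Γ.A) (hl : Γ.s e ≠ Γ.t e) {x : V} (hx : Γ.s e = x ∨ Γ.t e = x) :
    ∃ c : Da E, c.1 = e ∧ Γ.tgt c = x ∧ Γ.src c ≠ x ∧ Γ.src c ∈ Γ.VS := by
  rcases hx with hx | hx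
  · refine ⟨(e, false), rfl, ?_, ?_, ?_⟩
    · show Γ.s e = x
      exact hx
    · show Γ.t e ≠ x
      rw [← hx]
      exact hl.symm
    · show Γ.t e ∈ Γ.VS
      exact ⟨e, he, Or.inr rfl⟩
  · refine ⟨(e, true), rfl, ?_, ?_, ?_⟩
    · show Γ.t e = x
      exact hx
    · show Γ.s e ≠ x
      rw [← hx]
      exact hl
    · show Γ.s e ∈ Γ.VS
      exact ⟨e, he, Or.inl rfl⟩

/-- extend a path at its first vertex, or find a cycle -/
private theorem Mdg_step (hl : ∀ e ∈ Γ.A, Γ.s e ≠ Γ.t e)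
    (hd : ∀ z ∈ Γ.VS, ∃ e ∈ Γ.A, ∃ e' ∈ Γ.A, e ≠ e' ∧ (Γ.s e = z ∨ Γ.t e = z) ∧ (Γ.s e' = z ∨ Γ.t e' = z))
    (hno : ¬ ∃ x y P P', Γ.Cy x y P P' ∧ P ≠ P') {x y : V} {l : List (Da E)} (hx : x ∈ Γ.VS) (h : Γ.Pt x l y) :
    ∃ z c, z ∈ Γ.VS ∧ Γ.Pt z (c :: l) y := by
  obtain ⟨e, he, e', he', hee, hex, hex'⟩ := hd x hx
  -- an edge at `x` which is not the first edge of `l`
  have hf : ∃ f ∈ Γ.A, (Γ.s f = x ∨ Γ.t f = x) ∧ ∀ d l', l = d :: l' → d.1 ≠ f := by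
    by_cases hc : ∀ d l', l = d :: l' → d.1 ≠ e
    · exact ⟨e, he, hex, hc⟩
    · push Not at hc
      obtain ⟨d, l', hdl, hde⟩ := hc
      refine ⟨e', he', hex', fun d₂ l₂ h₂ => ?_⟩
      rw [hdl, List.cons.injEq] at h₂
      rw [← h₂.1, hde]
      exact hee
  obtain ⟨f, hfA, hfx, hff⟩ := hf
  obtain ⟨c, hcf, hct, hcs, hcV⟩ := Mdg_dart hfA (hl f hfA) hfx
  have hcA : c.1 ∈ Γ.A := by
    rw [hcf]
    exact hfA
  by_cases hz : Γ.src c ∈ Γ.vs x l
  · exfalso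
    obtain ⟨l₁, l₂, hll, hp₁, hp₂, -⟩ := pt_split_at h hz
    have hls : Γ.s (fl c).1 ≠ Γ.t (fl c).1 := hl c.1 hcA
    have hq : Γ.Pt x [fl c] (Γ.src c) := by
      have h1 := pt_single (Γ := Γ) (d := fl c) hcA hls
      rw [src_fl, tgt_fl, hct] at h1
      exact h1
    refine hno ⟨x, Γ.src c, l₁, [fl c], ⟨Ne.symm hcs, hp₁, hq, ?_⟩, ?_⟩
    · intro w _ hw
      have hw' : w ∈ [x, Γ.tgt (fl c)] := hw
      rw [tgt_fl] at hw'
      simpa using hw'
    · intro heq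
      rw [heq] at hll
      exact hff (fl c) l₂ hll (by
        show c.1 = f
        exact hcf)
  · refine ⟨Γ.src c, c, hcV, ⟨hcA, rfl, ?_⟩, ?_⟩
    · rw [hct]
      exact h.1
    · show (Γ.src c :: Γ.vs (Γ.tgt c) l).Nodup
      rw [hct, List.nodup_cons]
      exact ⟨hz, h.2⟩

theorem exists_cycle (hl : ∀ e ∈ Γ.A, Γ.s e ≠ Γ.t e) (hne : Γ.A.Nonempty)
    (hd : ∀ z ∈ Γ.VS, ∃ e ∈ Γ.A, ∃ e' ∈ Γ.A, e ≠ e' ∧ (Γ.s e = z ∨ Γ.t e = z) ∧ (Γ.s e' = z ∨ Γ.t e' = z)) :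
    ∃ x y P P', Γ.Cy x y P P' ∧ P ≠ P' := by
  by_contra hno
  have key : ∀ n : ℕ, ∃ x y l, x ∈ Γ.VS ∧ Γ.Pt x l y ∧ l.length = n := by
    intro n
    induction n with
    | zero =>
      obtain ⟨e, he⟩ := hne
      exact ⟨Γ.s e, Γ.s e, [], ⟨e, he, Or.inl rfl⟩, pt_nil.2 rfl, rfl⟩
    | succ n ih =>
      obtain ⟨x, y, l, hx, h, hn⟩ := ih
      obtain ⟨z, c, hz, h'⟩ := Mdg_step hl hd hno hx h
      exact ⟨z, y, c :: l, hz, h', by rw [List.length_cons, hn]⟩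
  obtain ⟨x, y, l, hx, h, hn⟩ := key (VS_finite (Γ := Γ)).toFinset.card
  have h1 : (Γ.vs x l).toFinset ⊆ (VS_finite (Γ := Γ)).toFinset := by
    intro z hz
    rw [List.mem_toFinset] at hz
    rw [Set.Finite.mem_toFinset]
    exact wk_VS h.1 hx hz
  have h2 := Finset.card_le_card h1
  rw [List.toFinset_card_of_nodup h.2] at h2
  have h3 : (Γ.vs x l).length = l.length + 1 := by
    unfold GG.vs
    rw [List.length_cons, List.length_map]
  omega

end Pool.Agent.FRM
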