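import Pool.Agent.FRM.Stp
import Pool.Agent.FRM.Mdg

/-!
# FRM/Fmq: the determinants of the lifted matrix

Induction on `m`: a zero row, a row with one nonzero entry, or all rows and columns have exactly two nonzero entries (by
counting), and then there is a cycle in the graph of the columns.
-/

set_option autoImplicit false

noncomputable section

open scoped Classical

namespace Pool.Agent.FRM

open GG

variable {V E : Type} {Γ : GG V E XG} {Mk : Matrix V E KU} {Mh : Matrix V E Hq} {τ : E → Hqˣ}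

private theorem Fmq_ends (hF : FrD Γ Mk Mh τ) {i : V} {j : E} (hj : j ∈ Γ.A) (h : Mk i j ≠ 0) :
    Γ.s j = i ∨ Γ.t j = i := by
  by_contra hc
  have h1 : ¬ Γ.s j = i := fun h2 => hc (Or.inl h2)
  have h3 : ¬ Γ.t j = i := fun h2 => hc (Or.inr h2)
  exact h (hF.out j hj i (fun h4 => h1 h4.symm) (fun h4 => h3 h4.symm))

/-- the number of nonzero entries in a column is at most two -/
private theorem Fmq_col (hF : FrD Γ Mk Mh τ) {m : ℕ} (f : Fin m → V) (hf : Function.Injective f) (e : E) :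
    (Finset.univ.filter fun i => Mk (f i) e ≠ 0).card ≤ 2 := by
  by_cases he : e ∈ Γ.A
  · have h1 : ((Finset.univ.filter fun i => Mk (f i) e ≠ 0).image f) ⊆ {Γ.s e, Γ.t e} := by
      intro v hv
      obtain ⟨i, hi, rfl⟩ := Finset.mem_image.1 hv
      rw [Finset.mem_filter] at hi
      rw [Finset.mem_insert, Finset.mem_singleton]
      rcases Fmq_ends hF he hi.2 with h | h
      · exact Or.inl h.symm
      · exact Or.inr h.symm
    rw [← Finset.card_image_of_injective _ hf]
    exact (Finset.card_le_card h1).trans Finset.card_le_two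
  · have h1 : (Finset.univ.filter fun i => Mk (f i) e ≠ 0).card ≤ 1 := by
      rw [Finset.card_le_one]
      intro a ha b hb
      rw [Finset.mem_filter] at ha hb
      exact hf (hF.half e he _ _ ha.2 hb.2)
    omega

/-- a column with two nonzero entries is an edge with both ends among the rows -/
private theorem Fmq_full (hF : FrD Γ Mk Mh τ) {m : ℕ} (f : Fin m → V) (hf : Function.Injective f) (e : E)
    (h2 : (Finset.univ.filter fun i => Mk (f i) e ≠ 0).card = 2) :
    e ∈ Γ.A ∧ Γ.s e ∈ Set.range f ∧ Γ.t e ∈ Set.range f := by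
  obtain ⟨a, b, hab, hs⟩ := Finset.card_eq_two.1 h2
  have ha : Mk (f a) e ≠ 0 := by
    have : a ∈ (Finset.univ.filter fun i => Mk (f i) e ≠ 0) := by rw [hs]; simp
    exact (Finset.mem_filter.1 this).2
  have hb : Mk (f b) e ≠ 0 := by
    have : b ∈ (Finset.univ.filter fun i => Mk (f i) e ≠ 0) := by rw [hs]; simp
    exact (Finset.mem_filter.1 this).2
  have hfab : f a ≠ f b := fun h => hab (hf h)
  have he : e ∈ Γ.A := by
    by_contra he
    exact hfab (hF.half e he _ _ ha hb)
  refine ⟨he, ?_⟩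
  rcases Fmq_ends hF he ha with h3 | h3 <;> rcases Fmq_ends hF he hb with h4 | h4
  · exact absurd (h3.symm.trans h4) hfab
  · exact ⟨⟨a, h3.symm⟩, ⟨b, h4.symm⟩⟩
  · exact ⟨⟨b, h4.symm⟩, ⟨a, h3.symm⟩⟩
  · exact absurd (h3.symm.trans h4) hfab

private theorem Fmq_count {m : ℕ} (P : Fin m → Fin m → KU)
    (hr : ∀ i, 2 ≤ (Finset.univ.filter fun j => P i j ≠ 0).card)
    (hc : ∀ j, (Finset.univ.filter fun i => P i j ≠ 0).card ≤ 2) :
    ∀ j, (Finset.univ.filter fun i => P i j ≠ 0).card = 2 := by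
  have h1 : ∑ i : Fin m, (Finset.univ.filter fun j => P i j ≠ 0).card =
      ∑ j : Fin m, (Finset.univ.filter fun i => P i j ≠ 0).card := by
    simp only [Finset.card_filter]
    exact Finset.sum_comm
  have h2 : ∑ _i : Fin m, 2 ≤ ∑ i : Fin m, (Finset.univ.filter fun j => P i j ≠ 0).card :=
    Finset.sum_le_sum fun i _ => hr i
  rw [h1] at h2
  intro j
  by_contra hj
  have h3 : (Finset.univ.filter fun i => P i j ≠ 0).card < 2 := lt_of_le_of_ne (hc j) hj
  have h4 : ∑ j : Fin m, (Finset.univ.filter fun i => P i j ≠ 0).card < ∑ _j : Fin m, 2 :=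
    Finset.sum_lt_sum (fun i _ => hc i) ⟨j, Finset.mem_univ j, h3⟩
  omega

private theorem Fmq_start {Q : Type} [AddCommGroup Q] {Γ : GG V E Q} {x y : V} {l : List (Da E)}
    (h : Γ.Wk x l y) (hne : x ≠ y) : x ∈ Γ.VS := by
  cases l with
  | nil => exact absurd h hne
  | cons d l =>
    refine ⟨d.1, h.1, ?_⟩
    have h2 : Γ.src d = x := h.2.1
    rw [← h2]
    unfold src
    split_ifs
    · exact Or.inl rfl
    · exact Or.inr rfl

theorem fmq (hF : FrD Γ Mk Mh τ) {m : ℕ} (f : Fin m → V) (g : Fin m → E) (hf : Function.Injective f)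
    (hg : Function.Injective g) :
    ((Mk.submatrix f g).det ≠ 0 → dC (Mh.submatrix f g) = 1) ∧
      ((Mk.submatrix f g).det = 0 → dC (Mh.submatrix f g) = 0) := by
  induction m with
  | zero =>
    refine ⟨fun _ => ?_, fun h => ?_⟩
    · unfold dC
      exact Matrix.det_isEmpty
    · rw [Matrix.det_isEmpty] at h
      exact absurd h one_ne_zero
  | succ m ih =>
    -- transfer of the induction hypothesis
    have key : ∀ i j : Fin (m + 1),
        ((Mk.submatrix f g).det = 0 ↔ (Mk.submatrix (f ∘ i.succAbove) (g ∘ j.succAbove)).det = 0) ∧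
          dC (Mh.submatrix f g) = dC (Mh.submatrix (f ∘ i.succAbove) (g ∘ j.succAbove)) →
        ((Mk.submatrix f g).det ≠ 0 → dC (Mh.submatrix f g) = 1) ∧
          ((Mk.submatrix f g).det = 0 → dC (Mh.submatrix f g) = 0) := by
      intro i j h
      have h1 := ih (f ∘ i.succAbove) (g ∘ j.succAbove) (hf.comp Fin.succAbove_right_injective)
        (hg.comp Fin.succAbove_right_injective)
      refine ⟨fun h2 => ?_, fun h2 => ?_⟩
      · rw [h.2]
        exact h1.1 (fun h3 => h2 (h.1.2 h3))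
      · rw [h.2]
        exact h1.2 (h.1.1 h2)
    have key0 : (Mk.submatrix f g).det = 0 ∧ dC (Mh.submatrix f g) = 0 →
        ((Mk.submatrix f g).det ≠ 0 → dC (Mh.submatrix f g) = 1) ∧
          ((Mk.submatrix f g).det = 0 → dC (Mh.submatrix f g) = 0) :=
      fun h => ⟨fun h2 => absurd h.1 h2, fun _ => h.2⟩
    by_cases hA : ∃ i, ∀ j, Mk (f i) (g j) = 0
    · obtain ⟨i, hi⟩ := hA
      exact key0 (step_zero hF f g i hi)
    by_cases hB : ∃ i j, Mk (f i) (g j) ≠ 0 ∧ ∀ j', j' ≠ j → Mk (f i) (g j') = 0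
    · obtain ⟨i, j, h1, h2⟩ := hB
      exact key i j (step_leaf hF f g i j h1 h2)
    -- all rows have two nonzero entries
    have hrow : ∀ i, ∃ j j', j ≠ j' ∧ Mk (f i) (g j) ≠ 0 ∧ Mk (f i) (g j') ≠ 0 := by
      intro i
      have h1 : ∃ j, Mk (f i) (g j) ≠ 0 := by
        by_contra h
        exact hA ⟨i, fun j => by_contra fun h2 => h ⟨j, h2⟩⟩
      obtain ⟨j, hj⟩ := h1
      have h2 : ∃ j', j' ≠ j ∧ Mk (f i) (g j') ≠ 0 := by
        by_contra h
        exact hB ⟨i, j, hj, fun j' hj' => by_contra fun h2 => h ⟨j', hj', h2⟩⟩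
      obtain ⟨j', h3, h4⟩ := h2
      exact ⟨j, j', fun h => h3 h.symm, hj, h4⟩
    have hr2 : ∀ i, 2 ≤ (Finset.univ.filter fun j => Mk (f i) (g j) ≠ 0).card := by
      intro i
      obtain ⟨j, j', h1, h2, h3⟩ := hrow i
      have h4 : 1 < (Finset.univ.filter fun j => Mk (f i) (g j) ≠ 0).card := by
        rw [Finset.one_lt_card]
        exact ⟨j, Finset.mem_filter.2 ⟨Finset.mem_univ _, h2⟩, j',
          Finset.mem_filter.2 ⟨Finset.mem_univ _, h3⟩, h1⟩
      omega
    have hc2 := Fmq_count (fun i j => Mk (f i) (g j)) hr2 (fun j => Fmq_col hF f hf (g j))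
    have hfull : ∀ j, g j ∈ Γ.A ∧ Γ.s (g j) ∈ Set.range f ∧ Γ.t (g j) ∈ Set.range f := fun j =>
      Fmq_full hF f hf (g j) (hc2 j)
    -- the graph of the columns
    have hBA : Finset.univ.image g ⊆ Γ.A := by
      intro e he
      obtain ⟨j, -, rfl⟩ := Finset.mem_image.1 he
      exact (hfull j).1
    have hmemB : ∀ j, g j ∈ Finset.univ.image g := fun j =>
      Finset.mem_image.2 ⟨j, Finset.mem_univ j, rfl⟩
    have hVS : ∀ z ∈ (Γ.on (Finset.univ.image g)).VS, z ∈ Set.range f := by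
      rintro z ⟨e, he, hz⟩
      have he' : e ∈ Finset.univ.image g := he
      obtain ⟨j, -, rfl⟩ := Finset.mem_image.1 he'
      rcases hz with hz | hz
      · have hz' : Γ.s (g j) = z := hz
        rw [← hz']
        exact (hfull j).2.1
      · have hz' : Γ.t (g j) = z := hz
        rw [← hz']
        exact (hfull j).2.2
    obtain ⟨x, y, P, P', hcy, hne⟩ := exists_cycle (Γ := Γ.on (Finset.univ.image g))
      (fun e he => hF.lf e (hBA he)) ⟨g 0, hmemB 0⟩ (by
        intro z hz
        obtain ⟨i, rfl⟩ := hVS z hz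
        obtain ⟨j, j', h1, h2, h3⟩ := hrow i
        exact ⟨g j, hmemB j, g j', hmemB j', fun h => h1 (hg h), Fmq_ends hF (hfull j).1 h2,
          Fmq_ends hF (hfull j').1 h3⟩)
    have hcy' := (cy_on hBA).1 hcy
    have hx : x ∈ (Γ.on (Finset.univ.image g)).VS := Fmq_start hcy.p.1 hcy.ne
    have hv : ∀ z, z ∈ Γ.vs x P ∨ z ∈ Γ.vs x P' → z ∈ Set.range f := by
      intro z hz
      rcases hz with hz | hz
      · exact hVS z (wk_VS hcy.p.1 hx hz)
      · exact hVS z (wk_VS hcy.p'.1 hx hz)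
    have he : ∀ e ∈ eds P ∪ eds P', e ∈ Set.range g := by
      intro e he
      have h1 : e ∈ Finset.univ.image g := by
        rcases Finset.mem_union.1 he with h2 | h2
        · obtain ⟨d, hd, rfl⟩ := (mem_eds e P).1 h2
          exact hcy'.2.1 d hd
        · obtain ⟨d, hd, rfl⟩ := (mem_eds e P').1 h2
          exact hcy'.2.2 d hd
      obtain ⟨j, -, hj⟩ := Finset.mem_image.1 h1
      exact ⟨j, hj⟩
    obtain ⟨i, j, h1, h2⟩ := step_cycle hF hcy'.1 hne f g hf hg hv he
    by_cases hgn : Γ.gn P = Γ.gn P'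
    · exact key0 (h1 hgn)
    · exact key i j (h2 hgn)

end Pool.Agent.FRM
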