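import Pool.Agent.FRM.Mgr
import Pool.Agent.FRM.Fmq
import Pool.Agent.FRM.Dfm

/-!
# FRM/Fin1: the main theorem

`lift_exists`, `fmq` with `f = id`, `det_formula`; the case `r = 0` is trivial.
-/

set_option autoImplicit false

noncomputable section

open scoped Classical Matrix

namespace Pool.Agent.FRM

open GG

/-- the set `S` of columns is a basis of `M[A]` -/
def IsBas {r n : ℕ} (A : Matrix (Fin r) (Fin n) KU) (S : Finset (Fin n)) : Prop :=
  ∃ h : S.card = r, (A.submatrix id (S.orderEmbOfFin h)).det ≠ 0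

private theorem Fin1_sum {r n : ℕ} (A : Matrix (Fin r) (Fin n) KU) (M : Matrix (Fin r) (Fin n) Hq)
    (h : ∀ g : Fin r → Fin n, Function.Injective g →
      ((A.submatrix id g).det ≠ 0 → dC (M.submatrix id g) = 1) ∧
        ((A.submatrix id g).det = 0 → dC (M.submatrix id g) = 0)) (w : Fin n → ℝ) (hw : ∀ j, 0 ≤ w j) :
    (chi M * Matrix.diagonal (fun x : Fin n × Fin 2 => (w x.1 : ℂ)) * (chi M)ᴴ).det =
      ((∑ S ∈ Finset.univ.filter (fun S => IsBas A S), ∏ e ∈ S, w e : ℝ) : ℂ) ^ 2 := by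
  rw [det_formula M hw]
  congr 1
  rw [Complex.ofReal_sum, Finset.sum_filter]
  refine Finset.sum_congr rfl fun S _ => ?_
  by_cases hS : S.card = r
  · rw [dif_pos hS]
    obtain ⟨h1, h2⟩ := h (S.orderEmbOfFin hS) (S.orderEmbOfFin hS).injective
    by_cases hdet : (A.submatrix id (S.orderEmbOfFin hS)).det = 0
    · rw [h2 hdet, mul_zero, if_neg]
      rintro ⟨hS', hne⟩
      exact hne hdet
    · rw [h1 hdet, mul_one, if_pos]
      exact ⟨hS, hdet⟩
  · rw [dif_neg hS, if_neg]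
    rintro ⟨hS', -⟩
    exact hS hS'

theorem main {r n : ℕ} (A : Matrix (Fin r) (Fin n) KU) (hU : IsU2 A) (hF : Frame A) :
    ∃ M : Matrix (Fin r) (Fin n) Hq, (∀ i j, A i j = 0 → M i j = 0) ∧ (∀ i j, A i j ≠ 0 → HU (M i j)) ∧
      (∀ g : Fin r → Fin n, Function.Injective g →
        ((A.submatrix id g).det ≠ 0 → dC (M.submatrix id g) = 1) ∧
          ((A.submatrix id g).det = 0 → dC (M.submatrix id g) = 0)) ∧
      ∀ w : Fin n → ℝ, (∀ j, 0 ≤ w j) →
        (chi M * Matrix.diagonal (fun x : Fin n × Fin 2 => (w x.1 : ℂ)) * (chi M)ᴴ).det =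
          ((∑ S ∈ Finset.univ.filter (fun S => IsBas A S), ∏ e ∈ S, w e : ℝ) : ℂ) ^ 2 := by
  have key : ∃ M : Matrix (Fin r) (Fin n) Hq, (∀ i j, A i j = 0 → M i j = 0) ∧ (∀ i j, A i j ≠ 0 → HU (M i j)) ∧
      ∀ g : Fin r → Fin n, Function.Injective g →
        ((A.submatrix id g).det ≠ 0 → dC (M.submatrix id g) = 1) ∧
          ((A.submatrix id g).det = 0 → dC (M.submatrix id g) = 0) := by
    rcases Nat.eq_zero_or_pos r with hr | hr
    · subst hr
      refine ⟨0, fun i => i.elim0, fun i => i.elim0, fun g _ => ⟨fun _ => dC_zero_fin _, fun h => ?_⟩⟩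
      rw [Matrix.det_fin_zero] at h
      exact absurd h one_ne_zero
    · obtain ⟨Γ, M, τ, hFr, hHU⟩ := lift_exists hr A hU hF
      refine ⟨M, fun i j h => (hFr.sup i j).1 h, hHU, fun g hg => ?_⟩
      exact fmq hFr id g Function.injective_id hg
  obtain ⟨M, h1, h2, h3⟩ := key
  exact ⟨M, h1, h2, h3, fun w hw => Fin1_sum A M h3 w hw⟩

end Pool.Agent.FRM
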