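import Pool.Agent.FRM.Rich

/-!
# FRM/Red: reductions (1) and (3), two vertices

PROOF PLAN.  `delta_class`: let `p, g` be as in `Cyc` of `Γ - f`; the switched gain `h` of `f` is not in `zmultiples g` (else `Γ.Cyc`).  `v = indicator of f`.  `Zc`: if `gn P = gn P'` and `f` is on one of the paths (it is on at most one unless
`P = P' = [d]`, `cy_disj`; and at most once, `pt_nodup`), then `gn P + p x - p y ∈ ± h + zmultiples g`, `gn P' + p x - p y ∈ zmultiples g`, so `h ∈ zmultiples g`: contradiction.  So `f` is on none of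
them and both `tv` are `0`.  Not `Cob`: `rich_sp` gives three paths from `s f` to `t f` with different gains; at most one of them uses `f` (it is then `[(f, true)]`, `pt_edge_eq`), so two of them, with gains `s ≠ s'`, `s - s' ∈ hx`, give
`c (s f) = ch s * c (t f) = ch s' * c (t f)` (`tv_cob`), `c (t f) = 0 = c (s f)` (`ch_ne`), but `v f = 1`.
`digon`: `Γ' = Γ - f'`.  Walks through `f'` are replaced by walks through `f`.  A cochain `v` of `Γ'` is extended by the value on `f'` of the parallel dart of `f`; a cycle of `Γ` through `f'` but not `f` becomes a cycle of `Γ'` when the dart is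
replaced; a cycle through both is the digon itself.
`two_vertices`: all edges are between the same two vertices `x, y`; normalize the darts to go from `x` to `y`; `ND` and `Phi` (`cy_digon`): their gains are different and all differences are in `hx`; by `Fund.k4` there are at most three edges, and not `Cyc`
implies exactly three, `{f₁, f₂, f₃}`; `Γ - f₃` is `Cyc` (two parallel edges), so `delta_class` applies.
-/

set_option autoImplicit false

noncomputable section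

open scoped Classical

namespace Pool.Agent.FRM

open GG

variable {V E : Type} {k : Type} [Field k] {ω : k} {Γ : GG V E Lt}

private theorem Red_dart {S : AddSubgroup Lt} {p : V → Lt} (d : Da E) :
    Γ.dg d + p (Γ.src d) - p (Γ.tgt d) ∈ S ↔ Γ.g d.1 + p (Γ.s d.1) - p (Γ.t d.1) ∈ S := by
  rcases d with ⟨e, b⟩
  cases b
  · show -Γ.g e + p (Γ.t e) - p (Γ.s e) ∈ S ↔ _
    have h : -Γ.g e + p (Γ.t e) - p (Γ.s e) = -(Γ.g e + p (Γ.s e) - p (Γ.t e)) := by abel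
    rw [h]
    exact S.neg_mem_iff
  · exact Iff.rfl

private theorem Red_in {S : AddSubgroup Lt} {p : V → Lt} {B : Finset E}
    (h : ∀ e ∈ B, Γ.g e + p (Γ.s e) - p (Γ.t e) ∈ S) {x y : V} {l : List (Da E)} (hl : Γ.Wk x l y)
    (hB : ∀ d ∈ l, d.1 ∈ B) : Γ.gn l + p x - p y ∈ S := by
  induction l generalizing x with
  | nil =>
    have h1 : x = y := hl
    rw [gn_nil, h1, zero_add, sub_self]
    exact S.zero_mem
  | cons d l ih =>
    obtain ⟨h1, h2, h3⟩ := hl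
    have h4 := ih h3 fun d' hd' => hB d' (List.mem_cons_of_mem _ hd')
    have h5 := (Red_dart d).2 (h d.1 (hB d List.mem_cons_self))
    rw [h2] at h5
    have h6 : Γ.gn (d :: l) + p x - p y = (Γ.dg d + p x - p (Γ.tgt d)) + (Γ.gn l + p (Γ.tgt d) - p y) := by
      rw [gn_cons]
      abel
    rw [h6]
    exact S.add_mem h5 h4

/-- a path through `f` with the gain of a path which avoids `f` -/
private theorem Red_key {S : AddSubgroup Lt} {p : V → Lt} {f : E}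
    (h : ∀ e ∈ Γ.A.erase f, Γ.g e + p (Γ.s e) - p (Γ.t e) ∈ S) {x y : V} {P P' : List (Da E)}
    (hP : Γ.Pt x P y) (hP' : Γ.Wk x P' y) (hf : f ∈ eds P) (hf' : f ∉ eds P') (hg : Γ.gn P = Γ.gn P') :
    Γ.g f + p (Γ.s f) - p (Γ.t f) ∈ S := by
  obtain ⟨d, hd, he⟩ := (mem_eds f P).1 hf
  obtain ⟨a, b, hab⟩ := List.append_of_mem hd
  have hnd := pt_nodup hP
  rw [hab, List.map_append, List.map_cons, List.nodup_append] at hnd
  obtain ⟨-, h2, h3⟩ := hnd
  rw [List.nodup_cons] at h2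
  have ha : ∀ d' ∈ a, d'.1 ≠ f := by
    intro d' hd' h4
    exact h3 d'.1 (List.mem_map_of_mem hd') d.1 List.mem_cons_self (h4.trans he.symm)
  have hb : ∀ d' ∈ b, d'.1 ≠ f := by
    intro d' hd' h4
    apply h2.1
    rw [he, ← h4]
    exact List.mem_map_of_mem hd'
  have hw := hP.1
  rw [hab] at hw
  obtain ⟨z, hw1, hw2⟩ := wk_append.1 hw
  obtain ⟨h4, h5, h6⟩ := hw2
  have k1 : Γ.gn a + p x - p z ∈ S := Red_in h hw1 fun d' hd' =>
    Finset.mem_erase.2 ⟨ha d' hd', (wk_mem hw1 d' hd').1⟩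
  have k2 : Γ.gn b + p (Γ.tgt d) - p y ∈ S := Red_in h h6 fun d' hd' =>
    Finset.mem_erase.2 ⟨hb d' hd', (wk_mem h6 d' hd').1⟩
  have k3 : Γ.gn P' + p x - p y ∈ S := Red_in h hP' fun d' hd' =>
    Finset.mem_erase.2 ⟨fun h7 => hf' ((mem_eds f P').2 ⟨d', hd', h7⟩), (wk_mem hP' d' hd').1⟩
  have k4 : Γ.dg d + p (Γ.src d) - p (Γ.tgt d) ∈ S := by
    have h7 : Γ.dg d + p (Γ.src d) - p (Γ.tgt d) =
        (Γ.gn P' + p x - p y) - (Γ.gn a + p x - p z) - (Γ.gn b + p (Γ.tgt d) - p y) := by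
      rw [← hg, hab, gn_append, gn_cons, h5]
      abel
    rw [h7]
    exact S.sub_mem (S.sub_mem k3 k1) k2
  rw [Red_dart d, he] at k4
  exact k4

private theorem Red_tv_zero {f : E} {l : List (Da E)} (h : f ∉ eds l) :
    tv ω Γ (fun e => if e = f then (1 : k) else 0) l = 0 := by
  have h1 : tv ω Γ (fun e => if e = f then (1 : k) else 0) l =
      tv ω Γ (fun e => (0 : k) * (if e = f then (1 : k) else 0)) l := by
    apply tv_congr
    intro d hd
    have h2 : d.1 ≠ f := fun h2 => h ((mem_eds f l).2 ⟨d, hd, h2⟩)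
    rw [if_neg h2, mul_zero]
  rw [h1, tv_smul, zero_mul]

theorem delta_class (hω : ω ^ 2 + ω + 1 = 0) (h3 : (3 : k) ≠ 0) (hΓ : Γ.C2) (hΦ : Γ.Phi (hx : Set Lt)) (hc : ¬ Γ.Cyc)
    {f : E} (hf : f ∈ Γ.A) (hd : (Γ.on (Γ.A.erase f)).Cyc) : HasH ω Γ := by
  obtain ⟨g, p, hp⟩ := hd
  have hp' : ∀ e ∈ Γ.A.erase f, Γ.g e + p (Γ.s e) - p (Γ.t e) ∈ AddSubgroup.zmultiples g := hp
  have hh : Γ.g f + p (Γ.s f) - p (Γ.t f) ∉ AddSubgroup.zmultiples g := by
    intro h1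
    refine hc ⟨g, p, fun e he => ?_⟩
    by_cases h2 : e = f
    · rw [h2]
      exact h1
    · exact hp' e (Finset.mem_erase.2 ⟨h2, he⟩)
  refine ⟨fun e => if e = f then (1 : k) else 0, ?_, ?_⟩
  · intro x y P P' hcy hg
    rcases cy_disj hcy with h1 | ⟨d, h1, h2⟩
    · by_cases h2 : f ∈ eds P
      · have h4 : f ∉ eds P' := by
          obtain ⟨d, hd, he⟩ := (mem_eds f P).1 h2
          rw [← he]
          exact h1 d hd
        exact absurd (Red_key hp' hcy.p hcy.p'.1 h2 h4 hg) hh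
      · by_cases h4 : f ∈ eds P'
        · exact absurd (Red_key hp' hcy.p' hcy.p.1 h4 h2 hg.symm) hh
        · rw [Red_tv_zero h2, Red_tv_zero h4]
    · rw [h1, h2]
  · rintro ⟨c, hcc⟩
    have hlf : Γ.s f ≠ Γ.t f := hΓ.lf f hf
    have hsf : Γ.s f ∈ Γ.VS := ⟨f, hf, Or.inl rfl⟩
    have htf : Γ.t f ∈ Γ.VS := ⟨f, hf, Or.inr rfl⟩
    -- a path which avoids `f`
    have hav : ∀ P : List (Da E), Γ.Pt (Γ.s f) P (Γ.t f) → f ∉ eds P →
        c (Γ.s f) = ch ω (Γ.gn P) * c (Γ.t f) := by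
      intro P hP hfP
      have h1 := tv_cob hω (fun e => if e = f then (1 : k) else 0) c hP.1 fun d hd => hcc d.1 (wk_mem hP.1 d hd).1
      rw [Red_tv_zero hfP] at h1
      exact sub_eq_zero.1 h1.symm
    -- two paths which avoid `f` with gains whose difference is a root
    have htwo : ∀ P P' : List (Da E), Γ.Pt (Γ.s f) P (Γ.t f) → Γ.Pt (Γ.s f) P' (Γ.t f) → f ∉ eds P → f ∉ eds P' →
        Γ.gn P - Γ.gn P' ∈ hx → False := by
      intro P P' hP hP' h1 h2 h4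
      have h5 := hav P hP h1
      have h6 := hav P' hP' h2
      have h7 : (ch ω (Γ.gn P) - ch ω (Γ.gn P')) * c (Γ.t f) = 0 := by
        rw [sub_mul, ← h5, ← h6, sub_self]
      have h8 : c (Γ.t f) = 0 := (mul_eq_zero.1 h7).resolve_left (sub_ne_zero.2 (ch_ne hω h3 h4))
      have h9 : c (Γ.s f) = 0 := by rw [h5, h8, mul_zero]
      have h10 := hcc f hf
      simp only [if_true] at h10
      rw [h8, h9, mul_zero, sub_zero] at h10
      exact one_ne_zero h10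
    -- a path through `f` is the edge
    have hsing : ∀ P : List (Da E), Γ.Pt (Γ.s f) P (Γ.t f) → f ∈ eds P → Γ.gn P = Γ.g f := by
      intro P hP h1
      obtain ⟨d, hd, he⟩ := (mem_eds f P).1 h1
      have h2 : (Γ.src d = Γ.s f ∧ Γ.tgt d = Γ.t f) ∨ (Γ.src d = Γ.t f ∧ Γ.tgt d = Γ.s f) := by
        rcases d with ⟨e, b⟩
        have he' : e = f := he
        subst he'
        cases b
        · exact Or.inr ⟨rfl, rfl⟩
        · exact Or.inl ⟨rfl, rfl⟩
      have h4 := pt_edge_eq hP hd h2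
      have h5 := hP.1
      rw [h4] at h5
      have h6 : Γ.src d = Γ.s f := h5.2.1
      rw [h4, gn_cons, gn_nil, add_zero]
      rcases d with ⟨e, b⟩
      have he' : e = f := he
      subst he'
      cases b
      · exact absurd h6.symm hlf
      · rfl
    obtain ⟨a, b, ha, hb, hab, hS⟩ := rich_sp hΓ hΦ hc
    have h0 : (0 : Lt) ∉ hx := fund_hx.zero
    have hsy : ∀ q : Lt, q ∈ hx → -q ∈ hx := fund_hx.symm
    -- three paths
    have hthree : ∀ P₀ P₁ P₂ : List (Da E), Γ.Pt (Γ.s f) P₀ (Γ.t f) → Γ.Pt (Γ.s f) P₁ (Γ.t f) →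
        Γ.Pt (Γ.s f) P₂ (Γ.t f) → Γ.gn P₁ - Γ.gn P₀ ∈ hx → Γ.gn P₂ - Γ.gn P₀ ∈ hx → Γ.gn P₁ - Γ.gn P₂ ∈ hx → False := by
      intro P₀ P₁ P₂ q0 q1 q2 h10 h20 h12
      have hne : ∀ P P' : List (Da E), Γ.Pt (Γ.s f) P (Γ.t f) → Γ.Pt (Γ.s f) P' (Γ.t f) → f ∈ eds P → f ∈ eds P' →
          Γ.gn P - Γ.gn P' ∈ hx → False := by
        intro P P' r1 r2 r3 r4 r5
        rw [hsing P r1 r3, hsing P' r2 r4, sub_self] at r5
        exact h0 r5
      by_cases u0 : f ∈ eds P₀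
      · have u1 : f ∉ eds P₁ := fun h => hne P₁ P₀ q1 q0 h u0 h10
        have u2 : f ∉ eds P₂ := fun h => hne P₂ P₀ q2 q0 h u0 h20
        exact htwo P₁ P₂ q1 q2 u1 u2 h12
      · by_cases u1 : f ∈ eds P₁
        · have u2 : f ∉ eds P₂ := fun h => hne P₁ P₂ q1 q2 u1 h h12
          exact htwo P₂ P₀ q2 q0 u2 u0 h20
        · exact htwo P₁ P₀ q1 q0 u1 u0 h10
    obtain ⟨q, h1 | h1⟩ := hS (Γ.s f) hsf (Γ.t f) htf hlf
    · obtain ⟨P₀, r0, s0⟩ := h1 0 (by simp)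
      obtain ⟨P₁, r1, s1⟩ := h1 a (by simp)
      obtain ⟨P₂, r2, s2⟩ := h1 b (by simp)
      refine hthree P₀ P₁ P₂ r0 r1 r2 ?_ ?_ ?_
      · rw [s1, s0, add_zero, add_sub_cancel_left]
        exact ha
      · rw [s2, s0, add_zero, add_sub_cancel_left]
        exact hb
      · rw [s1, s2, add_sub_add_left_eq_sub]
        exact hab
    · obtain ⟨P₀, r0, s0⟩ := h1 0 (by simp)
      obtain ⟨P₁, r1, s1⟩ := h1 a (by simp)
      obtain ⟨P₂, r2, s2⟩ := h1 b (by simp)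
      refine hthree P₀ P₁ P₂ r0 r1 r2 ?_ ?_ ?_
      · have e : Γ.gn P₁ - Γ.gn P₀ = -a := by
          rw [s1, s0]
          abel
        rw [e]
        exact hsy a ha
      · have e : Γ.gn P₂ - Γ.gn P₀ = -b := by
          rw [s2, s0]
          abel
        rw [e]
        exact hsy b hb
      · have e : Γ.gn P₁ - Γ.gn P₂ = -(a - b) := by
          rw [s1, s2]
          abel
        rw [e]
        exact hsy _ hab

/-- replace the darts of `f'` by darts of `f` (reversed if `b` is true) -/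
private def Red_rep (f f' : E) (b : Bool) (d : Da E) : Da E := if d.1 = f' then (f, xor d.2 b) else d

private theorem Red_rep_pos {f f' : E} {b : Bool} {d : Da E} (h : d.1 = f') : Red_rep f f' b d = (f, xor d.2 b) :=
  if_pos h

private theorem Red_rep_neg {f f' : E} {b : Bool} {d : Da E} (h : d.1 ≠ f') : Red_rep f f' b d = d :=
  if_neg h

private theorem Red_rep_spec {f f' : E} (hp : Γ.Par f f') : ∃ b : Bool, ∀ d : Da E,
    Γ.src (Red_rep f f' b d) = Γ.src d ∧ Γ.tgt (Red_rep f f' b d) = Γ.tgt d ∧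
      Γ.dg (Red_rep f f' b d) = Γ.dg d := by
  rcases hp with ⟨h1, h2, h3⟩ | ⟨h1, h2, h3⟩
  · refine ⟨false, fun d => ?_⟩
    by_cases hd : d.1 = f'
    · rw [Red_rep_pos hd]
      rcases d with ⟨e, c⟩
      have he : e = f' := hd
      subst he
      cases c
      · exact ⟨h2.symm, h1.symm, by show -Γ.g f = -Γ.g e; rw [h3]⟩
      · exact ⟨h1.symm, h2.symm, h3.symm⟩
    · rw [Red_rep_neg hd]
      exact ⟨rfl, rfl, rfl⟩
  · refine ⟨true, fun d => ?_⟩
    by_cases hd : d.1 = f'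
    · rw [Red_rep_pos hd]
      rcases d with ⟨e, c⟩
      have he : e = f' := hd
      subst he
      cases c
      · exact ⟨h2.symm, h1.symm, by show Γ.g f = -Γ.g e; rw [h3, neg_neg]⟩
      · exact ⟨h1.symm, h2.symm, h3.symm⟩
    · rw [Red_rep_neg hd]
      exact ⟨rfl, rfl, rfl⟩

private theorem Red_rep_mem {f f' : E} {b : Bool} (hf : f ∈ Γ.A) (hne : f ≠ f') {d : Da E} (hd : d.1 ∈ Γ.A) :
    (Red_rep f f' b d).1 ∈ Γ.A.erase f' := by
  by_cases h : d.1 = f'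
  · rw [Red_rep_pos h]
    exact Finset.mem_erase.2 ⟨hne, hf⟩
  · rw [Red_rep_neg h]
    exact Finset.mem_erase.2 ⟨h, hd⟩

private theorem Red_rep_wk {f f' : E} {b : Bool} (hf : f ∈ Γ.A) (hne : f ≠ f')
    (hb : ∀ d : Da E, Γ.src (Red_rep f f' b d) = Γ.src d ∧ Γ.tgt (Red_rep f f' b d) = Γ.tgt d ∧
      Γ.dg (Red_rep f f' b d) = Γ.dg d) {x y : V} {l : List (Da E)} (h : Γ.Wk x l y) :
    (Γ.on (Γ.A.erase f')).Wk x (l.map (Red_rep f f' b)) y := by
  induction l generalizing x with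
  | nil => exact h
  | cons d l ih =>
    obtain ⟨h1, h2, h3⟩ := h
    refine ⟨Red_rep_mem hf hne h1, (hb d).1.trans h2, ?_⟩
    have h4 : (Γ.on (Γ.A.erase f')).tgt (Red_rep f f' b d) = Γ.tgt d := (hb d).2.1
    rw [h4]
    exact ih h3

private theorem Red_rep_vs {f f' : E} {b : Bool}
    (hb : ∀ d : Da E, Γ.src (Red_rep f f' b d) = Γ.src d ∧ Γ.tgt (Red_rep f f' b d) = Γ.tgt d ∧
      Γ.dg (Red_rep f f' b d) = Γ.dg d) (x : V) (l : List (Da E)) :
    (Γ.on (Γ.A.erase f')).vs x (l.map (Red_rep f f' b)) = Γ.vs x l := by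
  unfold GG.vs
  rw [List.map_map]
  congr 1
  exact List.map_congr_left fun d _ => (hb d).2.1

private theorem Red_rep_gn {f f' : E} {b : Bool}
    (hb : ∀ d : Da E, Γ.src (Red_rep f f' b d) = Γ.src d ∧ Γ.tgt (Red_rep f f' b d) = Γ.tgt d ∧
      Γ.dg (Red_rep f f' b d) = Γ.dg d) (l : List (Da E)) :
    (Γ.on (Γ.A.erase f')).gn (l.map (Red_rep f f' b)) = Γ.gn l := by
  unfold GG.gn
  rw [List.map_map]
  congr 1
  exact List.map_congr_left fun d _ => (hb d).2.2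

private theorem Red_dv_fl (hω : ω ^ 2 + ω + 1 = 0) (v : E → k) (d : Da E) :
    dv ω Γ v (fl d) = -(ch ω (-Γ.dg d) * dv ω Γ v d) := by
  rcases d with ⟨e, b⟩
  cases b
  · show v e = -(ch ω (- -Γ.g e) * -(ch ω (-Γ.g e) * v e))
    have h := ch_add hω (- -Γ.g e) (-Γ.g e)
    rw [neg_neg, add_neg_cancel, ch_zero] at h
    rw [neg_neg, mul_neg, neg_neg, ← mul_assoc, ← h, one_mul]
  · rfl

private theorem Red_tv_on (B : Finset E) (v : E → k) (l : List (Da E)) : tv ω (Γ.on B) v l = tv ω Γ v l := by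
  induction l with
  | nil => rfl
  | cons d l ih =>
    show dv ω Γ v d + ch ω (Γ.dg d) * tv ω (Γ.on B) v l = dv ω Γ v d + ch ω (Γ.dg d) * tv ω Γ v l
    rw [ih]

private theorem Red_rep_dv (hω : ω ^ 2 + ω + 1 = 0) {f f' : E} {b : Bool}
    (hb : ∀ d : Da E, Γ.src (Red_rep f f' b d) = Γ.src d ∧ Γ.tgt (Red_rep f f' b d) = Γ.tgt d ∧
      Γ.dg (Red_rep f f' b d) = Γ.dg d) (v' : E → k) (d : Da E) :
    dv ω Γ (fun e => if e = f' then dv ω Γ v' (Red_rep f f' b (f', true)) else v' e) d =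
      dv ω Γ v' (Red_rep f f' b d) := by
  by_cases hd : d.1 = f'
  · rcases d with ⟨e, c⟩
    have he : e = f' := hd
    subst he
    cases c
    · have h1 : Red_rep f e b (e, false) = fl (Red_rep f e b (e, true)) := by
        rw [Red_rep_pos (d := (e, false)) rfl, Red_rep_pos (d := (e, true)) rfl]
        cases b <;> rfl
      rw [h1, Red_dv_fl hω, (hb (e, true)).2.2]
      show -(ch ω (-Γ.g e) * (if e = e then dv ω Γ v' (Red_rep f e b (e, true)) else v' e)) = _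
      rw [if_pos rfl]
      rfl
    · show (if e = e then dv ω Γ v' (Red_rep f e b (e, true)) else v' e) = _
      rw [if_pos rfl]
  · rw [Red_rep_neg hd]
    unfold dv
    simp only [if_neg hd]

private theorem Red_rep_tv (hω : ω ^ 2 + ω + 1 = 0) {f f' : E} {b : Bool}
    (hb : ∀ d : Da E, Γ.src (Red_rep f f' b d) = Γ.src d ∧ Γ.tgt (Red_rep f f' b d) = Γ.tgt d ∧
      Γ.dg (Red_rep f f' b d) = Γ.dg d) (v' : E → k) (l : List (Da E)) :
    tv ω Γ (fun e => if e = f' then dv ω Γ v' (Red_rep f f' b (f', true)) else v' e) l =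
      tv ω Γ v' (l.map (Red_rep f f' b)) := by
  induction l with
  | nil => rfl
  | cons d l ih =>
    show dv ω Γ _ d + ch ω (Γ.dg d) * tv ω Γ _ l = dv ω Γ v' (Red_rep f f' b d) +
      ch ω (Γ.dg (Red_rep f f' b d)) * tv ω Γ v' (l.map (Red_rep f f' b))
    rw [Red_rep_dv hω hb, ih, (hb d).2.2]

theorem digon (hω : ω ^ 2 + ω + 1 = 0) (hΓ : Γ.C2) (hc : ¬ Γ.Cyc) {f f' : E}
    (hf : f ∈ Γ.A) (hf' : f' ∈ Γ.A) (hne : f ≠ f') (hp : Γ.Par f f') :
    (Γ.on (Γ.A.erase f')).C2 ∧ ¬ (Γ.on (Γ.A.erase f')).Cyc ∧ (Γ.on (Γ.A.erase f')).nV = Γ.nV ∧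
      (HasH ω (Γ.on (Γ.A.erase f')) → HasH ω Γ) := by
  obtain ⟨b, hb⟩ := Red_rep_spec hp
  have hfe : f ∈ Γ.A.erase f' := Finset.mem_erase.2 ⟨hne, hf⟩
  have hVS : (Γ.on (Γ.A.erase f')).VS = Γ.VS := by
    apply Set.Subset.antisymm
    · rintro z ⟨e, he, hz⟩
      exact ⟨e, (Finset.mem_erase.1 he).2, hz⟩
    · rintro z ⟨e, he, hz⟩
      by_cases h : e = f'
      · refine ⟨f, hfe, ?_⟩
        rw [h] at hz
        change Γ.s f = z ∨ Γ.t f = z
        rcases hp with ⟨h1, h2, -⟩ | ⟨h1, h2, -⟩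
        · rw [h1, h2] at hz
          exact hz
        · rw [h1, h2] at hz
          exact hz.symm
      · exact ⟨e, Finset.mem_erase.2 ⟨h, he⟩, hz⟩
  refine ⟨⟨⟨f, hfe⟩, fun e he => hΓ.lf e (Finset.mem_erase.1 he).2, ?_, ?_⟩, ?_, ?_, ?_⟩
  · intro x hx y hy
    rw [hVS] at hx hy
    obtain ⟨l, hl⟩ := hΓ.con x hx y hy
    exact ⟨_, Red_rep_wk hf hne hb hl⟩
  · intro z x hx y hy hxz hyz
    rw [hVS] at hx hy
    obtain ⟨l, hl, hz⟩ := hΓ.cut z x hx y hy hxz hyz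
    refine ⟨_, Red_rep_wk hf hne hb hl, ?_⟩
    rw [Red_rep_vs hb]
    exact hz
  · rintro ⟨g, p, hg⟩
    refine hc ⟨g, p, fun e he => ?_⟩
    by_cases h : e = f'
    · have h1 : Γ.g f + p (Γ.s f) - p (Γ.t f) ∈ AddSubgroup.zmultiples g := hg f hfe
      rw [h]
      rcases hp with ⟨h2, h3, h4⟩ | ⟨h2, h3, h4⟩
      · rw [h2, h3, h4]
        exact h1
      · rw [h2, h3, h4]
        have h5 : -Γ.g f + p (Γ.t f) - p (Γ.s f) = -(Γ.g f + p (Γ.s f) - p (Γ.t f)) := by abel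
        rw [h5]
        exact neg_mem h1
    · exact hg e (Finset.mem_erase.2 ⟨h, he⟩)
  · unfold GG.nV
    rw [hVS]
  · rintro ⟨v', hz, hcob⟩
    refine ⟨fun e => if e = f' then dv ω Γ v' (Red_rep f f' b (f', true)) else v' e, ?_, ?_⟩
    · intro x y P P' hcy hg
      have h1 : (Γ.on (Γ.A.erase f')).Cy x y (P.map (Red_rep f f' b)) (P'.map (Red_rep f f' b)) := by
        refine ⟨hcy.ne, ⟨Red_rep_wk hf hne hb hcy.p.1, ?_⟩, ⟨Red_rep_wk hf hne hb hcy.p'.1, ?_⟩, ?_⟩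
        · rw [Red_rep_vs hb]
          exact hcy.p.2
        · rw [Red_rep_vs hb]
          exact hcy.p'.2
        · rw [Red_rep_vs hb, Red_rep_vs hb]
          exact hcy.dj
      have h2 := hz x y _ _ h1 (by rw [Red_rep_gn hb, Red_rep_gn hb, hg])
      rw [Red_tv_on, Red_tv_on] at h2
      rw [Red_rep_tv hω hb, Red_rep_tv hω hb]
      exact h2
    · rintro ⟨c, hcc⟩
      refine hcob ⟨c, fun e he => ?_⟩
      obtain ⟨h1, h2⟩ := Finset.mem_erase.1 he
      have h3 := hcc e h2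
      simp only [if_neg h1] at h3
      exact h3

/-- gain of the edge `e` as a dart which starts at `x` -/
private def Red_ga (Γ : GG V E Lt) (x : V) (e : E) : Lt := if Γ.s e = x then Γ.g e else -Γ.g e

private theorem Red_cyc {x y : V} (hxy : x ≠ y) {S : Finset E} {a b : E}
    (hS : ∀ e ∈ S, e = a ∨ e = b) (hab : ∀ e ∈ S, (Γ.s e = x ∧ Γ.t e = y) ∨ (Γ.s e = y ∧ Γ.t e = x)) :
    (Γ.on S).Cyc := by
  refine ⟨Red_ga Γ x b - Red_ga Γ x a, fun z => if z = x then 0 else Red_ga Γ x a, ?_⟩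
  intro e he
  have he' : e ∈ S := he
  show Γ.g e + (if Γ.s e = x then 0 else Red_ga Γ x a) - (if Γ.t e = x then 0 else Red_ga Γ x a) ∈ _
  have key : Red_ga Γ x e - Red_ga Γ x a ∈ AddSubgroup.zmultiples (Red_ga Γ x b - Red_ga Γ x a) := by
    rcases hS e he' with h | h
    · rw [h, sub_self]
      exact AddSubgroup.zero_mem _
    · rw [h]
      exact AddSubgroup.mem_zmultiples _
  rcases hab e he' with ⟨h1, h2⟩ | ⟨h1, h2⟩
  · rw [h1, h2, if_pos rfl, if_neg hxy.symm]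
    have h3 : Red_ga Γ x e = Γ.g e := by
      unfold Red_ga
      rw [if_pos h1]
    rw [h3] at key
    rw [add_zero]
    exact key
  · rw [h1, h2, if_pos rfl, if_neg hxy.symm]
    have h3 : Red_ga Γ x e = -Γ.g e := by
      unfold Red_ga
      rw [if_neg (by rw [h1]; exact hxy.symm)]
    rw [h3] at key
    have h4 := AddSubgroup.neg_mem _ key
    have h5 : -(-Γ.g e - Red_ga Γ x a) = Γ.g e + Red_ga Γ x a - 0 := by abel
    rw [h5] at h4
    exact h4

private theorem Red_dif (hΦ : Γ.Phi (hx : Set Lt)) (hN : Γ.ND) {x y : V} (hxy : x ≠ y)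
    (hab : ∀ e ∈ Γ.A, (Γ.s e = x ∧ Γ.t e = y) ∨ (Γ.s e = y ∧ Γ.t e = x)) {a b : E} (ha : a ∈ Γ.A) (hb : b ∈ Γ.A)
    (hne : a ≠ b) : Red_ga Γ x a - Red_ga Γ x b ∈ (hx : Set Lt) := by
  have hda : ∃ d : Da E, d.1 = a ∧ Γ.src d = x ∧ Γ.tgt d = y ∧ Γ.dg d = Red_ga Γ x a := by
    rcases hab a ha with ⟨h1, h2⟩ | ⟨h1, h2⟩
    · refine ⟨(a, true), rfl, ?_, ?_, ?_⟩
      · simpa [GG.src] using h1
      · simpa [GG.tgt] using h2
      · simp [GG.dg, Red_ga, h1]
    · refine ⟨(a, false), rfl, ?_, ?_, ?_⟩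
      · simpa [GG.src] using h2
      · simpa [GG.tgt] using h1
      · simp [GG.dg, Red_ga, h1, hxy.symm]
  have hdb : ∃ d : Da E, d.1 = b ∧ Γ.src d = x ∧ Γ.tgt d = y ∧ Γ.dg d = Red_ga Γ x b := by
    rcases hab b hb with ⟨h1, h2⟩ | ⟨h1, h2⟩
    · refine ⟨(b, true), rfl, ?_, ?_, ?_⟩
      · simpa [GG.src] using h1
      · simpa [GG.tgt] using h2
      · simp [GG.dg, Red_ga, h1]
    · refine ⟨(b, false), rfl, ?_, ?_, ?_⟩
      · simpa [GG.src] using h2
      · simpa [GG.tgt] using h1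
      · simp [GG.dg, Red_ga, h1, hxy.symm]
  obtain ⟨d, h1, h2, h3, h4⟩ := hda
  obtain ⟨d', h1', h2', h3', h4'⟩ := hdb
  have hp : Γ.Pt x [d] y := by
    refine ⟨⟨h1 ▸ ha, h2, h3⟩, ?_⟩
    simp [GG.vs, h3, hxy]
  have hp' : Γ.Pt x [d'] y := by
    refine ⟨⟨h1' ▸ hb, h2', h3'⟩, ?_⟩
    simp [GG.vs, h3', hxy]
  have hcy : Γ.Cy x y [d] [d'] := by
    refine ⟨hxy, hp, hp', ?_⟩
    intro z hz _
    simpa [GG.vs, h3] using hz
  have h5 := hΦ x y _ _ hcy
  have h6 : Γ.gn [d] - Γ.gn [d'] = Red_ga Γ x a - Red_ga Γ x b := by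
    simp [GG.gn, h4, h4']
  rw [h6] at h5
  rcases h5 with h5 | h5
  · exfalso
    apply hN a ha b hb hne
    have h7 : Red_ga Γ x a = Red_ga Γ x b := sub_eq_zero.1 h5
    rcases hab a ha with ⟨e1, e2⟩ | ⟨e1, e2⟩
    · rcases hab b hb with ⟨e3, e4⟩ | ⟨e3, e4⟩
      · left
        refine ⟨by rw [e1, e3], by rw [e2, e4], ?_⟩
        simp only [Red_ga, e1, e3, if_true] at h7
        exact h7.symm
      · right
        refine ⟨by rw [e2, e3], by rw [e1, e4], ?_⟩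
        simp only [Red_ga, e1, e3, if_true, hxy.symm, if_false] at h7
        rw [h7, neg_neg]
    · rcases hab b hb with ⟨e3, e4⟩ | ⟨e3, e4⟩
      · right
        refine ⟨by rw [e2, e3], by rw [e1, e4], ?_⟩
        simp only [Red_ga, e1, e3, if_true, hxy.symm, if_false] at h7
        exact h7.symm
      · left
        refine ⟨by rw [e1, e3], by rw [e2, e4], ?_⟩
        simp only [Red_ga, e1, e3, hxy.symm, if_false] at h7
        exact (neg_inj.1 h7).symm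
  · exact h5

theorem two_vertices (hω : ω ^ 2 + ω + 1 = 0) (h3 : (3 : k) ≠ 0) (hΓ : Γ.C2) (hΦ : Γ.Phi (hx : Set Lt)) (hc : ¬ Γ.Cyc)
    (hN : Γ.ND) (h2 : Γ.nV ≤ 2) : HasH ω Γ := by
  obtain ⟨e₁, he₁⟩ := hΓ.ne
  obtain ⟨x, hx'⟩ : ∃ x, x = Γ.s e₁ := ⟨_, rfl⟩
  obtain ⟨y, hy'⟩ : ∃ y, y = Γ.t e₁ := ⟨_, rfl⟩
  have hxy : x ≠ y := by
    rw [hx', hy']
    exact hΓ.lf e₁ he₁
  have hfin : Γ.VS.Finite := VS_finite
  have hxV : x ∈ Γ.VS := ⟨e₁, he₁, Or.inl hx'.symm⟩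
  have hyV : y ∈ Γ.VS := ⟨e₁, he₁, Or.inr hy'.symm⟩
  have hVS : ∀ z ∈ Γ.VS, z = x ∨ z = y := by
    have h4 : ({x, y} : Set V) ⊆ Γ.VS := by
      rintro z (rfl | rfl)
      · exact hxV
      · exact hyV
    have h5 : ({x, y} : Set V) = Γ.VS := by
      apply Set.eq_of_subset_of_ncard_le h4 _ hfin
      rw [Set.ncard_pair hxy]
      exact h2
    intro z hz
    rw [← h5] at hz
    exact hz
  have hab : ∀ e ∈ Γ.A, (Γ.s e = x ∧ Γ.t e = y) ∨ (Γ.s e = y ∧ Γ.t e = x) := by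
    intro e he
    have h4 := hVS _ (⟨e, he, Or.inl rfl⟩ : Γ.s e ∈ Γ.VS)
    have h5 := hVS _ (⟨e, he, Or.inr rfl⟩ : Γ.t e ∈ Γ.VS)
    have h6 := hΓ.lf e he
    rcases h4 with h4 | h4 <;> rcases h5 with h5 | h5
    · exact absurd (h4.trans h5.symm) h6
    · exact Or.inl ⟨h4, h5⟩
    · exact Or.inr ⟨h4, h5⟩
    · exact absurd (h4.trans h5.symm) h6
  have hex : ∀ a b : E, ∃ e ∈ Γ.A, e ≠ a ∧ e ≠ b := by
    intro a b
    by_contra hcon
    push Not at hcon
    apply hc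
    have h4 : (Γ.on Γ.A).Cyc := by
      refine Red_cyc (a := a) (b := b) hxy (fun e he => ?_) hab
      by_cases h5 : e = a
      · exact Or.inl h5
      · exact Or.inr (hcon e he h5)
    exact h4
  obtain ⟨e₂, he₂, h21, -⟩ := hex e₁ e₁
  obtain ⟨e₃, he₃, h31, h32⟩ := hex e₁ e₂
  have hD := fun {a b : E} (ha : a ∈ Γ.A) (hb : b ∈ Γ.A) (hne : a ≠ b) =>
    Red_dif hΦ hN hxy hab ha hb hne
  have hD' : ∀ {a b : E}, a ∈ Γ.A → b ∈ Γ.A → Red_ga Γ x a - Red_ga Γ x b = 0 ∨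
      Red_ga Γ x a - Red_ga Γ x b ∈ (hx : Set Lt) := by
    intro a b ha hb
    by_cases h4 : a = b
    · left
      rw [h4, sub_self]
    · right
      exact hD ha hb h4
  have hinj : ∀ {a b : E}, a ∈ Γ.A → b ∈ Γ.A → Red_ga Γ x a = Red_ga Γ x b → a = b := by
    intro a b ha hb h4
    by_contra h5
    have h6 := hD ha hb h5
    rw [h4, sub_self] at h6
    exact fund_hx.zero h6
  have hall : ∀ e ∈ Γ.A, e = e₁ ∨ e = e₂ ∨ e = e₃ := by
    intro e he
    have h4 := fund_hx.k4 (Red_ga Γ x e₂ - Red_ga Γ x e₁) (hD he₂ he₁ h21)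
      (Red_ga Γ x e₃ - Red_ga Γ x e₁) (hD he₃ he₁ h31)
      (by rw [sub_sub_sub_cancel_right]; exact hD he₂ he₃ h32.symm)
      (Red_ga Γ x e - Red_ga Γ x e₁) (hD' he he₁)
      (by rw [sub_sub_sub_cancel_right]; exact hD' he he₂)
      (by rw [sub_sub_sub_cancel_right]; exact hD' he he₃)
    rcases h4 with h4 | h4 | h4
    · exact Or.inl (hinj he he₁ (sub_eq_zero.1 h4))
    · exact Or.inr (Or.inl (hinj he he₂ (sub_left_inj.1 h4)))
    · exact Or.inr (Or.inr (hinj he he₃ (sub_left_inj.1 h4)))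
  refine delta_class hω h3 hΓ hΦ hc he₃ (Red_cyc (a := e₁) (b := e₂) hxy (fun e he => ?_)
    fun e he => hab e (Finset.mem_of_mem_erase he))
  rcases hall e (Finset.mem_of_mem_erase he) with h4 | h4 | h4
  · exact Or.inl h4
  · exact Or.inr h4
  · exact absurd h4 (Finset.ne_of_mem_erase he)

end Pool.Agent.FRM
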