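import Pool.Agent.FRM.Cb1
import Pool.Agent.FRM.Ear1

/-!
# FRM/Sw: switching

`Γ.sw p` has the same edges, ends, walks, paths and cycles as `Γ`; `(Γ.sw p).gn l = Γ.gn l + p x - p y` for a walk `l` from `x` to `y`.
For cochains: `v ↦ (e ↦ ch (p (s e)) * v e)` maps `Zc` to `Zc`, `Cob` to `Cob`, and `tv` of a walk from `x` is multiplied by `ch (p x)`.
-/

set_option autoImplicit false

noncomputable section

open scoped Classical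

namespace Pool.Agent.FRM

open GG

section Gen

variable {V E Q : Type} [AddCommGroup Q] {Γ : GG V E Q} (p : V → Q)

theorem sw_wk {x y : V} {l : List (Da E)} : (Γ.sw p).Wk x l y ↔ Γ.Wk x l y := by
  induction l generalizing x with
  | nil => exact Iff.rfl
  | cons d l ih => exact and_congr Iff.rfl (and_congr Iff.rfl ih)

theorem sw_vs (x : V) (l : List (Da E)) : (Γ.sw p).vs x l = Γ.vs x l := rfl

theorem sw_pt {x y : V} {l : List (Da E)} : (Γ.sw p).Pt x l y ↔ Γ.Pt x l y :=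
  and_congr (sw_wk p) Iff.rfl

theorem sw_cy {x y : V} {P P' : List (Da E)} : (Γ.sw p).Cy x y P P' ↔ Γ.Cy x y P P' :=
  ⟨fun h => ⟨h.ne, (sw_pt p).1 h.p, (sw_pt p).1 h.p', h.dj⟩,
    fun h => ⟨h.ne, (sw_pt p).2 h.p, (sw_pt p).2 h.p', h.dj⟩⟩

theorem sw_VS : (Γ.sw p).VS = Γ.VS := rfl

theorem sw_nV : (Γ.sw p).nV = Γ.nV := rfl

private theorem Sw_dg (d : Da E) : (Γ.sw p).dg d = Γ.dg d + p (Γ.src d) - p (Γ.tgt d) := by
  obtain ⟨e, s⟩ := d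
  cases s
  · show -(Γ.g e + p (Γ.s e) - p (Γ.t e)) = -Γ.g e + p (Γ.t e) - p (Γ.s e)
    abel
  · rfl

theorem sw_gn {x y : V} {l : List (Da E)} (h : Γ.Wk x l y) : (Γ.sw p).gn l = Γ.gn l + p x - p y := by
  induction l generalizing x with
  | nil =>
    have h1 : x = y := h
    subst h1
    show (0 : Q) = 0 + p x - p x
    abel
  | cons d l ih =>
    obtain ⟨_, h2, h3⟩ := h
    show (Γ.sw p).dg d + (Γ.sw p).gn l = Γ.dg d + Γ.gn l + p x - p y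
    rw [ih h3, Sw_dg, h2]
    abel

theorem sw_C2 : (Γ.sw p).C2 ↔ Γ.C2 := by
  constructor
  · intro h
    refine ⟨h.ne, h.lf, fun x hx y hy => ?_, fun z x hx y hy hxz hyz => ?_⟩
    · obtain ⟨l, hl⟩ := h.con x hx y hy
      exact ⟨l, (sw_wk p).1 hl⟩
    · obtain ⟨l, hl, hz⟩ := h.cut z x hx y hy hxz hyz
      exact ⟨l, (sw_wk p).1 hl, hz⟩
  · intro h
    refine ⟨h.ne, h.lf, fun x hx y hy => ?_, fun z x hx y hy hxz hyz => ?_⟩
    · obtain ⟨l, hl⟩ := h.con x hx y hy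
      exact ⟨l, (sw_wk p).2 hl⟩
    · obtain ⟨l, hl, hz⟩ := h.cut z x hx y hy hxz hyz
      exact ⟨l, (sw_wk p).2 hl, hz⟩

theorem sw_C3 : (Γ.sw p).C3 ↔ Γ.C3 := by
  constructor
  · intro h z z' x hx y hy h1 h2 h3 h4
    obtain ⟨l, hl, hz⟩ := h z z' x hx y hy h1 h2 h3 h4
    exact ⟨l, (sw_wk p).1 hl, hz⟩
  · intro h z z' x hx y hy h1 h2 h3 h4
    obtain ⟨l, hl, hz⟩ := h z z' x hx y hy h1 h2 h3 h4
    exact ⟨l, (sw_wk p).2 hl, hz⟩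

private theorem Sw_gncy {x y : V} {P P' : List (Da E)} (h : Γ.Cy x y P P') :
    (Γ.sw p).gn P - (Γ.sw p).gn P' = Γ.gn P - Γ.gn P' := by
  rw [sw_gn p h.p.1, sw_gn p h.p'.1]
  abel

theorem sw_Phi {Φ : Set Q} : (Γ.sw p).Phi Φ ↔ Γ.Phi Φ := by
  constructor
  · intro h x y P P' hc
    have h1 := h x y P P' ((sw_cy p).2 hc)
    rwa [Sw_gncy p hc] at h1
  · intro h x y P P' hc
    have hc' := (sw_cy p).1 hc
    have h1 := h x y P P' hc'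
    rwa [← Sw_gncy p hc'] at h1

theorem sw_InS {S : AddSubgroup Q} : (Γ.sw p).InS S ↔ Γ.InS S := by
  constructor
  · rintro ⟨q, hq⟩
    refine ⟨fun v => p v + q v, fun e he => ?_⟩
    have h1 : Γ.g e + p (Γ.s e) - p (Γ.t e) + q (Γ.s e) - q (Γ.t e) ∈ S := hq e he
    have h2 : Γ.g e + (p (Γ.s e) + q (Γ.s e)) - (p (Γ.t e) + q (Γ.t e)) =
        Γ.g e + p (Γ.s e) - p (Γ.t e) + q (Γ.s e) - q (Γ.t e) := by abel
    show Γ.g e + (p (Γ.s e) + q (Γ.s e)) - (p (Γ.t e) + q (Γ.t e)) ∈ S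
    rw [h2]
    exact h1
  · rintro ⟨q, hq⟩
    refine ⟨fun v => q v - p v, fun e he => ?_⟩
    have h1 : Γ.g e + q (Γ.s e) - q (Γ.t e) ∈ S := hq e he
    have h2 : Γ.g e + p (Γ.s e) - p (Γ.t e) + (q (Γ.s e) - p (Γ.s e)) - (q (Γ.t e) - p (Γ.t e)) =
        Γ.g e + q (Γ.s e) - q (Γ.t e) := by abel
    show Γ.g e + p (Γ.s e) - p (Γ.t e) + (q (Γ.s e) - p (Γ.s e)) - (q (Γ.t e) - p (Γ.t e)) ∈ S
    rw [h2]
    exact h1

theorem sw_Cyc : (Γ.sw p).Cyc ↔ Γ.Cyc :=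
  ⟨fun ⟨g, hg⟩ => ⟨g, (sw_InS p).1 hg⟩, fun ⟨g, hg⟩ => ⟨g, (sw_InS p).2 hg⟩⟩

theorem sw_Pfree {e : E} : (Γ.sw p).Pfree e ↔ Γ.Pfree e := Iff.rfl

private theorem Sw_Par {f f' : E} : (Γ.sw p).Par f f' ↔ Γ.Par f f' := by
  have h1 : (Γ.sw p).Par f f' ↔ (Γ.s f' = Γ.s f ∧ Γ.t f' = Γ.t f ∧
      Γ.g f' + p (Γ.s f') - p (Γ.t f') = Γ.g f + p (Γ.s f) - p (Γ.t f)) ∨
      (Γ.s f' = Γ.t f ∧ Γ.t f' = Γ.s f ∧
      Γ.g f' + p (Γ.s f') - p (Γ.t f') = -(Γ.g f + p (Γ.s f) - p (Γ.t f))) := Iff.rfl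
  rw [h1]
  refine or_congr (and_congr_right fun h2 => and_congr_right fun h3 => ?_)
    (and_congr_right fun h2 => and_congr_right fun h3 => ?_)
  · rw [h2, h3, sub_left_inj, add_left_inj]
  · rw [h2, h3]
    have h4 : -(Γ.g f + p (Γ.s f) - p (Γ.t f)) = -Γ.g f + p (Γ.t f) - p (Γ.s f) := by abel
    rw [h4, sub_left_inj, add_left_inj]

theorem sw_ND : (Γ.sw p).ND ↔ Γ.ND := by
  constructor
  · intro h f hf f' hf' hne hp
    exact h f hf f' hf' hne ((Sw_Par p).2 hp)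
  · intro h f hf f' hf' hne hp
    exact h f hf f' hf' hne ((Sw_Par p).1 hp)

theorem sw_neg : (Γ.sw p).sw (-p) = Γ := by
  obtain ⟨A, s, t, g⟩ := Γ
  have h1 : (fun e => g e + p (s e) - p (t e) + (-p) (s e) - (-p) (t e)) = g := by
    funext e
    rw [Pi.neg_apply, Pi.neg_apply]
    abel
  show (⟨A, s, t, fun e => g e + p (s e) - p (t e) + (-p) (s e) - (-p) (t e)⟩ : GG V E Q) = ⟨A, s, t, g⟩
  rw [h1]

end Gen

section Coch

variable {V E : Type} {k : Type} [Field k] {ω : k} {Γ : GG V E Lt} (p : V → Lt)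

private theorem Sw_dv (hω : ω ^ 2 + ω + 1 = 0) (v : E → k) (d : Da E) :
    dv ω (Γ.sw p) (fun e => ch ω (p (Γ.s e)) * v e) d = ch ω (p (Γ.src d)) * dv ω Γ v d := by
  obtain ⟨e, s⟩ := d
  cases s
  · show -(ch ω (-(Γ.g e + p (Γ.s e) - p (Γ.t e))) * (ch ω (p (Γ.s e)) * v e)) =
      ch ω (p (Γ.t e)) * -(ch ω (-Γ.g e) * v e)
    have h1 : ch ω (-(Γ.g e + p (Γ.s e) - p (Γ.t e))) * ch ω (p (Γ.s e)) =
        ch ω (p (Γ.t e)) * ch ω (-Γ.g e) := by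
      rw [← ch_add hω, ← ch_add hω]
      congr 1
      abel
    linear_combination (-v e) * h1
  · rfl

theorem sw_tv (hω : ω ^ 2 + ω + 1 = 0) (v : E → k) {x y : V} {l : List (Da E)} (h : Γ.Wk x l y) :
    tv ω (Γ.sw p) (fun e => ch ω (p (Γ.s e)) * v e) l = ch ω (p x) * tv ω Γ v l := by
  induction l generalizing x with
  | nil =>
    show (0 : k) = ch ω (p x) * 0
    rw [mul_zero]
  | cons d l ih =>
    obtain ⟨_, h2, h3⟩ := h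
    show dv ω (Γ.sw p) (fun e => ch ω (p (Γ.s e)) * v e) d +
      ch ω ((Γ.sw p).dg d) * tv ω (Γ.sw p) (fun e => ch ω (p (Γ.s e)) * v e) l =
      ch ω (p x) * (dv ω Γ v d + ch ω (Γ.dg d) * tv ω Γ v l)
    rw [ih h3, Sw_dv p hω, Sw_dg, h2]
    have h1 : ch ω (Γ.dg d + p x - p (Γ.tgt d)) * ch ω (p (Γ.tgt d)) = ch ω (p x) * ch ω (Γ.dg d) := by
      rw [← ch_add hω, ← ch_add hω]
      congr 1
      abel
    linear_combination (tv ω Γ v l) * h1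

private theorem Sw_gnEq {x y : V} {P P' : List (Da E)} (h : Γ.Cy x y P P') :
    (Γ.sw p).gn P = (Γ.sw p).gn P' ↔ Γ.gn P = Γ.gn P' := by
  rw [← sub_eq_zero, Sw_gncy p h, sub_eq_zero]

private theorem Sw_tvEq (hω : ω ^ 2 + ω + 1 = 0) (v : E → k) {x y : V} {P P' : List (Da E)} (h : Γ.Cy x y P P') :
    tv ω (Γ.sw p) (fun e => ch ω (p (Γ.s e)) * v e) P = tv ω (Γ.sw p) (fun e => ch ω (p (Γ.s e)) * v e) P' ↔
      tv ω Γ v P = tv ω Γ v P' := by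
  rw [sw_tv p hω v h.p.1, sw_tv p hω v h.p'.1]
  exact ⟨fun h1 => mul_left_cancel₀ (ch_ne_zero hω _) h1, fun h1 => by rw [h1]⟩

theorem sw_Zc (hω : ω ^ 2 + ω + 1 = 0) (v : E → k) :
    Zc ω (Γ.sw p) (fun e => ch ω (p (Γ.s e)) * v e) ↔ Zc ω Γ v := by
  constructor
  · intro h x y P P' hc hg
    exact (Sw_tvEq p hω v hc).1 (h x y P P' ((sw_cy p).2 hc) ((Sw_gnEq p hc).2 hg))
  · intro h x y P P' hc hg
    have hc' := (sw_cy p).1 hc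
    exact (Sw_tvEq p hω v hc').2 (h x y P P' hc' ((Sw_gnEq p hc').1 hg))

theorem sw_Cob (hω : ω ^ 2 + ω + 1 = 0) (v : E → k) :
    Cob ω (Γ.sw p) (fun e => ch ω (p (Γ.s e)) * v e) ↔ Cob ω Γ v := by
  have key : ∀ f : E, ch ω (Γ.g f + p (Γ.s f) - p (Γ.t f)) * ch ω (p (Γ.t f)) =
      ch ω (p (Γ.s f)) * ch ω (Γ.g f) := fun f => by
    rw [← ch_add hω, ← ch_add hω]
    congr 1
    abel
  constructor
  · rintro ⟨c, hc⟩
    refine ⟨fun z => ch ω (-p z) * c z, fun f hf => ?_⟩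
    have h1 : ch ω (p (Γ.s f)) * v f = c (Γ.s f) - ch ω (Γ.g f + p (Γ.s f) - p (Γ.t f)) * c (Γ.t f) := hc f hf
    have h2 := key f
    have h3 : ∀ z, ch ω (p z) * ch ω (-p z) = 1 := fun z => by
      rw [← ch_add hω, add_neg_cancel, ch_zero]
    apply mul_left_cancel₀ (ch_ne_zero hω (p (Γ.s f)))
    show ch ω (p (Γ.s f)) * v f =
      ch ω (p (Γ.s f)) * (ch ω (-p (Γ.s f)) * c (Γ.s f) - ch ω (Γ.g f) * (ch ω (-p (Γ.t f)) * c (Γ.t f)))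
    linear_combination h1 - c (Γ.s f) * h3 (Γ.s f) -
      (ch ω (-p (Γ.t f)) * c (Γ.t f)) * h2 + (ch ω (Γ.g f + p (Γ.s f) - p (Γ.t f)) * c (Γ.t f)) * h3 (Γ.t f)
  · rintro ⟨c, hc⟩
    refine ⟨fun z => ch ω (p z) * c z, fun f hf => ?_⟩
    have h1 := hc f hf
    have h2 := key f
    show ch ω (p (Γ.s f)) * v f =
      ch ω (p (Γ.s f)) * c (Γ.s f) - ch ω (Γ.g f + p (Γ.s f) - p (Γ.t f)) * (ch ω (p (Γ.t f)) * c (Γ.t f))
    linear_combination (ch ω (p (Γ.s f))) * h1 + c (Γ.t f) * h2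

theorem sw_Bad (hω : ω ^ 2 + ω + 1 = 0) (v : E → k) {u w : V} {R R' : List (Da E)} :
    Bad ω (Γ.sw p) (fun e => ch ω (p (Γ.s e)) * v e) u w R R' ↔ Bad ω Γ v u w R R' := by
  constructor
  · intro h
    have hc := (sw_cy p).1 h.cy
    exact ⟨hc, (Sw_gnEq p hc).1 h.gn, fun h1 => h.tv ((Sw_tvEq p hω v hc).2 h1)⟩
  · intro h
    exact ⟨(sw_cy p).2 h.cy, (Sw_gnEq p h.cy).2 h.gn, fun h1 => h.tv ((Sw_tvEq p hω v h.cy).1 h1)⟩

theorem sw_HasH (hω : ω ^ 2 + ω + 1 = 0) : HasH ω (Γ.sw p) ↔ HasH ω Γ := by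
  constructor
  · rintro ⟨v, h1, h2⟩
    have h3 : v = fun e => ch ω (p (Γ.s e)) * (ch ω (-p (Γ.s e)) * v e) := by
      funext e
      rw [← mul_assoc, ← ch_add hω, add_neg_cancel, ch_zero, one_mul]
    rw [h3] at h1 h2
    exact ⟨fun e => ch ω (-p (Γ.s e)) * v e, (sw_Zc p hω _).1 h1, fun h4 => h2 ((sw_Cob p hω _).2 h4)⟩
  · rintro ⟨v, h1, h2⟩
    exact ⟨fun e => ch ω (p (Γ.s e)) * v e, (sw_Zc p hω v).2 h1, fun h4 => h2 ((sw_Cob p hω v).1 h4)⟩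

theorem sw_IH : IH ω (Γ.sw p) ↔ IH ω Γ := Iff.rfl

end Coch

end Pool.Agent.FRM
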