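import Pool.Agent.FRM.Ear1

/-!
# FRM/Tut: deletion or contraction keeps 2-connectedness

PROOF PLAN.  If `f` has a parallel edge `f'` then `Γ - f` is `C2` (replace `f` by `f'` in walks).  Otherwise suppose `Γ.con f` is not `C2`.  It is nonempty (`3 ≤ nV`), loopless
(`f` has no parallel edge) and connected (images of walks), so it has a cut vertex `q`, with `x, y ≠ q` not joined by a walk avoiding `q`.  If `q ≠ s f` (the
merged vertex) a walk of `Γ` from `x` to `y` avoiding `q` maps to such a walk (if `x` or `y` is the merged vertex choose the end `s f`): contradiction.  So `q = s f` and no walk of `Γ`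
from `x` to `y` avoids both `u = s f` and `w = t f`.  Claim: `Γ - f` is `C2`.  For a vertex `z` and a walk in `Γ - z` which uses `f` (so `z ≠ u, w`) it is enough to find a walk from `u` to
`w` that avoids `z` and `f`.  `z` is not joined to both `x` and `y` in `Γ - {u, w}`; say not to `x`.  A walk from `x` to `u` avoiding `w` (`cut` at `w`), cut at the first visit of `u`, stays until
then in the component of `x` in `Γ - {u, w}`, so avoids `z` (and does not use `f`); the same for `x` to `w` avoiding `u`.  Join them.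
(For connectedness `con` of `Γ - f` use the same walk without a condition on `z`, e.g. `z` any vertex not in question.)
-/

set_option autoImplicit false
set_option linter.unusedSectionVars false

noncomputable section

open scoped Classical

namespace Pool.Agent.FRM

open GG

variable {V E Q : Type} [AddCommGroup Q] {Γ : GG V E Q}

private theorem Tut_third (h3 : 3 ≤ Γ.nV) (u w : V) : ∃ z ∈ Γ.VS, z ≠ u ∧ z ≠ w := by
  by_contra hcon
  have hsub : Γ.VS ⊆ {u, w} := by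
    intro z hz
    by_contra h
    apply hcon
    refine ⟨z, hz, ?_, ?_⟩
    · rintro rfl
      exact h (Set.mem_insert _ _)
    · rintro rfl
      exact h (Set.mem_insert_of_mem _ rfl)
  have h1 : Γ.VS.ncard ≤ ({u, w} : Set V).ncard := Set.ncard_le_ncard hsub (Set.toFinite _)
  have h2 : ({u, w} : Set V).ncard ≤ 2 :=
    (Set.ncard_insert_le u {w}).trans (by rw [Set.ncard_singleton])
  have h4 : 3 ≤ Γ.VS.ncard := h3
  omega

private theorem Tut_ends (Γ : GG V E Q) (d : Da E) :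
    (Γ.src d = Γ.s d.1 ∧ Γ.tgt d = Γ.t d.1) ∨ (Γ.src d = Γ.t d.1 ∧ Γ.tgt d = Γ.s d.1) := by
  rcases d with ⟨e, b⟩
  cases b
  · exact Or.inr ⟨rfl, rfl⟩
  · exact Or.inl ⟨rfl, rfl⟩

private theorem Tut_repl {f : E} {z : V} {q : List (Da E)}
    (hq : (Γ.on (Γ.A.erase f)).Wk (Γ.s f) q (Γ.t f)) (hzq : z ∉ Γ.vs (Γ.s f) q) {x y : V}
    {l : List (Da E)} (hl : Γ.Wk x l y) (hz : z ∉ Γ.vs x l) :
    ∃ l', (Γ.on (Γ.A.erase f)).Wk x l' y ∧ z ∉ Γ.vs x l' := by
  induction l generalizing x with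
  | nil => exact ⟨[], hl, hz⟩
  | cons d l ih =>
    obtain ⟨h1, h2, h3⟩ := hl
    have hz' : z ∉ x :: Γ.vs (Γ.tgt d) l := hz
    rw [List.mem_cons, not_or] at hz'
    obtain ⟨l', h4, h5⟩ := ih h3 hz'.2
    by_cases hd : d.1 = f
    · rcases Tut_ends Γ d with ⟨h6, h7⟩ | ⟨h6, h7⟩
      · rw [hd] at h6 h7
        have hx : x = Γ.s f := h2.symm.trans h6
        rw [h7] at h4 h5
        subst hx
        refine ⟨q ++ l', wk_append.2 ⟨Γ.t f, hq, h4⟩, ?_⟩
        intro h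
        rcases (mem_vs_append (Γ := Γ.on (Γ.A.erase f)) hq).1 h with h | h
        · exact hzq h
        · exact h5 h
      · rw [hd] at h6 h7
        have hx : x = Γ.t f := h2.symm.trans h6
        rw [h7] at h4 h5
        subst hx
        refine ⟨rv q ++ l', wk_append.2 ⟨Γ.s f, wk_rv hq, h4⟩, ?_⟩
        intro h
        rcases (mem_vs_append (Γ := Γ.on (Γ.A.erase f)) (wk_rv hq)).1 h with h | h
        · exact hzq ((mem_vs_rv (Γ := Γ.on (Γ.A.erase f)) hq).1 h)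
        · exact h5 h
    · refine ⟨d :: l', ⟨Finset.mem_erase.2 ⟨hd, h1⟩, h2, h4⟩, ?_⟩
      intro h
      have h' : z ∈ x :: Γ.vs (Γ.tgt d) l' := h
      rcases List.mem_cons.1 h' with h | h
      · exact hz'.1 h
      · exact h5 h

private theorem Tut_erase {f : E} {x y : V} {l : List (Da E)} (hl : Γ.Wk x l y)
    (hz : Γ.s f ∉ Γ.vs x l ∨ Γ.t f ∉ Γ.vs x l) : (Γ.on (Γ.A.erase f)).Wk x l y := by
  refine (wk_on (Finset.erase_subset _ _)).2 ⟨hl, fun d hd => ?_⟩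
  obtain ⟨h1, h2, h3⟩ := wk_mem hl d hd
  refine Finset.mem_erase.2 ⟨?_, h1⟩
  intro hdf
  rcases Tut_ends Γ d with ⟨h6, h7⟩ | ⟨h6, h7⟩
  · rw [h6, hdf] at h2
    rw [h7, hdf] at h3
    rcases hz with hz | hz
    · exact hz h2
    · exact hz h3
  · rw [h6, hdf] at h2
    rw [h7, hdf] at h3
    rcases hz with hz | hz
    · exact hz h3
    · exact hz h2

private theorem Tut_del (hΓ : Γ.C2) (h3 : 3 ≤ Γ.nV) {f : E}
    (H : ∀ z, z ≠ Γ.s f → z ≠ Γ.t f →
      ∃ q, (Γ.on (Γ.A.erase f)).Wk (Γ.s f) q (Γ.t f) ∧ z ∉ Γ.vs (Γ.s f) q) :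
    (Γ.on (Γ.A.erase f)).C2 := by
  obtain ⟨z0, hz0, hz0s, hz0t⟩ := Tut_third h3 (Γ.s f) (Γ.t f)
  have hVS : ∀ x ∈ (Γ.on (Γ.A.erase f)).VS, x ∈ Γ.VS := by
    rintro x ⟨e, he, hx⟩
    exact ⟨e, (Finset.mem_erase.1 he).2, hx⟩
  have hcut : ∀ z, ∀ x ∈ (Γ.on (Γ.A.erase f)).VS, ∀ y ∈ (Γ.on (Γ.A.erase f)).VS, x ≠ z → y ≠ z →
      ∃ l, (Γ.on (Γ.A.erase f)).Wk x l y ∧ z ∉ (Γ.on (Γ.A.erase f)).vs x l := by
    intro z x hx y hy hxz hyz
    obtain ⟨l, hl, hzl⟩ := hΓ.cut z x (hVS x hx) y (hVS y hy) hxz hyz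
    by_cases h1 : z = Γ.s f
    · subst h1
      exact ⟨l, Tut_erase hl (Or.inl hzl), hzl⟩
    · by_cases h2 : z = Γ.t f
      · subst h2
        exact ⟨l, Tut_erase hl (Or.inr hzl), hzl⟩
      · obtain ⟨q, hq, hzq⟩ := H z h1 h2
        exact Tut_repl hq hzq hl hzl
  refine ⟨?_, ?_, ?_, hcut⟩
  · obtain ⟨e, he, h⟩ := hz0
    refine ⟨e, Finset.mem_erase.2 ⟨?_, he⟩⟩
    rintro rfl
    rcases h with h | h
    · exact hz0s h.symm
    · exact hz0t h.symm
  · intro e he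
    exact hΓ.lf e (Finset.mem_erase.1 he).2
  · intro x hx y hy
    obtain ⟨q, hq, _⟩ := H z0 hz0s hz0t
    obtain ⟨l, hl⟩ := hΓ.con x (hVS x hx) y (hVS y hy)
    -- replace `f` in the walk
    have key : ∀ (l : List (Da E)) (x : V), Γ.Wk x l y → ∃ l', (Γ.on (Γ.A.erase f)).Wk x l' y := by
      intro l
      induction l with
      | nil => exact fun x hl => ⟨[], hl⟩
      | cons d l ih =>
        intro x hl
        obtain ⟨h1, h2, h3⟩ := hl
        obtain ⟨l', h4⟩ := ih _ h3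
        by_cases hd : d.1 = f
        · rcases Tut_ends Γ d with ⟨h6, h7⟩ | ⟨h6, h7⟩
          · rw [hd] at h6 h7
            rw [h7] at h4
            rw [← h2, h6]
            exact ⟨q ++ l', wk_append.2 ⟨Γ.t f, hq, h4⟩⟩
          · rw [hd] at h6 h7
            rw [h7] at h4
            rw [← h2, h6]
            exact ⟨rv q ++ l', wk_append.2 ⟨Γ.s f, wk_rv hq, h4⟩⟩
        · exact ⟨d :: l', ⟨Finset.mem_erase.2 ⟨hd, h1⟩, h2, h4⟩⟩
    exact key l x hl

private theorem Tut_cs (f : E) (d : Da E) : (Γ.con f).src d = Γ.cm f (Γ.src d) := by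
  rcases d with ⟨e, b⟩
  cases b <;> rfl

private theorem Tut_ct (f : E) (d : Da E) : (Γ.con f).tgt d = Γ.cm f (Γ.tgt d) := by
  rcases d with ⟨e, b⟩
  cases b <;> rfl

private theorem Tut_cmt (f : E) : Γ.cm f (Γ.t f) = Γ.s f := by
  unfold GG.cm
  rw [if_pos rfl]

private theorem Tut_cms (f : E) : Γ.cm f (Γ.s f) = Γ.s f := by
  unfold GG.cm
  split_ifs <;> rfl

private theorem Tut_cmn {f : E} {z : V} (hz : z ≠ Γ.t f) : Γ.cm f z = z := by
  unfold GG.cm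
  rw [if_neg hz]

private theorem Tut_cm_ne {f : E} (hl : Γ.s f ≠ Γ.t f) (z : V) : Γ.cm f z ≠ Γ.t f := by
  unfold GG.cm
  split_ifs with h
  · exact hl
  · exact h

private theorem Tut_img {f : E} {x y : V} {l : List (Da E)} (hl : Γ.Wk x l y) :
    ∃ l', (Γ.con f).Wk (Γ.cm f x) l' (Γ.cm f y) ∧
      ∀ z ∈ (Γ.con f).vs (Γ.cm f x) l', ∃ z' ∈ Γ.vs x l, Γ.cm f z' = z := by
  induction l generalizing x with
  | nil =>
    refine ⟨[], congrArg (Γ.cm f) hl, ?_⟩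
    intro z hz
    have hz' : z ∈ [Γ.cm f x] := hz
    rw [List.mem_singleton] at hz'
    exact ⟨x, List.mem_cons_self, hz'.symm⟩
  | cons d l ih =>
    obtain ⟨h1, h2, h3⟩ := hl
    obtain ⟨l', h4, h5⟩ := ih h3
    by_cases hd : d.1 = f
    · have hx : Γ.cm f (Γ.tgt d) = Γ.cm f x := by
        rw [← h2]
        rcases Tut_ends Γ d with ⟨h6, h7⟩ | ⟨h6, h7⟩
        · rw [h6, h7, hd, Tut_cmt, Tut_cms]
        · rw [h6, h7, hd, Tut_cmt, Tut_cms]
      rw [hx] at h4 h5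
      refine ⟨l', h4, fun z hz => ?_⟩
      obtain ⟨z', h6, h7⟩ := h5 z hz
      exact ⟨z', List.mem_cons_of_mem x h6, h7⟩
    · refine ⟨d :: l', ⟨Finset.mem_erase.2 ⟨hd, h1⟩, ?_, ?_⟩, ?_⟩
      · rw [Tut_cs, h2]
      · rw [Tut_ct]
        exact h4
      · intro z hz
        have hz' : z ∈ Γ.cm f x :: (Γ.con f).vs ((Γ.con f).tgt d) l' := hz
        rcases List.mem_cons.1 hz' with h | h
        · exact ⟨x, List.mem_cons_self, h.symm⟩
        · rw [Tut_ct] at h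
          obtain ⟨z', h6, h7⟩ := h5 z h
          exact ⟨z', List.mem_cons_of_mem x h6, h7⟩

/-- a path from `x` to `u` which avoids `w`, `z` and `f` -/
private theorem Tut_half (hΓ : Γ.C2) {f : E} {x z u w : V}
    (huw : (u = Γ.s f ∧ w = Γ.t f) ∨ (u = Γ.t f ∧ w = Γ.s f)) (hu : u ∈ Γ.VS) (hne : u ≠ w)
    (hx : x ∈ Γ.VS) (hxw : x ≠ w) (hzu : z ≠ u)
    (hno : ∀ l, Γ.Wk x l z → u ∈ Γ.vs x l ∨ w ∈ Γ.vs x l) :
    ∃ l, (Γ.on (Γ.A.erase f)).Wk x l u ∧ z ∉ Γ.vs x l := by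
  obtain ⟨l0, hl0, hw0⟩ := hΓ.cut w x hx u hu hxw hne
  obtain ⟨l, hl, hv, _⟩ := pt_of_wk hl0
  have hw : w ∉ Γ.vs x l := fun h => hw0 (hv w h)
  refine ⟨l, Tut_erase hl.1 ?_, ?_⟩
  · rcases huw with ⟨_, h⟩ | ⟨_, h⟩
    · right
      rw [← h]
      exact hw
    · left
      rw [← h]
      exact hw
  · intro hz
    obtain ⟨l₁, l₂, h1, h2, h3, h4⟩ := pt_split_at hl hz
    rcases hno l₁ h2.1 with h5 | h5
    · exact hzu (h4 u h5 (wk_last h3.1)).symm
    · apply hw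
      rw [h1]
      exact (mem_vs_append h2.1).2 (Or.inl h5)

theorem tutte (hΓ : Γ.C2) (h3 : 3 ≤ Γ.nV) {f : E} (hf : f ∈ Γ.A) :
    (Γ.on (Γ.A.erase f)).C2 ∨ (Γ.con f).C2 := by
  have hst : Γ.s f ≠ Γ.t f := hΓ.lf f hf
  have hsV : Γ.s f ∈ Γ.VS := ⟨f, hf, Or.inl rfl⟩
  have htV : Γ.t f ∈ Γ.VS := ⟨f, hf, Or.inr rfl⟩
  by_cases hpar : ∃ f' ∈ Γ.A, f' ≠ f ∧
      ((Γ.s f' = Γ.s f ∧ Γ.t f' = Γ.t f) ∨ (Γ.s f' = Γ.t f ∧ Γ.t f' = Γ.s f))
  · left
    obtain ⟨f', hf', hne, h⟩ := hpar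
    refine Tut_del hΓ h3 fun z hzs hzt => ?_
    have hmem : f' ∈ Γ.A.erase f := Finset.mem_erase.2 ⟨hne, hf'⟩
    have hz : z ∉ [Γ.s f, Γ.t f] := by
      intro h
      rcases List.mem_cons.1 h with h | h
      · exact hzs h
      · exact hzt (List.mem_singleton.1 h)
    rcases h with ⟨h1, h2⟩ | ⟨h1, h2⟩
    · refine ⟨[(f', true)], ⟨hmem, h1, h2⟩, ?_⟩
      intro h
      have h' : z ∈ [Γ.s f, Γ.t f'] := h
      rw [h2] at h'
      exact hz h'
    · refine ⟨[(f', false)], ⟨hmem, h2, h1⟩, ?_⟩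
      intro h
      have h' : z ∈ [Γ.s f, Γ.s f'] := h
      rw [h1] at h'
      exact hz h'
  · by_cases hcon : (Γ.con f).C2
    · exact Or.inr hcon
    left
    -- the vertices of the contraction
    have hVS : ∀ x ∈ (Γ.con f).VS, x ∈ Γ.VS ∧ x ≠ Γ.t f := by
      rintro x ⟨e, he, hx⟩
      have he' : e ∈ Γ.A := (Finset.mem_erase.1 he).2
      have hcm : ∀ z, z ∈ Γ.VS → Γ.cm f z ∈ Γ.VS := by
        intro z hz
        unfold GG.cm
        split_ifs
        · exact hsV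
        · exact hz
      rcases hx with hx | hx
      · have hx' : Γ.cm f (Γ.s e) = x := hx
        rw [← hx']
        exact ⟨hcm _ ⟨e, he', Or.inl rfl⟩, Tut_cm_ne hst _⟩
      · have hx' : Γ.cm f (Γ.t e) = x := hx
        rw [← hx']
        exact ⟨hcm _ ⟨e, he', Or.inr rfl⟩, Tut_cm_ne hst _⟩
    -- a cut vertex of the contraction
    have hcut : ¬ ∀ z, ∀ x ∈ (Γ.con f).VS, ∀ y ∈ (Γ.con f).VS, x ≠ z → y ≠ z →
        ∃ l, (Γ.con f).Wk x l y ∧ z ∉ (Γ.con f).vs x l := by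
      intro hc
      apply hcon
      refine ⟨?_, ?_, ?_, hc⟩
      · obtain ⟨z0, ⟨e, he, h⟩, hz0s, hz0t⟩ := Tut_third h3 (Γ.s f) (Γ.t f)
        refine ⟨e, Finset.mem_erase.2 ⟨?_, he⟩⟩
        rintro rfl
        rcases h with h | h
        · exact hz0s h.symm
        · exact hz0t h.symm
      · intro e he heq
        obtain ⟨hef, heA⟩ := Finset.mem_erase.1 he
        have heq' : Γ.cm f (Γ.s e) = Γ.cm f (Γ.t e) := heq
        have hlf := hΓ.lf e heA
        by_cases h1 : Γ.s e = Γ.t f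
        · by_cases h2 : Γ.t e = Γ.t f
          · exact hlf (h1.trans h2.symm)
          · rw [h1, Tut_cmt, Tut_cmn h2] at heq'
            exact hpar ⟨e, heA, hef, Or.inr ⟨h1, heq'.symm⟩⟩
        · by_cases h2 : Γ.t e = Γ.t f
          · rw [h2, Tut_cmt, Tut_cmn h1] at heq'
            exact hpar ⟨e, heA, hef, Or.inl ⟨heq', h2⟩⟩
          · rw [Tut_cmn h1, Tut_cmn h2] at heq'
            exact hlf heq'
      · intro x hx y hy
        obtain ⟨hx1, hx2⟩ := hVS x hx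
        obtain ⟨hy1, hy2⟩ := hVS y hy
        obtain ⟨l, hl⟩ := hΓ.con x hx1 y hy1
        obtain ⟨l', hl', _⟩ := Tut_img (f := f) hl
        rw [Tut_cmn hx2, Tut_cmn hy2] at hl'
        exact ⟨l', hl'⟩
    push Not at hcut
    obtain ⟨q, x, hx, y, hy, hxq, hyq, hno⟩ := hcut
    obtain ⟨hx1, hx2⟩ := hVS x hx
    obtain ⟨hy1, hy2⟩ := hVS y hy
    have hq : q = Γ.s f := by
      by_contra hqs
      obtain ⟨l, hl, hql⟩ := hΓ.cut q x hx1 y hy1 hxq hyq
      obtain ⟨l', hl', hv⟩ := Tut_img (f := f) hl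
      rw [Tut_cmn hx2, Tut_cmn hy2] at hl'
      rw [Tut_cmn hx2] at hv
      obtain ⟨z', hz', hzq⟩ := hv q (hno l' hl')
      by_cases h : z' = Γ.t f
      · rw [h, Tut_cmt] at hzq
        exact hqs hzq.symm
      · rw [Tut_cmn h] at hzq
        rw [hzq] at hz'
        exact hql hz'
    subst hq
    -- no walk from `x` to `y` avoids both ends of `f`
    have hno2 : ∀ l, Γ.Wk x l y → Γ.s f ∈ Γ.vs x l ∨ Γ.t f ∈ Γ.vs x l := by
      intro l hl
      by_contra hc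
      rw [not_or] at hc
      obtain ⟨l', hl', hv⟩ := Tut_img (f := f) hl
      rw [Tut_cmn hx2, Tut_cmn hy2] at hl'
      rw [Tut_cmn hx2] at hv
      obtain ⟨z', hz', hzq⟩ := hv _ (hno l' hl')
      by_cases h : z' = Γ.t f
      · rw [h] at hz'
        exact hc.2 hz'
      · rw [Tut_cmn h] at hzq
        rw [hzq] at hz'
        exact hc.1 hz'
    refine Tut_del hΓ h3 fun z hzs hzt => ?_
    -- one of `x`, `y` is not joined to `z`
    obtain ⟨x', hx'V, hx's, hx't, hx'no⟩ : ∃ x' ∈ Γ.VS, x' ≠ Γ.s f ∧ x' ≠ Γ.t f ∧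
        ∀ l, Γ.Wk x' l z → Γ.s f ∈ Γ.vs x' l ∨ Γ.t f ∈ Γ.vs x' l := by
      by_cases h1 : ∀ l, Γ.Wk x l z → Γ.s f ∈ Γ.vs x l ∨ Γ.t f ∈ Γ.vs x l
      · exact ⟨x, hx1, hxq, hx2, h1⟩
      · refine ⟨y, hy1, hyq, hy2, ?_⟩
        intro l hl
        by_contra hc
        rw [not_or] at hc
        push Not at h1
        obtain ⟨l1, hl1, h5, h6⟩ := h1
        rcases hno2 (l1 ++ rv l) (wk_append.2 ⟨z, hl1, wk_rv hl⟩) with h | h
        · rcases (mem_vs_append hl1).1 h with h | h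
          · exact h5 h
          · exact hc.1 ((mem_vs_rv hl).1 h)
        · rcases (mem_vs_append hl1).1 h with h | h
          · exact h6 h
          · exact hc.2 ((mem_vs_rv hl).1 h)
    obtain ⟨l1, h11, h12⟩ := Tut_half hΓ (f := f) (Or.inl ⟨rfl, rfl⟩) hsV hst hx'V hx't hzs hx'no
    obtain ⟨l2, h21, h22⟩ := Tut_half hΓ (f := f) (Or.inr ⟨rfl, rfl⟩) htV hst.symm hx'V hx's hzt
      (fun l hl => (hx'no l hl).symm)
    refine ⟨rv l1 ++ l2, wk_append.2 ⟨x', wk_rv h11, h21⟩, ?_⟩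
    intro h
    rcases (mem_vs_append (Γ := Γ.on (Γ.A.erase f)) (wk_rv h11)).1 h with h | h
    · exact h12 ((mem_vs_rv (Γ := Γ.on (Γ.A.erase f)) h11).1 h)
    · exact h22 h

end Pool.Agent.FRM
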