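import Pool.Agent.FRM.CsA
import Pool.Agent.FRM.Red
import Pool.Agent.FRM.Tut
import Pool.Agent.FRM.Sw

/-!
# FRM/Ham: bad cycles are Hamiltonian

PROOF PLAN.  Let `z` be a vertex which is not on the bad cycle.  The ends `x = s e`, `y = t e` are on it (`con_bal`), so `z ≠ x, y`.  Let `f` be an edge at `z` (`f ≠ e`); `f` is not an edge of the cycle and has an end outside it.  `Γ.con e` is `C2` with
`nV ≥ 3` (`con_C2`; its vertices are those of `Γ` without `y`).  `tutte` for `Γ.con e` and `f` (`f ∈ (Γ.con e).A`).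
First case: `(Γ.con e).on (..erase f)` is `C2`.  If `Γ - f` is `Cyc`, `delta_class` gives `HasH ω Γ`: contradiction.  Otherwise `IH` applies to `Γ - f` (`del_C2`, fewer edges; its `nV` is at most that of `Γ`), so `case_a` gives `f ∈ eds R ∪ eds R'`: contradiction.
Second case: `(Γ.con e).con f` is `C2`; so `f` has no parallel edge in `Γ.con e`, hence none in `Γ` (`Pfree`).  Switch at `z` (`p = Pi.single z (± g f)`) to make `g f = 0`; this does not change `g e`, `Bad`, ... (`Sw`; the cochain becomes `ch (p (s _)) * v _`; note `(Γ.con e).sw p` versus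
`(Γ.sw p).con e`: equal because `p x = p y = 0`).  `Γ.con f` is `C2` (`con_C2`), `Phi`, not `Cyc`, has fewer vertices: `IH`; `case_b` says that both ends of `f` are on the cycle: contradiction.
-/

set_option autoImplicit false

noncomputable section

open scoped Classical

namespace Pool.Agent.FRM

open GG

variable {V E : Type} {k : Type} [Field k] {ω : k} {Γ : GG V E Lt}


private theorem Ham_wk {W F Q : Type} [AddCommGroup Q] (A : Finset F) (s t : F → W) (g g' : F → Q) :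
    ∀ (l : List (Da F)) (x y : W), (GG.mk A s t g).Wk x l y → (GG.mk A s t g').Wk x l y := by
  intro l
  induction l with
  | nil => intro x y h; exact h
  | cons d l ih =>
    intro x y h
    exact ⟨h.1, h.2.1, ih _ _ h.2.2⟩

private theorem Ham_c2 {W F Q : Type} [AddCommGroup Q] (A : Finset F) (s t : F → W) (g g' : F → Q)
    (h : (GG.mk A s t g).C2) : (GG.mk A s t g').C2 := by
  refine ⟨h.ne, h.lf, ?_, ?_⟩
  · intro x hx y hy
    obtain ⟨l, hl⟩ := h.con x hx y hy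
    exact ⟨l, Ham_wk A s t g g' l x y hl⟩
  · intro z x hx y hy hxz hyz
    obtain ⟨l, hl, hz⟩ := h.cut z x hx y hy hxz hyz
    exact ⟨l, Ham_wk A s t g g' l x y hl, hz⟩

private theorem Ham_on (hω : ω ^ 2 + ω + 1 = 0) (hΓ : Γ.C2) {e : E} (he : e ∈ Γ.A) (hp : Γ.Pfree e)
    (hg : Γ.g e = 0) {v : E → k} (hv : Zc ω (Γ.con e) v) (hve : v e = 0) {u w : V}
    {R R' : List (Da E)} (hb : Bad ω Γ v u w R R') :
    (e ∉ eds R ∧ e ∉ eds R') ∧ (Γ.s e ∈ Γ.vs u R ∨ Γ.s e ∈ Γ.vs u R') ∧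
      (Γ.t e ∈ Γ.vs u R ∨ Γ.t e ∈ Γ.vs u R') := by
  have h1 := mt (con_bal hω he (hΓ.lf e he) hp hg hve hv hb.cy hb.gn) hb.tv
  rw [not_or, not_or, not_not] at h1
  exact ⟨h1.1, h1.2.1, h1.2.2⟩

private theorem Ham_ends {x y : V} {l : List (Da E)} (h : Γ.Wk x l y) {f : E} (hf : f ∈ eds l) :
    Γ.s f ∈ Γ.vs x l ∧ Γ.t f ∈ Γ.vs x l := by
  obtain ⟨d, hd, rfl⟩ := (mem_eds f l).1 hf
  obtain ⟨-, h1, h2⟩ := wk_mem h d hd
  rcases d with ⟨f, b⟩
  cases b with
  | false => exact ⟨h2, h1⟩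
  | true => exact ⟨h1, h2⟩

theorem bad_ham (hω : ω ^ 2 + ω + 1 = 0) (h3 : (3 : k) ≠ 0) (hΓ : Γ.C2) (hC : Γ.C3) (h4 : 4 ≤ Γ.nV) (hΦ : Γ.Phi (hx : Set Lt)) (hc : ¬ Γ.Cyc)
    (hI : IH ω Γ) (hH : ¬ HasH ω Γ) {e : E} (he : e ∈ Γ.A) (hp : Γ.Pfree e) (hg : Γ.g e = 0) {v : E → k} (hv : Zc ω (Γ.con e) v)
    (hve : v e = 0) {u w : V} {R R' : List (Da E)} (hb : Bad ω Γ v u w R R') :
    ∀ z ∈ Γ.VS, z ∈ Γ.vs u R ∨ z ∈ Γ.vs u R' := by
  intro z hz
  by_contra hcon
  rw [not_or] at hcon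
  obtain ⟨-, hse, hte⟩ := Ham_on hω hΓ he hp hg hv hve hb
  have hzs : Γ.s e ≠ z := by
    rintro rfl
    exact hse.elim hcon.1 hcon.2
  have hzt : Γ.t e ≠ z := by
    rintro rfl
    exact hte.elim hcon.1 hcon.2
  obtain ⟨f, hf, hfz⟩ := hz
  have hfe : f ≠ e := by
    rintro rfl
    exact hfz.elim hzs hzt
  have hfR : f ∉ eds R := by
    intro h
    have h1 := Ham_ends hb.cy.p.1 h
    rcases hfz with rfl | rfl
    · exact hcon.1 h1.1
    · exact hcon.1 h1.2
  have hfR' : f ∉ eds R' := by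
    intro h
    have h1 := Ham_ends hb.cy.p'.1 h
    rcases hfz with rfl | rfl
    · exact hcon.2 h1.1
    · exact hcon.2 h1.2
  have hcC : (Γ.con e).C2 := con_C2 hΓ hC h4 he hp
  have hn := con_nV_eq hΓ (by omega) he
  have hfA : f ∈ (Γ.con e).A := Finset.mem_erase.2 ⟨hfe, hf⟩
  rcases tutte hcC (by omega) hfA with h₄ | h₄
  · -- deletion
    by_cases h₁ : (Γ.on (Γ.A.erase f)).Cyc
    · exact hH (delta_class hω h3 hΓ hΦ hc hf h₁)
    · have hB : Γ.A.erase f ⊆ Γ.A := Finset.erase_subset _ _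
      have hle : (Γ.on (Γ.A.erase f)).nV ≤ Γ.nV := by
        refine Set.ncard_le_ncard ?_ VS_finite
        rintro x ⟨e', he', hx⟩
        exact ⟨e', hB he', hx⟩
      have hlt : (Γ.on (Γ.A.erase f)).A.card < Γ.A.card := Finset.card_erase_lt_of_mem hf
      have h₂ : HasH ω (Γ.on (Γ.A.erase f)) :=
        hI E _ ((lt_or_eq_of_le hle).imp_right fun h => ⟨h, hlt⟩) (del_C2 hΓ hC h4 f)
          (phi_on hB hΦ) h₁
      exact (case_a hω h3 hΓ hΦ he hfe hp hg h₁ h₂ h₄ hv hve hb).elim hfR hfR'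
  · -- contraction
    have hlf : Γ.s f ≠ Γ.t f := hΓ.lf f hf
    have hpf : Γ.Pfree f := by
      intro f' hf' hne
      by_cases hfe' : f' = e
      · subst hfe'
        have h1 := hp f hf hfe
        exact ⟨fun h => h1.1 ⟨h.1.symm, h.2.symm⟩, fun h => h1.2 ⟨h.2.symm, h.1.symm⟩⟩
      · have hA' : f' ∈ ((Γ.con e).con f).A :=
          Finset.mem_erase.2 ⟨hne, Finset.mem_erase.2 ⟨hfe', hf'⟩⟩
        have hl := h₄.lf f' hA'
        have h5 : (Γ.con e).cm f ((Γ.con e).s f) = (Γ.con e).s f := by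
          unfold GG.cm
          split_ifs <;> rfl
        have h6 : (Γ.con e).cm f ((Γ.con e).t f) = (Γ.con e).s f := by
          unfold GG.cm
          rw [if_pos rfl]
        constructor
        · rintro ⟨h1, h2⟩
          apply hl
          show (Γ.con e).cm f (Γ.cm e (Γ.s f')) = (Γ.con e).cm f (Γ.cm e (Γ.t f'))
          rw [h1, h2]
          exact h5.trans h6.symm
        · rintro ⟨h1, h2⟩
          apply hl
          show (Γ.con e).cm f (Γ.cm e (Γ.s f')) = (Γ.con e).cm f (Γ.cm e (Γ.t f'))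
          rw [h1, h2]
          exact h6.trans h5.symm
    -- the potential
    obtain ⟨p, hpe, hpf0⟩ : ∃ p : V → Lt, (∀ q, q ≠ z → p q = 0) ∧
        Γ.g f + p (Γ.s f) - p (Γ.t f) = 0 := by
      rcases hfz with h | h
      · refine ⟨fun q => if q = z then -Γ.g f else 0, fun q hq => if_neg hq, ?_⟩
        have h' : Γ.t f ≠ z := fun h'' => hlf (h.trans h''.symm)
        show Γ.g f + (if Γ.s f = z then -Γ.g f else 0) - (if Γ.t f = z then -Γ.g f else 0) = 0
        rw [if_pos h, if_neg h']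
        simp
      · refine ⟨fun q => if q = z then Γ.g f else 0, fun q hq => if_neg hq, ?_⟩
        have h' : Γ.s f ≠ z := fun h'' => hlf (h''.trans h.symm)
        show Γ.g f + (if Γ.s f = z then Γ.g f else 0) - (if Γ.t f = z then Γ.g f else 0) = 0
        rw [if_pos h, if_neg h']
        simp
    have hps : p (Γ.s e) = 0 := hpe _ hzs
    have hpt : p (Γ.t e) = 0 := hpe _ hzt
    have hpc : ∀ q, p (Γ.cm e q) = p q := by
      intro q
      unfold GG.cm
      split_ifs with h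
      · rw [h, hps, hpt]
      · rfl
    have hsc : (Γ.sw p).con e = (Γ.con e).sw p := by
      unfold GG.con GG.sw
      congr 1
      funext f'
      show Γ.g f' + p (Γ.s f') - p (Γ.t f') =
        Γ.g f' + p (Γ.cm e (Γ.s f')) - p (Γ.cm e (Γ.t f'))
      rw [hpc, hpc]
    have hC2 : (Γ.sw p).C2 := (sw_C2 p).2 hΓ
    have hC3 : (Γ.sw p).C3 := (sw_C3 p).2 hC
    have hnV : (Γ.sw p).nV = Γ.nV := sw_nV p
    have hPf : (Γ.sw p).Pfree f := (sw_Pfree p).2 hpf
    have hPhi : (Γ.sw p).Phi (hx : Set Lt) := (sw_Phi p).2 hΦ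
    have hCy : ¬ (Γ.sw p).Cyc := fun h => hc ((sw_Cyc p).1 h)
    have hge : (Γ.sw p).g e = 0 := by
      show Γ.g e + p (Γ.s e) - p (Γ.t e) = 0
      rw [hps, hpt, hg]
      simp
    have hgf : (Γ.sw p).g f = 0 := hpf0
    have hI' : IH ω (Γ.sw p) := (sw_IH p).2 hI
    have h₂ : HasH ω ((Γ.sw p).con f) :=
      hI' E _ (Or.inl (con_nV (Γ := Γ.sw p) (e := f) hC2 hf))
        (con_C2 (Γ := Γ.sw p) (e := f) hC2 hC3 (by omega) hf hPf)
        (con_Phi (Γ := Γ.sw p) (e := f) hf hlf hgf hPhi)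
        (con_not_Cyc (Γ := Γ.sw p) (e := f) hgf hCy)
    have h₄' : (((Γ.sw p).con e).con f).C2 := Ham_c2 _ _ _ _ _ h₄
    have hv' : Zc ω ((Γ.sw p).con e) fun e' => ch ω (p (Γ.s e')) * v e' := by
      rw [hsc]
      have h1 := (sw_Zc (Γ := Γ.con e) p hω v).2 hv
      have h2 : (fun e' => ch ω (p ((Γ.con e).s e')) * v e') =
          fun e' => ch ω (p (Γ.s e')) * v e' := by
        funext e'
        show ch ω (p (Γ.cm e (Γ.s e'))) * v e' = _
        rw [hpc]
      rw [h2] at h1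
      exact h1
    have hve' : (fun e' => ch ω (p (Γ.s e')) * v e') e = 0 := by
      show ch ω (p (Γ.s e)) * v e = 0
      rw [hve, mul_zero]
    have hb' := (sw_Bad (Γ := Γ) p hω v).2 hb
    have key := case_b hω h3 hC2 hPhi hCy (e := e) (f := f) he hf hfe ((sw_Pfree p).2 hp) hPf hge hgf h₂ h₄'
      hv' hve' hb'
    obtain ⟨-, k1, k2⟩ := key
    rw [sw_vs, sw_vs] at k1 k2
    rcases hfz with h | h
    · have k1' : z ∈ Γ.vs u R ∨ z ∈ Γ.vs u R' := by
        rw [← h]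
        exact k1
      exact k1'.elim hcon.1 hcon.2
    · have k2' : z ∈ Γ.vs u R ∨ z ∈ Γ.vs u R' := by
        rw [← h]
        exact k2
      exact k2'.elim hcon.1 hcon.2

private theorem Ham_one {e : E} (hp : Γ.Pfree e) (hne : Γ.s e ≠ Γ.t e) {l : List (Da E)}
    (h : Γ.Pt (Γ.s e) l (Γ.t e)) (hl : e ∉ eds l) : 2 ≤ l.length := by
  rcases l with _ | ⟨d, l⟩
  · exact absurd (pt_nil.1 h) hne
  · rcases l with _ | ⟨d', l⟩
    · exfalso
      obtain ⟨h1, h2, h3⟩ := h.1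
      have h4 : Γ.tgt d = Γ.t e := h3
      have hde : d.1 ≠ e := by
        intro h5
        exact hl ((mem_eds e [d]).2 ⟨d, List.mem_singleton_self d, h5⟩)
      have h6 := hp d.1 h1 hde
      rcases d with ⟨f, b⟩
      cases b with
      | false => exact h6.2 ⟨h4, h2⟩
      | true => exact h6.1 ⟨h2, h4⟩
    · simp

/-- three vertices: no bad cycles -/
theorem no_bad_three (hω : ω ^ 2 + ω + 1 = 0) (hΓ : Γ.C2) (h3 : Γ.nV = 3) {e : E} (he : e ∈ Γ.A) (hp : Γ.Pfree e) (hg : Γ.g e = 0)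
    {v : E → k} (hv : Zc ω (Γ.con e) v) (hve : v e = 0) {u w : V} {R R' : List (Da E)} : ¬ Bad ω Γ v u w R R' := by
  intro hb
  obtain ⟨⟨he1, he2⟩, hse, hte⟩ := Ham_on hω hΓ he hp hg hv hve hb
  have hne : Γ.s e ≠ Γ.t e := hΓ.lf e he
  obtain ⟨P, P', hP, -, hed⟩ := bad_resplit hω hb hse hte hne
  have hPe : e ∉ eds P ∧ e ∉ eds P' := by
    rw [← not_or, hed e, not_or]
    exact ⟨he1, he2⟩
  have l1 := Ham_one hp hne hP.cy.p hPe.1
  have l2 := Ham_one hp hne hP.cy.p' hPe.2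
  obtain ⟨z1, hz1, hz1x, hz1y⟩ := pt_inner hP.cy.p l1
  obtain ⟨z2, hz2, hz2x, hz2y⟩ := pt_inner hP.cy.p' l2
  have hx : Γ.s e ∈ Γ.VS := ⟨e, he, Or.inl rfl⟩
  have hy : Γ.t e ∈ Γ.VS := ⟨e, he, Or.inr rfl⟩
  have hz1V : z1 ∈ Γ.VS := wk_VS hP.cy.p.1 hx hz1
  have hz2V : z2 ∈ Γ.VS := wk_VS hP.cy.p'.1 hx hz2
  have hz12 : z1 ≠ z2 := by
    rintro rfl
    exact (hP.cy.dj z1 hz1 hz2).elim hz1x hz1y
  have hsub : ((({Γ.s e, Γ.t e, z1, z2} : Finset V) : Set V)) ⊆ Γ.VS := by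
    intro q hq
    simp only [Finset.coe_insert, Finset.coe_singleton, Set.mem_insert_iff,
      Set.mem_singleton_iff] at hq
    rcases hq with rfl | rfl | rfl | rfl
    · exact hx
    · exact hy
    · exact hz1V
    · exact hz2V
  have hcard : ({Γ.s e, Γ.t e, z1, z2} : Finset V).card = 4 := by
    rw [Finset.card_insert_of_notMem, Finset.card_insert_of_notMem, Finset.card_insert_of_notMem,
      Finset.card_singleton]
    · simpa using hz12
    · simp only [Finset.mem_insert, Finset.mem_singleton, not_or]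
      exact ⟨fun h => hz1y h.symm, fun h => hz2y h.symm⟩
    · simp only [Finset.mem_insert, Finset.mem_singleton, not_or]
      exact ⟨hne, fun h => hz1x h.symm, fun h => hz2x h.symm⟩
  have h5 := Set.ncard_le_ncard hsub VS_finite
  rw [Set.ncard_coe_finset, hcard] at h5
  have h6 : Γ.VS.ncard = 3 := h3
  omega

end Pool.Agent.FRM
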