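import Pool.Agent.FRM.Une1

/-!
# FRM/Une2: the unit equation of the 2-uniform partial field

THEOREM.  `ev u + ev u' = 1` has exactly the 30 solutions `u ∈ FU`.
PROOF.  Write `ev u = ± X / Z`, `ev u' = ± Y / Z` with monomials `X, Y, Z` with exponents `≥ 0` in the five polynomials `α, β, 1 - α, 1 - β, α - β`, one of the three exponents of each polynomial being `0`; `± X ± Y = Z` in `ℚ[α, β]` (`Une2_id`).
Substitute `β = 3` (and `α = 3`): the theorem of Mason and Stothers gives that the `α`-degrees and the `β`-degrees are `≤ 2` and that each polynomial divides at most one of `X, Y, Z` (`Une2_ms`).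
The remaining finitely many cases are excluded by evaluation at `(3, 5)`, `(-2, 5)` and `(7, 3)` (`Une2_all`).
-/

set_option autoImplicit false

noncomputable section

open scoped Classical

namespace Pool.Agent.FRM

open GG

/-! ### finite check -/

private def Une2_L : List XG :=
  [(-1, 0, 0, -1, 1, 0), (-1, 0, 0, 0, 0, 0), (-1, 0, 0, 0, 1, 0), (-1, 0, 1, 0, 0, 1), (-1, 1, 0, 0, 0, 0),
   (-1, 1, 1, -1, 0, 0), (0, -1, -1, 0, 1, 1), (0, -1, 0, 0, 0, 0), (0, -1, 0, 0, 1, 1), (0, -1, 0, 1, 0, 1),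
   (0, 0, -1, 0, 0, 0), (0, 0, -1, 0, 1, 1), (0, 0, -1, 1, 0, 0), (0, 0, 0, -1, 0, 0), (0, 0, 0, -1, 1, 0),
   (0, 0, 0, 1, -1, 0), (0, 0, 0, 1, 0, 0), (0, 0, 1, -1, 0, 0), (0, 0, 1, 0, -1, 1), (0, 0, 1, 0, 0, 0),
   (0, 1, 0, -1, 0, 1), (0, 1, 0, 0, -1, 1), (0, 1, 0, 0, 0, 0), (0, 1, 1, 0, -1, 1), (1, -1, -1, 1, 0, 0),
   (1, -1, 0, 0, 0, 0), (1, 0, -1, 0, 0, 1), (1, 0, 0, 0, -1, 0), (1, 0, 0, 0, 0, 0), (1, 0, 0, 1, -1, 0)]

private theorem Une2_mem (x : XG) : x ∈ FU ↔ x ∈ Une2_L := by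
  simp only [FU, Une2_L, Finset.mem_insert, Finset.mem_singleton, List.mem_cons, List.not_mem_nil, or_false]

/-- the possible triples of exponents -/
private def Une2_P : List (ℕ × ℕ × ℕ) :=
  [(0, 0, 0), (1, 0, 0), (2, 0, 0), (0, 1, 0), (0, 2, 0), (0, 0, 1), (0, 0, 2)]

private def Une2_d (p q r : ℕ × ℕ × ℕ) : Bool :=
  Nat.ble (p.1 + q.1 + r.1) 2 && (Nat.ble (p.2.1 + q.2.1 + r.2.1) 2 && Nat.ble (p.2.2 + q.2.2 + r.2.2) 2)

/-- the value of a monomial at `(x, y)` -/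
private def Une2_v (x y : ℤ) (a b c d e : ℕ) : ℤ := x ^ a * y ^ b * (1 - x) ^ c * (1 - y) ^ d * (x - y) ^ e

private def Une2_E (x y : ℤ) (p q r t w : ℕ × ℕ × ℕ) (s s' : ℤ) : Bool :=
  decide (s * Une2_v x y p.1 q.1 r.1 t.1 w.1 + s' * Une2_v x y p.2.1 q.2.1 r.2.1 t.2.1 w.2.1 =
    Une2_v x y p.2.2 q.2.2 r.2.2 t.2.2 w.2.2)

private def Une2_u (p q r t w : ℕ × ℕ × ℕ) (s : ZMod 2) : XG :=
  ((p.1 : ℤ) - p.2.2, (q.1 : ℤ) - q.2.2, (r.1 : ℤ) - r.2.2, (t.1 : ℤ) - t.2.2, (w.1 : ℤ) - w.2.2, s)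

private def Une2_T (p q r t w : ℕ × ℕ × ℕ) (s s' : ZMod 2) : Bool :=
  !(Une2_E 3 5 p q r t w ((-1) ^ s.val) ((-1) ^ s'.val) && (Une2_E (-2) 5 p q r t w ((-1) ^ s.val) ((-1) ^ s'.val) &&
    Une2_E 7 3 p q r t w ((-1) ^ s.val) ((-1) ^ s'.val))) ||
  Une2_L.any fun x => decide (x = Une2_u p q r t w s)

private theorem Une2_all : (Une2_P.all fun w => Une2_P.all fun p => Une2_P.all fun r => !(Une2_d p r w) ||
    (Une2_P.all fun q => Une2_P.all fun t => !(Une2_d q t w) ||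
      ([(0 : ZMod 2), 1].all fun s => [(0 : ZMod 2), 1].all fun s' => Une2_T p q r t w s s'))) = true := by
  decide +kernel

/-! ### the theorem of Mason and Stothers -/

open Polynomial in
/-- monomials in `X`, `1 - X`, `X - 3` -/
private def Une2_m (a b c : ℕ) : ℚ[X] := X ^ a * (1 - X) ^ b * (X - C 3) ^ c

open Polynomial in
private theorem Une2_m_ne (a b c : ℕ) : Une2_m a b c ≠ 0 := by
  unfold Une2_m
  refine mul_ne_zero (mul_ne_zero (pow_ne_zero _ X_ne_zero) (pow_ne_zero _ ?_)) (pow_ne_zero _ (X_sub_C_ne_zero 3))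
  intro h
  have := congrArg (eval 0) h
  simp at this

open Polynomial in
private theorem Une2_m_deg (a b c : ℕ) : (Une2_m a b c).natDegree = a + b + c := by
  have h1 : (1 - X : ℚ[X]) ≠ 0 := by
    intro h
    have := congrArg (eval 0) h
    simp at this
  have h2 : (1 - X : ℚ[X]).natDegree = 1 := by
    have : (1 - X : ℚ[X]) = -(X - C 1) := by simp
    rw [this, natDegree_neg, natDegree_X_sub_C]
  unfold Une2_m
  rw [natDegree_mul (mul_ne_zero (pow_ne_zero _ X_ne_zero) (pow_ne_zero _ h1)) (pow_ne_zero _ (X_sub_C_ne_zero 3)),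
    natDegree_mul (pow_ne_zero _ X_ne_zero) (pow_ne_zero _ h1), natDegree_pow, natDegree_pow, natDegree_pow,
    natDegree_X, h2, natDegree_X_sub_C]
  ring

/-- the value -/
private theorem Une2_m_eval (a b c : ℕ) (t : ℚ) : (Une2_m a b c).eval t = t ^ a * (1 - t) ^ b * (t - 3) ^ c := by
  simp [Une2_m]

private theorem Une2_k1 : IsCoprime (Polynomial.X : Polynomial ℚ) (1 - Polynomial.X) :=
  ⟨1, 1, by ring⟩

private theorem Une2_k2 : IsCoprime (Polynomial.X : Polynomial ℚ) (Polynomial.X - Polynomial.C 3) :=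
  ⟨Polynomial.C (1 / 3), Polynomial.C (-1 / 3), by
    rw [mul_sub, ← add_sub_assoc, ← add_mul, ← Polynomial.C_add, ← Polynomial.C_mul]
    norm_num⟩

private theorem Une2_k3 : IsCoprime (1 - Polynomial.X : Polynomial ℚ) (Polynomial.X - Polynomial.C 3) :=
  ⟨Polynomial.C (-1 / 2), Polynomial.C (-1 / 2), by
    rw [← mul_add]
    have : (1 - Polynomial.X : Polynomial ℚ) + (Polynomial.X - Polynomial.C 3) = Polynomial.C (-2) := by
      have h1 : (Polynomial.C (-2) : Polynomial ℚ) = 1 - Polynomial.C 3 := by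
        rw [← Polynomial.C_1, ← Polynomial.C_sub]
        norm_num
      rw [h1]
      ring
    rw [this, ← Polynomial.C_mul]
    norm_num⟩

private theorem Une2_cop {p : Polynomial ℚ} {a b : ℕ} (h : a = 0 ∨ b = 0) : IsCoprime (p ^ a) (p ^ b) := by
  rcases h with h | h
  · rw [h, pow_zero]
    exact isCoprime_one_left
  · rw [h, pow_zero]
    exact isCoprime_one_right

private theorem Une2_m_cop {a1 a2 a3 b1 b2 b3 : ℕ} (h1 : a1 = 0 ∨ b1 = 0) (h2 : a2 = 0 ∨ b2 = 0)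
    (h3 : a3 = 0 ∨ b3 = 0) : IsCoprime (Une2_m a1 a2 a3) (Une2_m b1 b2 b3) := by
  unfold Une2_m
  refine IsCoprime.mul_left (IsCoprime.mul_left ?_ ?_) ?_
  · exact IsCoprime.mul_right (IsCoprime.mul_right (Une2_cop h1) Une2_k1.pow) Une2_k2.pow
  · exact IsCoprime.mul_right (IsCoprime.mul_right Une2_k1.symm.pow (Une2_cop h2)) Une2_k3.pow
  · exact IsCoprime.mul_right (IsCoprime.mul_right Une2_k2.symm.pow Une2_k3.symm.pow) (Une2_cop h3)

private theorem Une2_pw {R : Type} [CommRing R] (x y z : R) (a b c : ℕ) : (x ^ 1 * y ^ 1 * z ^ 1) ^ (a + b + c) =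
    x ^ a * y ^ b * z ^ c * (x ^ (b + c) * y ^ (a + c) * z ^ (a + b)) := by
  ring

/-- each linear polynomial divides at most one term -/
private theorem Une2_one {u v w : ℚ} {k1 k2 k3 t : ℚ} (hk1 : k1 * u ≠ 0) (hk2 : k2 * v ≠ 0) (hk3 : k3 * w ≠ 0)
    (ht : t = 0) {a b c : ℕ} (H : a = 0 ∨ b = 0 ∨ c = 0) (h : k1 * (t ^ a * u) + k2 * (t ^ b * v) = k3 * (t ^ c * w)) :
    (a = 0 ∧ b = 0) ∨ (a = 0 ∧ c = 0) ∨ (b = 0 ∧ c = 0) := by
  subst ht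
  by_contra hn
  have e : ∀ n : ℕ, n ≠ 0 → (0 : ℚ) ^ n = 0 := fun n hn => zero_pow hn
  rcases H with H | H | H
  · have h2 : b ≠ 0 := by omega
    have h3 : c ≠ 0 := by omega
    rw [e b h2, e c h3, H] at h
    apply hk1
    simpa using h
  · have h2 : a ≠ 0 := by omega
    have h3 : c ≠ 0 := by omega
    rw [e a h2, e c h3, H] at h
    apply hk2
    simpa using h
  · have h2 : a ≠ 0 := by omega
    have h3 : b ≠ 0 := by omega
    rw [e a h2, e b h3, H] at h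
    apply hk3
    simpa using h.symm

open Polynomial in
/-- the theorem of Mason and Stothers for monomials in `X`, `1 - X`, `X - 3` -/
private theorem Une2_ms {k1 k2 k3 : ℚ} (hk1 : k1 ≠ 0) (hk2 : k2 ≠ 0) (hk3 : k3 ≠ 0)
    {a1 a2 a3 b1 b2 b3 c1 c2 c3 : ℕ} (H1 : a1 = 0 ∨ b1 = 0 ∨ c1 = 0) (H2 : a2 = 0 ∨ b2 = 0 ∨ c2 = 0)
    (H3 : a3 = 0 ∨ b3 = 0 ∨ c3 = 0)
    (h : C k1 * Une2_m a1 a2 a3 + C k2 * Une2_m b1 b2 b3 = C k3 * Une2_m c1 c2 c3) :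
    ((a1 = 0 ∧ b1 = 0) ∨ (a1 = 0 ∧ c1 = 0) ∨ (b1 = 0 ∧ c1 = 0)) ∧
    ((a2 = 0 ∧ b2 = 0) ∨ (a2 = 0 ∧ c2 = 0) ∨ (b2 = 0 ∧ c2 = 0)) ∧
    ((a3 = 0 ∧ b3 = 0) ∨ (a3 = 0 ∧ c3 = 0) ∨ (b3 = 0 ∧ c3 = 0)) ∧
    a1 + a2 + a3 ≤ 2 ∧ b1 + b2 + b3 ≤ 2 ∧ c1 + c2 + c3 ≤ 2 := by
  have hev : ∀ t : ℚ, k1 * (t ^ a1 * (1 - t) ^ a2 * (t - 3) ^ a3) + k2 * (t ^ b1 * (1 - t) ^ b2 * (t - 3) ^ b3) =
      k3 * (t ^ c1 * (1 - t) ^ c2 * (t - 3) ^ c3) := by
    intro t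
    have := congrArg (eval t) h
    simpa only [eval_add, eval_mul, eval_C, Une2_m_eval] using this
  have D1 : (a1 = 0 ∧ b1 = 0) ∨ (a1 = 0 ∧ c1 = 0) ∨ (b1 = 0 ∧ c1 = 0) := by
    have e : ∀ m n : ℕ, (1 - 0 : ℚ) ^ m * (0 - 3) ^ n ≠ 0 := fun m n =>
      mul_ne_zero (pow_ne_zero _ (by norm_num)) (pow_ne_zero _ (by norm_num))
    refine Une2_one (mul_ne_zero hk1 (e a2 a3)) (mul_ne_zero hk2 (e b2 b3)) (mul_ne_zero hk3 (e c2 c3)) rfl H1 ?_
    have := hev 0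
    rw [← mul_assoc ((0 : ℚ) ^ a1), ← mul_assoc ((0 : ℚ) ^ b1), ← mul_assoc ((0 : ℚ) ^ c1)]
    exact this
  have D2 : (a2 = 0 ∧ b2 = 0) ∨ (a2 = 0 ∧ c2 = 0) ∨ (b2 = 0 ∧ c2 = 0) := by
    have e : ∀ m n : ℕ, (1 : ℚ) ^ m * (1 - 3) ^ n ≠ 0 := fun m n =>
      mul_ne_zero (pow_ne_zero _ (by norm_num)) (pow_ne_zero _ (by norm_num))
    refine Une2_one (mul_ne_zero hk1 (e a1 a3)) (mul_ne_zero hk2 (e b1 b3)) (mul_ne_zero hk3 (e c1 c3))
      (t := 1 - 1) (sub_self 1) H2 ?_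
    have := hev 1
    rw [mul_left_comm ((1 - 1 : ℚ) ^ a2), mul_left_comm ((1 - 1 : ℚ) ^ b2), mul_left_comm ((1 - 1 : ℚ) ^ c2)]
    simp only [← mul_assoc] at this ⊢
    exact this
  have D3 : (a3 = 0 ∧ b3 = 0) ∨ (a3 = 0 ∧ c3 = 0) ∨ (b3 = 0 ∧ c3 = 0) := by
    have e : ∀ m n : ℕ, (3 : ℚ) ^ m * (1 - 3) ^ n ≠ 0 := fun m n =>
      mul_ne_zero (pow_ne_zero _ (by norm_num)) (pow_ne_zero _ (by norm_num))
    refine Une2_one (mul_ne_zero hk1 (e a1 a2)) (mul_ne_zero hk2 (e b1 b2)) (mul_ne_zero hk3 (e c1 c2))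
      (t := 3 - 3) (sub_self 3) H3 ?_
    have := hev 3
    rw [mul_comm ((3 - 3 : ℚ) ^ a3), mul_comm ((3 - 3 : ℚ) ^ b3), mul_comm ((3 - 3 : ℚ) ^ c3)]
    exact this
  have N : ∀ {k : ℚ} (a b c : ℕ), k ≠ 0 → C k * Une2_m a b c ≠ 0 := fun a b c hk =>
    mul_ne_zero (C_ne_zero.2 hk) (Une2_m_ne a b c)
  have Dg : ∀ {k : ℚ} (a b c : ℕ), k ≠ 0 → (C k * Une2_m a b c).natDegree = a + b + c := by
    intro k a b c hk
    rw [natDegree_C_mul hk, Une2_m_deg]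
  refine ⟨D1, D2, D3, ?_⟩
  have cop : IsCoprime (C k1 * Une2_m a1 a2 a3) (C k2 * Une2_m b1 b2 b3) := by
    have := Une2_m_cop (a1 := a1) (a2 := a2) (a3 := a3) (b1 := b1) (b2 := b2) (b3 := b3) (by omega) (by omega) (by omega)
    exact (isCoprime_mul_unit_left_left (isUnit_C.2 hk1.isUnit) _ _).2
      ((isCoprime_mul_unit_left_right (isUnit_C.2 hk2.isUnit) _ _).2 this)
  have hk3' : -k3 ≠ 0 := neg_ne_zero.2 hk3
  have abc := Polynomial.abc (N a1 a2 a3 hk1) (N b1 b2 b3 hk2) (N c1 c2 c3 hk3') cop (by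
    rw [h, C_neg]
    ring)
  have hrad : (UniqueFactorizationMonoid.radical (C k1 * Une2_m a1 a2 a3 * (C k2 * Une2_m b1 b2 b3) *
      (C (-k3) * Une2_m c1 c2 c3))).natDegree ≤ 3 := by
    have hd : UniqueFactorizationMonoid.radical (C k1 * Une2_m a1 a2 a3 * (C k2 * Une2_m b1 b2 b3) *
      (C (-k3) * Une2_m c1 c2 c3)) ∣ Une2_m 1 1 1 := by
      rw [← UniqueFactorizationMonoid.exists_dvd_pow_iff_radical_dvd
        (mul_ne_zero (mul_ne_zero (N a1 a2 a3 hk1) (N b1 b2 b3 hk2)) (N c1 c2 c3 hk3'))]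
      have key : ∀ (k : ℚ) (a b c : ℕ), k ≠ 0 → C k * Une2_m a b c ∣ Une2_m 1 1 1 ^ (a + b + c) := by
        intro k a b c hk
        have e1 : Une2_m 1 1 1 ^ (a + b + c) = C k * Une2_m a b c * (C k⁻¹ * Une2_m (b + c) (a + c) (a + b)) := by
          have e2 : C k * C k⁻¹ = (1 : ℚ[X]) := by
            rw [← C_mul, mul_inv_cancel₀ hk, C_1]
          calc Une2_m 1 1 1 ^ (a + b + c) = (C k * C k⁻¹) * (Une2_m a b c * Une2_m (b + c) (a + c) (a + b)) := by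
                rw [e2, one_mul]
                exact Une2_pw X (1 - X) (X - C 3) a b c
            _ = _ := by ring
        rw [e1]
        exact dvd_mul_right _ _
      refine ⟨(a1 + a2 + a3) + (b1 + b2 + b3) + (c1 + c2 + c3), ?_⟩
      rw [pow_add, pow_add]
      exact mul_dvd_mul (mul_dvd_mul (key _ _ _ _ hk1) (key _ _ _ _ hk2)) (key _ _ _ _ hk3')
    have h1 := natDegree_le_of_dvd hd (Une2_m_ne 1 1 1)
    rw [Une2_m_deg] at h1
    exact h1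
  rcases abc with ⟨h1, h2, h3⟩ | ⟨h1, h2, h3⟩
  · rw [Dg _ _ _ hk1] at h1
    rw [Dg _ _ _ hk2] at h2
    rw [Dg _ _ _ hk3'] at h3
    omega
  · have g1 := derivative_eq_zero.1 h1
    have g2 := derivative_eq_zero.1 h2
    have g3 := derivative_eq_zero.1 h3
    rw [Dg _ _ _ hk1] at g1
    rw [Dg _ _ _ hk2] at g2
    rw [Dg _ _ _ hk3'] at g3
    omega

/-! ### the identity between polynomials -/

private theorem Une2_z {x : KU} (hx : x ≠ 0) (n : ℤ) (z w : ℕ) (h : n = (w : ℤ) - z) : x ^ n * x ^ z = x ^ w := by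
  rw [← zpow_natCast, ← zpow_natCast, ← zpow_add₀ hx]
  congr 1
  omega

private theorem Une2_tr (n m : ℤ) : ∃ p : ℕ × ℕ × ℕ, n = (p.1 : ℤ) - p.2.2 ∧ m = (p.2.1 : ℤ) - p.2.2 ∧
    (p.1 = 0 ∨ p.2.1 = 0 ∨ p.2.2 = 0) := by
  by_cases h1 : 0 ≤ n
  · by_cases h2 : 0 ≤ m
    · exact ⟨(n.toNat, m.toNat, 0), by simp; omega, by simp; omega, by simp⟩
    · exact ⟨((n - m).toNat, 0, (-m).toNat), by simp; omega, by simp; omega, by simp⟩
  · by_cases h2 : n ≤ m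
    · exact ⟨(0, (m - n).toNat, (-n).toNat), by simp; omega, by simp; omega, by simp⟩
    · exact ⟨((n - m).toNat, 0, (-m).toNat), by simp; omega, by simp; omega, by simp⟩

private theorem Une2_id {a b c d e a' b' c' d' e' : ℤ} {s s' : ZMod 2}
    (h : ev (a, b, c, d, e, s) + ev (a', b', c', d', e', s') = 1) {p q r t w : ℕ × ℕ × ℕ}
    (hp : a = (p.1 : ℤ) - p.2.2) (hq : b = (q.1 : ℤ) - q.2.2) (hr : c = (r.1 : ℤ) - r.2.2)
    (ht : d = (t.1 : ℤ) - t.2.2) (hw : e = (w.1 : ℤ) - w.2.2)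
    (hp' : a' = (p.2.1 : ℤ) - p.2.2) (hq' : b' = (q.2.1 : ℤ) - q.2.2) (hr' : c' = (r.2.1 : ℤ) - r.2.2)
    (ht' : d' = (t.2.1 : ℤ) - t.2.2) (hw' : e' = (w.2.1 : ℤ) - w.2.2)
    {R : Type} [CommRing R] [Algebra ℚ R] (x y : R) :
    (-1) ^ s.val * (x ^ p.1 * y ^ q.1 * (1 - x) ^ r.1 * (1 - y) ^ t.1 * (x - y) ^ w.1) +
      (-1) ^ s'.val * (x ^ p.2.1 * y ^ q.2.1 * (1 - x) ^ r.2.1 * (1 - y) ^ t.2.1 * (x - y) ^ w.2.1) =
      x ^ p.2.2 * y ^ q.2.2 * (1 - x) ^ r.2.2 * (1 - y) ^ t.2.2 * (x - y) ^ w.2.2 := by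
  have h1 : (-1) ^ s.val * (al ^ p.1 * be ^ q.1 * (1 - al) ^ r.1 * (1 - be) ^ t.1 * (al - be) ^ w.1) +
      (-1) ^ s'.val * (al ^ p.2.1 * be ^ q.2.1 * (1 - al) ^ r.2.1 * (1 - be) ^ t.2.1 * (al - be) ^ w.2.1) =
      al ^ p.2.2 * be ^ q.2.2 * (1 - al) ^ r.2.2 * (1 - be) ^ t.2.2 * (al - be) ^ w.2.2 := by
    rw [← Une2_z al_ne a _ _ hp, ← Une2_z be_ne b _ _ hq, ← Une2_z al_ne_one c _ _ hr, ← Une2_z be_ne_one d _ _ ht,
      ← Une2_z al_ne_be e _ _ hw, ← Une2_z al_ne a' _ _ hp', ← Une2_z be_ne b' _ _ hq', ← Une2_z al_ne_one c' _ _ hr',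
      ← Une2_z be_ne_one d' _ _ ht', ← Une2_z al_ne_be e' _ _ hw']
    have h2 : al ^ a * be ^ b * (1 - al) ^ c * (1 - be) ^ d * (al - be) ^ e * (-1) ^ s.val +
      al ^ a' * be ^ b' * (1 - al) ^ c' * (1 - be) ^ d' * (al - be) ^ e' * (-1) ^ s'.val = 1 := h
    generalize al ^ a = g1 at *
    generalize be ^ b = g2 at *
    generalize (1 - al) ^ c = g3 at *
    generalize (1 - be) ^ d = g4 at *
    generalize (al - be) ^ e = g5 at *
    generalize al ^ a' = g6 at *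
    generalize be ^ b' = g7 at *
    generalize (1 - al) ^ c' = g8 at *
    generalize (1 - be) ^ d' = g9 at *
    generalize (al - be) ^ e' = g10 at *
    generalize al ^ p.2.2 = f1
    generalize be ^ q.2.2 = f2
    generalize (1 - al) ^ r.2.2 = f3
    generalize (1 - be) ^ t.2.2 = f4
    generalize (al - be) ^ w.2.2 = f5
    calc _ = (g1 * g2 * g3 * g4 * g5 * (-1) ^ s.val + g6 * g7 * g8 * g9 * g10 * (-1) ^ s'.val) *
          (f1 * f2 * f3 * f4 * f5) := by ring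
      _ = _ := by rw [h2, one_mul]
  have h3 : (-1) ^ s.val * ((MvPolynomial.X 0 : MvPolynomial (Fin 2) ℚ) ^ p.1 * MvPolynomial.X 1 ^ q.1 *
        (1 - MvPolynomial.X 0) ^ r.1 * (1 - MvPolynomial.X 1) ^ t.1 * (MvPolynomial.X 0 - MvPolynomial.X 1) ^ w.1) +
      (-1) ^ s'.val * ((MvPolynomial.X 0 : MvPolynomial (Fin 2) ℚ) ^ p.2.1 * MvPolynomial.X 1 ^ q.2.1 *
        (1 - MvPolynomial.X 0) ^ r.2.1 * (1 - MvPolynomial.X 1) ^ t.2.1 *
        (MvPolynomial.X 0 - MvPolynomial.X 1) ^ w.2.1) =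
      (MvPolynomial.X 0 : MvPolynomial (Fin 2) ℚ) ^ p.2.2 * MvPolynomial.X 1 ^ q.2.2 *
        (1 - MvPolynomial.X 0) ^ r.2.2 * (1 - MvPolynomial.X 1) ^ t.2.2 *
        (MvPolynomial.X 0 - MvPolynomial.X 1) ^ w.2.2 := by
    apply IsFractionRing.injective (MvPolynomial (Fin 2) ℚ) KU
    simp only [map_mul, map_pow, map_sub, map_one, map_neg, map_add]
    exact h1
  have h4 := congrArg (MvPolynomial.aeval (R := ℚ) (fun i : Fin 2 => if i = 0 then x else y)) h3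
  simp only [map_mul, map_pow, map_sub, map_one, map_neg, map_add, MvPolynomial.aeval_X] at h4
  simpa using h4

private theorem Une2_sg (s : ZMod 2) : ((-1 : ℚ)) ^ s.val ≠ 0 := pow_ne_zero _ (by norm_num)

private theorem Une2_inP {p : ℕ × ℕ × ℕ} (h : (p.1 = 0 ∧ p.2.1 = 0) ∨ (p.1 = 0 ∧ p.2.2 = 0) ∨ (p.2.1 = 0 ∧ p.2.2 = 0))
    (h1 : p.1 ≤ 2) (h2 : p.2.1 ≤ 2) (h3 : p.2.2 ≤ 2) : p ∈ Une2_P := by
  obtain ⟨a, b, c⟩ := p
  simp only at h h1 h2 h3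
  simp only [Une2_P, List.mem_cons, List.not_mem_nil, or_false, Prod.mk.injEq]
  omega

theorem unit_eq {u u' : XG} (h : ev u + ev u' = 1) : u ∈ FU := by
  obtain ⟨a, b, c, d, e, s⟩ := u
  obtain ⟨a', b', c', d', e', s'⟩ := u'
  obtain ⟨p, hp, hp', p0⟩ := Une2_tr a a'
  obtain ⟨q, hq, hq', q0⟩ := Une2_tr b b'
  obtain ⟨r, hr, hr', r0⟩ := Une2_tr c c'
  obtain ⟨t, ht, ht', t0⟩ := Une2_tr d d'
  obtain ⟨w, hw, hw', w0⟩ := Une2_tr e e'
  have H := fun {R : Type} [CommRing R] [Algebra ℚ R] (x y : R) =>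
    Une2_id h hp hq hr ht hw hp' hq' hr' ht' hw' x y
  have m3 : ∀ n : ℕ, (3 : ℚ) ^ n ≠ 0 := fun n => pow_ne_zero _ (by norm_num)
  have m2 : ∀ n : ℕ, (1 - 3 : ℚ) ^ n ≠ 0 := fun n => pow_ne_zero _ (by norm_num)
  have m1 : ∀ n : ℕ, (-1 : ℚ) ^ n ≠ 0 := fun n => pow_ne_zero _ (by norm_num)
  have A := Une2_ms (k1 := (-1) ^ s.val * 3 ^ q.1 * (1 - 3) ^ t.1) (k2 := (-1) ^ s'.val * 3 ^ q.2.1 * (1 - 3) ^ t.2.1)
    (k3 := 3 ^ q.2.2 * (1 - 3) ^ t.2.2) (mul_ne_zero (mul_ne_zero (m1 _) (m3 _)) (m2 _))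
    (mul_ne_zero (mul_ne_zero (m1 _) (m3 _)) (m2 _)) (mul_ne_zero (m3 _) (m2 _)) p0 r0 w0 (by
      have := H (Polynomial.X : Polynomial ℚ) (Polynomial.C 3)
      simp only [Une2_m, Polynomial.C_mul, Polynomial.C_pow, Polynomial.C_sub, Polynomial.C_neg, Polynomial.C_1]
      linear_combination this)
  have B := Une2_ms (k1 := (-1) ^ s.val * 3 ^ p.1 * (1 - 3) ^ r.1 * (-1) ^ w.1)
    (k2 := (-1) ^ s'.val * 3 ^ p.2.1 * (1 - 3) ^ r.2.1 * (-1) ^ w.2.1)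
    (k3 := 3 ^ p.2.2 * (1 - 3) ^ r.2.2 * (-1) ^ w.2.2)
    (mul_ne_zero (mul_ne_zero (mul_ne_zero (m1 _) (m3 _)) (m2 _)) (m1 _))
    (mul_ne_zero (mul_ne_zero (mul_ne_zero (m1 _) (m3 _)) (m2 _)) (m1 _))
    (mul_ne_zero (mul_ne_zero (m3 _) (m2 _)) (m1 _)) q0 t0 w0 (by
      have := H (Polynomial.C 3 : Polynomial ℚ) Polynomial.X
      have e1 : ∀ n : ℕ, (Polynomial.C 3 - Polynomial.X : Polynomial ℚ) ^ n = (-1) ^ n * (Polynomial.X - Polynomial.C 3) ^ n := by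
        intro n
        rw [← mul_pow]
        congr 1
        ring
      simp only [e1] at this
      simp only [Une2_m, Polynomial.C_mul, Polynomial.C_pow, Polynomial.C_sub, Polynomial.C_neg, Polynomial.C_1]
      linear_combination this)
  obtain ⟨A1, A2, A3, A4, A5, A6⟩ := A
  obtain ⟨B1, B2, B3, B4, B5, B6⟩ := B
  have ip : p ∈ Une2_P := Une2_inP A1 (by omega) (by omega) (by omega)
  have ir : r ∈ Une2_P := Une2_inP A2 (by omega) (by omega) (by omega)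
  have iw : w ∈ Une2_P := Une2_inP A3 (by omega) (by omega) (by omega)
  have iq : q ∈ Une2_P := Une2_inP B1 (by omega) (by omega) (by omega)
  have it : t ∈ Une2_P := Une2_inP B2 (by omega) (by omega) (by omega)
  have is : ∀ s : ZMod 2, s ∈ [(0 : ZMod 2), 1] := by decide
  have E : ∀ x y : ℤ, Une2_E x y p q r t w ((-1) ^ s.val) ((-1) ^ s'.val) = true := by
    intro x y
    have := H (x : ℚ) (y : ℚ)
    rw [Une2_E, decide_eq_true_iff]
    unfold Une2_v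
    exact_mod_cast this
  have F := Une2_all
  have F1 := List.all_eq_true.1 F w iw
  have F2 := List.all_eq_true.1 F1 p ip
  have F3 := List.all_eq_true.1 F2 r ir
  have d1 : Une2_d p r w = true := by
    simp only [Une2_d, Bool.and_eq_true, Nat.ble_eq]
    omega
  have d2 : Une2_d q t w = true := by
    simp only [Une2_d, Bool.and_eq_true, Nat.ble_eq]
    omega
  rw [d1, Bool.not_true, Bool.false_or] at F3
  have F4 := List.all_eq_true.1 F3 q iq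
  have F5 := List.all_eq_true.1 F4 t it
  rw [d2, Bool.not_true, Bool.false_or] at F5
  have F6 := List.all_eq_true.1 F5 s (is s)
  have F7 := List.all_eq_true.1 F6 s' (is s')
  rw [Une2_T, E, E, E, Bool.and_true, Bool.and_true, Bool.not_true, Bool.false_or, List.any_eq_true] at F7
  obtain ⟨x, hx, hx'⟩ := F7
  rw [decide_eq_true_iff] at hx'
  rw [Une2_mem]
  have : ((a, b, c, d, e, s) : XG) = x := by
    rw [hx', Une2_u, ← hp, ← hq, ← hr, ← ht, ← hw]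
  rw [this]
  exact hx

theorem unit_eq' {u : XG} (h : 1 - ev u = 0 ∨ InG (1 - ev u)) : u = 0 ∨ u ∈ FU := by
  rcases h with h | h
  · left
    exact ev_inj (sub_eq_zero.1 h).symm
  · right
    obtain ⟨v, hv⟩ := h
    refine unit_eq (u' := v) ?_
    rw [← hv]
    ring

end Pool.Agent.FRM
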