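import Pool.Agent.FRM.Cdt
import Pool.Agent.FRM.Une2
import Pool.Agent.FRM.Blk

/-!
# FRM/Mgr: from a frame matrix to the lifted matrix

PROOF PLAN.  `mat_graph`: `Γ.A` = the columns with exactly two nonzero entries, `s j < t j` these two rows (for the other columns `s j, t j` arbitrary: if `r = 0` there are no columns in `A` to care for, the types need care: `Fin r` may be empty; then take the matrix statement directly: e.g. define `Γ` with `V = Option (Fin r)` is NOT needed: do `r = 0` separately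
or choose `s, t : Fin n → Fin r` only when `Fin r` is nonempty).  `g j` is chosen with `ev (g j) = -(A (s j) j) / (A (t j) j)` (the entries are `1 x 1` subdeterminants, `InG`).  `Phi FU`: for a cycle with `P ≠ P'`: `cyc_det` and `IsU2` give `1 - ev (gn P - gn P') = 0` or `InG`, `unit_eq'`.
`lift_exists`: `all_good`; `M (s j) j = -τ j`, `M (t j) j = 1` for `j ∈ A`, and `M i j = 1` if `A i j ≠ 0` and `j ∉ A`, `0` otherwise: `FrD`.
-/

set_option autoImplicit false

noncomputable section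

open scoped Classical

namespace Pool.Agent.FRM

open GG

private theorem Mgr_inG {r n : ℕ} {A : Matrix (Fin r) (Fin n) KU} (hU : IsU2 A) (i : Fin r) (j : Fin n)
    (h : A i j ≠ 0) : InG (A i j) := by
  have h1 := hU 1 (fun _ => i) (fun _ => j)
  rw [Matrix.det_fin_one] at h1
  rcases h1 with h1 | h1
  · exact absurd h1 h
  · exact h1

private theorem Mgr_col {r n : ℕ} (hr : 0 < r) (A : Matrix (Fin r) (Fin n) KU) (hU : IsU2 A) (j : Fin n) :
    ∃ (a b : Fin r) (u : XG), (Finset.univ.filter fun i => A i j ≠ 0).card = 2 →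
      (a ≠ b ∧ A a j ≠ 0 ∧ A b j ≠ 0 ∧ (∀ i, i ≠ a → i ≠ b → A i j = 0) ∧ A a j = -(ev u * A b j)) := by
  by_cases hc : (Finset.univ.filter fun i => A i j ≠ 0).card = 2
  · obtain ⟨a, b, hab, hS⟩ := Finset.card_eq_two.mp hc
    have ha : A a j ≠ 0 := by
      have : a ∈ (Finset.univ.filter fun i => A i j ≠ 0) := by rw [hS]; simp
      simpa using this
    have hb : A b j ≠ 0 := by
      have : b ∈ (Finset.univ.filter fun i => A i j ≠ 0) := by rw [hS]; simp
      simpa using this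
    obtain ⟨u, hu⟩ := inG_mul (inG_neg (Mgr_inG hU a j ha)) (inG_inv (Mgr_inG hU b j hb))
    refine ⟨a, b, u, fun _ => ⟨hab, ha, hb, ?_, ?_⟩⟩
    · intro i hia hib
      by_contra hi
      have : i ∈ (Finset.univ.filter fun i => A i j ≠ 0) := by simpa using hi
      rw [hS] at this
      simp only [Finset.mem_insert, Finset.mem_singleton] at this
      rcases this with h | h
      · exact hia h
      · exact hib h
    · rw [← hu, mul_assoc, inv_mul_cancel₀ hb]
      ring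
  · exact ⟨⟨0, hr⟩, ⟨0, hr⟩, 0, fun h => absurd h hc⟩

theorem mat_graph {r n : ℕ} (hr : 0 < r) (A : Matrix (Fin r) (Fin n) KU) (hU : IsU2 A) (hF : Frame A) :
    ∃ Γ : GG (Fin r) (Fin n) XG, (∀ j ∈ Γ.A, Γ.s j ≠ Γ.t j) ∧ (∀ j ∈ Γ.A, A (Γ.s j) j ≠ 0) ∧ (∀ j ∈ Γ.A, A (Γ.t j) j ≠ 0) ∧
      (∀ j ∈ Γ.A, ∀ i, i ≠ Γ.s j → i ≠ Γ.t j → A i j = 0) ∧
      (∀ j ∈ Γ.A, A (Γ.s j) j = -(ev (Γ.g j) * A (Γ.t j) j)) ∧
      (∀ j, j ∉ Γ.A → ∀ i i', A i j ≠ 0 → A i' j ≠ 0 → i = i') ∧ Γ.Phi (FU : Set XG) := by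
  choose s t g hst using Mgr_col hr A hU
  have hG : ∀ i j, A i j ≠ 0 → InG (A i j) := fun i j h => Mgr_inG hU i j h
  refine ⟨⟨Finset.univ.filter fun j => (Finset.univ.filter fun i => A i j ≠ 0).card = 2, s, t, g⟩, ?_⟩
  have key : ∀ j ∈ (Finset.univ.filter fun j => (Finset.univ.filter fun i => A i j ≠ 0).card = 2),
      (s j ≠ t j ∧ A (s j) j ≠ 0 ∧ A (t j) j ≠ 0 ∧ (∀ i, i ≠ s j → i ≠ t j → A i j = 0) ∧
        A (s j) j = -(ev (g j) * A (t j) j)) := by
    intro j hj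
    exact hst j (Finset.mem_filter.mp hj).2
  refine ⟨fun j hj => (key j hj).1, fun j hj => (key j hj).2.1, fun j hj => (key j hj).2.2.1,
    fun j hj => (key j hj).2.2.2.1, fun j hj => (key j hj).2.2.2.2, ?_, ?_⟩
  · intro j hj i i' hi hi'
    have h2 := hF j
    have h3 : (Finset.univ.filter fun i => A i j ≠ 0).card ≠ 2 := by
      intro h
      exact hj (Finset.mem_filter.mpr ⟨Finset.mem_univ _, h⟩)
    have h4 : (Finset.univ.filter fun i => A i j ≠ 0).card ≤ 1 := by omega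
    exact Finset.card_le_one.mp h4 i (by simpa using hi) i' (by simpa using hi')
  · intro x y P P' hcy
    by_cases hne : P = P'
    · left
      rw [hne, sub_self]
    · obtain ⟨m, f, g', c, hc, hdet⟩ := cyc_det (Mk := A) (fun j hj => (key j hj).1) hG
        (fun j hj => (key j hj).2.1) (fun j hj => (key j hj).2.2.1) (fun j hj => (key j hj).2.2.2.1)
        (fun j hj => (key j hj).2.2.2.2) hcy hne
      have hc0 : c ≠ 0 := inG_ne hc
      have h1 : ∀ u : XG, (A.submatrix f g').det = c * (1 - ev u) → u = 0 ∨ u ∈ FU := by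
        intro u hu
        apply unit_eq'
        rcases hU m f g' with h | h
        · left
          rw [hu] at h
          rcases mul_eq_zero.mp h with h | h
          · exact absurd h hc0
          · exact h
        · right
          rw [hu] at h
          have := inG_mul (inG_inv hc) h
          rwa [← mul_assoc, inv_mul_cancel₀ hc0, one_mul] at this
      rcases h1 _ hdet with h | h
      · exact Or.inl h
      · exact Or.inr (Finset.mem_coe.mpr h)

private theorem Mgr_HU_neg {q : Hq} (h : HU q) : HU (-q) := by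
  obtain ⟨h1, h2⟩ := h
  refine ⟨by rw [Quaternion.normSq_neg]; exact h1, ?_⟩
  rcases h2 with ⟨a, b, c, d, h2⟩ | ⟨a, b, c, d, h2⟩
  · left
    refine ⟨-a, -b, -c, -d, ?_⟩
    rw [h2]
    ext <;> simp
  · right
    refine ⟨-a - 1, -b - 1, -c - 1, -d - 1, ?_⟩
    rw [h2]
    ext <;> simp <;> ring

private theorem Mgr_HU_one : HU (1 : Hq) := by
  refine ⟨map_one _, Or.inl ⟨1, 0, 0, 0, ?_⟩⟩
  ext <;> simp [Quaternion.re_one, Quaternion.imI_one, Quaternion.imJ_one, Quaternion.imK_one]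

private def Mgr_M {r n : ℕ} (A : Matrix (Fin r) (Fin n) KU) (Γ : GG (Fin r) (Fin n) XG) (τ : Fin n → Hqˣ) :
    Matrix (Fin r) (Fin n) Hq :=
  fun i j => if A i j = 0 then 0 else if j ∈ Γ.A ∧ i = Γ.s j then -(τ j : Hq) else 1

private theorem Mgr_M_zero {r n : ℕ} {A : Matrix (Fin r) (Fin n) KU} {Γ : GG (Fin r) (Fin n) XG} {τ : Fin n → Hqˣ}
    {i : Fin r} {j : Fin n} (h : A i j = 0) : Mgr_M A Γ τ i j = 0 := by
  unfold Mgr_M
  rw [if_pos h]

private theorem Mgr_M_s {r n : ℕ} {A : Matrix (Fin r) (Fin n) KU} {Γ : GG (Fin r) (Fin n) XG} {τ : Fin n → Hqˣ}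
    {i : Fin r} {j : Fin n} (h : A i j ≠ 0) (h2 : j ∈ Γ.A ∧ i = Γ.s j) : Mgr_M A Γ τ i j = -(τ j : Hq) := by
  unfold Mgr_M
  rw [if_neg h, if_pos h2]

private theorem Mgr_M_o {r n : ℕ} {A : Matrix (Fin r) (Fin n) KU} {Γ : GG (Fin r) (Fin n) XG} {τ : Fin n → Hqˣ}
    {i : Fin r} {j : Fin n} (h : A i j ≠ 0) (h2 : ¬ (j ∈ Γ.A ∧ i = Γ.s j)) : Mgr_M A Γ τ i j = 1 := by
  unfold Mgr_M
  rw [if_neg h, if_neg h2]

theorem lift_exists {r n : ℕ} (hr : 0 < r) (A : Matrix (Fin r) (Fin n) KU) (hU : IsU2 A) (hF : Frame A) :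
    ∃ (Γ : GG (Fin r) (Fin n) XG) (M : Matrix (Fin r) (Fin n) Hq) (τ : Fin n → Hqˣ), FrD Γ A M τ ∧
      ∀ i j, A i j ≠ 0 → HU (M i j) := by
  obtain ⟨Γ, lf, ns, nt, out, ek, half, hΦ⟩ := mat_graph hr A hU hF
  obtain ⟨τ, hτ⟩ := all_good lf hΦ
  have key : ∀ i j, A i j ≠ 0 → HU (Mgr_M A Γ τ i j) := by
    intro i j h
    by_cases h2 : j ∈ Γ.A ∧ i = Γ.s j
    · rw [Mgr_M_s h h2]
      exact Mgr_HU_neg (hτ.hu j h2.1)
    · rw [Mgr_M_o h h2]
      exact Mgr_HU_one
  refine ⟨Γ, Mgr_M A Γ τ, τ, ⟨?_, ?_, lf, ns, nt, out, ek, ?_, half, hτ⟩, key⟩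
  · intro i j
    constructor
    · intro h
      exact Mgr_M_zero h
    · intro h
      by_contra h0
      have h1 := (key i j h0).1
      rw [h, map_zero] at h1
      exact zero_ne_one h1
  · intro i j h
    have h0 : A i j ≠ 0 := by
      intro h0
      exact h (Mgr_M_zero h0)
    exact (key i j h0).1
  · intro j hj
    have h1 : ¬ (j ∈ Γ.A ∧ Γ.t j = Γ.s j) := fun h => lf j hj h.2.symm
    rw [Mgr_M_s (ns j hj) ⟨hj, rfl⟩, Mgr_M_o (nt j hj) h1, mul_one]

end Pool.Agent.FRM
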