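import Pool.Agent.FRM.Fdh
import Pool.Agent.FRM.Con1

/-!
# FRM/Pfr: an edge without parallel edges

A 3-connected graph with at least four vertices has a path `d c a b` with three edges, which is closed to a cycle of
length at least four by a path from `d` to `b` avoiding `c` and `a` (`exists_long_cycle`).  If every edge had a parallel
edge, then all 16 cycles obtained from this cycle by replacing four of its darts by parallel ones would have gains in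
`{0} ∪ hx`, which contradicts `hx_four` (`exists_pfree`).
-/

set_option autoImplicit false

noncomputable section

open scoped Classical

namespace Pool.Agent.FRM

open GG

variable {V E Q : Type} [AddCommGroup Q] {Γ : GG V E Q}


/-- replacing a dart by a parallel one -/
theorem swap_dart {x y : V} {l₁ l₂ : List (Da E)} {d d' : Da E} (h : Γ.Pt x (l₁ ++ d :: l₂) y) (hd : d'.1 ∈ Γ.A)
    (hs : Γ.src d' = Γ.src d) (ht : Γ.tgt d' = Γ.tgt d) :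
    Γ.Pt x (l₁ ++ d' :: l₂) y ∧ ∀ z, z ∈ Γ.vs x (l₁ ++ d' :: l₂) ↔ z ∈ Γ.vs x (l₁ ++ d :: l₂) := by
  have hvs : Γ.vs x (l₁ ++ d' :: l₂) = Γ.vs x (l₁ ++ d :: l₂) := by
    rw [vs_append, vs_append, List.map_cons, List.map_cons, ht]
  refine ⟨⟨?_, ?_⟩, fun z => by rw [hvs]⟩
  · obtain ⟨u, h1, h2⟩ := wk_append.1 h.1
    refine wk_append.2 ⟨u, h1, hd, hs.trans h2.2.1, ?_⟩
    rw [ht]
    exact h2.2.2
  · rw [hvs]
    exact h.2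

theorem exists_long_cycle (hΓ : Γ.C2) (hC : Γ.C3) (h4 : 4 ≤ Γ.nV) :
    ∃ x y P P', Γ.Cy x y P P' ∧ 2 ≤ P.length ∧ 2 ≤ P'.length := by
  obtain ⟨e, he⟩ := hΓ.ne
  have hab : Γ.s e ≠ Γ.t e := hΓ.lf e he
  have haV : Γ.s e ∈ Γ.VS := ⟨e, he, Or.inl rfl⟩
  have hbV : Γ.t e ∈ Γ.VS := ⟨e, he, Or.inr rfl⟩
  -- a neighbour `c` of `a = s e`, different from `b = t e`
  obtain ⟨q, hq, hqa, hqb, -⟩ := exists_fourth h4 (Γ.s e) (Γ.t e) (Γ.t e)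
  obtain ⟨l, hl, hbl, -⟩ := hC (Γ.t e) (Γ.t e) (Γ.s e) haV q hq hab hab hqb hqb
  obtain ⟨l₁, hl₁, hv₁, -⟩ := pt_of_wk hl
  have hb₁ : Γ.t e ∉ Γ.vs (Γ.s e) l₁ := fun h => hbl (hv₁ _ h)
  obtain ⟨d₁, m₁, rfl⟩ := List.exists_cons_of_ne_nil (pt_ne hl₁ hqa.symm)
  obtain ⟨⟨hd₁A, hd₁s, hm₁⟩, hn₁⟩ := hl₁
  have hn₁' : (Γ.s e :: Γ.vs (Γ.tgt d₁) m₁).Nodup := hn₁
  rw [List.nodup_cons] at hn₁'
  have hb₁' : Γ.t e ∉ Γ.s e :: Γ.vs (Γ.tgt d₁) m₁ := hb₁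
  have hca : Γ.tgt d₁ ≠ Γ.s e := fun h => hn₁'.1 (h ▸ wk_first (Γ := Γ) (Γ.tgt d₁) m₁)
  have hcb : Γ.tgt d₁ ≠ Γ.t e := fun h =>
    hb₁' (List.mem_cons_of_mem _ (h ▸ wk_first (Γ := Γ) (Γ.tgt d₁) m₁))
  have hcV : Γ.tgt d₁ ∈ Γ.VS := wk_VS (Γ := Γ) (l := [d₁]) (y := Γ.tgt d₁) ⟨hd₁A, hd₁s, rfl⟩ haV
    (List.mem_cons_of_mem _ List.mem_cons_self)
  -- a neighbour `d` of `c`, different from `a` and `b`
  obtain ⟨q', hq', hqa', hqb', hqc'⟩ := exists_fourth h4 (Γ.s e) (Γ.t e) (Γ.tgt d₁)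
  obtain ⟨l', hl', hal', hbl'⟩ := hC (Γ.s e) (Γ.t e) (Γ.tgt d₁) hcV q' hq' hca hcb hqa' hqb'
  obtain ⟨l₂, hl₂, hv₂, -⟩ := pt_of_wk hl'
  have ha₂ : Γ.s e ∉ Γ.vs (Γ.tgt d₁) l₂ := fun h => hal' (hv₂ _ h)
  have hb₂ : Γ.t e ∉ Γ.vs (Γ.tgt d₁) l₂ := fun h => hbl' (hv₂ _ h)
  obtain ⟨d₂, m₂, rfl⟩ := List.exists_cons_of_ne_nil (pt_ne hl₂ hqc'.symm)
  obtain ⟨⟨hd₂A, hd₂s, hm₂⟩, hn₂⟩ := hl₂
  have hn₂' : (Γ.tgt d₁ :: Γ.vs (Γ.tgt d₂) m₂).Nodup := hn₂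
  rw [List.nodup_cons] at hn₂'
  have hmem : Γ.tgt d₂ ∈ Γ.vs (Γ.tgt d₂) m₂ := wk_first _ _
  have ha₂' : Γ.s e ∉ Γ.tgt d₁ :: Γ.vs (Γ.tgt d₂) m₂ := ha₂
  have hb₂' : Γ.t e ∉ Γ.tgt d₁ :: Γ.vs (Γ.tgt d₂) m₂ := hb₂
  have hdc : Γ.tgt d₂ ≠ Γ.tgt d₁ := fun h => hn₂'.1 (h ▸ hmem)
  have hda : Γ.tgt d₂ ≠ Γ.s e := fun h => ha₂' (List.mem_cons_of_mem _ (h ▸ hmem))
  have hdb : Γ.tgt d₂ ≠ Γ.t e := fun h => hb₂' (List.mem_cons_of_mem _ (h ▸ hmem))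
  have hdV : Γ.tgt d₂ ∈ Γ.VS := wk_VS (Γ := Γ) (l := [d₂]) (y := Γ.tgt d₂) ⟨hd₂A, hd₂s, rfl⟩ hcV
    (List.mem_cons_of_mem _ List.mem_cons_self)
  -- a path from `d` to `b` avoiding `c` and `a`
  obtain ⟨r, hr, hcr, har⟩ := hC (Γ.tgt d₁) (Γ.s e) (Γ.tgt d₂) hdV (Γ.t e) hbV hdc hda hcb.symm hab.symm
  obtain ⟨L, hL, hvL, -⟩ := pt_of_wk hr
  have hcL : Γ.tgt d₁ ∉ Γ.vs (Γ.tgt d₂) L := fun h => hcr (hvL _ h)
  have haL : Γ.s e ∉ Γ.vs (Γ.tgt d₂) L := fun h => har (hvL _ h)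
  have hLne : L ≠ [] := pt_ne hL hdb
  have hvP : Γ.vs (Γ.tgt d₁) [fl d₁, (e, true)] = [Γ.tgt d₁, Γ.s e, Γ.t e] := by
    show [Γ.tgt d₁, Γ.tgt (fl d₁), Γ.tgt (e, true)] = _
    rw [tgt_fl, hd₁s]
    rfl
  refine ⟨Γ.tgt d₁, Γ.t e, [fl d₁, (e, true)], d₂ :: L, ⟨hcb, ⟨⟨hd₁A, src_fl d₁, ?_⟩, ?_⟩,
    ⟨⟨hd₂A, hd₂s, hL.1⟩, ?_⟩, ?_⟩, le_refl 2, ?_⟩
  · rw [tgt_fl, hd₁s]
    exact ⟨he, rfl, rfl⟩
  · rw [hvP]
    simp only [List.nodup_cons, List.mem_cons, List.not_mem_nil, or_false, not_or, not_false_eq_true,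
      List.nodup_nil, and_true]
    exact ⟨⟨hca, hcb⟩, hab⟩
  · show (Γ.tgt d₁ :: Γ.vs (Γ.tgt d₂) L).Nodup
    exact List.nodup_cons.2 ⟨hcL, hL.2⟩
  · intro z hz hz'
    rw [hvP] at hz
    have hz'' : z ∈ Γ.tgt d₁ :: Γ.vs (Γ.tgt d₂) L := hz'
    simp only [List.mem_cons, List.not_mem_nil, or_false] at hz
    rcases hz with hz | hz | hz
    · exact Or.inl hz
    · rw [hz] at hz''
      rcases List.mem_cons.1 hz'' with h | h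
      · exact absurd h.symm hca
      · exact absurd h haL
    · exact Or.inr hz
  · rw [List.length_cons]
    have := List.length_pos_of_ne_nil hLne
    omega

private theorem Pfr_cy_swap {x y : V} {l₁ l₂ P' : List (Da E)} {d d' : Da E} (h : Γ.Cy x y (l₁ ++ d :: l₂) P')
    (hd : d'.1 ∈ Γ.A) (hs : Γ.src d' = Γ.src d) (ht : Γ.tgt d' = Γ.tgt d) :
    Γ.Cy x y (l₁ ++ d' :: l₂) P' := by
  obtain ⟨h1, h2⟩ := swap_dart h.p hd hs ht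
  exact ⟨h.ne, h1, h.p', fun z hz hz' => h.dj z ((h2 z).1 hz) hz'⟩

/-- a parallel dart with another gain -/
private theorem Pfr_dart {Γ : GG V E Lt} (hΓ : Γ.C2) (hΦ : Γ.Phi (hx : Set Lt)) (hN : Γ.ND)
    (hP : ∀ e ∈ Γ.A, ¬ Γ.Pfree e) (d : Da E) (hd : d.1 ∈ Γ.A) :
    ∃ d' : Da E, d'.1 ∈ Γ.A ∧ Γ.src d' = Γ.src d ∧ Γ.tgt d' = Γ.tgt d ∧ Γ.dg d' - Γ.dg d ∈ hx ∧
      Γ.dg d - Γ.dg d' ∈ hx := by
  obtain ⟨e, b⟩ := d
  have heA : e ∈ Γ.A := hd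
  have hlf := hΓ.lf e heA
  have h1 := hP e heA
  unfold GG.Pfree at h1
  push Not at h1
  obtain ⟨f, hfA, hfe, h2⟩ := h1
  have hnd := hN e heA f hfA (Ne.symm hfe)
  unfold GG.Par at hnd
  obtain ⟨d', hd', hs', ht', hg'⟩ : ∃ d' : Da E, d'.1 ∈ Γ.A ∧ Γ.src d' = Γ.src (e, b) ∧
      Γ.tgt d' = Γ.tgt (e, b) ∧ Γ.dg d' ≠ Γ.dg (e, b) := by
    by_cases hp : Γ.s f = Γ.s e ∧ Γ.t f = Γ.t e
    · refine ⟨(f, b), hfA, ?_, ?_, ?_⟩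
      · cases b
        · exact hp.2
        · exact hp.1
      · cases b
        · exact hp.1
        · exact hp.2
      · intro hg
        apply hnd
        left
        refine ⟨hp.1, hp.2, ?_⟩
        cases b
        · have h3 : -Γ.g f = -Γ.g e := hg
          exact neg_injective h3
        · exact hg
    · have hp' := h2 (fun h => fun h' => hp ⟨h, h'⟩)
      refine ⟨(f, !b), hfA, ?_, ?_, ?_⟩
      · cases b
        · exact hp'.1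
        · exact hp'.2
      · cases b
        · exact hp'.2
        · exact hp'.1
      · intro hg
        apply hnd
        right
        refine ⟨hp'.1, hp'.2, ?_⟩
        cases b
        · exact hg
        · have h3 : -Γ.g f = Γ.g e := hg
          rw [← h3, neg_neg]
  have hst : Γ.src (e, b) ≠ Γ.tgt (e, b) := by
    cases b
    · exact hlf.symm
    · exact hlf
  have hpd : Γ.Pt (Γ.src (e, b)) [(e, b)] (Γ.tgt (e, b)) := pt_single heA hlf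
  have hcy : Γ.Cy (Γ.src (e, b)) (Γ.tgt (e, b)) [(e, b)] [(e, b)] := by
    refine ⟨hst, hpd, hpd, ?_⟩
    intro z hz _
    have hz' : z ∈ [Γ.src (e, b), Γ.tgt (e, b)] := hz
    simpa using hz'
  have hcy' : Γ.Cy (Γ.src (e, b)) (Γ.tgt (e, b)) ([] ++ d' :: []) [(e, b)] :=
    Pfr_cy_swap (l₁ := []) (l₂ := []) hcy hd' hs' ht'
  have k1 := hΦ _ _ _ _ hcy'
  have k2 := hΦ _ _ _ _ (cy_symm hcy')
  rw [List.nil_append, gn_cons, gn_cons, gn_nil, add_zero, add_zero] at k1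
  rw [List.nil_append, gn_cons, gn_cons, gn_nil, add_zero, add_zero] at k2
  refine ⟨d', hd', hs', ht', ?_, ?_⟩
  · exact k1.resolve_left fun h => hg' (sub_eq_zero.1 h)
  · exact k2.resolve_left fun h => hg' (sub_eq_zero.1 h).symm

theorem exists_pfree {Γ : GG V E Lt} (hΓ : Γ.C2) (hC : Γ.C3) (h4 : 4 ≤ Γ.nV) (hΦ : Γ.Phi (hx : Set Lt)) (hN : Γ.ND) :
    ∃ e ∈ Γ.A, Γ.Pfree e := by
  by_contra hcon
  push Not at hcon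
  obtain ⟨x, y, P, P', hcy, hlP, hlP'⟩ := exists_long_cycle hΓ hC h4
  obtain ⟨p₁, p₂, l, rfl⟩ : ∃ p₁ p₂ l, P = p₁ :: p₂ :: l := by
    match P, hlP with
    | p₁ :: p₂ :: l, _ => exact ⟨p₁, p₂, l, rfl⟩
  obtain ⟨q₁, q₂, l', rfl⟩ : ∃ q₁ q₂ l', P' = q₁ :: q₂ :: l' := by
    match P', hlP' with
    | q₁ :: q₂ :: l', _ => exact ⟨q₁, q₂, l', rfl⟩
  have hmP := wk_mem hcy.p.1
  have hmP' := wk_mem hcy.p'.1
  obtain ⟨p₁', a₁, s₁, t₁, g₁, -⟩ := Pfr_dart hΓ hΦ hN hcon p₁ (hmP p₁ (by simp)).1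
  obtain ⟨p₂', a₂, s₂, t₂, g₂, -⟩ := Pfr_dart hΓ hΦ hN hcon p₂ (hmP p₂ (by simp)).1
  obtain ⟨q₁', a₃, s₃, t₃, -, g₃⟩ := Pfr_dart hΓ hΦ hN hcon q₁ (hmP' q₁ (by simp)).1
  obtain ⟨q₂', a₄, s₄, t₄, -, g₄⟩ := Pfr_dart hΓ hΦ hN hcon q₂ (hmP' q₂ (by simp)).1
  refine hx_four (a := Γ.gn (p₁ :: p₂ :: l) - Γ.gn (q₁ :: q₂ :: l')) g₁ g₂ g₃ g₄ ?_
  intro b₁ b₂ b₃ b₄
  have c₁ : Γ.Cy x y ((if b₁ then p₁' else p₁) :: p₂ :: l) (q₁ :: q₂ :: l') := by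
    cases b₁
    · exact hcy
    · exact Pfr_cy_swap (l₁ := []) hcy a₁ s₁ t₁
  have c₂ : Γ.Cy x y ((if b₁ then p₁' else p₁) :: (if b₂ then p₂' else p₂) :: l) (q₁ :: q₂ :: l') := by
    cases b₂
    · exact c₁
    · exact Pfr_cy_swap (l₁ := [if b₁ then p₁' else p₁]) c₁ a₂ s₂ t₂
  have c₃ : Γ.Cy x y ((if b₃ then q₁' else q₁) :: q₂ :: l')
      ((if b₁ then p₁' else p₁) :: (if b₂ then p₂' else p₂) :: l) := by
    cases b₃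
    · exact cy_symm c₂
    · exact Pfr_cy_swap (l₁ := []) (cy_symm c₂) a₃ s₃ t₃
  have c₄ : Γ.Cy x y ((if b₃ then q₁' else q₁) :: (if b₄ then q₂' else q₂) :: l')
      ((if b₁ then p₁' else p₁) :: (if b₂ then p₂' else p₂) :: l) := by
    cases b₄
    · exact c₃
    · exact Pfr_cy_swap (l₁ := [if b₃ then q₁' else q₁]) c₃ a₄ s₄ t₄
  have k := hΦ _ _ _ _ (cy_symm c₄)
  have e : Γ.gn ((if b₁ then p₁' else p₁) :: (if b₂ then p₂' else p₂) :: l) -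
      Γ.gn ((if b₃ then q₁' else q₁) :: (if b₄ then q₂' else q₂) :: l') =
      Γ.gn (p₁ :: p₂ :: l) - Γ.gn (q₁ :: q₂ :: l') + (if b₁ then Γ.dg p₁' - Γ.dg p₁ else 0) +
        (if b₂ then Γ.dg p₂' - Γ.dg p₂ else 0) + (if b₃ then Γ.dg q₁ - Γ.dg q₁' else 0) +
        (if b₄ then Γ.dg q₂ - Γ.dg q₂' else 0) := by
    simp only [gn_cons]
    cases b₁ <;> cases b₂ <;> cases b₃ <;> cases b₄ <;> simp only [if_true, if_false, Bool.false_eq_true] <;> abel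
  rw [e] at k
  exact k

end Pool.Agent.FRM
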