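import Pool.Agent.FRM.Defs2

/-!
# FRM/Qdt: determinants of quaternionic matrices

`cq` is multiplicative, `chi` too; permutations of rows or columns act by even permutations on `R × Fin 2`; a row (column) with one
nonzero entry is treated by a block triangular matrix on `Fin 2 ⊕ S × Fin 2`.
-/

set_option autoImplicit false

noncomputable section

open scoped Classical Matrix

namespace Pool.Agent.FRM

open GG

theorem cq_mul (p q : Hq) : cq (p * q) = cq p * cq q := by
  ext i j
  fin_cases i <;> fin_cases j <;>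
    simp [cq, Matrix.mul_apply, Fin.sum_univ_two, Complex.ext_iff] <;>
    constructor <;> ring

theorem cq_add (p q : Hq) : cq (p + q) = cq p + cq q := by
  ext i j
  fin_cases i <;> fin_cases j <;>
    simp [cq, Complex.ext_iff] <;> ring

theorem cq_one : cq 1 = 1 := by
  have h1 : (1 : Hq).re = 1 := rfl
  have h2 : (1 : Hq).imI = 0 := rfl
  have h3 : (1 : Hq).imJ = 0 := rfl
  have h4 : (1 : Hq).imK = 0 := rfl
  ext i j
  fin_cases i <;> fin_cases j <;> simp [cq, Complex.ext_iff, h1, h2, h3, h4]

theorem cq_zero : cq 0 = 0 := by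
  have h1 : (0 : Hq).re = 0 := rfl
  have h2 : (0 : Hq).imI = 0 := rfl
  have h3 : (0 : Hq).imJ = 0 := rfl
  have h4 : (0 : Hq).imK = 0 := rfl
  ext i j
  fin_cases i <;> fin_cases j <;> simp [cq, Complex.ext_iff, h1, h2, h3, h4]

theorem cq_star (q : Hq) : cq (star q) = (cq q)ᴴ := by
  ext i j
  fin_cases i <;> fin_cases j <;> simp [cq, Complex.ext_iff]

theorem cq_det (q : Hq) : (cq q).det = ((Quaternion.normSq q : ℚ) : ℂ) := by
  rw [Matrix.det_fin_two, Quaternion.normSq_def']
  simp [cq, Complex.ext_iff, pow_two]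
  constructor <;> ring

private theorem Qdt_sum {ι : Type} (s : Finset ι) (f : ι → Hq) : cq (∑ k ∈ s, f k) = ∑ k ∈ s, cq (f k) := by
  induction s using Finset.induction_on with
  | empty => rw [Finset.sum_empty, Finset.sum_empty, cq_zero]
  | insert a s ha ih => rw [Finset.sum_insert ha, Finset.sum_insert ha, cq_add, ih]

theorem chi_mul {R C D : Type} [Fintype C] (M : Matrix R C Hq) (N : Matrix C D Hq) : chi (M * N) = chi M * chi N := by
  ext i j
  rw [Matrix.mul_apply, Fintype.sum_prod_type]
  show cq ((M * N) i.1 j.1) i.2 j.2 = ∑ k, ∑ a, cq (M i.1 k) i.2 a * cq (N k j.1) a j.2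
  rw [Matrix.mul_apply, Qdt_sum, Matrix.sum_apply]
  refine Finset.sum_congr rfl fun k _ => ?_
  rw [cq_mul, Matrix.mul_apply]

theorem chi_star {R C : Type} (M : Matrix R C Hq) : chi Mᴴ = (chi M)ᴴ := by
  ext i j
  show cq (Mᴴ i.1 j.1) i.2 j.2 = star (cq (M j.1 i.1) j.2 i.2)
  rw [Matrix.conjTranspose_apply, cq_star, Matrix.conjTranspose_apply]

theorem dC_mul {R : Type} [Fintype R] [DecidableEq R] (M N : Matrix R R Hq) : dC (M * N) = dC M * dC N := by
  unfold dC
  rw [chi_mul, Matrix.det_mul]

private theorem Qdt_chi_one {R : Type} [DecidableEq R] : chi (1 : Matrix R R Hq) = 1 := by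
  ext i j
  show cq ((1 : Matrix R R Hq) i.1 j.1) i.2 j.2 = _
  rw [Matrix.one_apply, Matrix.one_apply]
  by_cases h : i.1 = j.1
  · rw [if_pos h, cq_one, Matrix.one_apply]
    by_cases h2 : i.2 = j.2
    · rw [if_pos h2, if_pos (Prod.ext h h2)]
    · rw [if_neg h2, if_neg fun h3 => h2 (congrArg Prod.snd h3)]
  · rw [if_neg h, cq_zero, if_neg fun h3 => h (congrArg Prod.fst h3)]
    rfl

theorem dC_one {R : Type} [Fintype R] [DecidableEq R] : dC (1 : Matrix R R Hq) = 1 := by
  unfold dC
  rw [Qdt_chi_one, Matrix.det_one]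

theorem dC_zero_fin (M : Matrix (Fin 0) (Fin 0) Hq) : dC M = 1 := by
  unfold dC
  exact Matrix.det_isEmpty

private theorem Qdt_sign {R : Type} [Fintype R] [DecidableEq R] (σ : Equiv.Perm R) :
    Equiv.Perm.sign (Equiv.prodCongrLeft fun _ : Fin 2 => σ) = 1 := by
  rw [Equiv.Perm.sign_prodCongrLeft, Fin.prod_univ_two, ← pow_two]
  exact Int.units_sq _

theorem dC_perm {R : Type} [Fintype R] [DecidableEq R] (M : Matrix R R Hq) (σ : Equiv.Perm R) :
    dC (M.submatrix id σ) = dC M ∧ dC (M.submatrix σ id) = dC M := by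
  unfold dC
  constructor
  · have h : chi (M.submatrix id σ) = (chi M).submatrix id (Equiv.prodCongrLeft fun _ : Fin 2 => σ) := rfl
    rw [h, Matrix.det_permute', Qdt_sign]
    simp
  · have h : chi (M.submatrix σ id) = (chi M).submatrix (Equiv.prodCongrLeft fun _ : Fin 2 => σ) id := rfl
    rw [h, Matrix.det_permute, Qdt_sign]
    simp

private def Qdt_e {R S : Type} (e : Option S ≃ R) : Fin 2 ⊕ (S × Fin 2) ≃ R × Fin 2 where
  toFun := Sum.elim (fun a => (e none, a)) fun p => (e (some p.1), p.2)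
  invFun := fun x => match e.symm x.1 with
    | none => Sum.inl x.2
    | some k => Sum.inr (k, x.2)
  left_inv := by
    rintro (a | ⟨k, a⟩)
    · show (match e.symm (e none) with
        | none => Sum.inl a
        | some k => Sum.inr (k, a) : Fin 2 ⊕ (S × Fin 2)) = _
      rw [e.symm_apply_apply]
    · show (match e.symm (e (some k)) with
        | none => Sum.inl a
        | some k => Sum.inr (k, a) : Fin 2 ⊕ (S × Fin 2)) = _
      rw [e.symm_apply_apply]
  right_inv := by
    rintro ⟨x, a⟩
    obtain ⟨o, rfl⟩ := e.surjective x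
    show Sum.elim (fun a => (e none, a)) (fun p : S × Fin 2 => (e (some p.1), p.2))
      (match e.symm (e o) with
        | none => Sum.inl a
        | some k => Sum.inr (k, a) : Fin 2 ⊕ (S × Fin 2)) = (e o, a)
    rw [e.symm_apply_apply]
    cases o <;> rfl

private theorem Qdt_row {R S : Type} [Fintype R] [DecidableEq R] [Fintype S] [DecidableEq S] (e : Option S ≃ R)
    (M : Matrix R R Hq) (h : ∀ k, M (e none) (e (some k)) = 0) :
    dC M = ((Quaternion.normSq (M (e none) (e none)) : ℚ) : ℂ) *
      dC (M.submatrix (fun k => e (some k)) fun k => e (some k)) := by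
  unfold dC
  rw [← Matrix.det_submatrix_equiv_self (Qdt_e e) (chi M), ← cq_det]
  have h1 : (chi M).submatrix (Qdt_e e) (Qdt_e e) = Matrix.fromBlocks (cq (M (e none) (e none))) 0
      (fun p a => cq (M (e (some p.1)) (e none)) p.2 a)
      (chi (M.submatrix (fun k => e (some k)) fun k => e (some k))) := by
    ext x y
    rcases x with a | ⟨k, a⟩ <;> rcases y with b | ⟨l, b⟩
    · rfl
    · show cq (M (e none) (e (some l))) a b = 0
      rw [h l, cq_zero]
      rfl
    · rfl
    · rfl
  rw [h1, Matrix.det_fromBlocks_zero₁₂]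

private theorem Qdt_col {R S : Type} [Fintype R] [DecidableEq R] [Fintype S] [DecidableEq S] (e : Option S ≃ R)
    (M : Matrix R R Hq) (h : ∀ k, M (e (some k)) (e none) = 0) :
    dC M = ((Quaternion.normSq (M (e none) (e none)) : ℚ) : ℂ) *
      dC (M.submatrix (fun k => e (some k)) fun k => e (some k)) := by
  unfold dC
  rw [← Matrix.det_submatrix_equiv_self (Qdt_e e) (chi M), ← cq_det]
  have h1 : (chi M).submatrix (Qdt_e e) (Qdt_e e) = Matrix.fromBlocks (cq (M (e none) (e none)))
      (fun a p => cq (M (e none) (e (some p.1))) a p.2) 0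
      (chi (M.submatrix (fun k => e (some k)) fun k => e (some k))) := by
    ext x y
    rcases x with a | ⟨k, a⟩ <;> rcases y with b | ⟨l, b⟩
    · rfl
    · rfl
    · show cq (M (e (some k)) (e none)) a b = 0
      rw [h k, cq_zero]
      rfl
    · rfl
  rw [h1, Matrix.det_fromBlocks_zero₂₁]

private def Qdt_pi {m : ℕ} (i j : Fin (m + 1)) : Equiv.Perm (Fin (m + 1)) :=
  (finSuccEquiv' i).trans (finSuccEquiv' j).symm

private theorem Qdt_pi_self {m : ℕ} (i j : Fin (m + 1)) : Qdt_pi i j i = j := by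
  simp [Qdt_pi]

private theorem Qdt_pi_succ {m : ℕ} (i j : Fin (m + 1)) (k : Fin m) :
    Qdt_pi i j (i.succAbove k) = j.succAbove k := by
  simp [Qdt_pi]

theorem dC_row {m : ℕ} (M : Matrix (Fin (m + 1)) (Fin (m + 1)) Hq) (i j : Fin (m + 1))
    (h : ∀ j', j' ≠ j → M i j' = 0) :
    dC M = ((Quaternion.normSq (M i j) : ℚ) : ℂ) * dC (M.submatrix i.succAbove j.succAbove) := by
  have h0 := (dC_perm M (Qdt_pi i j)).1
  have hs : ∀ k, (finSuccEquiv' i).symm (some k) = i.succAbove k := fun k => finSuccEquiv'_symm_some i k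
  have hn : (finSuccEquiv' i).symm none = i := finSuccEquiv'_symm_none i
  have h1 := Qdt_row (finSuccEquiv' i).symm (M.submatrix id (Qdt_pi i j)) (by
    intro k
    rw [Matrix.submatrix_apply, hs, hn, Qdt_pi_succ]
    exact h _ (Fin.succAbove_ne j k))
  rw [← h0, h1]
  congr 2
  · rw [Matrix.submatrix_apply, hn, Qdt_pi_self]
    rfl
  · refine Matrix.ext fun k l => ?_
    rw [Matrix.submatrix_apply, Matrix.submatrix_apply, Matrix.submatrix_apply, hs, hs, Qdt_pi_succ]
    rfl

theorem dC_col {m : ℕ} (M : Matrix (Fin (m + 1)) (Fin (m + 1)) Hq) (i j : Fin (m + 1))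
    (h : ∀ i', i' ≠ i → M i' j = 0) :
    dC M = ((Quaternion.normSq (M i j) : ℚ) : ℂ) * dC (M.submatrix i.succAbove j.succAbove) := by
  have h0 := (dC_perm M (Qdt_pi i j)).1
  have hs : ∀ k, (finSuccEquiv' i).symm (some k) = i.succAbove k := fun k => finSuccEquiv'_symm_some i k
  have hn : (finSuccEquiv' i).symm none = i := finSuccEquiv'_symm_none i
  have h1 := Qdt_col (finSuccEquiv' i).symm (M.submatrix id (Qdt_pi i j)) (by
    intro k
    rw [Matrix.submatrix_apply, hs, hn, Qdt_pi_self]
    exact h _ (Fin.succAbove_ne i k))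
  rw [← h0, h1]
  congr 2
  · rw [Matrix.submatrix_apply, hn, Qdt_pi_self]
    rfl
  · refine Matrix.ext fun k l => ?_
    rw [Matrix.submatrix_apply, Matrix.submatrix_apply, Matrix.submatrix_apply, hs, hs, Qdt_pi_succ]
    rfl

theorem dC_zero_row {R : Type} [Fintype R] [DecidableEq R] (M : Matrix R R Hq) (i : R) (h : ∀ j, M i j = 0) :
    dC M = 0 := by
  unfold dC
  refine Matrix.det_eq_zero_of_row_eq_zero (i, 0) fun j => ?_
  show cq (M i j.1) 0 j.2 = 0
  rw [h, cq_zero]
  rfl

theorem dC_updateCol {R : Type} [Fintype R] [DecidableEq R] (M : Matrix R R Hq) (j : R) (x : R → Hq)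
    (hx : Quaternion.normSq (x j) = 1) : dC (M.updateCol j fun i => ∑ k, M i k * x k) = dC M := by
  have h1 : (M.updateCol j fun i => ∑ k, M i k * x k) = M * (1 : Matrix R R Hq).updateCol j x := by
    ext1 i l
    rw [Matrix.mul_apply]
    by_cases hl : l = j
    · subst hl
      rw [Matrix.updateCol_self]
      refine Finset.sum_congr rfl fun k _ => ?_
      rw [Matrix.updateCol_self]
    · rw [Matrix.updateCol_ne hl]
      rw [Finset.sum_eq_single l]
      · rw [Matrix.updateCol_ne hl, Matrix.one_apply_eq, mul_one]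
      · intro k _ hk
        rw [Matrix.updateCol_ne hl, Matrix.one_apply_ne hk, mul_zero]
      · intro hl'
        exact absurd (Finset.mem_univ l) hl'
  have hn : Equiv.optionSubtypeNe j none = j := Equiv.optionSubtypeNe_none j
  have hs : ∀ k, Equiv.optionSubtypeNe j (some k) = k.1 := fun k => Equiv.optionSubtypeNe_some j k
  have h2 : dC ((1 : Matrix R R Hq).updateCol j x) = 1 := by
    rw [Qdt_row (Equiv.optionSubtypeNe j) _ (by
      intro k
      rw [hn, hs, Matrix.updateCol_ne k.2, Matrix.one_apply_ne k.2.symm])]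
    rw [hn, Matrix.updateCol_self, hx]
    have h3 : ((1 : Matrix R R Hq).updateCol j x).submatrix (fun k => Equiv.optionSubtypeNe j (some k))
        (fun k => Equiv.optionSubtypeNe j (some k)) = 1 := by
      ext1 k l
      rw [Matrix.submatrix_apply, hs, hs, Matrix.updateCol_ne l.2, Matrix.one_apply, Matrix.one_apply]
      by_cases hkl : k = l
      · rw [if_pos hkl, if_pos (congrArg Subtype.val hkl)]
      · rw [if_neg hkl, if_neg fun h => hkl (Subtype.ext h)]
    rw [h3, dC_one]
    simp
  rw [h1, dC_mul, h2, mul_one]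

end Pool.Agent.FRM
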