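import Pool.Agent.FRM.AugC
import Pool.Agent.FRM.AugG
import Pool.Agent.FRM.Rich

/-!
# FRM/SepH: graphs with a separation of order two

PROOF PLAN.  The gains of the paths from `x` to `y` in the two sides form sets `S₁, S₂` (nonempty, `sep_path`; finite by `hx_card` as soon as they are cliques) with `s - t ∈ {0} ∪ hx` for `s ∈ S₁`, `t ∈ S₂` (the two paths form a cycle).  By `hx_clique` and `sep_symm` we may assume that `S₂` is a clique; let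
`S` be it as a `Finset` (`hx_card`).  `G_i = aug A_i x y S`: `C2`, `Phi` (`aug_Phi_far` for `A₁`, `aug_Phi_near` for `A₂`), fewer vertices (`aug_nV`), one of them not `Cyc` (`aug_rich`).
`|S| ≤ 2`: the non-`Cyc` one, `G_i`, has by `IH` a class `v_i`; for the other one take the coboundary `v_j = δ c` with `c` (supported on `x, y`) such that `v_j = v_i` on the edges `inr s` (one or two linear equations, `ch s ≠ ch s'` by `ch_ne`).
`|S| = 3`: both are not `Cyc` (`hx_not_cyc`); classes `v₁, v₂`; the edges `inr s` form a theta (`Th x y [(inr s₁, true)] [(inr s₂, true)] [(inr s₃, true)]`) in both; `Dth v₁ ≠ 0`, `Dth v₂ ≠ 0` (`dth_ne`), `μ = Dth v₁ / Dth v₂`, `Dth (v₁ - μ v₂) = 0` (the values on the edges `inr s` do not depend on `i`), `theta_cob` gives `c` with `v₁ - μ v₂ = δ c` on the edges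
`inr s`; replace `v₂` by `μ v₂ + δ c` (a cochain in `Zc`, not a coboundary since `μ ≠ 0`).  Now `glue_Zc` and `glue_Cob`.
-/

set_option autoImplicit false

noncomputable section

open scoped Classical

namespace Pool.Agent.FRM

open GG

variable {V E : Type} {k : Type} [Field k] {ω : k} {Γ : GG V E Lt}


private theorem SepH_vs {B : Finset E} {a b z : V} {l : List (Da E)} (h : (Γ.on B).Pt a l b)
    (hab : a ≠ b) (hz : z ∈ Γ.vs a l) : z ∈ (Γ.on B).VS := by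
  obtain ⟨d, hd, hd2⟩ := wk_vs h.1 (pt_ne h hab) (z := z) hz
  exact ⟨d.1, (wk_mem h.1 d hd).1, hd2⟩

private theorem SepH_diff (hΦ : Γ.Phi (hx : Set Lt)) {A₁ A₂ : Finset E} {x y : V}
    (h : Γ.Sep A₁ A₂ x y) {P P' : List (Da E)} (hP : (Γ.on A₁).Pt x P y)
    (hP' : (Γ.on A₂).Pt x P' y) : Γ.gn P - Γ.gn P' = 0 ∨ Γ.gn P - Γ.gn P' ∈ hx := by
  have h1 := ((pt_on (sep_sub h)).1 hP).1
  have h2 := ((pt_on (sep_sub (sep_symm h))).1 hP').1
  have h3 := hΦ x y P P' ⟨h.ne, h1, h2, fun z hz hz' =>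
    h.mt z (SepH_vs hP h.ne hz) (SepH_vs hP' h.ne hz')⟩
  simpa using h3

private theorem SepH_gn1 {B : Finset E} {x y : V} {S : Finset Lt} (a : Lt) :
    (Γ.aug B x y S).gn [(Sum.inr a, true)] = a := by
  simp [GG.gn, GG.dg, GG.aug]

/-- the coboundary of `c` in `aug` -/
private def SepH_d (ω : k) (Γ : GG V E Lt) (x y : V) (c : V → k) : E ⊕ Lt → k :=
  Sum.elim (fun e => c (Γ.s e) - ch ω (Γ.g e) * c (Γ.t e)) fun s => c x - ch ω s * c y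

private theorem SepH_d_cob {B : Finset E} {x y : V} {S : Finset Lt} (c : V → k) :
    Cob ω (Γ.aug B x y S) (SepH_d ω Γ x y c) := by
  refine ⟨c, fun f _ => ?_⟩
  cases f with
  | inl e => rfl
  | inr s => rfl

private theorem SepH_two (hω : ω ^ 2 + ω + 1 = 0) (h3 : (3 : k) ≠ 0) {x y : V} (hxy : x ≠ y)
    {a b : Lt} (hab : a - b ∈ hx) (α β : k) :
    ∃ c : V → k, c x - ch ω a * c y = α ∧ c x - ch ω b * c y = β := by
  have hne := ch_ne hω h3 hab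
  have hne' : ch ω b - ch ω a ≠ 0 := sub_ne_zero.2 (Ne.symm hne)
  refine ⟨fun z => if z = y then (α - β) / (ch ω b - ch ω a)
    else α + ch ω a * ((α - β) / (ch ω b - ch ω a)), ?_, ?_⟩
  · simp only [if_true, hxy, if_false]
    ring
  · simp only [if_true, hxy, if_false]
    field_simp
    ring

/-- at most two gains -/
private theorem SepH_le (hω : ω ^ 2 + ω + 1 = 0) (hΓ : Γ.C2) {A₁ A₂ : Finset E}
    {x y : V} (h : Γ.Sep A₁ A₂ x y) {S : Finset Lt}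
    (hS : ∀ s, s ∈ S ↔ ∃ P, (Γ.on A₂).Pt x P y ∧ Γ.gn P = s)
    (hsol : ∀ v : E ⊕ Lt → k, ∃ c : V → k, ∀ s ∈ S, c x - ch ω s * c y = v (Sum.inr s))
    (hH : HasH ω (Γ.aug A₁ x y S) ∨ HasH ω (Γ.aug A₂ x y S)) : HasH ω Γ := by
  rcases hH with ⟨v, hv, hvc⟩ | ⟨v, hv, hvc⟩
  · obtain ⟨c, hc⟩ := hsol v
    have hz : Zc ω (Γ.aug A₂ x y S) (SepH_d ω Γ x y c) := zc_of_cob hω (SepH_d_cob c)
    have he : ∀ s ∈ S, v (Sum.inr s) = SepH_d ω Γ x y c (Sum.inr s) := fun s hs => (hc s hs).symm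
    exact ⟨_, glue_Zc hω hΓ h hS hv hz he, fun hcob => hvc (glue_Cob hω hΓ h hS hv hz he hcob).1⟩
  · obtain ⟨c, hc⟩ := hsol v
    have hz : Zc ω (Γ.aug A₁ x y S) (SepH_d ω Γ x y c) := zc_of_cob hω (SepH_d_cob c)
    have he : ∀ s ∈ S, SepH_d ω Γ x y c (Sum.inr s) = v (Sum.inr s) := fun s hs => hc s hs
    exact ⟨_, glue_Zc hω hΓ h hS hz hv he, fun hcob => hvc (glue_Cob hω hΓ h hS hz hv he hcob).2⟩

private theorem SepH_th {B : Finset E} {x y : V} (hxy : x ≠ y) {S : Finset Lt} {a b c : Lt}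
    (ha : a ∈ S) (hb : b ∈ S) (hc : c ∈ S) :
    (Γ.aug B x y S).Th x y [(Sum.inr a, true)] [(Sum.inr b, true)] [(Sum.inr c, true)] := by
  have key : ∀ p q : Lt, p ∈ S → q ∈ S →
      (Γ.aug B x y S).Cy x y [(Sum.inr p, true)] [(Sum.inr q, true)] := by
    intro p q hp hq
    exact cy_digon (Γ := Γ.aug B x y S) (f := Sum.inr p) (f' := Sum.inr q)
      (aug_mem_inr.2 hp) (aug_mem_inr.2 hq) hxy rfl rfl
  exact ⟨key a b ha hb, key b c hb hc, key a c ha hc⟩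

private theorem SepH_ncyc {B : Finset E} {x y : V} {S : Finset Lt} {a b c : Lt}
    (ha : a ∈ S) (hb : b ∈ S) (hc : c ∈ S) (hab : a - b ∈ hx) (hbc : b - c ∈ hx)
    (hac : a - c ∈ hx) : ¬ (Γ.aug B x y S).Cyc := by
  rintro ⟨g, p, hp⟩
  have h1 : a + p x - p y ∈ AddSubgroup.zmultiples g := hp (Sum.inr a) (aug_mem_inr.2 ha)
  have h2 : b + p x - p y ∈ AddSubgroup.zmultiples g := hp (Sum.inr b) (aug_mem_inr.2 hb)
  have h3 : c + p x - p y ∈ AddSubgroup.zmultiples g := hp (Sum.inr c) (aug_mem_inr.2 hc)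
  have h4 : a - c ∈ AddSubgroup.zmultiples g := by
    have := AddSubgroup.sub_mem _ h1 h3
    rwa [show a + p x - p y - (c + p x - p y) = a - c by abel] at this
  have h5 : b - c ∈ AddSubgroup.zmultiples g := by
    have := AddSubgroup.sub_mem _ h2 h3
    rwa [show b + p x - p y - (c + p x - p y) = b - c by abel] at this
  refine hx_not_cyc hac hbc ?_ h4 h5
  rw [show a - c - (b - c) = a - b by abel]
  exact hab

private theorem SepH_ne {a b : Lt} (h : a - b ∈ hx) : a ≠ b := by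
  rintro rfl
  rw [sub_self] at h
  exact fund_hx.zero (by exact_mod_cast h)

private theorem SepH_three (hω : ω ^ 2 + ω + 1 = 0) (h3 : (3 : k) ≠ 0) (hΓ : Γ.C2)
    {A₁ A₂ : Finset E} {x y : V} (h : Γ.Sep A₁ A₂ x y) {S : Finset Lt}
    (hS : ∀ s, s ∈ S ↔ ∃ P, (Γ.on A₂).Pt x P y ∧ Γ.gn P = s)
    {a b c : Lt} (hab : a - b ∈ hx) (hbc : b - c ∈ hx) (hac : a - c ∈ hx) (hSabc : S = {a, b, c})
    (hC₁ : (Γ.aug A₁ x y S).C2) (hC₂ : (Γ.aug A₂ x y S).C2)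
    (hP₁ : (Γ.aug A₁ x y S).Phi (hx : Set Lt)) (hP₂ : (Γ.aug A₂ x y S).Phi (hx : Set Lt))
    (hH₁ : HasH ω (Γ.aug A₁ x y S)) (hH₂ : HasH ω (Γ.aug A₂ x y S)) : HasH ω Γ := by
  have ha : a ∈ S := by rw [hSabc]; simp
  have hb : b ∈ S := by rw [hSabc]; simp
  have hc : c ∈ S := by rw [hSabc]; simp
  obtain ⟨v₁, hv₁, hn₁⟩ := hH₁
  obtain ⟨v₂, hv₂, hn₂⟩ := hH₂
  have hT₁ := SepH_th (Γ := Γ) (B := A₁) h.ne ha hb hc
  have hT₂ := SepH_th (Γ := Γ) (B := A₂) h.ne ha hb hc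
  have hD₁ := dth_ne hω h3 hC₁ hP₁ hT₁ (by rw [SepH_gn1, SepH_gn1]; exact SepH_ne hab)
    (by rw [SepH_gn1, SepH_gn1]; exact SepH_ne hbc) (by rw [SepH_gn1, SepH_gn1]; exact SepH_ne hac)
    hv₁ hn₁
  have hD₂ := dth_ne hω h3 hC₂ hP₂ hT₂ (by rw [SepH_gn1, SepH_gn1]; exact SepH_ne hab)
    (by rw [SepH_gn1, SepH_gn1]; exact SepH_ne hbc) (by rw [SepH_gn1, SepH_gn1]; exact SepH_ne hac)
    hv₂ hn₂
  have hDv : ∀ (B : Finset E) (v : E ⊕ Lt → k), Dth ω (Γ.aug B x y S) v [(Sum.inr a, true)]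
      [(Sum.inr b, true)] [(Sum.inr c, true)] =
      (ch ω c - ch ω b) * v (Sum.inr a) + (ch ω a - ch ω c) * v (Sum.inr b) +
        (ch ω b - ch ω a) * v (Sum.inr c) := by
    intro B v
    rw [Dth, SepH_gn1, SepH_gn1, SepH_gn1, tv_single, tv_single, tv_single]
  rw [hDv] at hD₁ hD₂
  set D₁ := (ch ω c - ch ω b) * v₁ (Sum.inr a) + (ch ω a - ch ω c) * v₁ (Sum.inr b) +
        (ch ω b - ch ω a) * v₁ (Sum.inr c) with hD₁d
  set D₂ := (ch ω c - ch ω b) * v₂ (Sum.inr a) + (ch ω a - ch ω c) * v₂ (Sum.inr b) +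
        (ch ω b - ch ω a) * v₂ (Sum.inr c) with hD₂d
  set μ := D₁ / D₂ with hμ
  have hμD : μ * D₂ = D₁ := div_mul_cancel₀ _ hD₂
  have hD0 : Dth ω (Γ.aug A₁ x y S) (fun e => v₁ e - μ * v₂ e) [(Sum.inr a, true)]
      [(Sum.inr b, true)] [(Sum.inr c, true)] = 0 := by
    rw [hDv]
    have e1 : (ch ω c - ch ω b) * (v₁ (Sum.inr a) - μ * v₂ (Sum.inr a)) +
        (ch ω a - ch ω c) * (v₁ (Sum.inr b) - μ * v₂ (Sum.inr b)) +
        (ch ω b - ch ω a) * (v₁ (Sum.inr c) - μ * v₂ (Sum.inr c)) = D₁ - μ * D₂ := by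
      rw [hD₁d, hD₂d]
      ring
    rw [e1, hμD, sub_self]
  obtain ⟨c₀, hc₀⟩ := theta_cob hω h3 hT₁ (by rw [SepH_gn1, SepH_gn1]; exact hab) _ hD0
  have hval : ∀ s ∈ S, v₁ (Sum.inr s) - μ * v₂ (Sum.inr s) = c₀ x - ch ω s * c₀ y := by
    intro s hs
    refine hc₀ (Sum.inr s) ?_
    rw [hSabc, Finset.mem_insert, Finset.mem_insert, Finset.mem_singleton] at hs
    simp only [GG.on, Finset.mem_union, mem_eds, List.mem_singleton, exists_eq_left,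
      Sum.inr.injEq]
    rcases hs with rfl | rfl | rfl
    · exact Or.inl (Or.inl rfl)
    · exact Or.inl (Or.inr rfl)
    · exact Or.inr rfl
  have hz : Zc ω (Γ.aug A₂ x y S) (fun e => μ * v₂ e + SepH_d ω Γ x y c₀ e) :=
    zc_add (zc_smul μ hv₂) (zc_of_cob hω (SepH_d_cob c₀))
  have he : ∀ s ∈ S, v₁ (Sum.inr s) =
      (fun e => μ * v₂ e + SepH_d ω Γ x y c₀ e) (Sum.inr s) := by
    intro s hs
    have h1 := hval s hs
    have h2 : SepH_d ω Γ x y c₀ (Sum.inr s) = c₀ x - ch ω s * c₀ y := rfl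
    dsimp only
    rw [h2, ← h1]
    ring
  exact ⟨_, glue_Zc hω hΓ h hS hv₁ hz he, fun hcob => hn₁ (glue_Cob hω hΓ h hS hv₁ hz he hcob).1⟩

private theorem SepH_main (hω : ω ^ 2 + ω + 1 = 0) (h3 : (3 : k) ≠ 0) (hΓ : Γ.C2)
    (hΦ : Γ.Phi (hx : Set Lt)) (hc : ¬ Γ.Cyc) (hI : IH ω Γ) {A₁ A₂ : Finset E} {x y : V}
    (h : Γ.Sep A₁ A₂ x y)
    (hcl : ∀ s ∈ {s : Lt | ∃ P, (Γ.on A₂).Pt x P y ∧ Γ.gn P = s},
      ∀ s' ∈ {s : Lt | ∃ P, (Γ.on A₂).Pt x P y ∧ Γ.gn P = s}, s - s' = 0 ∨ s - s' ∈ hx) :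
    HasH ω Γ := by
  have hne : ({s : Lt | ∃ P, (Γ.on A₂).Pt x P y ∧ Γ.gn P = s} : Set Lt).Nonempty := by
    obtain ⟨P, hP⟩ := sep_path hΓ (sep_symm h)
    exact ⟨_, P, hP, rfl⟩
  -- everything for a given finite set
  have key : ∀ S : Finset Lt, (∀ s, s ∈ S ↔ ∃ P, (Γ.on A₂).Pt x P y ∧ Γ.gn P = s) →
      (Γ.aug A₁ x y S).C2 ∧ (Γ.aug A₂ x y S).C2 ∧ (Γ.aug A₁ x y S).Phi (hx : Set Lt) ∧
      (Γ.aug A₂ x y S).Phi (hx : Set Lt) ∧
      (¬ (Γ.aug A₁ x y S).Cyc → HasH ω (Γ.aug A₁ x y S)) ∧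
      (¬ (Γ.aug A₂ x y S).Cyc → HasH ω (Γ.aug A₂ x y S)) ∧
      (HasH ω (Γ.aug A₁ x y S) ∨ HasH ω (Γ.aug A₂ x y S)) := by
    intro S hS
    have hSne : S.Nonempty := by
      obtain ⟨s, hs⟩ := hne
      exact ⟨s, (hS s).2 hs⟩
    have hScl : ∀ s ∈ S, ∀ s' ∈ S, s - s' = 0 ∨ s - s' ∈ hx := fun s hs s' hs' =>
      hcl s ((hS s).1 hs) s' ((hS s').1 hs')
    have c1 := aug_C2 hΓ h hSne
    have c2 := aug_C2 hΓ (sep_symm h) hSne
    have p1 := aug_Phi_far hΓ hΦ h (fun s hs => (hS s).1 hs) hScl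
    have p2 := aug_Phi_near hΓ hΦ (sep_sub (sep_symm h)) h.ne
      (fun P hP => (hS _).2 ⟨P, hP, rfl⟩) hScl
    have i1 : ¬ (Γ.aug A₁ x y S).Cyc → HasH ω (Γ.aug A₁ x y S) := fun hn =>
      hI _ _ (Or.inl (aug_nV hΓ h)) c1 p1 hn
    have i2 : ¬ (Γ.aug A₂ x y S).Cyc → HasH ω (Γ.aug A₂ x y S) := fun hn =>
      hI _ _ (Or.inl (aug_nV hΓ (sep_symm h))) c2 p2 hn
    refine ⟨c1, c2, p1, p2, i1, i2, ?_⟩
    rcases aug_rich hΓ hΦ hc h hSne hS hScl with hn | hn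
    · exact Or.inl (i1 hn)
    · exact Or.inr (i2 hn)
  rcases hx_card _ hne hcl with ⟨a, ha⟩ | ⟨a, b, hab, hS0⟩ | ⟨a, b, c, hab, hbc, hac, hS0⟩
  · have hS : ∀ s, s ∈ ({a} : Finset Lt) ↔ ∃ P, (Γ.on A₂).Pt x P y ∧ Γ.gn P = s := by
      intro s
      have : s ∈ ({s : Lt | ∃ P, (Γ.on A₂).Pt x P y ∧ Γ.gn P = s} : Set Lt) ↔ s ∈ ({a} : Set Lt) := by
        rw [ha]
      rw [Finset.mem_singleton]
      exact this.symm
    obtain ⟨_, _, _, _, _, _, hH⟩ := key {a} hS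
    refine SepH_le hω hΓ h hS (fun v => ?_) hH
    refine ⟨fun z => if z = x then v (Sum.inr a) else 0, fun s hs => ?_⟩
    rw [Finset.mem_singleton] at hs
    subst hs
    simp only [if_true, h.ne.symm, if_false]
    ring
  · have hS : ∀ s, s ∈ ({a, b} : Finset Lt) ↔ ∃ P, (Γ.on A₂).Pt x P y ∧ Γ.gn P = s := by
      intro s
      have : s ∈ ({s : Lt | ∃ P, (Γ.on A₂).Pt x P y ∧ Γ.gn P = s} : Set Lt) ↔
          s ∈ ({a, b} : Set Lt) := by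
        rw [hS0]
      rw [Finset.mem_insert, Finset.mem_singleton]
      exact this.symm
    obtain ⟨_, _, _, _, _, _, hH⟩ := key {a, b} hS
    refine SepH_le hω hΓ h hS (fun v => ?_) hH
    obtain ⟨c, hc1, hc2⟩ := SepH_two hω h3 h.ne hab (v (Sum.inr a)) (v (Sum.inr b))
    refine ⟨c, fun s hs => ?_⟩
    rw [Finset.mem_insert, Finset.mem_singleton] at hs
    rcases hs with rfl | rfl
    · exact hc1
    · exact hc2
  · have hS : ∀ s, s ∈ ({a, b, c} : Finset Lt) ↔ ∃ P, (Γ.on A₂).Pt x P y ∧ Γ.gn P = s := by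
      intro s
      have : s ∈ ({s : Lt | ∃ P, (Γ.on A₂).Pt x P y ∧ Γ.gn P = s} : Set Lt) ↔
          s ∈ ({a, b, c} : Set Lt) := by
        rw [hS0]
      rw [Finset.mem_insert, Finset.mem_insert, Finset.mem_singleton]
      exact this.symm
    obtain ⟨c1, c2, p1, p2, i1, i2, _⟩ := key {a, b, c} hS
    have ha : a ∈ ({a, b, c} : Finset Lt) := by simp
    have hb : b ∈ ({a, b, c} : Finset Lt) := by simp
    have hc' : c ∈ ({a, b, c} : Finset Lt) := by simp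
    exact SepH_three hω h3 hΓ h hS hab hbc hac rfl c1 c2 p1 p2
      (i1 (SepH_ncyc ha hb hc' hab hbc hac)) (i2 (SepH_ncyc ha hb hc' hab hbc hac))

theorem sep_hasH (hω : ω ^ 2 + ω + 1 = 0) (h3 : (3 : k) ≠ 0) (hΓ : Γ.C2) (hΦ : Γ.Phi (hx : Set Lt)) (hc : ¬ Γ.Cyc)
    (hI : IH ω Γ) {A₁ A₂ : Finset E} {x y : V} (h : Γ.Sep A₁ A₂ x y) : HasH ω Γ := by
  have hne1 : ({s : Lt | ∃ P, (Γ.on A₁).Pt x P y ∧ Γ.gn P = s} : Set Lt).Nonempty := by
    obtain ⟨P, hP⟩ := sep_path hΓ h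
    exact ⟨_, P, hP, rfl⟩
  have hne2 : ({s : Lt | ∃ P, (Γ.on A₂).Pt x P y ∧ Γ.gn P = s} : Set Lt).Nonempty := by
    obtain ⟨P, hP⟩ := sep_path hΓ (sep_symm h)
    exact ⟨_, P, hP, rfl⟩
  rcases hx_clique _ _ hne1 hne2 (by
    rintro s ⟨P, hP, rfl⟩ t ⟨P', hP', rfl⟩
    exact SepH_diff hΦ h hP hP') with hcl | hcl
  · exact SepH_main hω h3 hΓ hΦ hc hI (sep_symm h) hcl
  · exact SepH_main hω h3 hΓ hΦ hc hI h hcl

end Pool.Agent.FRM
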