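import Pool.Agent.FRM.Red
import Pool.Agent.FRM.Cb2

/-!
# FRM/Tri3: three vertices, all edges doubled

The vertices are `x, y, z`; any two of them are joined by exactly two edges.  Darts `dd i b : p i → p (i + 1)`, `i : Fin 3`,
`b : Bool`.  There are six edges, at most two balanced triangles (conditions), and the coboundaries have dimension at most three.
-/

set_option autoImplicit false

noncomputable section

namespace Pool.Agent.FRM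

private def Tri3_Hl : List Lt := [(1, 0), (0, 1), (-1, -1), (-1, 0), (0, -1), (1, 1)]

private theorem Tri3_mem {h : Lt} (hh : h ∈ hx) : h ∈ Tri3_Hl := by
  simpa [hx, Tri3_Hl] using hh

private def Tri3_ck1 (h₁ h₁' h₂ h₃ : Lt) : Bool :=
  !(decide (h₁' - h₁ ∈ Tri3_Hl)) || decide (h₁ = h₂) || decide (h₁ = -h₂) || decide (h₂ = h₃) || decide (h₂ = -h₃) ||
    decide (h₁ = h₃) || decide (h₁ = -h₃) || decide (h₁' = h₂) || decide (h₁' = -h₂) || decide (h₁' = h₃) ||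
    decide (h₁' = -h₃)

private theorem Tri3_ck1_all : (Tri3_Hl.all fun a => Tri3_Hl.all fun b => Tri3_Hl.all fun c => Tri3_Hl.all fun d =>
    Tri3_ck1 a b c d) = true := by decide

private def Tri3_ck2 (h₁ h₂ h₃ : Lt) (b₁ b₂ b₃ c₁ c₂ c₃ : Bool) : Bool :=
  !(decide ((if b₁ then h₁ else 0) + (if b₂ then h₂ else 0) + (if b₃ then h₃ else 0) =
      (if c₁ then h₁ else 0) + (if c₂ then h₂ else 0) + (if c₃ then h₃ else 0))) ||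
    ((b₁ == c₁) && (b₂ == c₂) && (b₃ == c₃)) || ((b₁ != c₁) && (b₂ != c₂) && (b₃ != c₃))

private theorem Tri3_ck2_all : (Tri3_Hl.all fun a => Tri3_Hl.all fun b => Tri3_Hl.all fun c =>
    (decide (a = b) || decide (a = -b) || decide (b = c) || decide (b = -c) || decide (a = c) || decide (a = -c)) ||
    ([true, false].all fun b₁ => [true, false].all fun b₂ => [true, false].all fun b₃ => [true, false].all fun c₁ =>
      [true, false].all fun c₂ => [true, false].all fun c₃ => Tri3_ck2 a b c b₁ b₂ b₃ c₁ c₂ c₃)) = true := by decide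

/-- three edges between two vertices are impossible (finite part) -/
private theorem Tri3_third_fin {h₁ h₁' h₂ h₃ : Lt} (m₁ : h₁ ∈ hx) (m₁' : h₁' ∈ hx) (m₂ : h₂ ∈ hx) (m₃ : h₃ ∈ hx)
    (m : h₁' - h₁ ∈ hx)
    (a : (h₁ ≠ h₂ ∧ h₁ ≠ -h₂) ∧ (h₂ ≠ h₃ ∧ h₂ ≠ -h₃) ∧ (h₁ ≠ h₃ ∧ h₁ ≠ -h₃))
    (a' : (h₁' ≠ h₂ ∧ h₁' ≠ -h₂) ∧ (h₂ ≠ h₃ ∧ h₂ ≠ -h₃) ∧ (h₁' ≠ h₃ ∧ h₁' ≠ -h₃)) : False := by
  have h := Tri3_ck1_all
  rw [List.all_eq_true] at h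
  have h1 := h _ (Tri3_mem m₁)
  rw [List.all_eq_true] at h1
  have h2 := h1 _ (Tri3_mem m₁')
  rw [List.all_eq_true] at h2
  have h3 := h2 _ (Tri3_mem m₂)
  rw [List.all_eq_true] at h3
  have h4 := h3 _ (Tri3_mem m₃)
  obtain ⟨⟨a1, a2⟩, ⟨a3, a4⟩, a5, a6⟩ := a
  obtain ⟨⟨b1, b2⟩, -, b5, b6⟩ := a'
  have m' := Tri3_mem m
  simp only [Tri3_ck1, Bool.or_eq_true, Bool.not_eq_true', decide_eq_false_iff_not, decide_eq_true_eq] at h4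
  tauto

/-- two balanced triangles are equal or complementary (finite part) -/
private theorem Tri3_bal_fin {h₁ h₂ h₃ : Lt} (m₁ : h₁ ∈ hx) (m₂ : h₂ ∈ hx) (m₃ : h₃ ∈ hx)
    (a : (h₁ ≠ h₂ ∧ h₁ ≠ -h₂) ∧ (h₂ ≠ h₃ ∧ h₂ ≠ -h₃) ∧ (h₁ ≠ h₃ ∧ h₁ ≠ -h₃)) (b₁ b₂ b₃ c₁ c₂ c₃ : Bool)
    (e : (if b₁ then h₁ else 0) + (if b₂ then h₂ else 0) + (if b₃ then h₃ else 0) =
      (if c₁ then h₁ else 0) + (if c₂ then h₂ else 0) + (if c₃ then h₃ else 0)) :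
    (b₁ = c₁ ∧ b₂ = c₂ ∧ b₃ = c₃) ∨ (b₁ = !c₁ ∧ b₂ = !c₂ ∧ b₃ = !c₃) := by
  have h := Tri3_ck2_all
  rw [List.all_eq_true] at h
  have h1 := h _ (Tri3_mem m₁)
  rw [List.all_eq_true] at h1
  have h2 := h1 _ (Tri3_mem m₂)
  rw [List.all_eq_true] at h2
  have h3 := h2 _ (Tri3_mem m₃)
  obtain ⟨⟨a1, a2⟩, ⟨a3, a4⟩, a5, a6⟩ := a
  rw [Bool.or_eq_true] at h3
  rcases h3 with h3 | h3
  · simp only [Bool.or_eq_true, decide_eq_true_eq] at h3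
    tauto
  · have hb : ∀ b : Bool, b ∈ [true, false] := by decide
    rw [List.all_eq_true] at h3
    have h4 := h3 _ (hb b₁)
    rw [List.all_eq_true] at h4
    have h5 := h4 _ (hb b₂)
    rw [List.all_eq_true] at h5
    have h6 := h5 _ (hb b₃)
    rw [List.all_eq_true] at h6
    have h7 := h6 _ (hb c₁)
    rw [List.all_eq_true] at h7
    have h8 := h7 _ (hb c₂)
    rw [List.all_eq_true] at h8
    have h9 := h8 _ (hb c₃)
    unfold Tri3_ck2 at h9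
    rw [decide_eq_true e] at h9
    revert h9
    clear h3 h4 h5 h6 h7 h8 e
    revert b₁ b₂ b₃ c₁ c₂ c₃
    decide

end Pool.Agent.FRM

open scoped Classical

namespace Pool.Agent.FRM

open GG

variable {V E : Type} {k : Type} [Field k] {ω : k} {Γ : GG V E Lt}

/-- two adjacent vertices -/
private theorem Tri3_adj (hΓ : Γ.C2) {a b c : V} (hV : ∀ z ∈ Γ.VS, z = a ∨ z = b ∨ z = c) (ha : a ∈ Γ.VS) (hb : b ∈ Γ.VS)
    (hab : a ≠ b) (hac : a ≠ c) (hbc : b ≠ c) : ∃ d : Da E, d.1 ∈ Γ.A ∧ Γ.src d = a ∧ Γ.tgt d = b := by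
  obtain ⟨l, hl, hcl⟩ := hΓ.cut c a ha b hb hac hbc
  obtain ⟨l', hp, hsub, -⟩ := pt_of_wk hl
  have hne := pt_ne hp hab
  have hlen : ¬ 2 ≤ l'.length := by
    intro h2
    obtain ⟨z, hz, hza, hzb⟩ := pt_inner hp h2
    have h3 : z ∈ Γ.VS := wk_VS hp.1 ha hz
    rcases hV z h3 with h | h | h
    · exact hza h
    · exact hzb h
    · exact hcl (h ▸ hsub z hz)
  match l', hne, hlen, hp with
  | [d], _, _, hp =>
    obtain ⟨h1, h2, h3⟩ := hp.1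
    exact ⟨d, h1, h2, h3⟩
  | _ :: _ :: _, _, hlen, _ => simp at hlen

/-- a parallel dart -/
private theorem Tri3_par {d : Da E} (h : ¬ Γ.Pfree d.1) :
    ∃ d' : Da E, d'.1 ∈ Γ.A ∧ d.1 ≠ d'.1 ∧ Γ.src d' = Γ.src d ∧ Γ.tgt d' = Γ.tgt d := by
  unfold GG.Pfree at h
  push Not at h
  obtain ⟨f, hf, hne, h⟩ := h
  obtain ⟨e, β⟩ := d
  by_cases h1 : Γ.s f = Γ.s e ∧ Γ.t f = Γ.t e
  · refine ⟨(f, β), hf, Ne.symm hne, ?_, ?_⟩
    · simp only [GG.src, h1.1, h1.2]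
    · simp only [GG.tgt, h1.1, h1.2]
  · have h2 := h (fun h3 h4 => h1 ⟨h3, h4⟩)
    refine ⟨(f, !β), hf, Ne.symm hne, ?_, ?_⟩
    · cases β <;> simp [GG.src, h2.1, h2.2]
    · cases β <;> simp [GG.tgt, h2.1, h2.2]


/-- a single dart is a path -/
private theorem Tri3_pt1 {a b : V} {d : Da E} (h : d.1 ∈ Γ.A) (hs : Γ.src d = a) (ht : Γ.tgt d = b) (hab : a ≠ b) :
    Γ.Pt a [d] b := by
  refine ⟨⟨h, hs, ht⟩, ?_⟩
  simp only [GG.vs, List.map_cons, List.map_nil, List.nodup_cons, List.mem_singleton, List.not_mem_nil,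
    not_false_eq_true, List.nodup_nil, and_true]
  rw [ht]
  exact hab

private theorem Tri3_same {d d' : Da E} (h : d.1 = d'.1) :
    (Γ.src d = Γ.src d' ∧ Γ.tgt d = Γ.tgt d') ∨ (Γ.src d = Γ.tgt d' ∧ Γ.tgt d = Γ.src d') := by
  obtain ⟨e, β⟩ := d
  obtain ⟨e', β'⟩ := d'
  obtain rfl : e = e' := h
  cases β <;> cases β' <;> simp [GG.src, GG.tgt]

private theorem Tri3_eq {d d' : Da E} (h : d.1 = d'.1) (hs : Γ.src d = Γ.src d') (hd : Γ.src d ≠ Γ.tgt d) : d = d' := by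
  obtain ⟨e, β⟩ := d
  obtain ⟨e', β'⟩ := d'
  obtain rfl : e = e' := h
  cases β <;> cases β' <;> simp_all [GG.src, GG.tgt]

/-- the gains of parallel darts differ by a root -/
private theorem Tri3_dig (hΦ : Γ.Phi (hx : Set Lt)) (hN : Γ.ND) {a b : V} (hab : a ≠ b) {d d' : Da E}
    (h : d.1 ∈ Γ.A) (h' : d'.1 ∈ Γ.A) (hne : d.1 ≠ d'.1) (hs : Γ.src d = a) (ht : Γ.tgt d = b) (hs' : Γ.src d' = a)
    (ht' : Γ.tgt d' = b) : Γ.dg d' - Γ.dg d ∈ hx := by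
  have hcy : Γ.Cy a b [d'] [d] := by
    refine ⟨hab, Tri3_pt1 h' hs' ht' hab, Tri3_pt1 h hs ht hab, fun z hz _ => ?_⟩
    simp only [GG.vs, List.map_cons, List.map_nil, List.mem_cons, List.not_mem_nil, or_false] at hz
    rcases hz with hz | hz
    · exact Or.inl hz
    · exact Or.inr (hz.trans ht')
  have e1 : Γ.gn [d'] = Γ.dg d' := by simp [GG.gn]
  have e2 : Γ.gn [d] = Γ.dg d := by simp [GG.gn]
  rcases hΦ _ _ _ _ hcy with h1 | h1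
  · exfalso
    rw [e1, e2, sub_eq_zero] at h1
    refine hN _ h _ h' hne ?_
    obtain ⟨e, β⟩ := d
    obtain ⟨e', β'⟩ := d'
    unfold GG.Par
    cases β <;> cases β' <;> simp_all [GG.src, GG.tgt, GG.dg]
    rw [← h1, neg_neg]
  · rw [e1, e2] at h1
    exact_mod_cast h1

/-- triangles are cycles -/
private theorem Tri3_cy {a b c : V} (hab : a ≠ b) (hbc : b ≠ c) (hac : a ≠ c) {d₁ d₂ d₃ : Da E}
    (h₁ : d₁.1 ∈ Γ.A) (h₂ : d₂.1 ∈ Γ.A) (h₃ : d₃.1 ∈ Γ.A) (s₁ : Γ.src d₁ = a) (t₁ : Γ.tgt d₁ = b) (s₂ : Γ.src d₂ = b)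
    (t₂ : Γ.tgt d₂ = c) (s₃ : Γ.src d₃ = c) (t₃ : Γ.tgt d₃ = a) : Γ.Cy a c [d₁, d₂] [fl d₃] := by
  refine ⟨hac, ⟨⟨h₁, s₁, h₂, s₂.trans t₁.symm, t₂⟩, ?_⟩, Tri3_pt1 h₃ ?_ ?_ hac, fun z _ hz => ?_⟩
  · simp only [GG.vs, List.map_cons, List.map_nil, t₁, t₂]
    simp [hab, hbc, hac]
  · rw [src_fl, t₃]
  · rw [tgt_fl, s₃]
  · simp only [GG.vs, List.map_cons, List.map_nil, List.mem_cons, List.not_mem_nil, or_false] at hz
    rcases hz with hz | hz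
    · exact Or.inl hz
    · right
      rw [hz, tgt_fl, s₃]

private theorem Tri3_tri (hΦ : Γ.Phi (hx : Set Lt)) {a b c : V} (hab : a ≠ b) (hbc : b ≠ c) (hac : a ≠ c)
    {d₁ d₂ d₃ : Da E} (h₁ : d₁.1 ∈ Γ.A) (h₂ : d₂.1 ∈ Γ.A) (h₃ : d₃.1 ∈ Γ.A) (s₁ : Γ.src d₁ = a) (t₁ : Γ.tgt d₁ = b)
    (s₂ : Γ.src d₂ = b) (t₂ : Γ.tgt d₂ = c) (s₃ : Γ.src d₃ = c) (t₃ : Γ.tgt d₃ = a) :
    Γ.dg d₁ + Γ.dg d₂ + Γ.dg d₃ = 0 ∨ Γ.dg d₁ + Γ.dg d₂ + Γ.dg d₃ ∈ hx := by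
  have h := hΦ _ _ _ _ (Tri3_cy hab hbc hac h₁ h₂ h₃ s₁ t₁ s₂ t₂ s₃ t₃)
  have e : Γ.gn [d₁, d₂] - Γ.gn [fl d₃] = Γ.dg d₁ + Γ.dg d₂ + Γ.dg d₃ := by
    simp only [gn_cons, gn_nil, dg_fl]
    abel
  rw [e] at h
  exact_mod_cast h

/-- the differences of the gains of the three pairs of parallel darts are different up to sign -/
private theorem Tri3_diff (hΦ : Γ.Phi (hx : Set Lt)) (hN : Γ.ND) {a b c : V} (hab : a ≠ b) (hbc : b ≠ c) (hac : a ≠ c)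
    {d₁ d₁' d₂ d₂' d₃ d₃' : Da E} (h₁ : d₁.1 ∈ Γ.A) (h₂ : d₂.1 ∈ Γ.A) (h₃ : d₃.1 ∈ Γ.A) (h₁' : d₁'.1 ∈ Γ.A)
    (h₂' : d₂'.1 ∈ Γ.A) (h₃' : d₃'.1 ∈ Γ.A)
    (n₁ : d₁.1 ≠ d₁'.1) (n₂ : d₂.1 ≠ d₂'.1) (n₃ : d₃.1 ≠ d₃'.1) (s₁ : Γ.src d₁ = a) (t₁ : Γ.tgt d₁ = b)
    (s₂ : Γ.src d₂ = b) (t₂ : Γ.tgt d₂ = c) (s₃ : Γ.src d₃ = c) (t₃ : Γ.tgt d₃ = a) (s₁' : Γ.src d₁' = a)
    (t₁' : Γ.tgt d₁' = b) (s₂' : Γ.src d₂' = b) (t₂' : Γ.tgt d₂' = c) (s₃' : Γ.src d₃' = c) (t₃' : Γ.tgt d₃' = a) :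
    (Γ.dg d₁' - Γ.dg d₁ ∈ hx ∧ Γ.dg d₂' - Γ.dg d₂ ∈ hx ∧ Γ.dg d₃' - Γ.dg d₃ ∈ hx) ∧
    (Γ.dg d₁' - Γ.dg d₁ ≠ Γ.dg d₂' - Γ.dg d₂ ∧ Γ.dg d₁' - Γ.dg d₁ ≠ -(Γ.dg d₂' - Γ.dg d₂)) ∧
    (Γ.dg d₂' - Γ.dg d₂ ≠ Γ.dg d₃' - Γ.dg d₃ ∧ Γ.dg d₂' - Γ.dg d₂ ≠ -(Γ.dg d₃' - Γ.dg d₃)) ∧
    (Γ.dg d₁' - Γ.dg d₁ ≠ Γ.dg d₃' - Γ.dg d₃ ∧ Γ.dg d₁' - Γ.dg d₁ ≠ -(Γ.dg d₃' - Γ.dg d₃)) := by
  have m₁ := Tri3_dig hΦ hN hab h₁ h₁' n₁ s₁ t₁ s₁' t₁'
  have m₂ := Tri3_dig hΦ hN hbc h₂ h₂' n₂ s₂ t₂ s₂' t₂'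
  have m₃ := Tri3_dig hΦ hN hac.symm h₃ h₃' n₃ s₃ t₃ s₃' t₃'
  refine ⟨⟨m₁, m₂, m₃⟩, hx_three (a := Γ.dg d₁ + Γ.dg d₂ + Γ.dg d₃) m₁ m₂ m₃ fun b₁ b₂ b₃ => ?_⟩
  have key : ∀ (x₁ x₂ x₃ : Da E), (x₁ = d₁ ∨ x₁ = d₁') → (x₂ = d₂ ∨ x₂ = d₂') → (x₃ = d₃ ∨ x₃ = d₃') →
      (Γ.dg x₁ + Γ.dg x₂ + Γ.dg x₃ = 0 ∨ Γ.dg x₁ + Γ.dg x₂ + Γ.dg x₃ ∈ hx) := by
    rintro x₁ x₂ x₃ e₁ e₂ e₃
    rcases e₁ with rfl | rfl <;> rcases e₂ with rfl | rfl <;> rcases e₃ with rfl | rfl <;>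
      exact Tri3_tri hΦ hab hbc hac (by assumption) (by assumption) (by assumption) (by assumption) (by assumption)
        (by assumption) (by assumption) (by assumption) (by assumption)
  have h := key (if b₁ then d₁' else d₁) (if b₂ then d₂' else d₂) (if b₃ then d₃' else d₃)
    (by cases b₁ <;> simp) (by cases b₂ <;> simp) (by cases b₃ <;> simp)
  have e : Γ.dg (if b₁ then d₁' else d₁) + Γ.dg (if b₂ then d₂' else d₂) + Γ.dg (if b₃ then d₃' else d₃) =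
      Γ.dg d₁ + Γ.dg d₂ + Γ.dg d₃ + (if b₁ then Γ.dg d₁' - Γ.dg d₁ else 0) + (if b₂ then Γ.dg d₂' - Γ.dg d₂ else 0) +
        (if b₃ then Γ.dg d₃' - Γ.dg d₃ else 0) := by
    cases b₁ <;> cases b₂ <;> cases b₃ <;> simp only [if_true, Bool.false_eq_true, if_false] <;> abel
  rw [e] at h
  exact h

/-- no third edge -/
private theorem Tri3_third (hΦ : Γ.Phi (hx : Set Lt)) (hN : Γ.ND) {a b c : V} (hab : a ≠ b) (hbc : b ≠ c) (hac : a ≠ c)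
    {e d₁ d₁' d₂ d₂' d₃ d₃' : Da E} (he : e.1 ∈ Γ.A) (h₁ : d₁.1 ∈ Γ.A) (h₂ : d₂.1 ∈ Γ.A) (h₃ : d₃.1 ∈ Γ.A)
    (h₁' : d₁'.1 ∈ Γ.A) (h₂' : d₂'.1 ∈ Γ.A) (h₃' : d₃'.1 ∈ Γ.A)
    (n₁ : d₁.1 ≠ d₁'.1) (n₂ : d₂.1 ≠ d₂'.1) (n₃ : d₃.1 ≠ d₃'.1) (s₁ : Γ.src d₁ = a) (t₁ : Γ.tgt d₁ = b)
    (s₂ : Γ.src d₂ = b) (t₂ : Γ.tgt d₂ = c) (s₃ : Γ.src d₃ = c) (t₃ : Γ.tgt d₃ = a) (s₁' : Γ.src d₁' = a)
    (t₁' : Γ.tgt d₁' = b) (s₂' : Γ.src d₂' = b) (t₂' : Γ.tgt d₂' = c) (s₃' : Γ.src d₃' = c) (t₃' : Γ.tgt d₃' = a)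
    (se : Γ.src e = a) (te : Γ.tgt e = b) (ne : d₁.1 ≠ e.1) (ne' : d₁'.1 ≠ e.1) : False := by
  obtain ⟨⟨m₁, m₂, m₃⟩, a1⟩ := Tri3_diff hΦ hN hab hbc hac h₁ h₂ h₃ h₁' h₂' h₃' n₁ n₂ n₃ s₁ t₁ s₂ t₂ s₃ t₃ s₁' t₁' s₂'
    t₂' s₃' t₃'
  obtain ⟨⟨m₁', -, -⟩, a2⟩ := Tri3_diff hΦ hN hab hbc hac h₁ h₂ h₃ he h₂' h₃' ne n₂ n₃ s₁ t₁ s₂ t₂ s₃ t₃ se te s₂'
    t₂' s₃' t₃'
  have m := Tri3_dig hΦ hN hab h₁' he ne' s₁' t₁' se te
  refine Tri3_third_fin m₁ m₁' m₂ m₃ ?_ a1 a2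
  have e1 : Γ.dg e - Γ.dg d₁ - (Γ.dg d₁' - Γ.dg d₁) = Γ.dg e - Γ.dg d₁' := by abel
  rw [e1]
  exact m


/-- The configuration: three vertices `p i`, darts `dd i b : p i → p (i + 1)`. -/
private structure Tri3_Cfg (Γ : GG V E Lt) where
  p : Fin 3 → V
  dd : Fin 3 → Bool → Da E
  inj : Function.Injective p
  all : ∀ z ∈ Γ.VS, ∃ i, z = p i
  mem : ∀ i b, (dd i b).1 ∈ Γ.A
  src : ∀ i b, Γ.src (dd i b) = p i
  tgt : ∀ i b, Γ.tgt (dd i b) = p (i + 1)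
  ne : ∀ i, (dd i false).1 ≠ (dd i true).1
  ex : ∀ i, ∀ e : Da E, e.1 ∈ Γ.A → Γ.src e = p i → Γ.tgt e = p (i + 1) → ∃ b, e = dd i b

private theorem Tri3_f1 : ∀ i j : Fin 3, j = i ∨ j = i + 1 ∨ j = i + 2 := by decide
private theorem Tri3_f2 : ∀ i : Fin 3, i ≠ i + 1 := by decide
private theorem Tri3_f3 : ∀ i : Fin 3, i ≠ i + 2 := by decide
private theorem Tri3_f4 : ∀ i : Fin 3, i + 1 ≠ i + 2 := by decide
private theorem Tri3_f5 : ∀ i : Fin 3, i + 2 + 1 = i := by decide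
private theorem Tri3_f6 : ∀ i : Fin 3, i + 1 + 1 = i + 2 := by decide

private theorem Tri3_cfg (hΓ : Γ.C2) (hΦ : Γ.Phi (hx : Set Lt)) (hN : Γ.ND) (hV : Γ.nV = 3)
    (hp : ∀ e ∈ Γ.A, ¬ Γ.Pfree e) : Nonempty (Tri3_Cfg Γ) := by
  obtain ⟨x, y, z, hxy, hxz, hyz, hS⟩ := Set.ncard_eq_three.1 hV
  set p : Fin 3 → V := ![x, y, z] with hpdef
  have hinj : Function.Injective p := by
    intro i j hij
    fin_cases i <;> fin_cases j <;> simp_all [eq_comm]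
  have hall : ∀ z' ∈ Γ.VS, ∃ i, z' = p i := by
    intro z' hz'
    rw [hS] at hz'
    rcases hz' with h | h | h
    · exact ⟨0, h⟩
    · exact ⟨1, h⟩
    · exact ⟨2, h⟩
  have hmemS : ∀ i, p i ∈ Γ.VS := by
    intro i
    rw [hS]
    fin_cases i <;> simp [hpdef]
  have h3 : ∀ i : Fin 3, ∀ z' ∈ Γ.VS, z' = p i ∨ z' = p (i + 1) ∨ z' = p (i + 2) := by
    intro i z' hz'
    obtain ⟨j, rfl⟩ := hall z' hz'
    rcases Tri3_f1 i j with h | h | h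
    · exact Or.inl (by rw [h])
    · exact Or.inr (Or.inl (by rw [h]))
    · exact Or.inr (Or.inr (by rw [h]))
  have n1 : ∀ i : Fin 3, p i ≠ p (i + 1) := fun i h => Tri3_f2 i (hinj h)
  have n2 : ∀ i : Fin 3, p i ≠ p (i + 2) := fun i h => Tri3_f3 i (hinj h)
  have n3 : ∀ i : Fin 3, p (i + 1) ≠ p (i + 2) := fun i h => Tri3_f4 i (hinj h)
  have hd : ∀ i : Fin 3, ∃ d d' : Da E, d.1 ∈ Γ.A ∧ d'.1 ∈ Γ.A ∧ d.1 ≠ d'.1 ∧ Γ.src d = p i ∧ Γ.tgt d = p (i + 1) ∧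
      Γ.src d' = p i ∧ Γ.tgt d' = p (i + 1) := by
    intro i
    obtain ⟨d, hd, hs, ht⟩ := Tri3_adj hΓ (h3 i) (hmemS i) (hmemS (i + 1)) (n1 i) (n2 i) (n3 i)
    obtain ⟨d', hd', hne, hs', ht'⟩ := Tri3_par (hp _ hd)
    exact ⟨d, d', hd, hd', hne, hs, ht, hs'.trans hs, ht'.trans ht⟩
  choose d d' hd hd' hne hs ht hs' ht' using hd
  refine ⟨⟨p, fun i b => if b then d' i else d i, hinj, hall, ?_, ?_, ?_, ?_, ?_⟩⟩
  · intro i b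
    cases b
    · exact hd i
    · exact hd' i
  · intro i b
    cases b
    · exact hs i
    · exact hs' i
  · intro i b
    cases b
    · exact ht i
    · exact ht' i
  · intro i
    exact hne i
  · intro i e he hse hte
    by_contra hcon
    push Not at hcon
    have e1 : ∀ b : Bool, (if b then d' i else d i).1 ≠ e.1 := by
      intro b hb
      refine hcon b (Tri3_eq (Γ := Γ) hb.symm ?_ ?_)
      · cases b
        · exact hse.trans (hs i).symm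
        · exact hse.trans (hs' i).symm
      · rw [hse, hte]
        exact n1 i
    have i1 := Tri3_f6 i
    have i2 := Tri3_f5 i
    exact Tri3_third hΦ hN (n1 i) (n3 i) (n2 i) he (hd i) (hd (i + 1)) (hd (i + 2)) (hd' i) (hd' (i + 1)) (hd' (i + 2))
      (hne i) (hne (i + 1)) (hne (i + 2)) (hs i) (ht i) (hs (i + 1)) ((ht (i + 1)).trans (by rw [i1])) (hs (i + 2))
      ((ht (i + 2)).trans (by rw [i2])) (hs' i) (ht' i) (hs' (i + 1)) ((ht' (i + 1)).trans (by rw [i1])) (hs' (i + 2))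
      ((ht' (i + 2)).trans (by rw [i2])) hse hte (e1 false) (e1 true)


private theorem Tri3_f8 : ∀ j : Fin 3, j + 1 + 1 ≠ j := by decide

private theorem Tri3_f7 : ∀ a b c i : Fin 3, a ≠ b → a ≠ c → b ≠ c → i = a ∨ i = b ∨ i = c := by decide

private theorem Tri3_len1 {a b : V} {l : List (Da E)} (h : Γ.Pt a l b) (hab : a ≠ b)
    (hno : ∀ z ∈ Γ.vs a l, z = a ∨ z = b) : ∃ d : Da E, l = [d] ∧ d.1 ∈ Γ.A ∧ Γ.src d = a ∧ Γ.tgt d = b := by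
  have hne := pt_ne h hab
  have hlen : ¬ 2 ≤ l.length := by
    intro h2
    obtain ⟨z, hz, hza, hzb⟩ := pt_inner h h2
    rcases hno z hz with h | h
    · exact hza h
    · exact hzb h
  match l, hne, hlen, h with
  | [d], _, _, h =>
    obtain ⟨h1, h2, h3⟩ := h.1
    exact ⟨d, rfl, h1, h2, h3⟩
  | _ :: _ :: _, _, hlen, _ => simp at hlen

private theorem Tri3_VS {a b z : V} {l : List (Da E)} (h : Γ.Wk a l b) (hl : l ≠ []) (hz : z ∈ Γ.vs a l) : z ∈ Γ.VS := by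
  obtain ⟨d, hd, h1⟩ := wk_vs h hl hz
  exact ⟨d.1, (wk_mem h d hd).1, h1⟩

private theorem Tri3_dv (v : E → k) (d : Da E) : tv ω Γ v [d] = dv ω Γ v d := by
  simp [tv]

/-- The cochain `v` vanishes on all balanced cycles if it does so on the balanced triangles. -/
private theorem Tri3_zc (hω : ω ^ 2 + ω + 1 = 0) (hΦ : Γ.Phi (hx : Set Lt)) (hN : Γ.ND) (C : Tri3_Cfg Γ) (v : E → k)
    (hT : ∀ b₀ b₁ b₂ : Bool, Γ.dg (C.dd 0 b₀) + Γ.dg (C.dd 1 b₁) + Γ.dg (C.dd 2 b₂) = 0 →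
      dv ω Γ v (C.dd 0 b₀) + ch ω (Γ.dg (C.dd 0 b₀)) * dv ω Γ v (C.dd 1 b₁) +
        ch ω (Γ.dg (C.dd 0 b₀) + Γ.dg (C.dd 1 b₁)) * dv ω Γ v (C.dd 2 b₂) = 0) : Zc ω Γ v := by
  intro x y P P' hcy hgn
  by_contra htv
  have hbad : Bad ω Γ v x y P P' := ⟨hcy, hgn, htv⟩
  have hP := pt_ne hcy.p hcy.ne
  have hP' := pt_ne hcy.p' hcy.ne
  have hall : ∀ i, C.p i ∈ Γ.vs x P ∨ C.p i ∈ Γ.vs x P' := by
    by_cases hz : ∀ z, (z ∈ Γ.vs x P ∨ z ∈ Γ.vs x P') → z = x ∨ z = y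
    · exfalso
      obtain ⟨d, rfl, hd, hs, ht⟩ := Tri3_len1 hcy.p hcy.ne fun z h => hz z (Or.inl h)
      obtain ⟨d', rfl, hd', hs', ht'⟩ := Tri3_len1 hcy.p' hcy.ne fun z h => hz z (Or.inr h)
      by_cases he : d.1 = d'.1
      · have h1 := Tri3_eq (Γ := Γ) he (hs.trans hs'.symm) (by rw [hs, ht]; exact hcy.ne)
        rw [h1] at htv
        exact htv rfl
      · have h1 := Tri3_dig hΦ hN hcy.ne hd hd' he hs ht hs' ht'
        have h2 : Γ.dg d' - Γ.dg d = 0 := by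
          simp only [gn_cons, gn_nil, add_zero] at hgn
          rw [hgn, sub_self]
        rw [h2] at h1
        exact fund_hx.zero (by exact_mod_cast h1)
    · push Not at hz
      obtain ⟨z, hz, hzx, hzy⟩ := hz
      have hx' : x ∈ Γ.VS := Tri3_VS hcy.p.1 hP (wk_first _ _)
      have hy' : y ∈ Γ.VS := Tri3_VS hcy.p.1 hP (wk_last hcy.p.1)
      have hz' : z ∈ Γ.VS := by
        rcases hz with h | h
        · exact Tri3_VS hcy.p.1 hP h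
        · exact Tri3_VS hcy.p'.1 hP' h
      obtain ⟨a, ha⟩ := C.all x hx'
      obtain ⟨b, hb⟩ := C.all y hy'
      obtain ⟨c, hc⟩ := C.all z hz'
      intro i
      have hab : a ≠ b := fun h => hcy.ne (by rw [ha, hb, h])
      have hac : a ≠ c := fun h => hzx (by rw [ha, hc, h])
      have hbc : b ≠ c := fun h => hzy (by rw [hb, hc, h])
      rcases Tri3_f7 a b c i hab hac hbc with h | h | h
      · rw [h, ← ha]
        exact Or.inl (wk_first _ _)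
      · rw [h, ← hb]
        exact Or.inl (wk_last hcy.p.1)
      · rw [h, ← hc]
        exact hz
  have n02 : C.p 0 ≠ C.p 2 := fun h => by
    have := C.inj h
    exact absurd this (by decide)
  have n01 : C.p 0 ≠ C.p 1 := fun h => by
    have := C.inj h
    exact absurd this (by decide)
  have n12 : C.p 1 ≠ C.p 2 := fun h => by
    have := C.inj h
    exact absurd this (by decide)
  have key : ∀ R R', Bad ω Γ v (C.p 0) (C.p 2) R R' → C.p 1 ∈ Γ.vs (C.p 0) R → False := by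
    intro R R' hB h1
    have h3 : ∀ z ∈ Γ.VS, z = C.p 0 ∨ z = C.p 1 ∨ z = C.p 2 := by
      intro z hz
      obtain ⟨j, rfl⟩ := C.all z hz
      rcases Tri3_f7 0 1 2 j (by decide) (by decide) (by decide) with h | h | h
      · exact Or.inl (by rw [h])
      · exact Or.inr (Or.inl (by rw [h]))
      · exact Or.inr (Or.inr (by rw [h]))
    have hR := pt_ne hB.cy.p n02
    have hR' := pt_ne hB.cy.p' n02
    obtain ⟨d₃, rfl, hd₃, hs₃, ht₃⟩ := Tri3_len1 hB.cy.p' n02 (fun z hz => by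
      rcases h3 z (Tri3_VS hB.cy.p'.1 hR' hz) with h | h | h
      · exact Or.inl h
      · exfalso
        rw [h] at hz
        rcases hB.cy.dj _ h1 hz with h4 | h4
        · exact n01 h4.symm
        · exact n12 h4
      · exact Or.inr h)
    obtain ⟨l₁, l₂, rfl, hp₁, hp₂, hdj⟩ := pt_split_at hB.cy.p h1
    obtain ⟨d₁, rfl, hd₁, hs₁, ht₁⟩ := Tri3_len1 hp₁ n01 (fun z hz => by
      rcases h3 z (Tri3_VS hp₁.1 (pt_ne hp₁ n01) hz) with h | h | h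
      · exact Or.inl h
      · exact Or.inr h
      · exfalso
        rw [h] at hz
        exact n12 (hdj _ hz (wk_last hp₂.1)).symm)
    obtain ⟨d₂, rfl, hd₂, hs₂, ht₂⟩ := Tri3_len1 hp₂ n12 (fun z hz => by
      rcases h3 z (Tri3_VS hp₂.1 (pt_ne hp₂ n12) hz) with h | h | h
      · exfalso
        rw [h] at hz
        exact n01 (hdj _ (wk_first _ _) hz)
      · exact Or.inl h
      · exact Or.inr h)
    obtain ⟨b₀, rfl⟩ := C.ex 0 d₁ hd₁ hs₁ ht₁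
    obtain ⟨b₁, rfl⟩ := C.ex 1 d₂ hd₂ hs₂ ht₂
    obtain ⟨b₂, h2⟩ := C.ex 2 (fl d₃) hd₃ (by rw [src_fl]; exact ht₃) (by rw [tgt_fl]; exact hs₃)
    have h5 : d₃ = fl (C.dd 2 b₂) := by rw [← h2, fl_fl]
    subst h5
    have hg := hB.gn
    simp only [gn_append, gn_cons, gn_nil, add_zero, dg_fl] at hg
    have h6 := hT b₀ b₁ b₂ (by rw [hg, neg_add_cancel])
    apply hB.tv
    have h7 : ([fl (C.dd 2 b₂)] : List (Da E)) = rv [C.dd 2 b₂] := by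
      simp [rv]
    rw [tv_append hω, h7, tv_rv hω, Tri3_dv, Tri3_dv, Tri3_dv]
    simp only [gn_cons, gn_nil, add_zero]
    rw [hg] at h6
    linear_combination h6
  obtain ⟨R, R', hB, hv, -⟩ := bad_resplit hω hbad (hall 0) (hall 2) n02
  rcases (hv (C.p 1)).2 (hall 1) with h | h
  · exact key R R' hB h
  · exact key R' R (bad_symm hB) h


/-- the values of a coboundary on the darts -/
private def Tri3_D (ω : k) (C : Tri3_Cfg Γ) : (Fin 3 → k) →ₗ[k] (Fin 3 × Bool → k) where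
  toFun c := fun q => c q.1 - ch ω (Γ.dg (C.dd q.1 q.2)) * c (q.1 + 1)
  map_add' c c' := by
    funext q
    simp only [Pi.add_apply]
    ring
  map_smul' a c := by
    funext q
    simp only [Pi.smul_apply, smul_eq_mul, RingHom.id_apply]
    ring

/-- the conditions of two complementary triangles -/
private def Tri3_L (ω : k) (C : Tri3_Cfg Γ) (β : Fin 3 → Bool) : (Fin 3 × Bool → k) →ₗ[k] (Bool → k) where
  toFun u := fun s => u (0, xor s (β 0)) + ch ω (Γ.dg (C.dd 0 (xor s (β 0)))) * u (1, xor s (β 1)) +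
    ch ω (Γ.dg (C.dd 0 (xor s (β 0))) + Γ.dg (C.dd 1 (xor s (β 1)))) * u (2, xor s (β 2))
  map_add' u u' := by
    funext q
    simp only [Pi.add_apply]
    ring
  map_smul' a u := by
    funext q
    simp only [Pi.smul_apply, smul_eq_mul, RingHom.id_apply]
    ring

private theorem Tri3_count (C : Tri3_Cfg Γ) (β : Fin 3 → Bool) :
    ∃ u : Fin 3 × Bool → k, Tri3_L ω C β u = 0 ∧ u ∉ LinearMap.range (Tri3_D ω C) := by
  by_contra hcon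
  push Not at hcon
  have h1 : LinearMap.ker (Tri3_L ω C β) ≤ LinearMap.range (Tri3_D ω C) := fun u hu => hcon u hu
  have h2 := Submodule.finrank_mono h1
  have h3 := LinearMap.finrank_range_add_finrank_ker (Tri3_L ω C β)
  have h4 : Module.finrank k (LinearMap.range (Tri3_L ω C β)) ≤ 2 := by
    refine (Submodule.finrank_le _).trans ?_
    simp
  have h5 : Module.finrank k (LinearMap.range (Tri3_D ω C)) ≤ 3 := by
    refine (LinearMap.finrank_range_le _).trans ?_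
    simp
  have h6 : Module.finrank k (Fin 3 × Bool → k) = 6 := by
    simp
  omega

/-- a cochain with given values on the darts -/
private theorem Tri3_ext (hω : ω ^ 2 + ω + 1 = 0) (C : Tri3_Cfg Γ) (u : Fin 3 × Bool → k) :
    ∃ v : E → k, ∀ i b, dv ω Γ v (C.dd i b) = u (i, b) := by
  have hinj : ∀ q q' : Fin 3 × Bool, (C.dd q.1 q.2).1 = (C.dd q'.1 q'.2).1 → q = q' := by
    rintro ⟨i, b⟩ ⟨j, b'⟩ h
    simp only at h
    have hij : i = j := by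
      rcases Tri3_same (Γ := Γ) h with h1 | h1
      · rw [C.src, C.src] at h1
        exact C.inj h1.1
      · rw [C.src, C.src, C.tgt, C.tgt] at h1
        have e1 := C.inj h1.1
        have e2 := C.inj h1.2
        exfalso
        rw [e1] at e2
        exact Tri3_f8 j e2
    subst hij
    cases b <;> cases b'
    · rfl
    · exact absurd h (C.ne i)
    · exact absurd h.symm (C.ne i)
    · rfl
  refine ⟨fun e => if h : ∃ q : Fin 3 × Bool, (C.dd q.1 q.2).1 = e then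
      (if (C.dd h.choose.1 h.choose.2).2 then u h.choose else -(ch ω (Γ.g e) * u h.choose)) else 0, fun i b => ?_⟩
  have hex : ∃ q : Fin 3 × Bool, (C.dd q.1 q.2).1 = (C.dd i b).1 := ⟨(i, b), rfl⟩
  have hq : hex.choose = (i, b) := hinj _ _ hex.choose_spec
  unfold dv
  simp only [dif_pos hex, hq]
  cases hb : (C.dd i b).2
  · simp only [Bool.false_eq_true, if_false]
    rw [ch_neg hω]
    have := ch_ne_zero hω (Γ.g (C.dd i b).1)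
    field_simp
  · simp

theorem three_doubled (hω : ω ^ 2 + ω + 1 = 0) (h3 : (3 : k) ≠ 0) (hΓ : Γ.C2) (hΦ : Γ.Phi (hx : Set Lt)) (hc : ¬ Γ.Cyc)
    (hN : Γ.ND) (hV : Γ.nV = 3) (hp : ∀ e ∈ Γ.A, ¬ Γ.Pfree e) : HasH ω Γ := by
  obtain ⟨C⟩ := Tri3_cfg hΓ hΦ hN hV hp
  have n02 : C.p 0 ≠ C.p 2 := fun h => by
    have := C.inj h
    exact absurd this (by decide)
  have n01 : C.p 0 ≠ C.p 1 := fun h => by
    have := C.inj h
    exact absurd this (by decide)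
  have n12 : C.p 1 ≠ C.p 2 := fun h => by
    have := C.inj h
    exact absurd this (by decide)
  obtain ⟨⟨m₁, m₂, m₃⟩, hdiff⟩ := Tri3_diff hΦ hN n01 n12 n02 (C.mem 0 false) (C.mem 1 false) (C.mem 2 false)
    (C.mem 0 true) (C.mem 1 true) (C.mem 2 true) (C.ne 0) (C.ne 1) (C.ne 2) (C.src 0 false) (C.tgt 0 false)
    (C.src 1 false) (C.tgt 1 false) (C.src 2 false) (C.tgt 2 false) (C.src 0 true) (C.tgt 0 true)
    (C.src 1 true) (C.tgt 1 true) (C.src 2 true) (C.tgt 2 true)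
  have hval : ∀ (i : Fin 3) (b : Bool), Γ.dg (C.dd i b) =
      Γ.dg (C.dd i false) + (if b then Γ.dg (C.dd i true) - Γ.dg (C.dd i false) else 0) := by
    intro i b
    cases b
    · simp
    · simp
  have hcomp : ∀ b₀ b₁ b₂ c₀ c₁ c₂ : Bool,
      Γ.dg (C.dd 0 b₀) + Γ.dg (C.dd 1 b₁) + Γ.dg (C.dd 2 b₂) = 0 →
      Γ.dg (C.dd 0 c₀) + Γ.dg (C.dd 1 c₁) + Γ.dg (C.dd 2 c₂) = 0 →
      (b₀ = c₀ ∧ b₁ = c₁ ∧ b₂ = c₂) ∨ (b₀ = !c₀ ∧ b₁ = !c₁ ∧ b₂ = !c₂) := by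
    intro b₀ b₁ b₂ c₀ c₁ c₂ h h'
    refine Tri3_bal_fin m₁ m₂ m₃ hdiff b₀ b₁ b₂ c₀ c₁ c₂ ?_
    rw [hval 0 b₀, hval 1 b₁, hval 2 b₂] at h
    rw [hval 0 c₀, hval 1 c₁, hval 2 c₂] at h'
    have h4 := h.trans h'.symm
    have e1 : ∀ a₁ a₂ a₃ x₁ x₂ x₃ y₁ y₂ y₃ : Lt, a₁ + x₁ + (a₂ + x₂) + (a₃ + x₃) = a₁ + y₁ + (a₂ + y₂) + (a₃ + y₃) →
        x₁ + x₂ + x₃ = y₁ + y₂ + y₃ := by
      intro a₁ a₂ a₃ x₁ x₂ x₃ y₁ y₂ y₃ h
      have h1 : a₁ + a₂ + a₃ + (x₁ + x₂ + x₃) = a₁ + a₂ + a₃ + (y₁ + y₂ + y₃) := by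
        calc _ = a₁ + x₁ + (a₂ + x₂) + (a₃ + x₃) := by abel
          _ = _ := h
          _ = _ := by abel
      exact add_left_cancel h1
    exact e1 _ _ _ _ _ _ _ _ _ h4
  obtain ⟨β, hβ⟩ : ∃ β : Fin 3 → Bool, ∀ b₀ b₁ b₂ : Bool,
      Γ.dg (C.dd 0 b₀) + Γ.dg (C.dd 1 b₁) + Γ.dg (C.dd 2 b₂) = 0 →
      ∃ s : Bool, b₀ = xor s (β 0) ∧ b₁ = xor s (β 1) ∧ b₂ = xor s (β 2) := by
    by_cases hex : ∃ c₀ c₁ c₂ : Bool, Γ.dg (C.dd 0 c₀) + Γ.dg (C.dd 1 c₁) + Γ.dg (C.dd 2 c₂) = 0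
    · obtain ⟨c₀, c₁, c₂, hc⟩ := hex
      refine ⟨![c₀, c₁, c₂], fun b₀ b₁ b₂ hb => ?_⟩
      rcases hcomp b₀ b₁ b₂ c₀ c₁ c₂ hb hc with ⟨h1, h2, h3⟩ | ⟨h1, h2, h3⟩
      · exact ⟨false, by simp [h1], by simp [h2], by simp [h3]⟩
      · exact ⟨true, by simp [h1], by simp [h2], by simp [h3]⟩
    · push Not at hex
      exact ⟨fun _ => false, fun b₀ b₁ b₂ hb => absurd hb (hex b₀ b₁ b₂)⟩
  obtain ⟨u, hu, hu'⟩ := Tri3_count (ω := ω) C β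
  obtain ⟨v, hv⟩ := Tri3_ext hω C u
  refine ⟨v, Tri3_zc hω hΦ hN C v fun b₀ b₁ b₂ hb => ?_, fun hcob => hu' ?_⟩
  · obtain ⟨s, rfl, rfl, rfl⟩ := hβ b₀ b₁ b₂ hb
    rw [hv, hv, hv]
    have := congrFun hu s
    exact this
  · obtain ⟨c, hc⟩ := hcob
    refine ⟨fun i => c (C.p i), ?_⟩
    funext q
    obtain ⟨i, b⟩ := q
    rw [← hv i b, ← Tri3_dv]
    have hw : Γ.Wk (C.p i) [C.dd i b] (C.p (i + 1)) := ⟨C.mem i b, C.src i b, C.tgt i b⟩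
    rw [tv_cob hω v c hw (fun d hd => by
      rw [List.mem_singleton] at hd
      rw [hd]
      exact hc _ (C.mem i b))]
    simp only [gn_cons, gn_nil, add_zero]
    rfl

end Pool.Agent.FRM
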