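import Pool.Agent.FRM.Ham
import Pool.Agent.FRM.Chd
import Pool.Agent.FRM.Pfr
import Pool.Agent.FRM.Tri3
import Pool.Agent.FRM.SepH

/-!
# FRM/ThE: Theorem E

PROOF PLAN.  Strong induction on `(nV, card A)` (lexicographic, e.g. on `nV` and then on `card A`, for all types `E` at the same time), so `IH ω Γ` may be assumed; suppose `¬ HasH ω Γ`.  If not `ND`: `digon` and `IH` (same number of vertices, one edge less).  `nV ≤ 2`: `two_vertices`.
If not `C3`: `sep_or_C3`, `sep_hasH`.  `nV = 3`: if no edge is `Pfree`: `three_doubled`; else let `e` be `Pfree`.  `nV ≥ 4`: `exists_pfree`.  Switch so that `g e = 0` (`Sw`: `p = Pi.single (t e) (g e)`).  `Γ.con e` is `C2` (`con_C2`, `con_C2_three`), `Phi` (`con_Phi`), not `Cyc` (`con_not_Cyc`), has fewer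
vertices (`con_nV`): `IH` gives a class `v` of `Γ.con e`; redefine `v e = 0` (`e ∉ (Γ.con e).A`).  No bad cycles: `nV = 3`: `no_bad_three`; `nV ≥ 4`: `bad_ham` and `no_bad`.  So `v ∈ Zc Γ`, and it is not a coboundary (`con_of_cob`).
-/

set_option autoImplicit false

noncomputable section

open scoped Classical

namespace Pool.Agent.FRM

open GG

variable {V E : Type} {k : Type} [Field k] {ω : k} {Γ : GG V E Lt}


/-- the case of an edge without parallel edges of gain `0` -/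
private theorem ThE_core (hω : ω ^ 2 + ω + 1 = 0) (h3 : (3 : k) ≠ 0) (hΓ : Γ.C2) (hC : Γ.C3)
    (hΦ : Γ.Phi (hx : Set Lt)) (hc : ¬ Γ.Cyc) (hI : IH ω Γ) (hV : Γ.nV = 3 ∨ 4 ≤ Γ.nV) {e : E} (he : e ∈ Γ.A)
    (hp : Γ.Pfree e) (hg : Γ.g e = 0) : HasH ω Γ := by
  by_contra hH
  have hl : Γ.s e ≠ Γ.t e := hΓ.lf e he
  have hC2 : (Γ.con e).C2 := by
    rcases hV with hV | hV
    · exact con_C2_three hΓ hV he hp
    · exact con_C2 hΓ hC hV he hp
  obtain ⟨v, hv, hvc⟩ := hI E (Γ.con e) (Or.inl (con_nV hΓ he)) hC2 (con_Phi he hl hg hΦ)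
    (con_not_Cyc hg hc)
  set v' : E → k := Function.update v e 0 with hv'd
  have hve : v' e = 0 := by rw [hv'd, Function.update_self]
  have hvf : ∀ f ∈ (Γ.con e).A, v f = v' f := by
    intro f hf
    have hfe : f ≠ e := Finset.ne_of_mem_erase hf
    rw [hv'd, Function.update_of_ne hfe]
  have hv' : Zc ω (Γ.con e) v' := by
    intro x y P P' hcy hgn
    rw [← tv_congr (Γ := Γ.con e) (v := v) (v' := v') (l := P) fun d hd => hvf d.1 (wk_mem hcy.p.1 d hd).1,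
      ← tv_congr (Γ := Γ.con e) (v := v) (v' := v') (l := P') fun d hd => hvf d.1 (wk_mem hcy.p'.1 d hd).1]
    exact hv x y P P' hcy hgn
  have hvc' : ¬ Cob ω (Γ.con e) v' := by
    rintro ⟨c, hcc⟩
    exact hvc ⟨c, fun f hf => (hvf f hf).trans (hcc f hf)⟩
  have hnb : ∀ u w R R', ¬ Bad ω Γ v' u w R R' := by
    rcases hV with hV | hV
    · intro u w R R'
      exact no_bad_three hω hΓ hV he hp hg hv' hve
    · exact no_bad hω hΓ hC hV hΦ fun u w R R' hb =>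
        bad_ham hω h3 hΓ hC hV hΦ hc hI hH he hp hg hv' hve hb
  refine hH ⟨v', ?_, fun hcob => hvc' (con_of_cob he hg hve hcob)⟩
  intro x y P P' hcy hgn
  by_contra hne
  exact hnb x y P P' ⟨hcy, hgn, hne⟩

private theorem ThE_step (hω : ω ^ 2 + ω + 1 = 0) (h3 : (3 : k) ≠ 0) (hΓ : Γ.C2)
    (hΦ : Γ.Phi (hx : Set Lt)) (hc : ¬ Γ.Cyc) (hI : IH ω Γ) : HasH ω Γ := by
  by_cases hN : Γ.ND
  swap
  · unfold GG.ND at hN
    push_neg at hN
    obtain ⟨f, hf, f', hf', hne, hpar⟩ := hN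
    obtain ⟨d1, d2, d3, d4⟩ := digon hω hΓ hc hf hf' hne hpar
    exact d4 (hI E _ (Or.inr ⟨d3, Finset.card_erase_lt_of_mem hf'⟩) d1
      (phi_on (Finset.erase_subset _ _) hΦ) d2)
  by_cases hV2 : Γ.nV ≤ 2
  · exact two_vertices hω h3 hΓ hΦ hc hN hV2
  by_cases hC : Γ.C3
  swap
  · obtain ⟨A₁, A₂, x, y, hS⟩ := sep_or_C3 hΓ hC
    exact sep_hasH hω h3 hΓ hΦ hc hI hS
  have hV : Γ.nV = 3 ∨ 4 ≤ Γ.nV := by omega
  by_cases hex : ∃ e ∈ Γ.A, Γ.Pfree e
  swap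
  · push_neg at hex
    rcases hV with hV | hV
    · exact three_doubled hω h3 hΓ hΦ hc hN hV hex
    · obtain ⟨e, he, hp⟩ := exists_pfree hΓ hC hV hΦ hN
      exact absurd hp (hex e he)
  obtain ⟨e, he, hp⟩ := hex
  have hl : Γ.s e ≠ Γ.t e := hΓ.lf e he
  set p : V → Lt := fun z => if z = Γ.t e then Γ.g e else 0 with hpd
  have hg : (Γ.sw p).g e = 0 := by
    show Γ.g e + p (Γ.s e) - p (Γ.t e) = 0
    rw [hpd]
    simp [hl]
  refine (sw_HasH p hω).1 (ThE_core (Γ := Γ.sw p) hω h3 ((sw_C2 p).2 hΓ) ((sw_C3 p).2 hC)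
    ((sw_Phi p).2 hΦ) (fun h => hc ((sw_Cyc p).1 h)) ((sw_IH p).2 hI) ?_ he ((sw_Pfree p).2 hp) hg)
  rw [sw_nV]
  exact hV

theorem thmE (hω : ω ^ 2 + ω + 1 = 0) (h3 : (3 : k) ≠ 0) (hΓ : Γ.C2) (hΦ : Γ.Phi (hx : Set Lt)) (hc : ¬ Γ.Cyc) :
    HasH ω Γ := by
  have key : ∀ n m : ℕ, ∀ (E : Type) (Γ : GG V E Lt), Γ.nV = n → Γ.A.card = m → Γ.C2 →
      Γ.Phi (hx : Set Lt) → ¬ Γ.Cyc → HasH ω Γ := by
    intro n
    induction n using Nat.strong_induction_on with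
    | _ n ihn =>
      intro m
      induction m using Nat.strong_induction_on with
      | _ m ihm =>
        intro E Γ hn hm hΓ hΦ hc
        have hI : IH ω Γ := by
          intro E' Γ' hlt h1 h2 h4
          rcases hlt with hlt | ⟨he, hlt⟩
          · exact ihn Γ'.nV (hn ▸ hlt) Γ'.A.card E' Γ' rfl rfl h1 h2 h4
          · exact ihm Γ'.A.card (hm ▸ hlt) E' Γ' (he.trans hn) rfl h1 h2 h4
        exact ThE_step hω h3 hΓ hΦ hc hI
  exact key _ _ E Γ rfl rfl hΓ hΦ hc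

end Pool.Agent.FRM
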