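import Pool.Agent.FRM.Sgn
import Pool.Agent.FRM.ThE

/-!
# FRM/RGd: rich graphs have good connections

PROOF PLAN.  `thmE` with `F4.om`, `F4.three_ne` gives `v ∈ Zc`, not `Cob`.  `τ e = lf (v e) (λ (g e))`, `λ q = q.1 + q.2`.  By `hl_lf`, `lf_mul`, `lf_inv`: `hl τ P * (hl τ P')⁻¹ = ± lf b m` with `m = λ (gn P - gn P')`, `b = tv P - om ^ m * tv P'`.
For a cycle: balanced: `tv P = tv P'`, so it is `± 1`; unbalanced: `gn P - gn P' ∈ hx`, so `3 ∤ m` and the real part is `± 1/2` (`lf_re`).  `hR` follows.  `hT`: let `q₁ = X Y⁻¹ = ± lf b₁ m₁`, `q₂ = Y Z⁻¹ = ± lf b₂ m₂`, `q₁ q₂ = X Z⁻¹`.  If `X, Y` is balanced, `q₁ = ± 1`: clear (`re ≠ 0`); `Y, Z` balanced: the same; `X, Z` balanced: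
`q₂ = ± q₁⁻¹` (`re_inv`).  All unbalanced: `m₁ ≡ m₂ ≡ ±1 mod 3` (`m₁, m₂, m₁ + m₂` are not `0` mod 3), `b₁ ≠ b₂`: otherwise `Dth ω v X Y Z = 0` (a computation: with `c = ch (gn X - gn Y) = ch (gn Y - gn Z)`, `D = ch (gn Z) (1 - c) ((tv X - c tv Y) - (tv Y - c tv Z))`), contradiction to `dth_ne`; so `lf_prod`
(the signs `±` cancel).  `sign_lemma` gives `ε`; `sgt ε τ` is good: `HU` (`lf_HU`, `HU_neg`); for a cycle the real part is positive and `± 1/2` or `± 1`, so it is `1/2`, resp. the holonomy is `1`.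
-/

set_option autoImplicit false

noncomputable section

open scoped Classical

namespace Pool.Agent.FRM

open GG

variable {V E : Type} {Γ : GG V E Lt}

private def RGd_pm (p q : Hqˣ) : Prop := p = q ∨ p = -q

private theorem RGd_pm_mul {p q p' q' : Hqˣ} (h : RGd_pm p q) (h' : RGd_pm p' q') :
    RGd_pm (p * p') (q * q') := by
  rcases h with rfl | rfl <;> rcases h' with rfl | rfl
  · exact Or.inl rfl
  · exact Or.inr (mul_neg _ _)
  · exact Or.inr (neg_mul _ _)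
  · exact Or.inl (neg_mul_neg _ _)

private theorem RGd_pm_inv {p q : Hqˣ} (h : RGd_pm p q) : RGd_pm p⁻¹ q⁻¹ := by
  rcases h with rfl | rfl
  · exact Or.inl rfl
  · refine Or.inr (inv_eq_of_mul_eq_one_right ?_)
    rw [neg_mul_neg, mul_inv_cancel]

private theorem RGd_pm_trans {p q r : Hqˣ} (h : RGd_pm p q) (h' : RGd_pm q r) : RGd_pm p r := by
  rcases h with rfl | rfl <;> rcases h' with rfl | rfl
  · exact Or.inl rfl
  · exact Or.inr rfl
  · exact Or.inr rfl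
  · exact Or.inl (neg_neg _)

private theorem RGd_neg_re (p : Hqˣ) : ((-p : Hqˣ) : Hq).re = -(p : Hq).re := by
  rw [Units.val_neg]
  rfl

private theorem RGd_pm_re {p q : Hqˣ} (h : RGd_pm p q) :
    (p : Hq).re = (q : Hq).re ∨ (p : Hq).re = -(q : Hq).re := by
  rcases h with rfl | rfl
  · exact Or.inl rfl
  · right
    rw [Units.val_neg]
    rfl

private def RGd_s (q : Lt) : ℤ := q.1 + q.2

private theorem RGd_s_sub (a b : Lt) : RGd_s (a - b) = RGd_s a - RGd_s b := by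
  show a.1 - b.1 + (a.2 - b.2) = a.1 + a.2 - (b.1 + b.2)
  ring

private theorem RGd_hx {a : Lt} (h : a ∈ hx) : ¬ (3 : ℤ) ∣ RGd_s a := by
  unfold hx at h
  simp only [Finset.mem_insert, Finset.mem_singleton] at h
  unfold RGd_s
  rcases h with rfl | rfl | rfl | rfl | rfl | rfl <;> decide

private def RGd_tau (Γ : GG V E Lt) (v : E → F4) (e : E) : Hqˣ := lf (v e) (RGd_s (Γ.g e))

private theorem RGd_hl (Γ : GG V E Lt) (v : E → F4) (l : List (Da E)) :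
    RGd_pm (hl (RGd_tau Γ v) l) (lf (tv F4.om Γ v l) (RGd_s (Γ.gn l))) := hl_lf Γ v l

private theorem RGd_quot (Γ : GG V E Lt) (v : E → F4) (P P' : List (Da E)) :
    RGd_pm (hl (RGd_tau Γ v) P * (hl (RGd_tau Γ v) P')⁻¹)
      (lf (tv F4.om Γ v P - F4.om ^ (RGd_s (Γ.gn P) - RGd_s (Γ.gn P')) * tv F4.om Γ v P')
        (RGd_s (Γ.gn P) - RGd_s (Γ.gn P'))) := by
  have h1 := RGd_pm_mul (RGd_hl Γ v P) (RGd_pm_inv (RGd_hl Γ v P'))
  have h2 : RGd_pm (lf (tv F4.om Γ v P') (RGd_s (Γ.gn P')))⁻¹ _ := lf_inv _ _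
  have h3 := RGd_pm_trans h1 (RGd_pm_mul (Or.inl rfl) h2)
  have h4 := RGd_pm_trans h3 (lf_mul _ _ _ _)
  have h5 : tv F4.om Γ v P + F4.om ^ RGd_s (Γ.gn P) * -(F4.om ^ (-RGd_s (Γ.gn P')) * tv F4.om Γ v P') =
      tv F4.om Γ v P - F4.om ^ (RGd_s (Γ.gn P) - RGd_s (Γ.gn P')) * tv F4.om Γ v P' := by
    rw [sub_eq_add_neg (RGd_s (Γ.gn P)), zpow_add₀ (om_ne F4.om_eq)]
    ring
  rw [h5, ← sub_eq_add_neg] at h4
  exact h4

private theorem RGd_bal {v : E → F4} (hv : Zc F4.om Γ v) {x y : V} {P P' : List (Da E)}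
    (h : Γ.Cy x y P P') (hg : Γ.gn P = Γ.gn P') :
    RGd_pm (hl (RGd_tau Γ v) P * (hl (RGd_tau Γ v) P')⁻¹) 1 := by
  have h1 := RGd_quot Γ v P P'
  rw [hv x y P P' h hg, hg, sub_self, zpow_zero, one_mul, sub_self, lf_zero (dvd_zero 3)] at h1
  exact h1

private theorem RGd_unb (hΦ : Γ.Phi (hx : Set Lt)) {x y : V} {P P' : List (Da E)}
    (h : Γ.Cy x y P P') (hg : Γ.gn P ≠ Γ.gn P') :
    ¬ (3 : ℤ) ∣ RGd_s (Γ.gn P) - RGd_s (Γ.gn P') := by
  rw [← RGd_s_sub]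
  refine RGd_hx ?_
  rcases hΦ x y P P' h with h1 | h1
  · exact absurd (sub_eq_zero.1 h1) hg
  · exact Finset.mem_coe.1 h1

private theorem RGd_one_re : ((1 : Hqˣ) : Hq).re = 1 := rfl

private theorem RGd_half (hΦ : Γ.Phi (hx : Set Lt)) {v : E → F4} {x y : V} {P P' : List (Da E)}
    (h : Γ.Cy x y P P') (hg : Γ.gn P ≠ Γ.gn P') :
    ((hl (RGd_tau Γ v) P * (hl (RGd_tau Γ v) P')⁻¹ : Hqˣ) : Hq).re = 1 / 2 ∨
      ((hl (RGd_tau Γ v) P * (hl (RGd_tau Γ v) P')⁻¹ : Hqˣ) : Hq).re = -(1 / 2) := by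
  have h1 := RGd_pm_re (RGd_quot Γ v P P')
  have h2 := lf_re (tv F4.om Γ v P - F4.om ^ (RGd_s (Γ.gn P) - RGd_s (Γ.gn P')) * tv F4.om Γ v P')
    (RGd_unb hΦ h hg)
  rcases h1 with h1 | h1 <;> rcases h2 with h2 | h2 <;> rw [h1, h2] <;> norm_num

private theorem RGd_re_ne (hΦ : Γ.Phi (hx : Set Lt)) {v : E → F4} (hv : Zc F4.om Γ v) {x y : V}
    {P P' : List (Da E)} (h : Γ.Cy x y P P') :
    ((hl (RGd_tau Γ v) P * (hl (RGd_tau Γ v) P')⁻¹ : Hqˣ) : Hq).re ≠ 0 := by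
  by_cases hg : Γ.gn P = Γ.gn P'
  · rcases RGd_pm_re (RGd_bal hv h hg) with h1 | h1 <;> rw [h1, RGd_one_re] <;> norm_num
  · rcases RGd_half (v := v) hΦ h hg with h1 | h1 <;> rw [h1] <;> norm_num

private theorem RGd_norm {v : E → F4} (P P' : List (Da E)) :
    Quaternion.normSq ((hl (RGd_tau Γ v) P * (hl (RGd_tau Γ v) P')⁻¹ : Hqˣ) : Hq) = 1 := by
  rcases RGd_quot Γ v P P' with h | h <;> rw [h]
  · exact (lf_HU _ _).1
  · rw [Units.val_neg]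
    exact (HU_neg (lf_HU _ _)).1

private theorem RGd_pow {m n : ℤ} (h : (3 : ℤ) ∣ m - n) : F4.om ^ m = F4.om ^ n := by
  obtain ⟨c, hc⟩ := h
  have h1 : m = n + 3 * c := by omega
  rw [h1, zpow_add₀ (om_ne F4.om_eq), zpow_mul]
  have h2 : F4.om ^ (3 : ℤ) = 1 := om_cube F4.om_eq
  rw [h2, one_zpow, mul_one]

private theorem RGd_T (hΓ : Γ.C2) (hΦ : Γ.Phi (hx : Set Lt)) {v : E → F4} (hv : Zc F4.om Γ v)
    (hc : ¬ Cob F4.om Γ v) {u w : V} {X Y Z : List (Da E)} (h : Γ.Th u w X Y Z) :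
    0 < ((hl (RGd_tau Γ v) X * (hl (RGd_tau Γ v) Y)⁻¹ : Hqˣ) : Hq).re *
      ((hl (RGd_tau Γ v) Y * (hl (RGd_tau Γ v) Z)⁻¹ : Hqˣ) : Hq).re *
      ((hl (RGd_tau Γ v) X * (hl (RGd_tau Γ v) Z)⁻¹ : Hqˣ) : Hq).re := by
  have hm : hl (RGd_tau Γ v) X * (hl (RGd_tau Γ v) Z)⁻¹ =
      (hl (RGd_tau Γ v) X * (hl (RGd_tau Γ v) Y)⁻¹) * (hl (RGd_tau Γ v) Y * (hl (RGd_tau Γ v) Z)⁻¹) := by
    group
  have n1 := RGd_re_ne hΦ hv h.xy
  have n2 := RGd_re_ne hΦ hv h.yz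
  have hB1 := RGd_bal hv h.xy
  have hB2 := RGd_bal hv h.yz
  have hB3 := RGd_bal hv h.xz
  have hN1 := RGd_norm (Γ := Γ) (v := v) X Y
  have hQ1 := RGd_quot Γ v X Y
  have hQ2 := RGd_quot Γ v Y Z
  rw [hm] at hB3
  rw [hm]
  set q₁ := hl (RGd_tau Γ v) X * (hl (RGd_tau Γ v) Y)⁻¹ with hq1
  set q₂ := hl (RGd_tau Γ v) Y * (hl (RGd_tau Γ v) Z)⁻¹ with hq2
  by_cases g1 : Γ.gn X = Γ.gn Y
  · rcases hB1 g1 with h1 | h1 <;> rw [h1] at n1 ⊢
    · rw [one_mul, RGd_one_re, one_mul]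
      exact mul_self_pos.2 n2
    · rw [neg_one_mul, Units.val_neg, Units.val_neg]
      show 0 < -((1 : Hqˣ) : Hq).re * _ * -(q₂ : Hq).re
      rw [RGd_one_re]
      have := mul_self_pos.2 n2
      linarith
  by_cases g2 : Γ.gn Y = Γ.gn Z
  · rcases hB2 g2 with h1 | h1 <;> rw [h1] at n2 ⊢
    · rw [mul_one, RGd_one_re, mul_one]
      exact mul_self_pos.2 n1
    · rw [mul_neg_one, Units.val_neg, Units.val_neg]
      show 0 < _ * -((1 : Hqˣ) : Hq).re * -(q₁ : Hq).re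
      rw [RGd_one_re]
      have := mul_self_pos.2 n1
      linarith
  by_cases g3 : Γ.gn X = Γ.gn Z
  · have hr : ((q₁⁻¹ : Hqˣ) : Hq).re = (q₁ : Hq).re := re_inv hN1
    rcases hB3 g3 with h1 | h1
    · have h2 : q₂ = q₁⁻¹ := (inv_eq_of_mul_eq_one_right h1).symm
      rw [h1, h2, hr, RGd_one_re, mul_one]
      exact mul_self_pos.2 n1
    · have h2 : q₂ = -q₁⁻¹ := by
        have h4 : q₁ * -q₂ = 1 := by rw [mul_neg, h1, neg_neg]
        rw [inv_eq_of_mul_eq_one_right h4, neg_neg]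
      rw [h1, h2, Units.val_neg, Units.val_neg]
      show 0 < _ * -((q₁⁻¹ : Hqˣ) : Hq).re * -((1 : Hqˣ) : Hq).re
      rw [hr, RGd_one_re]
      have := mul_self_pos.2 n1
      linarith
  · have d1 := RGd_unb hΦ h.xy g1
    have d2 := RGd_unb hΦ h.yz g2
    have d3 := RGd_unb hΦ h.xz g3
    set m₁ := RGd_s (Γ.gn X) - RGd_s (Γ.gn Y) with hm1
    set m₂ := RGd_s (Γ.gn Y) - RGd_s (Γ.gn Z) with hm2
    have d4 : (3 : ℤ) ∣ m₁ - m₂ := by
      have h5 : RGd_s (Γ.gn X) - RGd_s (Γ.gn Z) = m₁ + m₂ := by omega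
      rw [h5] at d3
      have e1 : m₁ % 3 = 1 ∨ m₁ % 3 = 2 := by omega
      have e2 : m₂ % 3 = 1 ∨ m₂ % 3 = 2 := by omega
      rcases e1 with e1 | e1 <;> rcases e2 with e2 | e2 <;> omega
    have hb : tv F4.om Γ v X - F4.om ^ m₁ * tv F4.om Γ v Y ≠ tv F4.om Γ v Y - F4.om ^ m₂ * tv F4.om Γ v Z := by
      intro hb
      refine dth_ne F4.om_eq F4.three_ne hΓ hΦ h g1 g2 g3 hv hc ?_
      rw [← RGd_pow d4] at hb
      have c1 : ch F4.om (Γ.gn X) = F4.om ^ m₁ * ch F4.om (Γ.gn Y) := by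
        unfold ch
        rw [← zpow_add₀ (om_ne F4.om_eq)]
        congr 1
        show RGd_s (Γ.gn X) = m₁ + RGd_s (Γ.gn Y)
        omega
      have c2 : ch F4.om (Γ.gn Y) = F4.om ^ m₁ * ch F4.om (Γ.gn Z) := by
        rw [RGd_pow d4]
        unfold ch
        rw [← zpow_add₀ (om_ne F4.om_eq)]
        congr 1
        show RGd_s (Γ.gn Y) = m₂ + RGd_s (Γ.gn Z)
        omega
      unfold Dth
      rw [c1, c2]
      have : ∀ c z a b d : F4, a - c * b = b - c * d →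
          (z - c * z) * a + (c * (c * z) - z) * b + (c * z - c * (c * z)) * d = 0 := by
        intro c z a b d h
        linear_combination z * (1 - c) * h
      exact this _ _ _ _ _ hb
    have hp := lf_prod hb d1 d4
    rcases hQ1 with e1 | e1 <;> rcases hQ2 with e2 | e2 <;> rw [e1, e2]
    · exact hp
    · rw [mul_neg, RGd_neg_re, RGd_neg_re]
      linarith
    · rw [neg_mul, RGd_neg_re, RGd_neg_re]
      linarith
    · rw [neg_mul_neg, RGd_neg_re, RGd_neg_re]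
      linarith

private theorem RGd_sgt (ε : E → Bool) (τ : E → Hqˣ) (l : List (Da E)) :
    RGd_pm (hl (sgt ε τ) l) (hl τ l) := by
  induction l with
  | nil => exact Or.inl rfl
  | cons d l ih =>
    have h1 : hl (sgt ε τ) (d :: l) = (if d.2 then sgt ε τ d.1 else (sgt ε τ d.1)⁻¹) * hl (sgt ε τ) l := by
      simp [hl]
    have h2 : hl τ (d :: l) = (if d.2 then τ d.1 else (τ d.1)⁻¹) * hl τ l := by
      simp [hl]
    rw [h1, h2]
    refine RGd_pm_mul ?_ ih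
    have h3 : RGd_pm (sgt ε τ d.1) (τ d.1) := by
      unfold sgt
      by_cases he : ε d.1 = true
      · rw [if_pos he]
        exact Or.inr rfl
      · rw [if_neg he]
        exact Or.inl rfl
    by_cases hd : d.2 = true
    · rw [if_pos hd, if_pos hd]
      exact h3
    · rw [if_neg hd, if_neg hd]
      exact RGd_pm_inv h3

theorem rich_good (hΓ : Γ.C2) (hΦ : Γ.Phi (hx : Set Lt)) (hc : ¬ Γ.Cyc) : ∃ τ : E → Hqˣ, Good Γ τ := by
  obtain ⟨v, hv, hvc⟩ := thmE F4.om_eq F4.three_ne hΓ hΦ hc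
  obtain ⟨ε, hε⟩ := sign_lemma hΓ (RGd_tau Γ v) (fun e => (lf_HU _ _).1)
    (fun x y P P' h => RGd_re_ne hΦ hv h) (fun u w X Y Z h => RGd_T hΓ hΦ hv hvc h)
  refine ⟨sgt ε (RGd_tau Γ v), ⟨fun e _ => ?_, fun x y P P' h hg => ?_, fun x y P P' h hg => ?_⟩⟩
  · unfold sgt
    by_cases he : ε e = true
    · rw [if_pos he, Units.val_neg]
      exact HU_neg (lf_HU _ _)
    · rw [if_neg he]
      exact lf_HU _ _
  · have h1 := RGd_pm_mul (RGd_sgt ε (RGd_tau Γ v) P) (RGd_pm_inv (RGd_sgt ε (RGd_tau Γ v) P'))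
    have h2 := RGd_pm_trans h1 (RGd_bal hv h hg)
    have h3 := hε x y P P' h
    rcases h2 with h2 | h2
    · exact mul_inv_eq_one.1 h2
    · exfalso
      rw [h2, Units.val_neg] at h3
      have h4 : (0 : ℚ) < -((1 : Hqˣ) : Hq).re := h3
      rw [RGd_one_re] at h4
      linarith
  · have h1 := RGd_pm_mul (RGd_sgt ε (RGd_tau Γ v) P) (RGd_pm_inv (RGd_sgt ε (RGd_tau Γ v) P'))
    have h2 := RGd_pm_re h1
    have h3 := hε x y P P' h
    have h4 := RGd_half (v := v) hΦ h hg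
    rcases h2 with h2 | h2 <;> rcases h4 with h4 | h4 <;> rw [h4] at h2 <;> linarith

end Pool.Agent.FRM
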