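import Pool.Agent.FRM.Qdt

/-!
# FRM/Rk1: rank one updates

PROOF PLAN.  Let `X = ε 1 + chi M * W * (chi M)ᴴ`, `W` diagonal with the weights `w j ≥ 0` (each twice), `ε > 0`: Hermitian positive definite (`Matrix.PosDef`), so `det X` is real and positive (`Matrix.PosDef.det_pos`).
Quaternionic structure: with `J = chi`-version of `j` (the real matrix `1 ⊗ !![0, 1; -1, 0]`), `J * conj (chi N) * J⁻¹ = chi N` for every quaternionic `N` (check for `cq`); so `X` and `X⁻¹` commute with it too (the scalars `ε, w j` are real).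
`Y = chi (column j of M)`, a `2r x 2` matrix.  `X(w + x e_j) = X(w) + x Y Yᴴ`; `det (X + x Y Yᴴ) = det X * det (1 + x Yᴴ X⁻¹ Y)` (`Matrix.det_one_add_mul_comm` or `Matrix.det_add_mul`).  `Z = Yᴴ X⁻¹ Y` is a `2 x 2` matrix, Hermitian, positive semidefinite, and `J₁ conj(Z) J₁⁻¹ = Z`: so `Z = t 1` with `t ≥ 0` real (compare entries).  `det = det X * (1 + t x) ^ 2`.
-/

set_option autoImplicit false

noncomputable section

open scoped Classical Matrix

namespace Pool.Agent.FRM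

open GG

/-- the matrix `ε + M diag(w) M*` in complex form -/
def LX {r n : ℕ} (M : Matrix (Fin r) (Fin n) Hq) (w : Fin n → ℝ) (ε : ℝ) : Matrix (Fin r × Fin 2) (Fin r × Fin 2) ℂ :=
  (ε : ℂ) • (1 : Matrix (Fin r × Fin 2) (Fin r × Fin 2) ℂ) +
    chi M * Matrix.diagonal (fun x : Fin n × Fin 2 => (w x.1 : ℂ)) * (chi M)ᴴ

section

open scoped ComplexOrder

private theorem Rk1_psd {r n : ℕ} (M : Matrix (Fin r) (Fin n) Hq) {w : Fin n → ℝ} (hw : ∀ j, 0 ≤ w j) :
    (chi M * Matrix.diagonal (fun x : Fin n × Fin 2 => (w x.1 : ℂ)) * (chi M)ᴴ).PosSemidef := by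
  refine Matrix.PosSemidef.mul_mul_conjTranspose_same (Matrix.PosSemidef.diagonal ?_) _
  intro x
  show (0 : ℂ) ≤ ((w x.1 : ℝ) : ℂ)
  exact_mod_cast hw x.1

private theorem Rk1_pd {r n : ℕ} (M : Matrix (Fin r) (Fin n) Hq) {w : Fin n → ℝ} (hw : ∀ j, 0 ≤ w j) {ε : ℝ} (hε : 0 < ε) :
    (LX M w ε).PosDef := by
  unfold LX
  refine Matrix.PosDef.add_posSemidef ?_ (Rk1_psd M hw)
  have h : ((ε : ℂ) • (1 : Matrix (Fin r × Fin 2) (Fin r × Fin 2) ℂ)) =
      Matrix.diagonal (fun _ => (ε : ℂ)) := by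
    rw [Matrix.smul_one_eq_diagonal]
  rw [h]
  refine Matrix.PosDef.diagonal fun _ => ?_
  exact_mod_cast hε

private theorem Rk1_real {z : ℂ} (hz : 0 ≤ z) : ∃ a : ℝ, 0 ≤ a ∧ z = (a : ℂ) := by
  rw [Complex.le_def] at hz
  refine ⟨z.re, hz.1, ?_⟩
  apply Complex.ext
  · rfl
  · rw [Complex.ofReal_im]
    exact hz.2.symm

private theorem Rk1_pos {r n : ℕ} (M : Matrix (Fin r) (Fin n) Hq) {w : Fin n → ℝ} (hw : ∀ j, 0 ≤ w j) {ε : ℝ} (hε : 0 < ε) :
    ∃ a : ℝ, 0 < a ∧ (LX M w ε).det = (a : ℂ) := by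
  have h := (Rk1_pd M hw hε).det_pos
  obtain ⟨a, ha, h2⟩ := Rk1_real h.le
  refine ⟨a, ?_, h2⟩
  rcases ha.lt_or_eq with h3 | h3
  · exact h3
  · rw [h2, ← h3] at h
    simp at h

private theorem Rk1_nonneg {r n : ℕ} (M : Matrix (Fin r) (Fin n) Hq) {w : Fin n → ℝ} (hw : ∀ j, 0 ≤ w j) :
    ∃ a : ℝ, 0 ≤ a ∧ (LX M w 0).det = (a : ℂ) := by
  have h := (Rk1_psd M hw).det_nonneg
  have e : LX M w 0 = chi M * Matrix.diagonal (fun x : Fin n × Fin 2 => (w x.1 : ℂ)) * (chi M)ᴴ := by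
    unfold LX
    rw [Complex.ofReal_zero, zero_smul, zero_add]
  rw [e]
  exact Rk1_real h

private theorem Rk1_Z {C D : Type} [Fintype C] [DecidableEq C] [Fintype D] {X : Matrix C C ℂ} (hX : X.PosDef) (Y : Matrix C D ℂ) (d : D) :
    (Yᴴ * X⁻¹ * Y)ᴴ = Yᴴ * X⁻¹ * Y ∧ 0 ≤ ((Yᴴ * X⁻¹ * Y) d d).re := by
  have h : (Yᴴ * X⁻¹ * Y).PosSemidef := hX.inv.posSemidef.conjTranspose_mul_mul_same Y
  exact ⟨h.isHermitian, (Complex.le_def.1 (h.diag_nonneg (i := d))).1⟩

private theorem Rk1_ZX {r n : ℕ} {D : Type} [Fintype D] (M : Matrix (Fin r) (Fin n) Hq) {w : Fin n → ℝ} (hw : ∀ j, 0 ≤ w j) {ε : ℝ}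
    (hε : 0 < ε) (Y : Matrix (Fin r × Fin 2) D ℂ) (d : D) :
    (Yᴴ * (LX M w ε)⁻¹ * Y)ᴴ = Yᴴ * (LX M w ε)⁻¹ * Y ∧ 0 ≤ ((Yᴴ * (LX M w ε)⁻¹ * Y) d d).re :=
  Rk1_Z (Rk1_pd M hw hε) Y d

end

theorem LX_pos {r n : ℕ} (M : Matrix (Fin r) (Fin n) Hq) {w : Fin n → ℝ} (hw : ∀ j, 0 ≤ w j) {ε : ℝ} (hε : 0 < ε) :
    ∃ a : ℝ, 0 < a ∧ (LX M w ε).det = (a : ℂ) := Rk1_pos M hw hε

theorem LX_nonneg {r n : ℕ} (M : Matrix (Fin r) (Fin n) Hq) {w : Fin n → ℝ} (hw : ∀ j, 0 ≤ w j) :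
    ∃ a : ℝ, 0 ≤ a ∧ (LX M w 0).det = (a : ℂ) := Rk1_nonneg M hw

/-! ### the quaternionic structure -/

private def Rk1_s : Fin 2 → ℂ := ![1, -1]

private def Rk1_F {R C : Type} (N : Matrix (R × Fin 2) (C × Fin 2) ℂ) : Matrix (R × Fin 2) (C × Fin 2) ℂ :=
  fun i j => Rk1_s i.2 * Rk1_s j.2 * star (N (i.1, i.2 + 1) (j.1, j.2 + 1))

private theorem Rk1_s_star (a : Fin 2) : star (Rk1_s a) = Rk1_s a := by
  fin_cases a <;> simp [Rk1_s]

private theorem Rk1_s_sq (a : Fin 2) : Rk1_s a * Rk1_s a = 1 := by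
  fin_cases a <;> simp [Rk1_s]

private theorem Rk1_F_mul {R C D : Type} [Fintype C] (N : Matrix (R × Fin 2) (C × Fin 2) ℂ)
    (M : Matrix (C × Fin 2) (D × Fin 2) ℂ) : Rk1_F (N * M) = Rk1_F N * Rk1_F M := by
  ext i j
  rw [Matrix.mul_apply, Fintype.sum_prod_type]
  show Rk1_s i.2 * Rk1_s j.2 * star ((N * M) (i.1, i.2 + 1) (j.1, j.2 + 1)) = _
  rw [Matrix.mul_apply, Fintype.sum_prod_type, star_sum, Finset.mul_sum]
  refine Finset.sum_congr rfl fun k _ => ?_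
  rw [Fin.sum_univ_two, Fin.sum_univ_two, star_add]
  have h0 : Rk1_s 0 = 1 := rfl
  have h1 : Rk1_s 1 = -1 := rfl
  have e0 : (0 : Fin 2) + 1 = 1 := rfl
  have e1 : (1 : Fin 2) + 1 = 0 := rfl
  simp only [Rk1_F, h0, h1, e0, e1, star_mul']
  ring

private theorem Rk1_F_add {R C : Type} (N M : Matrix (R × Fin 2) (C × Fin 2) ℂ) :
    Rk1_F (N + M) = Rk1_F N + Rk1_F M := by
  ext i j
  simp only [Rk1_F, Matrix.add_apply, star_add]
  ring

private theorem Rk1_F_smul {R C : Type} (a : ℝ) (N : Matrix (R × Fin 2) (C × Fin 2) ℂ) :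
    Rk1_F ((a : ℂ) • N) = (a : ℂ) • Rk1_F N := by
  ext i j
  simp only [Rk1_F, Matrix.smul_apply, smul_eq_mul, star_mul']
  have h : star (a : ℂ) = (a : ℂ) := Complex.conj_ofReal a
  rw [h]
  ring

private theorem Rk1_F_diag {C : Type} [DecidableEq C] (w : C → ℝ) :
    Rk1_F (Matrix.diagonal (fun x : C × Fin 2 => (w x.1 : ℂ))) =
      Matrix.diagonal (fun x : C × Fin 2 => (w x.1 : ℂ)) := by
  ext i j
  simp only [Rk1_F]
  by_cases h : i = j
  · subst h
    rw [Matrix.diagonal_apply_eq, Matrix.diagonal_apply_eq, Rk1_s_sq, one_mul]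
    exact Complex.conj_ofReal _
  · rw [Matrix.diagonal_apply_ne _ h, Matrix.diagonal_apply_ne, star_zero, mul_zero]
    intro h2
    apply h
    have h3 := congrArg Prod.fst h2
    have h4 := congrArg Prod.snd h2
    exact Prod.ext h3 (add_right_cancel h4)

private theorem Rk1_F_one {C : Type} [DecidableEq C] :
    Rk1_F (1 : Matrix (C × Fin 2) (C × Fin 2) ℂ) = 1 := by
  have h := Rk1_F_diag (fun _ : C => (1 : ℝ))
  simp only [Complex.ofReal_one, Matrix.diagonal_one] at h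
  exact h

private theorem Rk1_F_star {R C : Type} (N : Matrix (R × Fin 2) (C × Fin 2) ℂ) :
    Rk1_F Nᴴ = (Rk1_F N)ᴴ := by
  ext i j
  rw [Matrix.conjTranspose_apply]
  simp only [Rk1_F, Matrix.conjTranspose_apply, star_mul', Rk1_s_star]
  ring

private theorem Rk1_F_chi {R C : Type} (M : Matrix R C Hq) : Rk1_F (chi M) = chi M := by
  ext ⟨i, a⟩ ⟨j, b⟩
  have h0 : Rk1_s 0 = 1 := rfl
  have h1 : Rk1_s 1 = -1 := rfl
  have e0 : (0 : Fin 2) + 1 = 1 := rfl
  have e1 : (1 : Fin 2) + 1 = 0 := rfl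
  show Rk1_s a * Rk1_s b * star (cq (M i j) (a + 1) (b + 1)) = cq (M i j) a b
  fin_cases a <;> fin_cases b <;> simp [h0, h1, e1, cq, Complex.ext_iff]

private theorem Rk1_F_inv {C : Type} [Fintype C] [DecidableEq C] (X : Matrix (C × Fin 2) (C × Fin 2) ℂ)
    (hX : Rk1_F X = X) (hd : IsUnit X.det) : Rk1_F X⁻¹ = X⁻¹ := by
  have h1 : X * Rk1_F X⁻¹ = 1 := by
    calc X * Rk1_F X⁻¹ = Rk1_F X * Rk1_F X⁻¹ := by rw [hX]
      _ = Rk1_F (X * X⁻¹) := (Rk1_F_mul _ _).symm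
      _ = 1 := by rw [Matrix.mul_nonsing_inv _ hd, Rk1_F_one]
  exact (Matrix.inv_eq_right_inv h1).symm

private theorem Rk1_F_LX {r n : ℕ} (M : Matrix (Fin r) (Fin n) Hq) (w : Fin n → ℝ) (ε : ℝ) :
    Rk1_F (LX M w ε) = LX M w ε := by
  unfold LX
  rw [Rk1_F_add, Rk1_F_smul, Rk1_F_one, Rk1_F_mul, Rk1_F_mul, Rk1_F_star, Rk1_F_chi, Rk1_F_diag]

/-- the column `j` -/
private def Rk1_Y {r n : ℕ} (M : Matrix (Fin r) (Fin n) Hq) (j : Fin n) : Matrix (Fin r) Unit Hq :=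
  fun i _ => M i j

private theorem Rk1_upd {r n : ℕ} (M : Matrix (Fin r) (Fin n) Hq) (w : Fin n → ℝ) (ε : ℝ) (j : Fin n) (x : ℝ) :
    LX M (Function.update w j x) ε = LX M (Function.update w j 0) ε +
      ((x : ℂ) • chi (Rk1_Y M j)) * (chi (Rk1_Y M j))ᴴ := by
  have e1 : Matrix.diagonal (fun p : Fin n × Fin 2 => ((Function.update w j x p.1 : ℝ) : ℂ)) =
      Matrix.diagonal (fun p : Fin n × Fin 2 => ((Function.update w j 0 p.1 : ℝ) : ℂ)) +
        (x : ℂ) • Matrix.diagonal (fun p : Fin n × Fin 2 => if p.1 = j then (1 : ℂ) else 0) := by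
    rw [← Matrix.diagonal_smul, Matrix.diagonal_add]
    congr 1
    funext p
    by_cases h : p.1 = j
    · rw [h]
      simp [h]
    · simp [h]
  have e2 : chi M * Matrix.diagonal (fun p : Fin n × Fin 2 => if p.1 = j then (1 : ℂ) else 0) * (chi M)ᴴ =
      chi (Rk1_Y M j) * (chi (Rk1_Y M j))ᴴ := by
    ext a b
    rw [Matrix.mul_apply, Matrix.mul_apply, Fintype.sum_prod_type, Fintype.sum_prod_type]
    rw [Finset.sum_eq_single j, Finset.univ_unique (α := Unit), Finset.sum_singleton]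
    · refine Finset.sum_congr rfl fun c _ => ?_
      rw [Matrix.mul_diagonal, if_pos rfl, mul_one]
      rfl
    · intro k _ hk
      refine Finset.sum_eq_zero fun c _ => ?_
      rw [Matrix.mul_diagonal, if_neg hk, mul_zero, zero_mul]
    · intro h
      exact absurd (Finset.mem_univ j) h
  unfold LX
  rw [e1, Matrix.mul_add, Matrix.add_mul, Matrix.mul_smul, Matrix.smul_mul, e2, Matrix.smul_mul, add_assoc]

private theorem Rk1_scalar {Z : Matrix (Unit × Fin 2) (Unit × Fin 2) ℂ} (h1 : Rk1_F Z = Z) (h2 : Zᴴ = Z) :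
    Z = ((Z ((), 0) ((), 0)).re : ℂ) • (1 : Matrix (Unit × Fin 2) (Unit × Fin 2) ℂ) := by
  have h0 : Rk1_s 0 = 1 := rfl
  have h1' : Rk1_s 1 = -1 := rfl
  have e0 : (0 : Fin 2) + 1 = 1 := rfl
  have e1 : (1 : Fin 2) + 1 = 0 := rfl
  have a1 : star (Z ((), 0) ((), 0)) = Z ((), 0) ((), 0) := congrFun (congrFun h2 ((), 0)) ((), 0)
  have a2 : star (Z ((), 1) ((), 0)) = Z ((), 0) ((), 1) := congrFun (congrFun h2 ((), 0)) ((), 1)
  have a3 : star (Z ((), 0) ((), 1)) = Z ((), 1) ((), 0) := congrFun (congrFun h2 ((), 1)) ((), 0)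
  have b1 : Rk1_s 1 * Rk1_s 1 * star (Z ((), (1 : Fin 2) + 1) ((), (1 : Fin 2) + 1)) = Z ((), 1) ((), 1) :=
    congrFun (congrFun h1 ((), 1)) ((), 1)
  have b2 : Rk1_s 0 * Rk1_s 1 * star (Z ((), (0 : Fin 2) + 1) ((), (1 : Fin 2) + 1)) = Z ((), 0) ((), 1) :=
    congrFun (congrFun h1 ((), 0)) ((), 1)
  rw [h1', e1, a1] at b1
  rw [h0, h1', e0, e1, a2] at b2
  have c1 : Z ((), 1) ((), 1) = Z ((), 0) ((), 0) := by rw [← b1]; ring
  have c2 : Z ((), 0) ((), 1) = 0 := by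
    have h3 : (2 : ℂ) * Z ((), 0) ((), 1) = 0 := by linear_combination -b2
    rcases mul_eq_zero.1 h3 with h4 | h4
    · exact absurd h4 two_ne_zero
    · exact h4
  have c3 : Z ((), 1) ((), 0) = 0 := by rw [← a3, c2, star_zero]
  have c4 : ((Z ((), 0) ((), 0)).re : ℂ) = Z ((), 0) ((), 0) := Complex.conj_eq_iff_re.1 a1
  ext ⟨_, a⟩ ⟨_, b⟩
  rw [Matrix.smul_apply, smul_eq_mul, c4]
  fin_cases a <;> fin_cases b
  · show Z ((), 0) ((), 0) = _ * (1 : Matrix (Unit × Fin 2) (Unit × Fin 2) ℂ) ((), 0) ((), 0)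
    rw [Matrix.one_apply_eq, mul_one]
  · show Z ((), 0) ((), 1) = _ * (1 : Matrix (Unit × Fin 2) (Unit × Fin 2) ℂ) ((), 0) ((), 1)
    rw [Matrix.one_apply_ne (by simp), mul_zero, c2]
  · show Z ((), 1) ((), 0) = _ * (1 : Matrix (Unit × Fin 2) (Unit × Fin 2) ℂ) ((), 1) ((), 0)
    rw [Matrix.one_apply_ne (by simp), mul_zero, c3]
  · show Z ((), 1) ((), 1) = _ * (1 : Matrix (Unit × Fin 2) (Unit × Fin 2) ℂ) ((), 1) ((), 1)
    rw [Matrix.one_apply_eq, mul_one, c1]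

theorem LX_update {r n : ℕ} (M : Matrix (Fin r) (Fin n) Hq) {w : Fin n → ℝ} (hw : ∀ j, 0 ≤ w j) {ε : ℝ} (hε : 0 < ε) (j : Fin n) :
    ∃ t : ℝ, 0 ≤ t ∧ ∀ x : ℝ, 0 ≤ x →
      (LX M (Function.update w j x) ε).det = (LX M (Function.update w j 0) ε).det * (1 + (t : ℂ) * x) ^ 2 := by
  have hw0 : ∀ k, 0 ≤ Function.update w j 0 k := by
    intro k
    by_cases h : k = j
    · subst h
      rw [Function.update_self]
    · rw [Function.update_of_ne h]
      exact hw k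
  have hu : IsUnit (LX M (Function.update w j 0) ε).det := by
    obtain ⟨a, ha, h⟩ := LX_pos M hw0 hε
    rw [h]
    exact isUnit_iff_ne_zero.2 (by exact_mod_cast ha.ne')
  have hFX : Rk1_F (LX M (Function.update w j 0) ε)⁻¹ = (LX M (Function.update w j 0) ε)⁻¹ :=
    Rk1_F_inv _ (Rk1_F_LX M _ ε) hu
  obtain ⟨hH, h0⟩ := Rk1_ZX M hw0 hε (chi (Rk1_Y M j)) ((), 0)
  have hFZ : Rk1_F ((chi (Rk1_Y M j))ᴴ * (LX M (Function.update w j 0) ε)⁻¹ * chi (Rk1_Y M j)) =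
      (chi (Rk1_Y M j))ᴴ * (LX M (Function.update w j 0) ε)⁻¹ * chi (Rk1_Y M j) := by
    rw [Rk1_F_mul, Rk1_F_mul, Rk1_F_star, hFX, Rk1_F_chi]
  have hZt := Rk1_scalar hFZ hH
  refine ⟨_, h0, fun x _ => ?_⟩
  rw [Rk1_upd, Matrix.det_add_mul _ _ hu, Matrix.mul_smul]
  generalize (chi (Rk1_Y M j))ᴴ * (LX M (Function.update w j 0) ε)⁻¹ * chi (Rk1_Y M j) = Z at hZt ⊢
  generalize (Z ((), 0) ((), 0)).re = t at hZt ⊢
  subst hZt
  congr 1
  have e2 : (1 : Matrix (Unit × Fin 2) (Unit × Fin 2) ℂ) + (x : ℂ) • (t : ℂ) • (1 : Matrix (Unit × Fin 2) (Unit × Fin 2) ℂ) =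
      (1 + (t : ℂ) * x) • (1 : Matrix (Unit × Fin 2) (Unit × Fin 2) ℂ) := by
    rw [add_smul, one_smul, smul_smul, mul_comm]
  rw [e2, Matrix.det_smul, Matrix.det_one, mul_one]
  simp

private theorem Rk1_sub {r n : ℕ} (M : Matrix (Fin r) (Fin n) Hq) (T : Finset (Fin n)) {m : ℕ} (hT : T.card = m) :
    LX M (fun j => if j ∈ T then 1 else 0) 0 =
      chi (M.submatrix id (T.orderEmbOfFin hT)) * (chi (M.submatrix id (T.orderEmbOfFin hT)))ᴴ := by
  unfold LX
  rw [Complex.ofReal_zero, zero_smul, zero_add]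
  ext a b
  rw [Matrix.mul_apply, Matrix.mul_apply, Fintype.sum_prod_type, Fintype.sum_prod_type]
  have h1 : ∀ k : Fin n, (∑ c : Fin 2, (chi M * Matrix.diagonal (fun x : Fin n × Fin 2 =>
      (((if x.1 ∈ T then 1 else 0 : ℝ)) : ℂ))) a (k, c) * (chi M)ᴴ (k, c) b) =
      if k ∈ T then ∑ c : Fin 2, chi M a (k, c) * star (chi M b (k, c)) else 0 := by
    intro k
    split_ifs with hk
    · refine Finset.sum_congr rfl fun c _ => ?_
      rw [Matrix.mul_diagonal, if_pos hk, Complex.ofReal_one, mul_one, Matrix.conjTranspose_apply]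
    · refine Finset.sum_eq_zero fun c _ => ?_
      rw [Matrix.mul_diagonal, if_neg hk, Complex.ofReal_zero, mul_zero, zero_mul]
  rw [Finset.sum_congr rfl fun k _ => h1 k, Finset.sum_ite_mem, Finset.univ_inter]
  conv_lhs => rw [← Finset.map_orderEmbOfFin_univ T hT]
  rw [Finset.sum_map]
  rfl

/-- fewer than `r` columns: singular -/
theorem LX_few {r n : ℕ} (M : Matrix (Fin r) (Fin n) Hq) (T : Finset (Fin n)) (hT : T.card < r) :
    (LX M (fun j => if j ∈ T then 1 else 0) 0).det = 0 := by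
  by_contra h
  have h1 := Matrix.rank_of_isUnit _ ((Matrix.isUnit_iff_isUnit_det _).2 (isUnit_iff_ne_zero.2 h))
  rw [Rk1_sub M T rfl] at h1
  have h2 := Matrix.rank_mul_le_left (chi (M.submatrix id (T.orderEmbOfFin rfl)))
    (chi (M.submatrix id (T.orderEmbOfFin rfl)))ᴴ
  have h3 := Matrix.rank_le_card_width (chi (M.submatrix id (T.orderEmbOfFin rfl)))
  rw [h1] at h2
  simp only [Fintype.card_prod, Fintype.card_fin] at h2 h3
  omega

private theorem Rk1_star {R : Type} [Fintype R] [DecidableEq R] (M : Matrix R R Hq) :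
    dC Mᴴ = star (dC M) := by
  unfold dC
  rw [chi_star, Matrix.det_conjTranspose]

private theorem Rk1_nn : ∀ (m : ℕ) (M : Matrix (Fin m) (Fin m) Hq), ∃ a : ℝ, 0 ≤ a ∧ dC M = (a : ℂ)
  | 0, M => ⟨1, zero_le_one, by rw [dC_zero_fin, Complex.ofReal_one]⟩
  | m + 1, M => by
    by_cases h : ∀ j, M 0 j = 0
    · exact ⟨0, le_rfl, by rw [dC_zero_row M 0 h, Complex.ofReal_zero]⟩
    · push Not at h
      obtain ⟨j, hj⟩ := h
      let x : Fin (m + 1) → Hq := fun k => if k = j then 1 else star (-((M 0 j)⁻¹ * M 0 k))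
      let N : Matrix (Fin (m + 1)) (Fin (m + 1)) Hq := ((1 : Matrix (Fin (m + 1)) (Fin (m + 1)) Hq).updateCol j x)ᴴ
      have hx : Quaternion.normSq (x j) = 1 := by
        show Quaternion.normSq (if j = j then (1 : Hq) else _) = 1
        rw [if_pos rfl, map_one]
      have h1 : dC ((1 : Matrix (Fin (m + 1)) (Fin (m + 1)) Hq).updateCol j x) = 1 := by
        have h2 := dC_updateCol (1 : Matrix (Fin (m + 1)) (Fin (m + 1)) Hq) j x hx
        have h3 : (fun i => ∑ k, (1 : Matrix (Fin (m + 1)) (Fin (m + 1)) Hq) i k * x k) = x := by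
          funext i
          rw [Finset.sum_eq_single i]
          · rw [Matrix.one_apply_eq, one_mul]
          · intro k _ hk
            rw [Matrix.one_apply_ne hk.symm, zero_mul]
          · intro h4
            exact absurd (Finset.mem_univ i) h4
        rw [h3, dC_one] at h2
        exact h2
      have hN : dC N = 1 := by
        rw [Rk1_star, h1, star_one]
      have hNa : ∀ k l, N k l = if k = j then star (x l) else if k = l then 1 else 0 := by
        intro k l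
        show star (((1 : Matrix (Fin (m + 1)) (Fin (m + 1)) Hq).updateCol j x) l k) = _
        by_cases hk : k = j
        · rw [if_pos hk, hk, Matrix.updateCol_self]
        · rw [if_neg hk, Matrix.updateCol_ne hk, Matrix.one_apply]
          by_cases hl : l = k
          · rw [if_pos hl, if_pos hl.symm, star_one]
          · rw [if_neg hl, if_neg fun h5 => hl h5.symm, star_zero]
      have hrow : ∀ j', j' ≠ j → (M * N) 0 j' = 0 := by
        intro l hl
        rw [Matrix.mul_apply]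
        have h5 : ∀ k, M 0 k * N k l = (if k = j then M 0 j * star (x l) else 0) + if k = l then M 0 l else 0 := by
          intro k
          rw [hNa]
          by_cases hk : k = j
          · rw [if_pos hk, if_pos hk, if_neg (by rw [hk]; exact hl.symm), hk, add_zero]
          · rw [if_neg hk, if_neg hk, zero_add]
            by_cases hk2 : k = l
            · rw [if_pos hk2, if_pos hk2, hk2, mul_one]
            · rw [if_neg hk2, if_neg hk2, mul_zero]
        rw [Finset.sum_congr rfl fun k _ => h5 k, Finset.sum_add_distrib, Finset.sum_ite_eq' Finset.univ j,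
          Finset.sum_ite_eq' Finset.univ l, if_pos (Finset.mem_univ _), if_pos (Finset.mem_univ _)]
        show M 0 j * star (if l = j then (1 : Hq) else star (-((M 0 j)⁻¹ * M 0 l))) + M 0 l = 0
        rw [if_neg hl, star_star, mul_neg, ← mul_assoc, mul_inv_cancel₀ hj, one_mul, neg_add_cancel]
      obtain ⟨b, hb, hb2⟩ := Rk1_nn m ((M * N).submatrix (Fin.succAbove 0) j.succAbove)
      have h6 := dC_row (M * N) 0 j hrow
      rw [dC_mul, hN, mul_one, hb2] at h6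
      refine ⟨((Quaternion.normSq ((M * N) 0 j) : ℚ) : ℝ) * b, ?_, ?_⟩
      · have h7 : (0 : ℚ) ≤ Quaternion.normSq ((M * N) 0 j) := Quaternion.normSq_nonneg
        have h8 : (0 : ℝ) ≤ ((Quaternion.normSq ((M * N) 0 j) : ℚ) : ℝ) := by exact_mod_cast h7
        exact mul_nonneg h8 hb
      · rw [h6]
        push_cast
        rfl

private theorem Rk1_dC_nonneg {R : Type} [Fintype R] [DecidableEq R] (M : Matrix R R Hq) :
    ∃ a : ℝ, 0 ≤ a ∧ dC M = (a : ℂ) := by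
  obtain ⟨a, ha, h⟩ := Rk1_nn _ (M.submatrix (Fintype.equivFin R).symm (Fintype.equivFin R).symm)
  refine ⟨a, ha, ?_⟩
  rw [← h]
  unfold dC
  have e : chi (M.submatrix (Fintype.equivFin R).symm (Fintype.equivFin R).symm) =
      (chi M).submatrix ((Fintype.equivFin R).symm.prodCongr (Equiv.refl (Fin 2)))
        ((Fintype.equivFin R).symm.prodCongr (Equiv.refl (Fin 2))) := rfl
  rw [e, Matrix.det_submatrix_equiv_self]

/-- exactly `r` columns -/
theorem LX_basis {r n : ℕ} (M : Matrix (Fin r) (Fin n) Hq) (T : Finset (Fin n)) (hT : T.card = r) :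
    (LX M (fun j => if j ∈ T then 1 else 0) 0).det = dC (M.submatrix id (T.orderEmbOfFin hT)) ^ 2 := by
  rw [Rk1_sub M T hT, Matrix.det_mul, Matrix.det_conjTranspose]
  obtain ⟨a, ha, h⟩ := Rk1_dC_nonneg (M.submatrix id (T.orderEmbOfFin hT))
  have h2 : (chi (M.submatrix id (T.orderEmbOfFin hT))).det = (a : ℂ) := h
  rw [h, h2, pow_two]
  congr 1
  exact Complex.conj_ofReal a

theorem dC_nonneg {R : Type} [Fintype R] [DecidableEq R] (M : Matrix R R Hq) : ∃ a : ℝ, 0 ≤ a ∧ dC M = (a : ℂ) :=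
  Rk1_dC_nonneg M

end Pool.Agent.FRM
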