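import Pool.Agent.FRM.Q8
import Pool.Agent.FRM.Rp
import Pool.Agent.FRM.CyB

/-!
# FRM/Sgn: the sign lemma

Induction over ears.  For an ear `l : a → b` of `B` the signs are changed on the first edge of `l` only, so that the cycle of `l` and
one path of `B` has positive real part; then this holds for all paths of `B` (`replace_induction`, `ear_theta`).  A cycle which contains
an edge `d` of `l` is, after `resplit` at the ends of `d`, given by `[d]` and `rv l₁ ++ R ++ rv l₂` with `l = l₁ ++ d :: l₂` and a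
path `R : a → b` of `B` (`Sgn_through`).
-/

set_option autoImplicit false

noncomputable section

open scoped Classical

namespace Pool.Agent.FRM

open GG

variable {V E Q : Type} [AddCommGroup Q] {Γ : GG V E Q}

/-- change of signs -/
def sgt (ε : E → Bool) (τ : E → Hqˣ) (e : E) : Hqˣ := if ε e then -τ e else τ e

private theorem Sgn_tail {x y : V} {d : Da E} {l : List (Da E)} (h : Γ.Pt x (d :: l) y) :
    Γ.Pt (Γ.tgt d) l y ∧ x ∉ Γ.vs (Γ.tgt d) l := by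
  have h2 : (x :: Γ.vs (Γ.tgt d) l).Nodup := h.2
  rw [List.nodup_cons] at h2
  exact ⟨⟨h.1.2.2, h2.2⟩, h2.1⟩

private theorem Sgn_ends {d d' : Da E} (h : d'.1 = d.1) :
    (Γ.src d' = Γ.src d ∧ Γ.tgt d' = Γ.tgt d) ∨ (Γ.src d' = Γ.tgt d ∧ Γ.tgt d' = Γ.src d) := by
  obtain ⟨e, b⟩ := d
  obtain ⟨e', b'⟩ := d'
  simp only at h
  subst h
  cases b <;> cases b' <;> simp [GG.src, GG.tgt]

private theorem Sgn_fl {d d' : Da E} (h : d'.1 = d.1) : d' = d ∨ d' = fl d := by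
  obtain ⟨e, b⟩ := d
  obtain ⟨e', b'⟩ := d'
  simp only at h
  subst h
  cases b <;> cases b' <;> simp [fl]

private theorem Sgn_srcVS {B : Finset E} {d : Da E} (h : d.1 ∈ B) : Γ.src d ∈ (Γ.on B).VS := by
  obtain ⟨e, b⟩ := d
  cases b
  · exact ⟨e, h, Or.inr rfl⟩
  · exact ⟨e, h, Or.inl rfl⟩

private theorem Sgn_ne {x y : V} {l : List (Da E)} (h : Γ.Pt x l y) {d : Da E} (hd : d ∈ l) :
    Γ.src d ≠ Γ.tgt d := by
  have h1 := pt_lf h d hd
  obtain ⟨e, b⟩ := d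
  cases b
  · exact fun h2 => h1 h2.symm
  · exact h1

private theorem Sgn_fst (l : List (Da E)) (e : E) : e ∈ l.map Prod.fst ↔ e ∈ eds l := by
  rw [mem_eds, List.mem_map]

/-- a path which enters the ear at an inner vertex follows the ear -/
private theorem Sgn_peel {B : Finset E} {a b w : V} {l : List (Da E)} (h : Γ.Ear B a b l) :
    ∀ (l₁ : List (Da E)) (d : Da E) (l₂ : List (Da E)) (u : V) (T : List (Da E)), l = l₁ ++ d :: l₂ →
      Γ.Wk a l₁ u → (Γ.on (B ∪ eds l)).Pt u T w → d.1 ∉ eds T → w ∉ Γ.vs a l₁ →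
      ∃ T', T = rv l₁ ++ T' ∧ (Γ.on (B ∪ eds l)).Pt a T' w := by
  intro l₁
  induction l₁ using List.reverseRecOn with
  | nil =>
    intro d l₂ u T _ hw hT _ _
    have hau : a = u := hw
    subst hau
    exact ⟨T, rfl, hT⟩
  | append_singleton l₁' d₁ ih =>
    intro d l₂ u T hl hw hT hd hwn
    obtain ⟨u', hw1, hw2⟩ := wk_append.1 hw
    have hsrc : Γ.src d₁ = u' := hw2.2.1
    have htgt : Γ.tgt d₁ = u := hw2.2.2
    have hpt : Γ.Pt a ((l₁' ++ [d₁]) ++ d :: l₂) b := hl ▸ h.pt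
    obtain ⟨y, p1, p2, -⟩ := pt_split hpt
    have hy : y = u := wk_unique p1.1 hw
    subst hy
    obtain ⟨y', p3, p4, p5⟩ := pt_split p1
    have hy' : y' = u' := wk_unique p3.1 hw1
    subst hy'
    obtain ⟨p6, p7⟩ := Sgn_tail p2
    have hne : y' ≠ y := by
      intro he
      have h1 := (Sgn_tail p4).2
      rw [htgt, he] at h1
      exact h1 (wk_first _ _)
    have hyn : y ∉ Γ.vs a l₁' := by
      intro h1
      have h2 : y ∈ Γ.vs y' [d₁] := wk_last p4.1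
      exact hne (p5 y h1 h2).symm
    have hya : y ≠ a := fun h1 => hyn (h1 ▸ wk_first _ _)
    have hyb : y ≠ b := fun h1 => p7 (h1 ▸ wk_last p6.1)
    have hyl : y ∈ Γ.vs a l := by
      rw [hl]
      exact (mem_vs_append hw).2 (Or.inl (wk_last hw))
    have hyB : y ∉ (Γ.on B).VS := by
      intro h1
      rcases h.int y hyl h1 with h2 | h2
      · exact hya h2
      · exact hyb h2
    cases T with
    | nil =>
      have hyw : y = w := hT.1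
      subst hyw
      exact absurd (wk_last hw) hwn
    | cons c T₁ =>
      obtain ⟨q1, q2⟩ := Sgn_tail hT
      have hc1 : c.1 ∈ B ∪ eds l := hT.1.1
      have hc2 : Γ.src c = y := hT.1.2.1
      have hcl : c.1 ∈ eds l := by
        rcases Finset.mem_union.1 hc1 with h1 | h1
        · exact absurd (hc2 ▸ Sgn_srcVS h1) hyB
        · exact h1
      obtain ⟨d', hd', he'⟩ := (mem_eds _ _).1 hcl
      have hcd : c = fl d₁ := by
        have hyd : y = Γ.src d' ∨ y = Γ.tgt d' := by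
          rcases Sgn_ends (Γ := Γ) he' with ⟨h1, _⟩ | ⟨_, h1⟩
          · exact Or.inl (by rw [h1, hc2])
          · exact Or.inr (by rw [h1, hc2])
        rw [hl, List.mem_append, List.mem_append, List.mem_singleton, List.mem_cons] at hd'
        rcases hd' with (hd' | hd') | hd' | hd'
        · exfalso
          obtain ⟨-, h2, h3⟩ := wk_mem hw1 d' hd'
          rcases hyd with h1 | h1
          · exact hyn (h1 ▸ h2)
          · exact hyn (h1 ▸ h3)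
        · subst hd'
          rcases Sgn_fl he'.symm with h1 | h1
          · exfalso
            rw [h1, hsrc] at hc2
            exact hne hc2
          · exact h1
        · exfalso
          subst hd'
          exact hd ((mem_eds _ _).2 ⟨c, List.mem_cons_self, he'.symm⟩)
        · exfalso
          obtain ⟨-, h2, h3⟩ := wk_mem p6.1 d' hd'
          rcases hyd with h1 | h1
          · exact p7 (h1 ▸ h2)
          · exact p7 (h1 ▸ h3)
      subst hcd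
      have hT1 : (Γ.on (B ∪ eds l)).Pt y' T₁ w := by
        have h1 : (Γ.on (B ∪ eds l)).tgt (fl d₁) = y' := by
          show Γ.tgt (fl d₁) = y'
          rw [tgt_fl, hsrc]
        rw [h1] at q1
        exact q1
      have hnd := pt_nodup hT
      rw [List.map_cons, List.nodup_cons] at hnd
      obtain ⟨T', e1, e2⟩ := ih d₁ (d :: l₂) y' T₁ (by rw [hl]; simp) hw1 hT1
        (fun h1 => hnd.1 ((Sgn_fst T₁ d₁.1).2 h1))
        (fun h1 => hwn ((mem_vs_append hw1).2 (Or.inl h1)))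
      refine ⟨T', ?_, e2⟩
      rw [rv_append, rv_cons, rv_nil, e1]
      simp

private theorem Sgn_ear_rv {B : Finset E} {a b : V} {l : List (Da E)} (h : Γ.Ear B a b l) :
    Γ.Ear B b a (rv l) := by
  refine ⟨h.hb, h.ha, h.ne.symm, pt_rv h.pt, ?_, ?_⟩
  · intro z hz hzB
    exact (h.int z ((mem_vs_rv h.pt.1).1 hz) hzB).symm
  · intro d hd
    exact h.out (fl d) ((mem_rv d l).1 hd)

private theorem Sgn_through {B : Finset E} {a b : V} {l : List (Da E)} (h : Γ.Ear B a b l) {d : Da E}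
    (hd : d ∈ l) {T : List (Da E)} (hT : (Γ.on (B ∪ eds l)).Pt (Γ.src d) T (Γ.tgt d)) (hdT : d.1 ∉ eds T) :
    ∃ l₁ l₂ R, l = l₁ ++ d :: l₂ ∧ (Γ.on B).Pt a R b ∧ T = rv l₁ ++ R ++ rv l₂ := by
  obtain ⟨l₁, l₂, hl⟩ := List.append_of_mem hd
  have hpt : Γ.Pt a (l₁ ++ d :: l₂) b := hl ▸ h.pt
  obtain ⟨y, p1, p2, p3⟩ := pt_split hpt
  have hy : Γ.src d = y := p2.1.2.1
  obtain ⟨p4, p5⟩ := Sgn_tail p2
  rw [hy] at hT
  have hsub : ∀ z, z ∈ Γ.vs (Γ.tgt d) l₂ → z ∈ Γ.vs y (d :: l₂) := fun z hz => List.mem_cons_of_mem y hz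
  have hw1 : Γ.tgt d ∉ Γ.vs a l₁ := by
    intro h1
    have h2 := p3 _ h1 (hsub _ (wk_first _ _))
    exact p5 (h2 ▸ wk_first (Γ := Γ) (Γ.tgt d) l₂)
  obtain ⟨T', e1, e2⟩ := Sgn_peel h l₁ d l₂ y T hl p1.1 hT hdT hw1
  have hrl : rv l = rv l₂ ++ fl d :: rv l₁ := by
    rw [hl, rv_append, rv_cons]
    simp
  have hT' : (Γ.on (B ∪ eds (rv l))).Pt (Γ.tgt d) (rv T') a := by
    rw [eds_rv]
    exact pt_rv e2
  have hdT' : (fl d).1 ∉ eds (rv T') := by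
    rw [eds_rv]
    intro h1
    apply hdT
    rw [e1, eds_append]
    exact Finset.mem_union_right _ h1
  have hw2 : a ∉ Γ.vs b (rv l₂) := by
    rw [mem_vs_rv p4.1]
    intro h1
    have h2 := p3 a (wk_first _ _) (hsub a h1)
    exact p5 (h2 ▸ h1)
  obtain ⟨T'', e3, e4⟩ := Sgn_peel (Sgn_ear_rv h) (rv l₂) (fl d) (rv l₁) (Γ.tgt d) (rv T') hrl (wk_rv p4.1)
    hT' hdT' hw2
  rw [rv_rv] at e3
  have e5 : T' = rv T'' ++ rv l₂ := by
    rw [← rv_rv T', e3, rv_append]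
  have e6 : T = rv l₁ ++ rv T'' ++ rv l₂ := by
    rw [e1, e5, List.append_assoc]
  refine ⟨l₁, l₂, rv T'', hl, ?_, e6⟩
  rw [eds_rv] at e4
  have e7 : (Γ.on (B ∪ eds l)).Pt a (rv T'') b := pt_rv e4
  have hnd := pt_nodup hT
  rw [e6, List.map_append, List.map_append, List.nodup_append, List.nodup_append] at hnd
  obtain ⟨⟨-, -, n1⟩, -, n2⟩ := hnd
  refine pt_eds (Γ := Γ.on (B ∪ eds l)) e7 ?_
  intro e he
  have h1 : e ∈ B ∪ eds l := eds_sub e7.1 he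
  rcases Finset.mem_union.1 h1 with h2 | h2
  · exact h2
  · exfalso
    rw [hl, eds_append, Finset.mem_union] at h2
    have he' : e ∈ (rv T'').map Prod.fst := (Sgn_fst _ e).2 he
    rcases h2 with h2 | h2
    · refine n1 e ((Sgn_fst _ e).2 ?_) e he' rfl
      rw [eds_rv]
      exact h2
    · obtain ⟨d', hd', hde⟩ := (mem_eds _ _).1 h2
      rcases List.mem_cons.1 hd' with h3 | h3
      · subst h3
        apply hdT
        rw [e6, eds_append, eds_append, hde]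
        exact Finset.mem_union_left _ (Finset.mem_union_right _ he)
      · refine n2 e (List.mem_append_right _ he') e ((Sgn_fst _ e).2 ?_) rfl
        rw [eds_rv]
        exact (mem_eds _ _).2 ⟨d', h3, hde⟩

/-! ### signs -/

private theorem Sgn_norm_inv {q : Hqˣ} (h : Quaternion.normSq (q : Hq) = 1) :
    Quaternion.normSq ((q⁻¹ : Hqˣ) : Hq) = 1 := by
  have h1 : (q : Hq) * ((q⁻¹ : Hqˣ) : Hq) = 1 := q.mul_inv
  have h2 := congrArg Quaternion.normSq h1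
  rw [map_mul, h, one_mul, map_one] at h2
  exact h2

private theorem Sgn_norm_mul {p q : Hqˣ} (hp : Quaternion.normSq (p : Hq) = 1) (hq : Quaternion.normSq (q : Hq) = 1) :
    Quaternion.normSq ((p * q⁻¹ : Hqˣ) : Hq) = 1 := by
  rw [Units.val_mul, map_mul, hp, Sgn_norm_inv hq, one_mul]

private theorem Sgn_swap {p q : Hqˣ} (hp : Quaternion.normSq (p : Hq) = 1) (hq : Quaternion.normSq (q : Hq) = 1) :
    ((p * q⁻¹ : Hqˣ) : Hq).re = ((q * p⁻¹ : Hqˣ) : Hq).re := by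
  rw [← re_inv (Sgn_norm_mul hp hq), mul_inv_rev, inv_inv]

private theorem Sgn_sgt_norm {τ : E → Hqˣ} (hn : ∀ e, Quaternion.normSq (τ e : Hq) = 1) (ε : E → Bool) (e : E) :
    Quaternion.normSq (sgt ε τ e : Hq) = 1 := by
  unfold sgt
  split_ifs
  · rw [Units.val_neg, Quaternion.normSq_neg, hn]
  · exact hn e

private theorem Sgn_pm (τ : E → Hqˣ) (ε : E → Bool) (l : List (Da E)) :
    hl (sgt ε τ) l = hl τ l ∨ hl (sgt ε τ) l = -hl τ l := by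
  induction l with
  | nil =>
    left
    rw [hl_nil, hl_nil]
  | cons d l ih =>
    rw [hl_cons, hl_cons]
    have h1 : (if d.2 then sgt ε τ d.1 else (sgt ε τ d.1)⁻¹) = (if d.2 then τ d.1 else (τ d.1)⁻¹) ∨
        (if d.2 then sgt ε τ d.1 else (sgt ε τ d.1)⁻¹) = -(if d.2 then τ d.1 else (τ d.1)⁻¹) := by
      unfold sgt
      split_ifs
      · exact Or.inr rfl
      · exact Or.inl rfl
      · exact Or.inr inv_neg
      · exact Or.inl rfl
    rcases h1 with h1 | h1 <;> rcases ih with h2 | h2 <;> rw [h1, h2]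
    · exact Or.inl rfl
    · right
      rw [mul_neg]
    · right
      rw [neg_mul]
    · left
      rw [neg_mul_neg]

private theorem Sgn_congr {σ σ' : E → Hqˣ} {l : List (Da E)} (h : ∀ d ∈ l, σ d.1 = σ' d.1) : hl σ l = hl σ' l := by
  induction l with
  | nil => rw [hl_nil, hl_nil]
  | cons d l ih =>
    rw [hl_cons, hl_cons, ih fun d' hd' => h d' (List.mem_cons_of_mem d hd'), h d List.mem_cons_self]

private theorem Sgn_sc {x x' : Hqˣ} (hx : x' = x ∨ x' = -x) :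
    ∃ s : ℚ, s * s = 1 ∧ (∀ q : Hqˣ, ((x' * q⁻¹ : Hqˣ) : Hq).re = s * ((x * q⁻¹ : Hqˣ) : Hq).re) ∧
      ∀ q : Hqˣ, ((q * x'⁻¹ : Hqˣ) : Hq).re = s * ((q * x⁻¹ : Hqˣ) : Hq).re := by
  rcases hx with hx | hx
  · refine ⟨1, by norm_num, fun q => ?_, fun q => ?_⟩
    · rw [hx, one_mul]
    · rw [hx, one_mul]
  · refine ⟨-1, by norm_num, fun q => ?_, fun q => ?_⟩
    · rw [hx, neg_mul, Units.val_neg, Quaternion.re_neg, neg_mul, one_mul]
    · rw [hx, inv_neg, mul_neg, Units.val_neg, Quaternion.re_neg, neg_mul, one_mul]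

private theorem Sgn_pos {p q : Hqˣ} {p' q' : Hqˣ} (hp : p' = p ∨ p' = -p) (hq : q' = q ∨ q' = -q)
    (h : ((p * q⁻¹ : Hqˣ) : Hq).re ≠ 0) : ((p' * q'⁻¹ : Hqˣ) : Hq).re ≠ 0 := by
  obtain ⟨s, hs, h1, -⟩ := Sgn_sc hp
  obtain ⟨t, ht, -, h2⟩ := Sgn_sc hq
  rw [h1, h2]
  exact mul_ne_zero (left_ne_zero_of_mul_eq_one hs) (mul_ne_zero (left_ne_zero_of_mul_eq_one ht) h)

private theorem Sgn_tri {x y z x' y' z' : Hqˣ} (hx : x' = x ∨ x' = -x) (hy : y' = y ∨ y' = -y) (hz : z' = z ∨ z' = -z)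
    (h : 0 < ((x * y⁻¹ : Hqˣ) : Hq).re * ((y * z⁻¹ : Hqˣ) : Hq).re * ((x * z⁻¹ : Hqˣ) : Hq).re) :
    0 < ((x' * y'⁻¹ : Hqˣ) : Hq).re * ((y' * z'⁻¹ : Hqˣ) : Hq).re * ((x' * z'⁻¹ : Hqˣ) : Hq).re := by
  obtain ⟨r, hr, h1, -⟩ := Sgn_sc hx
  obtain ⟨s, hs, h2, h3⟩ := Sgn_sc hy
  obtain ⟨t, ht, -, h4⟩ := Sgn_sc hz
  rw [h1, h3, h2, h4, h1, h4]
  have e : r * (s * ((x * y⁻¹ : Hqˣ) : Hq).re) * (s * (t * ((y * z⁻¹ : Hqˣ) : Hq).re)) *
      (r * (t * ((x * z⁻¹ : Hqˣ) : Hq).re)) = (r * r) * (s * s) * (t * t) *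
        (((x * y⁻¹ : Hqˣ) : Hq).re * ((y * z⁻¹ : Hqˣ) : Hq).re * ((x * z⁻¹ : Hqˣ) : Hq).re) := by ring
  rw [e, hr, hs, ht, one_mul, one_mul, one_mul]
  exact h

private theorem Sgn_one : 0 < (((1 : Hqˣ)) : Hq).re := by
  rw [Units.val_one, Quaternion.re_one]
  exact one_pos

/-- conjugation -/
private theorem Sgn_conj (p q r s : Hqˣ) :
    ((q * (p⁻¹ * s * r⁻¹)⁻¹ : Hqˣ) : Hq).re = ((p * q * r * s⁻¹ : Hqˣ) : Hq).re := by
  rw [← re_conj p (q * (p⁻¹ * s * r⁻¹)⁻¹)]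
  congr 2
  group

private theorem Sgn_step {τ : E → Hqˣ} (hn : ∀ e, Quaternion.normSq (τ e : Hq) = 1)
    (hR : ∀ x y P P', Γ.Cy x y P P' → ((hl τ P * (hl τ P')⁻¹ : Hqˣ) : Hq).re ≠ 0)
    (hT : ∀ u w X Y Z, Γ.Th u w X Y Z → 0 < ((hl τ X * (hl τ Y)⁻¹ : Hqˣ) : Hq).re * ((hl τ Y * (hl τ Z)⁻¹ : Hqˣ) : Hq).re *
      ((hl τ X * (hl τ Z)⁻¹ : Hqˣ) : Hq).re)
    {B : Finset E} (hB : B ⊆ Γ.A) (hC : (Γ.on B).C2) {ε : E → Bool}
    (hε : ∀ x y P P', (Γ.on B).Cy x y P P' → 0 < ((hl (sgt ε τ) P * (hl (sgt ε τ) P')⁻¹ : Hqˣ) : Hq).re)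
    {a b : V} {l : List (Da E)} (h : Γ.Ear B a b l) :
    ∃ ε' : E → Bool, ∀ x y P P', (Γ.on (B ∪ eds l)).Cy x y P P' →
      0 < ((hl (sgt ε' τ) P * (hl (sgt ε' τ) P')⁻¹ : Hqˣ) : Hq).re := by
  obtain ⟨R₀, hR₀⟩ := C2_pt hC h.ha h.hb
  -- the new signs
  obtain ⟨ε', h1, h2⟩ : ∃ ε' : E → Bool, (∀ e ∈ B, ε' e = ε e) ∧
      0 < ((hl (sgt ε' τ) l * (hl (sgt ε' τ) R₀)⁻¹ : Hqˣ) : Hq).re := by
    have h3 : ((hl (sgt ε τ) l * (hl (sgt ε τ) R₀)⁻¹ : Hqˣ) : Hq).re ≠ 0 :=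
      Sgn_pos (Sgn_pm τ ε l) (Sgn_pm τ ε R₀) (hR a b l R₀ (ear_cy hB h hR₀))
    rcases lt_or_gt_of_ne h3 with h4 | h4
    · have hlne : l ≠ [] := pt_ne h.pt h.ne
      obtain ⟨d₀, l', hl'⟩ := List.exists_cons_of_ne_nil hlne
      have hnd := pt_nodup h.pt
      rw [hl', List.map_cons, List.nodup_cons] at hnd
      have hdB : d₀.1 ∉ B := h.out d₀ (by rw [hl']; exact List.mem_cons_self)
      obtain ⟨ε₁, hε₁⟩ : ∃ ε₁ : E → Bool, ∀ e, ε₁ e = if e = d₀.1 then !ε e else ε e := ⟨_, fun _ => rfl⟩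
      refine ⟨ε₁, ?_, ?_⟩
      · intro e he
        have h5 : ¬ e = d₀.1 := fun h5 => hdB (h5 ▸ he)
        rw [hε₁, if_neg h5]
      · have e1 : hl (sgt ε₁ τ) R₀ = hl (sgt ε τ) R₀ := by
          refine Sgn_congr fun d hd => ?_
          have hdB' : d.1 ∈ B := ((pt_on hB).1 hR₀).2 d hd
          have h5 : ¬ d.1 = d₀.1 := fun h5 => hdB (h5 ▸ hdB')
          unfold sgt
          rw [hε₁, if_neg h5]
        have e2 : hl (sgt ε₁ τ) l' = hl (sgt ε τ) l' := by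
          refine Sgn_congr fun d hd => ?_
          have h5 : ¬ d.1 = d₀.1 := fun h5 => hnd.1 (h5 ▸ List.mem_map_of_mem hd)
          unfold sgt
          rw [hε₁, if_neg h5]
        have e3 : sgt ε₁ τ d₀.1 = -sgt ε τ d₀.1 := by
          unfold sgt
          rw [hε₁, if_pos rfl]
          cases hε0 : ε d₀.1 <;> simp
        have e4 : hl (sgt ε₁ τ) l = -hl (sgt ε τ) l := by
          rw [hl', hl_cons, hl_cons, e2, e3]
          split_ifs
          · rw [neg_mul]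
          · rw [inv_neg, neg_mul]
        rw [e1, e4, neg_mul, Units.val_neg, Quaternion.re_neg]
        linarith
    · exact ⟨ε, fun _ _ => rfl, h4⟩
  refine ⟨ε', ?_⟩
  have hσ : ∀ m : List (Da E), (∀ d ∈ m, d.1 ∈ B) → hl (sgt ε' τ) m = hl (sgt ε τ) m := by
    intro m hm
    refine Sgn_congr fun d hd => ?_
    unfold sgt
    rw [h1 d.1 (hm d hd)]
  have hB' : ∀ x y P P', (Γ.on B).Cy x y P P' → 0 < ((hl (sgt ε' τ) P * (hl (sgt ε' τ) P')⁻¹ : Hqˣ) : Hq).re := by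
    intro x y P P' hc
    obtain ⟨-, h3, h4⟩ := (cy_on hB).1 hc
    rw [hσ P h3, hσ P' h4]
    exact hε x y P P' hc
  have hnorm : ∀ m : List (Da E), Quaternion.normSq ((hl (sgt ε' τ) m : Hqˣ) : Hq) = 1 :=
    hl_norm (sgt ε' τ) (Sgn_sgt_norm hn ε')
  -- all paths of `B`
  have hA : ∀ R, (Γ.on B).Pt a R b → 0 < ((hl (sgt ε' τ) l * (hl (sgt ε' τ) R)⁻¹ : Hqˣ) : Hq).re := by
    intro R hRp
    refine replace_induction (Γ := Γ.on B)
      (fun R => 0 < ((hl (sgt ε' τ) l * (hl (sgt ε' τ) R)⁻¹ : Hqˣ) : Hq).re) ?_ hR₀ hRp h2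
    intro R₁ X Y R₃ u w p1 p2 p3 p4 hc hF
    have hth := ear_theta hB h p1 p2 p3 p4 hc
    have h5 := Sgn_tri (Sgn_pm τ ε' X) (Sgn_pm τ ε' Y) (Sgn_pm τ ε' (rv R₁ ++ l ++ rv R₃)) (hT _ _ _ _ _ hth)
    have h6 := hB' _ _ _ _ hc
    have h7 : ∀ W : List (Da E), ((hl (sgt ε' τ) W * (hl (sgt ε' τ) (rv R₁ ++ l ++ rv R₃))⁻¹ : Hqˣ) : Hq).re =
        ((hl (sgt ε' τ) l * (hl (sgt ε' τ) (R₁ ++ W ++ R₃))⁻¹ : Hqˣ) : Hq).re := by
      intro W
      rw [Sgn_swap (hnorm l) (hnorm _), hl_append _ (rv R₁ ++ l), hl_append _ (rv R₁), hl_rv, hl_rv, Sgn_conj,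
        hl_append _ (R₁ ++ W), hl_append]
    rw [h7, h7] at h5
    have h8 := (mul_pos_iff_of_pos_right (show (0 : ℚ) < _ from hF)).1 h5
    exact (mul_pos_iff_of_pos_left h6).1 h8
  -- cycles
  intro x y P P' hc
  by_cases hdis : (∀ d ∈ P, d.1 ∈ B) ∧ ∀ d ∈ P', d.1 ∈ B
  · exact hB' x y P P' ((cy_on (Γ := Γ.on (B ∪ eds l)) (B := B) Finset.subset_union_left).2 ⟨hc, hdis.1, hdis.2⟩)
  -- an edge of `l`
  obtain ⟨d, hdl, hdP⟩ : ∃ d ∈ l, d.1 ∈ eds P ∨ d.1 ∈ eds P' := by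
    by_contra hcon
    push Not at hcon
    apply hdis
    constructor
    · intro c hcP
      have h3 : c.1 ∈ B ∪ eds l := (wk_mem hc.p.1 c hcP).1
      rcases Finset.mem_union.1 h3 with h4 | h4
      · exact h4
      · obtain ⟨d, hd, he⟩ := (mem_eds _ _).1 h4
        exact absurd ((mem_eds _ _).2 ⟨c, hcP, he.symm⟩) (hcon d hd).1
    · intro c hcP
      have h3 : c.1 ∈ B ∪ eds l := (wk_mem hc.p'.1 c hcP).1
      rcases Finset.mem_union.1 h3 with h4 | h4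
      · exact h4
      · obtain ⟨d, hd, he⟩ := (mem_eds _ _).1 h4
        exact absurd ((mem_eds _ _).2 ⟨c, hcP, he.symm⟩) (hcon d hd).2
  have huw : Γ.src d ≠ Γ.tgt d := Sgn_ne h.pt hdl
  have hv : (Γ.src d ∈ Γ.vs x P ∨ Γ.src d ∈ Γ.vs x P') ∧ (Γ.tgt d ∈ Γ.vs x P ∨ Γ.tgt d ∈ Γ.vs x P') := by
    have key : ∀ (m : List (Da E)), (Γ.on (B ∪ eds l)).Wk x m y → d.1 ∈ eds m →
        Γ.src d ∈ Γ.vs x m ∧ Γ.tgt d ∈ Γ.vs x m := by
      intro m hm hdm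
      obtain ⟨c, hcm, hce⟩ := (mem_eds _ _).1 hdm
      obtain ⟨-, h3, h4⟩ := wk_mem hm c hcm
      rcases Sgn_ends (Γ := Γ) hce with ⟨h5, h6⟩ | ⟨h5, h6⟩
      · rw [← h5, ← h6]
        exact ⟨h3, h4⟩
      · rw [← h5, ← h6]
        exact ⟨h4, h3⟩
    rcases hdP with h3 | h3
    · exact ⟨Or.inl (key P hc.p.1 h3).1, Or.inl (key P hc.p.1 h3).2⟩
    · exact ⟨Or.inr (key P' hc.p'.1 h3).1, Or.inr (key P' hc.p'.1 h3).2⟩
  obtain ⟨R, R', hc', -, hedge, hconj⟩ := resplit (Γ := Γ.on (B ∪ eds l)) hc hv.1 hv.2 huw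
  -- the real part
  have hre : ((hl (sgt ε' τ) P * (hl (sgt ε' τ) P')⁻¹ : Hqˣ) : Hq).re =
      ((hl (sgt ε' τ) R * (hl (sgt ε' τ) R')⁻¹ : Hqˣ) : Hq).re := by
    rcases hconj Hqˣ (sgt ε' τ) with h3 | h3
    · obtain ⟨c, hc3⟩ := isConj_iff.1 h3
      rw [← hc3, re_conj]
    · obtain ⟨c, hc3⟩ := isConj_iff.1 h3
      rw [← re_inv (Sgn_norm_mul (hnorm R) (hnorm R')), ← hc3, re_conj]
  rw [hre]
  -- the single edge
  have hone : ∀ m : List (Da E), (Γ.on (B ∪ eds l)).Pt (Γ.src d) m (Γ.tgt d) → d.1 ∈ eds m → m = [d] := by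
    intro m hm hdm
    obtain ⟨c, hcm, hce⟩ := (mem_eds _ _).1 hdm
    have h3 : m = [c] := pt_edge_eq hm hcm (Sgn_ends (Γ := Γ) hce)
    rcases Sgn_fl hce with h4 | h4
    · rw [h3, h4]
    · exfalso
      rw [h3] at hm
      have h5 : Γ.src c = Γ.src d := hm.1.2.1
      rw [h4, src_fl] at h5
      exact huw h5.symm
  -- the main case
  have hmain : ∀ m : List (Da E), (Γ.on (B ∪ eds l)).Pt (Γ.src d) m (Γ.tgt d) →
      0 < ((hl (sgt ε' τ) [d] * (hl (sgt ε' τ) m)⁻¹ : Hqˣ) : Hq).re := by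
    intro m hm
    by_cases hdm : d.1 ∈ eds m
    · rw [hone m hm hdm, mul_inv_cancel]
      exact Sgn_one
    · obtain ⟨l₁, l₂, R₁, e1, e2, e3⟩ := Sgn_through h hdl hm hdm
      have h3 := hA R₁ e2
      have e4 : ((hl (sgt ε' τ) [d] * (hl (sgt ε' τ) m)⁻¹ : Hqˣ) : Hq).re =
          ((hl (sgt ε' τ) l * (hl (sgt ε' τ) R₁)⁻¹ : Hqˣ) : Hq).re := by
        rw [e3, hl_append _ (rv l₁ ++ R₁), hl_append _ (rv l₁), hl_rv, hl_rv, Sgn_conj, e1,
          show l₁ ++ d :: l₂ = l₁ ++ [d] ++ l₂ by simp, hl_append _ (l₁ ++ [d]), hl_append _ l₁]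
      rw [e4]
      exact h3
  have hdR : d.1 ∈ eds R ∨ d.1 ∈ eds R' := (hedge d.1).2 hdP
  rcases hdR with h3 | h3
  · rw [hone R hc'.p h3]
    exact hmain R' hc'.p'
  · rw [hone R' hc'.p' h3, Sgn_swap (hnorm _) (hnorm _)]
    exact hmain R hc'.p

theorem sign_lemma (hΓ : Γ.C2) (τ : E → Hqˣ) (hn : ∀ e, Quaternion.normSq (τ e : Hq) = 1)
    (hR : ∀ x y P P', Γ.Cy x y P P' → ((hl τ P * (hl τ P')⁻¹ : Hqˣ) : Hq).re ≠ 0)
    (hT : ∀ u w X Y Z, Γ.Th u w X Y Z → 0 < ((hl τ X * (hl τ Y)⁻¹ : Hqˣ) : Hq).re * ((hl τ Y * (hl τ Z)⁻¹ : Hqˣ) : Hq).re *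
      ((hl τ X * (hl τ Z)⁻¹ : Hqˣ) : Hq).re) :
    ∃ ε : E → Bool, ∀ x y P P', Γ.Cy x y P P' → 0 < ((hl (sgt ε τ) P * (hl (sgt ε τ) P')⁻¹ : Hqˣ) : Hq).re := by
  obtain ⟨e₀, he₀⟩ := hΓ.ne
  refine ear_induction hΓ (Finset.singleton_subset_iff.2 he₀) (single_C2 he₀ (hΓ.lf e₀ he₀))
    (fun B => ∃ ε : E → Bool, ∀ x y P P', (Γ.on B).Cy x y P P' →
      0 < ((hl (sgt ε τ) P * (hl (sgt ε τ) P')⁻¹ : Hqˣ) : Hq).re) ?_ ?_
  · refine ⟨fun _ => false, fun x y P P' hc => ?_⟩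
    rcases cy_disj hc with h1 | ⟨d, h1, h2⟩
    · exfalso
      obtain ⟨d, hd⟩ := List.exists_mem_of_ne_nil P (pt_ne hc.p hc.ne)
      obtain ⟨d', hd'⟩ := List.exists_mem_of_ne_nil P' (pt_ne hc.p' hc.ne)
      have h2 : d.1 = e₀ := Finset.mem_singleton.1 (wk_mem hc.p.1 d hd).1
      have h3 : d'.1 = e₀ := Finset.mem_singleton.1 (wk_mem hc.p'.1 d' hd').1
      exact h1 d hd ((mem_eds _ _).2 ⟨d', hd', by rw [h3, h2]⟩)
    · rw [h1, h2, mul_inv_cancel]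
      exact Sgn_one
  · intro B' a b l _ hB' hC hF hear
    obtain ⟨ε, hε⟩ := hF
    exact Sgn_step hn hR hT hB' hC hε hear

end Pool.Agent.FRM
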