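import Pool.Agent.FRM.Ear1

/-!
# FRM/Sp2: separations of order two: paths

PROOF PLAN.  `sep_or_C3`: if `C3` fails there are `x', y', z, z'`; `z ≠ z'` (`cut`); `W` = the vertices joined to `x'` by walks avoiding `z, z'`; `A₁` = the edges with an end in `W`, `A₂` = the others.  An end `∉ W` of an edge of `A₁` is `z` or `z'`.
`sep_symm`: clear.  `sep_mem`: `x ∈ V(A₁)`, ..: otherwise `V(A₁) ∩ V(A₂)` has at most one element `y`, and a walk of `Γ - y` from an inner vertex of side 1 to an inner vertex of side 2 has two consecutive edges in different sides.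
`sep_edge`: an edge is in `A₁` or in `A₂`, not in both.  `sep_xy`: a simple path from `x` to `y` has all its edges in `A₁` or all in `A₂` (consecutive edges in different sides meet in `x` or `y`).
`sep_split`: a simple path from `a` to `b` with `a, b ∈ V(A₁)`: if not all edges are in `A₁`, let `l₂` be the part between the first and the last edge of `A₂`: it starts and ends in `{x, y}` (an end of `l₂` is in `V(A₂)`, and it is in `V(A₁)`: it is an end of an edge of `A₁` of the path or it is `a` or `b`), and has all its edges in `A₂`, by `sep_xy`.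
`sep_path`: there is a path from `x` to `y` in `A₁`: from an inner vertex `v` of side 1 take walks to `x` avoiding `y` and to `y` avoiding `x`, cut at the first visit: all edges are in `A₁`; join and make simple.
-/

set_option autoImplicit false

noncomputable section

open scoped Classical

namespace Pool.Agent.FRM

open GG

variable {V E Q : Type} [AddCommGroup Q] {Γ : GG V E Q}

private theorem Sp2_end {B : Finset E} {d : Da E} (h : d.1 ∈ B) :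
    Γ.src d ∈ (Γ.on B).VS ∧ Γ.tgt d ∈ (Γ.on B).VS := by
  obtain ⟨e, b⟩ := d
  cases b
  · exact ⟨⟨e, h, Or.inr rfl⟩, ⟨e, h, Or.inl rfl⟩⟩
  · exact ⟨⟨e, h, Or.inl rfl⟩, ⟨e, h, Or.inr rfl⟩⟩

private theorem Sp2_side {A₁ A₂ : Finset E} (h : Γ.A = A₁ ∪ A₂) {e : E} (hd : e ∈ Γ.A) :
    e ∈ A₁ ∨ e ∈ A₂ := by
  rw [h] at hd
  exact Finset.mem_union.1 hd

private theorem Sp2_tail {x y : V} {d : Da E} {l : List (Da E)} (h : Γ.Pt x (d :: l) y) :
    Γ.Pt (Γ.tgt d) l y ∧ x ∉ Γ.vs (Γ.tgt d) l := by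
  have h2 : (x :: Γ.vs (Γ.tgt d) l).Nodup := h.2
  rw [List.nodup_cons] at h2
  exact ⟨⟨h.1.2.2, h2.2⟩, h2.1⟩

/-- a walk which meets no vertex of both sides stays in its side -/
private theorem Sp2_stay {A₁ A₂ : Finset E} (hu : Γ.A = A₁ ∪ A₂) {a b : V} {l : List (Da E)}
    (hw : Γ.Wk a l b) (ha : a ∈ (Γ.on A₁).VS)
    (hz : ∀ z ∈ Γ.vs a l, z ∈ (Γ.on A₁).VS → z ∉ (Γ.on A₂).VS) :
    (∀ d ∈ l, d.1 ∈ A₁) ∧ b ∈ (Γ.on A₁).VS := by
  induction l generalizing a with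
  | nil =>
    have h : a = b := hw
    subst h
    exact ⟨fun d hd => absurd hd List.not_mem_nil, ha⟩
  | cons d l ih =>
    obtain ⟨h1, h2, h3⟩ := hw
    have h4 : d.1 ∈ A₁ := by
      rcases Sp2_side hu h1 with h | h
      · exact h
      · have h5 := (Sp2_end (Γ := Γ) h).1
        rw [h2] at h5
        exact absurd h5 (hz a (wk_first a _) ha)
    obtain ⟨h5, h6⟩ := ih h3 (Sp2_end h4).2 (fun z hz' => hz z (List.mem_cons_of_mem a hz'))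
    refine ⟨fun e he => ?_, h6⟩
    rcases List.mem_cons.1 he with h | h
    · rw [h]
      exact h4
    · exact h5 e h

/-- a simple path which meets `x` and `y` only at its end stays in its side -/
private theorem Sp2_path {A₁ A₂ : Finset E} {x y : V} (h : Γ.Sep A₁ A₂ x y) {a b : V}
    {l : List (Da E)} (hl : Γ.Pt a l b) (ha : a ∈ (Γ.on A₁).VS)
    (hz : ∀ z ∈ Γ.vs a l, z ≠ b → z ≠ x ∧ z ≠ y) : ∀ d ∈ l, d.1 ∈ A₁ := by
  induction l generalizing a with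
  | nil => exact fun d hd => absurd hd List.not_mem_nil
  | cons d l ih =>
    have hab : a ≠ b := by
      intro hab
      subst hab
      exact List.cons_ne_nil d l (pt_self hl)
    have hxy := hz a (wk_first a _) hab
    obtain ⟨h1, h2, h3⟩ := hl.1
    have h4 : d.1 ∈ A₁ := by
      rcases Sp2_side h.un h1 with h5 | h5
      · exact h5
      · have h6 := (Sp2_end (Γ := Γ) h5).1
        rw [h2] at h6
        rcases h.mt a ha h6 with h7 | h7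
        · exact absurd h7 hxy.1
        · exact absurd h7 hxy.2
    have h8 := ih (Sp2_tail hl).1 (Sp2_end h4).2
      (fun z hz' => hz z (List.mem_cons_of_mem a hz'))
    intro e he
    rcases List.mem_cons.1 he with h9 | h9
    · rw [h9]
      exact h4
    · exact h8 e h9

private theorem Sp2_swap {A₁ A₂ : Finset E} {x y : V} (h : Γ.Sep A₁ A₂ x y) : Γ.Sep A₁ A₂ y x := by
  refine ⟨h.un, h.dj, h.ne.symm, fun z h1 h2 => (h.mt z h1 h2).symm, ?_, ?_⟩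
  · obtain ⟨z, h1, h2, h3⟩ := h.in₁
    exact ⟨z, h1, h3, h2⟩
  · obtain ⟨z, h1, h2, h3⟩ := h.in₂
    exact ⟨z, h1, h3, h2⟩

theorem sep_or_C3 (hΓ : Γ.C2) (h : ¬ Γ.C3) : ∃ A₁ A₂ x y, Γ.Sep A₁ A₂ x y := by
  unfold GG.C3 at h
  push Not at h
  obtain ⟨z, z', x, hx, y, hy, hxz, hxz', hyz, hyz', hn⟩ := h
  have hzz : z ≠ z' := by
    rintro rfl
    obtain ⟨l, h1, h2⟩ := hΓ.cut z x hx y hy hxz hyz
    exact h2 (hn l h1 h2)
  let W : Set V := {w | ∃ l, Γ.Wk x l w ∧ z ∉ Γ.vs x l ∧ z' ∉ Γ.vs x l}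
  have hyW : y ∉ W := by
    rintro ⟨l, h1, h2, h3⟩
    exact h3 (hn l h1 h2)
  have hxW : x ∈ W := by
    refine ⟨[], rfl, ?_, ?_⟩
    · show z ∉ [x]
      rw [List.mem_singleton]
      exact hxz.symm
    · show z' ∉ [x]
      rw [List.mem_singleton]
      exact hxz'.symm
  have hd : ∀ d : Da E, d.1 ∈ Γ.A → Γ.src d ∈ W → Γ.tgt d ≠ z → Γ.tgt d ≠ z' → Γ.tgt d ∈ W := by
    rintro d hdA ⟨l, h1, h2, h3⟩ h4 h5
    refine ⟨l ++ [d], wk_append.2 ⟨_, h1, hdA, rfl, rfl⟩, ?_, ?_⟩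
    · rw [vs_append, List.mem_append]
      rintro (h6 | h6)
      · exact h2 h6
      · rw [List.map_cons, List.map_nil, List.mem_singleton] at h6
        exact h4 h6.symm
    · rw [vs_append, List.mem_append]
      rintro (h6 | h6)
      · exact h3 h6
      · rw [List.map_cons, List.map_nil, List.mem_singleton] at h6
        exact h5 h6.symm
  have hst : ∀ e ∈ Γ.A, ∀ v, (Γ.s e = v ∨ Γ.t e = v) → (Γ.s e ∈ W ∨ Γ.t e ∈ W) → v ≠ z → v ≠ z' →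
      v ∈ W := by
    intro e he v hv hW h1 h2
    rcases hv with hv | hv
    · rcases hW with hW | hW
      · rw [← hv]
        exact hW
      · have h3 := hd (e, false) he hW
        have h4 : Γ.tgt (e, false) = v := hv
        rw [h4] at h3
        exact h3 h1 h2
    · rcases hW with hW | hW
      · have h3 := hd (e, true) he hW
        have h4 : Γ.tgt (e, true) = v := hv
        rw [h4] at h3
        exact h3 h1 h2
      · rw [← hv]
        exact hW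
  have hend : ∀ e, ∀ v, (Γ.s e = v ∨ Γ.t e = v) → v ∈ W → (Γ.s e ∈ W ∨ Γ.t e ∈ W) := by
    rintro e v (hv | hv) hW
    · left
      rw [hv]
      exact hW
    · right
      rw [hv]
      exact hW
  refine ⟨Γ.A.filter (fun e => Γ.s e ∈ W ∨ Γ.t e ∈ W),
    Γ.A.filter (fun e => ¬ (Γ.s e ∈ W ∨ Γ.t e ∈ W)), z, z', ?_⟩
  constructor
  · ext e
    rw [Finset.mem_union, Finset.mem_filter, Finset.mem_filter]
    tauto
  · rw [Finset.disjoint_left]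
    intro e h1 h2
    rw [Finset.mem_filter] at h1 h2
    exact h2.2 h1.2
  · exact hzz
  · rintro v ⟨e, he, hv⟩ ⟨e', he', hv'⟩
    have he1 := Finset.mem_filter.1 he
    have he2 := Finset.mem_filter.1 he'
    by_contra hc
    push Not at hc
    have h1 := hst e he1.1 v hv he1.2 hc.1 hc.2
    exact he2.2 (hend e' v hv' h1)
  · obtain ⟨e, he, hv⟩ := hx
    exact ⟨x, ⟨e, Finset.mem_filter.2 ⟨he, hend e x hv hxW⟩, hv⟩, hxz, hxz'⟩
  · obtain ⟨e, he, hv⟩ := hy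
    refine ⟨y, ⟨e, Finset.mem_filter.2 ⟨he, fun h1 => ?_⟩, hv⟩, hyz, hyz'⟩
    exact hyW (hst e he y hv h1 hyz hyz')

theorem sep_symm {A₁ A₂ : Finset E} {x y : V} (h : Γ.Sep A₁ A₂ x y) : Γ.Sep A₂ A₁ x y :=
  ⟨by rw [h.un, Finset.union_comm], h.dj.symm, h.ne, fun z h1 h2 => h.mt z h2 h1, h.in₂, h.in₁⟩

theorem sep_sub {A₁ A₂ : Finset E} {x y : V} (h : Γ.Sep A₁ A₂ x y) : A₁ ⊆ Γ.A := by
  rw [h.un]
  exact Finset.subset_union_left

private theorem Sp2_VS {A₁ A₂ : Finset E} {x y : V} (h : Γ.Sep A₁ A₂ x y) {z : V}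
    (hz : z ∈ (Γ.on A₁).VS) : z ∈ Γ.VS := by
  obtain ⟨e, he, h1⟩ := hz
  exact ⟨e, sep_sub h he, h1⟩

private theorem Sp2_mem (hΓ : Γ.C2) {A₁ A₂ : Finset E} {x y : V} (h : Γ.Sep A₁ A₂ x y) :
    x ∈ (Γ.on A₁).VS := by
  by_contra hx
  obtain ⟨z₁, h1, h2, h3⟩ := h.in₁
  obtain ⟨z₂, h4, h5, h6⟩ := h.in₂
  obtain ⟨l, h7, h8⟩ := hΓ.cut y z₁ (Sp2_VS h h1) z₂ (Sp2_VS (sep_symm h) h4) h3 h6
  have h9 := Sp2_stay h.un h7 h1 (fun z hz hz1 hz2 => by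
    rcases h.mt z hz1 hz2 with h10 | h10
    · rw [h10] at hz1
      exact hx hz1
    · rw [h10] at hz
      exact h8 hz)
  rcases h.mt z₂ h9.2 h4 with h10 | h10
  · exact h5 h10
  · exact h6 h10

theorem sep_mem (hΓ : Γ.C2) {A₁ A₂ : Finset E} {x y : V} (h : Γ.Sep A₁ A₂ x y) :
    x ∈ (Γ.on A₁).VS ∧ y ∈ (Γ.on A₁).VS :=
  ⟨Sp2_mem hΓ h, Sp2_mem hΓ (Sp2_swap h)⟩

private theorem Sp2_xy1 {A₁ A₂ : Finset E} {x y : V} (h : Γ.Sep A₁ A₂ x y) {d : Da E}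
    {l : List (Da E)} (hl : Γ.Pt x (d :: l) y) (hd : d.1 ∈ A₁) : ∀ e ∈ d :: l, e.1 ∈ A₁ := by
  obtain ⟨h1, h2⟩ := Sp2_tail hl
  have h3 := Sp2_path h h1 (Sp2_end hd).2 (fun z hz hzy => ⟨fun hzx => h2 (hzx ▸ hz), hzy⟩)
  intro e he
  rcases List.mem_cons.1 he with h4 | h4
  · rw [h4]
    exact hd
  · exact h3 e h4

theorem sep_xy (hΓ : Γ.C2) {A₁ A₂ : Finset E} {x y : V} (h : Γ.Sep A₁ A₂ x y) {l : List (Da E)} (hl : Γ.Pt x l y) :
    (∀ d ∈ l, d.1 ∈ A₁) ∨ ∀ d ∈ l, d.1 ∈ A₂ := by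
  cases l with
  | nil => exact absurd (pt_nil.1 hl) h.ne
  | cons d l =>
    rcases Sp2_side h.un hl.1.1 with h1 | h1
    · exact Or.inl (Sp2_xy1 h hl h1)
    · exact Or.inr (Sp2_xy1 (sep_symm h) hl h1)

private theorem Sp2_cut {A₁ A₂ : Finset E} (hu : Γ.A = A₁ ∪ A₂) {a b : V} {l : List (Da E)}
    (hw : Γ.Wk a l b) (ha : a ∈ (Γ.on A₁).VS) :
    (∀ d ∈ l, d.1 ∈ A₁) ∨ ∃ l₁ d m p, l = l₁ ++ d :: m ∧ (∀ e ∈ l₁, e.1 ∈ A₁) ∧ d.1 ∈ A₂ ∧
      Γ.Wk a l₁ p ∧ p ∈ (Γ.on A₁).VS ∧ Γ.Wk p (d :: m) b := by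
  induction l generalizing a with
  | nil => exact Or.inl fun d hd => absurd hd List.not_mem_nil
  | cons d l ih =>
    rcases Sp2_side hu hw.1 with h1 | h1
    · rcases ih hw.2.2 (Sp2_end h1).2 with h2 | ⟨l₁, d', m, p, h2, h3, h4, h5, h6, h7⟩
      · left
        intro e he
        rcases List.mem_cons.1 he with h4 | h4
        · rw [h4]
          exact h1
        · exact h2 e h4
      · right
        refine ⟨d :: l₁, d', m, p, ?_, ?_, h4, ⟨hw.1, hw.2.1, h5⟩, h6, h7⟩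
        · rw [h2, List.cons_append]
        · intro e he
          rcases List.mem_cons.1 he with h8 | h8
          · rw [h8]
            exact h1
          · exact h3 e h8
    · exact Or.inr ⟨[], d, l, a, rfl, fun e he => absurd he List.not_mem_nil, h1, rfl, ha, hw⟩

theorem sep_split (hΓ : Γ.C2) {A₁ A₂ : Finset E} {x y : V} (h : Γ.Sep A₁ A₂ x y) {a b : V} (ha : a ∈ (Γ.on A₁).VS)
    (hb : b ∈ (Γ.on A₁).VS) {l : List (Da E)} (hl : Γ.Pt a l b) :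
    (∀ d ∈ l, d.1 ∈ A₁) ∨ ∃ l₁ l₂ l₃ p q, l = l₁ ++ l₂ ++ l₃ ∧ Γ.Pt a l₁ p ∧ Γ.Pt p l₂ q ∧ Γ.Pt q l₃ b ∧
      (∀ d ∈ l₁, d.1 ∈ A₁) ∧ (∀ d ∈ l₂, d.1 ∈ A₂) ∧ (∀ d ∈ l₃, d.1 ∈ A₁) ∧ (p = x ∧ q = y ∨ p = y ∧ q = x) := by
  rcases Sp2_cut h.un hl.1 ha with h1 | ⟨l₁, d, m, p, h1, h2, h3, h4, h5, h6⟩
  · exact Or.inl h1
  right
  rcases Sp2_cut h.un (wk_rv h6) hb with h7 | ⟨l₄, d', m', q, h7, h8, h9, h10, h11, h12⟩
  · exfalso
    have h8 := h7 (fl d) ((mem_rv _ _).2 (by rw [fl_fl]; exact List.mem_cons_self))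
    exact Finset.disjoint_left.1 h.dj h8 h3
  have h13 : d :: m = rv (d' :: m') ++ rv l₄ := by
    rw [← rv_rv (d :: m), h7, rv_append]
  have h14 : l = l₁ ++ (rv (d' :: m') ++ rv l₄) := by
    rw [h1, h13]
  rw [h14] at hl
  obtain ⟨p', h15, h16, -⟩ := pt_split hl
  have hp' : p' = p := wk_unique h15.1 h4
  subst hp'
  obtain ⟨q', h17, h18, -⟩ := pt_split h16
  have hq' : q' = q := wk_unique h17.1 (wk_rv h12)
  subst hq'
  have hpm := h.mt p' h5 (by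
    have h19 := (Sp2_end (Γ := Γ) h3).1
    rw [h6.2.1] at h19
    exact h19)
  have hqm := h.mt q' h11 (by
    have h19 := (Sp2_end (Γ := Γ) h9).1
    rw [h12.2.1] at h19
    exact h19)
  have hd' : fl d' ∈ rv (d' :: m') := (mem_rv _ _).2 (by rw [fl_fl]; exact List.mem_cons_self)
  have hpq : p' ≠ q' := by
    intro h19
    rw [← h19] at h17
    rw [pt_self h17] at hd'
    exact absurd hd' List.not_mem_nil
  have hnot : ¬ ∀ e ∈ rv (d' :: m'), e.1 ∈ A₁ := fun h19 =>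
    Finset.disjoint_left.1 h.dj (h19 _ hd') h9
  have h3' : ∀ e ∈ rv l₄, e.1 ∈ A₁ := fun e he => h8 (fl e) ((mem_rv _ _).1 he)
  refine ⟨l₁, rv (d' :: m'), rv l₄, p', q', ?_, h15, h17, h18, h2, ?_, h3', ?_⟩
  · rw [h14, List.append_assoc]
  · rcases hpm with hp | hp <;> rcases hqm with hq | hq
    · exact absurd (hp.trans hq.symm) hpq
    · rw [hp, hq] at h17
      exact (sep_xy hΓ h h17).resolve_left hnot
    · rw [hp, hq] at h17
      exact (sep_xy hΓ (Sp2_swap h) h17).resolve_left hnot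
    · exact absurd (hp.trans hq.symm) hpq
  · rcases hpm with hp | hp <;> rcases hqm with hq | hq
    · exact absurd (hp.trans hq.symm) hpq
    · exact Or.inl ⟨hp, hq⟩
    · exact Or.inr ⟨hp, hq⟩
    · exact absurd (hp.trans hq.symm) hpq

private theorem Sp2_arm (hΓ : Γ.C2) {A₁ A₂ : Finset E} {x y : V} (h : Γ.Sep A₁ A₂ x y) {v : V}
    (hv : v ∈ (Γ.on A₁).VS) (hvy : v ≠ y) : ∃ R, (Γ.on A₁).Wk v R x := by
  obtain ⟨l, h1, h2⟩ := hΓ.cut y v (Sp2_VS h hv) x (Sp2_VS h (sep_mem hΓ h).1) hvy h.ne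
  obtain ⟨l', h3, h4, -⟩ := pt_of_wk h1
  have h5 := Sp2_path h h3 hv (fun z hz hzx => ⟨hzx, fun hzy => h2 (hzy ▸ h4 z hz)⟩)
  exact ⟨l', (wk_on (sep_sub h)).2 ⟨h3.1, h5⟩⟩

theorem sep_path (hΓ : Γ.C2) {A₁ A₂ : Finset E} {x y : V} (h : Γ.Sep A₁ A₂ x y) : ∃ P, (Γ.on A₁).Pt x P y := by
  obtain ⟨v, h1, h2, h3⟩ := h.in₁
  obtain ⟨R, h4⟩ := Sp2_arm hΓ h h1 h3
  obtain ⟨R', h5⟩ := Sp2_arm hΓ (Sp2_swap h) h1 h2
  obtain ⟨P, h6, -, -⟩ := pt_of_wk (wk_append.2 ⟨v, wk_rv h4, h5⟩)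
  exact ⟨P, h6⟩

private theorem Sp2_both {A₁ A₂ : Finset E} {x y : V} (h : Γ.Sep A₁ A₂ x y) {u w : V}
    {P : List (Da E)} (hP : Γ.Wk u P w) (hu : u ∈ (Γ.on A₁).VS) (hw : w ∉ (Γ.on A₁).VS)
    (hy : y ∉ Γ.vs u P) : x ∈ Γ.vs u P := by
  by_contra hx
  refine hw (Sp2_stay h.un hP hu fun z hz hz1 hz2 => ?_).2
  rcases h.mt z hz1 hz2 with h1 | h1
  · rw [h1] at hz
    exact hx hz
  · rw [h1] at hz
    exact hy hz

private theorem Sp2_cyin (hΓ : Γ.C2) {A₁ A₂ : Finset E} {x y : V} (h : Γ.Sep A₁ A₂ x y) {u w : V}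
    {P : List (Da E)} (hP : Γ.Pt u P w) (hu : u ∈ (Γ.on A₁).VS) (hw : w ∈ (Γ.on A₁).VS)
    (hy : y ∉ Γ.vs u P) : ∀ e ∈ eds P, e ∈ A₁ := by
  have key : ∀ d ∈ P, d.1 ∈ A₁ := by
    rcases sep_split hΓ h hu hw hP with h1 | ⟨l₁, l₂, l₃, p, q, h1, h2, h3, h4, -, -, -, h5⟩
    · exact h1
    · exfalso
      apply hy
      rw [h1, List.append_assoc]
      refine (mem_vs_append h2.1).2 (Or.inr ((mem_vs_append h3.1).2 (Or.inl ?_)))
      rcases h5 with ⟨-, h6⟩ | ⟨h6, -⟩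
      · rw [← h6]
        exact wk_last h3.1
      · rw [← h6]
        exact wk_first p l₂
  intro e he
  obtain ⟨d, hd, hde⟩ := (mem_eds e P).1 he
  rw [← hde]
  exact key d hd

private theorem Sp2_cy1 (hΓ : Γ.C2) {A₁ A₂ : Finset E} {x y : V} (h : Γ.Sep A₁ A₂ x y) {u w : V}
    {P P' : List (Da E)} (hP : Γ.Cy u w P P') (hy : y ∉ Γ.vs u P) (hy' : y ∉ Γ.vs u P') :
    (∀ e ∈ eds P ∪ eds P', e ∈ A₁) ∨ ∀ e ∈ eds P ∪ eds P', e ∈ A₂ := by
  have hm := sep_mem hΓ h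
  have hm' := sep_mem hΓ (sep_symm h)
  have hne := pt_ne hP.p hP.ne
  have hmem : ∀ z ∈ Γ.vs u P, z ∈ (Γ.on A₁).VS ∨ z ∈ (Γ.on A₂).VS := by
    intro z hz
    obtain ⟨d, hd, h1⟩ := wk_vs hP.p.1 hne hz
    rcases Sp2_side h.un (wk_mem hP.p.1 d hd).1 with h2 | h2
    · exact Or.inl ⟨d.1, h2, h1⟩
    · exact Or.inr ⟨d.1, h2, h1⟩
  have hcase : ∀ {B₁ B₂ : Finset E}, Γ.Sep B₁ B₂ x y → x ∈ (Γ.on B₁).VS → x ∈ (Γ.on B₂).VS →
      u ∈ (Γ.on B₁).VS → w ∉ (Γ.on B₁).VS → u ∉ (Γ.on B₂).VS → False := by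
    intro B₁ B₂ hs hx1 hx2 hu hw hu2
    have h1 := Sp2_both hs hP.p.1 hu hw hy
    have h2 := Sp2_both hs hP.p'.1 hu hw hy'
    rcases hP.dj x h1 h2 with h3 | h3
    · rw [h3] at hx2
      exact hu2 hx2
    · rw [h3] at hx1
      exact hw hx1
  have hfin : ∀ {B₁ B₂ : Finset E}, Γ.Sep B₁ B₂ x y → u ∈ (Γ.on B₁).VS → w ∈ (Γ.on B₁).VS →
      ∀ e ∈ eds P ∪ eds P', e ∈ B₁ := by
    intro B₁ B₂ hs hu hw e he
    rcases Finset.mem_union.1 he with h1 | h1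
    · exact Sp2_cyin hΓ hs hP.p hu hw hy e h1
    · exact Sp2_cyin hΓ hs hP.p' hu hw hy' e h1
  have hu := hmem u (wk_first u P)
  have hw := hmem w (wk_last hP.p.1)
  by_cases h1 : u ∈ (Γ.on A₁).VS
  · by_cases h2 : w ∈ (Γ.on A₁).VS
    · exact Or.inl (hfin h h1 h2)
    · by_cases h3 : u ∈ (Γ.on A₂).VS
      · exact Or.inr (hfin (sep_symm h) h3 (hw.resolve_left h2))
      · exact (hcase h hm.1 hm'.1 h1 h2 h3).elim
  · have h3 := hu.resolve_left h1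
    by_cases h2 : w ∈ (Γ.on A₂).VS
    · exact Or.inr (hfin (sep_symm h) h3 h2)
    · exact (hcase (sep_symm h) hm'.1 hm.1 h3 h2 h1).elim

/-- A cycle of `Γ` is in one side, or it is the union of two paths from `x` to `y`, one in each side. -/
theorem sep_cy (hΓ : Γ.C2) {A₁ A₂ : Finset E} {x y : V} (h : Γ.Sep A₁ A₂ x y) {u w : V} {P P' : List (Da E)}
    (hP : Γ.Cy u w P P') :
    ((∀ e ∈ eds P ∪ eds P', e ∈ A₁) ∨ ∀ e ∈ eds P ∪ eds P', e ∈ A₂) ∨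
      ((x ∈ Γ.vs u P ∨ x ∈ Γ.vs u P') ∧ (y ∈ Γ.vs u P ∨ y ∈ Γ.vs u P')) := by
  by_cases hy : y ∈ Γ.vs u P ∨ y ∈ Γ.vs u P'
  · by_cases hx : x ∈ Γ.vs u P ∨ x ∈ Γ.vs u P'
    · exact Or.inr ⟨hx, hy⟩
    · rw [not_or] at hx
      exact Or.inl (Sp2_cy1 hΓ (Sp2_swap h) hP hx.1 hx.2)
  · rw [not_or] at hy
    exact Or.inl (Sp2_cy1 hΓ h hP hy.1 hy.2)

theorem sep_nV {A₁ A₂ : Finset E} {x y : V} (h : Γ.Sep A₁ A₂ x y) : (Γ.on A₁).nV < Γ.nV := by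
  refine Set.ncard_lt_ncard ?_ VS_finite
  refine ⟨fun z hz => Sp2_VS h hz, fun hsub => ?_⟩
  obtain ⟨z, h1, h2, h3⟩ := h.in₂
  have h4 := hsub (Sp2_VS (sep_symm h) h1)
  rcases h.mt z h4 h1 with h5 | h5
  · exact h2 h5
  · exact h3 h5

end Pool.Agent.FRM
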