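import Pool.Agent.FRM.Cyv

/-!
# FRM/Stp: the two steps of the recursion for determinants

PROOF PLAN.  `f, g` injective.  `step_leaf`: `Matrix.det_succ_row` (only one term) and `dC_row`, `normSq (Mh ..) = 1`.  `step_cycle`: write `P = d :: P₁` (`P ≠ []`), `i` = the index of the row `x` (`f i = x`), `j` the index of the column `d.1` (`g j = d.1`).  `cycle_vec` for `Mk` (with `τ = Units.mk0 (ev (g e))`; `hl` is then `ev` of the gain) and for `Mh`.
`(Mk.submatrix f g).updateCol j (∑ columns)` has the same determinant (`Matrix.det_updateCol_sum`, coefficient `1`), resp. `dC_updateCol`; the new column is supported in row `i` with the entry `κ = (1 - ev (gn P' - gn P)) * Mk x d.1`, resp. `(1 - hol) * Mh x d.1`.  Balanced: `κ = 0` in both cases, a zero column.  Unbalanced: `ev (..) ≠ 1` (`ev_inj`), and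
`normSq (1 - q) = 2 - 2 re q = 1` for `q = hl τ P' * (hl τ P)⁻¹` of norm `1` and real part `1/2` (`Good.unb` for the symmetric cycle).  Expand along column `j` (`Matrix.det_succ_column`, `dC_col`); the minor does not contain the changed column.  (The sums over edges outside `range g` vanish: all edges of the cycle are in `range g`.)
-/

set_option autoImplicit false

noncomputable section

open scoped Classical

namespace Pool.Agent.FRM

open GG

variable {V E : Type} {Γ : GG V E XG} {Mk : Matrix V E KU} {Mh : Matrix V E Hq} {τ : E → Hqˣ}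

private theorem Stp_hlk {Γ : GG V E XG} (l : List (Da E)) :
    ((hl (fun e => Units.mk0 (ev (Γ.g e)) (ev_ne_zero _)) l : KUˣ) : KU) = ev (Γ.gn l) := by
  induction l with
  | nil =>
    rw [hl_nil, gn_nil, ev_zero]
    rfl
  | cons d l ih =>
    rw [hl_cons, gn_cons, ev_add, Units.val_mul, ih]
    obtain ⟨e, b⟩ := d
    cases b with
    | true => simp [GG.dg]
    | false => simp [GG.dg, ev_neg]

private theorem Stp_norm {τ : E → Hqˣ} {A : Finset E} (hn : ∀ e ∈ A, Quaternion.normSq (τ e : Hq) = 1)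
    (l : List (Da E)) (hl' : ∀ d ∈ l, d.1 ∈ A) : Quaternion.normSq ((hl τ l : Hqˣ) : Hq) = 1 := by
  induction l with
  | nil =>
    rw [hl_nil]
    simp
  | cons d l ih =>
    rw [hl_cons, Units.val_mul, map_mul, ih (fun d' hd' => hl' d' (List.mem_cons_of_mem _ hd')), mul_one]
    have h1 := hn d.1 (hl' d List.mem_cons_self)
    obtain ⟨e, b⟩ := d
    cases b with
    | true => simpa using h1
    | false =>
      have h2 : (((τ e)⁻¹ : Hqˣ) : Hq) = ((τ e : Hq))⁻¹ := Units.val_inv_eq_inv_val (τ e)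
      simp only [Bool.false_eq_true, if_false]
      rw [h2, map_inv₀, h1, inv_one]

private theorem Stp_sum {D : Type} [DivisionRing D] {m : ℕ} (g : Fin m → E) (hg : Function.Injective g) (S : Finset E)
    (hS : ∀ e ∈ S, e ∈ Set.range g) (F : E → D) (hF : ∀ e, e ∉ S → F e = 0) :
    ∑ k, F (g k) = ∑ e ∈ S, F e := by
  rw [← Finset.sum_image (s := Finset.univ) (g := g) (f := F) (fun a _ b _ h => hg h)]
  symm
  apply Finset.sum_subset
  · intro e he
    obtain ⟨k, hk⟩ := hS e he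
    exact Finset.mem_image.mpr ⟨k, Finset.mem_univ k, hk⟩
  · intro e _ he
    exact hF e he

private theorem Stp_vec {D : Type} [DivisionRing D] {Γ : GG V E XG} {M : Matrix V E D} {τ : E → Dˣ} (hM : Cmp Γ M τ)
    {x y : V} {d : Da E} {P P' : List (Da E)} (h : Γ.Cy x y (d :: P) P') (hne : d :: P ≠ P')
    {m : ℕ} (f : Fin (m + 1) → V) (g : Fin (m + 1) → E) (hg : Function.Injective g)
    (he : ∀ e ∈ eds (d :: P) ∪ eds P', e ∈ Set.range g) (j : Fin (m + 1)) (hj : g j = d.1) :
    ∃ c : Fin (m + 1) → D, c j = 1 ∧ (∀ i, f i ≠ x → ∑ k, M (f i) (g k) * c k = 0) ∧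
      (∀ i, f i = x → ∑ k, M (f i) (g k) * c k = (1 - ((hl τ P' * (hl τ (d :: P))⁻¹ : Dˣ) : D)) * M x d.1) ∧
      M x d.1 ≠ 0 := by
  obtain ⟨v, hv1, hv0, hvz, hvx, hne'⟩ := cycle_vec hM h hne
  have key : ∀ i, ∑ k, M (f i) (g k) * v (g k) = ∑ e ∈ eds (d :: P) ∪ eds P', M (f i) e * v e := by
    intro i
    apply Stp_sum g hg _ he (fun e => M (f i) e * v e)
    intro e he'
    rw [Finset.mem_union, not_or] at he'
    show M (f i) e * v e = 0
    rw [hv0 e he'.1 he'.2, mul_zero]
  refine ⟨fun k => v (g k), ?_, ?_, ?_, hne'⟩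
  · show v (g j) = 1
    rw [hj, hv1]
  · intro i hi
    rw [key i]
    exact hvz _ hi
  · intro i hi
    rw [key i, hi]
    exact hvx

theorem step_zero (hF : FrD Γ Mk Mh τ) {m : ℕ} (f : Fin m → V) (g : Fin m → E) (i : Fin m)
    (h : ∀ j, Mk (f i) (g j) = 0) : (Mk.submatrix f g).det = 0 ∧ dC (Mh.submatrix f g) = 0 := by
  refine ⟨Matrix.det_eq_zero_of_row_eq_zero i (fun j => h j), dC_zero_row _ i fun j => ?_⟩
  exact (hF.sup _ _).mp (h j)

theorem step_leaf (hF : FrD Γ Mk Mh τ) {m : ℕ} (f : Fin (m + 1) → V) (g : Fin (m + 1) → E) (i j : Fin (m + 1))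
    (h : Mk (f i) (g j) ≠ 0) (h' : ∀ j', j' ≠ j → Mk (f i) (g j') = 0) :
    ((Mk.submatrix f g).det = 0 ↔ (Mk.submatrix (f ∘ i.succAbove) (g ∘ j.succAbove)).det = 0) ∧
      dC (Mh.submatrix f g) = dC (Mh.submatrix (f ∘ i.succAbove) (g ∘ j.succAbove)) := by
  constructor
  · rw [Matrix.det_succ_row _ i, Finset.sum_eq_single j]
    · rw [Matrix.submatrix_submatrix]
      constructor
      · intro h0
        rcases mul_eq_zero.mp h0 with h1 | h1
        · rcases mul_eq_zero.mp h1 with h2 | h2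
          · exact absurd h2 (pow_ne_zero _ (neg_ne_zero.mpr one_ne_zero))
          · exact absurd h2 h
        · exact h1
      · intro h0
        rw [h0, mul_zero]
    · intro j' _ hj'
      have h1 : (Mk.submatrix f g) i j' = 0 := h' j' hj'
      rw [h1, mul_zero, zero_mul]
    · intro h1
      exact absurd (Finset.mem_univ j) h1
  · rw [dC_row (Mh.submatrix f g) i j (fun j' hj' => (hF.sup _ _).mp (h' j' hj'))]
    have h1 : Quaternion.normSq ((Mh.submatrix f g) i j) = 1 :=
      hF.nrm _ _ (fun h0 => h ((hF.sup _ _).mpr h0))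
    rw [h1, Matrix.submatrix_submatrix]
    simp

theorem step_cycle (hF : FrD Γ Mk Mh τ) {x y : V} {P P' : List (Da E)} (hC : Γ.Cy x y P P') (hne : P ≠ P')
    {m : ℕ} (f : Fin (m + 1) → V) (g : Fin (m + 1) → E) (hf : Function.Injective f) (hg : Function.Injective g)
    (hv : ∀ z, z ∈ Γ.vs x P ∨ z ∈ Γ.vs x P' → z ∈ Set.range f) (he : ∀ e ∈ eds P ∪ eds P', e ∈ Set.range g) :
    ∃ i j : Fin (m + 1),
      (Γ.gn P = Γ.gn P' → (Mk.submatrix f g).det = 0 ∧ dC (Mh.submatrix f g) = 0) ∧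
      (Γ.gn P ≠ Γ.gn P' →
        ((Mk.submatrix f g).det = 0 ↔ (Mk.submatrix (f ∘ i.succAbove) (g ∘ j.succAbove)).det = 0) ∧
          dC (Mh.submatrix f g) = dC (Mh.submatrix (f ∘ i.succAbove) (g ∘ j.succAbove))) := by
  obtain ⟨d, P₁, rfl⟩ : ∃ d P₁, P = d :: P₁ := by
    cases P with
    | nil => exact absurd hC.p.1 hC.ne
    | cons d P₁ => exact ⟨d, P₁, rfl⟩
  obtain ⟨i, hi⟩ := hv x (Or.inl List.mem_cons_self)
  obtain ⟨j, hj⟩ := he d.1 (by
    rw [Finset.mem_union]
    exact Or.inl ((mem_eds _ _).mpr ⟨d, List.mem_cons_self, rfl⟩))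
  have hMk : Cmp Γ Mk (fun e => Units.mk0 (ev (Γ.g e)) (ev_ne_zero _)) :=
    ⟨hF.lf, hF.nt, hF.out, fun e he' => hF.ek e he'⟩
  have hMh : Cmp Γ Mh τ :=
    ⟨hF.lf, fun e he' h0 => hF.nt e he' ((hF.sup _ _).mpr h0), fun e he' a h1 h2 => (hF.sup _ _).mp (hF.out e he' a h1 h2),
      fun e he' => hF.eh e he'⟩
  obtain ⟨c, hc1, hcz, hcx, hcn⟩ := Stp_vec hMk hC hne f g hg he j hj
  obtain ⟨b, hb1, hbz, hbx, hbn⟩ := Stp_vec hMh hC hne f g hg he j hj
  have hdet : (Mk.submatrix f g).det = (-1) ^ (i + j : ℕ) *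
      ((1 - ev (Γ.gn P' - Γ.gn (d :: P₁))) * Mk x d.1) * (Mk.submatrix (f ∘ i.succAbove) (g ∘ j.succAbove)).det := by
    have h1 := Matrix.det_updateCol_sum (Mk.submatrix f g) j c
    rw [hc1, one_smul] at h1
    rw [← h1, Matrix.det_succ_column _ j, Finset.sum_eq_single i]
    · rw [Matrix.submatrix_updateCol_succAbove, Matrix.submatrix_submatrix, Matrix.updateCol_self]
      have h2 : ∑ k, c k • (Mk.submatrix f g) i k = (1 - ev (Γ.gn P' - Γ.gn (d :: P₁))) * Mk x d.1 := by
        have h3 := hcx i hi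
        rw [Units.val_mul, Units.val_inv_eq_inv_val, Stp_hlk, Stp_hlk, ← ev_neg, ← ev_add, ← sub_eq_add_neg] at h3
        rw [← h3]
        apply Finset.sum_congr rfl
        intro k _
        rw [smul_eq_mul, mul_comm]
        rfl
      rw [h2]
    · intro i' _ hi'
      rw [Matrix.updateCol_self]
      have h2 : ∑ k, c k • (Mk.submatrix f g) i' k = 0 := by
        have h3 := hcz i' (fun h4 => hi' (hf (h4.trans hi.symm)))
        rw [← h3]
        apply Finset.sum_congr rfl
        intro k _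
        rw [smul_eq_mul, mul_comm]
        rfl
      rw [h2, mul_zero, zero_mul]
    · intro h2
      exact absurd (Finset.mem_univ i) h2
  have hdC : dC (Mh.submatrix f g) =
      ((Quaternion.normSq ((1 - ((hl τ P' * (hl τ (d :: P₁))⁻¹ : Hqˣ) : Hq)) * Mh x d.1) : ℚ) : ℂ) *
        dC (Mh.submatrix (f ∘ i.succAbove) (g ∘ j.succAbove)) := by
    have h1 := dC_updateCol (Mh.submatrix f g) j b (by rw [hb1]; simp)
    rw [← h1, dC_col _ i j]
    · rw [Matrix.submatrix_updateCol_succAbove, Matrix.submatrix_submatrix, Matrix.updateCol_self]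
      have h2 : ∑ k, (Mh.submatrix f g) i k * b k = (1 - ((hl τ P' * (hl τ (d :: P₁))⁻¹ : Hqˣ) : Hq)) * Mh x d.1 :=
        hbx i hi
      rw [h2]
    · intro i' hi'
      rw [Matrix.updateCol_self]
      exact hbz i' (fun h4 => hi' (hf (h4.trans hi.symm)))
  refine ⟨i, j, fun hb => ⟨?_, ?_⟩, fun hu => ⟨?_, ?_⟩⟩
  · rw [hdet, hb, sub_self, ev_zero, sub_self, zero_mul, mul_zero, zero_mul]
  · rw [hdC, hF.good.bal x y _ _ hC hb, mul_inv_cancel]
    simp
  · rw [hdet]
    constructor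
    · intro h0
      rcases mul_eq_zero.mp h0 with h1 | h1
      · exfalso
        rcases mul_eq_zero.mp h1 with h2 | h2
        · exact pow_ne_zero _ (neg_ne_zero.mpr one_ne_zero) h2
        · rcases mul_eq_zero.mp h2 with h3 | h3
          · have h4 := ev_inj (sub_eq_zero.mp h3).symm
            exact hu (sub_eq_zero.mp h4).symm
          · exact hcn h3
      · exact h1
    · intro h0
      rw [h0, mul_zero]
  · rw [hdC]
    have hA : ∀ e ∈ Γ.A, Quaternion.normSq (τ e : Hq) = 1 := fun e he' => (hF.good.hu e he').1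
    have n1 := Stp_norm hA (d :: P₁) (fun d' hd' => (wk_mem hC.p.1 d' hd').1)
    have n2 := Stp_norm hA P' (fun d' hd' => (wk_mem hC.p'.1 d' hd').1)
    have r1 := hF.good.unb x y P' (d :: P₁) (cy_symm hC) (fun h0 => hu h0.symm)
    have n3 : Quaternion.normSq ((hl τ P' * (hl τ (d :: P₁))⁻¹ : Hqˣ) : Hq) = 1 := by
      rw [Units.val_mul, Units.val_inv_eq_inv_val, map_mul, map_inv₀, n1, n2]
      norm_num
    have n4 : Quaternion.normSq (1 - ((hl τ P' * (hl τ (d :: P₁))⁻¹ : Hqˣ) : Hq)) = 1 := by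
      rw [Quaternion.normSq_def'] at n3 ⊢
      simp only [Quaternion.re_sub, Quaternion.imI_sub, Quaternion.imJ_sub, Quaternion.imK_sub, Quaternion.re_one,
        Quaternion.imI_one, Quaternion.imJ_one, Quaternion.imK_one]
      nlinarith [n3, r1]
    have n5 : Quaternion.normSq (Mh x d.1) = 1 := hF.nrm _ _ hbn
    rw [map_mul, n4, n5]
    simp

end Pool.Agent.FRM
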