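import Pool.Agent.FRM.Defs

/-!
# FRM/Wk1: walks, holonomy, gains: the basic rules

Inductions on lists.
-/

set_option autoImplicit false

noncomputable section

open scoped Classical

namespace Pool.Agent.FRM

open GG

variable {V E Q : Type} [AddCommGroup Q] {Γ : GG V E Q}


private theorem Wk1_fl_fl (d : Da E) : fl (fl d) = d := by
  rcases d with ⟨e, b⟩
  simp [fl]

theorem rv_nil : rv ([] : List (Da E)) = [] := rfl

theorem rv_cons (d : Da E) (l : List (Da E)) : rv (d :: l) = rv l ++ [fl d] := by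
  simp [rv]

theorem rv_append (l l' : List (Da E)) : rv (l ++ l') = rv l' ++ rv l := by
  simp [rv]

theorem rv_rv (l : List (Da E)) : rv (rv l) = l := by
  induction l with
  | nil => rfl
  | cons d l ih =>
    rw [rv_cons, rv_append, ih]
    show [fl (fl d)] ++ l = d :: l
    rw [Wk1_fl_fl]
    rfl

theorem rv_length (l : List (Da E)) : (rv l).length = l.length := by
  simp [rv]

theorem mem_rv (d : Da E) (l : List (Da E)) : d ∈ rv l ↔ fl d ∈ l := by
  unfold rv
  rw [List.mem_reverse, List.mem_map]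
  constructor
  · rintro ⟨a, ha, h⟩
    rw [← h, Wk1_fl_fl]
    exact ha
  · intro h
    exact ⟨fl d, h, Wk1_fl_fl d⟩

theorem fl_fl (d : Da E) : fl (fl d) = d := Wk1_fl_fl d

theorem mem_eds (e : E) (l : List (Da E)) : e ∈ eds l ↔ ∃ d ∈ l, d.1 = e := by
  unfold eds
  rw [List.mem_toFinset, List.mem_map]

theorem eds_rv (l : List (Da E)) : eds (rv l) = eds l := by
  ext e
  rw [mem_eds, mem_eds]
  constructor
  · rintro ⟨d, hd, h⟩
    exact ⟨fl d, (mem_rv d l).1 hd, h⟩
  · rintro ⟨d, hd, h⟩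
    refine ⟨fl d, (mem_rv _ l).2 ?_, h⟩
    rw [fl_fl]
    exact hd

theorem eds_append (l l' : List (Da E)) : eds (l ++ l') = eds l ∪ eds l' := by
  unfold eds
  rw [List.map_append, List.toFinset_append]

section Hol

variable {G : Type} [Group G] (τ : E → G)

theorem hl_nil : hl τ [] = 1 := rfl

theorem hl_cons (d : Da E) (l : List (Da E)) :
    hl τ (d :: l) = (if d.2 then τ d.1 else (τ d.1)⁻¹) * hl τ l := by
  unfold hl
  rw [List.map_cons, List.prod_cons]

theorem hl_append (l l' : List (Da E)) : hl τ (l ++ l') = hl τ l * hl τ l' := by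
  unfold hl
  rw [List.map_append, List.prod_append]

theorem hl_rv (l : List (Da E)) : hl τ (rv l) = (hl τ l)⁻¹ := by
  induction l with
  | nil =>
    rw [rv_nil, hl_nil, inv_one]
  | cons d l ih =>
    rw [rv_cons, hl_append, hl_cons, hl_cons, hl_nil, mul_one, ih, mul_inv_rev]
    congr 1
    rcases d with ⟨e, b⟩
    cases b
    · simp [fl]
    · simp [fl]

end Hol

theorem src_fl (d : Da E) : Γ.src (fl d) = Γ.tgt d := by
  rcases d with ⟨e, b⟩
  cases b <;> rfl

theorem tgt_fl (d : Da E) : Γ.tgt (fl d) = Γ.src d := by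
  rcases d with ⟨e, b⟩
  cases b <;> rfl

theorem dg_fl (d : Da E) : Γ.dg (fl d) = -Γ.dg d := by
  rcases d with ⟨e, b⟩
  cases b <;> simp [fl, dg]

theorem gn_nil : Γ.gn [] = 0 := rfl

theorem gn_cons (d : Da E) (l : List (Da E)) : Γ.gn (d :: l) = Γ.dg d + Γ.gn l := by
  unfold gn
  rw [List.map_cons, List.sum_cons]

theorem gn_append (l l' : List (Da E)) : Γ.gn (l ++ l') = Γ.gn l + Γ.gn l' := by
  unfold gn
  rw [List.map_append, List.sum_append]

theorem gn_rv (l : List (Da E)) : Γ.gn (rv l) = -Γ.gn l := by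
  induction l with
  | nil => rw [rv_nil, gn_nil, neg_zero]
  | cons d l ih =>
    rw [rv_cons, gn_append, gn_cons, gn_cons, gn_nil, add_zero, ih, dg_fl, neg_add, add_comm]

theorem wk_append {x z : V} {l l' : List (Da E)} :
    Γ.Wk x (l ++ l') z ↔ ∃ y, Γ.Wk x l y ∧ Γ.Wk y l' z := by
  induction l generalizing x with
  | nil =>
    constructor
    · intro h
      exact ⟨x, rfl, h⟩
    · rintro ⟨y, h1, h2⟩
      have h3 : x = y := h1
      rw [h3]
      exact h2
  | cons d l ih =>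
    constructor
    · rintro ⟨h1, h2, h3⟩
      obtain ⟨y, h4, h5⟩ := ih.1 h3
      exact ⟨y, ⟨h1, h2, h4⟩, h5⟩
    · rintro ⟨y, ⟨h1, h2, h4⟩, h5⟩
      exact ⟨h1, h2, ih.2 ⟨y, h4, h5⟩⟩

theorem wk_rv {x y : V} {l : List (Da E)} (h : Γ.Wk x l y) : Γ.Wk y (rv l) x := by
  induction l generalizing x with
  | nil =>
    have h1 : x = y := h
    exact h1.symm
  | cons d l ih =>
    obtain ⟨h1, h2, h3⟩ := h
    rw [rv_cons]
    refine wk_append.2 ⟨Γ.tgt d, ih h3, h1, src_fl d, ?_⟩
    show Γ.tgt (fl d) = x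
    rw [tgt_fl]
    exact h2

theorem wk_unique {x y y' : V} {l : List (Da E)} (h : Γ.Wk x l y) (h' : Γ.Wk x l y') : y = y' := by
  induction l generalizing x with
  | nil =>
    have h1 : x = y := h
    have h2 : x = y' := h'
    rw [← h1, h2]
  | cons d l ih => exact ih h.2.2 h'.2.2

theorem vs_append (x : V) (l l' : List (Da E)) : Γ.vs x (l ++ l') = Γ.vs x l ++ l'.map Γ.tgt := by
  unfold vs
  rw [List.map_append, List.cons_append]

private theorem Wk1_last {x y : V} {l : List (Da E)} (h : Γ.Wk x l y) : y ∈ Γ.vs x l := by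
  induction l generalizing x with
  | nil =>
    have h1 : x = y := h
    rw [h1]
    exact List.mem_cons_self
  | cons d l ih =>
    show y ∈ x :: Γ.vs (Γ.tgt d) l
    exact List.mem_cons_of_mem x (ih h.2.2)

theorem mem_vs_append {x y z : V} {l l' : List (Da E)} (h : Γ.Wk x l y) :
    z ∈ Γ.vs x (l ++ l') ↔ z ∈ Γ.vs x l ∨ z ∈ Γ.vs y l' := by
  rw [vs_append, List.mem_append]
  constructor
  · rintro (h1 | h1)
    · exact Or.inl h1
    · exact Or.inr (List.mem_cons_of_mem y h1)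
  · rintro (h1 | h1)
    · exact Or.inl h1
    · rcases List.mem_cons.1 h1 with h2 | h2
      · left
        rw [h2]
        exact Wk1_last h
      · exact Or.inr h2

theorem vs_rv {x y : V} {l : List (Da E)} (h : Γ.Wk x l y) : Γ.vs y (rv l) = (Γ.vs x l).reverse := by
  induction l generalizing x with
  | nil =>
    have h1 : x = y := h
    rw [h1]
    rfl
  | cons d l ih =>
    obtain ⟨h1, h2, h3⟩ := h
    have h4 : Γ.vs x (d :: l) = x :: Γ.vs (Γ.tgt d) l := rfl
    rw [rv_cons, vs_append, ih h3, h4, List.reverse_cons]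
    show (Γ.vs (Γ.tgt d) l).reverse ++ [Γ.tgt (fl d)] = _
    rw [tgt_fl, h2]

theorem mem_vs_rv {x y z : V} {l : List (Da E)} (h : Γ.Wk x l y) : z ∈ Γ.vs y (rv l) ↔ z ∈ Γ.vs x l := by
  rw [vs_rv h, List.mem_reverse]

theorem wk_first (x : V) (l : List (Da E)) : x ∈ Γ.vs x l := List.mem_cons_self

theorem wk_last {x y : V} {l : List (Da E)} (h : Γ.Wk x l y) : y ∈ Γ.vs x l := Wk1_last h

theorem wk_mem {x y : V} {l : List (Da E)} (h : Γ.Wk x l y) :
    ∀ d ∈ l, d.1 ∈ Γ.A ∧ Γ.src d ∈ Γ.vs x l ∧ Γ.tgt d ∈ Γ.vs x l := by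
  induction l generalizing x with
  | nil =>
    intro d hd
    exact absurd hd List.not_mem_nil
  | cons d l ih =>
    obtain ⟨h1, h2, h3⟩ := h
    have h4 : Γ.vs x (d :: l) = x :: Γ.vs (Γ.tgt d) l := rfl
    intro d' hd'
    rw [h4]
    rcases List.mem_cons.1 hd' with h5 | h5
    · rw [h5]
      refine ⟨h1, ?_, List.mem_cons_of_mem x (wk_first _ l)⟩
      rw [h2]
      exact List.mem_cons_self
    · obtain ⟨h6, h7, h8⟩ := ih h3 d' h5
      exact ⟨h6, List.mem_cons_of_mem x h7, List.mem_cons_of_mem x h8⟩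

/-- The vertices of a nontrivial walk are ends of its edges. -/
theorem wk_vs {x y z : V} {l : List (Da E)} (h : Γ.Wk x l y) (hl : l ≠ []) (hz : z ∈ Γ.vs x l) :
    ∃ d ∈ l, Γ.s d.1 = z ∨ Γ.t d.1 = z := by
  rcases List.mem_cons.1 hz with h1 | h1
  · obtain ⟨d, l', rfl⟩ := List.exists_cons_of_ne_nil hl
    refine ⟨d, List.mem_cons_self, ?_⟩
    have h2 := h.2.1
    rw [h1, ← h2]
    rcases d with ⟨e, b⟩
    cases b
    · exact Or.inr rfl
    · exact Or.inl rfl
  · obtain ⟨d, hd, h2⟩ := List.mem_map.1 h1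
    refine ⟨d, hd, ?_⟩
    rw [← h2]
    rcases d with ⟨e, b⟩
    cases b
    · exact Or.inl rfl
    · exact Or.inr rfl

theorem wk_VS {x y z : V} {l : List (Da E)} (h : Γ.Wk x l y) (hx : x ∈ Γ.VS) (hz : z ∈ Γ.vs x l) :
    z ∈ Γ.VS := by
  by_cases hl : l = []
  · subst hl
    have h1 : z = x := by simpa [vs] using hz
    rw [h1]
    exact hx
  · obtain ⟨d, hd, h1⟩ := wk_vs h hl hz
    exact ⟨d.1, (wk_mem h d hd).1, h1⟩

end Pool.Agent.FRM
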