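import Pool.Agent.FRM.Wk1

/-!
# FRM/Wk2: simple paths

Splitting, concatenation and reversal of simple paths; every walk contains a simple path with the same ends; the edges of
a simple path are distinct and no loops.
-/

set_option autoImplicit false

noncomputable section

open scoped Classical

namespace Pool.Agent.FRM

open GG

variable {V E Q : Type} [AddCommGroup Q] {Γ : GG V E Q}

private theorem Wk2_vs_cons (x : V) (d : Da E) (l : List (Da E)) : Γ.vs x (d :: l) = x :: Γ.vs (Γ.tgt d) l := rfl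

private theorem Wk2_vs_nil (x : V) : Γ.vs x ([] : List (Da E)) = [x] := rfl

private theorem Wk2_tail {x y : V} {d : Da E} {l : List (Da E)} (h : Γ.Pt x (d :: l) y) : Γ.Pt (Γ.tgt d) l y := by
  have h2 := h.2
  rw [Wk2_vs_cons, List.nodup_cons] at h2
  exact ⟨h.1.2.2, h2.2⟩

private theorem Wk2_head {x y : V} {d : Da E} {l : List (Da E)} (h : Γ.Pt x (d :: l) y) : x ∉ Γ.vs (Γ.tgt d) l := by
  have h2 := h.2
  rw [Wk2_vs_cons, List.nodup_cons] at h2
  exact h2.1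

private theorem Wk2_cons {x y : V} {d : Da E} {l : List (Da E)} (he : d.1 ∈ Γ.A) (hs : Γ.src d = x)
    (h : Γ.Pt (Γ.tgt d) l y) (hx : x ∉ Γ.vs (Γ.tgt d) l) : Γ.Pt x (d :: l) y := by
  refine ⟨⟨he, hs, h.1⟩, ?_⟩
  rw [Wk2_vs_cons, List.nodup_cons]
  exact ⟨hx, h.2⟩

private theorem Wk2_ends {d d' : Da E} (h : d'.1 = d.1) :
    (Γ.src d' = Γ.src d ∧ Γ.tgt d' = Γ.tgt d) ∨ (Γ.src d' = Γ.tgt d ∧ Γ.tgt d' = Γ.src d) := by
  obtain ⟨e, b⟩ := d
  obtain ⟨e', b'⟩ := d'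
  simp only at h
  subst h
  cases b <;> cases b' <;> simp [GG.src, GG.tgt]

private theorem Wk2_ne_iff (d : Da E) : Γ.src d ≠ Γ.tgt d ↔ Γ.s d.1 ≠ Γ.t d.1 := by
  obtain ⟨e, b⟩ := d
  cases b
  · simp only [GG.src, GG.tgt]
    exact ne_comm
  · simp only [GG.src, GG.tgt]
    exact Iff.rfl

theorem pt_nil {x y : V} : Γ.Pt x [] y ↔ x = y := by
  constructor
  · intro h
    exact h.1
  · intro h
    refine ⟨h, ?_⟩
    rw [Wk2_vs_nil]
    exact List.nodup_singleton x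

theorem pt_self {x : V} {l : List (Da E)} (h : Γ.Pt x l x) : l = [] := by
  cases l with
  | nil => rfl
  | cons d l => exact absurd (wk_last h.1.2.2) (Wk2_head h)

theorem pt_ne {x y : V} {l : List (Da E)} (h : Γ.Pt x l y) (hne : x ≠ y) : l ≠ [] := by
  intro hl
  subst hl
  exact hne (pt_nil.1 h)

theorem pt_single {d : Da E} (he : d.1 ∈ Γ.A) (hl : Γ.s d.1 ≠ Γ.t d.1) : Γ.Pt (Γ.src d) [d] (Γ.tgt d) := by
  refine Wk2_cons he rfl (pt_nil.2 rfl) ?_
  rw [Wk2_vs_nil, List.mem_singleton]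
  exact (Wk2_ne_iff d).2 hl

theorem pt_rv {x y : V} {l : List (Da E)} (h : Γ.Pt x l y) : Γ.Pt y (rv l) x := by
  refine ⟨wk_rv h.1, ?_⟩
  rw [vs_rv h.1]
  exact List.nodup_reverse.2 h.2

theorem pt_append {x y z : V} {l l' : List (Da E)} (h : Γ.Pt x l y) (h' : Γ.Pt y l' z)
    (hd : ∀ w ∈ Γ.vs x l, w ∈ Γ.vs y l' → w = y) : Γ.Pt x (l ++ l') z := by
  refine ⟨wk_append.2 ⟨y, h.1, h'.1⟩, ?_⟩
  rw [vs_append, List.nodup_append]
  have h2 : (y :: l'.map Γ.tgt).Nodup := h'.2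
  rw [List.nodup_cons] at h2
  refine ⟨h.2, h2.2, ?_⟩
  intro a ha b hb hab
  subst hab
  have h3 : a = y := hd a ha (List.mem_cons_of_mem y hb)
  subst h3
  exact h2.1 hb

theorem pt_split {x z : V} {l l' : List (Da E)} (h : Γ.Pt x (l ++ l') z) :
    ∃ y, Γ.Pt x l y ∧ Γ.Pt y l' z ∧ ∀ w ∈ Γ.vs x l, w ∈ Γ.vs y l' → w = y := by
  obtain ⟨y, h1, h2⟩ := wk_append.1 h.1
  have h3 := h.2
  rw [vs_append, List.nodup_append] at h3
  obtain ⟨h4, h5, h6⟩ := h3
  refine ⟨y, ⟨h1, h4⟩, ⟨h2, ?_⟩, ?_⟩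
  · show (y :: l'.map Γ.tgt).Nodup
    rw [List.nodup_cons]
    exact ⟨fun hy => h6 y (wk_last h1) y hy rfl, h5⟩
  · intro w hw hw'
    have hw2 : w ∈ y :: l'.map Γ.tgt := hw'
    rcases List.mem_cons.1 hw2 with h7 | h7
    · exact h7
    · exact absurd rfl (h6 w hw w h7)

private theorem Wk2_split_wk {x y z : V} {l : List (Da E)} (h : Γ.Wk x l y) (hz : z ∈ Γ.vs x l) :
    ∃ l₁ l₂, l = l₁ ++ l₂ ∧ Γ.Wk x l₁ z := by
  induction l generalizing x with
  | nil =>
    rw [Wk2_vs_nil, List.mem_singleton] at hz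
    exact ⟨[], [], rfl, hz.symm⟩
  | cons d l ih =>
    rw [Wk2_vs_cons, List.mem_cons] at hz
    rcases hz with hz | hz
    · exact ⟨[], d :: l, rfl, hz.symm⟩
    · obtain ⟨l₁, l₂, h1, h2⟩ := ih h.2.2 hz
      exact ⟨d :: l₁, l₂, by rw [h1]; rfl, ⟨h.1, h.2.1, h2⟩⟩

theorem pt_split_at {x y z : V} {l : List (Da E)} (h : Γ.Pt x l y) (hz : z ∈ Γ.vs x l) :
    ∃ l₁ l₂, l = l₁ ++ l₂ ∧ Γ.Pt x l₁ z ∧ Γ.Pt z l₂ y ∧ ∀ w ∈ Γ.vs x l₁, w ∈ Γ.vs z l₂ → w = z := by
  obtain ⟨l₁, l₂, h1, h2⟩ := Wk2_split_wk h.1 hz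
  subst h1
  obtain ⟨z', h3, h4, h5⟩ := pt_split h
  have h6 := wk_unique h2 h3.1
  subst h6
  exact ⟨l₁, l₂, rfl, h3, h4, h5⟩

theorem pt_of_wk {x y : V} {l : List (Da E)} (h : Γ.Wk x l y) :
    ∃ l', Γ.Pt x l' y ∧ (∀ z ∈ Γ.vs x l', z ∈ Γ.vs x l) ∧ ∀ d ∈ l', d ∈ l := by
  induction l generalizing x with
  | nil => exact ⟨[], pt_nil.2 h, fun z hz => hz, fun d hd => hd⟩
  | cons d l ih =>
    obtain ⟨l', h1, h2, h3⟩ := ih h.2.2
    by_cases hx : x ∈ Γ.vs (Γ.tgt d) l'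
    · obtain ⟨l₁, l₂, h4, h5, h6, h7⟩ := pt_split_at h1 hx
      refine ⟨l₂, h6, ?_, ?_⟩
      · intro z hz
        rw [Wk2_vs_cons, List.mem_cons]
        refine Or.inr (h2 z ?_)
        rw [h4]
        exact (mem_vs_append h5.1).2 (Or.inr hz)
      · intro e he
        refine List.mem_cons_of_mem d (h3 e ?_)
        rw [h4]
        exact List.mem_append_right l₁ he
    · refine ⟨d :: l', Wk2_cons h.1 h.2.1 h1 hx, ?_, ?_⟩
      · intro z hz
        rw [Wk2_vs_cons, List.mem_cons] at hz ⊢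
        rcases hz with hz | hz
        · exact Or.inl hz
        · exact Or.inr (h2 z hz)
      · intro e he
        rcases List.mem_cons.1 he with he | he
        · rw [he]
          exact List.mem_cons_self
        · exact List.mem_cons_of_mem d (h3 e he)

theorem pt_first_hit {x y : V} {l : List (Da E)} (h : Γ.Pt x l y) (W : Set V) (hy : y ∈ W) :
    ∃ l₁ l₂ z, l = l₁ ++ l₂ ∧ Γ.Pt x l₁ z ∧ Γ.Pt z l₂ y ∧ z ∈ W ∧ (∀ w ∈ Γ.vs x l₁, w ∈ W → w = z) ∧
      ∀ w ∈ Γ.vs x l₁, w ∈ Γ.vs z l₂ → w = z := by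
  induction l generalizing x with
  | nil =>
    have hxy := pt_nil.1 h
    subst hxy
    refine ⟨[], [], x, rfl, h, h, hy, ?_, ?_⟩
    · intro w hw _
      rw [Wk2_vs_nil, List.mem_singleton] at hw
      exact hw
    · intro w hw _
      rw [Wk2_vs_nil, List.mem_singleton] at hw
      exact hw
  | cons d l ih =>
    by_cases hx : x ∈ W
    · refine ⟨[], d :: l, x, rfl, pt_nil.2 rfl, h, hx, ?_, ?_⟩
      · intro w hw _
        rw [Wk2_vs_nil, List.mem_singleton] at hw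
        exact hw
      · intro w hw _
        rw [Wk2_vs_nil, List.mem_singleton] at hw
        exact hw
    · obtain ⟨l₁, l₂, z, h1, h2, h3, h4, h5, h6⟩ := ih (Wk2_tail h)
      subst h1
      have h7 : Γ.Pt x ((d :: l₁) ++ l₂) y := h
      obtain ⟨z', h8, h9, h10⟩ := pt_split h7
      have h11 : Γ.Wk x (d :: l₁) z := ⟨h.1.1, h.1.2.1, h2.1⟩
      have h12 := wk_unique h11 h8.1
      subst h12
      refine ⟨d :: l₁, l₂, z, rfl, h8, h9, h4, ?_, h10⟩
      intro w hw hwW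
      rw [Wk2_vs_cons, List.mem_cons] at hw
      rcases hw with hw | hw
      · subst hw
        exact absurd hwW hx
      · exact h5 w hw hwW

theorem pt_edge_eq {x y : V} {l : List (Da E)} {d : Da E} (h : Γ.Pt x l y) (hd : d ∈ l)
    (he : (Γ.src d = x ∧ Γ.tgt d = y) ∨ (Γ.src d = y ∧ Γ.tgt d = x)) : l = [d] := by
  obtain ⟨a, b, hab⟩ := List.append_of_mem hd
  subst hab
  obtain ⟨z, h1, h2, h3⟩ := pt_split h
  have hz : Γ.src d = z := h2.1.2.1
  rcases he with ⟨h4, h5⟩ | ⟨h4, h5⟩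
  · have hzx : z = x := hz.symm.trans h4
    subst hzx
    have ha := pt_self h1
    subst ha
    have h6 := Wk2_tail h2
    rw [h5] at h6
    have hb := pt_self h6
    subst hb
    rfl
  · have hzy : z = y := hz.symm.trans h4
    subst hzy
    exact absurd (pt_self h2) (List.cons_ne_nil d b)

theorem pt_nodup {x y : V} {l : List (Da E)} (h : Γ.Pt x l y) : (l.map Prod.fst).Nodup := by
  induction l generalizing x with
  | nil => exact List.nodup_nil
  | cons d l ih =>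
    rw [List.map_cons, List.nodup_cons]
    refine ⟨?_, ih (Wk2_tail h)⟩
    intro hd
    obtain ⟨d', hd', he⟩ := List.mem_map.1 hd
    have h1 := wk_mem (Wk2_tail h).1 d' hd'
    have h2 := Wk2_head h
    have h3 : Γ.src d = x := h.1.2.1
    rcases Wk2_ends (Γ := Γ) he with ⟨h4, _⟩ | ⟨_, h4⟩
    · apply h2
      rw [← h3, ← h4]
      exact h1.2.1
    · apply h2
      rw [← h3, ← h4]
      exact h1.2.2

theorem pt_lf {x y : V} {l : List (Da E)} (h : Γ.Pt x l y) : ∀ d ∈ l, Γ.s d.1 ≠ Γ.t d.1 := by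
  induction l generalizing x with
  | nil =>
    intro d hd
    exact absurd hd List.not_mem_nil
  | cons d l ih =>
    intro d' hd'
    rcases List.mem_cons.1 hd' with h1 | h1
    · rw [h1, ← Wk2_ne_iff]
      intro h2
      have h3 : Γ.src d = x := h.1.2.1
      apply Wk2_head h
      rw [← h3, h2]
      exact wk_first _ _
    · exact ih (Wk2_tail h) d' h1

/-- A path with at least two edges has an inner vertex. -/
theorem pt_inner {x y : V} {l : List (Da E)} (h : Γ.Pt x l y) (hl : 2 ≤ l.length) :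
    ∃ z ∈ Γ.vs x l, z ≠ x ∧ z ≠ y := by
  match l, h, hl with
  | [], _, hl => simp at hl
  | [_], _, hl => simp at hl
  | d :: d' :: l', h, _ =>
    refine ⟨Γ.tgt d, ?_, ?_, ?_⟩
    · rw [Wk2_vs_cons, Wk2_vs_cons]
      simp
    · intro h1
      apply Wk2_head h
      rw [← h1]
      exact wk_first _ _
    · intro h1
      apply Wk2_head (Wk2_tail h)
      rw [h1]
      exact wk_last (Wk2_tail (Wk2_tail h)).1

/-- A path with an inner vertex has at least two edges. -/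
theorem pt_two {x y z : V} {l : List (Da E)} (h : Γ.Pt x l y) (hz : z ∈ Γ.vs x l) (hx : z ≠ x) (hy : z ≠ y) :
    2 ≤ l.length := by
  match l, h, hz with
  | [], _, hz =>
    rw [Wk2_vs_nil, List.mem_singleton] at hz
    exact absurd hz hx
  | [d], h, hz =>
    rw [Wk2_vs_cons, Wk2_vs_nil, List.mem_cons, List.mem_singleton] at hz
    have h1 : Γ.tgt d = y := h.1.2.2
    rcases hz with hz | hz
    · exact absurd hz hx
    · exact absurd (hz.trans h1) hy
  | d :: d' :: l', _, _ => simp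

end Pool.Agent.FRM
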