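import Pool.Agent.FRM.Wk2

/-!
# FRM/Wk3: restriction to a set of edges; cycles

PROOF PLAN.  `Γ.on B` has the same `src`, `tgt`, `dg`, `gn`, `vs` as `Γ` (`rfl`).
-/

set_option autoImplicit false

noncomputable section

open scoped Classical

namespace Pool.Agent.FRM

open GG

variable {V E Q : Type} [AddCommGroup Q] {Γ : GG V E Q}


private theorem Wk3_to {B : Finset E} {x y : V} {l : List (Da E)} (h : Γ.Wk x l y) (hB : ∀ d ∈ l, d.1 ∈ B) :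
    (Γ.on B).Wk x l y := by
  induction l generalizing x with
  | nil => exact h
  | cons d l ih =>
    obtain ⟨-, h2, h3⟩ := h
    exact ⟨hB d List.mem_cons_self, h2, ih h3 fun d' hd' => hB d' (List.mem_cons_of_mem _ hd')⟩

private theorem Wk3_of {B : Finset E} {x y : V} {l : List (Da E)} (h : (Γ.on B).Wk x l y) :
    ∀ d ∈ l, d.1 ∈ B := by
  induction l generalizing x with
  | nil => simp
  | cons d l ih =>
    obtain ⟨h1, -, h3⟩ := h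
    intro d' hd'
    rcases List.mem_cons.1 hd' with rfl | hd'
    · exact h1
    · exact ih h3 d' hd'

private theorem Wk3_fr {B : Finset E} (hB : B ⊆ Γ.A) {x y : V} {l : List (Da E)} (h : (Γ.on B).Wk x l y) :
    Γ.Wk x l y := by
  induction l generalizing x with
  | nil => exact h
  | cons d l ih =>
    obtain ⟨h1, h2, h3⟩ := h
    exact ⟨hB h1, h2, ih h3⟩

theorem wk_on {B : Finset E} (hB : B ⊆ Γ.A) {x y : V} {l : List (Da E)} :
    (Γ.on B).Wk x l y ↔ Γ.Wk x l y ∧ ∀ d ∈ l, d.1 ∈ B :=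
  ⟨fun h => ⟨Wk3_fr hB h, Wk3_of h⟩, fun h => Wk3_to h.1 h.2⟩

theorem pt_on {B : Finset E} (hB : B ⊆ Γ.A) {x y : V} {l : List (Da E)} :
    (Γ.on B).Pt x l y ↔ Γ.Pt x l y ∧ ∀ d ∈ l, d.1 ∈ B :=
  ⟨fun h => ⟨⟨Wk3_fr hB h.1, h.2⟩, Wk3_of h.1⟩, fun h => ⟨Wk3_to h.1.1 h.2, h.1.2⟩⟩

theorem cy_on {B : Finset E} (hB : B ⊆ Γ.A) {x y : V} {P P' : List (Da E)} :
    (Γ.on B).Cy x y P P' ↔ Γ.Cy x y P P' ∧ (∀ d ∈ P, d.1 ∈ B) ∧ ∀ d ∈ P', d.1 ∈ B :=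
  ⟨fun h => ⟨⟨h.ne, ((pt_on hB).1 h.p).1, ((pt_on hB).1 h.p').1, h.dj⟩, Wk3_of h.p.1, Wk3_of h.p'.1⟩,
    fun h => ⟨h.1.ne, (pt_on hB).2 ⟨h.1.p, h.2.1⟩, (pt_on hB).2 ⟨h.1.p', h.2.2⟩, h.1.dj⟩⟩

theorem wk_mono {B B' : Finset E} (hB : B ⊆ B') {x y : V} {l : List (Da E)} (h : (Γ.on B).Wk x l y) :
    (Γ.on B').Wk x l y := by
  induction l generalizing x with
  | nil => exact h
  | cons d l ih =>
    obtain ⟨h1, h2, h3⟩ := h
    exact ⟨hB h1, h2, ih h3⟩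

theorem pt_mono {B B' : Finset E} (hB : B ⊆ B') {x y : V} {l : List (Da E)} (h : (Γ.on B).Pt x l y) :
    (Γ.on B').Pt x l y :=
  ⟨wk_mono hB h.1, h.2⟩

theorem cy_mono {B B' : Finset E} (hB : B ⊆ B') {x y : V} {P P' : List (Da E)} (h : (Γ.on B).Cy x y P P') :
    (Γ.on B').Cy x y P P' :=
  ⟨h.ne, pt_mono hB h.p, pt_mono hB h.p', h.dj⟩

theorem on_A : Γ.on Γ.A = Γ := rfl

theorem on_on (B B' : Finset E) : (Γ.on B).on B' = Γ.on B' := rfl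

theorem phi_on {B : Finset E} (hB : B ⊆ Γ.A) {Φ : Set Q} (h : Γ.Phi Φ) : (Γ.on B).Phi Φ :=
  fun x y P P' hc => h x y P P' ((cy_on hB).1 hc).1

theorem ins_on {B : Finset E} (hB : B ⊆ Γ.A) {S : AddSubgroup Q} (h : Γ.InS S) : (Γ.on B).InS S := by
  obtain ⟨p, hp⟩ := h
  exact ⟨p, fun e he => hp e (hB he)⟩

theorem cyc_on {B : Finset E} (hB : B ⊆ Γ.A) (h : Γ.Cyc) : (Γ.on B).Cyc := by
  obtain ⟨g, hg⟩ := h
  exact ⟨g, ins_on hB hg⟩

theorem VS_mono {B B' : Finset E} (hB : B ⊆ B') : (Γ.on B).VS ⊆ (Γ.on B').VS := by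
  rintro z ⟨e, he, hz⟩
  exact ⟨e, hB he, hz⟩

theorem VS_union (B B' : Finset E) : (Γ.on (B ∪ B')).VS = (Γ.on B).VS ∪ (Γ.on B').VS := by
  ext z
  constructor
  · rintro ⟨e, he, hz⟩
    rcases Finset.mem_union.1 he with he | he
    · exact Or.inl ⟨e, he, hz⟩
    · exact Or.inr ⟨e, he, hz⟩
  · rintro (⟨e, he, hz⟩ | ⟨e, he, hz⟩)
    · exact ⟨e, Finset.mem_union_left _ he, hz⟩
    · exact ⟨e, Finset.mem_union_right _ he, hz⟩

private theorem Wk3_ends (Γ : GG V E Q) (d : Da E) :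
    (Γ.src d = Γ.s d.1 ∧ Γ.tgt d = Γ.t d.1) ∨ (Γ.src d = Γ.t d.1 ∧ Γ.tgt d = Γ.s d.1) := by
  unfold GG.src GG.tgt
  cases d.2
  · right
    simp
  · left
    simp

theorem VS_eds {a b : V} {l : List (Da E)} (h : Γ.Wk a l b) (hl : l ≠ []) :
    (Γ.on (eds l)).VS = {z | z ∈ Γ.vs a l} := by
  ext z
  constructor
  · rintro ⟨e, he, hz⟩
    obtain ⟨d, hd, rfl⟩ := (mem_eds _ _).1 he
    obtain ⟨-, h1, h2⟩ := wk_mem h d hd
    change Γ.s d.1 = z ∨ Γ.t d.1 = z at hz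
    change z ∈ Γ.vs a l
    rcases Wk3_ends Γ d with ⟨h3, h4⟩ | ⟨h3, h4⟩
    · rcases hz with rfl | rfl
      · rw [← h3]
        exact h1
      · rw [← h4]
        exact h2
    · rcases hz with rfl | rfl
      · rw [← h4]
        exact h2
      · rw [← h3]
        exact h1
  · intro hz
    obtain ⟨d, hd, hz'⟩ := wk_vs h hl hz
    exact ⟨d.1, (mem_eds _ _).2 ⟨d, hd, rfl⟩, hz'⟩

theorem eds_sub {a b : V} {l : List (Da E)} (h : Γ.Wk a l b) : eds l ⊆ Γ.A := by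
  intro e he
  obtain ⟨d, hd, rfl⟩ := (mem_eds _ _).1 he
  exact (wk_mem h d hd).1

theorem pt_eds {a b : V} {l : List (Da E)} {B : Finset E} (h : Γ.Pt a l b) (hB : eds l ⊆ B) :
    (Γ.on B).Pt a l b :=
  ⟨Wk3_to h.1 fun d hd => hB ((mem_eds _ _).2 ⟨d, hd, rfl⟩), h.2⟩

theorem cy_symm {x y : V} {P P' : List (Da E)} (h : Γ.Cy x y P P') : Γ.Cy x y P' P :=
  ⟨h.ne, h.p', h.p, fun z h1 h2 => h.dj z h2 h1⟩

theorem cy_rv {x y : V} {P P' : List (Da E)} (h : Γ.Cy x y P P') : Γ.Cy y x (rv P) (rv P') :=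
  ⟨h.ne.symm, pt_rv h.p, pt_rv h.p', fun z h1 h2 =>
    (h.dj z ((mem_vs_rv h.p.1).1 h1) ((mem_vs_rv h.p'.1).1 h2)).symm⟩

/-- The two paths of a cycle have no common edge, or are the same edge. -/
theorem cy_disj {x y : V} {P P' : List (Da E)} (h : Γ.Cy x y P P') :
    (∀ d ∈ P, d.1 ∉ eds P') ∨ ∃ d, P = [d] ∧ P' = [d] := by
  by_cases hc : ∀ d ∈ P, d.1 ∉ eds P'
  · exact Or.inl hc
  · right
    push Not at hc
    obtain ⟨d, hd, he⟩ := hc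
    obtain ⟨d', hd', hdd⟩ := (mem_eds _ _).1 he
    have hlf := pt_lf h.p d hd
    have key : ∀ {R : List (Da E)} {c : Da E}, Γ.Pt x R y → c ∈ R → Γ.s c.1 ∈ Γ.vs x R ∧ Γ.t c.1 ∈ Γ.vs x R := by
      intro R c hR hcR
      obtain ⟨-, h1, h2⟩ := wk_mem hR.1 c hcR
      rcases Wk3_ends Γ c with ⟨h3, h4⟩ | ⟨h3, h4⟩
      · rw [← h3, ← h4]
        exact ⟨h1, h2⟩
      · rw [← h3, ← h4]
        exact ⟨h2, h1⟩
    obtain ⟨a1, a2⟩ := key h.p hd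
    obtain ⟨b1, b2⟩ := key h.p' hd'
    rw [hdd] at b1 b2
    have c1 := h.dj _ a1 b1
    have c2 := h.dj _ a2 b2
    have hends : ∀ c : Da E, c.1 = d.1 → (Γ.src c = x ∧ Γ.tgt c = y) ∨ (Γ.src c = y ∧ Γ.tgt c = x) := by
      intro c hcd
      rcases Wk3_ends Γ c with ⟨h3, h4⟩ | ⟨h3, h4⟩ <;> rw [hcd] at h3 h4 <;> rw [h3, h4] <;>
        rcases c1 with c1 | c1 <;> rcases c2 with c2 | c2 <;> rw [c1, c2] at hlf ⊢ <;> simp_all
    have e1 := pt_edge_eq h.p hd (hends d rfl)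
    have e2 := pt_edge_eq h.p' hd' (hends d' hdd)
    have f1 : Γ.src d = x := by
      have := h.p.1
      rw [e1] at this
      exact this.2.1
    have f2 : Γ.src d' = x := by
      have := h.p'.1
      rw [e2] at this
      exact this.2.1
    have hd2 : d' = d := by
      refine Prod.ext hdd ?_
      by_contra hne
      have hlf' : Γ.s d.1 ≠ Γ.t d.1 := pt_lf h.p d hd
      unfold GG.src at f1 f2
      rw [hdd] at f2
      cases h5 : d.2 <;> cases h6 : d'.2 <;> rw [h5] at f1 hne <;> rw [h6] at f2 hne <;> simp at f1 f2 hne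
      · exact hlf' (f2.trans f1.symm)
      · exact hlf' (f1.trans f2.symm)
    exact ⟨d, e1, by rw [e2, hd2]⟩

/-- an edge which is parallel to a single edge of gain different from it -/
theorem cy_digon {f f' : E} (hf : f ∈ Γ.A) (hf' : f' ∈ Γ.A) (hl : Γ.s f ≠ Γ.t f) (hs : Γ.s f' = Γ.s f)
    (ht : Γ.t f' = Γ.t f) : Γ.Cy (Γ.s f) (Γ.t f) [(f, true)] [(f', true)] := by
  have h1 : Γ.Pt (Γ.s f) [(f, true)] (Γ.t f) := by
    have := pt_single (Γ := Γ) (d := (f, true)) hf hl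
    simpa [GG.src, GG.tgt] using this
  have h2 : Γ.Pt (Γ.s f) [(f', true)] (Γ.t f) := by
    have := pt_single (Γ := Γ) (d := (f', true)) hf' (by rw [hs, ht]; exact hl)
    simpa [GG.src, GG.tgt, hs, ht] using this
  refine ⟨hl, h1, h2, ?_⟩
  intro z hz _
  simpa [GG.vs, GG.tgt] using hz

theorem VS_finite : Γ.VS.Finite := by
  have h1 : Γ.VS = (Γ.s '' (Γ.A : Set E)) ∪ (Γ.t '' (Γ.A : Set E)) := by
    ext z
    constructor
    · rintro ⟨e, he, hz | hz⟩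
      · exact Or.inl ⟨e, he, hz⟩
      · exact Or.inr ⟨e, he, hz⟩
    · rintro (⟨e, he, hz⟩ | ⟨e, he, hz⟩)
      · exact ⟨e, he, Or.inl hz⟩
      · exact ⟨e, he, Or.inr hz⟩
  rw [h1]
  exact (Γ.A.finite_toSet.image _).union (Γ.A.finite_toSet.image _)

theorem sp_mono {T T' : Set Q} (h : Γ.Sp T) (hT : T' ⊆ T) : Γ.Sp T' := by
  intro x hx y hy hxy
  obtain ⟨q, hq | hq⟩ := h x hx y hy hxy
  · exact ⟨q, Or.inl fun a ha => hq a (hT ha)⟩
  · exact ⟨q, Or.inr fun a ha => hq a (hT ha)⟩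

end Pool.Agent.FRM
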